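import Pool.Agent.Lib.MP_0c1c75_co.KPI.SpecH

/-!
# MP_0c1c75_co, project KPI: assembly of `S_Asm`
-/

set_option autoImplicit false

open MeasureTheory Set Metric

namespace Pool.Agent.Lib.MP_0c1c75_co.KPI

private theorem Asm_exp (γ ε : ℝ) (hγ : 0 < γ) (hε : 0 < ε) :
    ∃ d1 : ℕ, ∀ d ≥ d1, Real.exp (-(γ * (d : ℕ))) < ε := by
  have h1 : Filter.Tendsto (fun d : ℕ => γ * (d : ℝ)) Filter.atTop Filter.atTop :=
    Filter.Tendsto.const_mul_atTop hγ tendsto_natCast_atTop_atTop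
  have h2 : Filter.Tendsto (fun d : ℕ => Real.exp (-(γ * (d : ℝ)))) Filter.atTop (nhds 0) :=
    Real.tendsto_exp_neg_atTop_nhds_zero.comp h1
  exact Filter.eventually_atTop.1 (h2.eventually (Iio_mem_nhds hε))

private theorem Asm_rel {d N : ℕ} (η δ : ℝ) (p q : Fin N → E d) (r : Fin N → ℝ) :
    Rel q r = TF η δ p q r ∪ TN η δ p q r := by
  classical
  ext i
  rw [Finset.mem_union]
  unfold TF TN
  rw [Finset.mem_filter, Finset.mem_filter]
  constructor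
  · intro hi
    by_cases h : ∃ k, Ft η δ p q r k ∧ i ∈ Jk p q r k
    · exact Or.inl ⟨hi, h⟩
    · exact Or.inr ⟨hi, h⟩
  · rintro (h | h)
    · exact h.1
    · exact h.1

theorem sAsm (hFatT : S_FatT) (hNonF : S_NonF) (hIrr : S_Irr) (hLowG : S_LowG) : S_Asm := by
  intro c c2 hc0 hc1 hc2
  obtain ⟨b, hb0, hb1, hbc⟩ : ∃ b : ℝ, 0 < b ∧ b < 1 ∧ b * b = c := by
    refine ⟨Real.sqrt c, Real.sqrt_pos.2 hc0, ?_, Real.mul_self_sqrt hc0.le⟩
    rw [Real.sqrt_lt' one_pos]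
    simpa using hc1
  obtain ⟨ηG, hη, hF⟩ := hFatT b c2 hb0 hb1 hc2
  obtain ⟨δ, γ, hδ0, hδ1, hγ, dN, hN⟩ := hNonF b ηG hb0 hb1 hη
  obtain ⟨dF, hF⟩ := hF δ hδ0 hδ1
  obtain ⟨dE, hE⟩ := Asm_exp γ ((1 - b) / 2) hγ (by linarith)
  refine ⟨max (max dN dF) (max dE 1), fun d hd N p q r i0 hcfg hG => ?_⟩
  have hdN : dN ≤ d := le_trans (le_trans (le_max_left _ _) (le_max_left _ _)) hd
  have hdF : dF ≤ d := le_trans (le_trans (le_max_right _ _) (le_max_left _ _)) hd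
  have hdE : dE ≤ d := le_trans (le_trans (le_max_left _ _) (le_max_right _ _)) hd
  have hd1 : 0 < d :=
    lt_of_lt_of_le Nat.one_pos (le_trans (le_trans (le_max_right _ _) (le_max_right _ _)) hd)
  have hbi : b⁻¹ * c = b := by
    rw [← hbc, ← mul_assoc, inv_mul_cancel₀ hb0.ne', one_mul]
  obtain ⟨q1, hq1⟩ : ∃ q1 : Fin N → E d, q1 = fun i => b⁻¹ • q i := ⟨_, rfl⟩
  have hq : (fun i => b • q1 i) = q := by
    rw [hq1]
    funext i
    rw [smul_smul, mul_inv_cancel₀ hb0.ne', one_smul]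
  have hcon : Contr 1 p q1 := by
    intro i j
    rw [hq1]
    show dist (b⁻¹ • q i) (b⁻¹ • q j) ≤ 1 * dist (p i) (p j)
    rw [dist_smul₀, Real.norm_of_nonneg (inv_nonneg.2 hb0.le)]
    calc b⁻¹ * dist (q i) (q j) ≤ b⁻¹ * (c * dist (p i) (p j)) :=
          mul_le_mul_of_nonneg_left (hcfg.con i j) (inv_nonneg.2 hb0.le)
      _ = b * dist (p i) (p j) := by rw [← mul_assoc, hbi]
      _ ≤ 1 * dist (p i) (p j) := mul_le_mul_of_nonneg_right hb1.le dist_nonneg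
  have hn : ∀ i, ‖q1 i‖ ≤ b * ‖p i‖ := by
    intro i
    have h1 := hcfg.con i i0
    rw [hcfg.q0, hcfg.p0, dist_zero_right, dist_zero_right] at h1
    rw [hq1]
    show ‖b⁻¹ • q i‖ ≤ b * ‖p i‖
    rw [norm_smul, Real.norm_of_nonneg (inv_nonneg.2 hb0.le)]
    calc b⁻¹ * ‖q i‖ ≤ b⁻¹ * (c * ‖p i‖) :=
          mul_le_mul_of_nonneg_left h1 (inv_nonneg.2 hb0.le)
      _ = b * ‖p i‖ := by rw [← mul_assoc, hbi]
  have hn1 : ∀ i, ‖q1 i‖ ≤ ‖p i‖ := by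
    intro i
    refine le_trans (hn i) ?_
    have h1 := mul_le_mul_of_nonneg_right hb1.le (norm_nonneg (p i))
    rwa [one_mul] at h1
  have hF1 := hF d hdF N p q1 r hcon hn1 hcfg.r1 hG
  have hN1 := hN d hdN N p q1 r hcon hn hcfg.r1
  have hE1 := hE d hdE
  rw [hq] at hF1 hN1
  have h1 := hIrr.1 d N q r hcfg.r1
  have h2 := (hLowG d N q r (TF ηG δ p q r) hd1).2.2.2.1 (TN ηG δ p q r)
  rw [Asm_rel ηG δ p q r] at h1
  have h3 : 0 ≤ Gt p r Finset.univ 0 := measureReal_nonneg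
  have h4 : Real.exp (-(γ * d)) * Gt p r Finset.univ 0 ≤
      (1 - b) / 2 * Gt p r Finset.univ 0 := mul_le_mul_of_nonneg_right hE1.le h3
  linarith

end Pool.Agent.Lib.MP_0c1c75_co.KPI
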