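import Pool.Agent.Lib.MP_0c1c75_co.KPI.SpecA

/-!
# MP_0c1c75_co, project KPI: a priori bound for the weights
-/

set_option autoImplicit false

open MeasureTheory Set Metric Filter Topology

namespace Pool.Agent.Lib.MP_0c1c75_co.KPI

/-- The part of the ball where `f_n` is positive and less than `1/(k+1)`. -/
private def thin {d : ℕ} (z : ℝ) (n : E d) (k : ℕ) : Set (E d) :=
  {x | x ∈ Bz d z ∧ 0 < inner ℝ n x - 1 ∧ inner ℝ n x - 1 < 1 / ((k : ℝ) + 1)}

private lemma norm_le {d : ℕ} {z : ℝ} {x : E d} (hx : x ∈ Bz d z) : ‖x‖ ≤ √z :=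
  Real.le_sqrt_of_sq_le hx

private lemma Bz_finite (d : ℕ) (z : ℝ) : volume (Bz d z) ≠ ⊤ := by
  have h : Bz d z ⊆ closedBall 0 (√z) := fun x hx => by
    rw [mem_closedBall_zero_iff]; exact norm_le hx
  exact ((measure_mono h).trans_lt measure_closedBall_lt_top).ne

private lemma Bz_meas (d : ℕ) (z : ℝ) : MeasurableSet (Bz d z) :=
  (isClosed_le (by fun_prop) continuous_const).measurableSet

private lemma thin_meas {d : ℕ} (z : ℝ) (n : E d) (k : ℕ) : MeasurableSet (thin z n k) := by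
  have hc : Continuous fun x : E d => inner ℝ n x - 1 := by fun_prop
  exact (Bz_meas d z).inter (((isOpen_lt continuous_const hc).measurableSet).inter
    ((isOpen_lt hc continuous_const).measurableSet))

private lemma thin_finite {d : ℕ} (z : ℝ) (n : E d) (k : ℕ) : volume (thin z n k) ≠ ⊤ :=
  ne_top_of_le_ne_top (Bz_finite d z) (measure_mono fun _ hx => hx.1)

private lemma thin_tendsto {d : ℕ} (z : ℝ) (n : E d) :
    Tendsto (fun k => volume.real (thin z n k)) atTop (𝓝 0) := by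
  have hanti : Antitone (thin z n) := by
    intro k l hkl x hx
    refine ⟨hx.1, hx.2.1, hx.2.2.trans_le ?_⟩
    apply one_div_le_one_div_of_le (by positivity)
    have : (k : ℝ) ≤ l := by exact_mod_cast hkl
    linarith
  have hempty : (⋂ k, thin z n k) = ∅ := by
    rw [Set.eq_empty_iff_forall_notMem]
    intro x hx
    rw [mem_iInter] at hx
    obtain ⟨k, hk⟩ := exists_nat_one_div_lt (hx 0).2.1
    exact absurd (hx k).2.2 (not_lt.2 hk.le)
  have h := tendsto_measure_iInter_atTop (μ := volume) (s := thin z n)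
    (fun k => (thin_meas z n k).nullMeasurableSet) hanti ⟨0, thin_finite z n 0⟩
  rw [hempty, measure_empty] at h
  have h2 := (ENNReal.tendsto_toReal ENNReal.zero_ne_top).comp h
  simpa [Measure.real, Function.comp_def] using h2

/-- The `|J|` intervals of length `L` cannot all contain a value. -/
private lemma gap {d : ℕ} (J : Finset (E d)) (lam : J → ℝ) (L : ℝ) (hL : 0 ≤ L) (i : J)
    (hi : (J.card : ℝ) * L < lam i) :
    ∃ k : ℕ, k < J.card ∧ ∀ j : J, lam j ≤ k * L ∨ (k + 1) * L < lam j := by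
  by_contra hcon
  push Not at hcon
  have hch : ∀ k : Fin J.card, ∃ j : J, (k : ℝ) * L < lam j ∧ lam j ≤ ((k : ℝ) + 1) * L :=
    fun k => hcon k k.2
  choose g hg1 hg2 using hch
  have hlt : ∀ k l : Fin J.card, k < l → lam (g k) < lam (g l) := by
    intro k l hkl
    have h1 : ((k : ℕ) : ℝ) + 1 ≤ ((l : ℕ) : ℝ) := by
      have : (k : ℕ) + 1 ≤ (l : ℕ) := hkl
      exact_mod_cast this
    calc lam (g k) ≤ ((k : ℝ) + 1) * L := hg2 k
      _ ≤ (l : ℝ) * L := mul_le_mul_of_nonneg_right h1 hL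
      _ < lam (g l) := hg1 l
  have hinj : Function.Injective g := by
    intro k l hkl
    rcases lt_trichotomy k l with h | h | h
    · exact absurd (hlt k l h) (by rw [hkl]; exact lt_irrefl _)
    · exact h
    · exact absurd (hlt l k h) (by rw [hkl]; exact lt_irrefl _)
  have hsurj : Function.Surjective g := by
    have hcard : Fintype.card (Fin J.card) = Fintype.card J := by simp
    exact ((Fintype.bijective_iff_injective_and_card g).2 ⟨hinj, hcard⟩).2
  obtain ⟨k, hk⟩ := hsurj i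
  have h1 := hg2 k
  rw [hk] at h1
  have h2 : ((k : ℕ) : ℝ) + 1 ≤ (J.card : ℝ) := by
    have : (k : ℕ) + 1 ≤ J.card := k.2
    exact_mod_cast this
  have h3 : ((k : ℝ) + 1) * L ≤ J.card * L := mul_le_mul_of_nonneg_right h2 hL
  linarith

theorem sBdd (hCel : S_Cel) : S_Bdd := by
  classical
  have _ := hCel
  intro d J z w _hd hw0 hw
  -- choice of `η = 1/(k+1)`
  have hev : ∀ᶠ k : ℕ in atTop, ∀ J' ∈ J.powerset, J'.Nonempty →
      ∑ n ∈ J', w n + ∑ n ∈ J, volume.real (thin z n k) < fv z J' := by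
    rw [Finset.eventually_all]
    intro J' hJ'
    by_cases hne : J'.Nonempty
    · have ht : Tendsto (fun k => ∑ n ∈ J', w n + ∑ n ∈ J, volume.real (thin z n k)) atTop
          (𝓝 (∑ n ∈ J', w n + ∑ n ∈ J, (0 : ℝ))) :=
        tendsto_const_nhds.add (tendsto_finsetSum _ fun n _ => thin_tendsto z n)
      have hlt : ∑ n ∈ J', w n + ∑ n ∈ J, (0 : ℝ) < fv z J' := by
        simpa using hw J' (Finset.mem_powerset.1 hJ') hne
      filter_upwards [ht.eventually_lt_const hlt] with k hk _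
      exact hk
    · exact Eventually.of_forall fun k h => absurd h hne
  obtain ⟨k0, hk0⟩ := hev.exists
  set η : ℝ := 1 / ((k0 : ℝ) + 1) with hη
  have hηpos : 0 < η := by positivity
  have hη1 : η ≤ 1 := by
    rw [hη, div_le_one (by positivity)]
    have : (0 : ℝ) ≤ k0 := Nat.cast_nonneg _
    linarith
  set F : ℝ := 1 + (∑ n ∈ J, ‖n‖) * √z with hF
  have hsum0 : 0 ≤ ∑ n ∈ J, ‖n‖ := Finset.sum_nonneg fun n _ => norm_nonneg n
  have hF1 : 1 ≤ F := by
    have := mul_nonneg hsum0 (Real.sqrt_nonneg z)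
    linarith
  have hbd : ∀ x ∈ Bz d z, ∀ n ∈ J, inner ℝ n x - 1 ≤ F := by
    intro x hx n hn
    have h1 : inner ℝ n x ≤ ‖n‖ * ‖x‖ := real_inner_le_norm n x
    have h2 : ‖n‖ ≤ ∑ m ∈ J, ‖m‖ := Finset.single_le_sum (f := fun m : E d => ‖m‖)
      (fun m _ => norm_nonneg m) hn
    have h3 : ‖n‖ * ‖x‖ ≤ (∑ m ∈ J, ‖m‖) * √z :=
      mul_le_mul h2 (norm_le hx) (norm_nonneg _) hsum0
    linarith
  set L : ℝ := Real.log (F / η) with hLdef
  have hquot : 1 ≤ F / η := by
    rw [le_div_iff₀ hηpos]; linarith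
  have hL0 : 0 ≤ L := Real.log_nonneg hquot
  have hexpL : Real.exp L * η = F := by
    rw [hLdef, Real.exp_log (by linarith)]
    field_simp
  refine ⟨J.card * L, fun lam hlam0 hlam i => ?_⟩
  by_contra hcon
  push Not at hcon
  obtain ⟨k, hk, hkgap⟩ := gap J lam L hL0 i hcon
  -- the set of the large values
  set J' : Finset (E d) := J.filter fun n => ∃ h : n ∈ J, ((k : ℝ) + 1) * L < lam ⟨n, h⟩ with hJ'
  have hsub : J' ⊆ J := Finset.filter_subset _ _
  have hk1 : ((k : ℝ) + 1) * L ≤ J.card * L := by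
    have : (k : ℝ) + 1 ≤ J.card := by exact_mod_cast hk
    exact mul_le_mul_of_nonneg_right this hL0
  have hne : J'.Nonempty := ⟨i, by
    rw [hJ', Finset.mem_filter]
    exact ⟨i.2, i.2, hk1.trans_lt hcon⟩⟩
  have hcell : ∀ n ∈ J', lv z (Cell J (ext J lam) n) ≤ w n := by
    intro n hn
    rw [hJ', Finset.mem_filter] at hn
    obtain ⟨_, h, hn2⟩ := hn
    exact hlam ⟨n, h⟩ ((by positivity : (0 : ℝ) ≤ ((k : ℝ) + 1) * L).trans_lt hn2)
  have hcov : Un J' ∩ Bz d z ⊆
      (⋃ n ∈ J', (Cell J (ext J lam) n ∩ Bz d z)) ∪ ⋃ n ∈ J, thin z n k0 := by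
    rintro x ⟨⟨j, hj, hjx⟩, hxB⟩
    by_cases hsmall : inner ℝ j x - 1 < η
    · right
      rw [mem_iUnion₂]
      exact ⟨j, hsub hj, hxB, by linarith, hsmall⟩
    left
    push Not at hsmall
    have hjJ : j ∈ J := hsub hj
    obtain ⟨n0, hn0, hmax⟩ := Finset.exists_max_image J
      (fun n => ext J lam n * (inner ℝ n x - 1)) ⟨j, hjJ⟩
    have hextpos : ∀ n, 0 < ext J lam n := by
      intro n
      unfold ext
      split_ifs
      · exact Real.exp_pos _
      · exact one_pos
    rw [hJ', Finset.mem_filter] at hj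
    obtain ⟨_, hjJ', hjlam⟩ := hj
    have hjext : ext J lam j = Real.exp (lam ⟨j, hjJ'⟩) := by
      unfold ext
      rw [dif_pos hjJ']
    have hn0ext : ext J lam n0 = Real.exp (lam ⟨n0, hn0⟩) := by
      unfold ext
      rw [dif_pos hn0]
    have hjpos : 0 < ext J lam j * (inner ℝ j x - 1) := mul_pos (hextpos j) (by linarith)
    have hn0pos : 0 < inner ℝ n0 x - 1 := by
      have h1 := hmax j hjJ
      have h2 : 0 < ext J lam n0 * (inner ℝ n0 x - 1) := hjpos.trans_le h1
      exact (pos_iff_pos_of_mul_pos h2).1 (hextpos n0)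
    have hn0J' : n0 ∈ J' := by
      rw [hJ', Finset.mem_filter]
      refine ⟨hn0, hn0, ?_⟩
      rcases hkgap ⟨n0, hn0⟩ with h | h
      · exfalso
        have h1 := hmax j hjJ
        have h2 : ext J lam n0 * (inner ℝ n0 x - 1) ≤ Real.exp (k * L) * F := by
          rw [hn0ext]
          exact mul_le_mul (Real.exp_le_exp.2 h) (hbd x hxB n0 hn0) hn0pos.le (Real.exp_pos _).le
        have h3 : Real.exp (k * L) * F = Real.exp ((k + 1) * L) * η := by
          rw [← hexpL, ← mul_assoc, ← Real.exp_add]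
          congr 2
          ring
        have h4 : Real.exp ((k + 1) * L) * η < ext J lam j * (inner ℝ j x - 1) := by
          rw [hjext]
          exact mul_lt_mul (Real.exp_lt_exp.2 hjlam) hsmall hηpos (Real.exp_pos _).le
        linarith
      · exact h
    rw [mem_iUnion₂]
    exact ⟨n0, hn0J', ⟨hn0pos.le, fun m hm => hmax m hm⟩, hxB⟩
  have hfin1 : volume (⋃ n ∈ J', (Cell J (ext J lam) n ∩ Bz d z)) ≠ ⊤ :=
    ne_top_of_le_ne_top (Bz_finite d z) (measure_mono (by
      intro x hx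
      rw [mem_iUnion₂] at hx
      obtain ⟨_, _, hx⟩ := hx
      exact hx.2))
  have hfin2 : volume (⋃ n ∈ J, thin z n k0) ≠ ⊤ :=
    ne_top_of_le_ne_top (Bz_finite d z) (measure_mono (by
      intro x hx
      rw [mem_iUnion₂] at hx
      obtain ⟨_, _, hx⟩ := hx
      exact hx.1))
  have h1 : fv z J' ≤ volume.real (⋃ n ∈ J', (Cell J (ext J lam) n ∩ Bz d z)) +
      volume.real (⋃ n ∈ J, thin z n k0) := by
    refine (measureReal_mono hcov (measure_union_ne_top hfin1 hfin2)).trans ?_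
    exact measureReal_union_le _ _
  have h2 : volume.real (⋃ n ∈ J', (Cell J (ext J lam) n ∩ Bz d z)) ≤ ∑ n ∈ J', w n := by
    refine (measureReal_biUnion_finset_le J' _).trans (Finset.sum_le_sum fun n hn => ?_)
    exact hcell n hn
  have h3 : volume.real (⋃ n ∈ J, thin z n k0) ≤ ∑ n ∈ J, volume.real (thin z n k0) :=
    measureReal_biUnion_finset_le J _
  have h4 := hk0 J' (Finset.mem_powerset.2 hsub) hne
  linarith

end Pool.Agent.Lib.MP_0c1c75_co.KPI
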