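import Pool.Agent.Lib.MP_0c1c75_co.KPI.SpecA
import Pool.Agent.Lib.MP_0c1c75_co.VrBasic

/-!
# MP_0c1c75_co, project KPI, module CBM: Brunn-Minkowski in concentric balls
-/

set_option autoImplicit false

open MeasureTheory Set Metric
open scoped Pointwise

namespace Pool.Agent.Lib.MP_0c1c75_co.KPI

private theorem CBM_compact (d : ℕ) (C : Set (E d)) (hC : IsClosed C) (z : ℝ) :
    IsCompact (C ∩ Bz d z) := by
  have h1 : IsClosed (Bz d z) := isClosed_le (continuous_norm.pow 2) continuous_const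
  refine (isCompact_closedBall (0 : E d) (Real.sqrt z)).of_isClosed_subset (hC.inter h1) ?_
  rintro x ⟨-, hx⟩
  rw [mem_closedBall_zero_iff]
  exact Real.le_sqrt_of_sq_le hx

private theorem CBM_incl (d : ℕ) (C : Set (E d)) (hC : Convex ℝ C) (z1 z2 l : ℝ) (h0 : 0 ≤ l)
    (h1 : l ≤ 1) : (1 - l) • (C ∩ Bz d z1) + l • (C ∩ Bz d z2) ⊆
      C ∩ Bz d ((1 - l) * z1 + l * z2) := by
  rintro _ ⟨_, ⟨x, ⟨hx, hxz⟩, rfl⟩, _, ⟨y, ⟨hy, hyz⟩, rfl⟩, rfl⟩
  refine ⟨hC hx hy (by linarith) h0 (by ring), ?_⟩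
  have hxz' : ‖x‖ ^ 2 ≤ z1 := hxz
  have hyz' : ‖y‖ ^ 2 ≤ z2 := hyz
  change ‖(1 - l) • x + l • y‖ ^ 2 ≤ (1 - l) * z1 + l * z2
  have h2 : ‖(1 - l) • x + l • y‖ ≤ (1 - l) * ‖x‖ + l * ‖y‖ := by
    refine (norm_add_le _ _).trans ?_
    rw [norm_smul, norm_smul, Real.norm_eq_abs, Real.norm_eq_abs, abs_of_nonneg h0,
      abs_of_nonneg (by linarith : (0 : ℝ) ≤ 1 - l)]
  have h3 : ‖(1 - l) • x + l • y‖ ^ 2 ≤ ((1 - l) * ‖x‖ + l * ‖y‖) ^ 2 :=
    pow_le_pow_left₀ (norm_nonneg _) h2 2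
  have h4 : 0 ≤ l * (1 - l) * (‖x‖ - ‖y‖) ^ 2 :=
    mul_nonneg (mul_nonneg h0 (by linarith)) (sq_nonneg _)
  have h5 : (1 - l) * ‖x‖ ^ 2 ≤ (1 - l) * z1 := mul_le_mul_of_nonneg_left hxz' (by linarith)
  have h6 : l * ‖y‖ ^ 2 ≤ l * z2 := mul_le_mul_of_nonneg_left hyz' h0
  nlinarith [h3, h4, h5, h6]

private theorem CBM_vr (hBM : BMStmt) (d : ℕ) (hd : 0 < d) (C : Set (E d)) (hcl : IsClosed C)
    (hC : Convex ℝ C) (z1 z2 l : ℝ) (h0 : 0 ≤ l) (h1 : l ≤ 1) (hn1 : (C ∩ Bz d z1).Nonempty)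
    (hn2 : (C ∩ Bz d z2).Nonempty) : (1 - l) * vr (C ∩ Bz d z1) + l * vr (C ∩ Bz d z2) ≤
      vr (C ∩ Bz d ((1 - l) * z1 + l * z2)) :=
  (hBM d hd _ _ (CBM_compact d C hcl z1) (CBM_compact d C hcl z2) hn1 hn2 l h0 h1).trans
    ((vrBasicStmt d hd).1 _ _ (CBM_incl d C hC z1 z2 l h0 h1)
      (CBM_compact d C hcl _).measure_lt_top.ne)

/-- Brunn-Minkowski for the part of a closed convex set in concentric balls. -/
theorem sCBM (hBM : BMStmt) : S_CBM := by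
  intro d C hd hcl hC
  have hvr0 : ∀ A : Set (E d), 0 ≤ vr A := (vrBasicStmt d hd).2.2.2.1
  set ω : ℝ := (volume (ball (0 : E d) 1)).toReal with hω
  have hlv : ∀ z, lv z C = ω * vr (C ∩ Bz d z) ^ d := fun z =>
    (vrBasicStmt d hd).2.2.2.2.1 (C ∩ Bz d z)
  have hω0 : 0 < ω := ENNReal.toReal_pos (measure_ball_pos volume (0 : E d) one_pos).ne'
    measure_ball_lt_top.ne
  have hlv0 : ∀ z, 0 ≤ lv z C := fun z => measureReal_nonneg
  constructor
  · intro z1 z2 l h0 h1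
    by_cases hn1 : (C ∩ Bz d z1).Nonempty
    swap
    · have h2 : lv z1 C = 0 := by
        rw [lv, Set.not_nonempty_iff_eq_empty.1 hn1, measureReal_empty]
      rw [h2, Real.zero_rpow (by linarith : (1 : ℝ) - l ≠ 0), zero_mul]
      exact hlv0 _
    by_cases hn2 : (C ∩ Bz d z2).Nonempty
    swap
    · have h2 : lv z2 C = 0 := by
        rw [lv, Set.not_nonempty_iff_eq_empty.1 hn2, measureReal_empty]
      rw [h2, Real.zero_rpow h0.ne', mul_zero]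
      exact hlv0 _
    have h3 := CBM_vr hBM d hd C hcl hC z1 z2 l h0.le h1.le hn1 hn2
    rw [hlv, hlv, hlv]
    set a := vr (C ∩ Bz d z1)
    set b := vr (C ∩ Bz d z2)
    have ha : 0 ≤ a := hvr0 _
    have hb : 0 ≤ b := hvr0 _
    have h4 : a ^ (1 - l) * b ^ l ≤ vr (C ∩ Bz d ((1 - l) * z1 + l * z2)) :=
      (Real.geom_mean_le_arith_mean2_weighted (by linarith) h0.le ha hb (by ring)).trans h3
    have hc : ∀ x p : ℝ, 0 ≤ x → (x ^ d) ^ p = (x ^ p) ^ d := by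
      intro x p hx
      rw [← Real.rpow_natCast, ← Real.rpow_mul hx, ← Real.rpow_natCast, ← Real.rpow_mul hx,
        mul_comm]
    have h5 : (ω * a ^ d) ^ (1 - l) * (ω * b ^ d) ^ l = ω * (a ^ (1 - l) * b ^ l) ^ d := by
      rw [Real.mul_rpow hω0.le (pow_nonneg ha d), Real.mul_rpow hω0.le (pow_nonneg hb d),
        hc a _ ha, hc b _ hb, mul_pow]
      have h6 : ω ^ (1 - l) * ω ^ l = ω := by
        rw [← Real.rpow_add hω0, sub_add_cancel, Real.rpow_one]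
      calc ω ^ (1 - l) * (a ^ (1 - l)) ^ d * (ω ^ l * (b ^ l) ^ d) =
          (ω ^ (1 - l) * ω ^ l) * ((a ^ (1 - l)) ^ d * (b ^ l) ^ d) := by ring
        _ = _ := by rw [h6]
    rw [h5]
    exact mul_le_mul_of_nonneg_left (pow_le_pow_left₀
      (mul_nonneg (Real.rpow_nonneg ha _) (Real.rpow_nonneg hb _)) h4 d) hω0.le
  · rintro zr z z' hz hz' ⟨x, hxC, hxz⟩
    have hzz : 0 < z - zr := by linarith
    have hzz' : 0 < z' - zr := by linarith
    set l := (z - zr) / (z' - zr) with hl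
    have hl0 : 0 < l := div_pos hzz hzz'
    have hl1 : l ≤ 1 := (div_le_one hzz').2 (by linarith)
    have hn1 : (C ∩ Bz d zr).Nonempty := ⟨x, hxC, hxz⟩
    have hn2 : (C ∩ Bz d z').Nonempty :=
      ⟨x, hxC, (hxz.trans (by linarith) : ‖x‖ ^ 2 ≤ z')⟩
    have hze : (1 - l) * zr + l * z' = z := by
      have : l * (z' - zr) = z - zr := by
        rw [hl]
        field_simp
      linarith
    have h3 := CBM_vr hBM d hd C hcl hC zr z' l hl0.le hl1 hn1 hn2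
    rw [hze] at h3
    have h4 : l * vr (C ∩ Bz d z') ≤ vr (C ∩ Bz d z) := by
      have : 0 ≤ (1 - l) * vr (C ∩ Bz d zr) := mul_nonneg (by linarith) (hvr0 _)
      linarith
    have h5 : vr (C ∩ Bz d z') ≤ (z' - zr) / (z - zr) * vr (C ∩ Bz d z) := by
      have h6 : (z' - zr) / (z - zr) * l = 1 := by
        rw [hl]
        field_simp
      calc vr (C ∩ Bz d z') = (z' - zr) / (z - zr) * (l * vr (C ∩ Bz d z')) := by
            rw [← mul_assoc, h6, one_mul]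
        _ ≤ _ := mul_le_mul_of_nonneg_left h4 (div_pos hzz' hzz).le
    rw [hlv, hlv]
    calc ω * vr (C ∩ Bz d z') ^ d ≤ ω * ((z' - zr) / (z - zr) * vr (C ∩ Bz d z)) ^ d :=
          mul_le_mul_of_nonneg_left (pow_le_pow_left₀ (hvr0 _) h5 d) hω0.le
      _ = _ := by
          rw [mul_pow]
          ring

end Pool.Agent.Lib.MP_0c1c75_co.KPI
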