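import Pool.Agent.Lib.MP_0c1c75_co.KPI.SpecF

/-!
# MP_0c1c75_co, project KPI: caps are not too small
-/

set_option autoImplicit false

open MeasureTheory Set Metric
open scoped Pointwise

namespace Pool.Agent.Lib.MP_0c1c75_co.KPI

private lemma Cap_choose {h η : ℝ} (h0 : 0 ≤ h) (h1 : h < 1)
    (hη : -(Real.log (1 - h ^ 2)) / 2 < η) :
    ∃ h', h < h' ∧ h' < 1 ∧ -(Real.log (1 - h' ^ 2)) / 2 < η := by
  have hpos : 1 - h ^ 2 ≠ 0 := by nlinarith
  have hc : ContinuousAt (fun t : ℝ => -(Real.log (1 - t ^ 2)) / 2) h := by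
    have hc0 : ContinuousAt (fun t : ℝ => 1 - t ^ 2) h := by fun_prop
    exact (hc0.log hpos).neg.div_const 2
  have h2 : ∀ᶠ t in nhdsWithin h (Ioi h), -(Real.log (1 - t ^ 2)) / 2 < η :=
    (hc.eventually (gt_mem_nhds hη)).filter_mono nhdsWithin_le_nhds
  have h3 : ∀ᶠ t in nhdsWithin h (Ioi h), t < 1 :=
    (gt_mem_nhds h1).filter_mono nhdsWithin_le_nhds
  have h4 : ∀ᶠ t in nhdsWithin h (Ioi h), h < t := eventually_mem_nhdsWithin
  obtain ⟨t, ht1, ht2, ht3⟩ := (h2.and (h3.and h4)).exists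
  exact ⟨t, ht3, ht2, ht1⟩

private lemma Cap_fin {d : ℕ} {s : Set (E d)} (h : s ⊆ closedBall (0 : E d) 1) : volume s ≠ ⊤ :=
  ((measure_mono h).trans_lt measure_closedBall_lt_top).ne

private lemma Cap_half {d : ℕ} (v : E d) :
    om d / 2 ≤ volume.real {y : E d | ‖y‖ ≤ 1 ∧ inner ℝ v y ≤ 0} := by
  set H : Set (E d) := {y : E d | ‖y‖ ≤ 1 ∧ inner ℝ v y ≤ 0} with hH
  set H' : Set (E d) := {y : E d | ‖y‖ ≤ 1 ∧ 0 ≤ inner ℝ v y} with hH'
  have hHs : H ⊆ closedBall (0 : E d) 1 := fun y hy => mem_closedBall_zero_iff.2 hy.1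
  have hHs' : H' ⊆ closedBall (0 : E d) 1 := fun y hy => mem_closedBall_zero_iff.2 hy.1
  have hmeas : MeasurableSet H := by
    have : IsClosed H := by
      refine IsClosed.and (isClosed_le continuous_norm continuous_const) ?_
      exact isClosed_le (by fun_prop) continuous_const
    exact this.measurableSet
  have h1 : volume H' = volume H := by
    have h2 := (LinearIsometryEquiv.neg ℝ (E := E d)).measurePreserving
    have h3 := h2.measure_preimage hmeas.nullMeasurableSet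
    rw [← h3]
    congr 1
    ext y
    simp only [hH, hH', mem_preimage, mem_ofPred_eq, LinearIsometryEquiv.coe_neg, norm_neg,
      inner_neg_right]
    constructor
    · rintro ⟨h4, h5⟩; exact ⟨h4, by linarith⟩
    · rintro ⟨h4, h5⟩; exact ⟨h4, by linarith⟩
  have h2 : closedBall (0 : E d) 1 ⊆ H ∪ H' := by
    intro y hy
    rw [mem_closedBall_zero_iff] at hy
    rcases le_total (inner ℝ v y : ℝ) 0 with h | h
    · exact Or.inl ⟨hy, h⟩
    · exact Or.inr ⟨hy, h⟩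
  have h3 : om d ≤ volume.real H + volume.real H' :=
    (measureReal_mono h2 (measure_union_ne_top (Cap_fin hHs) (Cap_fin hHs'))).trans
      (measureReal_union_le _ _)
  have h4 : volume.real H' = volume.real H := by rw [measureReal_def, measureReal_def, h1]
  linarith

theorem kCap (hM : S_CapM) : S_Cap := by
  intro h η h0 h1 hη
  obtain ⟨h', hh', hh1, hη'⟩ := Cap_choose h0 h1 hη
  set a : ℝ := h' - h with ha
  have ha0 : 0 < a := by linarith
  have hpos : 0 < 1 - h' ^ 2 := by nlinarith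
  set σ : ℝ := Real.sqrt (1 - h' ^ 2) with hσ
  have hσ0 : 0 < σ := Real.sqrt_pos.2 hpos
  have hσsq : σ ^ 2 = 1 - h' ^ 2 := Real.sq_sqrt hpos.le
  have hσ1 : σ ≤ 1 := by
    rw [hσ]
    refine Real.sqrt_le_one.2 ?_
    nlinarith
  set β : ℝ := η - (-(Real.log (1 - h' ^ 2)) / 2) with hβ
  have hβ0 : 0 < β := by linarith
  obtain ⟨n1, hn1⟩ := exists_nat_ge (4 / a ^ 2)
  obtain ⟨n2, hn2⟩ := exists_nat_ge (3 / β)
  refine ⟨max 1 (max n1 n2), fun d hd v hv => ?_⟩
  have hd0 : 0 < d := lt_of_lt_of_le one_pos ((le_max_left _ _).trans hd)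
  have hd1 : 4 / a ^ 2 ≤ d := hn1.trans (by
    exact_mod_cast (le_max_left _ _).trans ((le_max_right _ _).trans hd))
  have hd2 : 3 / β ≤ d := hn2.trans (by
    exact_mod_cast (le_max_right _ _).trans ((le_max_right _ _).trans hd))
  have hdpos : (0 : ℝ) < d := by exact_mod_cast hd0
  have hom : 0 ≤ om d := measureReal_nonneg
  -- the slab
  set A : Set (E d) := {y : E d | ‖y‖ ≤ 1 ∧ -a < inner ℝ v y ∧ inner ℝ v y ≤ 0} with hA
  have hAs : A ⊆ closedBall (0 : E d) 1 := fun y hy => mem_closedBall_zero_iff.2 hy.1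
  have hvolA : om d / 4 ≤ volume.real A := by
    have e1 := Cap_half v
    have e2 := hM d v a hd0 hv ha0
    have e3 : {y : E d | ‖y‖ ≤ 1 ∧ inner ℝ v y ≤ 0} ⊆
        A ∪ {y : E d | ‖y‖ ≤ 1 ∧ inner ℝ v y ≤ -a} := by
      rintro y ⟨hy1, hy2⟩
      rcases le_or_gt (inner ℝ v y : ℝ) (-a) with h5 | h5
      · exact Or.inr ⟨hy1, h5⟩
      · exact Or.inl ⟨hy1, h5, hy2⟩
    have e4 : volume.real {y : E d | ‖y‖ ≤ 1 ∧ inner ℝ v y ≤ 0} ≤
        volume.real A + volume.real {y : E d | ‖y‖ ≤ 1 ∧ inner ℝ v y ≤ -a} :=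
      (measureReal_mono e3 (measure_union_ne_top (Cap_fin hAs)
        (Cap_fin fun y hy => mem_closedBall_zero_iff.2 hy.1))).trans (measureReal_union_le _ _)
    have e5 : om d / (d * a ^ 2) ≤ om d / 4 := by
      refine div_le_div_of_nonneg_left hom (by norm_num) ?_
      rw [div_le_iff₀ (by positivity)] at hd1
      exact hd1
    linarith
  -- the image
  have hsub : (h' • v) +ᵥ (σ • A) ⊆ {x : E d | ‖x‖ ≤ 1 ∧ h * ‖x‖ < inner ℝ v x} := by
    rintro _ ⟨_, ⟨y, ⟨hy1, hy2, hy3⟩, rfl⟩, rfl⟩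
    have hvv : inner ℝ v v = (1 : ℝ) := by rw [real_inner_self_eq_norm_sq, hv]; norm_num
    have hn : ‖h' • v + σ • y‖ ^ 2 = h' ^ 2 + 2 * (h' * σ * inner ℝ v y) + σ ^ 2 * ‖y‖ ^ 2 := by
      rw [@norm_add_sq_real, norm_smul, norm_smul, inner_smul_left, inner_smul_right, hv]
      simp only [conj_trivial, Real.norm_eq_abs, mul_one]
      rw [mul_pow, sq_abs, sq_abs]
      ring
    have hi : inner ℝ v (h' • v + σ • y) = h' + σ * inner ℝ v y := by
      rw [inner_add_right, inner_smul_right, inner_smul_right, hvv, mul_one]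
    have hle : ‖h' • v + σ • y‖ ≤ 1 := by
      have e1 : ‖h' • v + σ • y‖ ^ 2 ≤ 1 := by
        rw [hn, hσsq]
        have e2 : h' * σ * inner ℝ v y ≤ 0 :=
          mul_nonpos_of_nonneg_of_nonpos (mul_nonneg (by linarith) hσ0.le) hy3
        have e3 : ‖y‖ ^ 2 ≤ 1 := by nlinarith [norm_nonneg y]
        nlinarith
      nlinarith [norm_nonneg (h' • v + σ • y)]
    refine ⟨hle, ?_⟩
    show h * ‖h' • v + σ • y‖ < inner ℝ v (h' • v + σ • y)
    rw [hi]
    have e1 : h * ‖h' • v + σ • y‖ ≤ h * 1 := mul_le_mul_of_nonneg_left hle h0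
    have e2 : inner ℝ v y ≤ σ * inner ℝ v y := by nlinarith
    linarith
  have hvol : volume.real ((h' • v) +ᵥ (σ • A)) = σ ^ d * volume.real A := by
    rw [measureReal_def, measure_vadd, Measure.addHaar_smul, ENNReal.toReal_mul,
      ENNReal.toReal_ofReal (abs_nonneg _), finrank_euclideanSpace, Fintype.card_fin,
      abs_of_pos (pow_pos hσ0 d)]
    rfl
  have hfin : volume {x : E d | ‖x‖ ≤ 1 ∧ h * ‖x‖ < inner ℝ v x} ≠ ⊤ :=
    Cap_fin fun y hy => mem_closedBall_zero_iff.2 hy.1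
  have hlow : σ ^ d * (om d / 4) ≤ volume.real {x : E d | ‖x‖ ≤ 1 ∧ h * ‖x‖ < inner ℝ v x} := by
    calc σ ^ d * (om d / 4) ≤ σ ^ d * volume.real A :=
          mul_le_mul_of_nonneg_left hvolA (pow_nonneg hσ0.le d)
      _ = volume.real ((h' • v) +ᵥ (σ • A)) := hvol.symm
      _ ≤ _ := measureReal_mono hsub hfin
  refine le_trans ?_ hlow
  have hexp : Real.exp (-(η * d)) = σ ^ d * Real.exp (-(β * d)) := by
    have e1 : σ ^ d = Real.exp (Real.log (1 - h' ^ 2) / 2 * d) := by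
      rw [hσ, mul_comm (Real.log (1 - h' ^ 2) / 2) (d : ℝ), Real.exp_nat_mul,
        ← Real.log_sqrt hpos.le, Real.exp_log hσ0]
    rw [e1, ← Real.exp_add]
    congr 1
    rw [hβ]
    ring
  have hq : Real.exp (-(β * d)) ≤ 1 / 4 := by
    rw [div_le_iff₀ hβ0] at hd2
    have e1 : β * d + 1 ≤ Real.exp (β * d) := Real.add_one_le_exp _
    rw [Real.exp_neg, ← one_div]
    refine one_div_le_one_div_of_le (by norm_num) ?_
    linarith
  rw [hexp]
  have e1 : σ ^ d * Real.exp (-(β * d)) ≤ σ ^ d * (1 / 4) :=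
    mul_le_mul_of_nonneg_left hq (pow_nonneg hσ0.le d)
  calc σ ^ d * Real.exp (-(β * d)) * om d ≤ σ ^ d * (1 / 4) * om d :=
        mul_le_mul_of_nonneg_right e1 hom
    _ = σ ^ d * (om d / 4) := by ring

end Pool.Agent.Lib.MP_0c1c75_co.KPI
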