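import Pool.Agent.Lib.MP_0c1c75_co.KPI.SpecF

/-!
# MP_0c1c75_co, project KPI, part F: `S_CapM`, the second moment of a linear form on the ball
-/

set_option autoImplicit false

open MeasureTheory Set Metric

namespace Pool.Agent.Lib.MP_0c1c75_co.KPI

private noncomputable def mI {d : ℕ} (v : E d) : ℝ :=
  ∫ y in closedBall (0 : E d) 1, (inner ℝ v y : ℝ) ^ 2

private theorem intOn {d : ℕ} (f : E d → ℝ) (hf : Continuous f) :
    IntegrableOn f (closedBall (0 : E d) 1) :=
  hf.continuousOn.integrableOn_compact (isCompact_closedBall 0 1)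

private theorem mI_map {d : ℕ} (e : E d ≃ₗᵢ[ℝ] E d) (v : E d) : mI (e v) = mI v := by
  unfold mI
  have h := e.measurePreserving.setIntegral_preimage_emb
    e.toHomeomorph.measurableEmbedding (fun y => (inner ℝ (e v) y : ℝ) ^ 2) (closedBall (0 : E d) 1)
  rw [← h]
  have hpre : (e : E d → E d) ⁻¹' closedBall (0 : E d) 1 = closedBall (0 : E d) 1 := by
    ext y
    simp [mem_closedBall, dist_zero_right]
  rw [hpre]
  simp only [LinearIsometryEquiv.inner_map_map]

private theorem mI_eq {d : ℕ} (v w : E d) (h : ‖v‖ = ‖w‖) : mI v = mI w := by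
  have h1 := Submodule.reflection_sub h
  rw [← h1, mI_map]

private theorem mI_le {d : ℕ} (v : E d) (hv : ‖v‖ = 1) : (d : ℝ) * mI v ≤ om d := by
  have hsum : ∑ i : Fin d, mI (EuclideanSpace.single i (1 : ℝ)) =
      ∫ y in closedBall (0 : E d) 1, ‖y‖ ^ 2 := by
    unfold mI
    rw [← integral_finsetSum]
    · refine integral_congr_ae (Filter.Eventually.of_forall (fun y => ?_))
      simp only [EuclideanSpace.norm_sq_eq]
      refine Finset.sum_congr rfl (fun i _ => ?_)
      rw [EuclideanSpace.inner_single_left]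
      simp
    · intro i _
      exact intOn _ ((continuous_const.inner continuous_id).pow 2)
  have hconst : ∑ i : Fin d, mI (EuclideanSpace.single i (1 : ℝ)) = (d : ℝ) * mI v := by
    rw [Finset.sum_congr rfl (fun i _ => mI_eq (EuclideanSpace.single i (1 : ℝ)) v (by simp [hv]))]
    simp
  rw [← hconst, hsum]
  have hle : ∫ y in closedBall (0 : E d) 1, ‖y‖ ^ 2 ≤ ∫ y in closedBall (0 : E d) 1, (1 : ℝ) := by
    refine setIntegral_mono_on (intOn _ (continuous_norm.pow 2)) (intOn _ continuous_const)
      measurableSet_closedBall (fun y hy => ?_)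
    have h1 : ‖y‖ ≤ 1 := by simpa using hy
    exact pow_le_one₀ (norm_nonneg y) h1
  refine hle.trans (le_of_eq ?_)
  unfold om
  simp

theorem kCapM : S_CapM := by
  intro d v a hd hv ha
  have hI := mI_le v hv
  have hd' : (0 : ℝ) < d := by exact_mod_cast hd
  set S : Set (E d) := {y : E d | ‖y‖ ≤ 1 ∧ inner ℝ v y ≤ -a} with hS
  have hSsub : S ⊆ closedBall (0 : E d) 1 := by
    intro y hy
    simpa using hy.1
  have hSm : MeasurableSet S := by
    have hc1 : IsClosed {y : E d | ‖y‖ ≤ 1} := isClosed_le continuous_norm continuous_const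
    have hc2 : IsClosed {y : E d | (inner ℝ v y : ℝ) ≤ -a} :=
      isClosed_le (continuous_const.inner continuous_id) continuous_const
    exact (hc1.inter hc2).measurableSet
  have hfin : volume S ≠ ⊤ :=
    ((measure_mono hSsub).trans_lt (isCompact_closedBall (0 : E d) 1).measure_lt_top).ne
  have hcont : Continuous (fun y : E d => (inner ℝ v y : ℝ) ^ 2) :=
    (continuous_const.inner continuous_id).pow 2
  have h1 : ∫ y in S, (inner ℝ v y : ℝ) ^ 2 ≤ mI v := by
    unfold mI
    exact setIntegral_mono_set (intOn _ hcont)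
      (Filter.Eventually.of_forall (fun y => sq_nonneg _)) (Filter.Eventually.of_forall (fun y hy => hSsub hy))
  have h2 : a ^ 2 * volume.real S ≤ ∫ y in S, (inner ℝ v y : ℝ) ^ 2 := by
    have h3 : ∫ _ in S, a ^ 2 ≤ ∫ y in S, (inner ℝ v y : ℝ) ^ 2 := by
      refine setIntegral_mono_on ?_ ((intOn _ hcont).mono_set hSsub) hSm (fun y hy => ?_)
      · exact (intOn (fun _ => a ^ 2) continuous_const).mono_set hSsub
      · have := hy.2
        nlinarith
    rw [setIntegral_const, smul_eq_mul, mul_comm] at h3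
    exact h3
  rw [le_div_iff₀ (by positivity)]
  calc volume.real S * (d * a ^ 2) = d * (a ^ 2 * volume.real S) := by ring
    _ ≤ d * mI v := mul_le_mul_of_nonneg_left (h2.trans h1) hd'.le
    _ ≤ om d := hI

end Pool.Agent.Lib.MP_0c1c75_co.KPI
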