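import Pool.Agent.Lib.MP_0c1c75_co.KPI.SpecB

/-!
# MP_0c1c75_co, project KPI: the three cases
-/

set_option autoImplicit false

open MeasureTheory Set Metric

namespace Pool.Agent.Lib.MP_0c1c75_co.KPI

private lemma Cas_Bz_lt_top (d : ℕ) (z : ℝ) : volume (Bz d z) < ⊤ := by
  have h : Bz d z ⊆ closedBall (0 : E d) (Real.sqrt z) := by
    intro x hx
    rw [mem_closedBall, dist_zero_right]
    exact le_trans (le_abs_self _) (Real.abs_le_sqrt hx)
  exact lt_of_le_of_lt (measure_mono h) measure_closedBall_lt_top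

private lemma Cas_fv_mono {d : ℕ} (J : Finset (E d)) {z z' : ℝ} (h : z ≤ z') :
    fv z J ≤ fv z' J := by
  unfold fv lv
  apply measureReal_mono
  · apply inter_subset_inter_right
    intro x hx
    exact le_trans (show ‖x‖ ^ 2 ≤ z from hx) h
  · exact ne_of_lt (lt_of_le_of_lt (measure_mono inter_subset_right) (Cas_Bz_lt_top d z'))

private lemma Cas_fv_nonneg {d : ℕ} (J : Finset (E d)) (z : ℝ) : 0 ≤ fv z J :=
  measureReal_nonneg

private lemma Cas_pol {T : ℕ} {L : ℝ} (hT : 0 < T) (hL : 1 ≤ L) : 1 ≤ pol T L := by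
  unfold pol
  have hT1 : (1 : ℝ) ≤ T := by exact_mod_cast hT
  have h7 : (1 : ℝ) ≤ (T : ℝ) ^ 7 := one_le_pow₀ hT1
  have h4 : (1 : ℝ) ≤ (4 * L) ^ 4 := one_le_pow₀ (by linarith)
  have h1 : (1 : ℝ) ≤ 235008 * (T : ℝ) ^ 7 := by linarith
  have h2 : (1 : ℝ) ≤ 235008 * (T : ℝ) ^ 7 * (4 * L) ^ 4 := one_le_mul_of_one_le_of_one_le h1 h4
  have h3 : (1 : ℝ) ≤ (235008 * (T : ℝ) ^ 7 * (4 * L) ^ 4) ^ 2 := one_le_pow₀ h2
  have h5 : (1 : ℝ) ≤ 32 * ((T : ℝ) + 1) := by linarith
  exact one_le_mul_of_one_le_of_one_le h5 h3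

/-- `(1 + x) ^ a ≤ exp (a x)`. -/
private lemma Cas_pow_exp {x y a : ℝ} (hx : 0 ≤ x) (ha : 0 ≤ a) (hxy : x ≤ 1 + y) :
    x ^ a ≤ Real.exp (a * y) := by
  have h1 : x ≤ Real.exp y := by
    have := Real.add_one_le_exp y
    linarith
  calc x ^ a ≤ (Real.exp y) ^ a := Real.rpow_le_rpow hx h1 ha
    _ = Real.exp (y * a) := (Real.exp_mul y a).symm
    _ = Real.exp (a * y) := by rw [mul_comm]

private lemma Cas_find (m n : ℕ) (k : ℕ → ℕ) (h0 : k 0 + 1 ≤ m) (hn : m < k n + 1) :
    ∃ j, j < n ∧ k j + 1 ≤ m ∧ m < k (j + 1) + 1 := by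
  induction n with
  | zero => omega
  | succ n ih =>
    by_cases h : m < k n + 1
    · obtain ⟨j, hj, h1, h2⟩ := ih h
      exact ⟨j, by omega, h1, h2⟩
    · exact ⟨n, by omega, by omega, hn⟩

/-- The interpolation estimate for the weights. -/
private lemma Cas_wt {a s ρ y1 y2 l δ : ℝ} (ha : 0 ≤ a) (hs : 0 < s) (hρ : 1 ≤ ρ) (hl0 : 0 < l)
    (hl1 : l < 1) (hy1 : y1 < 1 + s) (hy2 : y2 < 1 + ρ * s)
    (hl : (1 - l) * y1 + l * y2 = 1 - δ) :
    (((1 + s - y1) / s) ^ a) ^ (1 - l) * (((1 + ρ * s - y2) / (ρ * s)) ^ a) ^ l ≤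
      Real.exp (a * (Real.log ρ + δ / (ρ * s))) := by
  have hρ0 : 0 < ρ := by linarith
  have hs' : 0 < ρ * s := by positivity
  have hu0 : 0 < (1 + s - y1) / s := div_pos (by linarith) hs
  have hv0 : 0 < (1 + ρ * s - y2) / (ρ * s) := div_pos (by linarith) hs'
  set U : ℝ := (1 + ρ * s - y1) / (ρ * s) with hU
  set v : ℝ := (1 + ρ * s - y2) / (ρ * s) with hv
  have hsle : s ≤ ρ * s := by nlinarith
  have hU0 : 0 < U := div_pos (by linarith) hs'
  have hule : (1 + s - y1) / s ≤ ρ * U := by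
    have e1 : (1 + s - y1) / s = 1 + (1 - y1) / s := by
      field_simp
      ring
    have e2 : ρ * U = ρ + (1 - y1) / s := by
      rw [hU]
      field_simp
      ring
    rw [e1, e2]
    linarith
  have h1l : 0 < 1 - l := by linarith
  have h1 : ((1 + s - y1) / s) ^ (1 - l) * v ^ l ≤ ρ * (1 + δ / (ρ * s)) := by
    have t1 : ((1 + s - y1) / s) ^ (1 - l) ≤ (ρ * U) ^ (1 - l) :=
      Real.rpow_le_rpow hu0.le hule h1l.le
    have t2 : (ρ * U) ^ (1 - l) ≤ ρ * U ^ (1 - l) := by
      rw [Real.mul_rpow hρ0.le hU0.le]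
      have t3 : ρ ^ (1 - l) ≤ ρ ^ (1 : ℝ) := Real.rpow_le_rpow_of_exponent_le hρ (by linarith)
      rw [Real.rpow_one] at t3
      exact mul_le_mul_of_nonneg_right t3 (Real.rpow_nonneg hU0.le _)
    have t4 : U ^ (1 - l) * v ^ l ≤ (1 - l) * U + l * v :=
      Real.geom_mean_le_arith_mean2_weighted h1l.le hl0.le hU0.le hv0.le (by ring)
    have t5 : (1 - l) * U + l * v = 1 + δ / (ρ * s) := by
      rw [hU, hv]
      have e3 : (1 - l) * ((1 + ρ * s - y1) / (ρ * s)) + l * ((1 + ρ * s - y2) / (ρ * s)) =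
          (1 + ρ * s - ((1 - l) * y1 + l * y2)) / (ρ * s) := by
        field_simp
        ring
      rw [e3, hl]
      field_simp
      ring
    calc ((1 + s - y1) / s) ^ (1 - l) * v ^ l ≤ (ρ * U ^ (1 - l)) * v ^ l :=
          mul_le_mul_of_nonneg_right (t1.trans t2) (Real.rpow_nonneg hv0.le _)
      _ = ρ * (U ^ (1 - l) * v ^ l) := by ring
      _ ≤ ρ * ((1 - l) * U + l * v) := mul_le_mul_of_nonneg_left t4 hρ0.le
      _ = ρ * (1 + δ / (ρ * s)) := by rw [t5]
  have h2 : (((1 + s - y1) / s) ^ a) ^ (1 - l) * (v ^ a) ^ l =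
      (((1 + s - y1) / s) ^ (1 - l) * v ^ l) ^ a := by
    rw [Real.mul_rpow (Real.rpow_nonneg hu0.le _) (Real.rpow_nonneg hv0.le _),
      ← Real.rpow_mul hu0.le, ← Real.rpow_mul hv0.le, ← Real.rpow_mul hu0.le,
      ← Real.rpow_mul hv0.le, mul_comm a (1 - l), mul_comm a l]
  rw [h2]
  have h3 : ρ * (1 + δ / (ρ * s)) ≤ Real.exp (Real.log ρ + δ / (ρ * s)) := by
    rw [Real.exp_add, Real.exp_log hρ0]
    apply mul_le_mul_of_nonneg_left _ hρ0.le
    have := Real.add_one_le_exp (δ / (ρ * s))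
    linarith
  calc (((1 + s - y1) / s) ^ (1 - l) * v ^ l) ^ a
      ≤ (Real.exp (Real.log ρ + δ / (ρ * s))) ^ a :=
        Real.rpow_le_rpow (mul_nonneg (Real.rpow_nonneg hu0.le _) (Real.rpow_nonneg hv0.le _))
          (h1.trans h3) ha
    _ = Real.exp ((Real.log ρ + δ / (ρ * s)) * a) := (Real.exp_mul _ _).symm
    _ = Real.exp (a * (Real.log ρ + δ / (ρ * s))) := by rw [mul_comm]

/-- The three cases. -/
theorem sCas (hInt : S_Int) : S_Cas := by
  intro d J w T m n A a s0 ρ L k hd hm hA ha hs0 hρ hcard hJ0 hw hL hk hHall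
  have hmr : (0 : ℝ) < m := by exact_mod_cast hm
  have hm1 : (1 : ℝ) ≤ m := by exact_mod_cast hm
  have hρ0 : 0 < ρ := by linarith
  have hspos : ∀ j : ℕ, 0 < s0 * ρ ^ j := fun j => by positivity
  have hsge : ∀ j : ℕ, s0 ≤ s0 * ρ ^ j := fun j => by
    have : (1 : ℝ) ≤ ρ ^ j := one_le_pow₀ hρ.le
    nlinarith
  have hlog : 0 ≤ Real.log ρ := Real.log_nonneg hρ.le
  have hE0 : 0 ≤ 1 / (s0 * ρ ^ n) := (div_pos one_pos (hspos n)).le
  have hE1 : 0 ≤ 1 / ((m : ℝ) * s0) := by positivity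
  set X : ℝ := Real.exp (a * (1 / (s0 * ρ ^ n) + Real.log ρ + 1 / (m * s0))) with hX
  have hX0 : 0 < X := Real.exp_pos _
  have hF0 : 0 ≤ fv (1 + s0 + 1 / (m : ℝ)) J := Cas_fv_nonneg J _
  have hL1 : 1 ≤ L := by
    refine le_trans ?_ hL
    have hexp : (0 : ℝ) ≤ (m : ℝ) * (2 + s0 * ρ ^ n) := by
      have := hspos n
      positivity
    calc (1 : ℝ) = (5 : ℝ) ^ (0 : ℝ) := (Real.rpow_zero 5).symm
      _ ≤ _ := Real.rpow_le_rpow_of_exponent_le (by norm_num) hexp
  rcases J.eq_empty_or_nonempty with hJe | hJne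
  · subst hJe
    rw [Finset.sum_empty]
    have hpol : 0 ≤ pol T L := by
      unfold pol
      positivity
    positivity
  have hT : 0 < T := by
    rcases Nat.eq_zero_or_pos T with h | h
    · subst h
      have h1 : 0 < J.card := Finset.card_pos.mpr hJne
      rw [pow_zero] at hcard
      omega
    · exact h
  have hpol : 1 ≤ pol T L := Cas_pol hT hL1
  -- reduction
  have hred : ∀ g z : ℝ, 0 ≤ g → g ≤ X → z ≤ 1 + s0 + 1 / (m : ℝ) →
      ∑ v ∈ J, w v ≤ A * (g * fv z J) →
      ∑ v ∈ J, w v ≤ pol T L * X * (A * fv (1 + s0 + 1 / (m : ℝ)) J) := by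
    intro g z hg0 hg hz h
    refine h.trans ?_
    have h1 : g * fv z J ≤ X * fv (1 + s0 + 1 / (m : ℝ)) J :=
      mul_le_mul hg (Cas_fv_mono J hz) (Cas_fv_nonneg J z) hX0.le
    calc A * (g * fv z J) ≤ A * (X * fv (1 + s0 + 1 / (m : ℝ)) J) :=
          mul_le_mul_of_nonneg_left h1 hA.le
      _ = 1 * (X * (A * fv (1 + s0 + 1 / (m : ℝ)) J)) := by ring
      _ ≤ pol T L * (X * (A * fv (1 + s0 + 1 / (m : ℝ)) J)) :=
          mul_le_mul_of_nonneg_right hpol (by positivity)
      _ = pol T L * X * (A * fv (1 + s0 + 1 / (m : ℝ)) J) := by ring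
  have hg0 : ∀ j ≤ n, 0 < (1 + s0 * ρ ^ j - k j / m) / (s0 * ρ ^ j) := fun j hj =>
    div_pos (by linarith [hk j hj]) (hspos j)
  have hmono : ∀ y : ℝ, y ≤ 1 / (s0 * ρ ^ n) + Real.log ρ + 1 / (m * s0) →
      Real.exp (a * y) ≤ X := fun y hy =>
    Real.exp_le_exp.mpr (mul_le_mul_of_nonneg_left hy ha)
  have hy0 : ∀ j : ℕ, 0 ≤ (k j : ℝ) / m := fun j => by positivity
  by_cases hcn : k n + 1 ≤ m
  · -- case (i)
    have hz : ((k n : ℝ) + 1) / m ≤ 1 := by
      rw [div_le_one hmr]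
      exact_mod_cast hcn
    refine hred _ _ (Real.rpow_nonneg (hg0 n le_rfl).le a) ?_ ?_ (hHall n le_rfl J (Finset.Subset.refl J))
    · refine le_trans (Cas_pow_exp (y := 1 / (s0 * ρ ^ n)) (hg0 n le_rfl).le ha ?_)
        (hmono _ (by linarith))
      rw [div_le_iff₀ (hspos n)]
      have e1 : (1 + 1 / (s0 * ρ ^ n)) * (s0 * ρ ^ n) = s0 * ρ ^ n + 1 := by
        have := (hspos n).ne'
        field_simp
      rw [e1]
      linarith [hy0 n]
    · have : 0 < 1 / (m : ℝ) := by positivity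
      linarith
  · by_cases hc0 : k 0 + 1 ≤ m
    · obtain ⟨j, hj, hj1, hj2⟩ := Cas_find m n k hc0 (by omega)
      by_cases hje : k j + 1 = m
      · -- level exactly 1
        have hz : ((k j : ℝ) + 1) / m = 1 := by
          rw [div_eq_one_iff_eq hmr.ne']
          exact_mod_cast hje
        have hy : (k j : ℝ) / m = 1 - 1 / m := by
          have e0 : ((k j : ℝ) + 1) / m = (k j : ℝ) / m + 1 / m := by ring
          linarith
        refine hred _ _ (Real.rpow_nonneg (hg0 j hj.le).le a) ?_ ?_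
          (hHall j hj.le J (Finset.Subset.refl J))
        · refine le_trans (Cas_pow_exp (y := 1 / ((m : ℝ) * s0)) (hg0 j hj.le).le ha ?_)
            (hmono _ (by linarith))
          rw [hy]
          have e1 : (1 + s0 * ρ ^ j - (1 - 1 / (m : ℝ))) / (s0 * ρ ^ j) =
              1 + 1 / (m * (s0 * ρ ^ j)) := by
            have := (hspos j).ne'
            field_simp
            ring
          rw [e1]
          have e2 : 1 / ((m : ℝ) * (s0 * ρ ^ j)) ≤ 1 / (m * s0) := by
            apply one_div_le_one_div_of_le (by positivity)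
            exact mul_le_mul_of_nonneg_left (hsge j) hmr.le
          linarith
        · rw [hz]
          have : 0 < 1 / (m : ℝ) := by positivity
          linarith
      · -- interpolation
        have hj1' : k j + 2 ≤ m := by omega
        have hj2' : m + 1 ≤ k (j + 1) + 1 := by omega
        have hj1r : (k j : ℝ) + 2 ≤ m := by exact_mod_cast hj1'
        have hj2r : (m : ℝ) + 1 ≤ k (j + 1) + 1 := by exact_mod_cast hj2'
        set z1 : ℝ := ((k j : ℝ) + 1) / m with hz1
        set z2 : ℝ := ((k (j + 1) : ℝ) + 1) / m with hz2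
        have hz1le : z1 ≤ 1 - 1 / m := by
          have e1 : 1 - 1 / (m : ℝ) = ((m : ℝ) - 1) / m := by field_simp
          rw [e1, hz1]
          exact div_le_div_of_nonneg_right (by linarith) hmr.le
        have hz1nn : 0 ≤ z1 := by positivity
        have hz2ge : 1 + 1 / m ≤ z2 := by
          have e1 : 1 + 1 / (m : ℝ) = ((m : ℝ) + 1) / m := by field_simp
          rw [e1, hz2]
          exact div_le_div_of_nonneg_right hj2r hmr.le
        have hminv : 0 < 1 / (m : ℝ) := by positivity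
        have hminv1 : 1 / (m : ℝ) ≤ 1 := by
          rw [div_le_one hmr]
          exact hm1
        have hsj : s0 * ρ ^ (j + 1) ≤ s0 * ρ ^ n := by
          apply mul_le_mul_of_nonneg_left _ hs0.le
          exact pow_le_pow_right₀ hρ.le (by omega)
        have hz2lt : z2 < 2 + s0 * ρ ^ n := by
          have h1 := hk (j + 1) (by omega)
          have e1 : z2 = (k (j + 1) : ℝ) / m + 1 / m := by rw [hz2]; ring
          rw [e1]
          linarith
        have hdz : 0 < z2 - z1 := by linarith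
        set l : ℝ := (1 - z1) / (z2 - z1) with hldef
        have hl0 : 0 < l := div_pos (by linarith) hdz
        have hl1 : 1 - l = (z2 - 1) / (z2 - z1) := by
          rw [hldef]
          field_simp
          ring
        have h1l0 : 0 < 1 - l := by
          rw [hl1]
          exact div_pos (by linarith) hdz
        have hSn : 0 < 2 + s0 * ρ ^ n := by linarith [hspos n]
        have hmS : (0 : ℝ) < (m : ℝ) * (2 + s0 * ρ ^ n) := by positivity
        have hlow : ∀ t : ℝ, 1 / (m : ℝ) ≤ t → 1 ≤ (m : ℝ) * (2 + s0 * ρ ^ n) * (t / (z2 - z1)) := by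
          intro t ht
          have h1 : z2 - z1 ≤ 2 + s0 * ρ ^ n := by linarith
          have h2 : 1 / (m : ℝ) / (2 + s0 * ρ ^ n) ≤ t / (z2 - z1) :=
            div_le_div₀ (le_trans hminv.le ht) ht hdz h1
          calc (1 : ℝ) = (m : ℝ) * (2 + s0 * ρ ^ n) * (1 / (m : ℝ) / (2 + s0 * ρ ^ n)) := by
                field_simp
            _ ≤ _ := mul_le_mul_of_nonneg_left h2 hmS.le
        have hL5 : ∀ t : ℝ, 0 ≤ t → 1 ≤ (m : ℝ) * (2 + s0 * ρ ^ n) * t → 4 < L ^ t := by
          intro t ht0 ht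
          have h1 : ((5 : ℝ) ^ ((m : ℝ) * (2 + s0 * ρ ^ n))) ^ t ≤ L ^ t :=
            Real.rpow_le_rpow (by positivity) hL ht0
          rw [← Real.rpow_mul (by norm_num)] at h1
          have h2 : (5 : ℝ) ^ (1 : ℝ) ≤ (5 : ℝ) ^ ((m : ℝ) * (2 + s0 * ρ ^ n) * t) :=
            Real.rpow_le_rpow_of_exponent_le (by norm_num) ht
          rw [Real.rpow_one] at h2
          linarith
        have hgj := hg0 j hj.le
        have hgj1 := hg0 (j + 1) (by omega)
        set g1 : ℝ := ((1 + s0 * ρ ^ j - k j / m) / (s0 * ρ ^ j)) ^ a with hg1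
        set g2 : ℝ := ((1 + s0 * ρ ^ (j + 1) - k (j + 1) / m) / (s0 * ρ ^ (j + 1))) ^ a with hg2
        have hg1pos : 0 < g1 := Real.rpow_pos_of_pos hgj a
        have hg2pos : 0 < g2 := Real.rpow_pos_of_pos hgj1 a
        have hmid : (1 - l) * z1 + l * z2 = 1 := by
          rw [hldef]
          field_simp
          ring
        have hint := hInt d J w T z1 z2 l (A * g1) (A * g2) L hd (by positivity) (by positivity) hl0
          (by linarith) hL1 (hL5 l hl0.le (hlow _ (by linarith)))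
          (hL5 (1 - l) h1l0.le (by rw [hl1]; exact hlow _ (by linarith))) hcard hJ0 hw
          (fun J' hJ' => by
            have := hHall j hj.le J' hJ'
            rw [← mul_assoc] at this
            exact this)
          (fun J' hJ' => by
            have := hHall (j + 1) (by omega) J' hJ'
            rw [← mul_assoc] at this
            exact this)
        rw [hmid] at hint
        have hAl : (A * g1) ^ (1 - l) * (A * g2) ^ l = A * (g1 ^ (1 - l) * g2 ^ l) := by
          rw [Real.mul_rpow hA.le hg1pos.le, Real.mul_rpow hA.le hg2pos.le]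
          have e1 : A ^ (1 - l) * A ^ l = A := by
            rw [← Real.rpow_add hA]
            have e2 : 1 - l + l = 1 := by ring
            rw [e2, Real.rpow_one]
          calc A ^ (1 - l) * g1 ^ (1 - l) * (A ^ l * g2 ^ l)
              = (A ^ (1 - l) * A ^ l) * (g1 ^ (1 - l) * g2 ^ l) := by ring
            _ = A * (g1 ^ (1 - l) * g2 ^ l) := by rw [e1]
        rw [hAl] at hint
        have hwt : g1 ^ (1 - l) * g2 ^ l ≤ X := by
          have hsj1 : s0 * ρ ^ (j + 1) = ρ * (s0 * ρ ^ j) := by ring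
          have h1 := Cas_wt (a := a) (s := s0 * ρ ^ j) (ρ := ρ) (y1 := (k j : ℝ) / m)
            (y2 := (k (j + 1) : ℝ) / m) (l := l) (δ := 1 / m) ha (hspos j) hρ.le hl0 (by linarith)
            (hk j hj.le) (by rw [← hsj1]; exact hk (j + 1) (by omega)) (by
              have e1 : (k j : ℝ) / m = z1 - 1 / m := by rw [hz1]; ring
              have e2 : (k (j + 1) : ℝ) / m = z2 - 1 / m := by rw [hz2]; ring
              rw [e1, e2]
              linarith)
          rw [← hsj1] at h1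
          refine h1.trans (hmono _ ?_)
          have e2 : 1 / (m : ℝ) / (s0 * ρ ^ (j + 1)) ≤ 1 / (m * s0) := by
            rw [div_div]
            apply one_div_le_one_div_of_le (by positivity)
            exact mul_le_mul_of_nonneg_left (hsge (j + 1)) hmr.le
          linarith
        have hfin : A * (g1 ^ (1 - l) * g2 ^ l) * fv 1 J ≤
            X * (A * fv (1 + s0 + 1 / (m : ℝ)) J) := by
          have h1 : fv 1 J ≤ fv (1 + s0 + 1 / (m : ℝ)) J := Cas_fv_mono J (by linarith)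
          calc A * (g1 ^ (1 - l) * g2 ^ l) * fv 1 J ≤ A * X * fv (1 + s0 + 1 / (m : ℝ)) J :=
                mul_le_mul (mul_le_mul_of_nonneg_left hwt hA.le) h1 (Cas_fv_nonneg J 1)
                  (by positivity)
            _ = X * (A * fv (1 + s0 + 1 / (m : ℝ)) J) := by ring
        calc ∑ v ∈ J, w v ≤ pol T L * (A * (g1 ^ (1 - l) * g2 ^ l) * fv 1 J) := hint
          _ ≤ pol T L * (X * (A * fv (1 + s0 + 1 / (m : ℝ)) J)) :=
              mul_le_mul_of_nonneg_left hfin (by linarith)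
          _ = pol T L * X * (A * fv (1 + s0 + 1 / (m : ℝ)) J) := by ring
    · -- case (ii)
      have hk0 : m ≤ k 0 := by omega
      have hk0r : (m : ℝ) ≤ k 0 := by exact_mod_cast hk0
      have hy1 : 1 ≤ (k 0 : ℝ) / m := by
        rw [le_div_iff₀ hmr]
        linarith
      have hlt := hk 0 (Nat.zero_le n)
      refine hred _ _ (Real.rpow_nonneg (hg0 0 (Nat.zero_le n)).le a) ?_ ?_
        (hHall 0 (Nat.zero_le n) J (Finset.Subset.refl J))
      · refine le_trans (Cas_pow_exp (y := 0) (hg0 0 (Nat.zero_le n)).le ha ?_)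
          (hmono _ (by linarith))
        rw [div_le_iff₀ (hspos 0)]
        linarith
      · rw [pow_zero, mul_one] at hlt
        have e1 : ((k 0 : ℝ) + 1) / m = (k 0 : ℝ) / m + 1 / m := by ring
        rw [e1]
        linarith

end Pool.Agent.Lib.MP_0c1c75_co.KPI
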