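import Pool.Agent.Lib.MP_0c1c75_co.KPI.SpecA

set_option autoImplicit false

open MeasureTheory Set Metric

namespace Pool.Agent.Lib.MP_0c1c75_co.KPI

/-- An affine hyperplane (or the empty set) is a null set. -/
private theorem Cel_null {d : ℕ} (v : E d) (a : ℝ) (h : v ≠ 0 ∨ a ≠ 0) :
    volume {x : E d | inner ℝ v x = a} = 0 := by
  classical
  let S : AffineSubspace ℝ (E d) :=
    { carrier := {x | inner ℝ v x = a}
      smul_vsub_vadd_mem' := by
        intro c p1 p2 p3 h1 h2 h3
        simp only [mem_ofPred_eq] at h1 h2 h3 ⊢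
        rw [vadd_eq_add, inner_add_right, inner_smul_right, vsub_eq_sub, inner_sub_right, h1, h2,
          h3]
        ring }
  have hS : S ≠ ⊤ := by
    intro hT
    have hall : ∀ x : E d, inner ℝ v x = a := by
      intro x
      have hx : x ∈ S := by
        rw [hT]
        exact AffineSubspace.mem_top ℝ (E d) x
      exact hx
    have h0 : a = 0 := by
      have := hall 0
      rw [inner_zero_right] at this
      exact this.symm
    have hv : v = 0 := by
      have := hall v
      rw [h0] at this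
      exact inner_self_eq_zero.mp this
    rcases h with h | h
    · exact h hv
    · exact h h0
  have := Measure.addHaar_affineSubspace (volume : Measure (E d)) S hS
  exact this

private theorem Cel_closed {d : ℕ} (J : Finset (E d)) (α : E d → ℝ) (n : E d) :
    IsClosed (Cell J α n) := by
  have hEq : Cell J α n = {x | 0 ≤ inner ℝ n x - 1} ∩
      ⋂ m ∈ J, {x | α m * (inner ℝ m x - 1) ≤ α n * (inner ℝ n x - 1)} := by
    ext x
    simp [Cell]
  rw [hEq]
  refine IsClosed.inter ?_ ?_
  · exact isClosed_le continuous_const (by fun_prop)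
  · refine isClosed_biInter fun m _ => ?_
    exact isClosed_le (by fun_prop) (by fun_prop)

private theorem Cel_convex {d : ℕ} (J : Finset (E d)) (α : E d → ℝ) (n : E d) :
    Convex ℝ (Cell J α n) := by
  intro x hx y hy a b ha hb hab
  have key : ∀ v : E d, inner ℝ v (a • x + b • y) - 1
      = a * (inner ℝ v x - 1) + b * (inner ℝ v y - 1) := by
    intro v
    rw [inner_add_right, inner_smul_right, inner_smul_right]
    linear_combination hab
  refine ⟨?_, ?_⟩
  · rw [key]
    exact add_nonneg (mul_nonneg ha hx.1) (mul_nonneg hb hy.1)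
  · intro m hm
    rw [key, key]
    have h1 := mul_le_mul_of_nonneg_left (hx.2 m hm) ha
    have h2 := mul_le_mul_of_nonneg_left (hy.2 m hm) hb
    nlinarith [h1, h2]

private theorem Cel_inter {d : ℕ} (J : Finset (E d)) (α : E d → ℝ)
    (hα : ∀ n ∈ J, 0 < α n) (n : E d) (hn : n ∈ J) (m : E d) (hm : m ∈ J) (hnm : n ≠ m) :
    volume (Cell J α n ∩ Cell J α m) = 0 := by
  have hsub : Cell J α n ∩ Cell J α m ⊆
      {x : E d | inner ℝ (α n • n - α m • m) x = α n - α m} := by
    intro x hx
    have h1 := hx.1.2 m hm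
    have h2 := hx.2.2 n hn
    simp only [mem_ofPred_eq]
    rw [inner_sub_left, real_inner_smul_left, real_inner_smul_left]
    linarith [le_antisymm h1 h2]
  refine measure_mono_null hsub (Cel_null _ _ ?_)
  by_contra hcon
  push Not at hcon
  obtain ⟨h1, h2⟩ := hcon
  have h3 : α n = α m := by linarith
  rw [h3, ← smul_sub] at h1
  rcases smul_eq_zero.mp h1 with h | h
  · exact absurd h (ne_of_gt (hα m hm))
  · exact hnm (sub_eq_zero.mp h)

private theorem Cel_bz_finite {d : ℕ} (z : ℝ) (C : Set (E d)) :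
    volume (C ∩ Bz d z) ≠ ⊤ := by
  have hb : Bz d z ⊆ closedBall (0 : E d) (Real.sqrt z) := by
    intro x hx
    rw [mem_closedBall, dist_zero_right]
    exact Real.le_sqrt_of_sq_le hx
  have h1 : volume (C ∩ Bz d z) ≤ volume (closedBall (0 : E d) (Real.sqrt z)) :=
    measure_mono (inter_subset_right.trans hb)
  exact ne_top_of_le_ne_top (measure_closedBall_lt_top.ne) h1

private theorem Cel_bz_meas {d : ℕ} (z : ℝ) : MeasurableSet (Bz d z) := by
  have : IsClosed (Bz d z) := isClosed_le (by fun_prop) continuous_const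
  exact this.measurableSet

theorem sCel : S_Cel := by
  classical
  intro d J α hd hα
  refine ⟨fun n => ⟨Cel_closed J α n, Cel_convex J α n⟩, fun n hn m hm hnm =>
    Cel_inter J α hα n hn m hm hnm, fun z => ?_⟩
  have hsum : ∑ n ∈ J, lv z (Cell J α n) = volume.real (⋃ n ∈ J, Cell J α n ∩ Bz d z) := by
    refine (measureReal_biUnion_finset₀ ?_ ?_ fun n _ => Cel_bz_finite z _).symm
    · intro n hn m hm hnm
      refine measure_mono_null ?_ (Cel_inter J α hα n hn m hm hnm)
      intro x hx
      exact ⟨hx.1.1, hx.2.1⟩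
    · intro n hn
      exact ((Cel_closed J α n).measurableSet.inter (Cel_bz_meas z)).nullMeasurableSet
  have hunion : (⋃ n ∈ J, Cell J α n ∩ Bz d z)
      = {x : E d | ∃ n ∈ J, 0 ≤ inner ℝ n x - 1} ∩ Bz d z := by
    ext x
    simp only [mem_iUnion, mem_inter_iff, mem_ofPred_eq, exists_prop]
    constructor
    · rintro ⟨n, hn, hx, hz⟩
      exact ⟨⟨n, hn, hx.1⟩, hz⟩
    · rintro ⟨⟨n, hn, hx⟩, hz⟩
      obtain ⟨k, hk, hmax⟩ := J.exists_max_image (fun n => α n * (inner ℝ n x - 1)) ⟨n, hn⟩
      refine ⟨k, hk, ⟨?_, hmax⟩, hz⟩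
      have h1 : 0 ≤ α n * (inner ℝ n x - 1) := mul_nonneg (hα n hn).le hx
      have h2 : 0 ≤ α k * (inner ℝ k x - 1) := h1.trans (hmax n hn)
      exact nonneg_of_mul_nonneg_right h2 (hα k hk)
  rw [hsum, hunion]
  unfold fv lv
  have hle : volume (Un J ∩ Bz d z)
      ≤ volume ({x : E d | ∃ n ∈ J, 0 ≤ inner ℝ n x - 1} ∩ Bz d z) := by
    refine measure_mono (inter_subset_inter_left _ ?_)
    rintro x ⟨n, hn, hx⟩
    exact ⟨n, hn, by linarith⟩
  have hnull : volume (⋃ n ∈ J, {x : E d | inner ℝ n x = 1}) = 0 := by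
    have h := (measure_biUnion_null_iff (μ := (volume : Measure (E d)))
      (s := fun n : E d => {x : E d | inner ℝ n x = 1}) J.countable_toSet).mpr
      fun n _ => Cel_null n 1 (Or.inr one_ne_zero)
    exact h
  have hge : volume ({x : E d | ∃ n ∈ J, 0 ≤ inner ℝ n x - 1} ∩ Bz d z)
      ≤ volume (Un J ∩ Bz d z) := by
    calc volume ({x : E d | ∃ n ∈ J, 0 ≤ inner ℝ n x - 1} ∩ Bz d z)
        ≤ volume ((Un J ∩ Bz d z) ∪ ⋃ n ∈ J, {x : E d | inner ℝ n x = 1}) := by
          refine measure_mono ?_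
          rintro x ⟨⟨n, hn, hx⟩, hz⟩
          rcases (sub_nonneg.mp hx).lt_or_eq with h | h
          · exact Or.inl ⟨⟨n, hn, h⟩, hz⟩
          · refine Or.inr ?_
            simp only [mem_iUnion, mem_ofPred_eq, exists_prop]
            exact ⟨n, hn, h.symm⟩
      _ ≤ volume (Un J ∩ Bz d z) + volume (⋃ n ∈ J, {x : E d | inner ℝ n x = 1}) :=
          measure_union_le _ _
      _ = volume (Un J ∩ Bz d z) := by rw [hnull, add_zero]
  rw [measureReal_def, measureReal_def, le_antisymm hge hle]

end Pool.Agent.Lib.MP_0c1c75_co.KPI
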