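import Pool.Agent.Lib.MP_0c1c75_co.KPI.SpecB

/-!
# MP_0c1c75_co, project KPI, module Cls: the class theorem
-/

set_option autoImplicit false

open MeasureTheory Set Metric

namespace Pool.Agent.Lib.MP_0c1c75_co.KPI

private theorem Cls_meas {d : ℕ} (J : Finset (E d)) (z : ℝ) : MeasurableSet (Un J ∩ Bz d z) := by
  have h1 : Un J = ⋃ n ∈ J, {x : E d | 1 < inner ℝ n x} := by
    ext x
    simp only [Un, mem_ofPred_eq, mem_iUnion, exists_prop]
  have h2 : IsOpen (Un J) := by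
    rw [h1]
    refine isOpen_biUnion fun n _ => ?_
    exact isOpen_lt continuous_const (by fun_prop)
  have h3 : IsClosed (Bz d z) := isClosed_le (by fun_prop) continuous_const
  exact h2.measurableSet.inter h3.measurableSet

private theorem Cls_Fs_nonneg {d : ℕ} (J : Finset (E d)) {S : ℝ} (hS : 0 < S) (a : ℝ) :
    0 ≤ Fs S a J := by
  unfold Fs
  refine setIntegral_nonneg (Cls_meas J _) fun x hx => ?_
  have h1 : ‖x‖ ^ 2 ≤ 1 + S := hx.2
  exact Real.rpow_nonneg (div_nonneg (by linarith) hS.le) a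

private theorem Cls_nv {d : ℕ} {x : E d} {r κ0 c : ℝ} (hκ : 0 < κ0) (hc : 0 < c)
    (hx : 0 < ‖x‖) (h1 : κ0 ≤ kap x r) (h2 : kap x r ≤ c) : 1 / c ≤ ‖nv x r‖ := by
  unfold kap at h1 h2
  have h3 : 0 < (r ^ 2 - 1 - ‖x‖ ^ 2) / (2 * ‖x‖) := hκ.trans_le h1
  have h4 : 0 < r ^ 2 - 1 - ‖x‖ ^ 2 := by
    rcases div_pos_iff.1 h3 with h | h
    · exact h.1
    · have : 0 < 2 * ‖x‖ := by positivity
      linarith [h.2]
  rw [div_le_iff₀ (by positivity)] at h2
  unfold nv
  rw [norm_smul, norm_neg, Real.norm_eq_abs, abs_of_pos (by positivity), div_mul_eq_mul_div,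
    div_le_div_iff₀ hc h4]
  nlinarith

theorem sCls (hMrg : S_Mrg) (hClsA : S_ClsA) : S_Cls := by
  intro κ0 c ε K hκ hc hc1 hε hK
  obtain ⟨η3, SS, hη0, hη1, hne, hpos, d1, hd1⟩ := hClsA c (ε / 2) K hc hc1 (by positivity) hK
  set C : ℝ := SS.sup' hne (fun S => 2 * Real.sqrt (1 + S) / S) with hC
  have hCle : ∀ S ∈ SS, 2 * Real.sqrt (1 + S) / S ≤ C := fun S hS =>
    Finset.le_sup' (fun S => 2 * Real.sqrt (1 + S) / S) hS
  have hC0 : 0 ≤ C := by
    obtain ⟨S, hS⟩ := hne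
    have h1 : 0 ≤ 2 * Real.sqrt (1 + S) / S := by
      have := hpos S hS
      positivity
    exact h1.trans (hCle S hS)
  set d2 : ℕ := ⌈8 * C / ε ^ 2⌉₊ with hd2
  refine ⟨η3, hη0, hη1, max (max d1 d2) 8, ?_⟩
  intro d hd N p q r I e hcon hnorm hr hkap hcard he he1 hInC
  have hdd1 : d1 ≤ d := (le_max_left _ _).trans ((le_max_left _ _).trans hd)
  have hdd2 : d2 ≤ d := (le_max_right _ _).trans ((le_max_left _ _).trans hd)
  have hd8 : 8 ≤ d := (le_max_right _ _).trans hd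
  have hpi : ∀ i ∈ I, 0 < ‖p i‖ := fun i hi => he.trans (hInC i hi).1
  obtain ⟨w, a, hw0, ha0, ha, hsum, hJ⟩ := hMrg d N p q r I e hd8 hcon hnorm hr
    (fun i hi => hκ.trans_le (hkap i hi).1) he he1 hInC
  have hA : 0 < (C * d + 1) * e := by positivity
  have hmain := hd1 d hdd1 (Nv p r I) w ((C * d + 1) * e) a ?_ ?_ hw0 hA ha0 ha ?_
  · rw [hsum] at hmain
    refine hmain.trans ?_
    have hf : 0 ≤ fv (1 - η3) (Nv p r I) := measureReal_nonneg
    have hexp : C * d + 1 ≤ Real.exp (ε / 2 * d) := by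
      have h1 : 0 ≤ ε / 2 * d := by positivity
      have h2 := Real.quadratic_le_exp_of_nonneg h1
      have h3 : 8 * C / ε ^ 2 ≤ d := (Nat.le_ceil _).trans (by exact_mod_cast hdd2)
      rw [div_le_iff₀ (by positivity)] at h3
      have h4 : 8 * C * d ≤ d * ε ^ 2 * d :=
        mul_le_mul_of_nonneg_right h3 (Nat.cast_nonneg d)
      have h5 : (ε / 2 * d) ^ 2 / 2 = d * ε ^ 2 * d / 8 := by ring
      rw [h5] at h2
      linarith
    have h6 : Real.exp (ε * d) = Real.exp (ε / 2 * d) * Real.exp (ε / 2 * d) := by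
      rw [← Real.exp_add]
      congr 1
      ring
    rw [h6, mul_assoc, mul_assoc]
    refine mul_le_mul_of_nonneg_left ?_ (Real.exp_pos _).le
    exact mul_le_mul_of_nonneg_right hexp (mul_nonneg he.le hf)
  · intro n hn
    unfold Nv at hn
    obtain ⟨i, hi, rfl⟩ := Finset.mem_image.1 hn
    exact Cls_nv hκ hc (hpi i hi) (hkap i hi).1 (hkap i hi).2
  · refine le_trans ?_ hcard
    exact_mod_cast Finset.card_image_le
  · intro J hJs S hS
    refine (hJ J hJs S (hpos S hS)).trans ?_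
    refine mul_le_mul_of_nonneg_right ?_ (Cls_Fs_nonneg J (hpos S hS) a)
    refine mul_le_mul_of_nonneg_right ?_ he.le
    have h1 : 2 * d * Real.sqrt (1 + S) / S = 2 * Real.sqrt (1 + S) / S * d := by ring
    rw [h1]
    have h2 := mul_le_mul_of_nonneg_right (hCle S hS) (Nat.cast_nonneg (α := ℝ) d)
    linarith

end Pool.Agent.Lib.MP_0c1c75_co.KPI
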