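import Pool.Agent.Lib.MP_0c1c75_co.KPI.SpecB

/-!
# MP_0c1c75_co, project KPI: the abstract class theorem
-/

set_option autoImplicit false

open MeasureTheory Set Metric

namespace Pool.Agent.Lib.MP_0c1c75_co.KPI

private lemma ClsA_Bz_sub {d : ℕ} {z z' : ℝ} (h : z ≤ z') : Bz d z ⊆ Bz d z' := by
  intro x hx
  simp only [Bz, mem_ofPred_eq] at hx ⊢
  linarith

private lemma ClsA_Bz_fin (d : ℕ) (z : ℝ) : volume (Bz d z) ≠ ⊤ := by
  have h : Bz d z ⊆ closedBall (0 : E d) (Real.sqrt (max z 0)) := by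
    intro x hx
    simp only [Bz, mem_ofPred_eq] at hx
    rw [mem_closedBall_zero_iff]
    refine Real.le_sqrt_of_sq_le ?_
    exact hx.trans (le_max_left _ _)
  exact ne_top_of_le_ne_top (measure_closedBall_lt_top).ne (measure_mono h)

private lemma ClsA_fv_nonneg {d : ℕ} (z : ℝ) (J : Finset (E d)) : 0 ≤ fv z J := by
  unfold fv lv
  exact measureReal_nonneg

private lemma ClsA_Un_mono {d : ℕ} {J K : Finset (E d)} (h : J ⊆ K) : Un J ⊆ Un K := by
  rintro x ⟨n, hn, hx⟩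
  exact ⟨n, h hn, hx⟩

private lemma ClsA_fv_mono {d : ℕ} {z z' : ℝ} {J K : Finset (E d)} (hz : z ≤ z') (h : J ⊆ K) :
    fv z J ≤ fv z' K := by
  unfold fv lv
  refine measureReal_mono (inter_subset_inter (ClsA_Un_mono h) (ClsA_Bz_sub hz)) ?_
  exact ne_top_of_le_ne_top (ClsA_Bz_fin d z') (measure_mono inter_subset_right)

private lemma ClsA_fv_empty {d : ℕ} (z : ℝ) : fv z (∅ : Finset (E d)) = 0 := by
  unfold fv lv
  have : Un (∅ : Finset (E d)) = ∅ := by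
    ext x
    simp [Un]
  rw [this]
  simp

private lemma ClsA_fv_union {d : ℕ} [DecidableEq (E d)] (z : ℝ) (J K : Finset (E d)) :
    fv z (J ∪ K) ≤ fv z J + fv z K := by
  unfold fv lv
  have h : Un (J ∪ K) ∩ Bz d z ⊆ (Un J ∩ Bz d z) ∪ (Un K ∩ Bz d z) := by
    rintro x ⟨⟨n, hn, hx⟩, hz⟩
    rcases Finset.mem_union.1 hn with h1 | h1
    · exact Or.inl ⟨⟨n, h1, hx⟩, hz⟩
    · exact Or.inr ⟨⟨n, h1, hx⟩, hz⟩
  refine (measureReal_mono h ?_).trans (measureReal_union_le _ _)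
  refine ne_top_of_le_ne_top (ClsA_Bz_fin d z) (measure_mono ?_)
  rintro x (⟨-, hx⟩ | ⟨-, hx⟩) <;> exact hx

private lemma ClsA_size {N : ℕ} {K d : ℝ} (hKd : 0 ≤ K * d) (h : (N : ℝ) ≤ Real.exp (K * d)) :
    ((Nat.size N : ℕ) : ℝ) ≤ 2 * K * d + 1 := by
  rcases Nat.eq_zero_or_pos (Nat.size N) with h0 | h0
  · rw [h0]
    push_cast
    nlinarith
  · obtain ⟨s, hs⟩ : ∃ s, Nat.size N = s + 1 := ⟨Nat.size N - 1, by omega⟩
    have h1 : 2 ^ s ≤ N := by
      rw [← Nat.lt_size, hs]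
      omega
    have h2 : ((2 : ℝ)) ^ s ≤ Real.exp (K * d) := by
      refine le_trans ?_ h
      exact_mod_cast h1
    have h3 : (s : ℝ) * Real.log 2 ≤ K * d := by
      have := Real.log_le_log (by positivity) h2
      rwa [Real.log_exp, Real.log_pow] at this
    have h4 : (1 : ℝ) / 2 < Real.log 2 := by
      have := Real.log_two_gt_d9
      linarith
    have h5 : (s : ℝ) * (1 / 2) ≤ (s : ℝ) * Real.log 2 :=
      mul_le_mul_of_nonneg_left h4.le (Nat.cast_nonneg _)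
    rw [hs]
    push_cast
    linarith

theorem sClsA (hGrw : S_Grw) (hDsc : S_Dsc) (hNst : S_Nst) (hCas : S_Cas) (hPol : S_Pol)
    (hCst : S_Cst) : S_ClsA := by
  intro c ε K hc hc1 hε hK
  classical
  obtain ⟨zr, τ, s0, ρ, m, n, hzr, hzr1, hτ, hτ1, hs0, hρ, hm, hsm, hrat, hlog, hms, hsn⟩ :=
    hCst c (ε / 8) hc hc1 (by positivity)
  obtain ⟨sn, hsn'⟩ : ∃ sn, sn = s0 * ρ ^ n := ⟨_, rfl⟩
  have hρ0 : 0 < ρ := lt_trans one_pos hρ
  have hspos : ∀ j : ℕ, 0 < s0 * ρ ^ j := fun j => by positivity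
  have hmR : (0 : ℝ) < m := by exact_mod_cast hm
  obtain ⟨M, hM⟩ : ∃ M : ℕ, M = ⌈(1 + sn) * m⌉₊ + 1 := ⟨_, rfl⟩
  have hM0 : 0 < M := by omega
  have hM0R : (0 : ℝ) < M := by exact_mod_cast hM0
  have hMle : (1 + sn) * m ≤ M := by
    rw [hM]
    push_cast
    have := Nat.le_ceil ((1 + sn) * (m : ℝ))
    linarith
  obtain ⟨L, hL⟩ : ∃ L : ℝ, L = (5 : ℝ) ^ ((m : ℝ) * (2 + s0 * ρ ^ n)) := ⟨_, rfl⟩
  have hL0 : 0 < L := by
    rw [hL]
    positivity
  obtain ⟨d2, hd2⟩ := hPol K L (ε / 8) ((2 * (M : ℝ)) ^ (n + 1) * (4 * M)) hK hL0 (by positivity)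
    (by positivity)
  refine ⟨τ, (Finset.range (n + 1)).image fun j => s0 * ρ ^ j, hτ, hτ1, ?_, ?_, max d2 1, ?_⟩
  · exact ⟨s0 * ρ ^ 0, Finset.mem_image.2 ⟨0, by simp, rfl⟩⟩
  · intro S hS
    obtain ⟨j, -, rfl⟩ := Finset.mem_image.1 hS
    exact hspos j
  intro d hd I w A a hI hIc hw hA ha ha2 hwJ
  have hd1 : 1 ≤ d := le_trans (le_max_right _ _) hd
  have hd2' : d2 ≤ d := le_trans (le_max_left _ _) hd
  have hd0 : 0 < d := hd1
  have hdR : (1 : ℝ) ≤ d := by exact_mod_cast hd1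
  obtain ⟨ψ, hψ⟩ : ∃ ψ : ℕ → ℕ → Finset (E d) → ℝ, ψ = (fun (j k : ℕ) (J : Finset (E d)) =>
      (if (k : ℝ) / m < 1 + s0 * ρ ^ j then
        A * (((1 + s0 * ρ ^ j - k / m) / (s0 * ρ ^ j)) ^ a * fv ((k + 1) / m) J) else 0 : ℝ)) :=
    ⟨_, rfl⟩
  have hgpos : ∀ j k : ℕ, (k : ℝ) / m < 1 + s0 * ρ ^ j →
      0 ≤ ((1 + s0 * ρ ^ j - k / m) / (s0 * ρ ^ j)) ^ a := fun j k h =>
    Real.rpow_nonneg (div_nonneg (by linarith) (hspos j).le) _
  have hψ0 : ∀ j k, ψ j k ∅ = 0 := by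
    intro j k
    rw [hψ]
    simp only [ClsA_fv_empty, mul_zero, ite_self]
  have hψm : ∀ j k J J', J ⊆ J' → ψ j k J ≤ ψ j k J' := by
    intro j k J J' hJ
    rw [hψ]
    simp only
    split_ifs with h
    · exact mul_le_mul_of_nonneg_left
        (mul_le_mul_of_nonneg_left (ClsA_fv_mono le_rfl hJ) (hgpos j k h)) hA.le
    · exact le_rfl
  have hψu : ∀ j k J J', ψ j k (J ∪ J') ≤ ψ j k J + ψ j k J' := by
    intro j k J J'
    rw [hψ]
    simp only
    split_ifs with h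
    · rw [← mul_add, ← mul_add]
      exact mul_le_mul_of_nonneg_left
        (mul_le_mul_of_nonneg_left (ClsA_fv_union _ _ _) (hgpos j k h)) hA.le
    · simp
  have hψs : ∀ j < n + 1, ∀ J ⊆ I, ∑ i ∈ J, w i ≤ ∑ k ∈ Finset.range M, ψ j k J := by
    intro j hj J hJ
    have h1 := hwJ J hJ (s0 * ρ ^ j) (Finset.mem_image.2 ⟨j, Finset.mem_range.2 hj, rfl⟩)
    have h2 : (1 + s0 * ρ ^ j) * m ≤ M := by
      refine le_trans ?_ hMle
      refine mul_le_mul_of_nonneg_right ?_ hmR.le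
      rw [hsn']
      have : ρ ^ j ≤ ρ ^ n := pow_le_pow_right₀ hρ.le (by omega)
      have := mul_le_mul_of_nonneg_left this hs0.le
      linarith
    have h3 := hDsc d m M J (s0 * ρ ^ j) a hd0 hm (hspos j) ha h2
    refine h1.trans ((mul_le_mul_of_nonneg_left h3 hA.le).trans ?_)
    rw [Finset.mul_sum]
    refine Finset.sum_le_sum fun k _ => ?_
    rw [hψ]
    simp only
    split_ifs with h
    · exact le_rfl
    · simp
  obtain ⟨J, hJI, hJw, hJ⟩ := hNst (E d) I w M ψ hM0 hw hψ0 hψm hψu (n + 1) hψs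
  have hfI : 0 ≤ fv (1 - τ) I := ClsA_fv_nonneg _ _
  have hR0 : 0 ≤ Real.exp (ε * d) * (A * fv (1 - τ) I) := by positivity
  rcases (Finset.sum_nonneg fun i (_ : i ∈ J) => hw i).eq_or_lt with hz | hpos
  · rw [← hz, mul_zero] at hJw
    exact hJw.trans hR0
  choose! k hkM hk using hJ
  have hkc : ∀ j ≤ n, (k j : ℝ) / m < 1 + s0 * ρ ^ j := by
    intro j hj
    by_contra hcon
    have h1 := hk j (by omega) J subset_rfl
    have h2 : ψ j (k j) J = 0 := by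
      rw [hψ]
      simp only
      rw [if_neg hcon]
    rw [h2, mul_zero] at h1
    linarith
  have hkJ : ∀ j ≤ n, ∀ J' ⊆ J, ∑ v ∈ J', w v ≤
      (4 * M * A) * (((1 + s0 * ρ ^ j - k j / m) / (s0 * ρ ^ j)) ^ a * fv ((k j + 1) / m) J') := by
    intro j hj J' hJ'
    have h1 := hk j (by omega) J' hJ'
    have h2 : ψ j (k j) J' =
        A * (((1 + s0 * ρ ^ j - k j / m) / (s0 * ρ ^ j)) ^ a * fv ((k j + 1) / m) J') := by
      rw [hψ]
      simp only
      rw [if_pos (hkc j hj)]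
    rw [h2] at h1
    refine h1.trans (le_of_eq ?_)
    ring
  have hT1 : J.card < 2 ^ Nat.size J.card := Nat.lt_size_self _
  have hJc : (J.card : ℝ) ≤ Real.exp (K * d) := by
    refine le_trans ?_ hIc
    exact_mod_cast Finset.card_le_card hJI
  have hT2 : ((Nat.size J.card : ℕ) : ℝ) ≤ 2 * K * d + 1 := ClsA_size (by positivity) hJc
  have hn0 : ∀ v ∈ J, v ≠ 0 := by
    intro v hv h0
    have := hI v (hJI hv)
    rw [h0, norm_zero] at this
    have h1 : 0 < 1 / c := by positivity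
    linarith
  have hcas := hCas d J w (Nat.size J.card) m n (4 * M * A) a s0 ρ L k hd0 hm (by positivity) ha hs0
    hρ hT1 hn0 hw (by rw [hL]) hkc hkJ
  have hpol := hd2 d hd2' (Nat.size J.card) hT2
  obtain ⟨T, hT⟩ : ∃ T, T = Nat.size J.card := ⟨_, rfl⟩
  rw [← hT] at hcas hpol
  have hpol0 : 0 ≤ pol T L := by
    unfold pol
    positivity
  have hgrw := hGrw d J c zr (1 - τ) (1 + τ) hd0 hc hzr hzr1 (by linarith)
    (fun v hv => hI v (hJI hv))
  have hgr2 : fv (1 + s0 + 1 / m) J ≤ Real.exp (ε / 8 * d) * fv (1 - τ) I := by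
    calc fv (1 + s0 + 1 / m) J ≤ fv (1 + τ) J := ClsA_fv_mono (by linarith) subset_rfl
      _ ≤ ((1 + τ - zr) / (1 - τ - zr)) ^ d * fv (1 - τ) J := hgrw
      _ ≤ Real.exp (ε / 8) ^ d * fv (1 - τ) J := by
          refine mul_le_mul_of_nonneg_right (pow_le_pow_left₀ ?_ hrat _) (ClsA_fv_nonneg _ _)
          exact div_nonneg (by linarith) (by linarith)
      _ = Real.exp (ε / 8 * d) * fv (1 - τ) J := by
          rw [← Real.exp_nat_mul]
          ring_nf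
      _ ≤ _ := mul_le_mul_of_nonneg_left (ClsA_fv_mono le_rfl hJI) (Real.exp_pos _).le
  have hexp : Real.exp (a * (1 / (s0 * ρ ^ n) + Real.log ρ + 1 / (m * s0))) ≤
      Real.exp (3 * ε / 16 * d) := by
    refine Real.exp_le_exp.2 ?_
    have h1 : 1 / (s0 * ρ ^ n) + Real.log ρ + 1 / (m * s0) ≤ 3 * ε / 8 := by linarith
    calc a * (1 / (s0 * ρ ^ n) + Real.log ρ + 1 / (m * s0)) ≤ a * (3 * ε / 8) :=
          mul_le_mul_of_nonneg_left h1 ha
      _ ≤ (d : ℝ) / 2 * (3 * ε / 8) := mul_le_mul_of_nonneg_right ha2 (by positivity)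
      _ = 3 * ε / 16 * d := by ring
  have hJfin : ∑ v ∈ J, w v ≤ pol T L * Real.exp (3 * ε / 16 * d) *
      ((4 * M * A) * (Real.exp (ε / 8 * d) * fv (1 - τ) I)) := by
    refine hcas.trans ?_
    refine mul_le_mul (mul_le_mul_of_nonneg_left hexp hpol0) ?_ ?_ (by positivity)
    · exact mul_le_mul_of_nonneg_left hgr2 (by positivity)
    · exact mul_nonneg (by positivity) (ClsA_fv_nonneg _ _)
  have hpol2 : (2 * (M : ℝ)) ^ (n + 1) * (4 * M) * pol T L ≤ Real.exp (ε / 8 * d) := by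
    refine le_trans ?_ hpol
    have h0 : 0 ≤ (2 * (M : ℝ)) ^ (n + 1) * (4 * M) * pol T L := by positivity
    have : (2 * (M : ℝ)) ^ (n + 1) * (4 * M) * d * pol T L =
        d * ((2 * (M : ℝ)) ^ (n + 1) * (4 * M) * pol T L) := by ring
    rw [this]
    exact le_mul_of_one_le_left h0 hdR
  calc ∑ v ∈ I, w v ≤ (2 * (M : ℝ)) ^ (n + 1) * ∑ v ∈ J, w v := hJw
    _ ≤ (2 * (M : ℝ)) ^ (n + 1) * (pol T L * Real.exp (3 * ε / 16 * d) *
      ((4 * M * A) * (Real.exp (ε / 8 * d) * fv (1 - τ) I))) :=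
        mul_le_mul_of_nonneg_left hJfin (by positivity)
    _ = ((2 * (M : ℝ)) ^ (n + 1) * (4 * M) * pol T L) *
      (Real.exp (3 * ε / 16 * d) * Real.exp (ε / 8 * d)) * (A * fv (1 - τ) I) := by ring
    _ ≤ Real.exp (ε / 8 * d) * (Real.exp (3 * ε / 16 * d) * Real.exp (ε / 8 * d)) *
      (A * fv (1 - τ) I) := by
        refine mul_le_mul_of_nonneg_right (mul_le_mul_of_nonneg_right hpol2 (by positivity)) ?_
        positivity
    _ ≤ Real.exp (ε * d) * (A * fv (1 - τ) I) := by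
        refine mul_le_mul_of_nonneg_right ?_ (by positivity)
        rw [← Real.exp_add, ← Real.exp_add]
        refine Real.exp_le_exp.2 ?_
        nlinarith

end Pool.Agent.Lib.MP_0c1c75_co.KPI
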