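import Pool.Agent.Lib.MP_0c1c75_co.KPI.SpecS

set_option autoImplicit false

open MeasureTheory Set Metric

namespace Pool.Agent.Lib.MP_0c1c75_co.KPI

private theorem CmpJ_cont {d N : ℕ} (p : Fin N → E d) (r : Fin N → ℝ) (J : Finset (Fin N)) :
    Continuous (gJ p r J) := by
  unfold gJ
  induction J using Finset.induction_on with
  | empty =>
    simp only [Finset.fold_empty]
    fun_prop
  | insert i J hi ih =>
    simp only [Finset.fold_insert hi]
    exact Continuous.max (by fun_prop) ih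

private noncomputable def CmpJ_P {d N : ℕ} (p : Fin N → E d) (J : Finset (Fin N)) :
    Fin (N + 1) → E d :=
  Fin.cons 0 (fun i => if i ∈ J then p i else 0)

private noncomputable def CmpJ_a {N : ℕ} (r : Fin N → ℝ) (J : Finset (Fin N)) :
    Fin (N + 1) → ℝ :=
  Fin.cons 1 (fun i => if i ∈ J then r i ^ 2 else 1)

private theorem CmpJ_gmax {d N : ℕ} (p : Fin N → E d) (r : Fin N → ℝ) (J : Finset (Fin N))
    (x : E d) : gmax (CmpJ_P p J) (CmpJ_a r J) x = gJ p r J x := by
  unfold gmax gJ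
  have hb : BddAbove (range fun i => ‖x - CmpJ_P p J i‖ ^ 2 - CmpJ_a r J i) :=
    (finite_range _).bddAbove
  apply le_antisymm
  · apply ciSup_le
    intro i
    rw [Finset.le_fold_max]
    refine Fin.cases ?_ (fun i => ?_) i
    · left
      simp [CmpJ_P, CmpJ_a]
    · by_cases hi : i ∈ J
      · right
        refine ⟨i, hi, ?_⟩
        simp [CmpJ_P, CmpJ_a, hi]
      · left
        simp [CmpJ_P, CmpJ_a, hi]
  · rw [Finset.fold_max_le]
    constructor
    · have h := le_ciSup hb 0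
      simpa [CmpJ_P, CmpJ_a] using h
    · intro i hi
      have h := le_ciSup hb i.succ
      simpa [CmpJ_P, CmpJ_a, hi] using h

private theorem CmpJ_contr {d N : ℕ} (p q : Fin N → E d) (J : Finset (Fin N))
    (hc : Contr 1 p q) (hq : ∀ i, ‖q i‖ ≤ ‖p i‖) : Contr 1 (CmpJ_P p J) (CmpJ_P q J) := by
  intro i j
  rw [one_mul]
  refine Fin.cases ?_ (fun i => ?_) i
  · refine Fin.cases ?_ (fun j => ?_) j
    · simp [CmpJ_P]
    · by_cases hj : j ∈ J
      · simpa [CmpJ_P, hj] using hq j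
      · simp [CmpJ_P, hj]
  · refine Fin.cases ?_ (fun j => ?_) j
    · by_cases hi : i ∈ J
      · simpa [CmpJ_P, hi] using hq i
      · simp [CmpJ_P, hi]
    · by_cases hi : i ∈ J
      · by_cases hj : j ∈ J
        · simpa [CmpJ_P, hi, hj] using hc i j
        · simpa [CmpJ_P, hi, hj] using hq i
      · by_cases hj : j ∈ J
        · simpa [CmpJ_P, hi, hj] using hq j
        · simp [CmpJ_P, hi, hj]

private theorem CmpJ_int {d N : ℕ} (p : Fin N → E d) (r : Fin N → ℝ) (J : Finset (Fin N))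
    (S : ℝ) (hd : 3 ≤ d) :
    ∫ x in Bz d (1 + S), max (S - gJ p r J x) 0 ^ ((d : ℝ) / 2 - 1) =
      ∫ x in {x | gmax (CmpJ_P p J) (CmpJ_a r J) x < S},
        (S - gmax (CmpJ_P p J) (CmpJ_a r J) x) ^ ((d : ℝ) / 2 - 1) := by
  have hd' : (3 : ℝ) ≤ d := by exact_mod_cast hd
  have hα : (d : ℝ) / 2 - 1 ≠ 0 := by
    have : 0 < (d : ℝ) / 2 - 1 := by linarith
    exact this.ne'
  have hset : {x | gmax (CmpJ_P p J) (CmpJ_a r J) x < S} = {x | gJ p r J x < S} := by
    ext x
    show gmax (CmpJ_P p J) (CmpJ_a r J) x < S ↔ gJ p r J x < S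
    rw [CmpJ_gmax]
  rw [hset]
  have hm : MeasurableSet {x | gJ p r J x < S} :=
    (isOpen_lt (CmpJ_cont p r J) continuous_const).measurableSet
  have hBm : MeasurableSet (Bz d (1 + S)) :=
    (isClosed_le (continuous_norm.pow 2) continuous_const).measurableSet
  have hsub : {x | gJ p r J x < S} ⊆ Bz d (1 + S) := by
    intro x hx
    have h1 : ‖x‖ ^ 2 - 1 ≤ gJ p r J x := by
      unfold gJ
      rw [Finset.le_fold_max]
      exact Or.inl le_rfl
    have h2 : gJ p r J x < S := hx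
    show ‖x‖ ^ 2 ≤ 1 + S
    linarith
  rw [setIntegral_eq_of_subset_of_forall_sdiff_eq_zero hBm hsub]
  · apply setIntegral_congr_fun hm
    intro x hx
    have h2 : gJ p r J x < S := hx
    show max (S - gJ p r J x) 0 ^ ((d : ℝ) / 2 - 1) =
      (S - gmax (CmpJ_P p J) (CmpJ_a r J) x) ^ ((d : ℝ) / 2 - 1)
    rw [CmpJ_gmax, max_eq_left (by linarith)]
  · intro x hx
    have h2 : S ≤ gJ p r J x := not_lt.1 hx.2
    rw [max_eq_right (by linarith), Real.zero_rpow hα]

theorem sCmpJ (hG : GPlusStmt) : S_CmpJ := by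
  intro d N p q r J S hd hc hq
  rw [CmpJ_int p r J S hd, CmpJ_int q r J S hd]
  exact (hG d (N + 1) (by omega) (Nat.succ_pos N) (CmpJ_P p J) (CmpJ_P q J)
    (CmpJ_contr p q J hc hq) (CmpJ_a r J) S).2

end Pool.Agent.Lib.MP_0c1c75_co.KPI
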