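import Pool.Agent.Lib.MP_0c1c75_co.KPI.SpecA

/-!
# MP_0c1c75_co, project KPI, module Cnt: the volumes of the cells are continuous in the weights
-/

set_option autoImplicit false

open MeasureTheory Set Metric Filter Topology

namespace Pool.Agent.Lib.MP_0c1c75_co.KPI

/-- Hyperplanes are null sets. -/
private theorem Cnt_null {d : ℕ} (v : E d) (a : ℝ) (h : v ≠ 0 ∨ a ≠ 0) :
    volume {x : E d | inner ℝ v x = a} = 0 := by
  by_cases hv : v = 0
  · have ha : a ≠ 0 := by
      rcases h with h | h
      · exact absurd hv h
      · exact h
    have : {x : E d | inner ℝ v x = a} = ∅ := by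
      ext x
      simp only [mem_ofPred_eq, mem_empty_iff_false, iff_false]
      rw [hv, inner_zero_left]
      exact fun h => ha h.symm
    rw [this, measure_empty]
  · set x0 : E d := (a / inner ℝ v v) • v with hx0
    have hvv : inner ℝ v v ≠ (0 : ℝ) := inner_self_ne_zero.2 hv
    have h1 : inner ℝ v x0 = a := by
      rw [hx0, inner_smul_right]
      field_simp
    have h2 : {x : E d | inner ℝ v x = a} =
        (fun x => -x0 + x) ⁻¹' ((ℝ ∙ v)ᗮ : Submodule ℝ (E d)) := by
      ext x
      rw [mem_preimage, SetLike.mem_coe, Submodule.mem_orthogonal_singleton_iff_inner_right,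
        inner_add_right, inner_neg_right, h1]
      simp only [mem_ofPred_eq]
      constructor
      · intro h
        rw [h]
        ring
      · intro h
        linarith
    rw [h2, measure_preimage_add]
    refine Measure.addHaar_submodule volume _ fun htop => ?_
    have h3 : v ∈ ((ℝ ∙ v)ᗮ : Submodule ℝ (E d)) := by
      rw [htop]
      exact Submodule.mem_top
    rw [Submodule.mem_orthogonal_singleton_iff_inner_right] at h3
    exact hvv h3

private theorem Cnt_ext_pos {d : ℕ} (J : Finset (E d)) (lam : J → ℝ) (n : E d) :
    0 < ext J lam n := by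
  unfold ext
  split_ifs
  · exact Real.exp_pos _
  · exact one_pos

private theorem Cnt_ext_cont {d : ℕ} (J : Finset (E d)) (n : E d) :
    Continuous fun lam : J → ℝ => ext J lam n := by
  by_cases h : n ∈ J
  · have : (fun lam : J → ℝ => ext J lam n) = fun lam => Real.exp (lam ⟨n, h⟩) := by
      funext lam
      rw [ext, dif_pos h]
    rw [this]
    exact Real.continuous_exp.comp (continuous_apply _)
  · have : (fun lam : J → ℝ => ext J lam n) = fun _ => 1 := by
      funext lam
      rw [ext, dif_neg h]
    rw [this]
    exact continuous_const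

/-- The volumes of the cells are continuous in the weights. -/
theorem sCnt (hCel : S_Cel) : S_Cnt := by
  intro d J z hd n hn
  have hBc : IsClosed (Bz d z) := isClosed_le (continuous_norm.pow 2) continuous_const
  have hBf : volume (Bz d z) ≠ ⊤ := by
    refine ((measure_mono (t := closedBall (0 : E d) (Real.sqrt z)) fun x hx => ?_).trans_lt
      measure_closedBall_lt_top).ne
    rw [mem_closedBall_zero_iff]
    exact Real.le_sqrt_of_sq_le hx
  rw [continuous_iff_continuousAt]
  intro lam0
  have hmeas : ∀ lam : J → ℝ, MeasurableSet (Cell J (ext J lam) n ∩ Bz d z) := fun lam =>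
    ((((hCel d J (ext J lam) hd fun m _ => Cnt_ext_pos J lam m).1 n).1).inter hBc).measurableSet
  have hint : (fun lam : J → ℝ => lv z (Cell J (ext J lam) n)) =
      fun lam => ∫ x, (Cell J (ext J lam) n ∩ Bz d z).indicator (1 : E d → ℝ) x := by
    funext lam
    rw [integral_indicator_one (hmeas lam)]
    rfl
  rw [hint]
  unfold ContinuousAt
  refine tendsto_integral_filter_of_dominated_convergence ((Bz d z).indicator 1) ?_ ?_ ?_ ?_
  · exact Eventually.of_forall fun lam =>
      (stronglyMeasurable_one.indicator (hmeas lam)).aestronglyMeasurable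
  · refine Eventually.of_forall fun lam => Eventually.of_forall fun x => ?_
    by_cases hx : x ∈ Cell J (ext J lam) n ∩ Bz d z
    · rw [indicator_of_mem hx, indicator_of_mem hx.2]
      simp
    · rw [indicator_of_notMem hx, norm_zero]
      exact indicator_nonneg (fun _ _ => zero_le_one) x
  · exact (integrable_indicator_iff hBc.measurableSet).2 (integrableOn_const hBf)
  · have hae : ∀ᵐ x : E d, ∀ m ∈ J, m ≠ n →
        ext J lam0 n * (inner ℝ n x - 1) - ext J lam0 m * (inner ℝ m x - 1) ≠ 0 := by
      rw [Finset.eventually_all]
      intro m hm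
      by_cases hmn : m = n
      · exact Eventually.of_forall fun x h => absurd hmn h
      · have hpn := Cnt_ext_pos J lam0 n
        have hcond : ext J lam0 n • n - ext J lam0 m • m ≠ 0 ∨ ext J lam0 n - ext J lam0 m ≠ 0 := by
          by_contra hcon
          push Not at hcon
          obtain ⟨h1, h2⟩ := hcon
          have h3 : ext J lam0 m = ext J lam0 n := by linarith
          rw [h3, sub_eq_zero] at h1
          exact hmn (smul_right_injective _ hpn.ne' h1).symm
        have h0 := Cnt_null _ _ hcond
        have h1 : ∀ᵐ x : E d, x ∉ {x : E d | inner ℝ (ext J lam0 n • n - ext J lam0 m • m) x =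
            ext J lam0 n - ext J lam0 m} := measure_eq_zero_iff_ae_notMem.1 h0
        filter_upwards [h1] with x hx _ h2
        refine hx ?_
        rw [inner_sub_left, real_inner_smul_left, real_inner_smul_left]
        linarith
    filter_upwards [hae] with x hx
    refine tendsto_const_nhds.congr' ?_
    have hev : ∀ᶠ lam in 𝓝 lam0, ∀ m ∈ J,
        (ext J lam m * (inner ℝ m x - 1) ≤ ext J lam n * (inner ℝ n x - 1) ↔
          ext J lam0 m * (inner ℝ m x - 1) ≤ ext J lam0 n * (inner ℝ n x - 1)) := by
      rw [Finset.eventually_all]
      intro m hm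
      by_cases hmn : m = n
      · subst hmn
        simp
      · have hc : Continuous fun lam : J → ℝ =>
            ext J lam n * (inner ℝ n x - 1) - ext J lam m * (inner ℝ m x - 1) :=
          ((Cnt_ext_cont J n).mul continuous_const).sub
            ((Cnt_ext_cont J m).mul continuous_const)
        rcases lt_or_gt_of_ne (hx m hm hmn) with h | h
        · filter_upwards [hc.continuousAt.eventually_lt continuousAt_const h] with lam hlam
          constructor
          · intro h2
            linarith
          · intro h2
            linarith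
        · filter_upwards [continuousAt_const.eventually_lt hc.continuousAt h] with lam hlam
          constructor
          · intro h2
            linarith
          · intro h2
            linarith
    filter_upwards [hev] with lam hlam
    have hiff : x ∈ Cell J (ext J lam0) n ∩ Bz d z ↔ x ∈ Cell J (ext J lam) n ∩ Bz d z := by
      simp only [Cell, mem_inter_iff, mem_ofPred_eq]
      constructor
      · rintro ⟨⟨h1, h2⟩, h3⟩
        exact ⟨⟨h1, fun m hm => (hlam m hm).2 (h2 m hm)⟩, h3⟩
      · rintro ⟨⟨h1, h2⟩, h3⟩
        exact ⟨⟨h1, fun m hm => (hlam m hm).1 (h2 m hm)⟩, h3⟩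
    by_cases hx1 : x ∈ Cell J (ext J lam0) n ∩ Bz d z
    · rw [indicator_of_mem hx1, indicator_of_mem (hiff.1 hx1)]
    · rw [indicator_of_notMem hx1, indicator_of_notMem fun h => hx1 (hiff.2 h)]

end Pool.Agent.Lib.MP_0c1c75_co.KPI
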