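import Pool.Agent.Lib.MP_0c1c75_co.KPI.SpecA

/-!
# MP_0c1c75_co, project KPI: random colouring
-/

set_option autoImplicit false

open MeasureTheory Set Metric

namespace Pool.Agent.Lib.MP_0c1c75_co.KPI

open Classical in
private lemma Col_mlt {X ι : Type} (H : ι → Set X) (J : Finset ι) (x : X) :
    mlt H J x = ∑ j ∈ J, if x ∈ H j then 1 else 0 := by
  unfold mlt
  rw [Finset.card_filter]

private lemma Col_meas {X ι : Type} [MeasurableSpace X] (H : ι → Set X) (J : Finset ι)
    (hH : ∀ i, MeasurableSet (H i)) : Measurable (mlt H J) := by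
  classical
  have h : mlt H J = fun x => ∑ j ∈ J, if x ∈ H j then 1 else 0 := funext fun x => Col_mlt H J x
  rw [h]
  exact Finset.measurable_sum _ fun j _ =>
    Measurable.ite (hH j) measurable_const measurable_const

private lemma Col_mono {X ι : Type} (H : ι → Set X) {J K : Finset ι} (h : J ⊆ K) (x : X) :
    mlt H J x ≤ mlt H K x := by
  classical
  unfold mlt
  exact Finset.card_le_card (Finset.filter_subset_filter _ h)

/-- Markov: if a point is in few of the sets then few of them contain half of the measure. -/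
private lemma Col_mk {X Ω : Type} [MeasurableSpace X] [Fintype Ω] (μ : Measure X)
    [IsFiniteMeasure μ] (S : Set X) (hS : MeasurableSet S) (G : Ω → Set X)
    (hG : ∀ χ, MeasurableSet (G χ))
    (h : ∀ x ∈ S, 8 * mlt G Finset.univ x ≤ Fintype.card Ω)
    [DecidablePred fun χ => μ.real S < 2 * μ.real (S ∩ G χ)] :
    4 * (Finset.univ.filter fun χ => μ.real S < 2 * μ.real (S ∩ G χ)).card ≤
      Fintype.card Ω := by
  classical
  have h1 : ∑ χ, μ.real (S ∩ G χ) ≤ μ.real S * ((Fintype.card Ω : ℝ) / 8) := by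
    have h2 : ∀ χ, μ.real (S ∩ G χ) = ∫ x in S, (G χ).indicator (1 : X → ℝ) x ∂μ := by
      intro χ
      rw [integral_indicator_one (hG χ), measureReal_restrict_apply (hG χ), Set.inter_comm]
    have hint : ∀ χ ∈ (Finset.univ : Finset Ω),
        Integrable (fun x => (G χ).indicator (1 : X → ℝ) x) (μ.restrict S) := by
      intro χ _
      exact (integrable_indicator_iff (hG χ)).2 (integrable_const _).integrableOn
    rw [Finset.sum_congr rfl fun χ _ => h2 χ, ← integral_finsetSum _ hint]
    have h3 : ∫ x in S, ((Fintype.card Ω : ℝ) / 8) ∂μ = μ.real S * ((Fintype.card Ω : ℝ) / 8) := by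
      rw [setIntegral_const, smul_eq_mul]
    rw [← h3]
    refine setIntegral_mono_on (integrable_finsetSum _ hint) (integrable_const _) hS ?_
    intro x hx
    have h4 : ∑ χ, (G χ).indicator (1 : X → ℝ) x = (mlt G Finset.univ x : ℝ) := by
      rw [Col_mlt, Nat.cast_sum]
      refine Finset.sum_congr rfl fun χ _ => ?_
      by_cases hc : x ∈ G χ
      · simp [hc]
      · simp [hc]
    rw [h4]
    have h5 := h x hx
    have h6 : (8 : ℝ) * (mlt G Finset.univ x : ℝ) ≤ (Fintype.card Ω : ℝ) := by exact_mod_cast h5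
    linarith
  set bd := Finset.univ.filter fun χ => μ.real S < 2 * μ.real (S ∩ G χ) with hbd
  rcases (measureReal_nonneg (μ := μ) (s := S)).eq_or_lt' with h0 | h0
  · have : bd = ∅ := by
      rw [hbd, Finset.filter_eq_empty_iff]
      intro χ _ hχ
      have h7 : μ.real (S ∩ G χ) ≤ μ.real S := measureReal_mono Set.inter_subset_left
      linarith
    rw [this]
    simp
  · have h8 : (bd.card : ℝ) * μ.real S ≤ 2 * ∑ χ, μ.real (S ∩ G χ) := by
      calc (bd.card : ℝ) * μ.real S = ∑ _χ ∈ bd, μ.real S := by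
            rw [Finset.sum_const, nsmul_eq_mul]
        _ ≤ ∑ χ ∈ bd, 2 * μ.real (S ∩ G χ) := by
            refine Finset.sum_le_sum fun χ hχ => ?_
            exact (Finset.mem_filter.1 hχ).2.le
        _ ≤ ∑ χ, 2 * μ.real (S ∩ G χ) := by
            refine Finset.sum_le_sum_of_subset_of_nonneg (Finset.subset_univ _) ?_
            intro χ _ _
            exact mul_nonneg zero_le_two measureReal_nonneg
        _ = 2 * ∑ χ, μ.real (S ∩ G χ) := by rw [Finset.mul_sum]
    have h9 : (4 * (bd.card : ℝ)) * μ.real S ≤ (Fintype.card Ω : ℝ) * μ.real S := by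
      nlinarith [h8, h1]
    have h10 := le_of_mul_le_mul_right h9 h0
    exact_mod_cast h10

/-- Two different places have the same colour for at most the proportion `1/a` of the colourings. -/
private lemma Col_pair {ι : Type} [Fintype ι] [DecidableEq ι] (a : ℕ) (i j : ι) (hij : j ≠ i) :
    a * (Finset.univ.filter fun χ : ι → Fin a => χ j = χ i).card ≤
      Fintype.card (ι → Fin a) := by
  classical
  have h1 : a * (Finset.univ.filter fun χ : ι → Fin a => χ j = χ i).card =
      ((Finset.univ.filter fun χ : ι → Fin a => χ j = χ i) ×ˢ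
        (Finset.univ : Finset (Fin a))).card := by
    rw [Finset.card_product, Finset.card_univ, Fintype.card_fin, mul_comm]
  rw [h1, ← Finset.card_univ]
  refine Finset.card_le_card_of_injOn (fun p => Function.update p.1 j p.2)
    (fun _ _ => Finset.mem_coe.2 (Finset.mem_univ _)) ?_
  rintro ⟨χ, c⟩ hp ⟨χ', c'⟩ hp' h
  have hχ : χ j = χ i := (Finset.mem_filter.1 (Finset.mem_product.1 (Finset.mem_coe.1 hp)).1).2
  have hχ' : χ' j = χ' i :=
    (Finset.mem_filter.1 (Finset.mem_product.1 (Finset.mem_coe.1 hp')).1).2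
  have h2 : ∀ k, Function.update χ j c k = Function.update χ' j c' k := fun k => congrFun h k
  have hc : c = c' := by
    have := h2 j
    simpa using this
  have hk : ∀ k, k ≠ j → χ k = χ' k := by
    intro k hk
    have := h2 k
    rwa [Function.update_of_ne hk, Function.update_of_ne hk] at this
  have hx : χ = χ' := by
    funext k
    by_cases hkj : k = j
    · rw [hkj, hχ, hχ', hk i (Ne.symm hij)]
    · exact hk k hkj
  rw [hx, hc]

open Classical in
/-- the elements different from `i` with the colour of `i` -/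
private noncomputable def Col_cl {ι : Type} [Fintype ι] {a : ℕ} (χ : ι → Fin a) (i : ι) :
    Finset ι := Finset.univ.filter fun j => j ≠ i ∧ χ j = χ i

private lemma Col_pt {X ι : Type} [Fintype ι] [DecidableEq ι] (H : ι → Set X) (a b : ℕ)
    (hb : 0 < b) (i : ι) (x : X) (hx : mlt H Finset.univ x ≤ 2 * b) :
    8 * mlt (fun χ : ι → Fin a => {x | 16 * b < a * mlt H (Col_cl χ i) x}) Finset.univ x ≤
      Fintype.card (ι → Fin a) := by
  classical
  have h1 : a * ∑ χ : ι → Fin a, mlt H (Col_cl χ i) x ≤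
      mlt H Finset.univ x * Fintype.card (ι → Fin a) := by
    have h2 : ∀ χ : ι → Fin a, mlt H (Col_cl χ i) x =
        ∑ j, if x ∈ H j then (if j ≠ i ∧ χ j = χ i then 1 else 0) else 0 := by
      intro χ
      rw [Col_mlt, Col_cl, Finset.sum_filter]
      refine Finset.sum_congr rfl fun j _ => ?_
      by_cases h : x ∈ H j <;> simp [h]
    rw [Finset.sum_congr rfl fun χ _ => h2 χ, Finset.sum_comm, Col_mlt, Finset.mul_sum,
      Finset.sum_mul]
    refine Finset.sum_le_sum fun j _ => ?_
    by_cases hj : x ∈ H j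
    · simp only [hj, if_true, one_mul]
      by_cases hji : j = i
      · simp [hji]
      · have h3 : ∑ χ : ι → Fin a, (if j ≠ i ∧ χ j = χ i then 1 else 0) =
            (Finset.univ.filter fun χ : ι → Fin a => χ j = χ i).card := by
          rw [Finset.card_filter]
          refine Finset.sum_congr rfl fun χ _ => ?_
          simp [hji]
        rw [h3]
        exact Col_pair a i j hji
    · simp [hj]
  set n := mlt (fun χ : ι → Fin a => {x | 16 * b < a * mlt H (Col_cl χ i) x}) Finset.univ x with hn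
  have h4 : n * (16 * b) ≤ a * ∑ χ : ι → Fin a, mlt H (Col_cl χ i) x := by
    rw [hn, Col_mlt, Finset.sum_mul, Finset.mul_sum]
    refine Finset.sum_le_sum fun χ _ => ?_
    by_cases h : x ∈ {x | 16 * b < a * mlt H (Col_cl χ i) x}
    · rw [if_pos h, one_mul]
      exact (show 16 * b < a * mlt H (Col_cl χ i) x from h).le
    · rw [if_neg h, zero_mul]
      exact Nat.zero_le _
  have h5 : n * (16 * b) ≤ 2 * b * Fintype.card (ι → Fin a) :=
    h4.trans (h1.trans (Nat.mul_le_mul_right _ hx))
  have h6 : (2 * b) * (8 * n) ≤ (2 * b) * Fintype.card (ι → Fin a) := by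
    calc (2 * b) * (8 * n) = n * (16 * b) := by ring
      _ ≤ _ := h5
  exact Nat.le_of_mul_le_mul_left h6 (by omega)

/-- What an unspoiled colouring gives. -/
private lemma Col_un {X ι : Type} [MeasurableSpace X] [Fintype ι] (μ : Measure X)
    [IsFiniteMeasure μ] (H : ι → Set X) (Z : Set X) (a b : ℕ) (hab : a ≤ b)
    (hH : ∀ i, MeasurableSet (H i)) (χ : ι → Fin a) (i : ι) (A : Finset ι)
    (hA : ∀ j ∈ A, χ j = χ i)
    (h : ¬ μ.real (H i ∩ Z) <
      2 * μ.real ((H i ∩ Z) ∩ {x | 16 * b < a * mlt H (Col_cl χ i) x})) :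
    μ.real (H i ∩ Z) ≤ 2 * μ.real (H i ∩ (Z ∩ {x | a * mlt H A x ≤ 17 * b})) := by
  classical
  have hG : MeasurableSet {x | 16 * b < a * mlt H (Col_cl χ i) x} :=
    measurableSet_lt measurable_const ((Col_meas H _ hH).const_mul a)
  have h1 := measureReal_inter_add_sdiff (μ := μ) (s := H i ∩ Z) hG
  have h2 : μ.real ((H i ∩ Z) \ {x | 16 * b < a * mlt H (Col_cl χ i) x}) ≤
      μ.real (H i ∩ (Z ∩ {x | a * mlt H A x ≤ 17 * b})) := by
    refine measureReal_mono ?_
    rintro x ⟨⟨hx1, hx2⟩, hx3⟩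
    refine ⟨hx1, hx2, ?_⟩
    have hx4 : a * mlt H (Col_cl χ i) x ≤ 16 * b := not_lt.1 hx3
    have h5 : mlt H A x ≤ mlt H (Col_cl χ i) x + 1 := by
      have h6 : A ⊆ insert i (Col_cl χ i) := by
        intro j hj
        rw [Finset.mem_insert]
        by_cases hji : j = i
        · exact Or.inl hji
        · exact Or.inr (Finset.mem_filter.2 ⟨Finset.mem_univ _, hji, hA j hj⟩)
      refine (Col_mono H h6 x).trans ?_
      unfold mlt
      rw [Finset.filter_insert]
      by_cases hxi : x ∈ H i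
      · rw [if_pos hxi]
        exact Finset.card_insert_le _ _
      · rw [if_neg hxi]
        exact Nat.le_succ _
    change a * mlt H A x ≤ 17 * b
    calc a * mlt H A x ≤ a * (mlt H (Col_cl χ i) x + 1) := Nat.mul_le_mul_left _ h5
      _ = a * mlt H (Col_cl χ i) x + a := by ring
      _ ≤ 16 * b + b := Nat.add_le_add hx4 hab
      _ = 17 * b := by ring
  rw [not_lt] at h
  linarith

/-- **Random colouring.** -/
theorem sCol : S_Col := by
  intro X ι _ _ μ ν _ _ H Y Z a b ha hab hH hY hZ hY1 hZ1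
  classical
  have hb : 0 < b := lt_of_lt_of_le ha hab
  have : NeZero a := ⟨ha.ne'⟩
  -- spoiled colourings
  have hsp : ∀ (ρ : Measure X) [IsFiniteMeasure ρ] (W : Set X) (e : ℕ), 0 < e → MeasurableSet W →
      (∀ x ∈ W, mlt H Finset.univ x ≤ 2 * e) → ∀ i : ι,
      4 * (Finset.univ.filter fun χ : ι → Fin a => ρ.real (H i ∩ W) <
        2 * ρ.real ((H i ∩ W) ∩ {x | 16 * e < a * mlt H (Col_cl χ i) x})).card ≤
        Fintype.card (ι → Fin a) := by
    intro ρ _ W e he hW hW1 i
    refine Col_mk ρ (H i ∩ W) ((hH i).inter hW)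
      (fun χ => {x | 16 * e < a * mlt H (Col_cl χ i) x}) (fun χ => ?_) (fun x hx => ?_)
    · exact measurableSet_lt measurable_const ((Col_meas H _ hH).const_mul a)
    · exact Col_pt H a e he i x (hW1 x hx.2)
  set Ω := ι → Fin a with hΩ
  set B1 : ι → Finset (ι → Fin a) := fun i => Finset.univ.filter fun χ : ι → Fin a =>
    μ.real (H i ∩ Y) < 2 * μ.real ((H i ∩ Y) ∩ {x | 16 * a < a * mlt H (Col_cl χ i) x}) with hB1
  set B2 : ι → Finset (ι → Fin a) := fun i => Finset.univ.filter fun χ : ι → Fin a =>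
    ν.real (H i ∩ Z) < 2 * ν.real ((H i ∩ Z) ∩ {x | 16 * b < a * mlt H (Col_cl χ i) x}) with hB2
  have h1 : ∀ i, 4 * (B1 i).card ≤ Fintype.card (ι → Fin a) := fun i =>
    hsp μ Y a ha hY hY1 i
  have h2 : ∀ i, 4 * (B2 i).card ≤ Fintype.card (ι → Fin a) := fun i =>
    hsp ν Z b hb hZ hZ1 i
  -- unspoiled ones
  have h3 : ∀ i, Fintype.card (ι → Fin a) ≤
      2 * (Finset.univ.filter fun χ : ι → Fin a => χ ∉ B1 i ∧ χ ∉ B2 i).card := by
    intro i
    have h4 : (Finset.univ : Finset (ι → Fin a)) ⊆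
        (Finset.univ.filter fun χ : ι → Fin a => χ ∉ B1 i ∧ χ ∉ B2 i) ∪ (B1 i ∪ B2 i) := by
      intro χ _
      by_cases hc1 : χ ∈ B1 i
      · simp [hc1]
      · by_cases hc2 : χ ∈ B2 i
        · simp [hc2]
        · simp [hc1, hc2]
    have h5 := (Finset.card_le_card h4).trans (Finset.card_union_le _ _)
    have h6 := Finset.card_union_le (B1 i) (B2 i)
    rw [Finset.card_univ] at h5
    have := h1 i
    have := h2 i
    omega
  have h7 : ∃ χ : ι → Fin a, Fintype.card ι ≤
      2 * (Finset.univ.filter fun i : ι => χ ∉ B1 i ∧ χ ∉ B2 i).card := by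
    have h8 : ∑ _χ : ι → Fin a, Fintype.card ι ≤
        ∑ χ : ι → Fin a, 2 * (Finset.univ.filter fun i : ι => χ ∉ B1 i ∧ χ ∉ B2 i).card := by
      have h9 : ∑ χ : ι → Fin a, 2 * (Finset.univ.filter fun i : ι => χ ∉ B1 i ∧ χ ∉ B2 i).card =
          ∑ i : ι, 2 * (Finset.univ.filter fun χ : ι → Fin a => χ ∉ B1 i ∧ χ ∉ B2 i).card := by
        simp only [Finset.card_filter, Finset.mul_sum]
        exact Finset.sum_comm
      rw [h9]
      calc ∑ _χ : ι → Fin a, Fintype.card ι = ∑ _i : ι, Fintype.card (ι → Fin a) := by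
            simp only [Finset.sum_const, Finset.card_univ, smul_eq_mul]
            exact mul_comm _ _
        _ ≤ _ := Finset.sum_le_sum fun i _ => h3 i
    obtain ⟨χ, _, hχ⟩ := Finset.exists_le_of_sum_le
      (Finset.univ_nonempty (α := ι → Fin a)) h8
    exact ⟨χ, hχ⟩
  obtain ⟨χ, hχ⟩ := h7
  set U := Finset.univ.filter fun i : ι => χ ∉ B1 i ∧ χ ∉ B2 i with hU
  have ha' : (0 : ℝ) < a := Nat.cast_pos.2 ha
  obtain ⟨c, _, hc⟩ := Finset.exists_le_card_fiber_of_nsmul_le_card_of_maps_to
    (s := U) (t := (Finset.univ : Finset (Fin a))) (f := χ) (b := (U.card : ℝ) / a)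
    (fun i _ => Finset.mem_univ _) Finset.univ_nonempty (by
      rw [Finset.card_univ, Fintype.card_fin, nsmul_eq_mul]
      exact (mul_div_cancel₀ _ ha'.ne').le)
  refine ⟨U.filter fun i => χ i = c, ?_, ?_⟩
  · have h10 : (U.card : ℝ) ≤ a * ((U.filter fun i => χ i = c).card : ℝ) := by
      rw [div_le_iff₀ ha'] at hc
      linarith
    have h11 : (Fintype.card ι : ℝ) ≤ 2 * (U.card : ℝ) := by exact_mod_cast hχ
    calc (Fintype.card ι : ℝ) ≤ 2 * (U.card : ℝ) := h11
      _ ≤ 2 * (a * ((U.filter fun i => χ i = c).card : ℝ)) := by linarith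
      _ = 2 * a * ((U.filter fun i => χ i = c).card : ℝ) := by ring
  · intro i hi
    have hi1 := (Finset.mem_filter.1 hi).1
    have hi2 : χ i = c := (Finset.mem_filter.1 hi).2
    have hi3 := (Finset.mem_filter.1 hi1).2
    have hA : ∀ j ∈ U.filter (fun i => χ i = c), χ j = χ i := fun j hj => by
      rw [(Finset.mem_filter.1 hj).2, hi2]
    constructor
    · have h12 : ¬ μ.real (H i ∩ Y) <
          2 * μ.real ((H i ∩ Y) ∩ {x | 16 * a < a * mlt H (Col_cl χ i) x}) := fun hlt =>
        hi3.1 (Finset.mem_filter.2 ⟨Finset.mem_univ _, hlt⟩)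
      have h13 := Col_un μ H Y a a le_rfl hH χ i _ hA h12
      have h14 : {x | a * mlt H (U.filter fun i => χ i = c) x ≤ 17 * a} =
          {x | mlt H (U.filter fun i => χ i = c) x ≤ 17} := by
        ext x
        simp only [Set.mem_ofPred_eq]
        rw [mul_comm 17 a]
        exact Nat.mul_le_mul_left_iff ha
      rw [h14] at h13
      exact h13
    · have h12 : ¬ ν.real (H i ∩ Z) <
          2 * ν.real ((H i ∩ Z) ∩ {x | 16 * b < a * mlt H (Col_cl χ i) x}) := fun hlt =>
        hi3.2 (Finset.mem_filter.2 ⟨Finset.mem_univ _, hlt⟩)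
      exact Col_un ν H Z a b hab hH χ i _ hA h12

end Pool.Agent.Lib.MP_0c1c75_co.KPI
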