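import Pool.Agent.Lib.MP_0c1c75_co.KPI.SpecA

/-!
# MP_0c1c75_co, project KPI: layering for two measures
-/

set_option autoImplicit false

open MeasureTheory Set Metric

namespace Pool.Agent.Lib.MP_0c1c75_co.KPI

variable {X ι : Type}

private theorem Dbl_mlt_mono (H : ι → Set X) {J K : Finset ι} (h : J ⊆ K) (x : X) :
    mlt H J x ≤ mlt H K x := by
  classical
  exact Finset.card_le_card (Finset.filter_subset_filter _ h)

private theorem Dbl_Uh_mono (H : ι → Set X) {J K : Finset ι} (h : J ⊆ K) :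
    Uh H J ⊆ Uh H K := fun _ ⟨i, hi, hx⟩ => ⟨i, h hi, hx⟩

theorem sDbl (hLay : S_Lay) : S_Dbl := by
  intro X ι _ μ ν _ _ H T D L hH hne hT hμ hν hμL hνL
  have hD1 : (1 : ℝ) ≤ D.card := by exact_mod_cast hne.card_pos
  have hL : 1 ≤ L := by
    have h1 := (hμ D le_rfl).trans hμL
    by_contra hc
    push Not at hc
    nlinarith
  obtain ⟨J1, hJ1, hJ1ne, s, hs, hc1, hb1⟩ := hLay X ι μ H T D L hH hne hT hμ hμL
  have hcard1 : J1.card < 2 ^ T := lt_of_le_of_lt (Finset.card_le_card hJ1) hT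
  have hν1 : ν.real (Uh H J1) ≤ (6 * (T : ℝ) ^ 2 * L ^ 2) * J1.card := by
    have h1 : ν.real (Uh H J1) ≤ ν.real (Uh H D) :=
      measureReal_mono (Dbl_Uh_mono H hJ1)
    have h2 : L * D.card ≤ L * (6 * (T : ℝ) ^ 2 * L * J1.card) :=
      mul_le_mul_of_nonneg_left hc1 (by linarith)
    calc ν.real (Uh H J1) ≤ L * D.card := h1.trans hνL
      _ ≤ L * (6 * (T : ℝ) ^ 2 * L * J1.card) := h2
      _ = (6 * (T : ℝ) ^ 2 * L ^ 2) * J1.card := by ring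
  obtain ⟨J2, hJ2, hJ2ne, s', hs', hc2, hb2⟩ := hLay X ι ν H T J1 (6 * (T : ℝ) ^ 2 * L ^ 2) hH
    hJ1ne hcard1 (fun J hJ => hν J (hJ.trans hJ1)) hν1
  refine ⟨J2, hJ2.trans hJ1, hJ2ne, ?_, s, hs, s', hs', fun i hi => ⟨?_, hb2 i hi⟩⟩
  · have hT0 : (0 : ℝ) ≤ 6 * (T : ℝ) ^ 2 * L := by
      have : (0 : ℝ) ≤ (T : ℝ) ^ 2 := sq_nonneg _
      have : 0 ≤ L := by linarith
      positivity
    calc (D.card : ℝ) ≤ 6 * (T : ℝ) ^ 2 * L * J1.card := hc1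
      _ ≤ 6 * (T : ℝ) ^ 2 * L * (6 * (T : ℝ) ^ 2 * (6 * (T : ℝ) ^ 2 * L ^ 2) * J2.card) :=
        mul_le_mul_of_nonneg_left hc2 hT0
      _ = 216 * (T : ℝ) ^ 6 * L ^ 3 * J2.card := by ring
  · refine (hb1 i (hJ2 hi)).trans (measureReal_mono ?_)
    rintro x ⟨hx, hx2⟩
    exact ⟨hx, lt_of_le_of_lt (Dbl_mlt_mono H hJ2 x) hx2⟩

end Pool.Agent.Lib.MP_0c1c75_co.KPI
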