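import Pool.Agent.Lib.MP_0c1c75_co.KPI.SpecB

/-!
# MP_0c1c75_co, project KPI: the deficiency argument (S_Dfc)
-/

set_option autoImplicit false

open MeasureTheory Set Metric

namespace Pool.Agent.Lib.MP_0c1c75_co.KPI

private lemma sum_biUnion_le' {ι κ : Type} [DecidableEq ι] [DecidableEq κ] (w : ι → ℝ)
    (hw : ∀ i, 0 ≤ w i) (s : Finset κ) (t : κ → Finset ι) :
    ∑ i ∈ s.biUnion t, w i ≤ ∑ k ∈ s, ∑ i ∈ t k, w i := by
  induction s using Finset.induction_on with
  | empty => simp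
  | insert a s ha ih =>
    rw [Finset.biUnion_insert, Finset.sum_insert ha]
    have h1 := Finset.sum_union_inter (s₁ := t a) (s₂ := s.biUnion t) (f := w)
    have h2 : 0 ≤ ∑ i ∈ t a ∩ s.biUnion t, w i := Finset.sum_nonneg (fun i _ => hw i)
    linarith

theorem sDfc : S_Dfc := by
  intro ι _ I w M ψ hM hw h0 hmono hsub hle
  have hM0 : (0 : ℝ) < M := by exact_mod_cast hM
  -- the largest subset with the property
  have hB : ∀ k, ∃ B ⊆ I, 4 * (M : ℝ) * ψ k B ≤ ∑ i ∈ B, w i ∧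
      ∀ J' ⊆ I \ B, ∑ i ∈ J', w i ≤ 4 * M * ψ k J' := by
    intro k
    have hne : ((I.powerset).filter (fun B => 4 * (M : ℝ) * ψ k B ≤ ∑ i ∈ B, w i)).Nonempty :=
      ⟨∅, by simp [h0]⟩
    obtain ⟨B, hB, hmax⟩ := Finset.exists_max_image _ (fun B => B.card) hne
    rw [Finset.mem_filter, Finset.mem_powerset] at hB
    refine ⟨B, hB.1, hB.2, fun J' hJ' => ?_⟩
    by_contra hcon
    rw [not_le] at hcon
    have hJI : J' ⊆ I := fun i hi => (Finset.mem_sdiff.1 (hJ' hi)).1
    have hdis : Disjoint B J' := by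
      rw [Finset.disjoint_left]
      intro i hi hi'
      exact (Finset.mem_sdiff.1 (hJ' hi')).2 hi
    have hnon : J'.Nonempty := by
      rw [Finset.nonempty_iff_ne_empty]
      rintro rfl
      rw [h0, Finset.sum_empty, mul_zero] at hcon
      exact lt_irrefl _ hcon
    have hprop : 4 * (M : ℝ) * ψ k (B ∪ J') ≤ ∑ i ∈ B ∪ J', w i := by
      rw [Finset.sum_union hdis]
      have h1 := hsub k B J'
      have h2 : 4 * (M : ℝ) * ψ k (B ∪ J') ≤ 4 * M * (ψ k B + ψ k J') :=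
        mul_le_mul_of_nonneg_left h1 (by positivity)
      linarith [hB.2]
    have h3 := hmax (B ∪ J') (by
      rw [Finset.mem_filter, Finset.mem_powerset]
      exact ⟨Finset.union_subset hB.1 hJI, hprop⟩)
    simp only [Finset.card_union_of_disjoint hdis] at h3
    have h4 := hnon.card_pos
    omega
  choose B hBI hBw hBJ using hB
  by_cases hk : ∃ k < M, ∑ i ∈ I, w i ≤ 2 * M * ∑ i ∈ I \ B k, w i
  · obtain ⟨k, hkM, hk⟩ := hk
    exact ⟨I \ B k, Finset.sdiff_subset, k, hkM, hk, hBJ k⟩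
  · exfalso
    push Not at hk
    set WI := ∑ i ∈ I, w i with hWI
    set J0 := I.filter (fun i => ∀ k < M, i ∈ B k) with hJ0
    have hJ0I : J0 ⊆ I := Finset.filter_subset _ _
    -- the complement of J0
    have h1 : ∑ i ∈ I \ J0, w i ≤ ∑ k ∈ Finset.range M, ∑ i ∈ I \ B k, w i := by
      have hsub2 : I \ J0 ⊆ (Finset.range M).biUnion (fun k => I \ B k) := by
        intro i hi
        rw [Finset.mem_sdiff, hJ0, Finset.mem_filter, not_and] at hi
        have h2 := hi.2 hi.1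
        push Not at h2
        obtain ⟨k, hk1, hk2⟩ := h2
        rw [Finset.mem_biUnion]
        exact ⟨k, Finset.mem_range.2 hk1, Finset.mem_sdiff.2 ⟨hi.1, hk2⟩⟩
      calc ∑ i ∈ I \ J0, w i ≤ ∑ i ∈ (Finset.range M).biUnion (fun k => I \ B k), w i :=
            Finset.sum_le_sum_of_subset_of_nonneg hsub2 (fun i _ _ => hw i)
        _ ≤ ∑ k ∈ Finset.range M, ∑ i ∈ I \ B k, w i := sum_biUnion_le' w hw _ _
    have h2 : 2 * (M : ℝ) * ∑ k ∈ Finset.range M, ∑ i ∈ I \ B k, w i < M * WI := by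
      rw [Finset.mul_sum]
      calc ∑ k ∈ Finset.range M, 2 * (M : ℝ) * ∑ i ∈ I \ B k, w i
          < ∑ _k ∈ Finset.range M, WI :=
            Finset.sum_lt_sum_of_nonempty ⟨0, Finset.mem_range.2 hM⟩
              (fun k hk' => hk k (Finset.mem_range.1 hk'))
        _ = M * WI := by rw [Finset.sum_const, Finset.card_range, nsmul_eq_mul]
    have h3 : 2 * ∑ k ∈ Finset.range M, ∑ i ∈ I \ B k, w i < WI := by
      have : (M : ℝ) * (2 * ∑ k ∈ Finset.range M, ∑ i ∈ I \ B k, w i) < M * WI := by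
        calc (M : ℝ) * (2 * ∑ k ∈ Finset.range M, ∑ i ∈ I \ B k, w i)
            = 2 * (M : ℝ) * ∑ k ∈ Finset.range M, ∑ i ∈ I \ B k, w i := by ring
          _ < _ := h2
      exact lt_of_mul_lt_mul_left this hM0.le
    have h4 : ∑ i ∈ I \ J0, w i + ∑ i ∈ J0, w i = WI := Finset.sum_sdiff hJ0I
    -- upper bound for the weight of J0
    have h5 : ∑ i ∈ J0, w i ≤ ∑ k ∈ Finset.range M, ψ k (B k) := by
      refine (hle J0 hJ0I).trans (Finset.sum_le_sum fun k hk' => hmono k _ _ ?_)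
      intro i hi
      rw [hJ0, Finset.mem_filter] at hi
      exact hi.2 k (Finset.mem_range.1 hk')
    have h6 : ∀ k ∈ Finset.range M, 4 * (M : ℝ) * ψ k (B k) ≤ WI := by
      intro k _
      exact (hBw k).trans (Finset.sum_le_sum_of_subset_of_nonneg (hBI k) (fun i _ _ => hw i))
    have h7 : 4 * (M : ℝ) * ∑ k ∈ Finset.range M, ψ k (B k) ≤ M * WI := by
      rw [Finset.mul_sum]
      calc ∑ k ∈ Finset.range M, 4 * (M : ℝ) * ψ k (B k) ≤ ∑ _k ∈ Finset.range M, WI :=
            Finset.sum_le_sum h6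
        _ = M * WI := by rw [Finset.sum_const, Finset.card_range, nsmul_eq_mul]
    have h8 : 4 * ∑ k ∈ Finset.range M, ψ k (B k) ≤ WI := by
      have : (M : ℝ) * (4 * ∑ k ∈ Finset.range M, ψ k (B k)) ≤ M * WI := by
        calc (M : ℝ) * (4 * ∑ k ∈ Finset.range M, ψ k (B k))
            = 4 * (M : ℝ) * ∑ k ∈ Finset.range M, ψ k (B k) := by ring
          _ ≤ _ := h7
      exact le_of_mul_le_mul_left this hM0
    have h9 : 0 ≤ ∑ k ∈ Finset.range M, ∑ i ∈ I \ B k, w i :=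
      Finset.sum_nonneg (fun k _ => Finset.sum_nonneg (fun i _ => hw i))
    linarith

end Pool.Agent.Lib.MP_0c1c75_co.KPI
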