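import Pool.Agent.Lib.MP_0c1c75_co.KPI.SpecB

set_option autoImplicit false

open MeasureTheory Set Metric

namespace Pool.Agent.Lib.MP_0c1c75_co.KPI

private theorem Dsc_measUn {d : ℕ} (J : Finset (E d)) : MeasurableSet (Un J) := by
  have h : Un J = ⋃ n ∈ J, {x : E d | 1 < inner ℝ n x} := by
    ext x
    simp [Un]
  rw [h]
  apply Finset.measurableSet_biUnion
  intro n _
  exact (isOpen_lt continuous_const (continuous_const.inner continuous_id)).measurableSet

private theorem Dsc_measBz (d : ℕ) (z : ℝ) : MeasurableSet (Bz d z) :=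
  (isClosed_le (continuous_norm.pow 2) continuous_const).measurableSet

private theorem Dsc_finBz (d : ℕ) (z : ℝ) : volume (Bz d z) ≠ ⊤ := by
  have h : Bz d z ⊆ closedBall (0 : E d) (Real.sqrt z) := by
    intro x hx
    rw [mem_closedBall, dist_zero_right]
    exact Real.le_sqrt_of_sq_le hx
  exact ((measure_mono h).trans_lt measure_closedBall_lt_top).ne

theorem sDsc : S_Dsc := by
  intro d m M J S a hd hm hS ha hM
  have hmr : (0 : ℝ) < m := by exact_mod_cast hm
  obtain ⟨c, hc⟩ : ∃ c : ℕ → ℝ,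
    c = fun k : ℕ => if (k : ℝ) / m < 1 + S then ((1 + S - k / m) / S) ^ a else 0 := ⟨_, rfl⟩
  have hc0 : ∀ k, 0 ≤ c k := by
    intro k
    rw [hc]
    dsimp only
    split_ifs with h
    · exact Real.rpow_nonneg (div_nonneg (by linarith) hS.le) _
    · exact le_rfl
  have hU : MeasurableSet (Un J) := Dsc_measUn J
  have hB : ∀ z, MeasurableSet (Bz d z) := Dsc_measBz d
  have hrhs : (∑ k ∈ Finset.range M,
      (if (k : ℝ) / m < 1 + S then ((1 + S - k / m) / S) ^ a * fv ((k + 1) / m) J else 0)) =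
      ∑ k ∈ Finset.range M, c k * volume.real (Un J ∩ Bz d ((k + 1) / m)) := by
    apply Finset.sum_congr rfl
    intro k _
    rw [hc]
    dsimp only
    split_ifs with h
    · rfl
    · rw [zero_mul]
  rw [hrhs]
  obtain ⟨D, hD⟩ : ∃ D, D = Un J ∩ Bz d (1 + S) := ⟨_, rfl⟩
  have hDm : MeasurableSet D := by rw [hD]; exact hU.inter (hB _)
  have hDf : volume D ≠ ⊤ := by
    rw [hD]
    exact ((measure_mono inter_subset_right).trans_lt (Dsc_finBz d _).lt_top).ne
  have : IsFiniteMeasure (volume.restrict D) := ⟨by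
    rw [Measure.restrict_apply_univ]; exact hDf.lt_top⟩
  have hDk : ∀ k : ℕ, MeasurableSet (Un J ∩ Bz d (((k : ℝ) + 1) / m)) := fun k => hU.inter (hB _)
  have h1 : Fs S a J ≤ ∫ x in D, ∑ k ∈ Finset.range M,
      c k * (Un J ∩ Bz d (((k : ℝ) + 1) / m)).indicator (fun _ => (1 : ℝ)) x := by
    unfold Fs
    rw [← hD]
    apply integral_mono_of_nonneg
    · refine (ae_restrict_iff' hDm).2 (Filter.Eventually.of_forall fun x hx => ?_)
      rw [hD] at hx
      have h2 : ‖x‖ ^ 2 ≤ 1 + S := hx.2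
      exact Real.rpow_nonneg (div_nonneg (by linarith) hS.le) _
    · apply integrable_finsetSum
      intro k _
      exact ((integrable_const (1 : ℝ)).indicator (hDk k)).const_mul (c k)
    · refine (ae_restrict_iff' hDm).2 (Filter.Eventually.of_forall fun x hx => ?_)
      rw [hD] at hx
      have h2 : ‖x‖ ^ 2 ≤ 1 + S := hx.2
      have hx0 : x ≠ 0 := by
        rintro rfl
        obtain ⟨n, -, hn⟩ := hx.1
        rw [inner_zero_right] at hn
        linarith
      have hxp : 0 < ‖x‖ ^ 2 := pow_pos (norm_pos_iff.2 hx0) 2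
      obtain ⟨k, hk⟩ : ∃ k : ℕ, ⌈(m : ℝ) * ‖x‖ ^ 2⌉₊ = k + 1 :=
        Nat.exists_eq_succ_of_ne_zero (Nat.ceil_pos.2 (mul_pos hmr hxp)).ne'
      have hk1 : (m : ℝ) * ‖x‖ ^ 2 ≤ (k : ℝ) + 1 := by
        have := Nat.le_ceil ((m : ℝ) * ‖x‖ ^ 2)
        rw [hk] at this
        push_cast at this
        exact this
      have hk2 : (k : ℝ) < (m : ℝ) * ‖x‖ ^ 2 := by
        apply Nat.lt_ceil.1
        omega
      have hkM : k < M := by
        have h3 : (k : ℝ) < M := by
          calc (k : ℝ) < (m : ℝ) * ‖x‖ ^ 2 := hk2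
            _ ≤ (m : ℝ) * (1 + S) := by gcongr
            _ = (1 + S) * m := by ring
            _ ≤ M := hM
        exact_mod_cast h3
      have hk3 : (k : ℝ) / m < ‖x‖ ^ 2 := by rw [div_lt_iff₀ hmr]; linarith
      have hk4 : ‖x‖ ^ 2 ≤ ((k : ℝ) + 1) / m := by rw [le_div_iff₀ hmr]; linarith
      have hmem : x ∈ Un J ∩ Bz d (((k : ℝ) + 1) / m) := ⟨hx.1, hk4⟩
      have h5 : c k * (Un J ∩ Bz d (((k : ℝ) + 1) / m)).indicator (fun _ => (1 : ℝ)) x ≤
          ∑ k ∈ Finset.range M,
            c k * (Un J ∩ Bz d (((k : ℝ) + 1) / m)).indicator (fun _ => (1 : ℝ)) x := by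
        refine Finset.single_le_sum (f := fun k : ℕ =>
          c k * (Un J ∩ Bz d (((k : ℝ) + 1) / m)).indicator (fun _ => (1 : ℝ)) x) ?_
          (Finset.mem_range.2 hkM)
        intro i _
        exact mul_nonneg (hc0 i) (indicator_nonneg (fun _ _ => zero_le_one) x)
      rw [indicator_of_mem hmem, mul_one] at h5
      refine le_trans ?_ h5
      rw [hc]
      dsimp only
      rw [if_pos (hk3.trans_le h2)]
      apply Real.rpow_le_rpow (div_nonneg (by linarith) hS.le) _ ha
      apply div_le_div_of_nonneg_right _ hS.le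
      linarith
  refine h1.trans ?_
  rw [integral_finsetSum _ (fun k _ =>
    ((integrable_const (1 : ℝ)).indicator (hDk k)).const_mul (c k))]
  apply Finset.sum_le_sum
  intro k _
  rw [integral_const_mul, integral_indicator_const _ (hDk k), smul_eq_mul, mul_one,
    measureReal_restrict_apply (hDk k)]
  apply mul_le_mul_of_nonneg_left _ (hc0 k)
  exact measureReal_mono inter_subset_left
    ((measure_mono inter_subset_right).trans_lt (Dsc_finBz d _).lt_top).ne

end Pool.Agent.Lib.MP_0c1c75_co.KPI
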