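import Pool.Agent.Lib.MP_0c1c75_co.KPI.SpecA

/-!
# MP_0c1c75_co, project KPI: existence of the weights
-/

set_option autoImplicit false

open MeasureTheory Set Metric

namespace Pool.Agent.Lib.MP_0c1c75_co.KPI

private theorem Exi_fin {d : ℕ} (z : ℝ) (C : Set (E d)) : volume (C ∩ Bz d z) ≠ ⊤ := by
  refine ne_top_of_le_ne_top (measure_closedBall_lt_top (x := (0 : E d)) (r := Real.sqrt z)).ne
    (measure_mono fun x hx => ?_)
  rw [mem_closedBall_zero_iff]
  exact Real.le_sqrt_of_sq_le hx.2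

private theorem Exi_ext {d : ℕ} {J : Finset (E d)} (lam : J → ℝ) (i : J) :
    ext J lam i = Real.exp (lam i) := by
  unfold ext
  rw [dif_pos i.2]

private theorem Exi_mono {d : ℕ} {J : Finset (E d)} (lam : J → ℝ) (i j : J) (hij : j ≠ i) (h : ℝ)
    (hh : 0 ≤ h) :
    Cell J (ext J (lam + Pi.single i h)) j ⊆ Cell J (ext J lam) j := by
  rintro x ⟨hx0, hx⟩
  refine ⟨hx0, fun m hm => ?_⟩
  have h1 := hx m hm
  have hj : ext J (lam + Pi.single i h) j = ext J lam j := by
    rw [Exi_ext, Exi_ext, Pi.add_apply, Pi.single_eq_of_ne hij, add_zero]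
  rw [hj] at h1
  obtain ⟨m', rfl⟩ : ∃ m' : J, (m' : E d) = m := ⟨⟨m, hm⟩, rfl⟩
  by_cases hmi : m' = i
  · subst hmi
    rw [Exi_ext, Pi.add_apply, Pi.single_eq_same] at h1
    rw [Exi_ext]
    rcases le_or_gt (inner ℝ (m' : E d) x - 1) 0 with h2 | h2
    · refine (mul_nonpos_of_nonneg_of_nonpos (Real.exp_pos _).le h2).trans ?_
      rw [Exi_ext]
      exact mul_nonneg (Real.exp_pos _).le hx0
    · refine le_trans (mul_le_mul_of_nonneg_right (Real.exp_le_exp.2 ?_) h2.le) h1
      linarith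
  · rw [Exi_ext, Pi.add_apply, Pi.single_eq_of_ne hmi, add_zero] at h1
    rw [Exi_ext]
    exact h1

theorem sExi (hCnt : S_Cnt) (hBdd : S_Bdd) : S_Exi := by
  intro d J z w hd hw hJ
  obtain ⟨R, hR⟩ := hBdd d J z w hd hw hJ
  obtain ⟨Sg, hSg⟩ : ∃ Sg : Set (J → ℝ), Sg = ⋂ i : J, ({lam | lam i = 0} ∪
      ({lam | 0 ≤ lam i} ∩ {lam | lv z (Cell J (ext J lam) i) ≤ w i})) := ⟨_, rfl⟩
  have hcl : IsClosed Sg := by
    rw [hSg]
    refine isClosed_iInter fun i => IsClosed.union ?_ (IsClosed.inter ?_ ?_)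
    · exact isClosed_eq (continuous_apply i) continuous_const
    · exact isClosed_le continuous_const (continuous_apply i)
    · exact isClosed_le (hCnt d J z hd i i.2) continuous_const
  have hmem : ∀ lam : J → ℝ, lam ∈ Sg ↔ ∀ i : J, 0 ≤ lam i ∧
      (0 < lam i → lv z (Cell J (ext J lam) i) ≤ w i) := by
    intro lam
    rw [hSg, mem_iInter]
    refine forall_congr' fun i => ⟨?_, ?_⟩
    · rintro (h | ⟨h1, h2⟩)
      · have h' : lam i = 0 := h
        exact ⟨h'.ge, fun h3 => absurd h' h3.ne'⟩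
      · exact ⟨h1, fun _ => h2⟩
    · rintro ⟨h1, h2⟩
      rcases h1.eq_or_lt with h | h
      · exact Or.inl h.symm
      · exact Or.inr ⟨h1, h2 h⟩
  have hsub : Sg ⊆ Icc (0 : J → ℝ) (fun _ => R) := by
    intro lam hlam
    have h1 := (hmem lam).1 hlam
    exact ⟨fun i => (h1 i).1, fun i => hR lam (fun i => (h1 i).1) (fun i => (h1 i).2) i⟩
  have hcpt : IsCompact Sg := isCompact_Icc.of_isClosed_subset hcl hsub
  have h0 : (0 : J → ℝ) ∈ Sg := (hmem 0).2 fun i => ⟨le_refl _, fun h => absurd h (lt_irrefl _)⟩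
  obtain ⟨lam, hlam, hmax⟩ := hcpt.exists_isMaxOn ⟨0, h0⟩
    (f := fun lam : J → ℝ => ∑ i, lam i)
    (continuous_finsetSum _ fun i _ => continuous_apply i).continuousOn
  have hlam' := (hmem lam).1 hlam
  refine ⟨ext J lam, fun n hn => ?_, fun n hn => ?_⟩
  · have h1 := Exi_ext lam ⟨n, hn⟩
    change ext J lam n = _ at h1
    rw [h1]
    exact Real.one_le_exp (hlam' _).1
  · by_contra hcon
    rw [not_le] at hcon
    obtain ⟨i, rfl⟩ : ∃ i : J, (i : E d) = n := ⟨⟨n, hn⟩, rfl⟩
    have hc : Continuous fun h : ℝ => lv z (Cell J (ext J (lam + Pi.single i h)) i) :=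
      (hCnt d J z hd i i.2).comp (continuous_const.add (continuous_single (A := fun _ : J => ℝ) i))
    have hlt : lv z (Cell J (ext J (lam + Pi.single i 0)) i) < w i := by
      rw [Pi.single_zero, add_zero]
      exact hcon
    have hev : ∀ᶠ h : ℝ in nhdsWithin 0 (Ioi 0),
        lv z (Cell J (ext J (lam + Pi.single i h)) i) < w i :=
      (hc.continuousAt.eventually (gt_mem_nhds hlt)).filter_mono nhdsWithin_le_nhds
    obtain ⟨h, h1, h2⟩ := (hev.and self_mem_nhdsWithin).exists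
    have h2' : 0 < h := h2
    have hin : lam + Pi.single i h ∈ Sg := by
      rw [hmem]
      intro j
      by_cases hji : j = i
      · subst hji
        refine ⟨?_, fun _ => h1.le⟩
        rw [Pi.add_apply, Pi.single_eq_same]
        exact add_nonneg (hlam' _).1 h2'.le
      · rw [Pi.add_apply, Pi.single_eq_of_ne hji, add_zero]
        refine ⟨(hlam' j).1, fun h3 => le_trans ?_ ((hlam' j).2 h3)⟩
        exact measureReal_mono (inter_subset_inter_left _ (Exi_mono lam i j hji h h2'.le))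
          (Exi_fin z _)
    have h4 : ∑ j, (lam + Pi.single i h : J → ℝ) j ≤ ∑ j, lam j := hmax hin
    have h5 : ∑ j, (lam + Pi.single i h : J → ℝ) j = ∑ j, lam j + h := by
      simp only [Pi.add_apply]
      rw [Finset.sum_add_distrib, Finset.sum_pi_single']
      simp
    rw [h5] at h4
    linarith

end Pool.Agent.Lib.MP_0c1c75_co.KPI
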