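import Pool.Agent.Lib.MP_0c1c75_co.KPI.SpecF

set_option autoImplicit false

open MeasureTheory Set Metric

namespace Pool.Agent.Lib.MP_0c1c75_co.KPI

private theorem FCmp_ms {d N : ℕ} (s : ℝ) (p : Fin N → E d) (β : Fin N → ℝ) (x : E d) :
    Ar.ms 1 (fun i => s • p i) β x = Ar.ms s p β x := by
  unfold Ar.ms
  congr 1
  funext i
  rw [real_inner_smul_left, one_mul]

theorem kFCmp (h1 : S_FMom) (h2 : S_FTail) (h3 : S_FLin) (h4 : S_FLow) (h5 : S_FUp) :
    S_FCmp := by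
  intro b hb0 hb1
  obtain ⟨c5, hc5, d1, ht⟩ := h2 b hb0 hb1
  refine ⟨c5, hc5, max d1 1, ?_⟩
  intro d hd N p q β i0 P hC hp0 hβ0 hβ hP
  have hd1 : d1 ≤ d := (le_max_left _ _).trans hd
  have hd0 : 0 < d := (le_max_right d1 1).trans hd
  have hN : 0 < N := Fin.pos i0
  obtain ⟨hZ, hg, -, -, -⟩ := h1 d hd0
  have hP0 : 0 ≤ P := by
    have := hP i0
    rw [hp0, norm_zero] at this
    exact this
  obtain ⟨s, hs⟩ : ∃ s, s = b / gm d := ⟨_, rfl⟩
  have hs0 : 0 < s := by rw [hs]; exact div_pos hb0 hg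
  have hsg : s * gm d = b := by rw [hs]; exact div_mul_cancel₀ b hg.ne'
  have hZn : Zn d = gm d * Zg d := by
    unfold gm
    exact (div_mul_cancel₀ (Zn d) hZ.ne').symm
  have hsZ : s * Zn d = b * Zg d := by rw [hZn, ← mul_assoc, hsg]
  have hs1 : 1 / s = gm d / b := by rw [hs, one_div_div]
  have hC' : Contr 1 (fun i => s • p i) (fun i => s • q i) := by
    intro i j
    have h := hC i j
    rw [one_mul] at h ⊢
    rw [dist_smul₀, dist_smul₀]
    exact mul_le_mul_of_nonneg_left h (norm_nonneg s)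
  have e1 := h4 d N hd0 hN q β s hs0.le
  rw [hsg] at e1
  have e2 := h3 d N hN (fun i => s • p i) (fun i => s • q i) hC' β
  simp only [FCmp_ms] at e2
  have e3 := h5 d N hd0 p β i0 hp0 hβ0 hβ P hP s hs0
  rw [hs1, hsZ] at e3
  have e4 := ht d hd1
  have e5 : s * P * ∫ x in {x : E d | gm d / b < ‖x‖}, Real.exp (-‖x‖ ^ 2) * ‖x‖ ≤
      b * Zg d * (P * Real.exp (-(c5 * d))) := by
    calc s * P * ∫ x in {x : E d | gm d / b < ‖x‖}, Real.exp (-‖x‖ ^ 2) * ‖x‖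
        ≤ s * P * (Real.exp (-(c5 * d)) * Zn d) :=
          mul_le_mul_of_nonneg_left e4 (mul_nonneg hs0.le hP0)
      _ = (s * Zn d) * (P * Real.exp (-(c5 * d))) := by ring
      _ = b * Zg d * (P * Real.exp (-(c5 * d))) := by rw [hsZ]
  have e6 : Zg d * Ar.aw b q β ≤ Zg d * (b * (Ar.aw 1 p β + P * Real.exp (-(c5 * d)))) := by
    calc Zg d * Ar.aw b q β ≤ _ := e1
      _ ≤ _ := e2
      _ ≤ _ := e3
      _ ≤ b * Zg d * Ar.aw 1 p β + b * Zg d * (P * Real.exp (-(c5 * d))) := by linarith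
      _ = Zg d * (b * (Ar.aw 1 p β + P * Real.exp (-(c5 * d)))) := by ring
  exact le_of_mul_le_mul_left e6 hZ

end Pool.Agent.Lib.MP_0c1c75_co.KPI
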