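import Pool.Agent.Lib.MP_0c1c75_co.KPI.SpecF
import Pool.Agent.Lib.MP_0c1c75_co.ArBas

/-!
# MP_0c1c75_co, project KPI: lower bound for the average from the directions (`S_FDr`)
-/

set_option autoImplicit false

open MeasureTheory Set Metric

namespace Pool.Agent.Lib.MP_0c1c75_co.KPI

private theorem FDr_meas {d N : ℕ} (hd : 0 < d) (hN : 0 < N) (p : Fin N → E d)
    (b : Fin N → ℝ) : Measurable (fun x : E d => Ar.ms 1 p b (‖x‖⁻¹ • x)) := by
  have h1 := (Ar.basStmt d N hd hN p b).1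
  have h2 : Continuous (fun u : E d => Ar.ms 1 p b u) :=
    h1.comp (Continuous.prodMk continuous_const continuous_id)
  have h3 : Measurable (fun x : E d => ‖x‖⁻¹ • x) := measurable_norm.inv.smul measurable_id
  exact h2.measurable.comp h3

private theorem FDr_bdd {d N : ℕ} (hd : 0 < d) (hN : 0 < N) (p : Fin N → E d)
    (b : Fin N → ℝ) : ∃ C : ℝ, ∀ x : E d, |Ar.ms 1 p b (‖x‖⁻¹ • x)| ≤ C := by
  obtain ⟨-, h, -⟩ := Ar.basStmt d N hd hN p b
  refine ⟨∑ i, ‖p i‖ + ∑ i, |b i|, fun x => (h 1 _).trans ?_⟩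
  have h3 : ‖‖x‖⁻¹ • x‖ ≤ 1 := by
    rw [norm_smul, norm_inv, norm_norm]
    exact inv_mul_le_one
  have h4 : (0 : ℝ) ≤ ∑ i, ‖p i‖ := Finset.sum_nonneg fun i _ => norm_nonneg _
  rw [abs_one, one_mul]
  have h5 : ‖‖x‖⁻¹ • x‖ * ∑ i, ‖p i‖ ≤ 1 * ∑ i, ‖p i‖ := mul_le_mul_of_nonneg_right h3 h4
  linarith

private theorem FDr_om (d : ℕ) : volume.real (ball (0 : E d) 1) = om d := by
  unfold om
  rw [measureReal_def, measureReal_def, Measure.addHaar_unitClosedBall_eq_addHaar_unitBall]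

private theorem FDr_avg {d : ℕ} (g : E d → ℝ) :
    ∫ x in ball (0 : E d) 1, g x = om d * ⨍ x in ball (0 : E d) 1, g x := by
  have h0 : volume (ball (0 : E d) 1) ≠ 0 := (measure_ball_pos volume 0 one_pos).ne'
  have h1 : volume.real (ball (0 : E d) 1) ≠ 0 := by
    rw [measureReal_def]
    exact ENNReal.toReal_ne_zero.mpr ⟨h0, measure_ball_lt_top.ne⟩
  rw [setAverage_eq, smul_eq_mul, ← FDr_om, mul_inv_cancel_left₀ h1]

/-- The open and the closed ball agree almost everywhere. -/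
private theorem FDr_ae {d : ℕ} (hd : 0 < d) :
    (ball (0 : E d) 1 : Set (E d)) =ᵐ[volume] (closedBall (0 : E d) 1 : Set (E d)) := by
  have : Nonempty (Fin d) := ⟨⟨0, hd⟩⟩
  have h1 : volume (closedBall (0 : E d) 1 \ ball (0 : E d) 1) = 0 := by
    have h2 : closedBall (0 : E d) 1 \ ball (0 : E d) 1 = sphere (0 : E d) 1 := closedBall_sdiff_ball
    rw [h2]
    exact Measure.addHaar_sphere volume (0 : E d) 1
  refine Filter.EventuallyLE.antisymm ?_ ?_
  · exact (ball_subset_closedBall : ball (0 : E d) 1 ⊆ closedBall 0 1).eventuallyLE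
  · exact ae_le_set.mpr h1

private theorem FDr_num (t R P δ s m : ℝ) (hP : 0 < P) (hPδ : P ≤ δ) (ht : P / 2 ≤ t) (htP : t ≤ P)
    (hs : ((R ^ 2 - 1 - t ^ 2) / (2 * t) + δ) * t < -s) (hm : -(1 * s) - (R - 1) ≤ m) :
    P * δ / 4 ≤ m := by
  have ht0 : 0 < t := by linarith
  have h1 : ((R ^ 2 - 1 - t ^ 2) / (2 * t) + δ) * t = (R ^ 2 - 1 - t ^ 2) / 2 + δ * t := by
    field_simp
  rw [h1] at hs
  have h2 : 0 ≤ (R - 1) ^ 2 := sq_nonneg _
  have h3 : t ^ 2 ≤ t * δ := by nlinarith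
  have h4 : P / 2 * δ ≤ t * δ := mul_le_mul_of_nonneg_right ht (by linarith)
  nlinarith

theorem kFDr (h : S_FMs) : S_FDr := by
  intro d N p r T T' P δ hd hTT hP hPδ hT' hT
  obtain ⟨f1, f2, f3, -⟩ := h d N p r T hT
  obtain ⟨M, hM⟩ : ∃ M : E d → ℝ, M = fun x => Ar.ms 1 (ph p T) (bh r T) (‖x‖⁻¹ • x) := ⟨_, rfl⟩
  have hMx : ∀ x, M x = Ar.ms 1 (ph p T) (bh r T) (‖x‖⁻¹ • x) := fun x => by rw [hM]
  have hMm : Measurable M := hM ▸ FDr_meas hd (Nat.succ_pos N) _ _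
  obtain ⟨C, hC⟩ := FDr_bdd hd (Nat.succ_pos N) (ph p T) (bh r T)
  have hM0 : ∀ x, 0 ≤ M x := fun x => by rw [hMx]; exact f1 1 _
  have haw : om d * Ar.aw 1 (ph p T) (bh r T) = ∫ x in closedBall (0 : E d) 1, M x := by
    rw [← setIntegral_congr_set (FDr_ae hd), FDr_avg, hM]
    rfl
  have hcb : volume (closedBall (0 : E d) 1) ≠ ⊤ := measure_closedBall_lt_top.ne
  have hMi : IntegrableOn M (closedBall (0 : E d) 1) := by
    refine Measure.integrableOn_of_bounded (M := C) hcb hMm.aestronglyMeasurable ?_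
    exact Filter.Eventually.of_forall fun x => by rw [Real.norm_eq_abs, hMx]; exact hC x
  obtain ⟨D, hD⟩ : ∃ D : Set (E d), D = Dr p r T' δ := ⟨_, rfl⟩
  have hDm : MeasurableSet D := by
    have h1 : D = {x : E d | ‖x‖ ≤ 1} ∩ ⋃ i ∈ T',
        {x : E d | (kap (p i) (r i) + δ) * (‖p i‖ * ‖x‖) < -inner ℝ (p i) x} := by
      rw [hD]
      ext x
      simp only [Dr, mem_ofPred_eq, mem_inter_iff, mem_iUnion, exists_prop]
    rw [h1]
    refine (measurableSet_le measurable_norm measurable_const).inter ?_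
    refine Finset.measurableSet_biUnion T' fun i _ => ?_
    apply measurableSet_lt
    · exact (measurable_norm.const_mul _).const_mul _
    · exact (measurable_const.inner measurable_id).neg
  have hDb : D ⊆ closedBall (0 : E d) 1 := by
    intro x hx
    rw [hD] at hx
    rw [mem_closedBall_zero_iff]
    exact hx.1
  have hDM : ∀ x ∈ D, P * δ / 4 ≤ M x := by
    intro x hx
    rw [hD] at hx
    obtain ⟨hx1, i, hi, hx2⟩ := hx
    obtain ⟨hp1, hp2⟩ := hT' i hi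
    have hx0 : x ≠ 0 := by
      rintro rfl
      rw [norm_zero, inner_zero_right] at hx2
      simp at hx2
    have hxp : 0 < ‖x‖ := norm_pos_iff.mpr hx0
    rw [hMx]
    refine FDr_num ‖p i‖ (r i) P δ (inner ℝ (p i) (‖x‖⁻¹ • x)) _ hP hPδ hp1 hp2 ?_
      (f2 1 _ i (hTT hi))
    rw [real_inner_smul_right]
    have h1 := mul_lt_mul_of_pos_left hx2 (inv_pos.mpr hxp)
    have h2 : ‖x‖⁻¹ * ((kap (p i) (r i) + δ) * (‖p i‖ * ‖x‖)) =
        ((r i ^ 2 - 1 - ‖p i‖ ^ 2) / (2 * ‖p i‖) + δ) * ‖p i‖ := by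
      unfold kap
      rw [show ‖x‖⁻¹ * (((r i ^ 2 - 1 - ‖p i‖ ^ 2) / (2 * ‖p i‖) + δ) * (‖p i‖ * ‖x‖)) =
        ((r i ^ 2 - 1 - ‖p i‖ ^ 2) / (2 * ‖p i‖) + δ) * ‖p i‖ * (‖x‖⁻¹ * ‖x‖) by ring,
        inv_mul_cancel₀ hxp.ne', mul_one]
    rw [h2] at h1
    rw [mul_neg] at h1
    exact h1
  have hDt : volume D ≠ ⊤ := ne_top_of_le_ne_top hcb (measure_mono hDb)
  rw [haw, ← hD]
  calc P * δ / 4 * volume.real D = ∫ _ in D, P * δ / 4 := by
        rw [setIntegral_const, smul_eq_mul, mul_comm]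
    _ ≤ ∫ x in D, M x :=
        setIntegral_mono_on (integrableOn_const hDt) (hMi.mono_set hDb) hDm hDM
    _ ≤ ∫ x in closedBall (0 : E d) 1, M x :=
        setIntegral_mono_set hMi (Filter.Eventually.of_forall hM0) hDb.eventuallyLE

end Pool.Agent.Lib.MP_0c1c75_co.KPI
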