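import Pool.Agent.Lib.MP_0c1c75_co.KPI.SpecF
import Pool.Agent.Lib.MP_0c1c75_co.MeanWidth

/-!
# MP_0c1c75_co, project KPI: Sudakov-Fernique inequality with offsets (S_FLin)
-/

set_option autoImplicit false

open MeasureTheory Set Metric

namespace Pool.Agent.Lib.MP_0c1c75_co.KPI

open MeanWidth

section

variable {d N : ℕ}

private theorem FLin_le (p : Fin N → E d) (b : Fin N → ℝ) (u : E d) (i : Fin N) :
    -(1 * inner ℝ (p i) u) - b i ≤ Ar.ms 1 p b u :=
  le_ciSup (bdd fun i => -(1 * inner ℝ (p i) u) - b i) i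

private theorem FLin_ms_le (hN : 0 < N) (p : Fin N → E d) (b : Fin N → ℝ) (u : E d) {c : ℝ}
    (h : ∀ i, -(1 * inner ℝ (p i) u) - b i ≤ c) : Ar.ms 1 p b u ≤ c := by
  have : Nonempty (Fin N) := ⟨⟨0, hN⟩⟩
  exact ciSup_le h

private theorem FLin_cont (hN : 0 < N) (p : Fin N → E d) (b : Fin N → ℝ) :
    Continuous (Ar.ms 1 p b) := by
  have : Nonempty (Fin N) := ⟨⟨0, hN⟩⟩
  have h1 : Ar.ms 1 p b = fun u => (Finset.univ : Finset (Fin N)).sup' Finset.univ_nonempty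
      (fun i => -(1 * inner ℝ (p i) u) - b i) := by
    funext z
    rw [Finset.sup'_univ_eq_ciSup]
    rfl
  rw [h1]
  exact Continuous.finset_sup'_apply _ fun i _ =>
    ((continuous_const.mul (continuous_const.inner continuous_id)).neg).sub continuous_const

private theorem FLin_abs (hN : 0 < N) (p : Fin N → E d) (b : Fin N → ℝ) {M : ℝ}
    (hM : ∀ i, ‖p i‖ ≤ M) (hb : ∀ i, |b i| ≤ M) (u : E d) :
    |Ar.ms 1 p b u| ≤ M * (1 + ‖u‖) := by
  have h1 : ∀ i, |-(1 * inner ℝ (p i) u) - b i| ≤ M * (1 + ‖u‖) := fun i => by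
    have h2 : |inner ℝ (p i) u| ≤ M * ‖u‖ :=
      (abs_real_inner_le_norm _ _).trans (mul_le_mul_of_nonneg_right (hM i) (norm_nonneg _))
    calc |-(1 * inner ℝ (p i) u) - b i| ≤ |-(1 * inner ℝ (p i) u)| + |b i| := abs_sub _ _
      _ = |inner ℝ (p i) u| + |b i| := by rw [abs_neg, one_mul]
      _ ≤ M * ‖u‖ + M := add_le_add h2 (hb i)
      _ = M * (1 + ‖u‖) := by ring
  rw [abs_le]
  refine ⟨?_, FLin_ms_le hN p b u fun i => (le_abs_self _).trans (h1 i)⟩
  have h2 := FLin_le p b u ⟨0, hN⟩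
  have h3 := (abs_le.1 (h1 ⟨0, hN⟩)).1
  linarith

private theorem FLin_term (p : Fin N → E d) (b : Fin N → ℝ) (x : E d) (e : ℝ) (i : Fin N) :
    ‖x - e • p i‖ ^ 2 - 2 * e * b i =
      ‖x‖ ^ 2 + 2 * e * (-(1 * inner ℝ (p i) x) - b i) + e ^ 2 * ‖p i‖ ^ 2 := by
  rw [norm_sub_sq_real, real_inner_smul_right, norm_smul, real_inner_comm, mul_pow,
    Real.norm_eq_abs, sq_abs]
  ring

private theorem FLin_gmax_le (hN : 0 < N) (p : Fin N → E d) (b : Fin N → ℝ) {M : ℝ}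
    (hM : ∀ i, ‖p i‖ ≤ M) (x : E d) {e : ℝ} (he : 0 < e) :
    gmax (fun i => e • p i) (fun i => 2 * e * b i) x ≤
      ‖x‖ ^ 2 + 2 * e * Ar.ms 1 p b x + e ^ 2 * M ^ 2 := by
  have : Nonempty (Fin N) := ⟨⟨0, hN⟩⟩
  unfold gmax
  refine ciSup_le fun i => ?_
  rw [FLin_term p b x e i]
  have h1 := FLin_le p b x i
  have h2 : ‖p i‖ ^ 2 ≤ M ^ 2 := pow_le_pow_left₀ (norm_nonneg _) (hM i) 2
  have h3 : 2 * e * (-(1 * inner ℝ (p i) x) - b i) ≤ 2 * e * Ar.ms 1 p b x :=
    mul_le_mul_of_nonneg_left h1 (by positivity)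
  have h4 : e ^ 2 * ‖p i‖ ^ 2 ≤ e ^ 2 * M ^ 2 := mul_le_mul_of_nonneg_left h2 (by positivity)
  linarith

private theorem FLin_le_gmax (hN : 0 < N) (p : Fin N → E d) (b : Fin N → ℝ) (x : E d) {e : ℝ}
    (he : 0 < e) :
    ‖x‖ ^ 2 + 2 * e * Ar.ms 1 p b x ≤ gmax (fun i => e • p i) (fun i => 2 * e * b i) x := by
  have h1 : Ar.ms 1 p b x ≤
      (gmax (fun i => e • p i) (fun i => 2 * e * b i) x - ‖x‖ ^ 2) / (2 * e) := by
    refine FLin_ms_le hN p b x fun i => ?_
    rw [le_div_iff₀ (by positivity)]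
    have h2 : ‖x - e • p i‖ ^ 2 - 2 * e * b i ≤
        gmax (fun i => e • p i) (fun i => 2 * e * b i) x :=
      le_ciSup (bdd fun i => ‖x - e • p i‖ ^ 2 - 2 * e * b i) i
    rw [FLin_term p b x e i] at h2
    have h3 : 0 ≤ e ^ 2 * ‖p i‖ ^ 2 := by positivity
    linarith
  rw [le_div_iff₀ (by positivity)] at h1
  linarith

end

theorem kFLin (h : GaussStmt) : S_FLin := by
  intro d N hN p q hpq b
  set M : ℝ := ∑ i, ‖p i‖ + ∑ i, ‖q i‖ + ∑ i, |b i| with hMdef
  have hM0 : 0 ≤ M := by positivity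
  have hMp : ∀ i, ‖p i‖ ≤ M := fun i => by
    have h1 := Finset.single_le_sum (f := fun i => ‖p i‖) (fun i _ => norm_nonneg _)
      (Finset.mem_univ i)
    have h2 : 0 ≤ ∑ i, ‖q i‖ := by positivity
    have h3 : 0 ≤ ∑ i, |b i| := by positivity
    linarith
  have hMq : ∀ i, ‖q i‖ ≤ M := fun i => by
    have h1 := Finset.single_le_sum (f := fun i => ‖q i‖) (fun i _ => norm_nonneg _)
      (Finset.mem_univ i)
    have h2 : 0 ≤ ∑ i, ‖p i‖ := by positivity
    have h3 : 0 ≤ ∑ i, |b i| := by positivity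
    linarith
  have hMb : ∀ i, |b i| ≤ M := fun i => by
    have h1 := Finset.single_le_sum (f := fun i => |b i|) (fun i _ => abs_nonneg _)
      (Finset.mem_univ i)
    have h2 : 0 ≤ ∑ i, ‖p i‖ := by positivity
    have h3 : 0 ≤ ∑ i, ‖q i‖ := by positivity
    linarith
  have hcp := FLin_cont hN p b
  have hcq := FLin_cont hN q b
  have hbp := FLin_abs hN p b hMp hMb
  have hbq := FLin_abs hN q b hMq hMb
  have hle : ∀ t : ℝ, 0 ≤ t → M * (1 + t) ≤ M * Real.exp (1 * t) := fun t ht => by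
    have := Real.add_one_le_exp t
    rw [one_mul]
    exact mul_le_mul_of_nonneg_left (by linarith) hM0
  have hI0 : Integrable (fun y : E d => Real.exp (-‖y‖ ^ 2)) := by
    have := integrable_gauss (d := d) (b := 1) one_pos
    simpa using this
  have hIp : Integrable (fun y : E d => Real.exp (-‖y‖ ^ 2) * Ar.ms 1 p b y) :=
    integrable_mul hcp hM0 (K := 1) fun y => (hbp y).trans (hle _ (norm_nonneg _))
  have hIq : Integrable (fun y : E d => Real.exp (-‖y‖ ^ 2) * Ar.ms 1 q b y) :=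
    integrable_mul hcq hM0 (K := 1) fun y => (hbq y).trans (hle _ (norm_nonneg _))
  have hIr : Integrable (fun y : E d => Real.exp (-‖y‖ ^ 2) *
      ((1 + ‖y‖) ^ 2 * Real.exp (2 * M * (1 + ‖y‖)))) := by
    refine integrable_mul (by fun_prop) (A := Real.exp (2 * M)) (Real.exp_pos _).le
      (K := 2 + 2 * M) fun y => ?_
    have h1 := Real.add_one_le_exp ‖y‖
    have h2 : (1 + ‖y‖) ^ 2 ≤ Real.exp (2 * ‖y‖) := by
      have h3 : (1 + ‖y‖) ^ 2 ≤ Real.exp ‖y‖ ^ 2 :=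
        pow_le_pow_left₀ (by positivity) (by linarith) 2
      rw [← Real.exp_nat_mul] at h3
      exact_mod_cast h3
    rw [abs_of_nonneg (by positivity)]
    calc (1 + ‖y‖) ^ 2 * Real.exp (2 * M * (1 + ‖y‖))
        ≤ Real.exp (2 * ‖y‖) * Real.exp (2 * M * (1 + ‖y‖)) :=
          mul_le_mul_of_nonneg_right h2 (Real.exp_pos _).le
      _ = Real.exp (2 * M) * Real.exp ((2 + 2 * M) * ‖y‖) := by
          rw [← Real.exp_add, ← Real.exp_add]
          ring_nf
  set G := ∫ y : E d, Real.exp (-‖y‖ ^ 2) with hGdef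
  set Hp := ∫ y : E d, Real.exp (-‖y‖ ^ 2) * Ar.ms 1 p b y with hHp
  set Hq := ∫ y : E d, Real.exp (-‖y‖ ^ 2) * Ar.ms 1 q b y with hHq
  set R := ∫ y : E d, Real.exp (-‖y‖ ^ 2) * ((1 + ‖y‖) ^ 2 * Real.exp (2 * M * (1 + ‖y‖)))
    with hRdef
  have hG0 : 0 ≤ G := integral_nonneg fun y => (Real.exp_pos _).le
  have hR0 : 0 ≤ R := integral_nonneg fun y => by positivity
  -- the main inequality
  have key : ∀ e : ℝ, 0 < e → e ≤ 1 →
      2 * (Hq - Hp) ≤ e * (M ^ 2 * G + 4 * M ^ 2 * R) := by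
    intro e he he1
    have hcon : ∀ r s : Fin N → E d, Contr 1 r s →
        Contr 1 (fun i => e • r i) (fun i => e • s i) := by
      intro r s hrs i j
      have h1 := hrs i j
      simp only [dist_smul₀, one_mul] at h1 ⊢
      exact mul_le_mul_of_nonneg_left h1 (norm_nonneg e)
    have hGe := h d N hN _ _ (hcon p q hpq) (fun i => 2 * e * b i) 1 one_pos
    have hGeq := h d N hN _ _ (hcon q q (fun i j => by rw [one_mul]))
      (fun i => 2 * e * b i) 1 one_pos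
    have lower : ∀ y : E d, Real.exp (-‖y‖ ^ 2) +
        (-2 * e) * (Real.exp (-‖y‖ ^ 2) * Ar.ms 1 p b y) +
        (-(e ^ 2 * M ^ 2)) * Real.exp (-‖y‖ ^ 2) ≤
          Real.exp (-1 * gmax (fun i => e • p i) (fun i => 2 * e * b i) y) := by
      intro y
      have h2 := FLin_gmax_le hN p b hMp y he
      have h3 : Real.exp (-‖y‖ ^ 2) * Real.exp (-(2 * e * Ar.ms 1 p b y + e ^ 2 * M ^ 2)) ≤
          Real.exp (-1 * gmax (fun i => e • p i) (fun i => 2 * e * b i) y) := by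
        rw [← Real.exp_add]
        refine Real.exp_le_exp.2 ?_
        linarith
      have h4 := Real.add_one_le_exp (-(2 * e * Ar.ms 1 p b y + e ^ 2 * M ^ 2))
      have h5 := mul_le_mul_of_nonneg_left h4 (Real.exp_pos (-‖y‖ ^ 2)).le
      calc _ = Real.exp (-‖y‖ ^ 2) * (-(2 * e * Ar.ms 1 p b y + e ^ 2 * M ^ 2) + 1) := by ring
        _ ≤ _ := h5
        _ ≤ _ := h3
    have upper : ∀ y : E d,
        Real.exp (-1 * gmax (fun i => e • q i) (fun i => 2 * e * b i) y) ≤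
        Real.exp (-‖y‖ ^ 2) + (-2 * e) * (Real.exp (-‖y‖ ^ 2) * Ar.ms 1 q b y) +
          (4 * e ^ 2 * M ^ 2) * (Real.exp (-‖y‖ ^ 2) *
            ((1 + ‖y‖) ^ 2 * Real.exp (2 * M * (1 + ‖y‖)))) := by
      intro y
      have h2 := FLin_le_gmax hN q b y he
      have h3 : Real.exp (-1 * gmax (fun i => e • q i) (fun i => 2 * e * b i) y) ≤
          Real.exp (-‖y‖ ^ 2) * Real.exp (-(2 * e * Ar.ms 1 q b y)) := by
        rw [← Real.exp_add]
        refine Real.exp_le_exp.2 ?_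
        linarith
      have h4 := exp_le_quad (-(2 * e * Ar.ms 1 q b y))
      have h5 : |-(2 * e * Ar.ms 1 q b y)| ≤ 2 * e * (M * (1 + ‖y‖)) := by
        rw [abs_neg, abs_mul, abs_of_pos (by positivity : (0 : ℝ) < 2 * e)]
        exact mul_le_mul_of_nonneg_left (hbq y) (by positivity)
      have h6 : (-(2 * e * Ar.ms 1 q b y)) ^ 2 ≤ 4 * e ^ 2 * M ^ 2 * (1 + ‖y‖) ^ 2 := by
        rw [← sq_abs]
        calc |-(2 * e * Ar.ms 1 q b y)| ^ 2 ≤ (2 * e * (M * (1 + ‖y‖))) ^ 2 :=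
              pow_le_pow_left₀ (abs_nonneg _) h5 2
          _ = _ := by ring
      have h7 : Real.exp |-(2 * e * Ar.ms 1 q b y)| ≤ Real.exp (2 * M * (1 + ‖y‖)) := by
        refine Real.exp_le_exp.2 (h5.trans ?_)
        have h8 : 0 ≤ M * (1 + ‖y‖) := by positivity
        nlinarith
      have h9 : (-(2 * e * Ar.ms 1 q b y)) ^ 2 * Real.exp |-(2 * e * Ar.ms 1 q b y)| ≤
          4 * e ^ 2 * M ^ 2 * (1 + ‖y‖) ^ 2 * Real.exp (2 * M * (1 + ‖y‖)) :=
        mul_le_mul h6 h7 (Real.exp_pos _).le (by positivity)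
      have h10 : Real.exp (-(2 * e * Ar.ms 1 q b y)) ≤ 1 + -(2 * e * Ar.ms 1 q b y) +
          4 * e ^ 2 * M ^ 2 * (1 + ‖y‖) ^ 2 * Real.exp (2 * M * (1 + ‖y‖)) := by linarith
      have h11 := mul_le_mul_of_nonneg_left h10 (Real.exp_pos (-‖y‖ ^ 2)).le
      calc _ ≤ _ := h3
        _ ≤ _ := h11
        _ = _ := by ring
    have hlow : G + (-2 * e) * Hp + (-(e ^ 2 * M ^ 2)) * G ≤
        ∫ y : E d, Real.exp (-1 * gmax (fun i => e • p i) (fun i => 2 * e * b i) y) := by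
      have h2 := integral_mono (μ := volume) ((hI0.add (hIp.const_mul (-2 * e))).add
        (hI0.const_mul (-(e ^ 2 * M ^ 2)))) hGe.1 lower
      rw [integral_add' (hI0.add (hIp.const_mul (-2 * e))) (hI0.const_mul _),
        integral_add' hI0 (hIp.const_mul _), integral_const_mul, integral_const_mul] at h2
      exact h2
    have hupp : ∫ y : E d, Real.exp (-1 * gmax (fun i => e • q i) (fun i => 2 * e * b i) y) ≤
        G + (-2 * e) * Hq + (4 * e ^ 2 * M ^ 2) * R := by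
      have h2 := integral_mono (μ := volume) hGeq.1 ((hI0.add (hIq.const_mul (-2 * e))).add
        (hIr.const_mul (4 * e ^ 2 * M ^ 2))) upper
      rw [integral_add' (hI0.add (hIq.const_mul (-2 * e))) (hIr.const_mul _),
        integral_add' hI0 (hIq.const_mul _), integral_const_mul, integral_const_mul] at h2
      exact h2
    have h12 := (hlow.trans hGe.2).trans hupp
    have h13 : e * (2 * (Hq - Hp)) ≤ e * (e * (M ^ 2 * G + 4 * M ^ 2 * R)) := by nlinarith
    exact le_of_mul_le_mul_left h13 he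
  by_contra hlt
  push Not at hlt
  set K := M ^ 2 * G + 4 * M ^ 2 * R with hK
  have hK0 : 0 ≤ K := by positivity
  have hpos : 0 < Hq - Hp := by linarith
  have he0 : 0 < min 1 ((Hq - Hp) / (K + 1)) := lt_min one_pos (by positivity)
  have h1 := key _ he0 (min_le_left _ _)
  have h2 : min 1 ((Hq - Hp) / (K + 1)) * K ≤ (Hq - Hp) / (K + 1) * K :=
    mul_le_mul_of_nonneg_right (min_le_right _ _) hK0
  have h3 : (Hq - Hp) / (K + 1) * K ≤ Hq - Hp := by
    rw [div_mul_eq_mul_div, div_le_iff₀ (by linarith)]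
    nlinarith
  linarith

end Pool.Agent.Lib.MP_0c1c75_co.KPI
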