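import Pool.Agent.Lib.MP_0c1c75_co.KPI.SpecF

/-!
# MP_0c1c75_co, project KPI, part F: Jensen's inequality in the radial variable (S_FLow)
-/

set_option autoImplicit false

open MeasureTheory Set Metric

namespace Pool.Agent.Lib.MP_0c1c75_co.KPI

open Ar (ms aw BasStmt)

private theorem le_ms {d N : ℕ} (ρ : ℝ) (p : Fin N → E d) (b : Fin N → ℝ) (u : E d) (i : Fin N) :
    -(ρ * inner ℝ (p i) u) - b i ≤ ms ρ p b u :=
  le_ciSup (f := fun i => -(ρ * inner ℝ (p i) u) - b i) (Set.finite_range _).bddAbove i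

private theorem ms_le {d N : ℕ} (hN : 0 < N) (ρ : ℝ) (p : Fin N → E d) (b : Fin N → ℝ) (u : E d)
    {c : ℝ} (h : ∀ i, -(ρ * inner ℝ (p i) u) - b i ≤ c) : ms ρ p b u ≤ c := by
  have : Nonempty (Fin N) := ⟨⟨0, hN⟩⟩
  exact ciSup_le h

private theorem unit_le {d : ℕ} (x : E d) : ‖‖x‖⁻¹ • x‖ ≤ 1 := by
  rw [norm_smul, norm_inv, norm_norm]
  exact inv_mul_le_one

/-- The indices where the maximum is attained. -/
private def AA {d N : ℕ} (ρ : ℝ) (q : Fin N → E d) (b : Fin N → ℝ) (i : Fin N) : Set (E d) :=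
  {u | ∀ j, -(ρ * inner ℝ (q j) u) - b j ≤ -(ρ * inner ℝ (q i) u) - b i}

/-- The least possible slope. -/
private noncomputable def lw {d N : ℕ} (q : Fin N → E d) (u : E d) : ℝ := -(‖u‖ * ∑ j, ‖q j‖)

/-- The slope. -/
private noncomputable def kk {d N : ℕ} (ρ : ℝ) (q : Fin N → E d) (b : Fin N → ℝ) (u : E d) : ℝ :=
  ⨆ i, (lw q u + (AA ρ q b i).indicator (fun u => -inner ℝ (q i) u - lw q u) u)

private theorem AA_meas {d N : ℕ} (ρ : ℝ) (q : Fin N → E d) (b : Fin N → ℝ) (i : Fin N) :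
    MeasurableSet (AA ρ q b i) := by
  have e : AA ρ q b i =
      ⋂ j, {u | -(ρ * inner ℝ (q j) u) - b j ≤ -(ρ * inner ℝ (q i) u) - b i} := by
    ext u
    rw [Set.mem_iInter]
    rfl
  rw [e]
  refine MeasurableSet.iInter fun j => measurableSet_le ?_ ?_
  · exact Continuous.measurable (by fun_prop)
  · exact Continuous.measurable (by fun_prop)

private theorem lw_cont {d N : ℕ} (q : Fin N → E d) : Continuous (fun u : E d => lw q u) := by
  unfold lw
  fun_prop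

private theorem kk_meas {d N : ℕ} (ρ : ℝ) (q : Fin N → E d) (b : Fin N → ℝ) :
    Measurable (kk ρ q b) := by
  refine Measurable.iSup fun i => (lw_cont q).measurable.add
    (Measurable.indicator ?_ (AA_meas ρ q b i))
  exact ((Continuous.measurable (by fun_prop)).sub (lw_cont q).measurable)

private theorem lw_le {d N : ℕ} (q : Fin N → E d) (u : E d) (i : Fin N) :
    lw q u ≤ -inner ℝ (q i) u ∧ -inner ℝ (q i) u ≤ ‖u‖ * ∑ j, ‖q j‖ := by
  have h2 := abs_real_inner_le_norm (q i) u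
  have h3 : ‖q i‖ ≤ ∑ i, ‖q i‖ :=
    Finset.single_le_sum (f := fun i => ‖q i‖) (fun j _ => norm_nonneg _) (Finset.mem_univ i)
  have h5 := mul_le_mul_of_nonneg_right h3 (norm_nonneg u)
  have h6 := abs_le.1 (h2.trans h5)
  unfold lw
  constructor
  · linarith [h6.2]
  · linarith [h6.1]

private theorem kk_spec {d N : ℕ} (hN : 0 < N) (ρ : ℝ) (q : Fin N → E d)
    (b : Fin N → ℝ) (u : E d) :
    |kk ρ q b u| ≤ ‖u‖ * ∑ i, ‖q i‖ ∧
      ∀ s : ℝ, ms ρ q b u + kk ρ q b u * (s - ρ) ≤ ms s q b u := by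
  have : Nonempty (Fin N) := ⟨⟨0, hN⟩⟩
  have hle : ∀ i, lw q u + (AA ρ q b i).indicator (fun u => -inner ℝ (q i) u - lw q u) u ≤
      kk ρ q b u := fun i =>
    le_ciSup (f := fun i => lw q u +
      (AA ρ q b i).indicator (fun u => -inner ℝ (q i) u - lw q u) u)
      (Set.finite_range _).bddAbove i
  have hA : ∀ i, u ∈ AA ρ q b i → ms ρ q b u = -(ρ * inner ℝ (q i) u) - b i := by
    intro i hi
    exact le_antisymm (ms_le hN ρ q b u hi) (le_ms ρ q b u i)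
  obtain ⟨i₂, hi₂⟩ : ∃ i, u ∈ AA ρ q b i := by
    obtain ⟨i, hi⟩ := exists_eq_ciSup_of_finite (f := fun i => -(ρ * inner ℝ (q i) u) - b i)
    refine ⟨i, fun j => ?_⟩
    have h1 := le_ms ρ q b u j
    have h2 : -(ρ * inner ℝ (q i) u) - b i = ms ρ q b u := hi
    rw [h2]
    exact h1
  -- the slope is attained at an index of the maximum
  obtain ⟨i₃, hi₃, hk₃⟩ : ∃ i, u ∈ AA ρ q b i ∧ kk ρ q b u = -inner ℝ (q i) u := by
    obtain ⟨i₁, hi₁⟩ := exists_eq_ciSup_of_finite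
      (f := fun i => lw q u + (AA ρ q b i).indicator (fun u => -inner ℝ (q i) u - lw q u) u)
    have hi₁' : lw q u + (AA ρ q b i₁).indicator (fun u => -inner ℝ (q i₁) u - lw q u) u =
        kk ρ q b u := hi₁
    by_cases hi : u ∈ AA ρ q b i₁
    · rw [Set.indicator_of_mem hi] at hi₁'
      refine ⟨i₁, hi, ?_⟩
      rw [← hi₁']
      ring
    · rw [Set.indicator_of_notMem hi, add_zero] at hi₁'
      have h1 := hle i₂
      rw [Set.indicator_of_mem hi₂, ← hi₁'] at h1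
      have h3 := (lw_le q u i₂).1
      refine ⟨i₂, hi₂, ?_⟩
      rw [← hi₁']
      linarith
  refine ⟨?_, ?_⟩
  · rw [hk₃, abs_le]
    have h := lw_le q u i₃
    unfold lw at h
    exact h
  · intro s
    rw [hk₃, hA i₃ hi₃]
    have := le_ms s q b u i₃
    linarith

/-- The formula (7) of `BasStmt` for functions which are bounded on the unit ball. -/
private theorem avg (h1 : BasStmt) {d : ℕ} (hd : 0 < d) {φ : ℝ → ℝ} (hφ : Measurable φ)
    (hi : Integrable (fun x : E d => φ ‖x‖)) {g : E d → ℝ} (hg : Measurable g) {M : ℝ}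
    (hb : ∀ x, ‖x‖ ≤ 1 → |g x| ≤ M) :
    Integrable (fun x : E d => φ ‖x‖ * g (‖x‖⁻¹ • x)) ∧
      ∫ x : E d, φ ‖x‖ * g (‖x‖⁻¹ • x) =
        (∫ x : E d, φ ‖x‖) * ⨍ x in ball (0 : E d) 1, g (‖x‖⁻¹ • x) := by
  have h7 := (h1 d 1 hd one_pos (fun _ => 0) (fun _ => 0)).2.2.2.2.2.2 φ
    ((closedBall (0 : E d) 1).indicator g) hφ hi (hg.indicator measurableSet_closedBall)
    ⟨M, fun x => by
      by_cases hx : x ∈ closedBall (0 : E d) 1
      · rw [Set.indicator_of_mem hx]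
        exact hb x (mem_closedBall_zero_iff.1 hx)
      · rw [Set.indicator_of_notMem hx, abs_zero]
        exact (abs_nonneg _).trans (hb 0 (by simp))⟩
  have e : ∀ x : E d, (closedBall (0 : E d) 1).indicator g (‖x‖⁻¹ • x) = g (‖x‖⁻¹ • x) := by
    intro x
    exact Set.indicator_of_mem (mem_closedBall_zero_iff.2 (unit_le x)) g
  simpa only [e] using h7

theorem kFLow (h1 : Ar.BasStmt) (h2 : S_FMom) : S_FLow := by
  intro d N hd hN q b s hs
  obtain ⟨hZ, hgm, hi0, hi1, -⟩ := h2 d hd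
  set l := s * gm d with hl
  have hZn : Zn d = gm d * Zg d := by
    unfold gm
    field_simp
  have hmeas : ∀ σ : ℝ, Measurable (fun u : E d => ms σ q b u) := by
    intro σ
    have hc := (h1 d N hd hN q b).1
    exact (hc.comp (continuous_const.prodMk continuous_id)).measurable
  have hbd := (h1 d N hd hN q b).2.1
  have hWm : Measurable (fun t : ℝ => Real.exp (-t ^ 2)) :=
    Continuous.measurable (by fun_prop)
  have hms : ∀ x : E d, ms s q b x = ms (s * ‖x‖) q b (‖x‖⁻¹ • x) := by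
    intro x
    unfold ms
    congr 1
    funext i
    congr 2
    rw [real_inner_smul_right]
    by_cases hx : x = 0
    · rw [hx, inner_zero_right]
      simp
    · have : ‖x‖ ≠ 0 := norm_ne_zero_iff.2 hx
      field_simp
  have hint : Integrable (fun x : E d => Real.exp (-‖x‖ ^ 2) * ms s q b x) := by
    refine Integrable.mono' ((hi1.mul_const (|s| * ∑ i, ‖q i‖)).add
      (hi0.mul_const (∑ i, |b i|)))
      ((hWm.comp measurable_norm).mul (hmeas s)).aestronglyMeasurable ?_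
    refine Filter.Eventually.of_forall fun x => ?_
    rw [Real.norm_eq_abs, abs_mul, abs_of_nonneg (Real.exp_nonneg _)]
    have h5 := mul_le_mul_of_nonneg_left (hbd s x) (Real.exp_nonneg (-‖x‖ ^ 2))
    refine h5.trans (le_of_eq ?_)
    simp only [Pi.add_apply]
    ring
  have hbd1 : ∀ (x : E d), ‖x‖ ≤ 1 → |ms l q b x| ≤ |l| * ∑ i, ‖q i‖ + ∑ i, |b i| := by
    intro x hx
    refine (hbd l x).trans ?_
    have h5 : 0 ≤ ∑ i, ‖q i‖ := Finset.sum_nonneg fun i _ => norm_nonneg _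
    have h6 : |l| * ‖x‖ * ∑ i, ‖q i‖ ≤ |l| * ∑ i, ‖q i‖ :=
      mul_le_mul_of_nonneg_right (mul_le_of_le_one_right (abs_nonneg l) hx) h5
    linarith
  have hk := fun u => kk_spec hN l q b u
  have hkb : ∀ x : E d, ‖x‖ ≤ 1 → |kk l q b x| ≤ ∑ i, ‖q i‖ := by
    intro x hx
    refine (hk x).1.trans ?_
    exact mul_le_of_le_one_left (Finset.sum_nonneg fun i _ => norm_nonneg _) hx
  obtain ⟨g1, g1'⟩ := avg h1 hd (φ := fun t => Real.exp (-t ^ 2)) hWm hi0 (hmeas l) hbd1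
  obtain ⟨g2, g2'⟩ := avg h1 hd (φ := fun t => Real.exp (-t ^ 2)) hWm hi0 (kk_meas l q b) hkb
  obtain ⟨g3, g3'⟩ := avg h1 hd (φ := fun t => Real.exp (-t ^ 2) * t) (hWm.mul measurable_id) hi1
    (kk_meas l q b) hkb
  obtain ⟨κ, hκ⟩ : ∃ κ, κ = ⨍ x in ball (0 : E d) 1, kk l q b (‖x‖⁻¹ • x) := ⟨_, rfl⟩
  have g2'' : ∫ x : E d, Real.exp (-‖x‖ ^ 2) * kk l q b (‖x‖⁻¹ • x) = Zg d * κ := by
    rw [hκ]
    exact g2'
  have g3'' : ∫ x : E d, Real.exp (-‖x‖ ^ 2) * ‖x‖ * kk l q b (‖x‖⁻¹ • x) = Zn d * κ := by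
    rw [hκ]
    exact g3'
  have g1'' : ∫ x : E d, Real.exp (-‖x‖ ^ 2) * ms l q b (‖x‖⁻¹ • x) = Zg d * aw l q b := g1'
  have g3b : Integrable (fun x : E d => s * (Real.exp (-‖x‖ ^ 2) * ‖x‖ *
      kk l q b (‖x‖⁻¹ • x))) := g3.const_mul _
  have g2b : Integrable (fun x : E d => l * (Real.exp (-‖x‖ ^ 2) * kk l q b (‖x‖⁻¹ • x))) :=
    g2.const_mul _
  have gd : Integrable (fun x : E d => s * (Real.exp (-‖x‖ ^ 2) * ‖x‖ * kk l q b (‖x‖⁻¹ • x)) -
      l * (Real.exp (-‖x‖ ^ 2) * kk l q b (‖x‖⁻¹ • x))) := g3b.sub g2b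
  have h5 : ∫ x : E d, (Real.exp (-‖x‖ ^ 2) * ms l q b (‖x‖⁻¹ • x) +
      (s * (Real.exp (-‖x‖ ^ 2) * ‖x‖ * kk l q b (‖x‖⁻¹ • x)) -
        l * (Real.exp (-‖x‖ ^ 2) * kk l q b (‖x‖⁻¹ • x)))) ≤
      ∫ x : E d, Real.exp (-‖x‖ ^ 2) * ms s q b x := by
    refine integral_mono (g1.add gd) hint fun x => ?_
    have h6 := mul_le_mul_of_nonneg_left ((hk (‖x‖⁻¹ • x)).2 (s * ‖x‖))
      (Real.exp_nonneg (-‖x‖ ^ 2))
    simp only
    rw [hms]
    refine le_trans (le_of_eq ?_) h6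
    ring
  have g1c : Integrable (fun x : E d => Real.exp (-‖x‖ ^ 2) * ms l q b (‖x‖⁻¹ • x)) := g1
  rw [integral_add g1c gd, integral_sub g3b g2b, integral_const_mul, integral_const_mul, g1'',
    g3'', g2''] at h5
  have h6 : s * (Zn d * κ) - l * (Zg d * κ) = 0 := by
    rw [hZn, hl]
    ring
  linarith

end Pool.Agent.Lib.MP_0c1c75_co.KPI
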