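import Pool.Agent.Lib.MP_0c1c75_co.KPI.SpecF
import Pool.Agent.Lib.MP_0c1c75_co.NormMoment

/-!
MP_0c1c75_co, project KPI, part F: moments of the norm for the weight `e^(-‖x‖²)`.
-/

set_option autoImplicit false

open MeasureTheory Set Metric

namespace Pool.Agent.Lib.MP_0c1c75_co.KPI

private noncomputable def mk (d k : ℕ) : ℝ := ∫ x : E d, Real.exp (-‖x‖ ^ 2) * ‖x‖ ^ k

private theorem mk_pos (d : ℕ) (hd : 0 < d) (k : ℕ) : 0 < mk d k := by
  unfold mk
  rw [NormMoment.radial d hd k]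
  have : Nonempty (Fin d) := ⟨⟨0, hd⟩⟩
  have hd' : (0 : ℝ) < d := by exact_mod_cast hd
  have hv : 0 < volume.real (ball (0 : E d) 1) :=
    ENNReal.toReal_pos (measure_ball_pos _ _ one_pos).ne' measure_ball_lt_top.ne
  have hG : 0 < Real.Gamma (((d : ℝ) + k) / 2) := Real.Gamma_pos_of_pos (by positivity)
  positivity

private theorem mk_int (d : ℕ) (hd : 0 < d) (k : ℕ) :
    Integrable (fun x : E d => Real.exp (-‖x‖ ^ 2) * ‖x‖ ^ k) := by
  by_contra h
  have h1 := mk_pos d hd k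
  unfold mk at h1
  rw [integral_undef h] at h1
  exact lt_irrefl _ h1

private theorem mk_add (d : ℕ) (hd : 0 < d) (k : ℕ) :
    mk d (k + 2) = (((d : ℝ) + k) / 2) * mk d k := by
  unfold mk
  rw [NormMoment.radial d hd (k + 2), NormMoment.radial d hd k]
  have hd' : (0 : ℝ) < d := by exact_mod_cast hd
  have h1 : ((d : ℝ) + ((k + 2 : ℕ) : ℝ)) / 2 = ((d : ℝ) + k) / 2 + 1 := by
    push_cast
    ring
  rw [h1, Real.Gamma_add_one (by positivity)]
  ring

theorem kFMom : S_FMom := by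
  intro d hd
  have hd' : (0 : ℝ) < d := by exact_mod_cast hd
  have e0 : Zg d = mk d 0 := by
    unfold Zg mk
    simp only [pow_zero, mul_one]
  have e1 : Zn d = mk d 1 := by
    unfold Zn mk
    simp only [pow_one]
  have hZ : 0 < Zg d := by
    rw [e0]
    exact mk_pos d hd 0
  have hN : 0 < Zn d := by
    rw [e1]
    exact mk_pos d hd 1
  have hg : 0 < gm d := div_pos hN hZ
  have i0 : Integrable (fun x : E d => Real.exp (-‖x‖ ^ 2)) := by
    have := mk_int d hd 0
    simpa only [pow_zero, mul_one] using this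
  have i1 : Integrable (fun x : E d => Real.exp (-‖x‖ ^ 2) * ‖x‖) := by
    have := mk_int d hd 1
    simpa only [pow_one] using this
  refine ⟨hZ, hg, i0, i1, ?_⟩
  have e2 : mk d 2 = (d : ℝ) / 2 * Zg d := by
    rw [e0, mk_add d hd 0]
    norm_num
  have e4 : mk d 4 = (d : ℝ) * (d + 2) / 4 * Zg d := by
    rw [mk_add d hd 2, e2]
    push_cast
    ring
  set a : ℝ := Real.sqrt (((d : ℝ) + 2) / 2) with ha
  have ha0 : 0 < a := Real.sqrt_pos.2 (by positivity)
  have ha2 : a ^ 2 = ((d : ℝ) + 2) / 2 := Real.sq_sqrt (by positivity)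
  have hpt : ∀ R : ℝ, 0 ≤ R → 3 / (2 * a) * R ^ 2 - 1 / (2 * a ^ 3) * R ^ 4 ≤ R := by
    intro R hR
    have h1 : R - (3 / (2 * a) * R ^ 2 - 1 / (2 * a ^ 3) * R ^ 4) =
        R * (R - a) ^ 2 * (R + 2 * a) / (2 * a ^ 3) := by
      field_simp
      ring
    have h2 : 0 ≤ R * (R - a) ^ 2 * (R + 2 * a) / (2 * a ^ 3) := by positivity
    linarith
  have hint : 3 / (2 * a) * mk d 2 - 1 / (2 * a ^ 3) * mk d 4 ≤ Zn d := by
    unfold Zn mk
    rw [← integral_const_mul, ← integral_const_mul, ← integral_sub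
      ((mk_int d hd 2).const_mul _) ((mk_int d hd 4).const_mul _)]
    refine integral_mono (((mk_int d hd 2).const_mul _).sub ((mk_int d hd 4).const_mul _)) i1 ?_
    intro x
    have h1 := mul_le_mul_of_nonneg_left (hpt ‖x‖ (norm_nonneg x)) (Real.exp_pos (-‖x‖ ^ 2)).le
    refine le_trans (le_of_eq ?_) h1
    ring
  have h3 : (d : ℝ) / (2 * a) * Zg d ≤ Zn d := by
    refine le_trans (le_of_eq ?_) hint
    rw [e2, e4]
    have h4 : a ^ 3 = a * (((d : ℝ) + 2) / 2) := by rw [← ha2]; ring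
    rw [h4]
    field_simp
    ring
  have h5 : (d : ℝ) / (2 * a) ≤ gm d := by
    unfold gm
    rw [le_div_iff₀ hZ]
    exact h3
  have h6 : ((d : ℝ) / (2 * a)) ^ 2 ≤ gm d ^ 2 := pow_le_pow_left₀ (by positivity) h5 2
  refine le_trans (le_of_eq ?_) h6
  rw [div_pow, mul_pow, ha2]
  congr 1
  ring

end Pool.Agent.Lib.MP_0c1c75_co.KPI
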