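import Pool.Agent.Lib.MP_0c1c75_co.KPI.SpecF

/-! MP_0c1c75_co, project KPI, part F, module FTail: the tail of the norm above its mean. -/

set_option autoImplicit false

open MeasureTheory Set Metric

namespace Pool.Agent.Lib.MP_0c1c75_co.KPI

private theorem FTail_int {d : ℕ}
    (hi : Integrable (fun x : E d => Real.exp (-‖x‖ ^ 2) * ‖x‖)) (s : ℝ) (hs : 0 < s) :
    Integrable (fun x : E d => Real.exp (-(s ^ 2 * ‖x‖ ^ 2)) * ‖x‖) ∧
    ∫ x : E d, Real.exp (-(s ^ 2 * ‖x‖ ^ 2)) * ‖x‖ = (s ^ (d + 1))⁻¹ * Zn d := by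
  have he : (fun x : E d => Real.exp (-(s ^ 2 * ‖x‖ ^ 2)) * ‖x‖) =
      fun x : E d => s⁻¹ * (Real.exp (-‖s • x‖ ^ 2) * ‖s • x‖) := by
    funext x
    rw [norm_smul, Real.norm_of_nonneg hs.le, mul_pow]
    field_simp
  constructor
  · rw [he]
    exact (hi.comp_smul hs.ne').const_mul _
  · rw [he, integral_const_mul,
      Measure.integral_comp_smul volume (fun x : E d => Real.exp (-‖x‖ ^ 2) * ‖x‖) s]
    rw [finrank_euclideanSpace_fin, abs_of_pos (by positivity), smul_eq_mul, ← mul_assoc,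
      pow_succ, mul_inv, mul_comm (s⁻¹)]
    rfl

theorem kFTail (h : S_FMom) : S_FTail := by
  intro b hb0 hb1
  obtain ⟨t, ht⟩ : ∃ t : ℝ, t = 1 / b ^ 2 := ⟨_, rfl⟩
  have ht1 : 1 < t := by
    rw [ht, lt_div_iff₀ (by positivity)]
    nlinarith
  have ht2 : 0 < t - 1 := by linarith
  refine ⟨(t - 1) ^ 2 / (8 * (t + 1)), by positivity, ⌈2 * (5 * t + 1) / (t - 1)⌉₊ + 1, ?_⟩
  intro d hd
  have hd0 : 0 < d := by omega
  have hdt : 2 * (5 * t + 1) ≤ d * (t - 1) := by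
    rw [← div_le_iff₀ ht2]
    refine (Nat.le_ceil _).trans ?_
    exact_mod_cast (Nat.le_succ _).trans hd
  obtain ⟨hZ, hg, hi1, hi2, hgm⟩ := h d hd0
  obtain ⟨l, hl⟩ : ∃ l : ℝ, l = (t - 1) / (t + 1) := ⟨_, rfl⟩
  have hl0 : 0 < l := by rw [hl]; positivity
  have hl1 : 1 - l = 2 / (t + 1) := by rw [hl]; field_simp; ring
  have hl2 : 0 < 1 - l := by rw [hl1]; positivity
  obtain ⟨s, hs⟩ : ∃ s : ℝ, s = Real.sqrt (1 - l) := ⟨_, rfl⟩
  have hs0 : 0 < s := by rw [hs]; exact Real.sqrt_pos.mpr hl2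
  have hs2 : s ^ 2 = 1 - l := by rw [hs]; exact Real.sq_sqrt hl2.le
  obtain ⟨hJ, hJe⟩ := FTail_int hi2 s hs0
  rw [hs2] at hJ hJe
  obtain ⟨R, hR⟩ : ∃ R : ℝ, R = gm d / b := ⟨_, rfl⟩
  have hR0 : 0 < R := by rw [hR]; positivity
  have hR2 : R ^ 2 = t * gm d ^ 2 := by rw [hR, ht, div_pow]; ring
  rw [← hR]
  have hmeas : MeasurableSet {x : E d | R < ‖x‖} :=
    measurableSet_lt measurable_const measurable_norm
  have h1 : ∫ x in {x : E d | R < ‖x‖}, Real.exp (-‖x‖ ^ 2) * ‖x‖ ≤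
      ∫ x in {x : E d | R < ‖x‖}, Real.exp (-(l * R ^ 2)) *
        (Real.exp (-((1 - l) * ‖x‖ ^ 2)) * ‖x‖) := by
    apply setIntegral_mono_on hi2.integrableOn (hJ.const_mul _).integrableOn hmeas
    intro x hx
    have hx' : R < ‖x‖ := hx
    rw [← mul_assoc, ← Real.exp_add]
    apply mul_le_mul_of_nonneg_right _ (norm_nonneg x)
    apply Real.exp_le_exp.mpr
    have : R ^ 2 ≤ ‖x‖ ^ 2 := by nlinarith
    nlinarith
  have h2 : ∫ x in {x : E d | R < ‖x‖}, Real.exp (-(l * R ^ 2)) *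
        (Real.exp (-((1 - l) * ‖x‖ ^ 2)) * ‖x‖) ≤
      ∫ x : E d, Real.exp (-(l * R ^ 2)) * (Real.exp (-((1 - l) * ‖x‖ ^ 2)) * ‖x‖) := by
    apply setIntegral_le_integral (hJ.const_mul _)
    filter_upwards with x
    positivity
  have h2' : ∫ x : E d, Real.exp (-(l * R ^ 2)) * (Real.exp (-((1 - l) * ‖x‖ ^ 2)) * ‖x‖) =
      Real.exp (-(l * R ^ 2)) * (s ^ (d + 1))⁻¹ * Zn d := by
    rw [integral_const_mul, hJe, ← mul_assoc]
  rw [h2'] at h2
  refine (h1.trans h2).trans ?_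
  have hZn : 0 ≤ Zn d := integral_nonneg fun x => by positivity
  apply mul_le_mul_of_nonneg_right _ hZn
  have h3 : (s ^ (d + 1))⁻¹ = Real.exp (-((d + 1 : ℕ) * Real.log s)) := by
    rw [Real.exp_neg, Real.exp_nat_mul, Real.exp_log hs0]
  rw [h3, ← Real.exp_add]
  apply Real.exp_le_exp.mpr
  have h4 : Real.log s = Real.log (1 - l) / 2 := by
    rw [← hs2, Real.log_pow]
    push_cast
    ring
  have h5 : 1 - (1 - l)⁻¹ ≤ Real.log (1 - l) := Real.one_sub_inv_le_log_of_pos hl2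
  have h6 : (1 - l)⁻¹ = (t + 1) / 2 := by rw [hl1, inv_div]
  rw [h6] at h5
  have h7 : -((d + 1 : ℕ) * Real.log s) ≤ ((d : ℝ) + 1) * ((t - 1) / 4) := by
    rw [h4]
    push_cast
    have : (0 : ℝ) ≤ d := Nat.cast_nonneg d
    nlinarith
  have h8 : t * ((d : ℝ) - 2) / 2 ≤ R ^ 2 := by
    rw [hR2]
    have h9 : ((d : ℝ) - 2) / 2 ≤ (d : ℝ) ^ 2 / (2 * ((d : ℝ) + 2)) := by
      rw [div_le_div_iff₀ (by norm_num) (by positivity)]
      nlinarith
    have : t * (((d : ℝ) - 2) / 2) ≤ t * gm d ^ 2 :=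
      mul_le_mul_of_nonneg_left (h9.trans hgm) (by linarith)
    linarith
  have h9 : l * (t * ((d : ℝ) - 2) / 2) ≤ l * R ^ 2 := mul_le_mul_of_nonneg_left h8 hl0.le
  have h10 : -(l * (t * ((d : ℝ) - 2) / 2)) + ((d : ℝ) + 1) * ((t - 1) / 4) ≤
      -((t - 1) ^ 2 / (8 * (t + 1)) * d) := by
    rw [hl]
    have e1 : -((t - 1) / (t + 1) * (t * ((d : ℝ) - 2) / 2)) + ((d : ℝ) + 1) * ((t - 1) / 4) =
        -((t - 1) / (8 * (t + 1)) * (2 * (d * (t - 1)) - 2 * (5 * t + 1))) := by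
      field_simp
      ring
    have e2 : (t - 1) ^ 2 / (8 * (t + 1)) * (d : ℝ) =
        (t - 1) / (8 * (t + 1)) * (d * (t - 1)) := by
      field_simp
    rw [e1, e2]
    apply neg_le_neg
    apply mul_le_mul_of_nonneg_left _ (by positivity)
    linarith
  linarith

end Pool.Agent.Lib.MP_0c1c75_co.KPI
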