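import Pool.Agent.Lib.MP_0c1c75_co.KPI.SpecF

/-!
# FUp: upper bound for the side of p
-/

set_option autoImplicit false

open MeasureTheory Set Metric

namespace Pool.Agent.Lib.MP_0c1c75_co.KPI

private theorem FUp_le_ms {d N : ℕ} (ρ : ℝ) (p : Fin N → E d) (b : Fin N → ℝ) (u : E d)
    (i : Fin N) : -(ρ * inner ℝ (p i) u) - b i ≤ Ar.ms ρ p b u :=
  le_ciSup (f := fun i => -(ρ * inner ℝ (p i) u) - b i) (Set.finite_range _).bddAbove i

private theorem FUp_ms_le {d N : ℕ} (hN : 0 < N) (ρ : ℝ) (p : Fin N → E d) (b : Fin N → ℝ)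
    (u : E d) {c : ℝ} (h : ∀ i, -(ρ * inner ℝ (p i) u) - b i ≤ c) : Ar.ms ρ p b u ≤ c := by
  have : Nonempty (Fin N) := ⟨⟨0, hN⟩⟩
  exact ciSup_le h

private theorem FUp_ms_nonneg {d N : ℕ} {p : Fin N → E d} {b : Fin N → ℝ} {i₀ : Fin N}
    (hp : p i₀ = 0) (hb : b i₀ = 0) (ρ : ℝ) (u : E d) : 0 ≤ Ar.ms ρ p b u := by
  have h := FUp_le_ms ρ p b u i₀
  rw [hp, hb, inner_zero_left] at h
  simpa using h

private theorem FUp_unit_le {d : ℕ} (x : E d) : ‖‖x‖⁻¹ • x‖ ≤ 1 := by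
  rw [norm_smul, norm_inv, norm_norm]
  exact inv_mul_le_one

private theorem FUp_avg (h1 : Ar.BasStmt) {d : ℕ} (hd : 0 < d) {φ : ℝ → ℝ} (hφ : Measurable φ)
    (hi : Integrable (fun x : E d => φ ‖x‖)) {g : E d → ℝ} (hg : Measurable g) {M : ℝ}
    (hb : ∀ x, ‖x‖ ≤ 1 → |g x| ≤ M) :
    Integrable (fun x : E d => φ ‖x‖ * g (‖x‖⁻¹ • x)) ∧
      ∫ x : E d, φ ‖x‖ * g (‖x‖⁻¹ • x) =
        (∫ x : E d, φ ‖x‖) * ⨍ x in ball (0 : E d) 1, g (‖x‖⁻¹ • x) := by
  have h7 := (h1 d 1 hd one_pos (fun _ => 0) (fun _ => 0)).2.2.2.2.2.2 φ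
    ((closedBall (0 : E d) 1).indicator g) hφ hi (hg.indicator measurableSet_closedBall)
    ⟨M, fun x => by
      by_cases hx : x ∈ closedBall (0 : E d) 1
      · rw [Set.indicator_of_mem hx]
        exact hb x (mem_closedBall_zero_iff.1 hx)
      · rw [Set.indicator_of_notMem hx, abs_zero]
        exact (abs_nonneg _).trans (hb 0 (by simp))⟩
  have e : ∀ x : E d, (closedBall (0 : E d) 1).indicator g (‖x‖⁻¹ • x) = g (‖x‖⁻¹ • x) := by
    intro x
    exact Set.indicator_of_mem (mem_closedBall_zero_iff.2 (FUp_unit_le x)) g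
  simpa only [e] using h7

private theorem FUp_point {d N : ℕ} {p : Fin N → E d} {b : Fin N → ℝ} {i0 : Fin N}
    (hp : p i0 = 0) (hb0 : b i0 = 0) (hb : ∀ i, 0 ≤ b i) {P : ℝ} (hP : ∀ i, ‖p i‖ ≤ P) {s : ℝ}
    (hs : 0 < s) (x : E d) : Real.exp (-‖x‖ ^ 2) * Ar.ms s p b x ≤
      s * (Real.exp (-‖x‖ ^ 2) * ‖x‖ * Ar.ms 1 p b (‖x‖⁻¹ • x)) +
        s * P * {x : E d | 1 / s < ‖x‖}.indicator (fun x => Real.exp (-‖x‖ ^ 2) * ‖x‖) x := by
  have hN : 0 < N := lt_of_le_of_lt (Nat.zero_le _) i0.2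
  have hP0 : 0 ≤ P := (norm_nonneg _).trans (hP i0)
  set m := Ar.ms 1 p b (‖x‖⁻¹ • x) with hm
  have hm0 : 0 ≤ m := FUp_ms_nonneg hp hb0 1 _
  have hW : 0 < Real.exp (-‖x‖ ^ 2) := Real.exp_pos _
  by_cases hx : 1 / s < ‖x‖
  · rw [Set.indicator_of_mem (show x ∈ {x : E d | 1 / s < ‖x‖} from hx)]
    have h1 : Ar.ms s p b x ≤ s * P * ‖x‖ := by
      refine FUp_ms_le hN s p b x fun i => ?_
      have h2 := abs_real_inner_le_norm (p i) x
      have h3 := neg_le_abs (inner ℝ (p i) x)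
      have h4 : ‖p i‖ * ‖x‖ ≤ P * ‖x‖ := mul_le_mul_of_nonneg_right (hP i) (norm_nonneg x)
      have h5 : s * (-inner ℝ (p i) x) ≤ s * (P * ‖x‖) :=
        mul_le_mul_of_nonneg_left (h3.trans (h2.trans h4)) hs.le
      have := hb i
      nlinarith
    have h2 : 0 ≤ s * (Real.exp (-‖x‖ ^ 2) * ‖x‖ * m) := by positivity
    have h3 := mul_le_mul_of_nonneg_left h1 hW.le
    nlinarith
  · rw [Set.indicator_of_notMem (show x ∉ {x : E d | 1 / s < ‖x‖} from hx), mul_zero, add_zero]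
    have hx' : s * ‖x‖ ≤ 1 := by
      have := not_lt.1 hx
      rw [le_div_iff₀ hs] at this
      linarith
    have h1 : Ar.ms s p b x ≤ s * ‖x‖ * m := by
      refine FUp_ms_le hN s p b x fun i => ?_
      have h2 : inner ℝ (p i) x = ‖x‖ * inner ℝ (p i) (‖x‖⁻¹ • x) := by
        rw [inner_smul_right]
        by_cases h0 : ‖x‖ = 0
        · have : x = 0 := norm_eq_zero.1 h0
          rw [this]; simp
        · field_simp
      have h3 := FUp_le_ms 1 p b (‖x‖⁻¹ • x) i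
      rw [← hm, one_mul] at h3
      have h4 : 0 ≤ s * ‖x‖ := by positivity
      have h5 := mul_le_mul_of_nonneg_left h3 h4
      have h6 : s * ‖x‖ * b i ≤ 1 * b i := mul_le_mul_of_nonneg_right hx' (hb i)
      rw [h2]
      nlinarith
    have h3 := mul_le_mul_of_nonneg_left h1 hW.le
    nlinarith

theorem kFUp (h1 : Ar.BasStmt) (h2 : S_FMom) : S_FUp := by
  intro d N hd p b i0 hp hb0 hb P hP s hs
  have hN : 0 < N := lt_of_le_of_lt (Nat.zero_le _) i0.2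
  obtain ⟨_, _, _, hint, _⟩ := h2 d hd
  have hbas := h1 d N hd hN p b
  have hcont : Continuous (Ar.ms 1 p b) :=
    hbas.1.comp (continuous_const.prodMk continuous_id)
  have hφ : Measurable (fun t : ℝ => Real.exp (-t ^ 2) * t) := by fun_prop
  obtain ⟨hi, he⟩ := FUp_avg h1 hd (φ := fun t : ℝ => Real.exp (-t ^ 2) * t) hφ hint
    hcont.measurable (M := ∑ i, ‖p i‖ + ∑ i, |b i|) (by
      intro x hx
      have h3 := hbas.2.1 1 x
      rw [abs_one, one_mul] at h3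
      have h4 : ‖x‖ * ∑ i, ‖p i‖ ≤ 1 * ∑ i, ‖p i‖ :=
        mul_le_mul_of_nonneg_right hx (Finset.sum_nonneg fun i _ => norm_nonneg _)
      linarith)
  have hms : MeasurableSet {x : E d | 1 / s < ‖x‖} := measurableSet_lt measurable_const
    measurable_norm
  have hi2 : Integrable (fun x : E d => s * P * {x : E d | 1 / s < ‖x‖}.indicator
      (fun x => Real.exp (-‖x‖ ^ 2) * ‖x‖) x) := (hint.indicator hms).const_mul _
  have hi1 : Integrable (fun x : E d => s * (Real.exp (-‖x‖ ^ 2) * ‖x‖ *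
      Ar.ms 1 p b (‖x‖⁻¹ • x))) := hi.const_mul _
  calc ∫ x : E d, Real.exp (-‖x‖ ^ 2) * Ar.ms s p b x
      ≤ ∫ x : E d, (s * (Real.exp (-‖x‖ ^ 2) * ‖x‖ * Ar.ms 1 p b (‖x‖⁻¹ • x)) +
        s * P * {x : E d | 1 / s < ‖x‖}.indicator (fun x => Real.exp (-‖x‖ ^ 2) * ‖x‖) x) := by
        refine integral_mono_of_nonneg (ae_of_all _ fun x => ?_) (hi1.add hi2)
          (ae_of_all _ fun x => FUp_point hp hb0 hb hP hs x)
        exact mul_nonneg (Real.exp_pos _).le (FUp_ms_nonneg hp hb0 s x)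
    _ = _ := by
        rw [integral_add hi1 hi2, integral_const_mul, integral_const_mul,
          integral_indicator hms, he]
        simp only [Zn, Ar.aw]
        ring

end Pool.Agent.Lib.MP_0c1c75_co.KPI
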