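import Pool.Agent.Lib.MP_0c1c75_co.KPI.SpecF
import Pool.Agent.Lib.MP_0c1c75_co.ArBas

/-!
# MP_0c1c75_co, project KPI: lower bound for the removed volume (`S_FVL`)
-/

set_option autoImplicit false

open MeasureTheory Set Metric

namespace Pool.Agent.Lib.MP_0c1c75_co.KPI

private theorem FVL_meas {d N : ℕ} (hd : 0 < d) (hN : 0 < N) (p : Fin N → E d)
    (b : Fin N → ℝ) : Measurable (fun x : E d => Ar.ms 1 p b (‖x‖⁻¹ • x)) := by
  have h1 := (Ar.basStmt d N hd hN p b).1
  have h2 : Continuous (fun u : E d => Ar.ms 1 p b u) :=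
    h1.comp (Continuous.prodMk continuous_const continuous_id)
  have h3 : Measurable (fun x : E d => ‖x‖⁻¹ • x) := measurable_norm.inv.smul measurable_id
  exact h2.measurable.comp h3

private theorem FVL_om (d : ℕ) : volume.real (ball (0 : E d) 1) = om d := by
  unfold om
  rw [measureReal_def, measureReal_def, Measure.addHaar_unitClosedBall_eq_addHaar_unitBall]

private theorem FVL_avg {d : ℕ} (g : E d → ℝ) :
    ∫ x in ball (0 : E d) 1, g x = om d * ⨍ x in ball (0 : E d) 1, g x := by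
  have h0 : volume (ball (0 : E d) 1) ≠ 0 := (measure_ball_pos volume 0 one_pos).ne'
  have h1 : volume.real (ball (0 : E d) 1) ≠ 0 := by
    rw [measureReal_def]
    exact ENNReal.toReal_ne_zero.mpr ⟨h0, measure_ball_lt_top.ne⟩
  rw [setAverage_eq, smul_eq_mul, ← FVL_om, mul_inv_cancel_left₀ h1]

/-- `(1 - M)^d ≤ 1 - d (1 - d P) M` for `0 ≤ M ≤ P`, `M ≤ 1`. -/
private theorem FVL_pow (d : ℕ) (M P : ℝ) (h0 : 0 ≤ M) (hP : M ≤ P) (h1 : M ≤ 1) :
    (1 - M) ^ d ≤ 1 - d * (1 - d * P) * M := by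
  have hd : (0 : ℝ) ≤ d := Nat.cast_nonneg d
  have hb := one_add_mul_le_pow (a := M) (by linarith) d
  have hy : 0 ≤ (d : ℝ) * M := mul_nonneg hd h0
  have hpos : 0 ≤ (1 - M) ^ d := pow_nonneg (by linarith) d
  have h2 : (1 - M) ^ d * (1 + d * M) ≤ 1 := by
    calc (1 - M) ^ d * (1 + d * M) ≤ (1 - M) ^ d * (1 + M) ^ d :=
          mul_le_mul_of_nonneg_left hb hpos
      _ = (1 - M ^ 2) ^ d := by rw [← mul_pow]; congr 1; ring
      _ ≤ 1 := pow_le_one₀ (by nlinarith) (by nlinarith)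
  have h3 : (1 - M) ^ d ≤ 1 - d * M + (d * M) ^ 2 := by
    have h4 : 1 ≤ (1 + d * M) * (1 - d * M + (d * M) ^ 2) := by
      have h5 : 0 ≤ (d * M) ^ 3 := pow_nonneg hy 3
      nlinarith
    have h5 : 0 < 1 + d * M := by linarith
    by_contra hcon
    push Not at hcon
    have h6 := mul_lt_mul_of_pos_left hcon h5
    nlinarith
  have h4 : (d * M) ^ 2 ≤ (d : ℝ) ^ 2 * P * M := by
    have : 0 ≤ (d : ℝ) ^ 2 * M * (P - M) :=
      mul_nonneg (mul_nonneg (sq_nonneg _) h0) (by linarith)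
    nlinarith
  nlinarith

theorem kFVL (h1 : PolarStmt) (h2 : S_FMs) : S_FVL := by
  intro d N p r T P hd hP0 hT
  obtain ⟨f1, f2, f3, -⟩ := h2 d N p r T fun i hi => (hT i hi).2
  obtain ⟨p1, -⟩ := h1 d hd
  obtain ⟨M, hM⟩ : ∃ M : E d → ℝ, M = fun x => Ar.ms 1 (ph p T) (bh r T) (‖x‖⁻¹ • x) := ⟨_, rfl⟩
  have hMx : ∀ x, M x = Ar.ms 1 (ph p T) (bh r T) (‖x‖⁻¹ • x) := fun x => by rw [hM]
  have hMm : Measurable M := hM ▸ FVL_meas hd (Nat.succ_pos N) _ _
  have hM0 : ∀ x, 0 ≤ M x := fun x => by rw [hMx]; exact f1 1 _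
  have hom : 0 ≤ om d := measureReal_nonneg
  have haw : om d * Ar.aw 1 (ph p T) (bh r T) = ∫ x in ball (0 : E d) 1, M x := by
    rw [FVL_avg, hM]
    rfl
  have haw0 : 0 ≤ om d * Ar.aw 1 (ph p T) (bh r T) := by
    rw [haw]
    exact integral_nonneg hM0
  have hd0 : (0 : ℝ) ≤ d := Nat.cast_nonneg d
  rcases le_total 1 (d * P) with hdP | hdP
  · have h3 : 0 ≤ Gt p r T 0 := measureReal_nonneg
    have h4 : 0 ≤ d * (om d * Ar.aw 1 (ph p T) (bh r T)) * (d * P - 1) :=
      mul_nonneg (mul_nonneg hd0 haw0) (by linarith)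
    nlinarith
  have hu : ∀ x : E d, ‖‖x‖⁻¹ • x‖ ≤ 1 := by
    intro x
    rw [norm_smul, norm_inv, norm_norm]
    exact inv_mul_le_one
  have hMP : ∀ x, M x ≤ P := by
    intro x
    rw [hMx]
    apply f3 1 _ P hP0
    intro i hi
    obtain ⟨hp, hr⟩ := hT i hi
    have h3 : |inner ℝ (p i) (‖x‖⁻¹ • x)| ≤ ‖p i‖ := by
      refine (abs_real_inner_le_norm _ _).trans ?_
      exact mul_le_of_le_one_right (norm_nonneg _) (hu x)
    have h4 := (abs_le.mp h3).1
    linarith
  have hd1 : (1 : ℝ) ≤ d := by exact_mod_cast hd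
  have hP1 : P ≤ 1 := by nlinarith
  have hM1 : ∀ x, M x ≤ 1 := fun x => (hMP x).trans hP1
  have hMs : ∀ (c : ℝ) (x : E d), 0 < c → M (c • x) = M x := by
    intro c x hc
    rw [hMx, hMx]
    congr 1
    rw [norm_smul, Real.norm_of_nonneg hc.le, mul_inv, smul_smul]
    congr 1
    rw [mul_comm, ← mul_assoc, mul_inv_cancel₀ hc.ne', one_mul]
  obtain ⟨F, hF⟩ : ∃ F : E d → ℝ, F = fun x => 1 - M x := ⟨_, rfl⟩
  have hFx : ∀ x, F x = 1 - M x := fun x => by rw [hF]
  have hF0 : ∀ x, 0 ≤ F x := fun x => by rw [hFx]; linarith [hM1 x]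
  have hFm : Measurable F := by
    rw [hF]
    exact measurable_const.sub hMm
  have hvol := p1 F hFm hF0 fun c x hc => by rw [hFx, hFx, hMs c x hc]
  obtain ⟨A, hA⟩ : ∃ A : Set (E d), A = {x : E d | ‖x‖ ≤ F x} := ⟨_, rfl⟩
  rw [← hA] at hvol
  have hcov : closedBall (0 : E d) 1 ⊆
      {x : E d | ‖x‖ ^ 2 ≤ 1 + 0 ∧ ∃ i ∈ T, r i ^ 2 + 0 < ‖x - p i‖ ^ 2} ∪ A := by
    intro x hx
    rw [mem_closedBall_zero_iff] at hx
    by_cases hg : ∃ i ∈ T, r i ^ 2 + 0 < ‖x - p i‖ ^ 2
    · left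
      refine ⟨?_, hg⟩
      have := norm_nonneg x
      nlinarith
    · right
      push Not at hg
      rw [hA]
      show ‖x‖ ≤ F x
      rcases eq_or_ne x 0 with rfl | hx0
      · rw [norm_zero]
        exact hF0 0
      · have hxp : 0 < ‖x‖ := norm_pos_iff.mpr hx0
        have h3 : M x ≤ 1 - ‖x‖ := by
          rw [hMx]
          apply f3 1 _ _ (by linarith)
          intro i hi
          obtain ⟨hp, hr⟩ := hT i hi
          have h4 : ‖x - p i‖ ≤ r i := by
            have := hg i hi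
            apply le_of_sq_le_sq _ (by linarith)
            linarith
          have h5 : inner ℝ (x - p i) (‖x‖⁻¹ • x) ≤ ‖x - p i‖ :=
            (real_inner_le_norm _ _).trans (mul_le_of_le_one_right (norm_nonneg _) (hu x))
          rw [inner_sub_left, real_inner_smul_right, real_inner_self_eq_norm_sq] at h5
          have h6 : ‖x‖⁻¹ * ‖x‖ ^ 2 = ‖x‖ := by
            rw [pow_two, ← mul_assoc, inv_mul_cancel₀ hxp.ne', one_mul]
          linarith
        rw [hFx]
        linarith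
  have hcb : volume (closedBall (0 : E d) 1) ≠ ⊤ := measure_closedBall_lt_top.ne
  have hAb : A ⊆ closedBall (0 : E d) 1 := by
    intro x hx
    rw [hA] at hx
    rw [mem_closedBall_zero_iff]
    refine (show ‖x‖ ≤ F x from hx).trans ?_
    rw [hFx]
    linarith [hM0 x]
  have hGb : {x : E d | ‖x‖ ^ 2 ≤ 1 + 0 ∧ ∃ i ∈ T, r i ^ 2 + 0 < ‖x - p i‖ ^ 2} ⊆
      closedBall (0 : E d) 1 := by
    rintro x ⟨hx1, -⟩
    rw [mem_closedBall_zero_iff]
    have := norm_nonneg x
    nlinarith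
  have hGle : om d ≤ Gt p r T 0 + volume.real A := by
    unfold Gt om
    refine (measureReal_mono hcov ?_).trans (measureReal_union_le _ _)
    exact ne_top_of_le_ne_top hcb (measure_mono (union_subset hGb hAb))
  have hbt : volume (ball (0 : E d) 1) ≠ ⊤ := measure_ball_lt_top.ne
  have hAr : volume.real A = ∫ x in ball (0 : E d) 1, F x ^ d := by
    rw [measureReal_def, hvol, integral_eq_lintegral_of_nonneg_ae]
    · congr 1
      refine lintegral_congr fun x => ?_
      rw [ENNReal.ofReal_pow (hF0 x)]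
    · exact Filter.Eventually.of_forall fun x => pow_nonneg (hF0 x) d
    · exact (hFm.pow_const d).aestronglyMeasurable
  have hMi : IntegrableOn M (ball (0 : E d) 1) := by
    refine Measure.integrableOn_of_bounded (M := P) hbt hMm.aestronglyMeasurable ?_
    exact Filter.Eventually.of_forall fun x => by
      rw [Real.norm_of_nonneg (hM0 x)]
      exact hMP x
  have hFi : IntegrableOn (fun x => F x ^ d) (ball (0 : E d) 1) := by
    refine Measure.integrableOn_of_bounded (M := 1) hbt (hFm.pow_const d).aestronglyMeasurable ?_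
    refine Filter.Eventually.of_forall fun x => ?_
    rw [Real.norm_of_nonneg (pow_nonneg (hF0 x) d)]
    apply pow_le_one₀ (hF0 x)
    rw [hFx]
    linarith [hM0 x]
  have hci : ∀ c : ℝ, IntegrableOn (fun _ : E d => c) (ball (0 : E d) 1) := fun c =>
    integrableOn_const hbt
  have hup : ∫ x in ball (0 : E d) 1, F x ^ d ≤
      ∫ x in ball (0 : E d) 1, (1 - d * (1 - d * P) * M x) := by
    apply setIntegral_mono hFi ((hci _).sub (hMi.const_mul _))
    intro x
    show F x ^ d ≤ 1 - d * (1 - d * P) * M x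
    rw [hFx]
    exact FVL_pow d (M x) P (hM0 x) (hMP x) (hM1 x)
  have hint : ∫ x in ball (0 : E d) 1, (1 - d * (1 - d * P) * M x) =
      om d - d * (1 - d * P) * (om d * Ar.aw 1 (ph p T) (bh r T)) := by
    rw [integral_sub (hci _) (hMi.const_mul _), integral_const_mul, setIntegral_const,
      smul_eq_mul, FVL_om, haw, mul_one]
  rw [hint, ← hAr] at hup
  nlinarith

end Pool.Agent.Lib.MP_0c1c75_co.KPI
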