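import Pool.Agent.Lib.MP_0c1c75_co.KPI.SpecF
import Pool.Agent.Lib.MP_0c1c75_co.ArBas

/-!
# MP_0c1c75_co, project KPI: upper bound for the removed volume (`S_FVU`)
-/

set_option autoImplicit false

open MeasureTheory Set Metric

namespace Pool.Agent.Lib.MP_0c1c75_co.KPI

private theorem FVU_meas {d N : ℕ} (hd : 0 < d) (hN : 0 < N) (p : Fin N → E d)
    (b : Fin N → ℝ) : Measurable (fun x : E d => Ar.ms 1 p b (‖x‖⁻¹ • x)) := by
  have h1 := (Ar.basStmt d N hd hN p b).1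
  have h2 : Continuous (fun u : E d => Ar.ms 1 p b u) :=
    h1.comp (Continuous.prodMk continuous_const continuous_id)
  have h3 : Measurable (fun x : E d => ‖x‖⁻¹ • x) := measurable_norm.inv.smul measurable_id
  exact h2.measurable.comp h3

private theorem FVU_bdd {d N : ℕ} (hd : 0 < d) (hN : 0 < N) (p : Fin N → E d)
    (b : Fin N → ℝ) : ∃ C : ℝ, ∀ x : E d, |Ar.ms 1 p b (‖x‖⁻¹ • x)| ≤ C := by
  obtain ⟨-, h, -⟩ := Ar.basStmt d N hd hN p b
  refine ⟨∑ i, ‖p i‖ + ∑ i, |b i|, fun x => (h 1 _).trans ?_⟩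
  have h3 : ‖‖x‖⁻¹ • x‖ ≤ 1 := by
    rw [norm_smul, norm_inv, norm_norm]
    exact inv_mul_le_one
  have h4 : (0 : ℝ) ≤ ∑ i, ‖p i‖ := Finset.sum_nonneg fun i _ => norm_nonneg _
  rw [abs_one, one_mul]
  have h5 : ‖‖x‖⁻¹ • x‖ * ∑ i, ‖p i‖ ≤ 1 * ∑ i, ‖p i‖ := mul_le_mul_of_nonneg_right h3 h4
  linarith

private theorem FVU_om (d : ℕ) : volume.real (ball (0 : E d) 1) = om d := by
  unfold om
  rw [measureReal_def, measureReal_def, Measure.addHaar_unitClosedBall_eq_addHaar_unitBall]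

private theorem FVU_avg {d : ℕ} (g : E d → ℝ) :
    ∫ x in ball (0 : E d) 1, g x = om d * ⨍ x in ball (0 : E d) 1, g x := by
  have h0 : volume (ball (0 : E d) 1) ≠ 0 := (measure_ball_pos volume 0 one_pos).ne'
  have h1 : volume.real (ball (0 : E d) 1) ≠ 0 := by
    rw [measureReal_def]
    exact ENNReal.toReal_ne_zero.mpr ⟨h0, measure_ball_lt_top.ne⟩
  rw [setAverage_eq, smul_eq_mul, ← FVU_om, mul_inv_cancel_left₀ h1]

private theorem FVU_pow (d : ℕ) (hd : 0 < d) (y : ℝ) :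
    1 - d * y ≤ (max (1 - y) 0) ^ d := by
  rcases le_total 1 y with h | h
  · rw [max_eq_right (by linarith), zero_pow hd.ne']
    have h1 : (1 : ℝ) ≤ d := by exact_mod_cast hd
    nlinarith
  · rw [max_eq_left (by linarith)]
    have h1 := one_add_mul_le_pow (a := -y) (by linarith) d
    have h2 : (1 : ℝ) + -y = 1 - y := by ring
    rw [h2] at h1
    linarith

/-- Points of the star-shaped set are in all balls. -/
private theorem FVU_pt {d : ℕ} (x q : E d) (r P m : ℝ) (hP0 : 0 ≤ P) (hP : P ≤ 1 / 2)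
    (hq : ‖q‖ ≤ P) (hr : 1 ≤ r) (hx : 0 < ‖x‖)
    (hm : -(1 * inner ℝ q (‖x‖⁻¹ • x)) - (r - 1) ≤ m) (h : ‖x‖ ≤ 1 - m - P ^ 2) :
    ‖x - q‖ ^ 2 ≤ r ^ 2 := by
  set s : ℝ := inner ℝ q (‖x‖⁻¹ • x) with hs
  have hxs : inner ℝ x q = ‖x‖ * s := by
    rw [hs, real_inner_smul_right, real_inner_comm, ← mul_assoc, mul_inv_cancel₀ hx.ne', one_mul]
  have hsP : |s| ≤ ‖q‖ := by
    refine (abs_real_inner_le_norm _ _).trans ?_
    have h3 : ‖‖x‖⁻¹ • x‖ = 1 := by
      rw [norm_smul, norm_inv, norm_norm]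
      exact inv_mul_cancel₀ hx.ne'
    rw [h3, mul_one]
  have h1 : ‖x - q‖ ^ 2 = (‖x‖ - s) ^ 2 + ‖q‖ ^ 2 - s ^ 2 := by
    rw [norm_sub_sq_real, hxs]
    ring
  have h2 : ‖x‖ - s ≤ r - P ^ 2 := by linarith
  have hq2 : ‖q‖ ^ 2 ≤ P ^ 2 := by
    have := norm_nonneg q
    nlinarith
  have hsq : s ^ 2 ≤ ‖q‖ ^ 2 := sq_le_sq' (by linarith [(abs_le.mp hsP).1]) (abs_le.mp hsP).2
  have hP2 : P ^ 2 ≤ 1 / 4 := by nlinarith
  rw [h1]
  rcases le_total 0 (‖x‖ - s) with h3 | h3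
  · have h4 : (‖x‖ - s) ^ 2 ≤ (r - P ^ 2) ^ 2 := by nlinarith
    have h5 : 0 ≤ P ^ 2 * (2 * r - 1 - P ^ 2) := by
      apply mul_nonneg (sq_nonneg _)
      linarith
    nlinarith [sq_nonneg s]
  · have h4 : (‖x‖ - s) ^ 2 ≤ s ^ 2 := by nlinarith
    nlinarith

theorem kFVU (h1 : PolarStmt) (h2 : S_FMs) : S_FVU := by
  intro d N q r T P hd hP0 hP hT
  obtain ⟨f1, f2, f3, -⟩ := h2 d N q r T fun i hi => (hT i hi).2
  obtain ⟨p1, -⟩ := h1 d hd
  obtain ⟨M, hM⟩ : ∃ M : E d → ℝ, M = fun x => Ar.ms 1 (ph q T) (bh r T) (‖x‖⁻¹ • x) := ⟨_, rfl⟩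
  have hMx : ∀ x, M x = Ar.ms 1 (ph q T) (bh r T) (‖x‖⁻¹ • x) := fun x => by rw [hM]
  have hMm : Measurable M := hM ▸ FVU_meas hd (Nat.succ_pos N) _ _
  obtain ⟨C, hC⟩ := FVU_bdd hd (Nat.succ_pos N) (ph q T) (bh r T)
  have hM0 : ∀ x, 0 ≤ M x := fun x => by rw [hMx]; exact f1 1 _
  have hMs : ∀ (c : ℝ) (x : E d), 0 < c → M (c • x) = M x := by
    intro c x hc
    rw [hMx, hMx]
    congr 1
    rw [norm_smul, Real.norm_of_nonneg hc.le, mul_inv, smul_smul]
    congr 1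
    rw [mul_comm, ← mul_assoc, mul_inv_cancel₀ hc.ne', one_mul]
  obtain ⟨F, hF⟩ : ∃ F : E d → ℝ, F = fun x => max (1 - (M x + P ^ 2)) 0 := ⟨_, rfl⟩
  have hFx : ∀ x, F x = max (1 - (M x + P ^ 2)) 0 := fun x => by rw [hF]
  have hF0 : ∀ x, 0 ≤ F x := fun x => by rw [hFx]; exact le_max_right _ _
  have hFm : Measurable F := by
    rw [hF]
    exact (measurable_const.sub (hMm.add measurable_const)).max measurable_const
  have hvol := p1 F hFm hF0 fun c x hc => by rw [hFx, hFx, hMs c x hc]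
  obtain ⟨A, hA⟩ : ∃ A : Set (E d), A = {x : E d | ‖x‖ ≤ F x} := ⟨_, rfl⟩
  rw [← hA] at hvol
  have hAm : MeasurableSet A := by
    rw [hA]
    exact measurableSet_le measurable_norm hFm
  have hAb : A ⊆ closedBall (0 : E d) 1 := by
    intro x hx
    rw [hA] at hx
    rw [mem_closedBall_zero_iff]
    refine (show ‖x‖ ≤ F x from hx).trans ?_
    rw [hFx]
    apply max_le _ zero_le_one
    nlinarith [hM0 x, sq_nonneg P]
  -- the removed set is contained in the complement of `A`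
  have hG : {x : E d | ‖x‖ ^ 2 ≤ 1 + 0 ∧ ∃ i ∈ T, r i ^ 2 + 0 < ‖x - q i‖ ^ 2} ⊆
      closedBall (0 : E d) 1 \ A := by
    rintro x ⟨hx1, i, hi, hx2⟩
    refine ⟨?_, ?_⟩
    · rw [mem_closedBall_zero_iff]
      have := norm_nonneg x
      nlinarith
    · intro hxA
      rw [hA] at hxA
      have hxF : ‖x‖ ≤ F x := hxA
      obtain ⟨hq, hr⟩ := hT i hi
      rcases eq_or_ne x 0 with rfl | hx0
      · rw [zero_sub, norm_neg] at hx2
        have := norm_nonneg (q i)
        nlinarith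
      · have hxp : 0 < ‖x‖ := norm_pos_iff.mpr hx0
        have h3 : ‖x‖ ≤ 1 - M x - P ^ 2 := by
          rw [hFx] at hxF
          rcases le_max_iff.mp hxF with h | h
          · linarith
          · linarith
        have h4 := FVU_pt x (q i) (r i) P (M x) hP0 hP hq hr hxp
          (by rw [hMx]; exact f2 1 _ i hi) h3
        linarith
  have hcb : volume (closedBall (0 : E d) 1) ≠ ⊤ := measure_closedBall_lt_top.ne
  have hAt : volume A ≠ ⊤ := ne_top_of_le_ne_top hcb (measure_mono hAb)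
  have hGle : Gt q r T 0 ≤ om d - volume.real A := by
    unfold Gt om
    rw [← measureReal_sdiff hAb hAm]
    exact measureReal_mono hG (ne_top_of_le_ne_top hcb (measure_mono sdiff_subset))
  -- the volume of `A`
  have hAr : volume.real A = ∫ x in ball (0 : E d) 1, F x ^ d := by
    rw [measureReal_def, hvol, integral_eq_lintegral_of_nonneg_ae]
    · congr 1
      refine lintegral_congr fun x => ?_
      rw [ENNReal.ofReal_pow (hF0 x)]
    · exact Filter.Eventually.of_forall fun x => pow_nonneg (hF0 x) d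
    · exact (hFm.pow_const d).aestronglyMeasurable
  have hbt : volume (ball (0 : E d) 1) ≠ ⊤ := measure_ball_lt_top.ne
  have hMi : IntegrableOn M (ball (0 : E d) 1) := by
    refine Measure.integrableOn_of_bounded (M := C) hbt hMm.aestronglyMeasurable ?_
    exact Filter.Eventually.of_forall fun x => by rw [Real.norm_eq_abs, hMx]; exact hC x
  have hFi : IntegrableOn (fun x => F x ^ d) (ball (0 : E d) 1) := by
    refine Measure.integrableOn_of_bounded (M := 1) hbt (hFm.pow_const d).aestronglyMeasurable ?_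
    refine Filter.Eventually.of_forall fun x => ?_
    rw [Real.norm_of_nonneg (pow_nonneg (hF0 x) d)]
    apply pow_le_one₀ (hF0 x)
    rw [hFx]
    apply max_le _ zero_le_one
    nlinarith [hM0 x, sq_nonneg P]
  have hci : ∀ c : ℝ, IntegrableOn (fun _ : E d => c) (ball (0 : E d) 1) := fun c =>
    integrableOn_const hbt
  have hlow : ∫ x in ball (0 : E d) 1, ((1 - d * P ^ 2) - d * M x) ≤
      ∫ x in ball (0 : E d) 1, F x ^ d := by
    apply setIntegral_mono ((hci _).sub (hMi.const_mul _)) hFi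
    intro x
    have h3 := FVU_pow d hd (M x + P ^ 2)
    rw [← hFx] at h3
    show (1 - d * P ^ 2) - d * M x ≤ F x ^ d
    linarith
  have hint : ∫ x in ball (0 : E d) 1, ((1 - d * P ^ 2) - d * M x) =
      om d * (1 - d * P ^ 2) - d * (om d * Ar.aw 1 (ph q T) (bh r T)) := by
    rw [integral_sub (hci _) (hMi.const_mul _), integral_const_mul, setIntegral_const,
      smul_eq_mul, FVU_om, FVU_avg, hM]
    rfl
  rw [hint, ← hAr] at hlow
  nlinarith
end Pool.Agent.Lib.MP_0c1c75_co.KPI
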