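import Pool.Agent.Lib.MP_0c1c75_co.KPI.SpecF

set_option autoImplicit false

open MeasureTheory Set Metric

namespace Pool.Agent.Lib.MP_0c1c75_co.KPI

private theorem Fat_lin (a : ℝ) (ha : 0 < a) :
    Filter.Tendsto (fun d : ℕ => a * (d : ℝ)) Filter.atTop Filter.atTop :=
  tendsto_natCast_atTop_atTop.const_mul_atTop ha

private theorem Fat_exp (a e : ℝ) (ha : 0 < a) (he : 0 < e) :
    ∀ᶠ d : ℕ in Filter.atTop, Real.exp (-(a * d)) ≤ e := by
  have h := Real.tendsto_exp_neg_atTop_nhds_zero.comp (Fat_lin a ha)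
  exact h.eventually (eventually_le_nhds he)

private theorem Fat_dexp (a e : ℝ) (ha : 0 < a) (he : 0 < e) :
    ∀ᶠ d : ℕ in Filter.atTop, (d : ℝ) * Real.exp (-(a * d)) ≤ e := by
  have h := (Real.tendsto_pow_mul_exp_neg_atTop_nhds_zero 1).comp (Fat_lin a ha)
  have h2 := h.eventually (eventually_le_nhds (mul_pos ha he))
  filter_upwards [h2] with d hd
  have h3 : a * ((d : ℝ) * Real.exp (-(a * d))) ≤ a * e := by
    have h4 : ((fun x : ℝ => x ^ 1 * Real.exp (-x)) ∘ fun d : ℕ => a * (d : ℝ)) d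
        = a * ((d : ℝ) * Real.exp (-(a * d))) := by
      simp only [Function.comp_apply, pow_one]
      ring
    rw [← h4]
    exact hd
  exact le_of_mul_le_mul_left h3 ha

private theorem Fat_om (d : ℕ) : 0 < om d := by
  unfold om
  rw [measureReal_def]
  exact ENNReal.toReal_pos (measure_closedBall_pos volume 0 one_pos).ne'
    measure_closedBall_lt_top.ne

theorem kFat (h1 : Ar.BasStmt) (h2 : S_FMs) (h3 : S_FCmp) (h4 : S_FVU) (h5 : S_FVL)
    (h6 : S_FDr) : S_Fat := by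
  intro b hb0 hb1
  obtain ⟨c5, hc5, d5, hC⟩ := h3 b hb0 hb1
  refine ⟨c5 / 2, by positivity, ?_⟩
  intro η c3 δ hη hηF hc3 hδ
  have hε : 0 < (1 - b) / 4 := by linarith
  have ha1 : 0 < c5 - η := by linarith
  have ha2 : 0 < c3 - η := by linarith
  have hc30 : 0 < c3 := by linarith
  have hτ : 0 < 1 - (b + (1 - b) / 4) * (2 / (1 + b)) := by
    have h1b : 0 < 1 + b := by linarith
    have : (b + (1 - b) / 4) * (2 / (1 + b)) < 1 := by
      rw [mul_div_assoc', div_lt_one h1b]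
      linarith
    linarith
  have ev1 := Fat_exp (c5 - η) (δ / 8 * ((1 - b) / 4)) ha1 (by positivity)
  have ev2 := Fat_exp (c3 - η) (δ / 8 * ((1 - b) / 4)) ha2 (by positivity)
  have ev3 := Fat_exp c3 (1 / 2) hc30 (by norm_num)
  have ev4 := Fat_exp c3 δ hc30 hδ
  have ev5 := Fat_dexp c3 _ hc30 hτ
  have ev6 : ∀ᶠ d : ℕ in Filter.atTop, d5 ≤ d ∧ 1 ≤ d :=
    (Filter.eventually_ge_atTop d5).and (Filter.eventually_ge_atTop 1)
  obtain ⟨d1, hd1⟩ := Filter.eventually_atTop.mp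
    (ev1.and (ev2.and (ev3.and (ev4.and (ev5.and ev6)))))
  refine ⟨d1, ?_⟩
  intro d hd N p q1 r T T' P hcon hq hr hTT hP hPe hpT hpT' hvol
  obtain ⟨hE1, hE2, hE3, hE4, hE5, hd5, hd0⟩ := hd1 d hd
  have hd0' : 0 < d := hd0
  have hdR : (0 : ℝ) < d := by exact_mod_cast hd0'
  have hom := Fat_om d
  have hP2 : P ≤ 1 / 2 := hPe.trans hE3
  have hPδ : P ≤ δ := hPe.trans hE4
  have hrT : ∀ i ∈ T, 1 ≤ r i := fun i _ => hr i
  obtain ⟨-, -, -, hb4, hb5, -, hb7⟩ := h2 d N p r T hrT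
  obtain ⟨-, -, -, -, -, hq6, -⟩ := h2 d N q1 r T hrT
  -- the average
  set A : ℝ := Ar.aw 1 (ph p T) (bh r T) with hA
  have hAlow : P * δ / 4 * Real.exp (-(η * d)) ≤ A := by
    have h := h6 d N p r T T' P δ hd0' hTT hP hPδ
      (fun i hi => ⟨hpT' i hi, hpT i (hTT hi)⟩) hrT
    have h7 : P * δ / 4 * (Real.exp (-(η * d)) * om d) ≤ om d * A :=
      (mul_le_mul_of_nonneg_left hvol (by positivity)).trans h
    have h8 : (P * δ / 4 * Real.exp (-(η * d))) * om d ≤ A * om d := by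
      calc (P * δ / 4 * Real.exp (-(η * d))) * om d
          = P * δ / 4 * (Real.exp (-(η * d)) * om d) := by ring
        _ ≤ om d * A := h7
        _ = A * om d := by ring
    exact le_of_mul_le_mul_right h8 hom
  have hA0 : 0 ≤ A := le_trans (by positivity) hAlow
  -- upper bound
  have hup := h4 d N (fun i => b • q1 i) r T P hd0' hP.le hP2 (by
    intro i hi
    refine ⟨?_, hr i⟩
    rw [norm_smul, Real.norm_eq_abs, abs_of_pos hb0]
    calc b * ‖q1 i‖ ≤ 1 * ‖q1 i‖ := mul_le_mul_of_nonneg_right hb1.le (norm_nonneg _)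
      _ = ‖q1 i‖ := one_mul _
      _ ≤ ‖p i‖ := hq i
      _ ≤ P := hpT i hi)
  have haw : Ar.aw 1 (ph (fun i => b • q1 i) T) (bh r T)
      = Ar.aw b (ph q1 T) (bh r T) := by
    rw [hq6 b]
    have h := (h1 d (N + 1) hd0' (Nat.succ_pos N) (ph q1 T) (bh r T)).2.2.2.2.1 1 b
    rw [one_mul] at h
    exact h
  have hcmp : Ar.aw b (ph q1 T) (bh r T) ≤ b * (A + P * Real.exp (-(c5 * d))) := by
    refine hC d hd5 (N + 1) (ph p T) (ph q1 T) (bh r T) 0 P (hb5 q1 hcon hq) ?_ ?_ hb4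
      (hb7 P hP.le hpT)
    · simp [ph]
    · simp [bh]
  rw [haw] at hup
  -- lower bound
  have hlow := h5 d N p r T P hd0' hP.le (fun i hi => ⟨hpT i hi, hr i⟩)
  -- comparison of the error term
  have hPA : P * Real.exp (-(η * d)) ≤ 4 / δ * A := by
    have h : δ / 4 * (P * Real.exp (-(η * d))) ≤ A := by
      calc δ / 4 * (P * Real.exp (-(η * d))) = P * δ / 4 * Real.exp (-(η * d)) := by ring
        _ ≤ A := hAlow
    have h' : P * Real.exp (-(η * d)) = 4 / δ * (δ / 4 * (P * Real.exp (-(η * d)))) := by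
      field_simp
    rw [h']
    exact mul_le_mul_of_nonneg_left h (by positivity)
  have hx1 : Real.exp (-(c5 * d)) = Real.exp (-((c5 - η) * d)) * Real.exp (-(η * d)) := by
    rw [← Real.exp_add]
    congr 1
    ring
  have hx2 : Real.exp (-(c3 * d)) = Real.exp (-((c3 - η) * d)) * Real.exp (-(η * d)) := by
    rw [← Real.exp_add]
    congr 1
    ring
  have hη0 : 0 < Real.exp (-(η * d)) := Real.exp_pos _
  have herr : b * (P * Real.exp (-(c5 * d))) + P ^ 2 ≤ (1 - b) / 4 * A := by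
    have e1 : b * (P * Real.exp (-(c5 * d))) ≤ P * Real.exp (-(c5 * d)) := by
      have : 0 ≤ P * Real.exp (-(c5 * d)) := by positivity
      nlinarith
    have e2 : P ^ 2 ≤ P * Real.exp (-(c3 * d)) := by
      rw [pow_two]
      exact mul_le_mul_of_nonneg_left hPe hP.le
    have e3 : P * Real.exp (-(c5 * d)) + P * Real.exp (-(c3 * d))
        = (P * Real.exp (-(η * d))) *
          (Real.exp (-((c5 - η) * d)) + Real.exp (-((c3 - η) * d))) := by
      rw [hx1, hx2]
      ring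
    have e4 : Real.exp (-((c5 - η) * d)) + Real.exp (-((c3 - η) * d))
        ≤ δ / 4 * ((1 - b) / 4) := by linarith
    calc b * (P * Real.exp (-(c5 * d))) + P ^ 2
        ≤ P * Real.exp (-(c5 * d)) + P * Real.exp (-(c3 * d)) := add_le_add e1 e2
      _ = (P * Real.exp (-(η * d))) *
          (Real.exp (-((c5 - η) * d)) + Real.exp (-((c3 - η) * d))) := e3
      _ ≤ (4 / δ * A) * (δ / 4 * ((1 - b) / 4)) :=
          mul_le_mul hPA e4 (by positivity) (by positivity)
      _ = (1 - b) / 4 * A := by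
          field_simp
  -- the factor `1 - d P`
  have hfac : b + (1 - b) / 4 ≤ (1 + b) / 2 * (1 - d * P) := by
    have h1b : 0 < 1 + b := by linarith
    have e1 : (d : ℝ) * P ≤ 1 - (b + (1 - b) / 4) * (2 / (1 + b)) :=
      (mul_le_mul_of_nonneg_left hPe hdR.le).trans hE5
    have e2 : (b + (1 - b) / 4) * (2 / (1 + b)) ≤ 1 - d * P := by linarith
    have e3 : (1 + b) / 2 * ((b + (1 - b) / 4) * (2 / (1 + b))) = b + (1 - b) / 4 := by
      field_simp
    rw [← e3]
    exact mul_le_mul_of_nonneg_left e2 (by positivity)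
  have hdo : 0 ≤ (d : ℝ) * om d := by positivity
  calc Gt (fun i => b • q1 i) r T 0
      ≤ d * om d * (Ar.aw b (ph q1 T) (bh r T) + P ^ 2) := hup
    _ ≤ d * om d * (b * (A + P * Real.exp (-(c5 * d))) + P ^ 2) :=
        mul_le_mul_of_nonneg_left (by linarith) hdo
    _ = d * om d * (b * A + (b * (P * Real.exp (-(c5 * d))) + P ^ 2)) := by ring
    _ ≤ d * om d * (b * A + (1 - b) / 4 * A) :=
        mul_le_mul_of_nonneg_left (by linarith) hdo
    _ = d * om d * A * (b + (1 - b) / 4) := by ring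
    _ ≤ d * om d * A * ((1 + b) / 2 * (1 - d * P)) :=
        mul_le_mul_of_nonneg_left hfac (mul_nonneg hdo hA0)
    _ = (1 + b) / 2 * (d * om d * (1 - d * P) * A) := by ring
    _ ≤ (1 + b) / 2 * Gt p r T 0 :=
        mul_le_mul_of_nonneg_left hlow (by linarith)

end Pool.Agent.Lib.MP_0c1c75_co.KPI
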