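import Pool.Agent.Lib.MP_0c1c75_co.KPI.SpecH

/-!
# MP_0c1c75_co, KPI: all indices in fat classes (`S_FatT`)
-/

set_option autoImplicit false

open MeasureTheory Set Metric

namespace Pool.Agent.Lib.MP_0c1c75_co.KPI

private theorem FatT_om_pos (d : ℕ) : 0 < om d := by
  have h : 0 < volume (closedBall (0 : E d) 1) := measure_closedBall_pos _ _ one_pos
  exact ENNReal.toReal_pos h.ne' measure_closedBall_lt_top.ne

private theorem FatT_Gt_nonneg {d N : ℕ} (p : Fin N → E d) (r : Fin N → ℝ) (J : Finset (Fin N))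
    (t : ℝ) : 0 ≤ Gt p r J t := measureReal_nonneg

private theorem FatT_Gt_empty {d N : ℕ} (p : Fin N → E d) (r : Fin N → ℝ) (t : ℝ) :
    Gt p r ∅ t = 0 := by
  have h : {x : E d | ‖x‖ ^ 2 ≤ 1 + t ∧ ∃ i ∈ (∅ : Finset (Fin N)), r i ^ 2 + t < ‖x - p i‖ ^ 2} =
      ∅ := by
    ext x
    simp
  unfold Gt
  rw [h]
  simp

private theorem FatT_num {c2 η δ e D : ℝ} (hc2 : 0 < c2) (hη : η ≤ c2 / 8) (hδ : 0 < δ)
    (hD : 32 / (3 * δ * c2) ≤ D) (h : δ * e / 2 * Real.exp (-(η * D)) ≤ Real.exp (-(c2 * D))) :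
    2 * e ≤ Real.exp (-(c2 / 2 * D)) := by
  have hD0 : 0 < D := lt_of_lt_of_le (by positivity) hD
  have h1 : Real.exp (-(c2 * D)) =
      Real.exp (-(η * D)) * (Real.exp (-(c2 / 2 * D)) * Real.exp (-((c2 / 2 - η) * D))) := by
    rw [← Real.exp_add, ← Real.exp_add]
    congr 1
    ring
  have hA := Real.exp_pos (-(η * D))
  have h2 : δ * e / 2 ≤ Real.exp (-(c2 / 2 * D)) * Real.exp (-((c2 / 2 - η) * D)) := by
    rw [h1, mul_comm] at h
    exact le_of_mul_le_mul_left h hA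
  have h3 : 4 / δ ≤ (c2 / 2 - η) * D := by
    have h4 : 4 / δ = 3 * c2 / 8 * (32 / (3 * δ * c2)) := by
      field_simp
      norm_num
    rw [h4]
    calc 3 * c2 / 8 * (32 / (3 * δ * c2)) ≤ 3 * c2 / 8 * D :=
          mul_le_mul_of_nonneg_left hD (by positivity)
      _ ≤ (c2 / 2 - η) * D := mul_le_mul_of_nonneg_right (by linarith) hD0.le
  have h5 : Real.exp (-((c2 / 2 - η) * D)) ≤ δ / 4 := by
    rw [Real.exp_neg]
    have h6 : 4 / δ ≤ Real.exp ((c2 / 2 - η) * D) := by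
      have := Real.add_one_le_exp ((c2 / 2 - η) * D)
      linarith
    have h7 := inv_anti₀ (by positivity) h6
    rwa [inv_div] at h7
  have h8 : δ * e / 2 ≤ Real.exp (-(c2 / 2 * D)) * (δ / 4) :=
    h2.trans (mul_le_mul_of_nonneg_left h5 (Real.exp_pos _).le)
  have h9 : δ * (2 * e) ≤ δ * Real.exp (-(c2 / 2 * D)) := by linarith
  exact le_of_mul_le_mul_left h9 hδ

/-- **All indices in fat classes.** -/
theorem sFatT (hFat : S_Fat) (hLowG : S_LowG) : S_FatT := by
  classical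
  intro b c2 hb0 hb1 hc2
  obtain ⟨ηF, hηF, H⟩ := hFat b hb0 hb1
  refine ⟨min ηF (c2 / 8), lt_min hηF (by positivity), ?_⟩
  intro δ hδ hδ1
  have hη8 : min ηF (c2 / 8) ≤ c2 / 8 := min_le_right _ _
  obtain ⟨d1, H1⟩ := H (min ηF (c2 / 8)) (c2 / 2) δ (lt_min hηF (by positivity))
    (min_le_left _ _) (by linarith) hδ
  refine ⟨max d1 (max 1 ⌈32 / (3 * δ * c2)⌉₊), ?_⟩
  intro d hd N p q1 r hC hq hr hG
  have hd1 : d1 ≤ d := le_of_max_le_left hd
  have hd2 : 1 ≤ d := le_of_max_le_left (le_of_max_le_right hd)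
  have hd3 : 32 / (3 * δ * c2) ≤ (d : ℝ) :=
    (Nat.le_ceil _).trans (by exact_mod_cast le_of_max_le_right (le_of_max_le_right hd))
  have hom := FatT_om_pos d
  set η := min ηF (c2 / 8) with hη
  set q : Fin N → E d := fun i => b • q1 i with hqdef
  rcases (TF η δ p q r).eq_empty_or_nonempty with hT | hT
  · rw [hT, FatT_Gt_empty]
    have := FatT_Gt_nonneg p r Finset.univ 0
    positivity
  · obtain ⟨i', hi', hmax⟩ := Finset.exists_max_image (TF η δ p q r) (fun i => ‖p i‖) hT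
    have hi2 := hi'
    unfold TF at hi2
    rw [Finset.mem_filter] at hi2
    obtain ⟨-, k, hk, hik⟩ := hi2
    have hsub : Jk p q r k ⊆ TF η δ p q r := by
      intro i hi
      unfold TF
      rw [Finset.mem_filter]
      refine ⟨?_, k, hk, hi⟩
      unfold Jk at hi
      exact (Finset.mem_filter.mp hi).1
    have hInC : ∀ i ∈ Jk p q r k, InC ((1 / 2) ^ k) ‖p i‖ := by
      intro i hi
      unfold Jk at hi
      exact (Finset.mem_filter.mp hi).2
    have he0 : (0 : ℝ) < (1 / 2) ^ k := by positivity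
    have he1 : ((1 : ℝ) / 2) ^ k ≤ 1 := pow_le_one₀ (by norm_num) (by norm_num)
    have h1 := (hLowG d N p r (Jk p q r k) hd2).2.1 δ ((1 / 2) ^ k) hδ hδ1 he0 he1
      (fun i hi => (hInC i hi).1)
    have h2 := (hLowG d N p r Finset.univ hd2).2.2.2.2 (Jk p q r k) (Finset.subset_univ _)
    have h3 : δ * (1 / 2) ^ k / 2 * Real.exp (-(η * d)) ≤ Real.exp (-(c2 * d)) := by
      have h4 : δ * (1 / 2) ^ k / 2 * (Real.exp (-(η * d)) * om d) ≤
          δ * (1 / 2) ^ k / 2 * volume.real (Dr p r (Jk p q r k) δ) :=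
        mul_le_mul_of_nonneg_left hk (by positivity)
      have h5 : (δ * (1 / 2) ^ k / 2 * Real.exp (-(η * d))) * om d ≤
          Real.exp (-(c2 * d)) * om d := by
        calc (δ * (1 / 2) ^ k / 2 * Real.exp (-(η * d))) * om d
            = δ * (1 / 2) ^ k / 2 * (Real.exp (-(η * d)) * om d) := by ring
          _ ≤ _ := h4.trans (h1.trans (h2.trans hG))
      exact le_of_mul_le_mul_right h5 hom
    have h6 : 2 * (1 / 2) ^ k ≤ Real.exp (-(c2 / 2 * d)) := FatT_num hc2 hη8 hδ hd3 h3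
    have h7 : Real.exp (-(c2 / 2 * d)) ≤ 1 := by
      apply Real.exp_le_one_iff.mpr
      have : 0 ≤ c2 / 2 * (d : ℝ) := by positivity
      linarith
    have hne : ((1 : ℝ) / 2) ^ k ≠ 1 := by
      intro h
      rw [h] at h6
      linarith
    have hi3 := hInC i' hik
    have hP2 : ‖p i'‖ ≤ 2 * (1 / 2) ^ k := hi3.2.resolve_right hne
    have hmain := H1 d hd1 N p q1 r (TF η δ p q r) (Jk p q r k) ‖p i'‖ hC hq hr hsub
      (he0.trans hi3.1) (hP2.trans h6) hmax
      (fun i hi => by linarith [(hInC i hi).1]) hk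
    have h8 := (hLowG d N p r Finset.univ hd2).2.2.2.2 (TF η δ p q r) (Finset.subset_univ _)
    exact hmain.trans (mul_le_mul_of_nonneg_left h8 (by linarith))

end Pool.Agent.Lib.MP_0c1c75_co.KPI
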