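import Pool.Agent.Lib.MP_0c1c75_co.KPI.Iface

/-!
# MP_0c1c75_co, project KPI, part H: the assembly (`S_Asm`)

Conventions: `q1` is a `b`-contraction of `p` (with the origin), `q = b q1`.
-/

set_option autoImplicit false

open MeasureTheory Set Metric

namespace Pool.Agent.Lib.MP_0c1c75_co.KPI

open Classical in
/-- The indices whose ball does not contain the unit ball (relevant for `q`). -/
noncomputable def Rel {d N : ℕ} (q : Fin N → E d) (r : Fin N → ℝ) : Finset (Fin N) :=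
  Finset.univ.filter fun i => r i < 1 + ‖q i‖

open Classical in
/-- The class `k`: the relevant indices with `2^(-k) < ‖p i‖ ≤ 2^(1-k)` (`1 < ‖p i‖` for `k = 0`). -/
noncomputable def Jk {d N : ℕ} (p q : Fin N → E d) (r : Fin N → ℝ) (k : ℕ) : Finset (Fin N) :=
  (Rel q r).filter fun i => InC ((1 / 2) ^ k) ‖p i‖

/-- The class `k` is fat. -/
def Ft {d N : ℕ} (η δ : ℝ) (p q : Fin N → E d) (r : Fin N → ℝ) (k : ℕ) : Prop :=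
  Real.exp (-(η * d)) * om d ≤ volume.real (Dr p r (Jk p q r k) δ)

open Classical in
/-- The indices of fat classes. -/
noncomputable def TF {d N : ℕ} (η δ : ℝ) (p q : Fin N → E d) (r : Fin N → ℝ) : Finset (Fin N) :=
  (Rel q r).filter fun i => ∃ k, Ft η δ p q r k ∧ i ∈ Jk p q r k

open Classical in
/-- The relevant indices which are in no fat class. -/
noncomputable def TN {d N : ℕ} (η δ : ℝ) (p q : Fin N → E d) (r : Fin N → ℝ) : Finset (Fin N) :=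
  (Rel q r).filter fun i => ¬ ∃ k, Ft η δ p q r k ∧ i ∈ Jk p q r k

/-- (40 lines) **Irrelevant balls.**

Proof.  (1) If `‖x‖ ≤ 1`, `r i < ‖x - q i‖` (both sides nonnegative: `r i ^ 2 + 0 < ‖x - q i‖ ^ 2`) then `r i < 1 + ‖q i‖`, so `i ∈ Rel q r`.  (2) `t = ‖p‖`, `t' = b ‖q1‖ ≤ b² t`: `t' > 0` as
`1 ≤ r < 1 + t'`, so `t > 0`; `r² < 1 + 2 t' + t'²`, so `kap p r < (2 t' + t'² - t²)/(2 t) ≤ b²`. -/
def S_Irr : Prop := (∀ (d N : ℕ) (q : Fin N → E d) (r : Fin N → ℝ), (∀ i, 1 ≤ r i) →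
    Gt q r Finset.univ 0 ≤ Gt q r (Rel q r) 0) ∧
  ∀ (d : ℕ) (b r : ℝ) (p q1 : E d), 0 < b → b < 1 → ‖q1‖ ≤ b * ‖p‖ → 1 ≤ r →
    r < 1 + b * ‖q1‖ → 0 < ‖p‖ ∧ kap p r < b ^ 2

/-- (60 lines) **Classes.**

Proof.  (1) `x > 1`: `k = 0`.  Otherwise the smallest `k` with `2^(-k) < x`; `k ≥ 1` and `x ≤ 2^(-(k-1))`.  (2) `k0` the smallest `k` with `2^(-k) < P`; `2^(-k0) ≤ min P 1`.  For `x`, `k` as in the
statement `2^(-k) < x ≤ P`, so `k ≥ k0`.  If `k ≥ 1`: `2^(-k) ≥ x/2 > (min P 1) e^(-C)/2 ≥ 2^(-k0) e^(-C)/2`, so `2^(k - k0) < 2 e^C` and `k - k0 < 1 + C/log 2 ≤ 1 + 3 C/2`.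
(3) A class is contained in the relevant indices, and the numbers `2^(-k) < ‖p i‖` are as in `InC`. -/
def S_Kk : Prop := (∀ x : ℝ, 0 < x → ∃ k : ℕ, InC ((1 / 2) ^ k) x) ∧
  ∀ P C : ℝ, 0 < P → 0 ≤ C → ∃ k0 : ℕ, ∀ (x : ℝ) (k : ℕ), InC ((1 / 2) ^ k) x → x ≤ P →
    min P 1 * Real.exp (-C) < x → k0 ≤ k ∧ (k : ℝ) ≤ k0 + 1 + 3 / 2 * C

/-- (120 lines; uses `S_Cls`, `S_Gain`, `S_LowG`, `S_Irr`) **One class which is not fat.**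

Proof.  `S_Gain` for `b`, `κ0`, `η/2`: `γ0`, `C`, `K`.  `S_Cls` for `κ0`, `b²`, `ε = min (γ0/2) (η/4)`, `K`: `η3`.  `δ = κ0 η3/2`, `γ = γ0/4`.  Let `J` be as in the statement, `I ⊆ J` from `S_Gain`.  `kap ≤ b²` on `J` (`S_Irr` (2)).
`S_Cls` and `S_LowG` (1), with `D = volume.real (Dr p r I δ) ≤ volume.real (Dr p r J δ) ≤ e^(-η d) om d`: `Gt q1 r I 0 ≤ e^(ε d) e fv (1 - η3) (Nv p r I) ≤ e^(ε d) e D ≤ e^(-(η/2) d) e om d`.  So `S_Gain`: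
`Gt (b q1) r J 0 ≤ C d e^(-γ0 d) Gt q1 r I 0 ≤ C d e^(-γ0 d) e^(ε d) e D`, and `e D ≤ (2/δ) Gt p r I 0 ≤ (2/δ) Gt p r J 0` (`S_LowG` (2), (5)).  Finally `(2/δ) C d e^(-(γ0 - ε) d) ≤ e^(-γ d)` for large `d`. -/
def S_NF : Prop := ∀ b κ0 η : ℝ, 0 < b → b < 1 → 0 < κ0 → κ0 < 1 → 0 < η →
  ∃ δ γ : ℝ, 0 < δ ∧ δ ≤ κ0 ∧ 0 < γ ∧ ∃ d1 : ℕ, ∀ d ≥ d1, ∀ (N : ℕ) (p q1 : Fin N → E d)
    (r : Fin N → ℝ) (J : Finset (Fin N)) (e : ℝ), Contr 1 p q1 → (∀ i, ‖q1 i‖ ≤ b * ‖p i‖) →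
    (∀ i, 1 ≤ r i) → (∀ i ∈ J, κ0 ≤ kap (p i) (r i) ∧ r i < 1 + b * ‖q1 i‖) → 0 < e → e ≤ 1 →
    (∀ i ∈ J, InC e ‖p i‖) → volume.real (Dr p r J δ) ≤ Real.exp (-(η * d)) * om d →
    Gt (fun i => b • q1 i) r J 0 ≤ Real.exp (-(γ * d)) * Gt p r J 0

/-- (60 lines; uses `S_Cap`) **Heights in a class which is not fat.**

Proof.  `κ0 ∈ (0, 1/4]` with `-log (1 - (2 κ0)²)/2 < η`; `d1` from `S_Cap` for `h = 2 κ0`.  If `kap (p i) (r i) < κ0` for some `i ∈ J` then with `v = -(1/‖p i‖) p i` the set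
`{‖x‖ ≤ 1, 2 κ0 ‖x‖ < ⟨v, x⟩}` is contained in `Dr p r J δ` (`kap + δ ≤ 2 κ0`), so `volume.real (Dr p r J δ) ≥ e^(-η d) om d`: contradiction. -/
def S_NFX : Prop := ∀ η : ℝ, 0 < η → ∃ κ0 : ℝ, 0 < κ0 ∧ κ0 < 1 ∧ ∃ d1 : ℕ, ∀ d ≥ d1,
  ∀ (N : ℕ) (p : Fin N → E d) (r : Fin N → ℝ) (J : Finset (Fin N)) (δ : ℝ), 0 < δ → δ ≤ κ0 →
  (∀ i ∈ J, 0 < ‖p i‖) → volume.real (Dr p r J δ) < Real.exp (-(η * d)) * om d →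
  ∀ i ∈ J, κ0 ≤ kap (p i) (r i)

/-- (100 lines; uses `S_LowG`, `S_Cap`, `S_Irr`) **Very small balls.**

Proof.  `δ = (1 - b²)/2`, `h = b² + δ = (1 + b²)/2 < 1`, `C = 1 - log (1 - h²)/2`.  Let `i' ∈ J` with `‖p i'‖ = P`; `kap (p i') (r i') < b²` (`S_Irr` (2)), so `Dr p r {i'} δ` contains
`{‖x‖ ≤ 1, h ‖x‖ < ⟨v, x⟩}`, `v = -(1/P) p i'`, and its volume is `≥ e^(-C d) om d` (`S_Cap`, `d` large).  `S_LowG` (2) with `e = min P 1 / 2 < P` and (5):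
`(δ/4) min P 1 e^(-C d) om d ≤ Gt p r univ 0`.  `S_LowG` (3) for `q` (`‖b q1 i‖ ≤ ‖p i‖ ≤ s = min P 1 e^(-2 C d)` on `J'`): `Gt (b q1) r J' 0 ≤ d s om d ≤ (4 d/δ) e^(-C d) Gt p r univ 0 ≤ e^(-(C/2) d) Gt p r univ 0` for large `d`. -/
def S_Sml : Prop := ∀ b : ℝ, 0 < b → b < 1 → ∃ C : ℝ, 0 < C ∧ ∃ d1 : ℕ, ∀ d ≥ d1,
  ∀ (N : ℕ) (p q1 : Fin N → E d) (r : Fin N → ℝ) (J J' : Finset (Fin N)) (P : ℝ),
  (∀ i, ‖q1 i‖ ≤ b * ‖p i‖) → (∀ i, 1 ≤ r i) → (∀ i ∈ J, r i < 1 + b * ‖q1 i‖) →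
  (∃ i ∈ J, ‖p i‖ = P) → 0 < P → J' ⊆ J →
  (∀ i ∈ J', ‖p i‖ ≤ min P 1 * Real.exp (-(2 * C * d))) →
  Gt (fun i => b • q1 i) r J' 0 ≤ Real.exp (-(C / 2 * d)) * Gt p r Finset.univ 0

/-- (150 lines; uses `S_NF`, `S_NFX`, `S_Kk`, `S_Sml`, `S_LowG`, `S_Irr`) **All indices in classes which are not fat.**

Proof.  `κ0` from `S_NFX` for `η`, `δ`, `γ1` from `S_NF` for `b`, `κ0`, `η` (so `δ ≤ κ0`), `C` from `S_Sml`; `γ = min γ1 (C/2) / 2`.  `q = b q1`, `TN = TN η δ p q r`; the elements of `TN` are relevant (`r i < 1 + b ‖q1 i‖`, `0 < ‖p i‖`).  If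
`TN = ∅` the left side is `0`.  Otherwise `P = max ‖p i‖` over `TN`, attained.  `J' = {i ∈ TN : ‖p i‖ ≤ min P 1 e^(-2 C d)}` (`S_Sml` with `J = TN`).  For `i ∈ TN \ J'` there is `k` with `InC (2^(-k)) ‖p i‖` (`S_Kk` (1)), `i ∈ Jk k`, the class
`k` is not fat, and by `S_Kk` (2) (`2 C d` for `C`) `k0 ≤ k ≤ k0 + 1 + 3 C d`.  For a class `k` which is not fat: `0 < ‖p i‖` on it, `κ0 ≤ kap` on it (`S_NFX`), and `S_NF` with `e = 2^(-k)`: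
`Gt q r (Jk k) 0 ≤ e^(-γ1 d) Gt p r (Jk k) 0 ≤ e^(-γ1 d) Gt p r univ 0`.  Subadditivity and monotonicity (`S_LowG` (4), (5)): `Gt q r TN 0 ≤ (3 C d + 2) e^(-γ1 d) Gt p r univ 0 + e^(-(C/2) d) Gt p r univ 0 ≤ e^(-γ d) Gt p r univ 0`. -/
def S_NonF : Prop := ∀ b η : ℝ, 0 < b → b < 1 → 0 < η → ∃ δ γ : ℝ, 0 < δ ∧ δ ≤ 1 ∧ 0 < γ ∧
  ∃ d1 : ℕ, ∀ d ≥ d1, ∀ (N : ℕ) (p q1 : Fin N → E d) (r : Fin N → ℝ), Contr 1 p q1 →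
  (∀ i, ‖q1 i‖ ≤ b * ‖p i‖) → (∀ i, 1 ≤ r i) →
  Gt (fun i => b • q1 i) r (TN η δ p (fun i => b • q1 i) r) 0 ≤
    Real.exp (-(γ * d)) * Gt p r Finset.univ 0

/-- (120 lines; uses `S_Fat`, `S_LowG`) **All indices in fat classes.**

Proof.  `ηF` from `S_Fat` for `b`, `ηG = min ηF (c2/8)`, `c3 = c2/2 ≥ 2 η`.  `q = b q1`, `T = TF η δ p q r`.  If `T = ∅` the left side is `0`.  Otherwise `P = max ‖p i‖` over `T`, attained at `i'`, which is in the fat class `k`; `T' = Jk p q r k ⊆ T`, `e = 2^(-k)`.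
`S_LowG` (2), (5): `(δ e/2) e^(-η d) om d ≤ (δ e/2) volume.real (Dr p r T' δ) ≤ Gt p r univ 0 ≤ e^(-c2 d) om d`, so `e ≤ (2/δ) e^(-(c2 - η) d) ≤ e^(-c3 d)/2 < 1` for large `d` (`om d > 0`).  So `k ≠ 0` (`e < 1`), `P ≤ 2 e ≤ e^(-c3 d)`, and
`‖p i‖ > e ≥ P/2` on `T'`.  `S_Fat` and `S_LowG` (5). -/
def S_FatT : Prop := ∀ b c2 : ℝ, 0 < b → b < 1 → 0 < c2 → ∃ ηG : ℝ, 0 < ηG ∧ ∀ δ : ℝ, 0 < δ →
  δ ≤ 1 → ∃ d1 : ℕ, ∀ d ≥ d1, ∀ (N : ℕ) (p q1 : Fin N → E d) (r : Fin N → ℝ), Contr 1 p q1 →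
  (∀ i, ‖q1 i‖ ≤ ‖p i‖) → (∀ i, 1 ≤ r i) →
  Gt p r Finset.univ 0 ≤ Real.exp (-(c2 * d)) * om d →
  Gt (fun i => b • q1 i) r (TF ηG δ p (fun i => b • q1 i) r) 0 ≤
    (1 + b) / 2 * Gt p r Finset.univ 0

/-- (80 lines; uses `S_FatT`, `S_NonF`, `S_Irr`, `S_LowG`) **`S_Asm`.**

Proof.  `b = √c`, `ηG` from `S_FatT`, `δ`, `γ` from `S_NonF` for `η = ηG`.  Let `Cfg c p q r i0` and `q1 i = b⁻¹ q i`: `Contr b p q1` (`c/b = b`), so `Contr 1 p q1`, `‖q1 i‖ ≤ b ‖p i‖` (the index `i0`), `q = b q1`.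
`Rel q r = TF ∪ TN`, so `Gt q r univ 0 ≤ Gt q r TF 0 + Gt q r TN 0 ≤ ((1 + b)/2 + e^(-γ d)) Gt p r univ 0 ≤ Gt p r univ 0` for large `d`. -/
def S_AsmH : Prop := S_Asm

/-- (60 lines; uses `S_Reg`, `S_Asm`) **The theorem.**

Proof.  `c < 1`; let `c' = max c (1/2)`, `0 < c' < 1`, `Contr c p q → Contr c' p q`.  `S_Reg` and `S_Asm` for `c'`. -/
def S_KPI : Prop := ∀ c : ℝ, c < 1 → KPfor c

end Pool.Agent.Lib.MP_0c1c75_co.KPI
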