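import Pool.Agent.Lib.MP_0c1c75_co.ArSpec

import Pool.Agent.Lib.MP_0c1c75_co.ArInt
import Pool.Agent.Lib.MP_0c1c75_co.KPI.SpecH

/-!
MP_0c1c75_co, project KPI: interpolation between an exact factor `e` and `1`, by Brunn-Minkowski
(adapted from ArInt.lean), and the sequence of exact factors which tends to one.
-/

open MeasureTheory Set Metric
open scoped Pointwise

namespace Pool.Agent.Lib.MP_0c1c75_co.KPI

variable {d N : ℕ}

/-- intersection of balls -/
private def bd (p : Fin N → E d) (r : Fin N → ℝ) : Set (E d) := ⋂ i, closedBall (p i) (r i)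

private lemma bd_compact (hN : 0 < N) (p : Fin N → E d) (r : Fin N → ℝ) : IsCompact (bd p r) := by
  have h1 : bd p r ⊆ closedBall (p ⟨0, hN⟩) (r ⟨0, hN⟩) :=
    iInter_subset (fun i => closedBall (p i) (r i)) ⟨0, hN⟩
  exact (isCompact_closedBall _ _).of_isClosed_subset
    (isClosed_iInter fun _ => isClosed_closedBall) h1

private lemma bd_finite (hN : 0 < N) (p : Fin N → E d) (r : Fin N → ℝ) : volume (bd p r) ≠ ⊤ :=
  (bd_compact hN p r).measure_lt_top.ne

private lemma kappa_pos (d : ℕ) : 0 < (volume (ball (0 : E d) 1)).toReal :=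
  ENNReal.toReal_pos (measure_ball_pos _ _ one_pos).ne' measure_ball_lt_top.ne

/-- `Cp d` is at least one -/
private lemma one_le_Cp (hT : Thm2pStmt) (hd : 2 ≤ d) : 1 ≤ Cp d := by
  have h1 := hT d 1 hd (fun _ => 0) (fun _ => 0) (fun i j => by simp) (fun _ => 1)
  rw [iInter_const] at h1
  have hV : 0 < volume (closedBall (0 : E d) 1) := measure_closedBall_pos _ _ one_pos
  have hV' : volume (closedBall (0 : E d) 1) ≠ ⊤ := measure_closedBall_lt_top.ne
  have h2 : (1 : ENNReal) * volume (closedBall (0 : E d) 1) ≤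
      ENNReal.ofReal (Cp d) * volume (closedBall (0 : E d) 1) := by rwa [one_mul]
  have h3 := (ENNReal.mul_le_mul_iff_left hV.ne' hV').mp h2
  rwa [ENNReal.one_le_ofReal] at h3

/-- comparison of volume radii from a comparison of volumes -/
private lemma vr_le (hV : VrBasicStmt) (hd : 0 < d) {A B : Set (E d)} {c C : ℝ} (hc : 0 ≤ c)
    (hcC : c ^ d * C ≤ 1) (hB : volume B ≠ ⊤) (h : volume A ≤ ENNReal.ofReal C * volume B)
    (hC : 0 ≤ C) : c * vr A ≤ vr B := by
  obtain ⟨-, -, -, v4, v5, -⟩ := hV d hd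
  have hfin : ENNReal.ofReal C * volume B ≠ ⊤ := ENNReal.mul_ne_top ENNReal.ofReal_ne_top hB
  have h4 := ENNReal.toReal_mono hfin h
  rw [ENNReal.toReal_mul, ENNReal.toReal_ofReal hC, v5, v5 B] at h4
  have hk := kappa_pos d
  have h5 : (volume (ball (0 : E d) 1)).toReal * vr A ^ d ≤
      (volume (ball (0 : E d) 1)).toReal * (C * vr B ^ d) := by linarith
  have h6 := le_of_mul_le_mul_left h5 hk
  refine le_of_pow_le_pow_left₀ hd.ne' (v4 B) ?_
  rw [mul_pow]
  have h7 := mul_le_mul_of_nonneg_left h6 (pow_nonneg hc d)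
  have h8 := mul_le_mul_of_nonneg_right hcC (pow_nonneg (v4 B) d)
  linarith

/-- the exponent of the interpolation -/
noncomputable def sE (e c : ℝ) : ℝ := max 0 ((c - e) / (1 - e))

/-- the constant -/
noncomputable def CE (d : ℕ) (e c : ℝ) : ℝ :=
  (1 - sE e c + sE e c * Cp d ^ (-(1 / (d : ℝ)))) ^ (-(d : ℝ))

theorem genInt (hT : Thm2pStmt) (hBM : BMStmt) (hV : VrBasicStmt) (d : ℕ) (hd : 2 ≤ d) (e : ℝ)
    (e0 : 0 < e) (e1' : e < 1)
    (hU' : ∀ (N : ℕ) (p q : Fin N → E d), Contr e p q → ∀ r : Fin N → ℝ,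
      volume (⋂ i, closedBall (p i) (r i)) ≤ volume (⋂ i, closedBall (q i) (r i)))
    (N : ℕ) (c : ℝ) (p q : Fin N → E d) (hc0 : 0 ≤ c) (hc1 : c ≤ 1) (hpq : Contr c p q)
    (r : Fin N → ℝ) :
    volume (⋂ i, closedBall (p i) (r i)) ≤
      ENNReal.ofReal (CE d e c) * volume (⋂ i, closedBall (q i) (r i)) := by
  have hU := hU' N
  have hd0 : 0 < d := by omega
  have hdR : (0 : ℝ) < d := by exact_mod_cast hd0
  have hC1 := one_le_Cp hT hd
  have hC0 : 0 < Cp d := by linarith
  set κ : ℝ := Cp d ^ (-(1 / (d : ℝ))) with hκ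
  have hκ0 : 0 < κ := Real.rpow_pos_of_pos hC0 _
  have hκ1 : κ ≤ 1 := Real.rpow_le_one_of_one_le_of_nonpos hC1 (by
    have : 0 < 1 / (d : ℝ) := by positivity
    linarith)
  have hκd : κ ^ d * Cp d = 1 := by
    rw [hκ, ← Real.rpow_natCast, ← Real.rpow_mul hC0.le]
    have e : -(1 / (d : ℝ)) * (d : ℝ) = -1 := by
      field_simp
    rw [e, Real.rpow_neg_one, inv_mul_cancel₀ hC0.ne']
  set s : ℝ := max 0 ((c - e) / (1 - e)) with hs
  have hs0 : 0 ≤ s := le_max_left _ _
  have hs1 : s ≤ 1 := max_le zero_le_one (by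
    rw [div_le_one (by linarith)]
    linarith)
  set b : ℝ := 1 - s + s * κ with hb
  have hb0 : 0 < b := by
    rcases hs1.eq_or_lt with h | h
    · rw [hb, h]
      linarith
    · have := mul_nonneg hs0 hκ0.le
      rw [hb]
      linarith
  have hb1 : b ≤ 1 := by
    have := mul_le_mul_of_nonneg_left hκ1 hs0
    rw [hb]
    linarith
  have hCc : CE d e c = (b ^ d)⁻¹ := by
    unfold CE sE
    rw [← hs, ← hκ, ← hb, Real.rpow_neg hb0.le, Real.rpow_natCast]
  have hbd : 0 < b ^ d := pow_pos hb0 d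
  have hCc1 : 1 ≤ CE d e c := by
    rw [hCc]
    exact (one_le_inv₀ hbd).mpr (pow_le_one₀ hb0.le hb1)
  have hge : ∀ V : ENNReal, V ≤ ENNReal.ofReal (CE d e c) * V := by
    intro V
    calc V = 1 * V := (one_mul V).symm
      _ ≤ _ := mul_le_mul_left (ENNReal.one_le_ofReal.mpr hCc1) V
  rcases Nat.eq_zero_or_pos N with hN0 | hN
  · subst hN0
    have : p = q := by
      funext i
      exact i.elim0
    rw [this]
    exact hge _
  rcases le_or_gt c e with hc | hc
  · have h1 : Contr e p q := fun i j =>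
      (hpq i j).trans (mul_le_mul_of_nonneg_right hc dist_nonneg)
    exact (hU p q h1 r).trans (hge _)
  have hcpos : 0 < c := by linarith
  have hsc : s = (c - e) / (1 - e) := max_eq_right (div_nonneg (by linarith) (by linarith))
  -- the expanded configuration
  set q' : Fin N → E d := fun i => c⁻¹ • q i with hq'
  have hpq' : Contr 1 p q' := by
    intro i j
    rw [hq']
    simp only [dist_smul₀, norm_inv, Real.norm_eq_abs, abs_of_pos hcpos, one_mul]
    rw [inv_mul_le_iff₀ hcpos]
    exact hpq i j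
  set q3 : Fin N → E d := fun i => e • q' i with hq3
  have hpq3 : Contr e p q3 := by
    intro i j
    have h1 := hpq' i j
    rw [hq3]
    simp only [dist_smul₀, Real.norm_eq_abs]
    rw [abs_of_pos e0]
    rw [one_mul] at h1
    exact mul_le_mul_of_nonneg_left h1 e0.le
  rcases (bd p r).eq_empty_or_nonempty with hemp | -
  · change volume (bd p r) ≤ _
    rw [hemp, measure_empty]
    exact zero_le
  by_cases h0 : volume (bd p r) = 0
  · change volume (bd p r) ≤ _
    rw [h0]
    exact zero_le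
  have hA : volume (bd p r) ≤ volume (bd q3 r) := hU p q3 hpq3 r
  have hB : volume (bd p r) ≤ ENNReal.ofReal (Cp d) * volume (bd q' r) := hT d N hd p q' hpq' r
  have hAne : (bd q3 r).Nonempty := by
    rw [nonempty_iff_ne_empty]
    intro h
    rw [h, measure_empty] at hA
    exact h0 (le_antisymm hA zero_le)
  have hBne : (bd q' r).Nonempty := by
    rw [nonempty_iff_ne_empty]
    intro h
    rw [h, measure_empty, mul_zero] at hB
    exact h0 (le_antisymm hB zero_le)
  have hsub : (1 - s) • bd q3 r + s • bd q' r ⊆ bd q r := by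
    intro z hz
    obtain ⟨z1, hz1, z2, hz2, rfl⟩ := mem_add.mp hz
    obtain ⟨x, hx, rfl⟩ := mem_smul_set.mp hz1
    obtain ⟨y, hy, rfl⟩ := mem_smul_set.mp hz2
    unfold bd at hx hy ⊢
    rw [mem_iInter] at hx hy ⊢
    intro i
    have hxi := hx i
    have hyi := hy i
    rw [mem_closedBall, dist_eq_norm] at hxi hyi ⊢
    have e1 : q i = (1 - s) • q3 i + s • q' i := by
      rw [hq3, hq']
      simp only
      rw [smul_smul, smul_smul, smul_smul, ← add_smul]
      have e2 : (1 - s) * e * c⁻¹ + s * c⁻¹ = 1 := by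
        have he1 : 1 - e ≠ 0 := by linarith
        rw [hsc]
        field_simp
        ring
      rw [e2, one_smul]
    have e4 : (1 - s) • x + s • y - q i = (1 - s) • (x - q3 i) + s • (y - q' i) := by
      rw [e1, smul_sub, smul_sub]
      abel
    rw [e4]
    calc ‖(1 - s) • (x - q3 i) + s • (y - q' i)‖
        ≤ ‖(1 - s) • (x - q3 i)‖ + ‖s • (y - q' i)‖ := norm_add_le _ _
      _ = (1 - s) * ‖x - q3 i‖ + s * ‖y - q' i‖ := by
          rw [norm_smul, norm_smul, Real.norm_eq_abs, Real.norm_eq_abs,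
            abs_of_nonneg (by linarith), abs_of_nonneg hs0]
      _ ≤ (1 - s) * r i + s * r i :=
          add_le_add (mul_le_mul_of_nonneg_left hxi (by linarith))
            (mul_le_mul_of_nonneg_left hyi hs0)
      _ = r i := by ring
  have h1 : vr (bd p r) ≤ vr (bd q3 r) := by
    have := vr_le hV hd0 (c := 1) (C := 1) zero_le_one (by simp) (bd_finite hN q3 r)
      (by simpa using hA) zero_le_one
    simpa using this
  have h2 : κ * vr (bd p r) ≤ vr (bd q' r) :=
    vr_le hV hd0 hκ0.le hκd.le (bd_finite hN q' r) hB hC0.le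
  have h3 := hBM d hd0 _ _ (bd_compact hN q3 r) (bd_compact hN q' r) hAne hBne s hs0 hs1
  have h4 := (hV d hd0).1 _ _ hsub (bd_finite hN q r)
  obtain ⟨-, -, -, v4, v5, -⟩ := hV d hd0
  have h5 : b * vr (bd p r) ≤ vr (bd q r) := by
    have h6 := mul_le_mul_of_nonneg_left h1 (by linarith : 0 ≤ 1 - s)
    have h7 := mul_le_mul_of_nonneg_left h2 hs0
    calc b * vr (bd p r) = (1 - s) * vr (bd p r) + s * (κ * vr (bd p r)) := by
          rw [hb]
          ring
      _ ≤ (1 - s) * vr (bd q3 r) + s * vr (bd q' r) := add_le_add h6 h7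
      _ ≤ _ := h3
      _ ≤ _ := h4
  have hvol : (volume (bd p r)).toReal ≤ CE d e c * (volume (bd q r)).toReal := by
    rw [v5, v5 (bd q r), hCc]
    have h8 := pow_le_pow_left₀ (mul_nonneg hb0.le (v4 _)) h5 d
    rw [mul_pow] at h8
    have h9 : vr (bd p r) ^ d ≤ (b ^ d)⁻¹ * vr (bd q r) ^ d := by
      rw [le_inv_mul_iff₀ hbd]
      exact h8
    have h10 := mul_le_mul_of_nonneg_left h9 (kappa_pos d).le
    linarith
  change volume (bd p r) ≤ ENNReal.ofReal (CE d e c) * volume (bd q r)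
  have hfin : ENNReal.ofReal (CE d e c) * volume (bd q r) ≠ ⊤ :=
    ENNReal.mul_ne_top ENNReal.ofReal_ne_top (bd_finite hN q r)
  rw [← ENNReal.toReal_le_toReal (bd_finite hN p r) hfin, ENNReal.toReal_mul,
    ENNReal.toReal_ofReal (by linarith)]
  exact hvol

end Pool.Agent.Lib.MP_0c1c75_co.KPI
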