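import Pool.Agent.Lib.MP_0c1c75_co.KPI.SpecH
import Pool.Agent.Lib.MP_0c1c75_co.ArSpec

/-!
MP_0c1c75_co, project KPI: the sequence of exact factors, which tends to one.
-/

set_option autoImplicit false

open MeasureTheory Set Metric Filter Topology

namespace Pool.Agent.Lib.MP_0c1c75_co.KPI

/-- The inequality for contractions by the factor `e` in dimension `d`. -/
def Exact (d : ℕ) (e : ℝ) : Prop := ∀ (N : ℕ) (p q : Fin N → E d), Contr e p q →
  ∀ r : Fin N → ℝ,
  volume (⋂ i, closedBall (p i) (r i)) ≤ volume (⋂ i, closedBall (q i) (r i))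

private lemma FinB_nonpos {d N : ℕ} (hd : 2 ≤ d) (p : Fin N → E d) (r : Fin N → ℝ) (i : Fin N)
    (h : r i ≤ 0) : volume (⋂ i, closedBall (p i) (r i)) = 0 := by
  have h1 : (⋂ i, closedBall (p i) (r i)) ⊆ {p i} := by
    refine (iInter_subset _ i).trans ?_
    rcases h.eq_or_lt with h | h
    · rw [h, closedBall_zero]
    · rw [closedBall_eq_empty.mpr h]
      exact empty_subset _
  have : Nontrivial (E d) := by
    have : Nontrivial (Fin d → ℝ) := by
      have : Nonempty (Fin d) := ⟨⟨0, by omega⟩⟩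
      infer_instance
    infer_instance
  exact measure_mono_null h1 (by simp)

private lemma FinB_exact {c : ℝ} {D d : ℕ} (hd : 2 ≤ d) (hDd : D ≤ d)
    (h : ∀ d ≥ D, ∀ (N : ℕ) (p q : Fin N → E d) (r : Fin N → ℝ),
      (∀ i, 0 < r i) → Contr c p q →
      volume (⋂ i, closedBall (p i) (r i)) ≤ volume (⋂ i, closedBall (q i) (r i))) :
    Exact d c := by
  intro N p q hpq r
  by_cases hr : ∀ i, 0 < r i
  · exact h d hDd N p q r hr hpq
  · push Not at hr
    obtain ⟨i, hi⟩ := hr
    rw [FinB_nonpos hd p r i hi]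
    exact zero_le

theorem exactSeq (hK : S_KPI) (h0 : ∀ d, 2 ≤ d → Exact d (Ar.c0 d)) :
    ∃ e : ℕ → ℝ, (∀ d, 0.517 ≤ e d ∧ e d < 1) ∧ 0.562 ≤ e 3 ∧ Tendsto e atTop (𝓝 1) ∧
      ∀ d, 2 ≤ d → Exact d (e d) := by
  classical
  have hc : ∀ m : ℕ, (1 : ℝ) - 1 / (m + 1) < 1 := by
    intro m
    have : (0 : ℝ) < 1 / (m + 1) := by positivity
    linarith
  choose D hD using fun m : ℕ => hK (1 - 1 / (m + 1)) (hc m)
  have hc0 : ∀ d, 0.517 ≤ Ar.c0 d ∧ Ar.c0 d < 1 := by
    intro d
    unfold Ar.c0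
    split_ifs <;> norm_num
  let S : ℕ → Finset ℕ := fun d => (Finset.range (d + 1)).filter fun m => D m ≤ d
  let e : ℕ → ℝ := fun d => if h : (S d).Nonempty then
    max (Ar.c0 d) (1 - 1 / (((S d).max' h : ℕ) + 1)) else Ar.c0 d
  have he0 : ∀ d, Ar.c0 d ≤ e d := by
    intro d
    simp only [e]
    split_ifs with h
    · exact le_max_left _ _
    · exact le_rfl
  refine ⟨e, fun d => ⟨(hc0 d).1.trans (he0 d), ?_⟩, ?_, ?_, ?_⟩
  · simp only [e]
    split_ifs with h
    · exact max_lt (hc0 d).2 (hc _)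
    · exact (hc0 d).2
  · refine le_trans ?_ (he0 3)
    unfold Ar.c0
    norm_num
  · have hlt : ∀ d, e d ≤ 1 := by
      intro d
      simp only [e]
      split_ifs with h
      · exact (max_lt (hc0 d).2 (hc _)).le
      · exact (hc0 d).2.le
    rw [Metric.tendsto_atTop]
    intro ε hε
    obtain ⟨M, hM⟩ := exists_nat_one_div_lt hε
    refine ⟨max M (D M), fun d hd => ?_⟩
    have hMd : M ∈ S d := by
      simp only [S, Finset.mem_filter, Finset.mem_range]
      have h1 := le_max_left M (D M)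
      have h2 := le_max_right M (D M)
      constructor <;> omega
    have hne : (S d).Nonempty := ⟨M, hMd⟩
    have h1 : (1 : ℝ) - 1 / (M + 1) ≤ e d := by
      simp only [e]
      rw [dif_pos hne]
      refine le_trans ?_ (le_max_right _ _)
      have h2 : M ≤ (S d).max' hne := Finset.le_max' _ _ hMd
      have h3 : (M : ℝ) ≤ ((S d).max' hne : ℕ) := by exact_mod_cast h2
      have h4 : (1 : ℝ) / (((S d).max' hne : ℕ) + 1) ≤ 1 / (M + 1) :=
        one_div_le_one_div_of_le (by positivity) (by linarith)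
      linarith
    rw [Real.dist_eq, abs_sub_lt_iff]
    have h5 := hlt d
    constructor <;> linarith
  · intro d hd
    simp only [e]
    split_ifs with h
    · rcases max_choice (Ar.c0 d) (1 - 1 / (((S d).max' h : ℕ) + 1)) with h1 | h1
      · rw [h1]; exact h0 d hd
      · rw [h1]
        have h2 := Finset.max'_mem (S d) h
        simp only [S, Finset.mem_filter, Finset.mem_range] at h2
        exact FinB_exact hd h2.2 (hD _)
    · exact h0 d hd

end Pool.Agent.Lib.MP_0c1c75_co.KPI
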