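import Pool.Agent.Lib.MP_0c1c75_co.KPI.SpecG

/-!
# MP_0c1c75_co, project KPI: the Brunn-Minkowski gain
-/

set_option autoImplicit false

open MeasureTheory Set Metric
open scoped Pointwise

namespace Pool.Agent.Lib.MP_0c1c75_co.KPI

theorem GBM_num {η t y a : ℝ} (ht0 : 0 < t) (ht1 : t < 1) (hy0 : 0 ≤ y)
    (hη : 0 < η) (hy : y ≤ Real.exp (-η)) (h : (1 - t) * a + t ≤ y) :
    a ≤ y * Real.exp (-(t * (Real.exp η - 1))) := by
  have h1 : Real.exp η * y ≤ 1 := by
    have h2 : Real.exp η * y ≤ Real.exp η * Real.exp (-η) :=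
      mul_le_mul_of_nonneg_left hy (Real.exp_pos η).le
    rwa [← Real.exp_add, add_neg_cancel, Real.exp_zero] at h2
  set γ := t * (Real.exp η - 1) with hγ
  have hγ0 : 0 ≤ γ := mul_nonneg ht0.le (by linarith [Real.add_one_le_exp η])
  have h3 : 1 - γ ≤ Real.exp (-γ) := by
    have := Real.add_one_le_exp (-γ)
    linarith
  have h4 : y - t ≤ y * ((1 - t) - γ) := by
    have h5 : t * (Real.exp η * y) ≤ t * 1 := mul_le_mul_of_nonneg_left h1 ht0.le
    have h6 : y * ((1 - t) - γ) = y - t * (Real.exp η * y) := by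
      rw [hγ]
      ring
    rw [h6]
    linarith
  have h5 : y * ((1 - t) - γ) ≤ y * ((1 - t) * Real.exp (-γ)) := by
    apply mul_le_mul_of_nonneg_left _ hy0
    have h6 : (1 - t) * (1 - γ) ≤ (1 - t) * Real.exp (-γ) :=
      mul_le_mul_of_nonneg_left h3 (by linarith)
    have h7 : 0 ≤ t * γ := mul_nonneg ht0.le hγ0
    nlinarith
  have h6 : (1 - t) * a ≤ (1 - t) * (y * Real.exp (-γ)) := by
    have h7 : y * ((1 - t) * Real.exp (-γ)) = (1 - t) * (y * Real.exp (-γ)) := by ring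
    linarith
  exact le_of_mul_le_mul_left h6 (by linarith)

theorem sGBM (hBM : BMStmt) (hV : VrBasicStmt) : S_GBM := by
  intro d η δ A D hd hη hδ hA hD hsub hvol
  obtain ⟨hmono, hball, -, hnn, hvr, -⟩ := hV d hd
  have hdR : (d : ℝ) ≠ 0 := by exact_mod_cast hd.ne'
  rcases A.eq_empty_or_nonempty with rfl | hAn
  · rw [measureReal_empty]
    exact mul_nonneg (Real.exp_pos _).le measureReal_nonneg
  set V0 := (volume (ball (0 : E d) 1)).toReal with hV0
  have hV0pos : 0 < V0 :=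
    ENNReal.toReal_pos (measure_ball_pos volume (0 : E d) one_pos).ne' measure_ball_lt_top.ne
  have hB1 : vr (closedBall (0 : E d) 1) = 1 := hball 0 1 zero_le_one
  have hom : om d = V0 := by
    have h1 : om d = (volume (closedBall (0 : E d) 1)).toReal := rfl
    rw [h1, hvr, hB1, one_pow, mul_one]
  have hDr : volume.real D = V0 * vr D ^ d := hvr D
  have hAr : volume.real A = V0 * vr A ^ d := hvr A
  have hDfin : volume D ≠ ⊤ :=
    ((measure_mono hD).trans_lt measure_closedBall_lt_top).ne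
  have ht0 : 0 < δ / (1 + δ) := by positivity
  have ht1 : δ / (1 + δ) < 1 := by
    rw [div_lt_one (by linarith)]
    linarith
  have hy : vr D ≤ Real.exp (-η) := by
    rw [hDr, hom] at hvol
    have h1 : vr D ^ d ≤ Real.exp (-η) ^ d := by
      rw [← Real.exp_nat_mul]
      have h2 : (d : ℝ) * -η = -(η * d) := by ring
      rw [h2]
      have h3 : V0 * vr D ^ d ≤ V0 * Real.exp (-(η * d)) := by linarith
      exact le_of_mul_le_mul_left h3 hV0pos
    exact (pow_le_pow_iff_left₀ (hnn D) (Real.exp_pos _).le hd.ne').mp h1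
  have hbm := hBM d hd A (closedBall (0 : E d) 1) hA (isCompact_closedBall _ _) hAn
    ⟨0, mem_closedBall_self zero_le_one⟩ (δ / (1 + δ)) ht0.le ht1.le
  rw [hB1, mul_one] at hbm
  have h1 : (1 - δ / (1 + δ)) * vr A + δ / (1 + δ) ≤ vr D := hbm.trans (hmono _ _ hsub hDfin)
  have h2 := GBM_num ht0 ht1 (hnn D) hη hy h1
  rw [hAr, hDr]
  have h3 : vr A ^ d ≤ (vr D * Real.exp (-(δ / (1 + δ) * (Real.exp η - 1)))) ^ d :=
    pow_le_pow_left₀ (hnn A) h2 d
  rw [mul_pow, ← Real.exp_nat_mul] at h3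
  have h4 : (d : ℝ) * -(δ / (1 + δ) * (Real.exp η - 1)) =
      -(δ / (1 + δ) * (Real.exp η - 1) * d) := by ring
  rw [h4] at h3
  calc V0 * vr A ^ d
      ≤ V0 * (vr D ^ d * Real.exp (-(δ / (1 + δ) * (Real.exp η - 1) * d))) :=
        mul_le_mul_of_nonneg_left h3 hV0pos.le
    _ = Real.exp (-(δ / (1 + δ) * (Real.exp η - 1) * d)) * (V0 * vr D ^ d) := by ring

end Pool.Agent.Lib.MP_0c1c75_co.KPI
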