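import Pool.Agent.Lib.MP_0c1c75_co.KPI.SpecG

/-!
# MP_0c1c75_co, project KPI, part G: the Minkowski combination (seat helper25)
-/

set_option autoImplicit false

open MeasureTheory Set Metric
open scoped Pointwise

namespace Pool.Agent.Lib.MP_0c1c75_co.KPI

private lemma GInc_um {d : ℕ} (v x : E d) (hv : 0 < ‖v‖) :
    ‖v‖ * inner ℝ (um v) x = -inner ℝ v x := by
  unfold um
  rw [real_inner_smul_left]
  field_simp

private lemma GInc_norm {d : ℕ} (v : E d) (hv : 0 < ‖v‖) : ‖um v‖ = 1 := by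
  unfold um
  rw [norm_smul, norm_neg, norm_inv, norm_norm]
  field_simp

/-- The Minkowski combination. -/
theorem sGInc : S_GInc := by
  intro d N b δ q1 r I J hb hδ hIJ hJ hnet z hz
  rw [Set.mem_add] at hz
  obtain ⟨a, ha, c, hc, rfl⟩ := hz
  rw [Set.mem_smul_set] at ha hc
  obtain ⟨x, ⟨hx1, j, hj, hxj⟩, rfl⟩ := ha
  obtain ⟨y, hy, rfl⟩ := hc
  have hy1 : ‖y‖ ≤ 1 := by
    rw [mem_closedBall, dist_zero_right] at hy
    exact hy
  have h1δ : 0 < 1 + δ := by linarith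
  obtain ⟨t, ht⟩ : ∃ t : ℝ, t = δ / (1 + δ) := ⟨_, rfl⟩
  rw [← ht]
  have ht0 : 0 ≤ t := by
    rw [ht]
    exact div_nonneg hδ.le h1δ.le
  have ht1 : (1 - t) * (1 + δ) = 1 := by
    rw [ht]
    field_simp
    ring
  have ht2 : t * (1 + δ) = δ := by
    rw [ht]
    field_simp
  have ht3 : 0 ≤ 1 - t := by
    by_contra h
    have h' : 1 - t < 0 := not_le.1 h
    have := mul_neg_of_neg_of_pos h' h1δ
    linarith
  obtain ⟨i, hi, him, hik⟩ := hnet j hj
  obtain ⟨hj0, hj1, hj2, hj3⟩ := hJ j hj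
  obtain ⟨hi0, hi1, hi2, hi3⟩ := hJ i (hIJ hi)
  have hz1 : ‖(1 - t) • x + t • y‖ ≤ 1 := by
    refine (norm_add_le _ _).trans ?_
    rw [norm_smul, norm_smul, Real.norm_eq_abs, Real.norm_eq_abs, abs_of_nonneg ht3,
      abs_of_nonneg ht0]
    nlinarith
  refine ⟨hz1, i, hi, ?_⟩
  have hxj' : kap (b • q1 j) (r j) - δ / 4 ≤ inner ℝ (um (q1 j)) x := by
    have e1 : (kap (b • q1 j) (r j) - δ / 4) * ‖b • q1 j‖ ≤ -inner ℝ (b • q1 j) x := hxj
    rw [norm_smul, Real.norm_eq_abs, abs_of_pos hb, real_inner_smul_left] at e1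
    have e2 := GInc_um (q1 j) x hj0
    have e3 : (kap (b • q1 j) (r j) - δ / 4) * (b * ‖q1 j‖) ≤
        inner ℝ (um (q1 j)) x * (b * ‖q1 j‖) := by
      refine e1.trans (le_of_eq ?_)
      have : -(b * inner ℝ (q1 j) x) = b * -inner ℝ (q1 j) x := by ring
      rw [this, ← e2]
      ring
    exact le_of_mul_le_mul_right e3 (mul_pos hb hj0)
  have hdiff : inner ℝ (um (q1 j)) x - inner ℝ (um (q1 i)) x ≤ δ / 4 := by
    rw [← inner_sub_left]
    refine (real_inner_le_norm _ _).trans ?_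
    calc ‖um (q1 j) - um (q1 i)‖ * ‖x‖ ≤ δ / 4 * 1 :=
          mul_le_mul him hx1 (norm_nonneg _) (by linarith)
      _ = δ / 4 := mul_one _
  have hky : kap (q1 i) (r i) - kap (q1 j) (r j) ≤ δ / 4 := by
    have := neg_abs_le (kap (q1 j) (r j) - kap (q1 i) (r i))
    linarith
  have hx2 : kap (q1 i) (r i) + 4 * δ - 3 * δ / 4 ≤ inner ℝ (um (q1 i)) x := by linarith
  have hy2 : -1 ≤ inner ℝ (um (q1 i)) y := by
    have e1 := abs_real_inner_le_norm (um (q1 i)) y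
    rw [GInc_norm (q1 i) hi0, one_mul] at e1
    have e2 := neg_abs_le (inner ℝ (um (q1 i)) y)
    linarith
  have hz2 : kap (q1 i) (r i) + δ < inner ℝ (um (q1 i)) ((1 - t) • x + t • y) := by
    rw [inner_add_right, real_inner_smul_right, real_inner_smul_right]
    have e1 : (1 - t) * (kap (q1 i) (r i) + 4 * δ - 3 * δ / 4) ≤
        (1 - t) * inner ℝ (um (q1 i)) x := mul_le_mul_of_nonneg_left hx2 ht3
    have e2 : t * (-1) ≤ t * inner ℝ (um (q1 i)) y := mul_le_mul_of_nonneg_left hy2 ht0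
    have e3 : (kap (q1 i) (r i) + δ) * (1 + δ) <
        ((1 - t) * (kap (q1 i) (r i) + 4 * δ - 3 * δ / 4) + t * (-1)) * (1 + δ) := by
      have e4 : ((1 - t) * (kap (q1 i) (r i) + 4 * δ - 3 * δ / 4) + t * (-1)) * (1 + δ) =
          ((1 - t) * (1 + δ)) * (kap (q1 i) (r i) + 4 * δ - 3 * δ / 4) - t * (1 + δ) := by ring
      rw [e4, ht1, ht2]
      have e5 : δ * (kap (q1 i) (r i) + δ) ≤ δ * 1 := mul_le_mul_of_nonneg_left hi2 hδ.le
      nlinarith
    have e6 := lt_of_mul_lt_mul_right e3 h1δ.le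
    linarith
  have hfin : (kap (q1 i) (r i) + δ) * ‖(1 - t) • x + t • y‖ <
      inner ℝ (um (q1 i)) ((1 - t) • x + t • y) := by
    refine lt_of_le_of_lt ?_ hz2
    calc (kap (q1 i) (r i) + δ) * ‖(1 - t) • x + t • y‖ ≤ (kap (q1 i) (r i) + δ) * 1 :=
          mul_le_mul_of_nonneg_left hz1 (by linarith)
      _ = kap (q1 i) (r i) + δ := mul_one _
  rw [← GInc_um (q1 i) _ hi0]
  calc (kap (q1 i) (r i) + δ) * (‖q1 i‖ * ‖(1 - t) • x + t • y‖)
      = ‖q1 i‖ * ((kap (q1 i) (r i) + δ) * ‖(1 - t) • x + t • y‖) := by ring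
    _ < ‖q1 i‖ * inner ℝ (um (q1 i)) ((1 - t) • x + t • y) :=
        mul_lt_mul_of_pos_left hfin hi0

end Pool.Agent.Lib.MP_0c1c75_co.KPI
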