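import Pool.Agent.Lib.MP_0c1c75_co.KPI.SpecG

/-!
# MP_0c1c75_co, project KPI: the net
-/

set_option autoImplicit false

open MeasureTheory Set Metric
open scoped Pointwise

namespace Pool.Agent.Lib.MP_0c1c75_co.KPI

/-- A separated family in the ball of radius two is small. -/
private theorem GNet_pack {d N : ℕ} (v : Fin N → E d) (I : Finset (Fin N)) (η : ℝ) (hη : 0 < η)
    (hv : ∀ i ∈ I, ‖v i‖ ≤ 2) (hs : ∀ i ∈ I, ∀ j ∈ I, i ≠ j → η < ‖v i - v j‖) :
    (I.card : ℝ) ≤ (1 + 4 / η) ^ d := by
  have hd : ∀ (x : E d) (r : ℝ), 0 < r →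
      volume (ball x r) = ENNReal.ofReal (r ^ d) * volume (ball (0 : E d) 1) := by
    intro x r hr
    rw [Measure.addHaar_ball_of_pos volume x hr]
    simp
  have hpos : 0 < volume (ball (0 : E d) 1) := measure_ball_pos volume 0 one_pos
  have hfin : volume (ball (0 : E d) 1) ≠ ⊤ := measure_ball_lt_top.ne
  have hdisj : (I : Set (Fin N)).PairwiseDisjoint fun i => ball (v i) (η / 2) := by
    intro i hi j hj hij
    refine ball_disjoint_ball ?_
    rw [dist_eq_norm]
    have := hs i hi j hj hij
    linarith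
  have h1 : volume (⋃ i ∈ I, ball (v i) (η / 2)) =
      (I.card : ENNReal) * (ENNReal.ofReal ((η / 2) ^ d) * volume (ball (0 : E d) 1)) := by
    rw [measure_biUnion_finset hdisj fun i _ => measurableSet_ball]
    rw [Finset.sum_congr rfl fun i _ => hd (v i) (η / 2) (by positivity), Finset.sum_const,
      nsmul_eq_mul]
  have h2 : (⋃ i ∈ I, ball (v i) (η / 2)) ⊆ ball (0 : E d) (2 + η / 2) := by
    refine iUnion₂_subset fun i hi x hx => ?_
    rw [mem_ball, dist_eq_norm] at hx
    rw [mem_ball_zero_iff]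
    calc ‖x‖ = ‖(x - v i) + v i‖ := by rw [sub_add_cancel]
      _ ≤ ‖x - v i‖ + ‖v i‖ := norm_add_le _ _
      _ < 2 + η / 2 := by linarith [hv i hi]
  have h3 := measure_mono (μ := volume) h2
  rw [h1, hd 0 (2 + η / 2) (by positivity), ← mul_assoc] at h3
  have h4 := (ENNReal.mul_le_mul_iff_left hpos.ne' hfin).1 h3
  rw [← ENNReal.ofReal_natCast, ← ENNReal.ofReal_mul (by positivity),
    ENNReal.ofReal_le_ofReal_iff (by positivity)] at h4
  have h5 : (2 + η / 2) ^ d = (1 + 4 / η) ^ d * (η / 2) ^ d := by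
    rw [← mul_pow]
    congr 1
    field_simp
    ring
  rw [h5] at h4
  exact le_of_mul_le_mul_right h4 (by positivity)

theorem sGNet : S_GNet := by
  intro h hh
  refine ⟨Real.log (1 + 4 / (h / 2)), Real.log_pos (by
    have : 0 < 4 / (h / 2) := by positivity
    linarith), ?_⟩
  intro d N m k J hJ
  classical
  obtain ⟨v, hv⟩ : ∃ v : Fin N → E d, v = fun i => (1 + k i) • m i := ⟨_, rfl⟩
  have hvn : ∀ i ∈ J, ‖v i‖ = 1 + k i := by
    intro i hi
    obtain ⟨h1, h2, h3⟩ := hJ i hi
    rw [hv]
    simp only [norm_smul, h1, mul_one, Real.norm_eq_abs]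
    exact abs_of_nonneg (by linarith)
  -- a maximal separated subset
  obtain ⟨I, hI, hImax⟩ := Finset.exists_max_image
    (J.powerset.filter fun I => ∀ i ∈ I, ∀ j ∈ I, i ≠ j → h / 2 < ‖v i - v j‖)
    Finset.card ⟨∅, by simp⟩
  rw [Finset.mem_filter, Finset.mem_powerset] at hI
  obtain ⟨hIJ, hIs⟩ := hI
  refine ⟨I, hIJ, ?_, ?_⟩
  · have h1 := GNet_pack v I (h / 2) (by positivity)
      (fun i hi => by rw [hvn i (hIJ hi)]; linarith [(hJ i (hIJ hi)).2.2]) hIs
    refine h1.trans (le_of_eq ?_)
    rw [mul_comm, Real.exp_nat_mul, Real.exp_log (by positivity)]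
  · intro j hj
    obtain ⟨i, hi, hij⟩ : ∃ i ∈ I, ‖v j - v i‖ ≤ h / 2 := by
      by_contra hcon
      push Not at hcon
      have hjI : j ∉ I := by
        intro hjI
        have := hcon j hjI
        rw [sub_self, norm_zero] at this
        linarith
      have h1 := hImax (insert j I) (by
        rw [Finset.mem_filter, Finset.mem_powerset]
        refine ⟨Finset.insert_subset hj hIJ, ?_⟩
        intro a ha b hb hab
        rw [Finset.mem_insert] at ha hb
        rcases ha with rfl | ha <;> rcases hb with rfl | hb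
        · exact absurd rfl hab
        · exact hcon b hb
        · rw [norm_sub_rev]
          exact hcon a ha
        · exact hIs a ha b hb hab)
      rw [Finset.card_insert_of_notMem hjI] at h1
      omega
    refine ⟨i, hi, ?_, ?_⟩
    · obtain ⟨h1, h2, h3⟩ := hJ i (hIJ hi)
      obtain ⟨h4, h5, h6⟩ := hJ j hj
      have h7 : |k j - k i| ≤ h / 2 := by
        have h8 := abs_norm_sub_norm_le (v j) (v i)
        rw [hvn j hj, hvn i (hIJ hi)] at h8
        have h9 : (1 + k j) - (1 + k i) = k j - k i := by ring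
        rw [h9] at h8
        exact h8.trans hij
      have h8 : (1 + k i) • (m j - m i) = (v j - v i) - (k j - k i) • m j := by
        rw [hv]
        module
      have h9 : (1 + k i) * ‖m j - m i‖ ≤ h := by
        have h10 : ‖(1 + k i) • (m j - m i)‖ ≤ ‖v j - v i‖ + ‖(k j - k i) • m j‖ := by
          rw [h8]
          exact norm_sub_le _ _
        rw [norm_smul, norm_smul, h4, mul_one, Real.norm_eq_abs, Real.norm_eq_abs,
          abs_of_nonneg (by linarith : 0 ≤ 1 + k i)] at h10
        linarith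
      nlinarith [norm_nonneg (m j - m i)]
    · have h8 := abs_norm_sub_norm_le (v j) (v i)
      rw [hvn j hj, hvn i (hIJ hi)] at h8
      have h9 : (1 + k j) - (1 + k i) = k j - k i := by ring
      rw [h9] at h8
      linarith

end Pool.Agent.Lib.MP_0c1c75_co.KPI
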