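import Pool.Agent.Lib.MP_0c1c75_co.KPI.SpecG

/-!
# MP_0c1c75_co, project KPI: heights of the balls of a class (algebra of `S_GNum`)
-/

set_option autoImplicit false

open MeasureTheory Set Metric

open scoped Pointwise

namespace Pool.Agent.Lib.MP_0c1c75_co.KPI

/-- The statement in terms of the lengths `t = ‖x‖`, `s = ‖y‖`. -/
private lemma GNum_real (b κ0 r t s : ℝ) (hb : 0 < b) (hb1 : b < 1) (hκ : 0 < κ0) (hr : 1 ≤ r)
    (ht0 : 0 ≤ t) (hs0 : 0 ≤ s) (hst : s ≤ b * t) (hk : κ0 ≤ (r ^ 2 - 1 - t ^ 2) / (2 * t))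
    (hrs : r < 1 + b * s) :
    0 < t ∧ 0 < s ∧ κ0 * t < s ∧ κ0 ≤ (r ^ 2 - 1 - s ^ 2) / (2 * s) ∧
      (r ^ 2 - 1 - s ^ 2) / (2 * s) < b ∧
      (r ^ 2 - 1 - s ^ 2) / (2 * s) + (1 - b) * κ0 ≤
        (r ^ 2 - 1 - (b * s) ^ 2) / (2 * (b * s)) ∧
      (r ^ 2 - 1 - (b * s) ^ 2) / (2 * (b * s)) < 1 := by
  have ht : 0 < t := by
    rcases ht0.lt_or_eq with h | h
    · exact h
    · exfalso
      rw [← h] at hk
      simp only [mul_zero, div_zero] at hk
      linarith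
  have hs : 0 < s := by
    by_contra h
    have h0 : s = 0 := le_antisymm (not_lt.mp h) hs0
    rw [h0, mul_zero, add_zero] at hrs
    linarith
  have hbs : 0 < b * s := mul_pos hb hs
  have hbt : b * t < t := by nlinarith
  have hst' : s < t := lt_of_le_of_lt hst hbt
  have hbss : b * s < s := by nlinarith
  have hA : r ^ 2 - 1 < 2 * (b * s) + (b * s) ^ 2 := by nlinarith
  have hk' : κ0 * (2 * t) ≤ r ^ 2 - 1 - t ^ 2 := by
    rwa [le_div_iff₀ (by positivity)] at hk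
  have hbst : (b * s) ^ 2 ≤ t ^ 2 := by
    have : b * s ≤ t := by linarith
    exact pow_le_pow_left₀ hbs.le this 2
  have h1 : κ0 * t < b * s := by nlinarith
  have hA0 : 0 < r ^ 2 - 1 := by nlinarith [mul_pos hκ ht, sq_nonneg t]
  have hmono : κ0 ≤ (r ^ 2 - 1 - s ^ 2) / (2 * s) := by
    rw [le_div_iff₀ (by positivity)]
    have h2 : 0 ≤ (t - s) * (r ^ 2 - 1 + s * t) :=
      mul_nonneg (by linarith) (by positivity)
    have h3 : κ0 * (2 * t) * s ≤ (r ^ 2 - 1 - t ^ 2) * s := mul_le_mul_of_nonneg_right hk' hs.le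
    have h4 : (r ^ 2 - 1 - t ^ 2) * s ≤ (r ^ 2 - 1 - s ^ 2) * t := by nlinarith
    have h5 : κ0 * (2 * s) * t ≤ (r ^ 2 - 1 - s ^ 2) * t := by nlinarith
    exact le_of_mul_le_mul_right h5 ht
  have hlt1 : (r ^ 2 - 1 - (b * s) ^ 2) / (2 * (b * s)) < 1 := by
    rw [div_lt_one (by positivity)]
    linarith
  have hkk : (r ^ 2 - 1 - s ^ 2) / (2 * s) ≤ b * ((r ^ 2 - 1 - (b * s) ^ 2) / (2 * (b * s))) := by
    have h6 : b * ((r ^ 2 - 1 - (b * s) ^ 2) / (2 * (b * s))) =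
        (r ^ 2 - 1 - (b * s) ^ 2) / (2 * s) := by
      field_simp
    rw [h6]
    apply div_le_div_of_nonneg_right _ (by positivity)
    have : (b * s) ^ 2 ≤ s ^ 2 := pow_le_pow_left₀ hbs.le hbss.le 2
    linarith
  refine ⟨ht, hs, by linarith, hmono, ?_, ?_, hlt1⟩
  · have := mul_lt_mul_of_pos_left hlt1 hb
    linarith
  · set k := (r ^ 2 - 1 - s ^ 2) / (2 * s) with hkdef
    set k2 := (r ^ 2 - 1 - (b * s) ^ 2) / (2 * (b * s)) with hk2def
    have h7 : κ0 ≤ b * k2 := le_trans hmono hkk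
    have h8 : 0 < k2 := by
      by_contra h
      have : b * k2 ≤ 0 := mul_nonpos_of_nonneg_of_nonpos hb.le (not_lt.mp h)
      linarith
    have h9 : b * k2 ≤ k2 := by nlinarith
    have h10 : (1 - b) * κ0 ≤ (1 - b) * k2 :=
      mul_le_mul_of_nonneg_left (by linarith) (by linarith)
    nlinarith

/-- `S_GNum`: heights of the balls of a class. -/
theorem sGNum : S_GNum := by
  intro d b κ0 r x y hb hb1 hκ hr hxy hk hrs
  have hn : ‖b • y‖ = b * ‖y‖ := by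
    rw [norm_smul, Real.norm_eq_abs, abs_of_pos hb]
  have h := GNum_real b κ0 r ‖x‖ ‖y‖ hb hb1 hκ hr (norm_nonneg x) (norm_nonneg y) hxy hk hrs
  obtain ⟨h1, h2, h3, h4, h5, h6, h7⟩ := h
  refine ⟨h1, h2, h3, h4, h5, ?_, ?_⟩
  · simp only [kap, hn]
    exact h6
  · simp only [kap, hn]
    exact h7

end Pool.Agent.Lib.MP_0c1c75_co.KPI
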