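import Pool.Agent.Lib.MP_0c1c75_co.KPI.SpecG

/-!
# MP_0c1c75_co, project KPI: from directions to half spaces
-/

set_option autoImplicit false

open MeasureTheory Set Metric
open scoped Pointwise

namespace Pool.Agent.Lib.MP_0c1c75_co.KPI

private theorem GShl_sub {d N : ℕ} (h : ℝ) (h0 : 0 < h) (q : Fin N → E d) (r : Fin N → ℝ)
    (J : Finset (Fin N)) (hJ : ∀ i ∈ J, 0 ≤ kap (q i) (r i) ∧ kap (q i) (r i) ≤ 1) :
    Dr q r J 0 ∩ {x | 1 - h < ‖x‖} ⊆ Vc q r J h := by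
  rintro x ⟨⟨hx1, i, hi, hx2⟩, hx3⟩
  refine ⟨hx1, i, hi, ?_⟩
  have hx4 : 1 - h < ‖x‖ := hx3
  obtain ⟨k0, k1⟩ := hJ i hi
  have hq : 0 ≤ ‖q i‖ := norm_nonneg _
  have e1 : kap (q i) (r i) * ‖q i‖ * (1 - h) ≤ kap (q i) (r i) * ‖q i‖ * ‖x‖ :=
    mul_le_mul_of_nonneg_left hx4.le (mul_nonneg k0 hq)
  have e2 : kap (q i) (r i) * (h * ‖q i‖) ≤ 1 * (h * ‖q i‖) :=
    mul_le_mul_of_nonneg_right k1 (mul_nonneg h0.le hq)
  have e3 : (kap (q i) (r i) + 0) * (‖q i‖ * ‖x‖) = kap (q i) (r i) * ‖q i‖ * ‖x‖ := by ring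
  rw [e3] at hx2
  have e4 : (kap (q i) (r i) - h) * ‖q i‖ =
      kap (q i) (r i) * ‖q i‖ * (1 - h) + kap (q i) (r i) * (h * ‖q i‖) - 1 * (h * ‖q i‖) := by
    ring
  linarith

theorem sGShl (hCon : S_GCon) : S_GShl := by
  intro h h0 h1
  have hρ0 : 0 < 1 - h := by linarith
  have hρ1 : 1 - h < 1 := by linarith
  have hlim := tendsto_pow_atTop_nhds_zero_of_lt_one hρ0.le hρ1
  obtain ⟨d1, hd1⟩ := Filter.eventually_atTop.1
    (hlim.eventually (Iio_mem_nhds (show (0 : ℝ) < 1 / 2 by norm_num)))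
  refine ⟨d1, fun d hd N q r J hJ => ?_⟩
  have hp : (1 - h) ^ d < 1 / 2 := hd1 d hd
  obtain ⟨hcomp, -, hvol⟩ := hCon d N q r J h
  obtain ⟨-, -, hvol0⟩ := hCon d N q r J 0
  have e1 := hvol0 (1 - h) hρ0 hρ1.le
  have e2 : volume.real (Dr q r J 0 ∩ {x | 1 - h < ‖x‖}) ≤ volume.real (Vc q r J h) :=
    measureReal_mono (GShl_sub h h0 q r J hJ) hcomp.measure_lt_top.ne
  have e3 : 0 ≤ volume.real (Dr q r J 0) := measureReal_nonneg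
  rw [e1] at e2
  nlinarith

end Pool.Agent.Lib.MP_0c1c75_co.KPI
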