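import Pool.Agent.Lib.MP_0c1c75_co.KPI.SpecG

/-!
# MP_0c1c75_co, project KPI: upper bound of the removed volume
-/

set_option autoImplicit false

open MeasureTheory Set Metric
open scoped Pointwise

namespace Pool.Agent.Lib.MP_0c1c75_co.KPI

private lemma GThk_kap {d : ℕ} {x : E d} {r : ℝ} (hx : 0 < ‖x‖) :
    2 * (kap x r * ‖x‖) = r ^ 2 - 1 - ‖x‖ ^ 2 := by
  unfold kap
  field_simp

private lemma GThk_fin {d N : ℕ} (q : Fin N → E d) (r : Fin N → ℝ) (J : Finset (Fin N)) :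
    volume (Dr q r J 0) ≠ ⊤ := by
  refine ((measure_mono (t := closedBall (0 : E d) 1) ?_).trans_lt
    measure_closedBall_lt_top).ne
  intro x hx
  rw [mem_closedBall_zero_iff]
  exact hx.1

theorem sGThk (hCon : S_GCon) : S_GThk := by
  intro d N q r J e hd he hJ hor
  have hd1 : (1 : ℝ) ≤ d := by exact_mod_cast hd
  set R : Set (E d) := {x : E d | ‖x‖ ^ 2 ≤ 1 + 0 ∧ ∃ i ∈ J, r i ^ 2 + 0 < ‖x - q i‖ ^ 2} with hR
  have hGt : Gt q r J 0 = volume.real R := rfl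
  have hx1 : ∀ x ∈ R, ‖x‖ ≤ 1 := by
    intro x hx
    have h1 : ‖x‖ ^ 2 ≤ 1 + 0 := hx.1
    nlinarith [norm_nonneg x]
  have hsub : R ⊆ Dr q r J 0 := by
    intro x hx
    have h1 := hx1 x hx
    obtain ⟨-, i, hi, h2⟩ := hx
    obtain ⟨h3, h4, h5⟩ := hJ i hi
    refine ⟨h1, i, hi, ?_⟩
    have h6 := GThk_kap (r := r i) h4
    have h7 : ‖x - q i‖ ^ 2 = ‖x‖ ^ 2 - 2 * inner ℝ (q i) x + ‖q i‖ ^ 2 := by
      rw [@norm_sub_sq_real, real_inner_comm]
    rw [h7] at h2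
    have h8 : kap (q i) (r i) * (‖q i‖ * ‖x‖) ≤ kap (q i) (r i) * ‖q i‖ := by
      have h9 : kap (q i) (r i) * ‖q i‖ * ‖x‖ ≤ kap (q i) (r i) * ‖q i‖ * 1 :=
        mul_le_mul_of_nonneg_left h1 (mul_nonneg h5 h4.le)
      linarith
    have h10 : ‖x‖ ^ 2 ≤ 1 := by nlinarith [norm_nonneg x]
    rw [add_zero]
    linarith
  have hfin := GThk_fin q r J
  rw [hGt]
  rcases le_or_gt (1 / 2) e with h | h
  · have h1 : volume.real R ≤ volume.real (Dr q r J 0) := measureReal_mono hsub hfin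
    have h2 : (1 : ℝ) ≤ 2 * d * e := by nlinarith
    have h3 : 0 ≤ volume.real (Dr q r J 0) := measureReal_nonneg
    nlinarith
  · have hq : ∀ i ∈ J, ‖q i‖ ≤ 2 * e := by
      rcases hor with h1 | h1
      · exact h1
      · exfalso; rw [h1] at h; norm_num at h
    have hsub2 : R ⊆ Dr q r J 0 ∩ {x | 1 - 2 * e < ‖x‖} := by
      intro x hx
      refine ⟨hsub hx, ?_⟩
      obtain ⟨-, i, hi, h2⟩ := hx
      obtain ⟨h3, h4, h5⟩ := hJ i hi
      have h6 : r i < ‖x - q i‖ := by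
        refine lt_of_pow_lt_pow_left₀ 2 (norm_nonneg _) ?_
        linarith
      have h7 : ‖x - q i‖ ≤ ‖x‖ + ‖q i‖ := norm_sub_le _ _
      have h8 := hq i hi
      show 1 - 2 * e < ‖x‖
      linarith
    have h1 := (hCon d N q r J 0).2.2 (1 - 2 * e) (by linarith) (by linarith)
    have h2 : volume.real R ≤ volume.real (Dr q r J 0 ∩ {x | 1 - 2 * e < ‖x‖}) :=
      measureReal_mono hsub2 (measure_ne_top_of_subset inter_subset_left hfin)
    rw [h1] at h2
    refine h2.trans (mul_le_mul_of_nonneg_right ?_ measureReal_nonneg)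
    have h3 := one_add_mul_le_pow (a := -(2 * e)) (by linarith) d
    have h4 : (1 + -(2 * e)) ^ d = (1 - 2 * e) ^ d := by ring
    rw [h4] at h3
    linarith

end Pool.Agent.Lib.MP_0c1c75_co.KPI
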