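import Pool.Agent.Lib.MP_0c1c75_co.KPI.SpecG

/-!
# MP_0c1c75_co, project KPI, part G: assembly of `S_Gain` from the statements of `SpecG`
-/

set_option autoImplicit false

open MeasureTheory Set Metric
open scoped Pointwise

namespace Pool.Agent.Lib.MP_0c1c75_co.KPI

/-- `um x` is a unit vector. -/
theorem gain_um_norm {d : ℕ} (x : E d) (hx : 0 < ‖x‖) : ‖um x‖ = 1 := by
  unfold um
  rw [norm_smul, norm_neg, norm_inv, norm_norm]
  exact inv_mul_cancel₀ hx.ne'

theorem sGain (hLow : S_LowG) (hNum : S_GNum) (hNet : S_GNet) (hCon : S_GCon) (hThk : S_GThk)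
    (hShl : S_GShl) (hInc : S_GInc) (hBM : S_GBM) : S_Gain := by
  intro b κ0 η hb0 hb1 hκ0 hη
  by_cases hκ1 : κ0 < 1
  swap
  · -- `J` is empty
    refine ⟨1, 1, 1, one_pos, one_pos, one_pos, 0, ?_⟩
    intro d _ N p q1 r J e hq hr hJ he he1 hIn
    have hJe : J = ∅ := by
      by_contra hne
      obtain ⟨i, hi⟩ := Finset.nonempty_iff_ne_empty.mpr hne
      obtain ⟨-, -, -, h4, h5, -, -⟩ := hNum d b κ0 (r i) (p i) (q1 i) hb0 hb1 hκ0 (hr i) (hq i)
        (hJ i hi).1 (hJ i hi).2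
      linarith [not_lt.mp hκ1]
    subst hJe
    refine ⟨∅, Finset.Subset.refl _, by simpa using (Real.exp_pos _).le, fun _ => ?_⟩
    have h0 : ∀ q : Fin N → E d, Gt q r ∅ 0 = 0 := by
      intro q
      unfold Gt
      simp
    rw [h0, h0]
    simp
  have hδ : 0 < (1 - b) * κ0 / 4 := by
    have : 0 < 1 - b := by linarith
    positivity
  obtain ⟨δ, hδdef⟩ : ∃ δ : ℝ, δ = (1 - b) * κ0 / 4 := ⟨_, rfl⟩
  rw [← hδdef] at hδ
  have hδ1 : δ < 1 / 4 := by
    rw [hδdef]
    have : (1 - b) * κ0 < 1 := by nlinarith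
    linarith
  have h4δ : (1 - b) * κ0 = 4 * δ := by rw [hδdef]; ring
  obtain ⟨K, hK0, hK⟩ := hNet (δ / 4) (by positivity)
  obtain ⟨ds, hds⟩ := hShl (δ / 4) (by positivity) (by linarith)
  obtain ⟨d2, hd2⟩ := exists_nat_ge ((2 / (δ * κ0)) / (η / 2))
  refine ⟨δ / (1 + δ) * (Real.exp (η / 2) - 1), 8 / (δ * κ0), K, ?_, by positivity, hK0,
    max 1 (max ds d2), ?_⟩
  · have h1 : 0 < Real.exp (η / 2) - 1 := by
      have := Real.add_one_le_exp (η / 2)
      linarith
    positivity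
  intro d hd N p q1 r J e hq hr hJ he he1 hIn
  have hd1 : 1 ≤ d := le_trans (le_max_left _ _) hd
  have hdd : ds ≤ d := le_trans (le_trans (le_max_left _ _) (le_max_right _ _)) hd
  have hdd2 : d2 ≤ d := le_trans (le_trans (le_max_right _ _) (le_max_right _ _)) hd
  have hd0 : 0 < d := hd1
  have hdR : (0 : ℝ) < d := by exact_mod_cast hd0
  have hnum : ∀ i ∈ J, 0 < ‖p i‖ ∧ 0 < ‖q1 i‖ ∧ κ0 * ‖p i‖ < ‖q1 i‖ ∧ κ0 ≤ kap (q1 i) (r i) ∧
      kap (q1 i) (r i) < b ∧ kap (q1 i) (r i) + (1 - b) * κ0 ≤ kap (b • q1 i) (r i) ∧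
      kap (b • q1 i) (r i) < 1 := fun i hi =>
    hNum d b κ0 (r i) (p i) (q1 i) hb0 hb1 hκ0 (hr i) (hq i) (hJ i hi).1 (hJ i hi).2
  obtain ⟨I, hIJ, hIc, hIn2⟩ := hK d N (fun i => um (q1 i)) (fun i => kap (q1 i) (r i)) J
    (fun i hi => by
      obtain ⟨-, h2, -, h4, h5, -, -⟩ := hnum i hi
      exact ⟨gain_um_norm _ h2, by linarith, by linarith⟩)
  refine ⟨I, hIJ, hIc, fun hG => ?_⟩
  -- lower bound of `Gt q1 r I 0`
  have hlow : δ * (κ0 * e) / 2 * volume.real (Dr q1 r I δ) ≤ Gt q1 r I 0 := by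
    refine (hLow d N q1 r I hd0).2.1 δ (κ0 * e) hδ (by linarith) (by positivity) ?_ ?_
    · nlinarith
    · intro i hi
      obtain ⟨-, -, h3, -, -, -, -⟩ := hnum i (hIJ hi)
      have h6 : e < ‖p i‖ := (hIn i (hIJ hi)).1
      have h7 : κ0 * e < κ0 * ‖p i‖ := mul_lt_mul_of_pos_left h6 hκ0
      linarith
  have hV0 : 0 ≤ volume.real (Dr q1 r I δ) := measureReal_nonneg
  have hom : 0 ≤ om d := measureReal_nonneg
  -- the volume of `V` is exponentially small
  have hexp : 2 / (δ * κ0) ≤ Real.exp (η / 2 * d) := by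
    have h1 : (2 / (δ * κ0)) / (η / 2) ≤ d := le_trans hd2 (by exact_mod_cast hdd2)
    rw [div_le_iff₀ (by positivity)] at h1
    have h2 := Real.add_one_le_exp (η / 2 * d)
    linarith
  have hVs : volume.real (Dr q1 r I δ) ≤ 2 / (δ * κ0 * e) * Gt q1 r I 0 := by
    rw [div_mul_eq_mul_div, le_div_iff₀ (by positivity)]
    nlinarith [hlow]
  have hVsm : volume.real (Dr q1 r I δ) ≤ Real.exp (-(η / 2 * d)) * om d := by
    have h1 : 2 / (δ * κ0 * e) * Gt q1 r I 0 ≤
        2 / (δ * κ0 * e) * (Real.exp (-(η * d)) * (e * om d)) :=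
      mul_le_mul_of_nonneg_left hG (by positivity)
    have h2 : 2 / (δ * κ0 * e) * (Real.exp (-(η * d)) * (e * om d)) =
        2 / (δ * κ0) * (Real.exp (-(η * d)) * om d) := by
      field_simp
    have h3 : 2 / (δ * κ0) * (Real.exp (-(η * d)) * om d) ≤
        Real.exp (η / 2 * d) * (Real.exp (-(η * d)) * om d) :=
      mul_le_mul_of_nonneg_right hexp (by positivity)
    have h4 : Real.exp (η / 2 * d) * (Real.exp (-(η * d)) * om d) =
        Real.exp (-(η / 2 * d)) * om d := by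
      rw [← mul_assoc, ← Real.exp_add]
      congr 2
      ring
    linarith
  -- the gain
  have hDsub : Dr q1 r I δ ⊆ closedBall 0 1 := by
    intro x hx
    rw [mem_closedBall_zero_iff]
    exact hx.1
  have hinc := hInc d N b δ q1 r I J hb0 hδ hIJ
    (fun i hi => by
      obtain ⟨-, h2, -, h4, h5, h6, -⟩ := hnum i hi
      refine ⟨h2, by linarith, ?_, by linarith⟩
      have h8 : (1 - b) * κ0 < 1 - b := by nlinarith
      linarith)
    (fun j hj => by
      obtain ⟨i, hi, h1, h2⟩ := hIn2 j hj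
      exact ⟨i, hi, h1, h2⟩)
  have hgain := hBM d (η / 2) δ (Vc (fun i => b • q1 i) r J (δ / 4)) (Dr q1 r I δ) hd0
    (by positivity) hδ (hCon d N (fun i => b • q1 i) r J (δ / 4)).1 hDsub hinc hVsm
  -- upper bound
  have hkb : ∀ i ∈ J, 0 ≤ kap (b • q1 i) (r i) ∧ kap (b • q1 i) (r i) ≤ 1 := fun i hi => by
    obtain ⟨-, -, -, h4, -, h6, h7⟩ := hnum i hi
    exact ⟨by linarith, h7.le⟩
  have hthk : Gt (fun i => b • q1 i) r J 0 ≤
      2 * d * e * volume.real (Dr (fun i => b • q1 i) r J 0) := by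
    refine hThk d N (fun i => b • q1 i) r J e hd0 he (fun i hi => ?_) ?_
    · obtain ⟨-, h2, -, -, -, -, -⟩ := hnum i hi
      refine ⟨hr i, ?_, (hkb i hi).1⟩
      show 0 < ‖b • q1 i‖
      rw [norm_smul]
      have : 0 < ‖b‖ := norm_pos_iff.mpr hb0.ne'
      positivity
    · by_cases he2 : e = 1
      · exact Or.inr he2
      · left
        intro i hi
        have h3 : ‖p i‖ ≤ 2 * e := (hIn i hi).2.resolve_right he2
        show ‖b • q1 i‖ ≤ 2 * e
        rw [norm_smul, Real.norm_eq_abs, abs_of_pos hb0]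
        have h4 := hq i
        have h5 : 0 ≤ ‖q1 i‖ := norm_nonneg _
        have h6 : 0 ≤ ‖p i‖ := norm_nonneg _
        nlinarith
  have hshl := hds d hdd N (fun i => b • q1 i) r J hkb
  have h1 : 2 * d * e * volume.real (Dr (fun i => b • q1 i) r J 0) ≤
      2 * d * e * (2 * volume.real (Vc (fun i => b • q1 i) r J (δ / 4))) :=
    mul_le_mul_of_nonneg_left hshl (by positivity)
  have h2 : 2 * d * e * (2 * volume.real (Vc (fun i => b • q1 i) r J (δ / 4))) ≤
      2 * d * e * (2 * (Real.exp (-(δ / (1 + δ) * (Real.exp (η / 2) - 1) * d)) *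
        volume.real (Dr q1 r I δ))) :=
    mul_le_mul_of_nonneg_left (mul_le_mul_of_nonneg_left hgain (by norm_num)) (by positivity)
  have h3 : 2 * d * e * (2 * (Real.exp (-(δ / (1 + δ) * (Real.exp (η / 2) - 1) * d)) *
        volume.real (Dr q1 r I δ))) ≤
      2 * d * e * (2 * (Real.exp (-(δ / (1 + δ) * (Real.exp (η / 2) - 1) * d)) *
        (2 / (δ * κ0 * e) * Gt q1 r I 0))) :=
    mul_le_mul_of_nonneg_left (mul_le_mul_of_nonneg_left
      (mul_le_mul_of_nonneg_left hVs (Real.exp_pos _).le) (by norm_num)) (by positivity)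
  have h4 : 2 * d * e * (2 * (Real.exp (-(δ / (1 + δ) * (Real.exp (η / 2) - 1) * d)) *
        (2 / (δ * κ0 * e) * Gt q1 r I 0))) =
      8 / (δ * κ0) * d * Real.exp (-(δ / (1 + δ) * (Real.exp (η / 2) - 1) * d)) *
        Gt q1 r I 0 := by
    field_simp
    ring
  linarith

end Pool.Agent.Lib.MP_0c1c75_co.KPI
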