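import Pool.Agent.Lib.MP_0c1c75_co.KPI.SpecA

/-!
# MP_0c1c75_co, project KPI: growth of the coverage functions
-/

set_option autoImplicit false

open MeasureTheory Set Metric

namespace Pool.Agent.Lib.MP_0c1c75_co.KPI

theorem sGrw (hCel : S_Cel) (hCBM : S_CBM) : S_Grw := by
  intro d I c zr z z' hd hc hcz hz hz' hI
  have hzr : 0 < zr := lt_trans (by positivity) hcz
  obtain ⟨ρ, hρ⟩ : ∃ ρ, ρ = Real.sqrt zr := ⟨_, rfl⟩
  have hρ0 : 0 < ρ := by rw [hρ]; exact Real.sqrt_pos.2 hzr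
  have hρ2 : ρ ^ 2 = zr := by rw [hρ]; exact Real.sq_sqrt hzr.le
  have hcρ : c < ρ := by
    by_contra h
    have := pow_le_pow_left₀ hρ0.le (not_lt.1 h) 2
    linarith
  have hn : ∀ n ∈ I, 0 < ‖n‖ ∧ 0 < ρ * ‖n‖ - 1 := by
    intro n hn
    have h1 : 0 < ‖n‖ := lt_of_lt_of_le (by positivity) (hI n hn)
    refine ⟨h1, ?_⟩
    have h2 := hI n hn
    rw [div_le_iff₀ hc] at h2
    nlinarith
  have hα : ∀ n ∈ I, 0 < (ρ * ‖n‖ - 1)⁻¹ := fun n h => inv_pos.2 (hn n h).2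
  obtain ⟨h1, -, h3⟩ := hCel d I (fun n => (ρ * ‖n‖ - 1)⁻¹) hd hα
  rw [← h3 z', ← h3 z, Finset.mul_sum]
  refine Finset.sum_le_sum fun n hnI => ?_
  refine (hCBM d _ hd (h1 n).1 (h1 n).2).2 zr z z' hz hz' ⟨(ρ / ‖n‖) • n, ⟨?_, fun m hm => ?_⟩, ?_⟩
  · rw [inner_smul_right, real_inner_self_eq_norm_sq]
    have := (hn n hnI).2
    have h4 : ρ / ‖n‖ * ‖n‖ ^ 2 = ρ * ‖n‖ := by
      have := (hn n hnI).1
      field_simp
    rw [h4]
    exact this.le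
  · have h4 : inner ℝ n ((ρ / ‖n‖) • n) = ρ * ‖n‖ := by
      rw [inner_smul_right, real_inner_self_eq_norm_sq]
      have := (hn n hnI).1
      field_simp
    have h5 : ‖(ρ / ‖n‖) • n‖ = ρ := by
      rw [norm_smul, Real.norm_eq_abs, abs_of_pos (div_pos hρ0 (hn n hnI).1)]
      have := (hn n hnI).1
      field_simp
    have h6 : inner ℝ m ((ρ / ‖n‖) • n) ≤ ρ * ‖m‖ := by
      have := real_inner_le_norm m ((ρ / ‖n‖) • n)
      rw [h5] at this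
      linarith
    simp only
    rw [h4, inv_mul_cancel₀ (hn n hnI).2.ne']
    calc (ρ * ‖m‖ - 1)⁻¹ * (inner ℝ m ((ρ / ‖n‖) • n) - 1)
        ≤ (ρ * ‖m‖ - 1)⁻¹ * (ρ * ‖m‖ - 1) :=
          mul_le_mul_of_nonneg_left (by linarith) (hα m hm).le
      _ = 1 := inv_mul_cancel₀ (hn m hm).2.ne'
  · have h5 : ‖(ρ / ‖n‖) • n‖ = ρ := by
      rw [norm_smul, Real.norm_eq_abs, abs_of_pos (div_pos hρ0 (hn n hnI).1)]
      have := (hn n hnI).1
      field_simp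
    rw [h5, hρ2]

end Pool.Agent.Lib.MP_0c1c75_co.KPI
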