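import Pool.Agent.Lib.MP_0c1c75_co.KPI.SpecA

/-!
# MP_0c1c75_co, project KPI: the interpolation theorem, general weights (S_Int)
-/

set_option autoImplicit false

open MeasureTheory Set Metric

namespace Pool.Agent.Lib.MP_0c1c75_co.KPI

private theorem Int_fin {d : ℕ} (z : ℝ) (C : Set (E d)) : volume (C ∩ Bz d z) ≠ ⊤ := by
  have h1 : Bz d z ⊆ Metric.closedBall (0 : E d) (Real.sqrt z) := by
    intro x hx
    rw [mem_closedBall_zero_iff]
    exact Real.le_sqrt_of_sq_le hx
  exact ne_top_of_le_ne_top (measure_closedBall_lt_top (x := (0 : E d)) (r := Real.sqrt z)).ne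
    (measure_mono (inter_subset_right.trans h1))

private theorem Int_mono {d : ℕ} (z : ℝ) {J K : Finset (E d)} (h : J ⊆ K) : fv z J ≤ fv z K := by
  unfold fv lv
  refine measureReal_mono ?_ (Int_fin z _)
  rintro x ⟨⟨n, hn, hx⟩, h2⟩
  exact ⟨⟨n, h hn, hx⟩, h2⟩

private theorem Int_nonneg {d : ℕ} (z : ℝ) (J : Finset (E d)) : 0 ≤ fv z J := measureReal_nonneg

theorem sInt (hIntU : S_IntU) : S_Int := by
  classical
  intro d I w T z1 z2 l A B L hd hA hB hl0 hl1 hL hL1 hL2 hcard hne hw hF hG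
  set P : ℝ := (235008 * T ^ 7 * (4 * L) ^ 4) ^ 2 with hP
  have hP0 : 0 ≤ P := by positivity
  set z0 := (1 - l) * z1 + l * z2 with hz0
  have hAB : 0 < A ^ (1 - l) * B ^ l := by positivity
  have hTcast : (0 : ℝ) < (T : ℝ) + 1 := by positivity
  rcases (Finset.sum_nonneg fun n _ => hw n : 0 ≤ ∑ n ∈ I, w n).eq_or_lt with h0 | hpos
  · rw [← h0]
    have := Int_nonneg z0 I
    positivity
  have hIne : I.Nonempty := by
    rw [Finset.nonempty_iff_ne_empty]
    rintro rfl
    rw [Finset.sum_empty] at hpos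
    exact lt_irrefl _ hpos
  obtain ⟨m, hm, hmax⟩ := Finset.exists_max_image I w hIne
  have hW : 0 < w m := by
    by_contra hneg
    push Not at hneg
    have : ∑ n ∈ I, w n ≤ 0 := Finset.sum_nonpos fun n hn => (hmax n hn).trans hneg
    linarith
  have hWle : w m ≤ ∑ n ∈ I, w n := Finset.single_le_sum (fun n _ => hw n) hm
  let Ik : ℕ → Finset (E d) := fun k => I.filter fun n => w m / 2 ^ (k + 1) < w n ∧
    w n ≤ w m / 2 ^ k
  -- pointwise decomposition
  have hpt : ∀ n ∈ I, w n ≤ (∑ k ∈ Finset.range (T + 1), if n ∈ Ik k then w n else 0) +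
      w m / 2 ^ (T + 1) := by
    intro n hn
    by_cases hsmall : w n ≤ w m / 2 ^ (T + 1)
    · have : 0 ≤ ∑ k ∈ Finset.range (T + 1), (if n ∈ Ik k then w n else 0) := by
        refine Finset.sum_nonneg fun k _ => ?_
        split_ifs
        · exact hw n
        · exact le_rfl
      linarith
    · push Not at hsmall
      have hex : ∃ k, w m / 2 ^ (k + 1) < w n := ⟨T, hsmall⟩
      have hkT : Nat.find hex ≤ T := Nat.find_min' hex hsmall
      have hk1 := Nat.find_spec hex
      have hk2 : w n ≤ w m / 2 ^ (Nat.find hex) := by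
        rcases Nat.eq_zero_or_pos (Nat.find hex) with h | h
        · rw [h, pow_zero, div_one]
          exact hmax n hn
        · have h3 := Nat.find_min hex (m := Nat.find hex - 1) (by omega)
          rw [show Nat.find hex - 1 + 1 = Nat.find hex by omega] at h3
          exact not_lt.1 h3
      have hmem : n ∈ Ik (Nat.find hex) := by
        rw [Finset.mem_filter]
        exact ⟨hn, hk1, hk2⟩
      have h4 : w n ≤ ∑ k ∈ Finset.range (T + 1), (if n ∈ Ik k then w n else 0) := by
        refine le_trans ?_ (Finset.single_le_sum (f := fun k => if n ∈ Ik k then w n else 0)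
          (fun k _ => ?_) (Finset.mem_range.2 (Nat.lt_succ_of_le hkT)))
        · simp only [if_pos hmem]
          exact le_rfl
        · split_ifs
          · exact hw n
          · exact le_rfl
      have h5 : 0 ≤ w m / 2 ^ (T + 1) := by positivity
      linarith
  have hsum : ∑ n ∈ I, w n ≤ (∑ k ∈ Finset.range (T + 1), ∑ n ∈ Ik k, w n) +
      I.card * (w m / 2 ^ (T + 1)) := by
    refine (Finset.sum_le_sum hpt).trans ?_
    rw [Finset.sum_add_distrib, Finset.sum_const, nsmul_eq_mul, Finset.sum_comm]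
    have : ∀ k, ∑ n ∈ I, (if n ∈ Ik k then w n else 0) = ∑ n ∈ Ik k, w n := by
      intro k
      rw [← Finset.sum_filter]
      congr 1
      ext n
      simp only [Finset.mem_filter, Ik]
      tauto
    rw [Finset.sum_congr rfl fun k _ => this k]
  have hlast : (I.card : ℝ) * (w m / 2 ^ (T + 1)) ≤ (∑ n ∈ I, w n) / 2 := by
    have h1 : (I.card : ℝ) ≤ 2 ^ T := by exact_mod_cast hcard.le
    calc (I.card : ℝ) * (w m / 2 ^ (T + 1)) ≤ 2 ^ T * (w m / 2 ^ (T + 1)) :=
          mul_le_mul_of_nonneg_right h1 (by positivity)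
      _ = w m / 2 := by rw [pow_succ]; field_simp
      _ ≤ _ := by linarith
  obtain ⟨k, -, hk⟩ := Finset.exists_le_of_sum_le
    (s := Finset.range (T + 1)) (f := fun _ => (∑ n ∈ I, w n) / (2 * ((T : ℝ) + 1)))
    (g := fun k => ∑ n ∈ Ik k, w n) ⟨0, by simp⟩ (by
      rw [Finset.sum_const, Finset.card_range, nsmul_eq_mul]
      push_cast
      have : ((T : ℝ) + 1) * ((∑ n ∈ I, w n) / (2 * ((T : ℝ) + 1))) = (∑ n ∈ I, w n) / 2 := by
        field_simp
      rw [this]
      linarith)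
  rw [div_le_iff₀ (by positivity)] at hk
  have hIkI : Ik k ⊆ I := Finset.filter_subset _ _
  set v : ℝ := w m / 2 ^ (k + 1) with hv
  have hv0 : 0 < v := by positivity
  have hIkne : (Ik k).Nonempty := by
    rw [Finset.nonempty_iff_ne_empty]
    intro h
    rw [h, Finset.sum_empty, zero_mul] at hk
    linarith
  have hlow : ∀ J ⊆ Ik k, (J.card : ℝ) * v ≤ ∑ n ∈ J, w n := by
    intro J hJ
    rw [← nsmul_eq_mul, ← Finset.sum_const]
    refine Finset.sum_le_sum fun n hn => ?_
    have := hJ hn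
    rw [Finset.mem_filter] at this
    exact this.2.1.le
  have hHall : ∀ (M z : ℝ), 0 < M → (∀ J ⊆ I, ∑ n ∈ J, w n ≤ M * fv z J) →
      ∀ J ⊆ Ik k, (J.card : ℝ) ≤ M / v * fv z J := by
    intro M z hM h J hJ
    rw [div_mul_eq_mul_div, le_div_iff₀ hv0]
    exact (hlow J hJ).trans (h J (hJ.trans hIkI))
  have key := hIntU d (Ik k) T z1 z2 l (A / v) (B / v) L hd (by positivity) (by positivity) hl0 hl1
    hL hL1 hL2 hIkne (lt_of_le_of_lt (Finset.card_le_card hIkI) hcard)
    (fun n hn => hne n (hIkI hn)) (hHall A z1 hA hF) (hHall B z2 hB hG)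
  rw [Real.div_rpow hA.le hv0.le, Real.div_rpow hB.le hv0.le, ← hP, ← hz0] at key
  have hvv : v ^ (1 - l) * v ^ l = v := by
    rw [← Real.rpow_add hv0]
    simp
  have hAv : A ^ (1 - l) / v ^ (1 - l) * (B ^ l / v ^ l) = A ^ (1 - l) * B ^ l / v := by
    rw [div_mul_div_comm, hvv]
  rw [hAv] at key
  have hup : ∑ n ∈ Ik k, w n ≤ (Ik k).card * (2 * v) := by
    rw [← nsmul_eq_mul, ← Finset.sum_const]
    refine Finset.sum_le_sum fun n hn => ?_
    rw [Finset.mem_filter] at hn
    refine hn.2.2.trans (le_of_eq ?_)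
    rw [hv, pow_succ]
    field_simp
  have h1 : ((Ik k).card : ℝ) * (2 * v) ≤ 16 * P * (A ^ (1 - l) * B ^ l * fv z0 I) := by
    calc ((Ik k).card : ℝ) * (2 * v)
        ≤ (8 * P * (A ^ (1 - l) * B ^ l / v * fv z0 (Ik k))) * (2 * v) :=
          mul_le_mul_of_nonneg_right key (by positivity)
      _ = 16 * P * (A ^ (1 - l) * B ^ l * fv z0 (Ik k)) := by field_simp; ring
      _ ≤ 16 * P * (A ^ (1 - l) * B ^ l * fv z0 I) := by
          apply mul_le_mul_of_nonneg_left _ (by positivity)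
          exact mul_le_mul_of_nonneg_left (Int_mono z0 hIkI) hAB.le
  calc ∑ n ∈ I, w n ≤ (∑ n ∈ Ik k, w n) * (2 * ((T : ℝ) + 1)) := hk
    _ ≤ (16 * P * (A ^ (1 - l) * B ^ l * fv z0 I)) * (2 * ((T : ℝ) + 1)) :=
        mul_le_mul_of_nonneg_right (hup.trans h1) (by positivity)
    _ = 32 * (T + 1) * P * (A ^ (1 - l) * B ^ l * fv z0 I) := by ring

end Pool.Agent.Lib.MP_0c1c75_co.KPI
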