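import Pool.Agent.Lib.MP_0c1c75_co.KPI.SpecA

/-!
# MP_0c1c75_co, project KPI: the interpolation theorem, equal weights
-/

set_option autoImplicit false

open MeasureTheory Set Metric

namespace Pool.Agent.Lib.MP_0c1c75_co.KPI

private lemma IntU_Bz_lt_top {d : ℕ} (z : ℝ) : volume (Bz d z) < ⊤ := by
  refine (measure_mono (t := closedBall (0 : E d) (Real.sqrt z)) ?_).trans_lt
    measure_closedBall_lt_top
  intro x hx
  have hx' : ‖x‖ ^ 2 ≤ z := hx
  rw [mem_closedBall_zero_iff]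
  exact Real.le_sqrt_of_sq_le hx'

private lemma IntU_fin {d : ℕ} (z : ℝ) {s : Set (E d)} (h : s ⊆ Bz d z) : volume s ≠ ⊤ :=
  ((measure_mono h).trans_lt (IntU_Bz_lt_top z)).ne

private lemma IntU_mono {d : ℕ} (z : ℝ) {J K : Finset (E d)} (h : J ⊆ K) : fv z J ≤ fv z K := by
  refine measureReal_mono (inter_subset_inter_left _ ?_) (IntU_fin z inter_subset_right)
  rintro x ⟨n, hn, hx⟩
  exact ⟨n, h hn, hx⟩

private lemma IntU_nonneg {d : ℕ} (z : ℝ) (J : Finset (E d)) : 0 ≤ fv z J := measureReal_nonneg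

open Classical in
private lemma IntU_sub {d : ℕ} (z : ℝ) (J K : Finset (E d)) :
    fv z (J ∪ K) ≤ fv z J + fv z K := by
  have h : Un (J ∪ K) ∩ Bz d z ⊆ (Un J ∩ Bz d z) ∪ (Un K ∩ Bz d z) := by
    rintro x ⟨⟨n, hn, hx⟩, hz⟩
    rcases Finset.mem_union.1 hn with h | h
    · exact Or.inl ⟨⟨n, h, hx⟩, hz⟩
    · exact Or.inr ⟨⟨n, h, hx⟩, hz⟩
  refine (measureReal_mono h ?_).trans (measureReal_union_le _ _)
  exact IntU_fin z (union_subset inter_subset_right inter_subset_right)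

private lemma IntU_half_meas {d : ℕ} (n : E d) : IsOpen {x : E d | 1 < inner ℝ n x} :=
  isOpen_lt continuous_const (by fun_prop)

private lemma IntU_Un_meas {d : ℕ} (J : Finset (E d)) : MeasurableSet (Un J) := by
  have h : Un J = ⋃ n ∈ J, {x : E d | 1 < inner ℝ n x} := by
    ext x
    simp [Un]
  rw [h]
  exact (isOpen_biUnion fun n _ => IntU_half_meas n).measurableSet

private lemma IntU_real {d : ℕ} {A : ℝ} (hA : 0 < A) (z : ℝ) (J : Finset (E d)) :
    (ENNReal.ofReal A • volume.restrict (Bz d z)).real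
      (Uh (fun n : E d => {x | 1 < inner ℝ n x}) J) = A * fv z J := by
  have hU : Uh (fun n : E d => {x | 1 < inner ℝ n x}) J = Un J := rfl
  rw [hU, measureReal_ennreal_smul_apply, ENNReal.toReal_ofReal hA.le,
    measureReal_restrict_apply (IntU_Un_meas J)]
  rfl

private lemma IntU_finite {d : ℕ} (A z : ℝ) :
    IsFiniteMeasure (ENNReal.ofReal A • volume.restrict (Bz d z) : Measure (E d)) := by
  have : IsFiniteMeasure (volume.restrict (Bz d z) : Measure (E d)) :=
    ⟨by rw [Measure.restrict_apply_univ]; exact IntU_Bz_lt_top z⟩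
  exact Measure.smul_finite _ ENNReal.ofReal_ne_top

/-- **The interpolation theorem, equal weights.** -/
theorem sIntU (hSel : S_Sel) (hTgt : S_Tgt) (hMid : S_Mid) : S_IntU := by
  classical
  intro d I T z1 z2 l A B L hd hA hB hl hl1 hL hLl hLl' hI hIT hI0 h1 h2
  obtain ⟨D, hDI, hD, A', B', hA', hB', hD1, hD2, hD3, hD4, hD5⟩ :=
    hTgt (E d) I (fv z1) (fv z2) A B l L hI hA hB hl hl1 hL hLl hLl'
      (fun J K h => IntU_mono z1 h) (fun J K h => IntU_mono z2 h)
      (IntU_sub z1) (IntU_sub z2) h1 h2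
  have hT1 : 1 ≤ T := by
    rcases Nat.eq_zero_or_pos T with h | h
    · subst h
      have h1 : 0 < I.card := Finset.card_pos.mpr hI
      rw [pow_zero] at hIT
      omega
    · exact h
  have hT1' : (1 : ℝ) ≤ T := by exact_mod_cast hT1
  set P : ℝ := 235008 * T ^ 7 * (4 * L) ^ 4 with hPdef
  have hP : 1 ≤ P := by
    have e1 : (1 : ℝ) ≤ (T : ℝ) ^ 7 := one_le_pow₀ hT1'
    have e2 : (1 : ℝ) ≤ (4 * L) ^ 4 := one_le_pow₀ (by linarith)
    have e3 : (1 : ℝ) ≤ 235008 * (T : ℝ) ^ 7 := by linarith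
    calc (1 : ℝ) = 1 * 1 := (one_mul 1).symm
      _ ≤ (235008 * (T : ℝ) ^ 7) * (4 * L) ^ 4 := mul_le_mul e3 e2 zero_le_one (by linarith)
  have := IntU_finite (d := d) A' z1
  have := IntU_finite (d := d) B' z2
  have hDT : D.card < 2 ^ T := (Finset.card_le_card hDI).trans_lt hIT
  have hD0 : ∀ n ∈ D, n ≠ 0 := fun n hn => hI0 n (hDI hn)
  have hsel := hSel (E d) (E d) (ENNReal.ofReal A' • volume.restrict (Bz d z1))
    (ENNReal.ofReal B' • volume.restrict (Bz d z2)) (fun n : E d => {x | 1 < inner ℝ n x}) T D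
    (4 * L) (fun n => (IntU_half_meas n).measurableSet) hD hDT
    (fun J hJ => by rw [IntU_real hA']; exact hD1 J hJ)
    (fun J hJ => by rw [IntU_real hB']; exact hD2 J hJ)
    (by rw [IntU_real hA']; exact hD3) (by rw [IntU_real hB']; exact hD4)
  have key : (D.card : ℝ) ≤
      2 * P ^ 2 * (A' ^ (1 - l) * B' ^ l * fv ((1 - l) * z1 + l * z2) D) := by
    rcases hsel with h | h
    · exact hMid d D z1 z2 l A' B' P hd hA' hB' hl hl1 hP hD0 h
    · have h3 := hMid d D z2 z1 (1 - l) B' A' P hd hB' hA' (by linarith) (by linarith) hP hD0 h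
      have e1 : 1 - (1 - l) = l := by ring
      rw [e1] at h3
      have e2 : l * z2 + (1 - l) * z1 = (1 - l) * z1 + l * z2 := by ring
      rw [e2] at h3
      calc (D.card : ℝ) ≤ 2 * P ^ 2 *
            (B' ^ l * A' ^ (1 - l) * fv ((1 - l) * z1 + l * z2) D) := h3
        _ = _ := by ring
  have hX : 0 < A ^ (1 - l) * B ^ l := mul_pos (Real.rpow_pos_of_pos hA _)
    (Real.rpow_pos_of_pos hB _)
  have hX' : 0 < A' ^ (1 - l) * B' ^ l := mul_pos (Real.rpow_pos_of_pos hA' _)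
    (Real.rpow_pos_of_pos hB' _)
  have hq : (D.card : ℝ) / (A' ^ (1 - l) * B' ^ l) ≤
      2 * P ^ 2 * fv ((1 - l) * z1 + l * z2) D := by
    rw [div_le_iff₀ hX']
    calc (D.card : ℝ) ≤ _ := key
      _ = _ := by ring
  rw [div_le_iff₀ hX] at hD5
  have hm : fv ((1 - l) * z1 + l * z2) D ≤ fv ((1 - l) * z1 + l * z2) I := IntU_mono _ hDI
  calc (I.card : ℝ) ≤ 4 * (D.card / (A' ^ (1 - l) * B' ^ l)) * (A ^ (1 - l) * B ^ l) := hD5
    _ ≤ 4 * (2 * P ^ 2 * fv ((1 - l) * z1 + l * z2) I) * (A ^ (1 - l) * B ^ l) := by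
        refine mul_le_mul_of_nonneg_right (mul_le_mul_of_nonneg_left (hq.trans ?_) (by norm_num))
          hX.le
        exact mul_le_mul_of_nonneg_left hm (by positivity)
    _ = 8 * P ^ 2 * (A ^ (1 - l) * B ^ l * fv ((1 - l) * z1 + l * z2) I) := by ring

end Pool.Agent.Lib.MP_0c1c75_co.KPI
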