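import Pool.Agent.Lib.MP_0c1c75_co.KPI.SpecH

/-!
# MP_0c1c75_co, project KPI: the theorem (helper34)
-/

set_option autoImplicit false

open MeasureTheory Set Metric

namespace Pool.Agent.Lib.MP_0c1c75_co.KPI

theorem sKPI (hReg : S_Reg) (hAsm : S_Asm) : S_KPI := by
  intro c hc
  have h1 : (0 : ℝ) < max c (1 / 2) := lt_max_of_lt_right (by norm_num)
  have h2 : max c (1 / 2) < 1 := max_lt hc (by norm_num)
  obtain ⟨c2, hc2, h⟩ := hReg (max c (1 / 2)) h1 h2
  obtain ⟨d0, h0⟩ := h (hAsm (max c (1 / 2)) c2 h1 h2 hc2)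
  exact ⟨d0, fun d hd N p q r hr hcon => h0 d hd N p q r hr fun i j =>
    (hcon i j).trans (mul_le_mul_of_nonneg_right (le_max_left _ _) dist_nonneg)⟩

end Pool.Agent.Lib.MP_0c1c75_co.KPI
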