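import Pool.Agent.Lib.MP_0c1c75_co.KPI.SpecH

set_option autoImplicit false

/-!
# Classes
-/

open MeasureTheory Set Metric

namespace Pool.Agent.Lib.MP_0c1c75_co.KPI

/-- the smallest `k` with `2^(-k) < x` -/
private theorem Kk_find (x : ℝ) (hx : 0 < x) : ∃ k : ℕ, (1 / 2 : ℝ) ^ k < x ∧
    ∀ j : ℕ, j < k → x ≤ (1 / 2 : ℝ) ^ j := by
  classical
  have h : ∃ k : ℕ, (1 / 2 : ℝ) ^ k < x := exists_pow_lt_of_lt_one hx (by norm_num)
  exact ⟨Nat.find h, Nat.find_spec h, fun j hj => not_lt.1 (Nat.find_min h hj)⟩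

/-- **Classes.** -/
theorem sKk : S_Kk := by
  constructor
  · intro x hx
    obtain ⟨k, hk, hk'⟩ := Kk_find x hx
    refine ⟨k, hk, ?_⟩
    cases k with
    | zero => exact Or.inr (pow_zero _)
    | succ m =>
      left
      have h := hk' m (Nat.lt_succ_self m)
      rw [pow_succ]
      linarith
  · intro P C hP hC
    obtain ⟨k0, hk0, hk0'⟩ := Kk_find P hP
    refine ⟨k0, fun x k hx hxP hxC => ?_⟩
    have hle : k0 ≤ k := by
      by_contra h
      have h1 := hk0' k (not_le.1 h)
      exact absurd (lt_of_le_of_lt h1 hx.1) (not_lt.2 hxP)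
    refine ⟨hle, ?_⟩
    by_cases hk : k = 0
    · subst hk
      have : (0 : ℝ) ≤ k0 := Nat.cast_nonneg _
      push_cast
      linarith
    · have h1 : (1 / 2 : ℝ) ^ k ≠ 1 := by
        intro h
        have : (1 / 2 : ℝ) ^ k < 1 := pow_lt_one₀ (by norm_num) (by norm_num) hk
        exact absurd h this.ne
      have h2 : x ≤ 2 * (1 / 2) ^ k := hx.2.resolve_right h1
      have h3 : (1 / 2 : ℝ) ^ k0 ≤ min P 1 :=
        le_min hk0.le (pow_le_one₀ (by norm_num) (by norm_num))
      obtain ⟨n, rfl⟩ := Nat.exists_eq_add_of_le hle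
      have h4 : (1 / 2 : ℝ) ^ k0 * Real.exp (-C) < 2 * ((1 / 2) ^ k0 * (1 / 2) ^ n) := by
        rw [← pow_add]
        exact (mul_le_mul_of_nonneg_right h3 (Real.exp_pos _).le).trans_lt (hxC.trans_le h2)
      have h5 : (0 : ℝ) < (1 / 2) ^ k0 := by positivity
      have h6 : Real.exp (-C) < 2 * (1 / 2) ^ n := by
        have h7 : (1 / 2 : ℝ) ^ k0 * Real.exp (-C) < (1 / 2 : ℝ) ^ k0 * (2 * (1 / 2) ^ n) := by
          linarith
        exact lt_of_mul_lt_mul_left h7 h5.le
      have h8 : -C < Real.log 2 - n * Real.log 2 := by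
        have h9 : Real.log (Real.exp (-C)) < Real.log (2 * (1 / 2) ^ n) :=
          Real.log_lt_log (Real.exp_pos _) h6
        rw [Real.log_exp, Real.log_mul (by norm_num) (by positivity), Real.log_pow, one_div,
          Real.log_inv] at h9
        linarith
      have h10 := Real.log_two_gt_d9
      have h11 : (n : ℝ) ≤ 1 + 3 / 2 * C := by
        by_contra h12
        have h13 : 1 + 3 / 2 * C < (n : ℝ) := not_le.1 h12
        have h14 : (3 / 2 * C) * (2 / 3) ≤ (n - 1) * Real.log 2 :=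
          mul_le_mul (by linarith) (by linarith) (by norm_num) (by linarith)
        linarith
      push_cast
      linarith

end Pool.Agent.Lib.MP_0c1c75_co.KPI
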