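import Pool.Agent.Lib.MP_0c1c75_co.KPI.SpecA

set_option autoImplicit false

open MeasureTheory Set Metric

namespace Pool.Agent.Lib.MP_0c1c75_co.KPI

private theorem Lay_bad_sub {X ι : Type} [MeasurableSpace X] (μ : Measure X) (H : ι → Set X)
    (T : ℕ) (J : Finset ι) : bad μ H T J ⊆ J := by
  unfold bad
  exact Finset.filter_subset _ _

private theorem Lay_it_sub {X ι : Type} [MeasurableSpace X] (μ : Measure X) (H : ι → Set X)
    (T : ℕ) (J : Finset ι) (k : ℕ) : (bad μ H T)^[k] J ⊆ J := by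
  induction k with
  | zero => simp
  | succ k ih =>
    rw [Function.iterate_succ_apply']
    exact (Lay_bad_sub μ H T _).trans ih

private theorem Lay_mlt_mono {X ι : Type} (H : ι → Set X) {J K : Finset ι} (h : J ⊆ K) (x : X) :
    mlt H J x ≤ mlt H K x := by
  classical
  unfold mlt
  apply Finset.card_le_card
  intro i hi
  rw [Finset.mem_filter] at hi ⊢
  exact ⟨h hi.1, hi.2⟩

private theorem Lay_not_bad {X ι : Type} [MeasurableSpace X] (μ : Measure X) (H : ι → Set X)
    (T : ℕ) (J : Finset ι) (i : ι) (hi : i ∈ J) (hb : i ∉ bad μ H T J) :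
    ∃ s < T, (2 : ℝ) ^ s / (8 * (T : ℝ)) ≤ μ.real (H i ∩ {x | mlt H J x < 2 ^ (s + 1)}) := by
  unfold bad at hb
  rw [Finset.mem_filter] at hb
  by_contra hc
  push Not at hc
  exact hb ⟨hi, fun s hs => hc s hs⟩

theorem sLay (hA : S_LayA) (hB : S_LayB) : S_Lay := by
  intro X ι _ μ _ H T J L hm hne hcard hall htop
  classical
  have hT : 0 < T := by
    rcases Nat.eq_zero_or_pos T with h | h
    · subst h
      have := hne.card_pos
      rw [pow_zero] at hcard
      omega
    · exact h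
  have hTr : (0 : ℝ) < T := by exact_mod_cast hT
  have hJ : 0 < (J.card : ℝ) := by exact_mod_cast hne.card_pos
  obtain ⟨Jk, hJk⟩ : ∃ Jk : ℕ → Finset ι, Jk = fun k => (bad μ H T)^[k] J := ⟨_, rfl⟩
  have hz : Jk 0 = J := by rw [hJk]; rfl
  have hsub : ∀ k, Jk k ⊆ J := fun k => by rw [hJk]; exact Lay_it_sub μ H T J k
  have hstep : ∀ k, Jk (k + 1) = bad μ H T (Jk k) := fun k => by
    rw [hJk]; exact Function.iterate_succ_apply' _ _ _
  have hA' : ∀ k, 3 / 4 * ((Jk k).card : ℝ) ≤ μ.real (Vs μ H T (Jk k)) := fun k =>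
    hA X ι μ H T (Jk k) hm hT ((Finset.card_le_card (hsub k)).trans_lt hcard) (hall _ (hsub k))
  have hB' : ∀ n, ∑ k ∈ Finset.range n, μ.real (Vs μ H T (Jk k)) ≤ T * μ.real (Uh H J) :=
    fun n => by rw [hJk]; exact hB X ι μ H T J hm hcard n
  have hn : ∀ n : ℕ, (∀ k < n, J.card ≤ 2 * (Jk k).card) → (3 / 8 : ℝ) * n ≤ T * L := by
    intro n h
    have h1 : ∑ k ∈ Finset.range n, (3 / 8 * (J.card : ℝ)) ≤
        ∑ k ∈ Finset.range n, μ.real (Vs μ H T (Jk k)) := by
      apply Finset.sum_le_sum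
      intro k hk
      have h2 := h k (Finset.mem_range.1 hk)
      have h3 : (J.card : ℝ) ≤ 2 * (Jk k).card := by exact_mod_cast h2
      linarith [hA' k]
    rw [Finset.sum_const, Finset.card_range, nsmul_eq_mul] at h1
    have h2 := hB' n
    have h3 : (T : ℝ) * μ.real (Uh H J) ≤ T * (L * J.card) := by gcongr
    have h4 : ((3 / 8 : ℝ) * n) * J.card ≤ (T * L) * J.card := by
      calc ((3 / 8 : ℝ) * n) * J.card = n * (3 / 8 * (J.card : ℝ)) := by ring
        _ ≤ T * (L * J.card) := h1.trans (h2.trans h3)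
        _ = (T * L) * J.card := by ring
    exact le_of_mul_le_mul_right h4 hJ
  have hex : ∃ k, 2 * (Jk k).card < J.card := by
    by_contra hc
    push Not at hc
    obtain ⟨n, hn'⟩ := exists_nat_gt (T * L / (3 / 8) : ℝ)
    have := hn n (fun k _ => hc k)
    rw [div_lt_iff₀ (by norm_num)] at hn'
    linarith
  obtain ⟨K, hK, hKmin⟩ : ∃ K, 2 * (Jk K).card < J.card ∧
      ∀ k < K, J.card ≤ 2 * (Jk k).card :=
    ⟨Nat.find hex, Nat.find_spec hex, fun k hk => not_lt.1 (Nat.find_min hex hk)⟩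
  have hK8 := hn K hKmin
  have hK0 : 0 < K := by
    rcases Nat.eq_zero_or_pos K with h | h
    · subst h
      rw [hz] at hK
      have := hne.card_pos
      omega
    · exact h
  have hKr : (0 : ℝ) < K := by exact_mod_cast hK0
  have hL : 0 < L := by
    by_contra hc
    push Not at hc
    have : (T : ℝ) * L ≤ 0 := mul_nonpos_of_nonneg_of_nonpos hTr.le hc
    linarith
  -- a step with a large drop
  obtain ⟨k, hk, hdrop⟩ : ∃ k < K, (J.card : ℝ) ≤
      2 * K * (((Jk k).card : ℝ) - (Jk (k + 1)).card) := by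
    by_contra hc
    push Not at hc
    have h1 : ∑ k ∈ Finset.range K, (2 * K * (((Jk k).card : ℝ) - (Jk (k + 1)).card)) <
        ∑ k ∈ Finset.range K, (J.card : ℝ) := by
      apply Finset.sum_lt_sum_of_nonempty (Finset.nonempty_range_iff.2 hK0.ne')
      intro k hk
      exact hc k (Finset.mem_range.1 hk)
    rw [← Finset.mul_sum, Finset.sum_range_sub', Finset.sum_const, Finset.card_range,
      nsmul_eq_mul, hz] at h1
    have h2 : (2 : ℝ) * (Jk K).card < J.card := by exact_mod_cast hK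
    have h3 : (K : ℝ) * (J.card : ℝ) < K * (2 * ((J.card : ℝ) - (Jk K).card)) := by
      apply mul_lt_mul_of_pos_left _ hKr
      linarith
    linarith
  have hGcard : ((Jk k \ Jk (k + 1)).card : ℝ) = ((Jk k).card : ℝ) - (Jk (k + 1)).card := by
    have h1 : Jk (k + 1) ⊆ Jk k := by rw [hstep]; exact Lay_bad_sub μ H T _
    have h2 := Finset.card_sdiff_add_card_eq_card h1
    have h3 : ((Jk k \ Jk (k + 1)).card : ℝ) + (Jk (k + 1)).card = (Jk k).card := by
      exact_mod_cast h2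
    linarith
  have hs : ∀ i, ∃ s, i ∈ Jk k \ Jk (k + 1) → s < T ∧
      (2 : ℝ) ^ s / (8 * (T : ℝ)) ≤ μ.real (H i ∩ {x | mlt H (Jk k) x < 2 ^ (s + 1)}) := by
    intro i
    by_cases hi : i ∈ Jk k \ Jk (k + 1)
    · rw [Finset.mem_sdiff, hstep] at hi
      obtain ⟨s, hs, h⟩ := Lay_not_bad μ H T (Jk k) i hi.1 hi.2
      exact ⟨s, fun _ => ⟨hs, h⟩⟩
    · exact ⟨0, fun h => absurd h hi⟩
  choose σ hσ using hs
  obtain ⟨s, hsT, hfib⟩ : ∃ s ∈ Finset.range T, ((Jk k \ Jk (k + 1)).card : ℝ) / T ≤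
      (((Jk k \ Jk (k + 1)).filter fun i => σ i = s).card : ℝ) := by
    apply Finset.exists_le_card_fiber_of_nsmul_le_card_of_maps_to
    · intro i hi
      exact Finset.mem_range.2 (hσ i hi).1
    · exact Finset.nonempty_range_iff.2 hT.ne'
    · rw [Finset.card_range, nsmul_eq_mul, mul_div_cancel₀ _ hTr.ne']
  obtain ⟨J1, hJ1⟩ : ∃ J1, J1 = (Jk k \ Jk (k + 1)).filter fun i => σ i = s := ⟨_, rfl⟩
  rw [← hJ1, div_le_iff₀ hTr, hGcard] at hfib
  have hJ1sub : J1 ⊆ Jk k := by
    rw [hJ1]; exact (Finset.filter_subset _ _).trans Finset.sdiff_subset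
  have hmain : (J.card : ℝ) ≤ 6 * T ^ 2 * L * J1.card := by
    have h1 : (J.card : ℝ) ≤ 2 * K * (J1.card * T) :=
      hdrop.trans (mul_le_mul_of_nonneg_left hfib (by positivity))
    have h2 : (2 : ℝ) * K ≤ 2 * (8 / 3 * (T * L)) := by linarith
    calc (J.card : ℝ) ≤ 2 * K * (J1.card * T) := h1
      _ ≤ 2 * (8 / 3 * (T * L)) * (J1.card * T) :=
        mul_le_mul_of_nonneg_right h2 (by positivity)
      _ = 16 / 3 * (T ^ 2 * L * J1.card) := by ring
      _ ≤ 6 * (T ^ 2 * L * J1.card) := by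
        apply mul_le_mul_of_nonneg_right (by norm_num) (by positivity)
      _ = 6 * T ^ 2 * L * J1.card := by ring
  refine ⟨J1, hJ1sub.trans (hsub k), ?_, s, Finset.mem_range.1 hsT, hmain, ?_⟩
  · by_contra hc
    rw [Finset.not_nonempty_iff_eq_empty] at hc
    rw [hc, Finset.card_empty, Nat.cast_zero, mul_zero] at hmain
    linarith
  · intro i hi
    rw [hJ1, Finset.mem_filter] at hi
    have h1 := (hσ i hi.1).2
    rw [hi.2] at h1
    refine h1.trans (measureReal_mono ?_ (measure_ne_top _ _))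
    intro x hx
    exact ⟨hx.1, lt_of_le_of_lt (Lay_mlt_mono H hJ1sub x) hx.2⟩

end Pool.Agent.Lib.MP_0c1c75_co.KPI
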