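import Pool.Agent.Lib.MP_0c1c75_co.KPI.SpecA

/-!
# MP_0c1c75_co, project KPI: one step of the layering
-/

set_option autoImplicit false

open MeasureTheory Set Metric

namespace Pool.Agent.Lib.MP_0c1c75_co.KPI

open Classical in
private theorem LayA_mlt_eq {X ι : Type} (H : ι → Set X) (J : Finset ι) (x : X) :
    mlt H J x = ∑ i ∈ J, if x ∈ H i then 1 else 0 := by
  unfold mlt
  rw [Finset.card_filter]

private theorem LayA_meas {X ι : Type} [MeasurableSpace X] (H : ι → Set X) (J : Finset ι)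
    (hH : ∀ i, MeasurableSet (H i)) : Measurable (mlt H J) := by
  classical
  have h1 : mlt H J = fun x => ∑ i ∈ J, if x ∈ H i then 1 else 0 := by
    funext x
    exact LayA_mlt_eq H J x
  rw [h1]
  exact Finset.measurable_fun_sum J fun i _ => Measurable.ite (hH i) measurable_const
    measurable_const

private theorem LayA_Uh {X ι : Type} [MeasurableSpace X] (H : ι → Set X) (J : Finset ι)
    (hH : ∀ i, MeasurableSet (H i)) : MeasurableSet (Uh H J) := by
  have h1 : Uh H J = ⋃ i ∈ J, H i := by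
    ext x
    simp [Uh]
  rw [h1]
  exact J.measurableSet_biUnion fun i _ => hH i

private theorem LayA_pt {X ι : Type} [MeasurableSpace X] (μ : Measure X) (H : ι → Set X) (T : ℕ)
    (J : Finset ι) (hT : J.card < 2 ^ T) (x : X) :
    (Uh H J \ Vs μ H T J).indicator (fun _ => (1 : ℝ)) x ≤
      ∑ i ∈ bad μ H T J, ∑ s ∈ Finset.range T, (2 / 2 ^ s) *
        (H i ∩ {x | mlt H J x < 2 ^ (s + 1)}).indicator (fun _ => (1 : ℝ)) x := by
  classical
  have hnn : ∀ i ∈ bad μ H T J, ∀ s ∈ Finset.range T, (0 : ℝ) ≤ (2 / 2 ^ s) *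
      (H i ∩ {x | mlt H J x < 2 ^ (s + 1)}).indicator (fun _ => (1 : ℝ)) x := by
    intro i _ s _
    refine mul_nonneg (by positivity) ?_
    exact Set.indicator_nonneg (fun _ _ => zero_le_one) x
  by_cases hx : x ∈ Uh H J \ Vs μ H T J
  · rw [Set.indicator_of_mem hx]
    obtain ⟨hxU, hxV⟩ := hx
    have hm2 : mlt H J x ≤ 2 * mlt H (bad μ H T J) x := by
      by_contra h
      exact hxV ⟨hxU, not_le.1 h⟩
    have hm1 : 0 < mlt H J x := by
      obtain ⟨i, hi, hxi⟩ := hxU
      unfold mlt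
      exact Finset.card_pos.2 ⟨i, by rw [Finset.mem_filter]; exact ⟨hi, hxi⟩⟩
    have hmJ : mlt H J x ≤ J.card := by
      unfold mlt
      exact Finset.card_filter_le _ _
    obtain ⟨s0, hs0⟩ : ∃ s0, s0 = Nat.log 2 (mlt H J x) := ⟨_, rfl⟩
    have hlo : 2 ^ s0 ≤ mlt H J x := by
      rw [hs0]
      exact Nat.pow_log_le_self 2 hm1.ne'
    have hhi : mlt H J x < 2 ^ (s0 + 1) := by
      rw [hs0]
      exact Nat.lt_pow_succ_log_self (by norm_num) _
    have hsT : s0 < T := by
      by_contra h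
      have h1 : 2 ^ T ≤ 2 ^ s0 := Nat.pow_le_pow_right (by norm_num) (not_lt.1 h)
      omega
    calc (1 : ℝ) ≤ (2 / 2 ^ s0) * (mlt H (bad μ H T J) x : ℝ) := by
          have h1 : (2 ^ s0 : ℝ) ≤ 2 * (mlt H (bad μ H T J) x : ℝ) := by
            exact_mod_cast hlo.trans hm2
          rw [div_mul_eq_mul_div, le_div_iff₀ (by positivity), one_mul]
          exact h1
      _ = ∑ i ∈ bad μ H T J, (2 / 2 ^ s0) *
          (H i ∩ {x | mlt H J x < 2 ^ (s0 + 1)}).indicator (fun _ => (1 : ℝ)) x := by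
          rw [LayA_mlt_eq, Nat.cast_sum, Finset.mul_sum]
          refine Finset.sum_congr rfl fun i _ => ?_
          congr 1
          by_cases hxi : x ∈ H i
          · have hx2 : x ∈ H i ∩ {x | mlt H J x < 2 ^ (s0 + 1)} := ⟨hxi, hhi⟩
            rw [if_pos hxi, Set.indicator_of_mem hx2, Nat.cast_one]
          · rw [if_neg hxi, Set.indicator_of_notMem (fun h => hxi h.1), Nat.cast_zero]
      _ ≤ _ := by
          refine Finset.sum_le_sum fun i hi => ?_
          exact Finset.single_le_sum (f := fun s => (2 / 2 ^ s : ℝ) *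
            (H i ∩ {x | mlt H J x < 2 ^ (s + 1)}).indicator (fun _ => (1 : ℝ)) x)
            (hnn i hi) (Finset.mem_range.2 hsT)
  · rw [Set.indicator_of_notMem hx]
    exact Finset.sum_nonneg fun i hi => Finset.sum_nonneg (hnn i hi)

theorem sLayA : S_LayA := by
  classical
  intro X ι _ μ _ H T J hH hT hJT hJ
  have hmm := LayA_meas H J hH
  have hmb := LayA_meas H (bad μ H T J) hH
  have hU := LayA_Uh H J hH
  have hV : MeasurableSet (Vs μ H T J) := by
    have h1 : Vs μ H T J = Uh H J ∩ {x | 2 * mlt H (bad μ H T J) x < mlt H J x} := rfl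
    rw [h1]
    exact hU.inter (measurableSet_lt (hmb.const_mul 2) hmm)
  have hVU : Vs μ H T J ⊆ Uh H J := fun x hx => hx.1
  have hS : ∀ i s, MeasurableSet (H i ∩ {x | mlt H J x < 2 ^ (s + 1)}) := fun i s =>
    (hH i).inter (measurableSet_lt hmm measurable_const)
  have hTr : (0 : ℝ) < T := by exact_mod_cast hT
  have h1 : μ.real (Uh H J \ Vs μ H T J) ≤ ∑ i ∈ bad μ H T J, ∑ s ∈ Finset.range T,
      (2 / 2 ^ s) * μ.real (H i ∩ {x | mlt H J x < 2 ^ (s + 1)}) := by
    have h2 : μ.real (Uh H J \ Vs μ H T J) =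
        ∫ x, (Uh H J \ Vs μ H T J).indicator (fun _ => (1 : ℝ)) x ∂μ := by
      rw [integral_indicator_const _ (hU.diff hV), smul_eq_mul, mul_one]
    have hint : ∀ i s, Integrable (fun x => (2 / 2 ^ s : ℝ) *
        (H i ∩ {x | mlt H J x < 2 ^ (s + 1)}).indicator (fun _ => (1 : ℝ)) x) μ := fun i s =>
      ((integrable_const (1 : ℝ)).indicator (hS i s)).const_mul _
    have h3 : ∑ i ∈ bad μ H T J, ∑ s ∈ Finset.range T,
        (2 / 2 ^ s) * μ.real (H i ∩ {x | mlt H J x < 2 ^ (s + 1)}) =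
        ∫ x, ∑ i ∈ bad μ H T J, ∑ s ∈ Finset.range T, (2 / 2 ^ s) *
          (H i ∩ {x | mlt H J x < 2 ^ (s + 1)}).indicator (fun _ => (1 : ℝ)) x ∂μ := by
      rw [integral_finsetSum _ fun i _ => integrable_finsetSum _ fun s _ => hint i s]
      refine Finset.sum_congr rfl fun i _ => ?_
      rw [integral_finsetSum _ fun s _ => hint i s]
      refine Finset.sum_congr rfl fun s _ => ?_
      rw [integral_const_mul, integral_indicator_const _ (hS i s), smul_eq_mul, mul_one]
    rw [h2, h3]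
    refine integral_mono ((integrable_const (1 : ℝ)).indicator (hU.diff hV))
      (integrable_finsetSum _ fun i _ => integrable_finsetSum _ fun s _ => hint i s)
      (LayA_pt μ H T J hJT)
  have h4 : ∑ i ∈ bad μ H T J, ∑ s ∈ Finset.range T,
      (2 / 2 ^ s) * μ.real (H i ∩ {x | mlt H J x < 2 ^ (s + 1)}) ≤
      ∑ _i ∈ bad μ H T J, (1 / 4 : ℝ) := by
    refine Finset.sum_le_sum fun i hi => ?_
    unfold bad at hi
    rw [Finset.mem_filter] at hi
    calc ∑ s ∈ Finset.range T, (2 / 2 ^ s) * μ.real (H i ∩ {x | mlt H J x < 2 ^ (s + 1)})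
        ≤ ∑ _s ∈ Finset.range T, (1 / (4 * T) : ℝ) := by
          refine Finset.sum_le_sum fun s hs => ?_
          have h5 := hi.2 s (Finset.mem_range.1 hs)
          calc (2 / 2 ^ s) * μ.real (H i ∩ {x | mlt H J x < 2 ^ (s + 1)})
              ≤ (2 / 2 ^ s) * (2 ^ s / (8 * T)) :=
                mul_le_mul_of_nonneg_left h5.le (by positivity)
            _ = 1 / (4 * T) := by
                field_simp
                norm_num
      _ = 1 / 4 := by
          rw [Finset.sum_const, Finset.card_range, nsmul_eq_mul]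
          field_simp
  have h6 : ∑ _i ∈ bad μ H T J, (1 / 4 : ℝ) ≤ J.card / 4 := by
    rw [Finset.sum_const, nsmul_eq_mul]
    have h7 : (bad μ H T J).card ≤ J.card := by
      unfold bad
      exact Finset.card_filter_le _ _
    have h8 : ((bad μ H T J).card : ℝ) ≤ J.card := by exact_mod_cast h7
    linarith
  have h9 : μ.real (Uh H J \ Vs μ H T J) = μ.real (Uh H J) - μ.real (Vs μ H T J) :=
    measureReal_sdiff hVU hV
  linarith

end Pool.Agent.Lib.MP_0c1c75_co.KPI
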