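import Pool.Agent.Lib.MP_0c1c75_co.KPI.SpecA

/-!
# MP_0c1c75_co, project KPI: a point is in few of the sets `Vs`
-/

set_option autoImplicit false

open MeasureTheory Set Metric

namespace Pool.Agent.Lib.MP_0c1c75_co.KPI

variable {X ι : Type}

private theorem LayB_mlt_mono (H : ι → Set X) {J K : Finset ι} (h : J ⊆ K) (x : X) :
    mlt H J x ≤ mlt H K x := by
  classical
  exact Finset.card_le_card (Finset.filter_subset_filter _ h)

private theorem LayB_mlt_meas [MeasurableSpace X] (H : ι → Set X)
    (hH : ∀ i, MeasurableSet (H i)) (J : Finset ι) : Measurable (mlt H J) := by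
  classical
  have h : mlt H J = fun x => ∑ i ∈ J, (if x ∈ H i then 1 else 0) := by
    funext x
    unfold mlt
    rw [Finset.card_filter]
  rw [h]
  exact Finset.measurable_sum _ fun i _ =>
    Measurable.ite (hH i) measurable_const measurable_const

private theorem LayB_Uh_meas [MeasurableSpace X] (H : ι → Set X)
    (hH : ∀ i, MeasurableSet (H i)) (J : Finset ι) : MeasurableSet (Uh H J) := by
  have h : Uh H J = ⋃ i ∈ J, H i := by
    ext x
    simp [Uh]
  rw [h]
  exact Finset.measurableSet_biUnion _ fun i _ => hH i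

private theorem LayB_Vs_meas [MeasurableSpace X] (μ : Measure X) (H : ι → Set X)
    (hH : ∀ i, MeasurableSet (H i)) (T : ℕ) (J : Finset ι) : MeasurableSet (Vs μ H T J) := by
  have h1 : MeasurableSet {x | 2 * mlt H (bad μ H T J) x < mlt H J x} :=
    measurableSet_lt ((LayB_mlt_meas H hH _).const_mul 2) (LayB_mlt_meas H hH J)
  exact (LayB_Uh_meas H hH J).inter h1

private theorem LayB_size {a b : ℕ} (h : 2 * a < b) : Nat.size a + 1 ≤ Nat.size b := by
  rw [Nat.succ_le_iff, Nat.lt_size]
  rcases Nat.eq_zero_or_pos (Nat.size a) with h0 | h0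
  · rw [h0]
    simp only [pow_zero]
    omega
  · obtain ⟨t, ht⟩ : ∃ t, Nat.size a = t + 1 := ⟨Nat.size a - 1, by omega⟩
    have h1 : 2 ^ t ≤ a := Nat.lt_size.1 (by omega)
    rw [ht, pow_succ]
    omega

private theorem LayB_bad_sub [MeasurableSpace X] (μ : Measure X) (H : ι → Set X) (T : ℕ)
    (J : Finset ι) : bad μ H T J ⊆ J := by
  classical
  unfold bad
  exact Finset.filter_subset _ _

open Classical in
private theorem LayB_point [MeasurableSpace X] (μ : Measure X) (H : ι → Set X) (T : ℕ)
    (J : Finset ι) (x : X) (n : ℕ) :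
    ∑ k ∈ Finset.range n, (if x ∈ Vs μ H T ((bad μ H T)^[k] J) then 1 else 0)
      + Nat.size (mlt H ((bad μ H T)^[n] J) x) ≤ Nat.size (mlt H J x) := by
  induction n with
  | zero => simp
  | succ n ih =>
    rw [Finset.sum_range_succ, Function.iterate_succ_apply']
    set K := (bad μ H T)^[n] J with hK
    have key : (if x ∈ Vs μ H T K then 1 else 0) + Nat.size (mlt H (bad μ H T K) x)
        ≤ Nat.size (mlt H K x) := by
      split_ifs with hx
      · have := LayB_size hx.2
        omega
      · have := Nat.size_le_size (LayB_mlt_mono H (LayB_bad_sub μ H T K) x)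
        omega
    omega

theorem sLayB : S_LayB := by
  classical
  intro X ι _ μ _ H T J hH hT n
  have hV : ∀ k, MeasurableSet (Vs μ H T ((bad μ H T)^[k] J)) := fun k =>
    LayB_Vs_meas μ H hH T _
  have hU := LayB_Uh_meas H hH J
  have h1 : ∀ k, μ.real (Vs μ H T ((bad μ H T)^[k] J))
      = ∫ x, (Vs μ H T ((bad μ H T)^[k] J)).indicator (1 : X → ℝ) x ∂μ := fun k =>
    (integral_indicator_one (hV k)).symm
  have h2 : μ.real (Uh H J) = ∫ x, (Uh H J).indicator (1 : X → ℝ) x ∂μ :=
    (integral_indicator_one hU).symm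
  have hint : ∀ S : Set X, MeasurableSet S → Integrable (S.indicator (1 : X → ℝ)) μ := by
    intro S hS
    exact (integrable_const (1 : ℝ)).indicator hS
  simp_rw [h1, h2]
  rw [← integral_finsetSum _ (fun k _ => hint _ (hV k)), ← integral_const_mul]
  refine integral_mono (integrable_finsetSum _ fun k _ => hint _ (hV k))
    ((hint _ hU).const_mul _) ?_
  intro x
  have hp := LayB_point μ H T J x n
  have hsum : ∑ k ∈ Finset.range n,
      (Vs μ H T ((bad μ H T)^[k] J)).indicator (1 : X → ℝ) x
      = ((∑ k ∈ Finset.range n,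
        (if x ∈ Vs μ H T ((bad μ H T)^[k] J) then 1 else 0) : ℕ) : ℝ) := by
    push_cast
    refine Finset.sum_congr rfl fun k _ => ?_
    simp only [Set.indicator_apply, Pi.one_apply]
  simp only
  rw [hsum]
  have hle : (∑ k ∈ Finset.range n,
        (if x ∈ Vs μ H T ((bad μ H T)^[k] J) then 1 else 0) : ℕ) ≤ Nat.size (mlt H J x) := by
    omega
  by_cases hx : x ∈ Uh H J
  · rw [Set.indicator_of_mem hx, Pi.one_apply, mul_one]
    have h3 : mlt H J x < 2 ^ T :=
      lt_of_le_of_lt (Finset.card_le_card (Finset.filter_subset _ _)) hT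
    have h4 := Nat.size_le.2 h3
    exact_mod_cast hle.trans h4
  · rw [Set.indicator_of_notMem hx, mul_zero]
    have h3 : mlt H J x = 0 := by
      unfold mlt
      rw [Finset.card_eq_zero, Finset.filter_eq_empty_iff]
      intro i hi hxi
      exact hx ⟨i, hi, hxi⟩
    rw [h3, Nat.size_zero] at hle
    exact_mod_cast hle

end Pool.Agent.Lib.MP_0c1c75_co.KPI
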