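import Pool.Agent.Lib.MP_0c1c75_co.KPI.SpecF

/-!
# MP_0c1c75_co, project KPI, part F: `S_LoA` (author helper44)
-/

set_option autoImplicit false

open MeasureTheory Set Metric

namespace Pool.Agent.Lib.MP_0c1c75_co.KPI

private theorem LoA_sub {d N : ℕ} (p : Fin N → E d) (r : Fin N → ℝ) (J : Finset (Fin N))
    (κ0 η : ℝ) (hκ : 0 < κ0) (hη : 0 < η) (hη1 : η < 1)
    (hJ : ∀ i ∈ J, κ0 ≤ kap (p i) (r i)) :
    Un (Nv p r J) ∩ Bz d (1 - η) ⊆ Dr p r J (κ0 * η / 2) := by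
  rintro x ⟨⟨n, hn, hx⟩, hz⟩
  obtain ⟨i, hi, rfl⟩ := Finset.mem_image.1 hn
  have hz' : ‖x‖ ^ 2 ≤ 1 - η := hz
  have hx0 : 0 ≤ ‖x‖ := norm_nonneg x
  have hxs : ‖x‖ ≤ 1 - η / 2 := by
    apply le_of_sq_le_sq _ (by linarith)
    nlinarith [sq_nonneg η]
  have hk := hJ i hi
  have ht0 : 0 < ‖p i‖ := by
    rcases (norm_nonneg (p i)).lt_or_eq with h | h
    · exact h
    · exfalso
      have : kap (p i) (r i) = 0 := by
        unfold kap
        rw [← h]; simp
      linarith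
  set κ := kap (p i) (r i) with hκd
  set t := ‖p i‖ with htd
  have hD : r i ^ 2 - 1 - t ^ 2 = 2 * t * κ := by
    rw [hκd]; unfold kap
    rw [← htd]
    field_simp
  have hκp : 0 < κ := lt_of_lt_of_le hκ hk
  have hDp : 0 < 2 * t * κ := by positivity
  have hin : t * κ < -inner ℝ (p i) x := by
    have h1 : (1 : ℝ) < inner ℝ (nv (p i) (r i)) x := hx
    unfold nv at h1
    rw [inner_smul_left, ← htd, hD] at h1
    simp only [map_neg, conj_trivial] at h1
    have h2 : -(2 / (2 * t * κ)) * inner ℝ (p i) x = (-inner ℝ (p i) x) / (t * κ) := by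
      field_simp
    rw [h2, lt_div_iff₀ (by positivity)] at h1
    linarith
  refine ⟨by linarith, i, hi, ?_⟩
  rw [← hκd, ← htd]
  have h3 : (κ + κ0 * η / 2) * ‖x‖ ≤ κ := by
    have h4 : (κ + κ0 * η / 2) * ‖x‖ ≤ (κ + κ * η / 2) * (1 - η / 2) := by
      apply mul_le_mul _ hxs hx0 (by positivity)
      nlinarith
    have h5 : (κ + κ * η / 2) * (1 - η / 2) = κ - κ * η ^ 2 / 4 := by ring
    have h6 : 0 ≤ κ * η ^ 2 / 4 := by positivity
    linarith
  calc (κ + κ0 * η / 2) * (t * ‖x‖) = t * ((κ + κ0 * η / 2) * ‖x‖) := by ring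
    _ ≤ t * κ := mul_le_mul_of_nonneg_left h3 ht0.le
    _ < _ := hin

/-- **LoA** (part (1) of `S_LowG`). -/
theorem kLoA : S_LoA := by
  intro d N p r J κ0 η hκ hη hη1 hJ
  unfold fv lv
  refine measureReal_mono (LoA_sub p r J κ0 η hκ hη hη1 hJ) ?_
  have hs : Dr p r J (κ0 * η / 2) ⊆ closedBall (0 : E d) 1 := by
    intro x hx
    simpa [mem_closedBall, dist_zero_right] using hx.1
  exact (lt_of_le_of_lt (measure_mono hs) measure_closedBall_lt_top).ne

end Pool.Agent.Lib.MP_0c1c75_co.KPI
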