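import Pool.Agent.Lib.MP_0c1c75_co.KPI.SpecF

/-!
# MP_0c1c75_co, project KPI, part F: `S_LoB`, part (2) of `S_LowG`
-/

set_option autoImplicit false

open MeasureTheory Set Metric
open scoped Pointwise

namespace Pool.Agent.Lib.MP_0c1c75_co.KPI

private theorem LoB_alg (t κ δ e ρ A : ℝ) (hδ : 0 < δ) (he : 0 < e) (he1 : e ≤ 1) (ht : e < t)
    (hρ1 : ρ ≤ 1) (hρ0 : 0 < ρ) (hρ : 1 - δ * e / 2 < ρ) (hA : (κ + δ) * (t * ρ) < A)
    (hA2 : A ≤ t * ρ) : 1 - ρ ^ 2 + 2 * t * κ < 2 * A := by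
  have ht0 : 0 < t := he.trans ht
  set B := A / ρ with hB
  have hAB : A = ρ * B := by rw [hB]; field_simp
  have hB1 : (κ + δ) * t < B := by
    rw [hB, lt_div_iff₀ hρ0]
    linarith
  have hB2 : B ≤ t := by
    rw [hB, div_le_iff₀ hρ0]
    exact hA2
  have hu : 0 ≤ 1 - ρ := by linarith
  have h1 : (1 - ρ) * B ≤ (1 - ρ) * t := mul_le_mul_of_nonneg_left hB2 hu
  have h2 : A = B - (1 - ρ) * B := by rw [hAB]; ring
  have h3 : (1 - ρ) * (1 + t) ≤ δ * t := by
    have h4 : (1 - ρ) * (1 + t) ≤ (δ * e / 2) * (1 + t) := by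
      refine mul_le_mul_of_nonneg_right (by linarith) (by linarith)
    have h5 : e * (1 + t) ≤ 2 * t := by nlinarith
    have h6 : δ * (e * (1 + t)) ≤ δ * (2 * t) := mul_le_mul_of_nonneg_left h5 hδ.le
    nlinarith
  have h7 : 1 - ρ ^ 2 ≤ 2 * (1 - ρ) := by nlinarith
  nlinarith

theorem kLoB : S_LoB := by
  intro d N p r J δ e hd hδ hδ1 he he1 hJ
  set σ : ℝ := 1 - δ * e / 2 with hσ
  have hde : δ * e ≤ 1 := by nlinarith
  have hde0 : 0 < δ * e := by positivity
  have hσ0 : 0 < σ := by rw [hσ]; linarith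
  have hσ1 : σ < 1 := by rw [hσ]; linarith
  set D : Set (E d) := Dr p r J δ with hD
  set R : Set (E d) := {x : E d | ‖x‖ ^ 2 ≤ 1 + 0 ∧ ∃ i ∈ J, r i ^ 2 + 0 < ‖x - p i‖ ^ 2} with hR
  have hGt : Gt p r J 0 = volume.real R := rfl
  have hballfin : volume (closedBall (0 : E d) 1) < ⊤ := (isCompact_closedBall (0 : E d) 1).measure_lt_top
  have hRsub : R ⊆ closedBall (0 : E d) 1 := by
    intro x hx
    have h1 : ‖x‖ ^ 2 ≤ 1 := by simpa using hx.1
    have h2 : ‖x‖ ≤ 1 := by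
      have := norm_nonneg x
      nlinarith
    simpa using h2
  have hDsub : D ⊆ closedBall (0 : E d) 1 := by
    intro x hx
    simpa using hx.1
  have hkey : D ⊆ R ∪ σ • D := by
    intro x hx
    obtain ⟨hx1, i, hi, hlt⟩ := hx
    by_cases hxs : σ < ‖x‖
    · left
      have hx0 : 0 < ‖x‖ := hσ0.trans hxs
      have ht := hJ i hi
      have ht0 : 0 < ‖p i‖ := he.trans ht
      have hcs : -(inner ℝ (p i) x : ℝ) ≤ ‖p i‖ * ‖x‖ := by
        have h1 := abs_real_inner_le_norm (p i) x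
        have h2 := neg_abs_le (inner ℝ (p i) x : ℝ)
        linarith
      have halg := LoB_alg ‖p i‖ (kap (p i) (r i)) δ e ‖x‖ (-(inner ℝ (p i) x : ℝ)) hδ he he1 ht hx1 hx0 hxs
        hlt hcs
      refine ⟨?_, i, hi, ?_⟩
      · have := norm_nonneg x
        nlinarith
      · have hk : 2 * ‖p i‖ * kap (p i) (r i) = r i ^ 2 - 1 - ‖p i‖ ^ 2 := by
          unfold kap
          field_simp
        rw [norm_sub_sq_real, real_inner_comm]
        linarith
    · right
      push Not at hxs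
      refine ⟨σ⁻¹ • x, ⟨?_, i, hi, ?_⟩, ?_⟩
      · rw [norm_smul, norm_inv, Real.norm_eq_abs, abs_of_pos hσ0, inv_mul_le_iff₀ hσ0]
        simpa using hxs
      · rw [norm_smul, norm_inv, Real.norm_eq_abs, abs_of_pos hσ0, inner_smul_right]
        have h1 : σ⁻¹ * ((kap (p i) (r i) + δ) * (‖p i‖ * ‖x‖)) < σ⁻¹ * (-(inner ℝ (p i) x : ℝ)) :=
          mul_lt_mul_of_pos_left hlt (inv_pos.mpr hσ0)
        calc (kap (p i) (r i) + δ) * (‖p i‖ * (σ⁻¹ * ‖x‖))
            = σ⁻¹ * ((kap (p i) (r i) + δ) * (‖p i‖ * ‖x‖)) := by ring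
          _ < σ⁻¹ * (-(inner ℝ (p i) x : ℝ)) := h1
          _ = -(σ⁻¹ * (inner ℝ (p i) x : ℝ)) := by ring
      · simp only [smul_smul]
        rw [mul_inv_cancel₀ hσ0.ne', one_smul]
  have hsm : volume.real (σ • D) = σ ^ d * volume.real D := by
    rw [measureReal_def, Measure.addHaar_smul_of_nonneg _ hσ0.le, ENNReal.toReal_mul,
      ENNReal.toReal_ofReal (by positivity), measureReal_def, finrank_euclideanSpace_fin]
  have hDfin : volume D ≠ ⊤ := ((measure_mono hDsub).trans_lt hballfin).ne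
  have hRfin : volume R ≠ ⊤ := ((measure_mono hRsub).trans_lt hballfin).ne
  have hsDfin : volume (σ • D) ≠ ⊤ := by
    rw [Measure.addHaar_smul]
    exact ENNReal.mul_ne_top ENNReal.ofReal_ne_top hDfin
  have h1 : volume.real D ≤ volume.real R + volume.real (σ • D) :=
    (measureReal_mono hkey (measure_union_ne_top hRfin hsDfin)).trans (measureReal_union_le _ _)
  have h2 : σ ^ d ≤ σ := by
    calc σ ^ d ≤ σ ^ 1 := pow_le_pow_of_le_one hσ0.le hσ1.le hd
      _ = σ := pow_one σ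
  have h3 : σ ^ d * volume.real D ≤ σ * volume.real D :=
    mul_le_mul_of_nonneg_right h2 measureReal_nonneg
  rw [hGt]
  have h4 : δ * e / 2 = 1 - σ := by rw [hσ]; ring
  rw [h4]
  rw [hsm] at h1
  linarith

end Pool.Agent.Lib.MP_0c1c75_co.KPI
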