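import Pool.Agent.Lib.MP_0c1c75_co.KPI.SpecF

/-!
# MP_0c1c75_co, project KPI: thin removed sets
-/

set_option autoImplicit false

open MeasureTheory Set Metric

namespace Pool.Agent.Lib.MP_0c1c75_co.KPI

theorem kLoC : S_LoC := by
  intro d N p r J s hd hs hJ
  have hd1 : (1 : ℝ) ≤ d := by exact_mod_cast hd
  have hom : 0 ≤ om d := measureReal_nonneg
  have hfin : volume (closedBall (0 : E d) 1) ≠ ⊤ := measure_closedBall_lt_top.ne
  have key : ∀ x : E d, (‖x‖ ^ 2 ≤ 1 + 0 ∧ ∃ i ∈ J, r i ^ 2 + 0 < ‖x - p i‖ ^ 2) →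
      ‖x‖ ≤ 1 ∧ 1 - s < ‖x‖ := by
    rintro x ⟨hx, i, hi, hxi⟩
    obtain ⟨h1, h2⟩ := hJ i hi
    rw [add_zero] at hx hxi
    have h3 : ‖x‖ ≤ 1 := by
      have := abs_le_of_sq_le_sq (a := ‖x‖) (b := 1) (by simpa using hx) zero_le_one
      exact (abs_le.1 this).2
    have h4 : r i < ‖x - p i‖ := lt_of_pow_lt_pow_left₀ 2 (norm_nonneg _) hxi
    have h5 : ‖x - p i‖ ≤ ‖x‖ + ‖p i‖ := norm_sub_le _ _
    exact ⟨h3, by linarith⟩
  unfold Gt
  rcases le_or_gt 1 s with h | h
  · calc volume.real {x : E d | ‖x‖ ^ 2 ≤ 1 + 0 ∧ ∃ i ∈ J, r i ^ 2 + 0 < ‖x - p i‖ ^ 2}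
        ≤ volume.real (closedBall (0 : E d) 1) := by
          refine measureReal_mono (fun x hx => ?_) hfin
          rw [mem_closedBall_zero_iff]
          exact (key x hx).1
      _ = 1 * om d := by rw [one_mul]; rfl
      _ ≤ d * s * om d := by
          refine mul_le_mul_of_nonneg_right ?_ hom
          nlinarith
  · have hsub : closedBall (0 : E d) (1 - s) ⊆ closedBall (0 : E d) 1 :=
      closedBall_subset_closedBall (by linarith)
    have hv : volume.real (closedBall (0 : E d) (1 - s)) = (1 - s) ^ d * om d := by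
      rw [Measure.addHaar_real_closedBall' _ _ (by linarith : (0 : ℝ) ≤ 1 - s)]
      simp only [finrank_euclideanSpace, Fintype.card_fin]
      rfl
    have hb := one_add_mul_le_pow (a := -s) (by linarith) d
    calc volume.real {x : E d | ‖x‖ ^ 2 ≤ 1 + 0 ∧ ∃ i ∈ J, r i ^ 2 + 0 < ‖x - p i‖ ^ 2}
        ≤ volume.real (closedBall (0 : E d) 1 \ closedBall (0 : E d) (1 - s)) := by
          refine measureReal_mono (fun x hx => ?_)
            (ne_top_of_le_ne_top hfin (measure_mono sdiff_subset))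
          obtain ⟨h1, h2⟩ := key x hx
          refine ⟨?_, ?_⟩
          · rw [mem_closedBall_zero_iff]
            exact h1
          · rw [mem_closedBall_zero_iff]
            exact not_le.2 h2
      _ = om d - (1 - s) ^ d * om d := by
          rw [measureReal_sdiff hsub measurableSet_closedBall, hv]
          rfl
      _ ≤ d * s * om d := by
          have e : (1 + -s) = 1 - s := by ring
          rw [e] at hb
          nlinarith

end Pool.Agent.Lib.MP_0c1c75_co.KPI
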