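import Pool.Agent.Lib.MP_0c1c75_co.KPI.SpecF

/-!
# MP_0c1c75_co, project KPI, part F: assembly of `S_LowG`
-/

set_option autoImplicit false

open MeasureTheory Set Metric

namespace Pool.Agent.Lib.MP_0c1c75_co.KPI

private lemma LowG_sub {d N : ℕ} (p : Fin N → E d) (r : Fin N → ℝ) (J : Finset (Fin N)) :
    {x : E d | ‖x‖ ^ 2 ≤ 1 + 0 ∧ ∃ i ∈ J, r i ^ 2 + 0 < ‖x - p i‖ ^ 2} ⊆
      closedBall (0 : E d) 1 := by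
  rintro x ⟨hx, -⟩
  rw [mem_closedBall_zero_iff]
  nlinarith [norm_nonneg x]

private lemma LowG_ne {d N : ℕ} (p : Fin N → E d) (r : Fin N → ℝ) (J : Finset (Fin N)) :
    volume {x : E d | ‖x‖ ^ 2 ≤ 1 + 0 ∧ ∃ i ∈ J, r i ^ 2 + 0 < ‖x - p i‖ ^ 2} ≠ ⊤ :=
  measure_ne_top_of_subset (LowG_sub p r J) measure_closedBall_lt_top.ne

theorem kLowG (h1 : S_LoA) (h2 : S_LoB) (h3 : S_LoC) : S_LowG := by
  intro d N p r J hd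
  refine ⟨fun κ0 η hκ hη hη1 h => h1 d N p r J κ0 η hκ hη hη1 h,
    fun δ e hδ hδ1 he he1 h => h2 d N p r J δ e hd hδ hδ1 he he1 h,
    fun s hs h => h3 d N p r J s hd hs h, fun J' => ?_, fun J' hJ' => ?_⟩
  · have h4 : {x : E d | ‖x‖ ^ 2 ≤ 1 + 0 ∧ ∃ i ∈ J ∪ J', r i ^ 2 + 0 < ‖x - p i‖ ^ 2} ⊆
        {x : E d | ‖x‖ ^ 2 ≤ 1 + 0 ∧ ∃ i ∈ J, r i ^ 2 + 0 < ‖x - p i‖ ^ 2} ∪
        {x : E d | ‖x‖ ^ 2 ≤ 1 + 0 ∧ ∃ i ∈ J', r i ^ 2 + 0 < ‖x - p i‖ ^ 2} := by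
      rintro x ⟨hx, i, hi, hx2⟩
      rcases Finset.mem_union.1 hi with h | h
      · exact Or.inl ⟨hx, i, h, hx2⟩
      · exact Or.inr ⟨hx, i, h, hx2⟩
    unfold Gt
    calc _ ≤ volume.real ({x : E d | ‖x‖ ^ 2 ≤ 1 + 0 ∧ ∃ i ∈ J, r i ^ 2 + 0 < ‖x - p i‖ ^ 2} ∪
        {x : E d | ‖x‖ ^ 2 ≤ 1 + 0 ∧ ∃ i ∈ J', r i ^ 2 + 0 < ‖x - p i‖ ^ 2}) :=
          measureReal_mono h4 (measure_union_ne_top (LowG_ne p r J) (LowG_ne p r J'))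
      _ ≤ _ := measureReal_union_le _ _
  · unfold Gt
    refine measureReal_mono ?_ (LowG_ne p r J)
    rintro x ⟨hx, i, hi, hx2⟩
    exact ⟨hx, i, hJ' hi, hx2⟩

end Pool.Agent.Lib.MP_0c1c75_co.KPI
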