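import Pool.Agent.Lib.MP_0c1c75_co.KPI.SpecS

/-!
# MP_0c1c75_co, project KPI: the removed volume does not decrease with the level (`S_Mon`)
-/

set_option autoImplicit false

open MeasureTheory Set Metric

namespace Pool.Agent.Lib.MP_0c1c75_co.KPI

/-- The point `x` is removed at the level `t` if `y = √(1 - t/‖x‖²) x` is removed at the level `0`. -/
private lemma Mon_geom {d : ℕ} (x q : E d) (r t : ℝ) (ht : 0 ≤ t) (htx : t < ‖x‖ ^ 2)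
    (hq : 1 + ‖q‖ ^ 2 ≤ r ^ 2)
    (hy : ‖Real.sqrt (1 - t / ‖x‖ ^ 2) • x‖ ^ 2 ≤ 1 + 0) :
    ‖x‖ ^ 2 ≤ 1 + t ∧ (r ^ 2 + 0 < ‖Real.sqrt (1 - t / ‖x‖ ^ 2) • x - q‖ ^ 2 →
      r ^ 2 + t < ‖x - q‖ ^ 2) := by
  have hx : 0 < ‖x‖ ^ 2 := lt_of_le_of_lt ht htx
  have h1 : t / ‖x‖ ^ 2 < 1 := (div_lt_one hx).mpr htx
  have h1' : 0 ≤ t / ‖x‖ ^ 2 := div_nonneg ht hx.le
  set s := Real.sqrt (1 - t / ‖x‖ ^ 2) with hs
  have hs0 : 0 < s := Real.sqrt_pos.mpr (by linarith)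
  have hs2 : s ^ 2 = 1 - t / ‖x‖ ^ 2 := Real.sq_sqrt (by linarith)
  have hs1 : s ≤ 1 := by
    rw [hs]
    exact Real.sqrt_le_one.mpr (by linarith)
  have hny : ‖s • x‖ ^ 2 = ‖x‖ ^ 2 - t := by
    rw [norm_smul, mul_pow, Real.norm_eq_abs, sq_abs, hs2, sub_mul, one_mul,
      div_mul_cancel₀ _ hx.ne']
  have hin : inner ℝ (s • x) q = s * inner ℝ x q := real_inner_smul_left x q s
  have hyq : ‖s • x - q‖ ^ 2 = ‖s • x‖ ^ 2 - 2 * (s * inner ℝ x q) + ‖q‖ ^ 2 := by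
    rw [norm_sub_sq_real, hin]
  have hxq : ‖x - q‖ ^ 2 = ‖x‖ ^ 2 - 2 * inner ℝ x q + ‖q‖ ^ 2 := norm_sub_sq_real x q
  refine ⟨by linarith, fun hr => ?_⟩
  have h2 : s * inner ℝ x q < 0 := by linarith
  have h3 : inner ℝ x q < 0 := by
    by_contra h
    have : 0 ≤ s * inner ℝ x q := mul_nonneg hs0.le (not_lt.mp h)
    linarith
  have h4 : inner ℝ x q ≤ s * inner ℝ x q := by nlinarith
  linarith

/-- `S_Mon`: the removed volume does not decrease with the level. -/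
theorem sMon (hPsh : S_Psh) : S_Mon := by
  intro d N q r J hd hJ t ht
  have hmeas : MeasurableSet {x : E d | ‖x‖ ^ 2 ≤ 1 + 0 ∧ ∃ i ∈ J, r i ^ 2 + 0 < ‖x - q i‖ ^ 2} := by
    have h1 : MeasurableSet {x : E d | ‖x‖ ^ 2 ≤ 1 + 0} :=
      measurableSet_le (by fun_prop) (by fun_prop)
    have h2 : MeasurableSet {x : E d | ∃ i ∈ J, r i ^ 2 + 0 < ‖x - q i‖ ^ 2} := by
      have h3 : {x : E d | ∃ i ∈ J, r i ^ 2 + 0 < ‖x - q i‖ ^ 2} =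
          ⋃ i ∈ J, {x : E d | r i ^ 2 + 0 < ‖x - q i‖ ^ 2} := by
        ext x
        simp only [mem_setOf_eq, mem_iUnion, exists_prop]
      rw [h3]
      refine Finset.measurableSet_biUnion J fun i _ => ?_
      exact measurableSet_lt (by fun_prop) (by fun_prop)
    exact h1.inter h2
  have hfin : volume {x : E d | ‖x‖ ^ 2 ≤ 1 + t ∧ ∃ i ∈ J, r i ^ 2 + t < ‖x - q i‖ ^ 2} ≠ ⊤ := by
    have hsub : {x : E d | ‖x‖ ^ 2 ≤ 1 + t ∧ ∃ i ∈ J, r i ^ 2 + t < ‖x - q i‖ ^ 2} ⊆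
        closedBall (0 : E d) (Real.sqrt (1 + t)) := by
      intro x hx
      rw [mem_closedBall_zero_iff]
      exact Real.le_sqrt_of_sq_le hx.1
    exact ((measure_mono hsub).trans_lt measure_closedBall_lt_top).ne
  have hle : volume {x : E d | ‖x‖ ^ 2 ≤ 1 + 0 ∧ ∃ i ∈ J, r i ^ 2 + 0 < ‖x - q i‖ ^ 2} ≤
      volume {x : E d | ‖x‖ ^ 2 ≤ 1 + t ∧ ∃ i ∈ J, r i ^ 2 + t < ‖x - q i‖ ^ 2} := by
    refine (hPsh d _ t hd hmeas ht).trans (measure_mono ?_)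
    rintro x ⟨hx1, hx2, i, hi, hx3⟩
    have h := Mon_geom x (q i) (r i) t ht hx1 (hJ i hi) hx2
    exact ⟨h.1, i, hi, h.2 hx3⟩
  exact ENNReal.toReal_mono hfin hle

end Pool.Agent.Lib.MP_0c1c75_co.KPI
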