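import Pool.Agent.Lib.MP_0c1c75_co.KPI.SpecB

/-!
# MP_0c1c75_co, project KPI: weights from the pieces of the removed region (`S_Mrg`)
-/

set_option autoImplicit false

open MeasureTheory Set Metric

namespace Pool.Agent.Lib.MP_0c1c75_co.KPI

/-- Sets `R i`, `i ∈ I`, of finite measure: weights with sum the measure of the union, and on every
subfamily at most the measure of the union of the subfamily. -/
private lemma Mrg_part {X ι : Type} [MeasurableSpace X] [LinearOrder ι] (μ : Measure X)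
    (I : Finset ι) (R : ι → Set X) (hR : ∀ i, MeasurableSet (R i)) (hfin : ∀ i, μ (R i) ≠ ⊤) :
    ∃ v : ι → ℝ, (∀ i, 0 ≤ v i) ∧ ∑ i ∈ I, v i = μ.real (⋃ i ∈ I, R i) ∧
      ∀ I' ⊆ I, ∑ i ∈ I', v i ≤ μ.real (⋃ i ∈ I', R i) := by
  classical
  set Q : ι → Set X := fun i => R i \ ⋃ j ∈ I.filter (· < i), R j with hQ
  have hQm : ∀ i, MeasurableSet (Q i) := fun i =>
    (hR i).diff (Finset.measurableSet_biUnion _ fun j _ => hR j)
  have hQsub : ∀ i, Q i ⊆ R i := fun i => diff_subset
  have hQfin : ∀ i, μ (Q i) ≠ ⊤ := fun i => ne_top_of_le_ne_top (hfin i) (measure_mono (hQsub i))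
  have hdis : ∀ i ∈ I, ∀ j ∈ I, i < j → Disjoint (Q i) (Q j) := by
    intro i hi j hj hij
    rw [Set.disjoint_left]
    intro x hx hx'
    apply hx'.2
    simp only [mem_iUnion, Finset.mem_filter]
    exact ⟨i, ⟨hi, hij⟩, hx.1⟩
  have hpd : (I : Set ι).PairwiseDisjoint Q := by
    intro i hi j hj hij
    rcases lt_or_gt_of_ne hij with h | h
    · exact hdis i hi j hj h
    · exact (hdis j hj i hi h).symm
  refine ⟨fun i => μ.real (Q i), fun i => measureReal_nonneg, ?_, ?_⟩
  · rw [← measureReal_biUnion_finset hpd (fun i _ => hQm i) (fun i _ => hQfin i)]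
    congr 1
    apply Subset.antisymm
    · exact iUnion₂_mono fun i _ => hQsub i
    · intro x hx
      simp only [mem_iUnion] at hx
      obtain ⟨i, hi, hxi⟩ := hx
      have hne : (I.filter fun j => x ∈ R j).Nonempty := ⟨i, Finset.mem_filter.mpr ⟨hi, hxi⟩⟩
      have hm := Finset.min'_mem _ hne
      rw [Finset.mem_filter] at hm
      simp only [mem_iUnion]
      refine ⟨(I.filter fun j => x ∈ R j).min' hne, hm.1, hm.2, ?_⟩
      simp only [mem_iUnion, Finset.mem_filter, not_exists]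
      rintro j ⟨hj, hjm⟩ hxj
      exact absurd (Finset.min'_le _ j (Finset.mem_filter.mpr ⟨hj, hxj⟩)) (not_le.mpr hjm)
  · intro I' hI'
    have hsub : (I' : Set ι) ⊆ (I : Set ι) := by exact_mod_cast hI'
    rw [← measureReal_biUnion_finset (hpd.subset hsub) (fun i _ => hQm i) (fun i _ => hQfin i)]
    apply measureReal_mono
    · exact iUnion₂_mono fun i _ => hQsub i
    · exact (measure_biUnion_lt_top I'.finite_toSet fun i _ => (hfin i).lt_top).ne

/-- **Weights.** -/
theorem sMrg (hStar : S_Star) : S_Mrg := by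
  classical
  intro d N p q r I e hd hC hqp hr hkap he he1 hInC
  set R : Fin N → Set (E d) := fun i => {x | ‖x‖ ^ 2 ≤ 1 + 0 ∧ r i ^ 2 + 0 < ‖x - q i‖ ^ 2} with hRdef
  have hRm : ∀ i, MeasurableSet (R i) := by
    intro i
    have h1 : MeasurableSet {x : E d | ‖x‖ ^ 2 ≤ (1 : ℝ) + 0} :=
      measurableSet_le (by fun_prop) measurable_const
    have h2 : MeasurableSet {x : E d | r i ^ 2 + 0 < ‖x - q i‖ ^ 2} :=
      measurableSet_lt measurable_const (by fun_prop)
    exact h1.inter h2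
  have hRf : ∀ i, volume (R i) ≠ ⊤ := by
    intro i
    have hsub : R i ⊆ closedBall (0 : E d) 1 := by
      intro x hx
      rw [mem_closedBall, dist_zero_right]
      have := hx.1
      nlinarith [norm_nonneg x]
    exact ((measure_mono hsub).trans_lt measure_closedBall_lt_top).ne
  have hGt : ∀ I' : Finset (Fin N), volume.real (⋃ i ∈ I', R i) = Gt q r I' 0 := by
    intro I'
    unfold Gt
    congr 1
    ext x
    simp only [mem_iUnion, mem_setOf_eq, hRdef, exists_prop]
    constructor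
    · rintro ⟨i, hi, hx1, hx2⟩
      exact ⟨hx1, i, hi, hx2⟩
    · rintro ⟨hx1, i, hi, hx2⟩
      exact ⟨i, hi, hx1, hx2⟩
  obtain ⟨v, hv0, hvs, hvl⟩ := Mrg_part volume I R hRm hRf
  set ν : Fin N → E d := fun i => nv (p i) (r i) with hν
  have hNv : ∀ I' : Finset (Fin N), Nv p r I' = I'.image ν := by
    intro I'
    unfold Nv
    ext n
    simp [hν]
  have hsum : ∀ J ⊆ Nv p r I, ∑ n ∈ J, ∑ i ∈ I.filter (fun i => ν i = n), v i =
      ∑ i ∈ I.filter (fun i => ν i ∈ J), v i := by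
    intro J hJ
    rw [← Finset.sum_fiberwise_of_maps_to (s := I.filter (fun i => ν i ∈ J)) (t := J) (g := ν)
      (fun i hi => (Finset.mem_filter.mp hi).2)]
    refine Finset.sum_congr rfl fun n hn => ?_
    refine Finset.sum_congr ?_ fun _ _ => rfl
    ext i
    simp only [Finset.mem_filter]
    constructor
    · rintro ⟨h1, h2⟩
      exact ⟨⟨h1, h2 ▸ hn⟩, h2⟩
    · rintro ⟨⟨h1, _⟩, h2⟩
      exact ⟨h1, h2⟩
  have hfib : ∀ J ⊆ Nv p r I, Nv p r (I.filter (fun i => ν i ∈ J)) = J := by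
    intro J hJ
    rw [hNv]
    ext n
    simp only [Finset.mem_image, Finset.mem_filter]
    constructor
    · rintro ⟨i, ⟨_, h2⟩, h3⟩
      exact h3 ▸ h2
    · intro hn
      have h := hJ hn
      rw [hNv, Finset.mem_image] at h
      obtain ⟨i, hi, h3⟩ := h
      exact ⟨i, ⟨hi, h3 ▸ hn⟩, h3⟩
  have hle : ∀ J ⊆ Nv p r I, ∑ n ∈ J, ∑ i ∈ I.filter (fun i => ν i = n), v i ≤
      Gt q r (I.filter (fun i => ν i ∈ J)) 0 := by
    intro J hJ
    rw [hsum J hJ, ← hGt]
    exact hvl _ (Finset.filter_subset _ _)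
  have hpos : ∀ i ∈ I, 0 < ‖p i‖ ∧ 0 < kap (p i) (r i) := fun i hi =>
    ⟨he.trans (hInC i hi).1, hkap i hi⟩
  have hd' : (8 : ℝ) ≤ d := by exact_mod_cast hd
  have hFs : ∀ (S a : ℝ) (J : Finset (E d)), 0 < S → 0 ≤ Fs S a J := by
    intro S a J hS
    have hU : MeasurableSet (Un J) := by
      have h1 : Un J = ⋃ n ∈ J, {x : E d | 1 < inner ℝ n x} := by
        ext x
        simp [Un]
      rw [h1]
      exact Finset.measurableSet_biUnion _ fun n _ =>
        measurableSet_lt measurable_const (by fun_prop)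
    have hB : MeasurableSet (Bz d (1 + S)) :=
      measurableSet_le (by fun_prop) measurable_const
    unfold Fs
    apply setIntegral_nonneg (hU.inter hB)
    intro x hx
    have h2 : ‖x‖ ^ 2 ≤ 1 + S := hx.2
    exact Real.rpow_nonneg (div_nonneg (by linarith) hS.le) _
  have htot : ∑ n ∈ Nv p r I, ∑ i ∈ I.filter (fun i => ν i = n), v i = Gt q r I 0 := by
    rw [hsum _ subset_rfl, ← hGt, ← hvs]
    refine Finset.sum_congr ?_ fun _ _ => rfl
    ext i
    simp only [Finset.mem_filter, and_iff_left_iff_imp]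
    intro hi
    rw [hNv]
    exact Finset.mem_image_of_mem _ hi
  have hw0 : ∀ n, 0 ≤ ∑ i ∈ I.filter (fun i => ν i = n), v i := fun n =>
    Finset.sum_nonneg fun i _ => hv0 i
  rcases eq_or_ne e 1 with he' | he'
  · refine ⟨fun n => ∑ i ∈ I.filter (fun i => ν i = n), v i, (d : ℝ) / 2 - 1, hw0, by linarith,
      by linarith, htot, ?_⟩
    intro J hJ S hS
    have h1 := (hStar d N p q r (I.filter (fun i => ν i ∈ J)) hd hC hqp hr
      (fun i hi => hpos i (Finset.mem_filter.mp hi).1) S hS).1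
    rw [hfib J hJ] at h1
    have h2 : Gt q r (I.filter (fun i => ν i ∈ J)) 0 ≤ Fs S ((d : ℝ) / 2 - 1) J := h1
    have h3 := hFs S ((d : ℝ) / 2 - 1) J hS
    have h4 : 0 ≤ 2 * d * Real.sqrt (1 + S) / S := by positivity
    calc _ ≤ Gt q r (I.filter (fun i => ν i ∈ J)) 0 := hle J hJ
      _ ≤ Fs S ((d : ℝ) / 2 - 1) J := h2
      _ ≤ (2 * d * Real.sqrt (1 + S) / S + 1) * e * Fs S ((d : ℝ) / 2 - 1) J := by
        rw [he']
        nlinarith [mul_nonneg h4 h3]
  · refine ⟨fun n => ∑ i ∈ I.filter (fun i => ν i = n), v i, (d : ℝ) / 2 - 2, hw0, by linarith,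
      by linarith, htot, ?_⟩
    intro J hJ S hS
    have h1 := (hStar d N p q r (I.filter (fun i => ν i ∈ J)) hd hC hqp hr
      (fun i hi => hpos i (Finset.mem_filter.mp hi).1) S hS).2 e he (fun i hi => by
        rcases (hInC i (Finset.mem_filter.mp hi).1).2 with h | h
        · exact h
        · exact absurd h he')
    rw [hfib J hJ] at h1
    have h2 : Gt q r (I.filter (fun i => ν i ∈ J)) 0 ≤
      2 * d * e * Real.sqrt (1 + S) / S * Fs S ((d : ℝ) / 2 - 2) J := h1
    have h3 := hFs S ((d : ℝ) / 2 - 2) J hS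
    calc _ ≤ Gt q r (I.filter (fun i => ν i ∈ J)) 0 := hle J hJ
      _ ≤ 2 * d * e * Real.sqrt (1 + S) / S * Fs S ((d : ℝ) / 2 - 2) J := h2
      _ ≤ (2 * d * Real.sqrt (1 + S) / S + 1) * e * Fs S ((d : ℝ) / 2 - 2) J := by
        apply mul_le_mul_of_nonneg_right _ h3
        have : (2 * d * Real.sqrt (1 + S) / S + 1) * e =
          2 * d * e * Real.sqrt (1 + S) / S + e := by ring
        rw [this]
        linarith

end Pool.Agent.Lib.MP_0c1c75_co.KPI
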