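import Pool.Agent.Lib.MP_0c1c75_co.KPI.SpecH

/-!
# MP_0c1c75_co, project KPI: one class which is not fat (`S_NF`)
-/

set_option autoImplicit false

open MeasureTheory Set Metric

namespace Pool.Agent.Lib.MP_0c1c75_co.KPI

private lemma NF_fin {d N : ℕ} (p : Fin N → E d) (r : Fin N → ℝ) (J : Finset (Fin N)) (δ : ℝ) :
    volume (Dr p r J δ) ≠ ⊤ := by
  have h4 : Dr p r J δ ⊆ closedBall (0 : E d) 1 := by
    intro x hx
    rw [mem_closedBall, dist_zero_right]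
    exact hx.1
  exact ne_top_of_le_ne_top (measure_closedBall_lt_top).ne (measure_mono h4)

private lemma NF_mono {d N : ℕ} (p : Fin N → E d) (r : Fin N → ℝ) (I J : Finset (Fin N))
    (hIJ : I ⊆ J) (δ : ℝ) : volume.real (Dr p r I δ) ≤ volume.real (Dr p r J δ) := by
  refine measureReal_mono ?_ (NF_fin p r J δ)
  rintro x ⟨hx, i, hi, h⟩
  exact ⟨hx, i, hIJ hi, h⟩

/-- `A d e^(-a d) ≤ 1` for large `d`. -/
private lemma NF_exp (A a : ℝ) (hA : 0 < A) (ha : 0 < a) (d : ℕ) (hd : ⌈2 * A / a ^ 2⌉₊ ≤ d) :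
    A * d ≤ Real.exp (a * d) := by
  have h1 : 2 * A / a ^ 2 ≤ (d : ℝ) := (Nat.le_ceil _).trans (by exact_mod_cast hd)
  have h2 : 2 * A ≤ d * a ^ 2 := by
    rwa [div_le_iff₀ (by positivity)] at h1
  have h3 := Real.quadratic_le_exp_of_nonneg (x := a * d) (by positivity)
  have h4 : (0 : ℝ) ≤ d := by positivity
  have h5 : 0 ≤ a * d := by positivity
  nlinarith [mul_le_mul_of_nonneg_right h2 h4]

theorem sNF (hCls : S_Cls) (hGain : S_Gain) (hLowG : S_LowG) (hIrr : S_Irr) : S_NF := by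
  intro b κ0 η hb0 hb1 hκ0 hκ1 hη
  obtain ⟨γ0, C, K, hγ0, hC, hK, dG, hG⟩ := hGain b κ0 (η / 2) hb0 hb1 hκ0 (by linarith)
  set ε : ℝ := min (γ0 / 2) (η / 4) with hε
  have hε0 : 0 < ε := lt_min (by linarith) (by linarith)
  have hε1 : ε ≤ γ0 / 2 := min_le_left _ _
  have hε2 : ε ≤ η / 4 := min_le_right _ _
  have hb2 : b ^ 2 < 1 := by nlinarith
  obtain ⟨η3, hη30, hη31, dC, hCl⟩ := hCls κ0 (b ^ 2) ε K hκ0 (by positivity) hb2 hε0 hK
  have hδ0 : 0 < κ0 * η3 / 2 := by positivity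
  have hδκ : κ0 * η3 / 2 ≤ κ0 := by nlinarith
  refine ⟨κ0 * η3 / 2, γ0 / 4, hδ0, hδκ, by linarith,
    max (max dG dC) (max 1 ⌈2 * (2 / (κ0 * η3 / 2) * C) / (γ0 / 4) ^ 2⌉₊), ?_⟩
  intro d hd N p q1 r J e hcon hq1 hr hJ he0 he1 hInC hvol
  have hdG : dG ≤ d := le_trans (le_trans (le_max_left _ _) (le_max_left _ _)) hd
  have hdC : dC ≤ d := le_trans (le_trans (le_max_right _ _) (le_max_left _ _)) hd
  have hd1 : 1 ≤ d := le_trans (le_trans (le_max_left _ _) (le_max_right _ _)) hd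
  have hdA : ⌈2 * (2 / (κ0 * η3 / 2) * C) / (γ0 / 4) ^ 2⌉₊ ≤ d :=
    le_trans (le_trans (le_max_right _ _) (le_max_right _ _)) hd
  set δ : ℝ := κ0 * η3 / 2 with hδ
  have hδ1 : δ ≤ 1 := by linarith
  obtain ⟨I, hIJ, hIc, hGI⟩ := hG d hdG N p q1 r J e hq1 hr hJ he0 he1 hInC
  have hkap : ∀ i ∈ J, kap (p i) (r i) ≤ b ^ 2 := by
    intro i hi
    exact ((hIrr.2 d b (r i) (p i) (q1 i) hb0 hb1 (hq1 i) (hr i) (hJ i hi).2).2).le
  have hqp : ∀ i, ‖q1 i‖ ≤ ‖p i‖ := by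
    intro i
    have h1 := hq1 i
    have h2 := norm_nonneg (p i)
    nlinarith
  have hcl := hCl d hdC N p q1 r I e hcon hqp (fun i => le_trans zero_le_one (hr i))
    (fun i hi => ⟨(hJ i (hIJ hi)).1, hkap i (hIJ hi)⟩) hIc he0 he1 (fun i hi => hInC i (hIJ hi))
  have hLI := hLowG d N p r I (by omega)
  have hLJ := hLowG d N p r J (by omega)
  have hfv := hLI.1 κ0 η3 hκ0 hη30 hη31 (fun i hi => (hJ i (hIJ hi)).1)
  have hDI : volume.real (Dr p r I δ) ≤ volume.real (Dr p r J δ) := NF_mono p r I J hIJ δ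
  have hD0 : 0 ≤ volume.real (Dr p r I δ) := measureReal_nonneg
  have hlow := hLI.2.1 δ e hδ0 hδ1 he0 he1 (fun i hi => (hInC i (hIJ hi)).1)
  have hGm : Gt p r I 0 ≤ Gt p r J 0 := hLJ.2.2.2.2 I hIJ
  have hom : 0 ≤ om d := measureReal_nonneg
  have hd0 : (0 : ℝ) ≤ d := by positivity
  -- upper bound of `Gt q1 r I 0`
  have hU1 : Gt q1 r I 0 ≤ Real.exp (ε * d) * (e * volume.real (Dr p r I δ)) :=
    hcl.trans (mul_le_mul_of_nonneg_left (mul_le_mul_of_nonneg_left hfv he0.le)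
      (Real.exp_pos _).le)
  have hU2 : Gt q1 r I 0 ≤ Real.exp (-(η / 2 * d)) * (e * om d) := by
    refine hU1.trans ?_
    have h1 : e * volume.real (Dr p r I δ) ≤ e * (Real.exp (-(η * d)) * om d) :=
      mul_le_mul_of_nonneg_left (hDI.trans hvol) he0.le
    have h2 : Real.exp (ε * d) * Real.exp (-(η * d)) ≤ Real.exp (-(η / 2 * d)) := by
      rw [← Real.exp_add]
      apply Real.exp_le_exp.mpr
      nlinarith
    calc Real.exp (ε * d) * (e * volume.real (Dr p r I δ))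
        ≤ Real.exp (ε * d) * (e * (Real.exp (-(η * d)) * om d)) :=
          mul_le_mul_of_nonneg_left h1 (Real.exp_pos _).le
      _ = (Real.exp (ε * d) * Real.exp (-(η * d))) * (e * om d) := by ring
      _ ≤ _ := mul_le_mul_of_nonneg_right h2 (by positivity)
  have hmain := hGI hU2
  -- lower bound of `Gt p r J 0`
  have hL : e * volume.real (Dr p r I δ) ≤ 2 / δ * Gt p r J 0 := by
    have h1 : δ * e / 2 * volume.real (Dr p r I δ) ≤ Gt p r J 0 := hlow.trans hGm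
    have h2 : e * volume.real (Dr p r I δ) = 2 / δ * (δ * e / 2 * volume.real (Dr p r I δ)) := by
      field_simp
    rw [h2]
    exact mul_le_mul_of_nonneg_left h1 (by positivity)
  have hGJ0 : 0 ≤ Gt p r J 0 := measureReal_nonneg
  have hexp := NF_exp (2 / δ * C) (γ0 / 4) (by positivity) (by positivity) d hdA
  have hcomb : C * d * Real.exp (-(γ0 * d)) * Real.exp (ε * d) * (2 / δ) ≤
      Real.exp (-(γ0 / 4 * d)) := by
    have h1 : Real.exp (-(γ0 * d)) * Real.exp (ε * d) ≤ Real.exp (-(γ0 / 2 * d)) := by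
      rw [← Real.exp_add]
      apply Real.exp_le_exp.mpr
      nlinarith
    have h2 : Real.exp (γ0 / 4 * d) * Real.exp (-(γ0 / 2 * d)) = Real.exp (-(γ0 / 4 * d)) := by
      rw [← Real.exp_add]
      congr 1
      ring
    calc C * d * Real.exp (-(γ0 * d)) * Real.exp (ε * d) * (2 / δ)
        = (2 / δ * C * d) * (Real.exp (-(γ0 * d)) * Real.exp (ε * d)) := by ring
      _ ≤ (2 / δ * C * d) * Real.exp (-(γ0 / 2 * d)) :=
          mul_le_mul_of_nonneg_left h1 (by positivity)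
      _ ≤ Real.exp (γ0 / 4 * d) * Real.exp (-(γ0 / 2 * d)) :=
          mul_le_mul_of_nonneg_right hexp (Real.exp_pos _).le
      _ = _ := h2
  calc Gt (fun i => b • q1 i) r J 0
      ≤ C * d * Real.exp (-(γ0 * d)) * Gt q1 r I 0 := hmain
    _ ≤ C * d * Real.exp (-(γ0 * d)) * (Real.exp (ε * d) * (e * volume.real (Dr p r I δ))) :=
        mul_le_mul_of_nonneg_left hU1 (by positivity)
    _ ≤ C * d * Real.exp (-(γ0 * d)) * (Real.exp (ε * d) * (2 / δ * Gt p r J 0)) :=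
        mul_le_mul_of_nonneg_left (mul_le_mul_of_nonneg_left hL (Real.exp_pos _).le)
          (by positivity)
    _ = C * d * Real.exp (-(γ0 * d)) * Real.exp (ε * d) * (2 / δ) * Gt p r J 0 := by ring
    _ ≤ Real.exp (-(γ0 / 4 * d)) * Gt p r J 0 := mul_le_mul_of_nonneg_right hcomb hGJ0

end Pool.Agent.Lib.MP_0c1c75_co.KPI
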