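import Pool.Agent.Lib.MP_0c1c75_co.KPI.SpecH

/-!
# MP_0c1c75_co, project KPI: heights in a class which is not fat (`S_NFX`)
-/

set_option autoImplicit false

open MeasureTheory Set Metric

namespace Pool.Agent.Lib.MP_0c1c75_co.KPI

private lemma NFX_sub {d N : ℕ} (p : Fin N → E d) (r : Fin N → ℝ) (J : Finset (Fin N)) (δ h : ℝ)
    (i : Fin N) (hi : i ∈ J) (hp : 0 < ‖p i‖) (hk : kap (p i) (r i) + δ ≤ h) :
    {x : E d | ‖x‖ ≤ 1 ∧ h * ‖x‖ < inner ℝ (-((1 / ‖p i‖) • p i)) x} ⊆ Dr p r J δ := by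
  rintro x ⟨hx1, hx2⟩
  refine ⟨hx1, i, hi, ?_⟩
  rw [inner_neg_left, real_inner_smul_left] at hx2
  have h1 : h * ‖x‖ * ‖p i‖ < -inner ℝ (p i) x := by
    have h2 := mul_lt_mul_of_pos_right hx2 hp
    have h3 : -(1 / ‖p i‖ * inner ℝ (p i) x) * ‖p i‖ = -inner ℝ (p i) x := by
      field_simp
    rwa [h3] at h2
  have h4 : (kap (p i) (r i) + δ) * (‖p i‖ * ‖x‖) ≤ h * (‖p i‖ * ‖x‖) :=
    mul_le_mul_of_nonneg_right hk (by positivity)
  calc (kap (p i) (r i) + δ) * (‖p i‖ * ‖x‖) ≤ h * (‖p i‖ * ‖x‖) := h4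
    _ = h * ‖x‖ * ‖p i‖ := by ring
    _ < _ := h1

theorem sNFX (hCap : S_Cap) : S_NFX := by
  intro η hη
  set a : ℝ := 1 - Real.exp (-(2 * η)) with ha
  have ha1 : a < 1 := by
    have := Real.exp_pos (-(2 * η))
    linarith
  have ha0 : 0 < a := by
    have : Real.exp (-(2 * η)) < 1 := by
      rw [Real.exp_lt_one_iff]; linarith
    linarith
  have hh : -(Real.log (1 - (a / 2) ^ 2)) / 2 < η := by
    have h1 : Real.exp (-(2 * η)) < 1 - (a / 2) ^ 2 := by
      have : (a / 2) ^ 2 < a := by nlinarith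
      linarith
    have h2 : -(2 * η) < Real.log (1 - (a / 2) ^ 2) := by
      rw [Real.lt_log_iff_exp_lt (lt_trans (Real.exp_pos _) h1)]
      exact h1
    linarith
  obtain ⟨d1, hd1⟩ := hCap (a / 2) η (by linarith) (by linarith) hh
  refine ⟨a / 4, by linarith, by linarith, d1, ?_⟩
  intro d hd N p r J δ hδ hδκ hp hvol i hi
  by_contra hlt
  rw [not_le] at hlt
  have hpi := hp i hi
  have hv : ‖-((1 / ‖p i‖) • p i)‖ = 1 := by
    rw [norm_neg, norm_smul, Real.norm_eq_abs, abs_of_pos (by positivity)]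
    field_simp
  have h1 := hd1 d hd _ hv
  have h2 := NFX_sub p r J δ (a / 2) i hi hpi (by linarith)
  have h3 : volume (Dr p r J δ) ≠ ⊤ := by
    have h4 : Dr p r J δ ⊆ closedBall (0 : E d) 1 := by
      intro x hx
      rw [mem_closedBall, dist_zero_right]
      exact hx.1
    exact ne_top_of_le_ne_top (measure_closedBall_lt_top).ne (measure_mono h4)
  have h5 := measureReal_mono h2 h3
  linarith

end Pool.Agent.Lib.MP_0c1c75_co.KPI
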