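import Pool.Agent.Lib.MP_0c1c75_co.KPI.SpecH

/-!
# MP_0c1c75_co, project KPI: all indices in classes which are not fat (S_NonF)
-/

set_option autoImplicit false

open MeasureTheory Set Metric

namespace Pool.Agent.Lib.MP_0c1c75_co.KPI

private lemma Gt_empty {d N : ℕ} (p : Fin N → E d) (r : Fin N → ℝ) (t : ℝ) :
    Gt p r ∅ t = 0 := by
  unfold Gt
  have : {x : E d | ‖x‖ ^ 2 ≤ 1 + t ∧ ∃ i ∈ (∅ : Finset (Fin N)), r i ^ 2 + t < ‖x - p i‖ ^ 2} =
      ∅ := by
    ext x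
    simp
  rw [this, measureReal_empty]

private lemma Gt_nonneg {d N : ℕ} (p : Fin N → E d) (r : Fin N → ℝ) (J : Finset (Fin N)) (t : ℝ) :
    0 ≤ Gt p r J t := measureReal_nonneg

private lemma Gt_biUnion (hLowG : S_LowG) {d N : ℕ} (p : Fin N → E d) (r : Fin N → ℝ)
    (hd : 0 < d) (s : Finset ℕ) (t : ℕ → Finset (Fin N)) :
    Gt p r (s.biUnion t) 0 ≤ ∑ k ∈ s, Gt p r (t k) 0 := by
  induction s using Finset.induction_on with
  | empty => simp [Gt_empty]
  | insert a s ha ih =>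
    rw [Finset.biUnion_insert, Finset.sum_insert ha]
    have h := (hLowG d N p r (t a) hd).2.2.2.1 (s.biUnion t)
    linarith

private lemma exp_big (C γ : ℝ) (hγ : 0 < γ) :
    ∃ d2 : ℕ, ∀ d : ℕ, d2 ≤ d → 3 * C * d + 3 ≤ Real.exp (γ * d) := by
  refine ⟨⌈(6 * C + 6) / γ ^ 2⌉₊ + 1, fun d hd => ?_⟩
  have h1 : (6 * C + 6) / γ ^ 2 ≤ d := by
    refine (Nat.le_ceil _).trans ?_
    exact_mod_cast (by omega : ⌈(6 * C + 6) / γ ^ 2⌉₊ ≤ d)
  have hd1 : (1 : ℝ) ≤ d := by exact_mod_cast (by omega : 1 ≤ d)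
  have hγ2 : 0 < γ ^ 2 := by positivity
  have h2 : 6 * C + 6 ≤ γ ^ 2 * d := by
    rw [div_le_iff₀ hγ2] at h1
    linarith
  have h3 := Real.quadratic_le_exp_of_nonneg (x := γ * d) (by positivity)
  have h4 : (6 * C + 6) * d ≤ (γ * d) ^ 2 := by
    calc (6 * C + 6) * d ≤ (γ ^ 2 * d) * d := by gcongr
      _ = (γ * d) ^ 2 := by ring
  have h5 : 0 ≤ γ * d := by positivity
  nlinarith

theorem sNonF (hNF : S_NF) (hNFX : S_NFX) (hKk : S_Kk) (hSml : S_Sml) (hLowG : S_LowG)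
    (hIrr : S_Irr) : S_NonF := by
  classical
  intro b η hb0 hb1 hη
  obtain ⟨κ0, hκ0, hκ1, d1a, hX⟩ := hNFX η hη
  obtain ⟨δ, γ1, hδ, hδκ, hγ1, d1b, hF⟩ := hNF b κ0 η hb0 hb1 hκ0 hκ1 hη
  obtain ⟨C, hC, d1c, hS⟩ := hSml b hb0 hb1
  set γ := min γ1 (C / 2) / 2 with hγdef
  have hmin : 0 < min γ1 (C / 2) := lt_min hγ1 (by linarith)
  have hγ : 0 < γ := by rw [hγdef]; linarith
  have hγa : 2 * γ ≤ γ1 := by
    rw [hγdef]
    have := min_le_left γ1 (C / 2)
    linarith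
  have hγb : 2 * γ ≤ C / 2 := by
    rw [hγdef]
    have := min_le_right γ1 (C / 2)
    linarith
  obtain ⟨d2, hd2⟩ := exp_big C γ hγ
  refine ⟨δ, γ, hδ, hδκ.trans hκ1.le, hγ, max (max d1a d1b) (max (max d1c d2) 1), ?_⟩
  intro d hd N p q1 r hcon hq1 hr
  have hda : d1a ≤ d := le_trans (le_trans (le_max_left _ _) (le_max_left _ _)) hd
  have hdb : d1b ≤ d := le_trans (le_trans (le_max_right _ _) (le_max_left _ _)) hd
  have hdc : d1c ≤ d := le_trans (le_trans (le_trans (le_max_left _ _) (le_max_left _ _))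
    (le_max_right _ _)) hd
  have hd2' : d2 ≤ d := le_trans (le_trans (le_trans (le_max_right _ _) (le_max_left _ _))
    (le_max_right _ _)) hd
  have hd0 : 0 < d := le_trans (le_trans (le_max_right _ _) (le_max_right _ _)) hd
  set q : Fin N → E d := fun i => b • q1 i with hq
  set T := TN η δ p q r with hT
  have hU : 0 ≤ Gt p r Finset.univ 0 := Gt_nonneg _ _ _ _
  -- relevant indices
  have hrel : ∀ i ∈ Rel q r, r i < 1 + b * ‖q1 i‖ ∧ 0 < ‖p i‖ := by
    intro i hi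
    unfold Rel at hi
    rw [Finset.mem_filter] at hi
    have h1 : ‖q i‖ = b * ‖q1 i‖ := by
      rw [hq]
      simp only [norm_smul, Real.norm_eq_abs, abs_of_pos hb0]
    have h2 : r i < 1 + b * ‖q1 i‖ := by
      rw [← h1]; exact hi.2
    exact ⟨h2, (hIrr.2 d b (r i) (p i) (q1 i) hb0 hb1 (hq1 i) (hr i) h2).1⟩
  have hTrel : ∀ i ∈ T, i ∈ Rel q r := fun i hi => (Finset.mem_filter.1 hi).1
  rcases T.eq_empty_or_nonempty with hE | hne
  · rw [hE, Gt_empty]
    exact mul_nonneg (Real.exp_nonneg _) hU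
  obtain ⟨i0, hi0, hmax⟩ := Finset.exists_max_image T (fun i => ‖p i‖) hne
  set P := ‖p i0‖ with hP
  have hP0 : 0 < P := (hrel i0 (hTrel i0 hi0)).2
  set J' := T.filter (fun i => ‖p i‖ ≤ min P 1 * Real.exp (-(2 * C * d))) with hJ'
  have hsml := hS d hdc N p q1 r T J' P hq1 hr (fun i hi => (hrel i (hTrel i hi)).1)
    ⟨i0, hi0, rfl⟩ hP0 (Finset.filter_subset _ _) (fun i hi => (Finset.mem_filter.1 hi).2)
  obtain ⟨k0, hk0⟩ := hKk.2 P (2 * C * d) hP0 (by positivity)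
  set m := ⌊1 + 3 / 2 * (2 * C * (d : ℝ))⌋₊ with hm
  set K' := (Finset.Icc k0 (k0 + m)).filter (fun k => ¬ Ft η δ p q r k) with hK'
  have hcov : T ⊆ J' ∪ K'.biUnion (fun k => Jk p q r k) := by
    intro i hi
    rw [Finset.mem_union]
    by_cases hiJ : ‖p i‖ ≤ min P 1 * Real.exp (-(2 * C * d))
    · left
      rw [hJ', Finset.mem_filter]
      exact ⟨hi, hiJ⟩
    · right
      rw [not_le] at hiJ
      obtain ⟨k, hk⟩ := hKk.1 ‖p i‖ (hrel i (hTrel i hi)).2
      obtain ⟨hk1, hk2⟩ := hk0 ‖p i‖ k hk (hmax i hi) hiJ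
      rw [Finset.mem_biUnion]
      have hik : i ∈ Jk p q r k := Finset.mem_filter.2 ⟨hTrel i hi, hk⟩
      refine ⟨k, ?_, hik⟩
      rw [hK', Finset.mem_filter, Finset.mem_Icc]
      refine ⟨⟨hk1, ?_⟩, ?_⟩
      · have h3 : k - k0 ≤ m := by
          rw [hm]
          apply Nat.le_floor
          rw [Nat.cast_sub hk1]
          linarith
        omega
      · intro hft
        have h4 := (Finset.mem_filter.1 hi).2
        exact h4 ⟨k, hft, hik⟩
  have hcls : ∀ k ∈ K', Gt q r (Jk p q r k) 0 ≤ Real.exp (-(γ1 * d)) * Gt p r Finset.univ 0 := by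
    intro k hk
    rw [hK', Finset.mem_filter] at hk
    have hnf : volume.real (Dr p r (Jk p q r k) δ) < Real.exp (-(η * d)) * om d := not_le.1 hk.2
    have hJrel : ∀ i ∈ Jk p q r k, i ∈ Rel q r := fun i hi => (Finset.mem_filter.1 hi).1
    have hkap := hX d hda N p r (Jk p q r k) δ hδ hδκ
      (fun i hi => (hrel i (hJrel i hi)).2) hnf
    have h1 := hF d hdb N p q1 r (Jk p q r k) ((1 / 2) ^ k) hcon hq1 hr
      (fun i hi => ⟨hkap i hi, (hrel i (hJrel i hi)).1⟩) (by positivity)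
      (pow_le_one₀ (by norm_num) (by norm_num)) (fun i hi => (Finset.mem_filter.1 hi).2) hnf.le
    have h2 := (hLowG d N p r Finset.univ hd0).2.2.2.2 (Jk p q r k) (Finset.subset_univ _)
    exact h1.trans (mul_le_mul_of_nonneg_left h2 (Real.exp_nonneg _))
  have hK'card : (K'.card : ℝ) ≤ 3 * C * d + 2 := by
    have h1 : K'.card ≤ m + 1 := by
      refine (Finset.card_filter_le _ _).trans ?_
      rw [Nat.card_Icc]
      omega
    have h2 : (m : ℝ) ≤ 1 + 3 / 2 * (2 * C * (d : ℝ)) := Nat.floor_le (by positivity)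
    have h3 : (K'.card : ℝ) ≤ m + 1 := by exact_mod_cast h1
    linarith
  have hmain : Gt q r T 0 ≤ Real.exp (-(C / 2 * d)) * Gt p r Finset.univ 0 +
      (3 * C * d + 2) * (Real.exp (-(γ1 * d)) * Gt p r Finset.univ 0) := by
    have e1 := (hLowG d N q r (J' ∪ K'.biUnion (fun k => Jk p q r k)) hd0).2.2.2.2 T hcov
    have e2 := (hLowG d N q r J' hd0).2.2.2.1 (K'.biUnion (fun k => Jk p q r k))
    have e3 := Gt_biUnion hLowG q r hd0 K' (fun k => Jk p q r k)
    have e4 : ∑ k ∈ K', Gt q r (Jk p q r k) 0 ≤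
        (3 * C * d + 2) * (Real.exp (-(γ1 * d)) * Gt p r Finset.univ 0) := by
      refine (Finset.sum_le_card_nsmul K' _ _ hcls).trans ?_
      rw [nsmul_eq_mul]
      exact mul_le_mul_of_nonneg_right hK'card (mul_nonneg (Real.exp_nonneg _) hU)
    linarith
  refine hmain.trans ?_
  have hd0' : (0 : ℝ) < d := by exact_mod_cast hd0
  have g1 : Real.exp (-(γ1 * d)) ≤ Real.exp (-(γ * d)) * Real.exp (-(γ * d)) := by
    rw [← Real.exp_add]
    apply Real.exp_le_exp.2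
    nlinarith
  have g2 : Real.exp (-(C / 2 * d)) ≤ Real.exp (-(γ * d)) * Real.exp (-(γ * d)) := by
    rw [← Real.exp_add]
    apply Real.exp_le_exp.2
    nlinarith
  have g3 := hd2 d hd2'
  have g4 : (3 * C * d + 3) * Real.exp (-(γ * d)) ≤ 1 := by
    calc (3 * C * d + 3) * Real.exp (-(γ * d)) ≤ Real.exp (γ * d) * Real.exp (-(γ * d)) :=
          mul_le_mul_of_nonneg_right g3 (Real.exp_nonneg _)
      _ = 1 := by rw [← Real.exp_add]; simp
  have g5 : Real.exp (-(C / 2 * d)) + (3 * C * d + 2) * Real.exp (-(γ1 * d)) ≤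
      Real.exp (-(γ * d)) := by
    have hx : 0 ≤ Real.exp (-(γ * d)) := Real.exp_nonneg _
    have hpos : 0 ≤ 3 * C * d + 2 := by positivity
    calc Real.exp (-(C / 2 * d)) + (3 * C * d + 2) * Real.exp (-(γ1 * d))
        ≤ Real.exp (-(γ * d)) * Real.exp (-(γ * d)) +
          (3 * C * d + 2) * (Real.exp (-(γ * d)) * Real.exp (-(γ * d))) :=
          add_le_add g2 (mul_le_mul_of_nonneg_left g1 hpos)
      _ = ((3 * C * d + 3) * Real.exp (-(γ * d))) * Real.exp (-(γ * d)) := by ring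
      _ ≤ 1 * Real.exp (-(γ * d)) := mul_le_mul_of_nonneg_right g4 hx
      _ = Real.exp (-(γ * d)) := one_mul _
  calc Real.exp (-(C / 2 * d)) * Gt p r Finset.univ 0 +
      (3 * C * d + 2) * (Real.exp (-(γ1 * d)) * Gt p r Finset.univ 0)
      = (Real.exp (-(C / 2 * d)) + (3 * C * d + 2) * Real.exp (-(γ1 * d))) *
        Gt p r Finset.univ 0 := by ring
    _ ≤ Real.exp (-(γ * d)) * Gt p r Finset.univ 0 := mul_le_mul_of_nonneg_right g5 hU

end Pool.Agent.Lib.MP_0c1c75_co.KPI
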