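import Pool.Agent.Lib.MP_0c1c75_co.KPI.SpecB

/-!
# MP_0c1c75_co, project KPI: nested version of the deficiency argument (helper34)
-/

set_option autoImplicit false

open MeasureTheory Set Metric

namespace Pool.Agent.Lib.MP_0c1c75_co.KPI

theorem sNst (hDfc : S_Dfc) : S_Nst := by
  intro ι _ I w M ψ hM hw h0 hmono hsub n
  induction n with
  | zero =>
    intro _
    exact ⟨I, Finset.Subset.refl _, by simp, fun j hj => absurd hj (Nat.not_lt_zero j)⟩
  | succ n ih =>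
    intro h
    obtain ⟨J, hJI, hJw, hJ⟩ := ih (fun j hj => h j (Nat.lt_succ_of_lt hj))
    obtain ⟨K, hKJ, k, hk, hKw, hK⟩ := hDfc ι J w M (ψ n) hM hw (h0 n) (hmono n) (hsub n)
      (fun J' hJ' => h n (Nat.lt_succ_self n) J' (hJ'.trans hJI))
    refine ⟨K, hKJ.trans hJI, ?_, ?_⟩
    · calc ∑ i ∈ I, w i ≤ (2 * (M : ℝ)) ^ n * ∑ i ∈ J, w i := hJw
        _ ≤ (2 * (M : ℝ)) ^ n * (2 * M * ∑ i ∈ K, w i) :=
          mul_le_mul_of_nonneg_left hKw (by positivity)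
        _ = (2 * (M : ℝ)) ^ (n + 1) * ∑ i ∈ K, w i := by ring
    · intro j hj
      rcases Nat.lt_succ_iff_lt_or_eq.1 hj with hj' | rfl
      · obtain ⟨k', hk', h'⟩ := hJ j hj'
        exact ⟨k', hk', fun J' hJ' => h' J' (hJ'.trans hKJ)⟩
      · exact ⟨k, hk, hK⟩

end Pool.Agent.Lib.MP_0c1c75_co.KPI
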