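import Pool.Agent.Lib.MP_0c1c75_co.KPI.SpecB

/-!
# MP_0c1c75_co, project KPI: polynomial factors
-/

set_option autoImplicit false

open MeasureTheory Set Metric Filter

namespace Pool.Agent.Lib.MP_0c1c75_co.KPI

theorem sPol : S_Pol := by
  intro K L ε C hK hL hε hC
  have hC' : 0 < C * 32 * (2 * K + 2) * (235008 * (2 * K + 1) ^ 7 * (4 * L) ^ 4) ^ 2 := by
    positivity
  set C' : ℝ := C * 32 * (2 * K + 2) * (235008 * (2 * K + 1) ^ 7 * (4 * L) ^ 4) ^ 2 with hC'def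
  have h1 := (isLittleO_pow_exp_pos_mul_atTop (k := 16) hε).bound (inv_pos.mpr hC')
  have h2 := (tendsto_natCast_atTop_atTop (R := ℝ)).eventually h1
  obtain ⟨d0, hd0⟩ := eventually_atTop.mp h2
  refine ⟨max d0 1, fun d hd T hT => ?_⟩
  have hd1 : (1 : ℝ) ≤ d := by exact_mod_cast (le_max_right d0 1).trans hd
  have h3 := hd0 d ((le_max_left d0 1).trans hd)
  rw [Real.norm_eq_abs, Real.norm_eq_abs, abs_of_nonneg (by positivity),
    abs_of_pos (Real.exp_pos _)] at h3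
  have hT1 : (T : ℝ) ≤ (2 * K + 1) * d := by nlinarith
  have hT2 : (T : ℝ) + 1 ≤ (2 * K + 2) * d := by nlinarith
  have hT0 : (0 : ℝ) ≤ T := Nat.cast_nonneg T
  have h4 : pol T L ≤ 32 * ((2 * K + 2) * d) *
      (235008 * ((2 * K + 1) * d) ^ 7 * (4 * L) ^ 4) ^ 2 := by
    unfold pol
    gcongr
  calc C * d * pol T L ≤ C * d * (32 * ((2 * K + 2) * d) *
      (235008 * ((2 * K + 1) * d) ^ 7 * (4 * L) ^ 4) ^ 2) := by
        apply mul_le_mul_of_nonneg_left h4
        positivity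
    _ = C' * (d : ℝ) ^ 16 := by rw [hC'def]; ring
    _ ≤ C' * (C'⁻¹ * Real.exp (ε * d)) := mul_le_mul_of_nonneg_left h3 hC'.le
    _ = Real.exp (ε * d) := by field_simp

end Pool.Agent.Lib.MP_0c1c75_co.KPI
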