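import Pool.Agent.Lib.MP_0c1c75_co.KPI.SpecS
import Pool.Agent.Lib.MP_0c1c75_co.Polar

/-!
# MP_0c1c75_co, project KPI, module Psh: the radial push forward

The outward map `y ↦ √(1 + t/‖y‖²) y` does not decrease volumes (polar coordinates).
-/

set_option autoImplicit false

open MeasureTheory Set Metric

namespace Pool.Agent.Lib.MP_0c1c75_co.KPI

open MeasureTheory.Measure

private lemma Psh_sub (n : ℕ) (F : Set ℝ) (hF : MeasurableSet F) :
    ∫⁻ τ : Ioi (0 : ℝ), F.indicator (fun _ => (1 : ENNReal)) τ.1 ∂volumeIoiPow n =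
      ∫⁻ τ in F ∩ Ioi 0, ENNReal.ofReal (τ ^ n) := by
  unfold volumeIoiPow
  have hm : Measurable fun τ : Ioi (0 : ℝ) => F.indicator (fun _ => (1 : ENNReal)) τ.1 :=
    (measurable_const.indicator hF).comp measurable_subtype_coe
  rw [lintegral_withDensity_eq_lintegral_mul _ (by fun_prop) hm]
  have h1 : ∫⁻ τ : Ioi (0 : ℝ), ((fun r : Ioi (0 : ℝ) => ENNReal.ofReal (r.1 ^ n)) *
      fun τ : Ioi (0 : ℝ) => F.indicator (fun _ => (1 : ENNReal)) τ.1) τ ∂(comap Subtype.val volume) =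
      ∫⁻ τ in Ioi (0 : ℝ), F.indicator (fun τ => ENNReal.ofReal (τ ^ n)) τ := by
    rw [← lintegral_subtype_comap measurableSet_Ioi]
    refine lintegral_congr fun τ => ?_
    simp only [Pi.mul_apply]
    by_cases h : τ.1 ∈ F
    · rw [indicator_of_mem h, indicator_of_mem h, mul_one]
    · rw [indicator_of_notMem h, indicator_of_notMem h, mul_zero]
  rw [h1, lintegral_indicator hF, restrict_restrict hF]

private lemma Psh_one (d : ℕ) (hd : 2 ≤ d) (B : Set ℝ) (hB : MeasurableSet B) (t : ℝ)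
    (ht : 0 ≤ t) :
    ∫⁻ τ in B ∩ Ioi 0, ENNReal.ofReal (τ ^ (d - 1)) ≤
      ∫⁻ ρ in {ρ : ℝ | t < ρ ^ 2 ∧ Real.sqrt (ρ ^ 2 - t) ∈ B} ∩ Ioi 0,
        ENNReal.ofReal (ρ ^ (d - 1)) := by
  obtain ⟨k, rfl⟩ : ∃ k, d = k + 2 := ⟨d - 2, by omega⟩
  have hk : k + 2 - 1 = k + 1 := by omega
  rw [hk]
  have hms : MeasurableSet (B ∩ Ioi (0 : ℝ)) := hB.inter measurableSet_Ioi
  have hpos : ∀ τ ∈ B ∩ Ioi (0 : ℝ), 0 < Real.sqrt (τ ^ 2 + t) := fun τ hτ => by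
    have h0 : (0 : ℝ) < τ := hτ.2
    exact Real.sqrt_pos.2 (by positivity)
  have hder : ∀ τ ∈ B ∩ Ioi (0 : ℝ), HasDerivWithinAt (fun τ : ℝ => Real.sqrt (τ ^ 2 + t))
      (τ / Real.sqrt (τ ^ 2 + t)) (B ∩ Ioi 0) τ := fun τ hτ => by
    have h0 : (0 : ℝ) < τ := hτ.2
    have h1 : HasDerivAt (fun τ : ℝ => τ ^ 2 + t) (2 * τ) τ := by
      simpa using (hasDerivAt_pow 2 τ).add_const t
    have h2 := h1.sqrt (by positivity : τ ^ 2 + t ≠ 0)
    have h3 : 2 * τ / (2 * Real.sqrt (τ ^ 2 + t)) = τ / Real.sqrt (τ ^ 2 + t) := by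
      rw [mul_div_mul_left _ _ (two_ne_zero)]
    rw [h3] at h2
    exact h2.hasDerivWithinAt
  have hinj : InjOn (fun τ : ℝ => Real.sqrt (τ ^ 2 + t)) (B ∩ Ioi 0) := by
    intro a ha b hb hab
    have ha0 : (0 : ℝ) < a := ha.2
    have hb0 : (0 : ℝ) < b := hb.2
    have h1 : a ^ 2 + t = b ^ 2 + t := by
      have h2 : Real.sqrt (a ^ 2 + t) = Real.sqrt (b ^ 2 + t) := hab
      rwa [Real.sqrt_inj (by positivity) (by positivity)] at h2
    have h3 : a ^ 2 = b ^ 2 := by linarith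
    exact (pow_left_inj₀ ha0.le hb0.le two_ne_zero).1 h3
  calc ∫⁻ τ in B ∩ Ioi 0, ENNReal.ofReal (τ ^ (k + 1))
      ≤ ∫⁻ τ in B ∩ Ioi 0, ENNReal.ofReal |τ / Real.sqrt (τ ^ 2 + t)| *
        ENNReal.ofReal (Real.sqrt (τ ^ 2 + t) ^ (k + 1)) := by
        refine setLIntegral_mono' hms fun τ hτ => ?_
        have h0 : (0 : ℝ) < τ := hτ.2
        have hs := hpos τ hτ
        rw [← ENNReal.ofReal_mul (abs_nonneg _)]
        refine ENNReal.ofReal_le_ofReal ?_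
        rw [abs_of_pos (by positivity)]
        have h1 : τ / Real.sqrt (τ ^ 2 + t) * Real.sqrt (τ ^ 2 + t) ^ (k + 1) =
            τ * Real.sqrt (τ ^ 2 + t) ^ k := by
          rw [pow_succ]
          field_simp
          ring
        rw [h1, pow_succ, mul_comm]
        refine mul_le_mul_of_nonneg_left ?_ h0.le
        refine pow_le_pow_left₀ h0.le ?_ k
        exact Real.le_sqrt_of_sq_le (by linarith)
    _ = ∫⁻ ρ in (fun τ : ℝ => Real.sqrt (τ ^ 2 + t)) '' (B ∩ Ioi 0),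
        ENNReal.ofReal (ρ ^ (k + 1)) :=
        (lintegral_image_eq_lintegral_abs_deriv_mul hms hder hinj
          (fun ρ => ENNReal.ofReal (ρ ^ (k + 1)))).symm
    _ ≤ ∫⁻ ρ in {ρ : ℝ | t < ρ ^ 2 ∧ Real.sqrt (ρ ^ 2 - t) ∈ B} ∩ Ioi 0,
        ENNReal.ofReal (ρ ^ (k + 1)) := by
        refine lintegral_mono_set ?_
        rintro _ ⟨τ, hτ, rfl⟩
        have h0 : (0 : ℝ) < τ := hτ.2
        have hs := hpos τ hτ
        have h1 : Real.sqrt (τ ^ 2 + t) ^ 2 = τ ^ 2 + t := Real.sq_sqrt (by positivity)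
        refine ⟨⟨?_, ?_⟩, hs⟩
        · change t < Real.sqrt (τ ^ 2 + t) ^ 2
          rw [h1]
          have : 0 < τ ^ 2 := by positivity
          linarith
        · change Real.sqrt (Real.sqrt (τ ^ 2 + t) ^ 2 - t) ∈ B
          rw [h1, add_sub_cancel_right, Real.sqrt_sq h0.le]
          exact hτ.1

/-- the outward map does not decrease volumes -/
theorem sPsh : S_Psh := by
  intro d A t hd hA ht
  have hd0 : 0 < d := by omega
  have hA' : MeasurableSet {x : E d | t < ‖x‖ ^ 2 ∧ Real.sqrt (1 - t / ‖x‖ ^ 2) • x ∈ A} := by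
    have h1 : MeasurableSet {x : E d | t < ‖x‖ ^ 2} :=
      measurableSet_lt measurable_const (by fun_prop)
    have hf : Measurable fun x : E d => Real.sqrt (1 - t / ‖x‖ ^ 2) • x := by
      fun_prop
    exact h1.inter (hf hA)
  have e1 : volume A = ∫⁻ x : E d, A.indicator (fun _ => (1 : ENNReal)) x := by
    rw [lintegral_indicator hA, setLIntegral_const, one_mul]
  have e2 : volume {x : E d | t < ‖x‖ ^ 2 ∧ Real.sqrt (1 - t / ‖x‖ ^ 2) • x ∈ A} =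
      ∫⁻ x : E d, {x : E d | t < ‖x‖ ^ 2 ∧ Real.sqrt (1 - t / ‖x‖ ^ 2) • x ∈ A}.indicator
        (fun _ => (1 : ENNReal)) x := by
    rw [lintegral_indicator hA', setLIntegral_const, one_mul]
  rw [e1, e2, Polar.lint hd0 _ (measurable_const.indicator hA),
    Polar.lint hd0 _ (measurable_const.indicator hA')]
  refine lintegral_mono fun u => ?_
  have hu : ‖u.1‖ = 1 := by simpa using u.2
  have hBm : MeasurableSet {τ : ℝ | τ • u.1 ∈ A} := by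
    have hf : Measurable fun τ : ℝ => τ • u.1 := by fun_prop
    exact hf hA
  have hCm : MeasurableSet {ρ : ℝ | t < ρ ^ 2 ∧ Real.sqrt (ρ ^ 2 - t) ∈ {τ : ℝ | τ • u.1 ∈ A}} := by
    have h1 : MeasurableSet {ρ : ℝ | t < ρ ^ 2} :=
      measurableSet_lt measurable_const (by fun_prop)
    have hf : Measurable fun ρ : ℝ => Real.sqrt (ρ ^ 2 - t) := by fun_prop
    exact h1.inter (hf hBm)
  have i1 : ∫⁻ τ : Ioi (0 : ℝ), A.indicator (fun _ => (1 : ENNReal)) (τ.1 • u.1)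
      ∂volumeIoiPow (d - 1) =
      ∫⁻ τ in {τ : ℝ | τ • u.1 ∈ A} ∩ Ioi 0, ENNReal.ofReal (τ ^ (d - 1)) := by
    rw [← Psh_sub (d - 1) _ hBm]
    rfl
  have i2 : ∫⁻ τ : Ioi (0 : ℝ), {x : E d | t < ‖x‖ ^ 2 ∧
      Real.sqrt (1 - t / ‖x‖ ^ 2) • x ∈ A}.indicator (fun _ => (1 : ENNReal)) (τ.1 • u.1)
      ∂volumeIoiPow (d - 1) =
      ∫⁻ τ in {ρ : ℝ | t < ρ ^ 2 ∧ Real.sqrt (ρ ^ 2 - t) ∈ {τ : ℝ | τ • u.1 ∈ A}} ∩ Ioi 0,
        ENNReal.ofReal (τ ^ (d - 1)) := by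
    rw [← Psh_sub (d - 1) _ hCm]
    refine lintegral_congr fun ρ => ?_
    have h0 : (0 : ℝ) < ρ.1 := ρ.2
    have hn : ‖ρ.1 • u.1‖ = ρ.1 := by
      rw [norm_smul, hu, mul_one, Real.norm_eq_abs, abs_of_pos h0]
    have hiff : ρ.1 • u.1 ∈ {x : E d | t < ‖x‖ ^ 2 ∧ Real.sqrt (1 - t / ‖x‖ ^ 2) • x ∈ A} ↔
        ρ.1 ∈ {ρ : ℝ | t < ρ ^ 2 ∧ Real.sqrt (ρ ^ 2 - t) ∈ {τ : ℝ | τ • u.1 ∈ A}} := by
      simp only [mem_setOf_eq]
      rw [hn, smul_smul]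
      refine and_congr_right fun hlt => ?_
      have h1 : Real.sqrt (1 - t / ρ.1 ^ 2) * ρ.1 = Real.sqrt (ρ.1 ^ 2 - t) := by
        have h2 : ρ.1 ^ 2 - t = (1 - t / ρ.1 ^ 2) * ρ.1 ^ 2 := by
          field_simp
        rw [h2, Real.sqrt_mul' _ (by positivity), Real.sqrt_sq h0.le]
      rw [h1]
    by_cases h : ρ.1 • u.1 ∈ {x : E d | t < ‖x‖ ^ 2 ∧ Real.sqrt (1 - t / ‖x‖ ^ 2) • x ∈ A}
    · rw [indicator_of_mem h, indicator_of_mem (hiff.1 h)]
    · rw [indicator_of_notMem h, indicator_of_notMem fun h' => h (hiff.2 h')]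
  rw [i1, i2]
  exact Psh_one d hd _ hBm t ht

end Pool.Agent.Lib.MP_0c1c75_co.KPI
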