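import Pool.Agent.Lib.MP_0c1c75_co.KPI.SpecS

/-!
# MP_0c1c75_co, project KPI: pointwise bounds
-/

set_option autoImplicit false

open MeasureTheory Set Metric

namespace Pool.Agent.Lib.MP_0c1c75_co.KPI

private theorem Ptw_h {d : ℕ} {x : E d} {r : ℝ} (hx : 0 < ‖x‖) (hk : 0 < kap x r) :
    0 < r ^ 2 - 1 - ‖x‖ ^ 2 := by
  unfold kap at hk
  have h2 : 0 < 2 * ‖x‖ := by linarith
  by_contra h
  exact absurd hk (not_lt.mpr (div_nonpos_of_nonpos_of_nonneg (not_lt.mp h) h2.le))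

private theorem Ptw_pow {y z a : ℝ} (hy : 0 ≤ y) (hyz : y ≤ z) (ha : 1 ≤ a) :
    z ^ a - y ^ a ≤ a * z ^ (a - 1) * (z - y) := by
  rcases eq_or_lt_of_le (hy.trans hyz) with hz | hz
  · have hy0 : y = 0 := le_antisymm (by rw [hz]; exact hyz) hy
    rw [hy0, ← hz]
    simp
  · have hs : -1 ≤ (y - z) / z := by
      rw [le_div_iff₀ hz]
      linarith
    have h1 := one_add_mul_self_le_rpow_one_add hs ha
    have h2 : 1 + (y - z) / z = y / z := by
      field_simp
      ring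
    rw [h2, Real.div_rpow hy hz.le] at h1
    have hza : 0 < z ^ a := Real.rpow_pos_of_pos hz a
    rw [le_div_iff₀ hza] at h1
    have h3 : z ^ (a - 1) = z ^ a / z := Real.rpow_sub_one hz.ne' a
    rw [h3]
    have h4 : (1 + a * ((y - z) / z)) * z ^ a = z ^ a - a * (z ^ a / z) * (z - y) := by
      field_simp
      ring
    rw [h4] at h1
    linarith

theorem sPtw : S_Ptw := by
  intro d N p r J S hS hJ x hx
  have hx' : ‖x‖ ^ 2 ≤ 1 + S := hx
  have hle : ‖x‖ ^ 2 - 1 ≤ gJ p r J x := by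
    unfold gJ
    rw [Finset.le_fold_max]
    exact Or.inl le_rfl
  have hexp : ∀ i, ‖x - p i‖ ^ 2 = ‖x‖ ^ 2 - 2 * inner ℝ (p i) x + ‖p i‖ ^ 2 := by
    intro i
    rw [norm_sub_sq_real, real_inner_comm]
  refine ⟨hle, ?_, ?_⟩
  · intro hun
    refine le_antisymm ?_ hle
    unfold gJ
    rw [Finset.fold_max_le]
    refine ⟨le_rfl, fun i hi => ?_⟩
    by_contra hc
    push Not at hc
    apply hun
    obtain ⟨hp, hk⟩ := hJ i hi
    have hh := Ptw_h hp hk
    refine ⟨nv (p i) (r i), ?_, ?_⟩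
    · unfold Nv
      exact Finset.mem_image_of_mem _ hi
    · unfold nv
      rw [real_inner_smul_left]
      rw [hexp i] at hc
      have h2 : 2 * inner ℝ (p i) x < -(r i ^ 2 - 1 - ‖p i‖ ^ 2) := by linarith
      have h3 : -(2 / (r i ^ 2 - 1 - ‖p i‖ ^ 2)) * inner ℝ (p i) x =
          -(2 * inner ℝ (p i) x) / (r i ^ 2 - 1 - ‖p i‖ ^ 2) := by
        field_simp
      rw [h3, lt_div_iff₀ hh]
      linarith
  · intro e a he ha hpe
    have hsq : 0 ≤ Real.sqrt (1 + S) := Real.sqrt_nonneg _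
    have hxs : ‖x‖ ≤ Real.sqrt (1 + S) := Real.le_sqrt_of_sq_le hx'
    have hup : gJ p r J x ≤ ‖x‖ ^ 2 - 1 + 4 * e * Real.sqrt (1 + S) := by
      unfold gJ
      rw [Finset.fold_max_le]
      refine ⟨by nlinarith [mul_nonneg he.le hsq], fun i hi => ?_⟩
      obtain ⟨hp, hk⟩ := hJ i hi
      have hh := Ptw_h hp hk
      rw [hexp i]
      have h1 : -(‖p i‖ * ‖x‖) ≤ inner ℝ (p i) x :=
        neg_le_of_abs_le (abs_real_inner_le_norm (p i) x)
      have h2 : ‖p i‖ * ‖x‖ ≤ 2 * e * Real.sqrt (1 + S) :=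
        mul_le_mul (hpe i hi) hxs (norm_nonneg x) (by linarith)
      linarith
    have hz : 0 ≤ 1 + S - ‖x‖ ^ 2 := by linarith
    have hyz : max (S - gJ p r J x) 0 ≤ 1 + S - ‖x‖ ^ 2 := max_le (by linarith) hz
    have h1 := Ptw_pow (le_max_right (S - gJ p r J x) 0) hyz ha
    refine h1.trans ?_
    apply mul_le_mul_of_nonneg_left
    · have h2 := le_max_left (S - gJ p r J x) 0
      linarith
    · exact mul_nonneg (by linarith) (Real.rpow_nonneg hz _)

end Pool.Agent.Lib.MP_0c1c75_co.KPI
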