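import Pool.Agent.Lib.MP_0c1c75_co.KPI.SpecR

/-!
# MP_0c1c75_co, project KPI, part R: Brunn-Minkowski for the scaled configuration
-/

set_option autoImplicit false

open MeasureTheory Set Metric
open scoped Pointwise

namespace Pool.Agent.Lib.MP_0c1c75_co.KPI

theorem r_cnv (hB : BMStmt) (hV : VrBasicStmt) (hK : R_Kt) : R_Cnv := by
  intro d N hd q r i0 b hq hr0 hr hb0 hb1 hne
  obtain ⟨hmono, hball, -, -, -, -⟩ := hV d hd
  have hr' : ∀ i, 0 ≤ r i := fun i => zero_le_one.trans (hr i)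
  have hc := (hK d N q r i0 hq hr0 hr').1 0
  have hq' : (fun i => b • q i) i0 = 0 := by
    change b • q i0 = 0
    rw [hq, smul_zero]
  have hc' := (hK d N (fun i => b • q i) r i0 hq' hr0 hr').1 0
  have hsub : (1 - b) • closedBall (0 : E d) 1 + b • Kt q r 0 ⊆ Kt (fun i => b • q i) r 0 := by
    rintro _ ⟨_, ⟨x, hx, rfl⟩, _, ⟨y, hy, rfl⟩, rfl⟩ i
    have h1 : ‖x‖ ≤ 1 := by simpa using hx
    have h2 : ‖y - q i‖ ≤ r i := by
      have h3 := hy i
      rw [add_zero] at h3
      exact (sq_le_sq₀ (norm_nonneg _) (hr' i)).1 h3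
    have h4 : ‖(1 - b) • x + b • y - b • q i‖ ≤ r i := by
      have h5 : (1 - b) • x + b • y - b • q i = (1 - b) • x + b • (y - q i) := by
        rw [smul_sub]
        abel
      rw [h5]
      refine (norm_add_le _ _).trans ?_
      rw [norm_smul, norm_smul, Real.norm_of_nonneg hb0, Real.norm_of_nonneg (by linarith)]
      have h6 := mul_le_mul_of_nonneg_left h1 (by linarith : (0 : ℝ) ≤ 1 - b)
      have h7 := mul_le_mul_of_nonneg_left h2 hb0
      have h8 := mul_le_mul_of_nonneg_left (hr i) (by linarith : (0 : ℝ) ≤ 1 - b)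
      nlinarith
    change ‖(1 - b) • x + b • y - b • q i‖ ^ 2 ≤ r i ^ 2 + 0
    rw [add_zero]
    exact pow_le_pow_left₀ (norm_nonneg _) h4 2
  have h1 := hB d hd (closedBall 0 1) (Kt q r 0) (isCompact_closedBall _ _) hc
    ⟨0, mem_closedBall_self zero_le_one⟩ hne b hb0 hb1
  have h2 := hmono _ _ hsub hc'.measure_lt_top.ne
  rw [hball 0 1 zero_le_one] at h1
  linarith

end Pool.Agent.Lib.MP_0c1c75_co.KPI
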