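import Pool.Agent.Lib.MP_0c1c75_co.KPI.SpecR

/-!
# MP_0c1c75_co, project KPI, part R: inclusions and volumes
-/

set_option autoImplicit false

open MeasureTheory Set Metric
open scoped Pointwise

namespace Pool.Agent.Lib.MP_0c1c75_co.KPI

theorem RInc_sq {d : ℕ} (a b : ℝ) (x y : E d) :
    ‖a • x - b • y‖ ^ 2 = a * b * ‖x - y‖ ^ 2 + a * (a - b) * ‖x‖ ^ 2 + b * (b - a) * ‖y‖ ^ 2 := by
  rw [norm_sub_sq_real, norm_sub_sq_real, norm_smul, norm_smul, real_inner_smul_left,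
    real_inner_smul_right, mul_pow, mul_pow, Real.norm_eq_abs, Real.norm_eq_abs, sq_abs, sq_abs]
  ring

theorem RInc_fin {d N : ℕ} (p : Fin N → E d) (r : Fin N → ℝ) (i0 : Fin N) (h0 : p i0 = 0)
    (τ : ℝ) : volume (Kt p r τ) ≠ ⊤ := by
  refine ne_top_of_le_ne_top (measure_closedBall_lt_top (x := (0 : E d))
    (r := Real.sqrt (r i0 ^ 2 + τ))).ne (measure_mono ?_)
  intro x hx
  have h1 := hx i0
  rw [h0, sub_zero] at h1
  rw [mem_closedBall, dist_zero_right]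
  exact Real.le_sqrt_of_sq_le h1

theorem RInc_vol {d : ℕ} (A : Set (E d)) {m : ℝ} (hm : 0 < m) :
    volume.real (m • A) = m ^ d * volume.real A := by
  unfold Measure.real
  rw [Measure.addHaar_smul, ENNReal.toReal_mul, finrank_euclideanSpace, Fintype.card_fin,
    abs_of_pos (pow_pos hm d), ENNReal.toReal_ofReal (pow_pos hm d).le]

theorem r_inc : R_Inc := by
  intro d N p r i0 hp0 hr0 hr l τ hl hl1 hl2
  have hτ : 0 < 1 + τ := lt_of_lt_of_le (pow_pos hl 2) hl1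
  set m : ℝ := Real.sqrt (1 + τ) with hmdef
  have hm : 0 < m := Real.sqrt_pos.2 hτ
  have hm2 : m ^ 2 = 1 + τ := Real.sq_sqrt hτ.le
  have hlm : l ≤ m := Real.le_sqrt_of_sq_le hl1
  have hlm1 : l * m ≤ 1 := by
    have h1 : (l * m) ^ 2 ≤ 1 := by rw [mul_pow, hm2]; exact hl2
    have h2 : 0 < l * m := mul_pos hl hm
    nlinarith
  have hpow : (1 + τ) ^ ((d : ℝ) / 2) = m ^ d := by
    rw [hmdef, Real.sqrt_eq_rpow, ← Real.rpow_natCast, ← Real.rpow_mul hτ.le]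
    congr 1
    ring
  have hmm : m * m⁻¹ = 1 := mul_inv_cancel₀ hm.ne'
  have hll : l * l⁻¹ = 1 := mul_inv_cancel₀ hl.ne'
  rw [hpow]
  constructor
  · rw [← RInc_vol _ hm]
    refine measureReal_mono ?_ (RInc_fin (fun i => l • p i) r i0 (by rw [hp0, smul_zero]) τ)
    rintro _ ⟨x, hx, rfl⟩
    intro i
    have h0 := hx i0
    rw [hp0, sub_zero, hr0] at h0
    have h1 := hx i
    change ‖m • x - l • p i‖ ^ 2 ≤ r i ^ 2 + τ
    rw [RInc_sq]
    have h2 : 0 ≤ (1 - l * m) * (r i ^ 2 - 1) :=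
      mul_nonneg (by linarith) (by nlinarith [hr i])
    have h3 : m * l * ‖x - p i‖ ^ 2 ≤ m * l * (r i ^ 2 + 0) :=
      mul_le_mul_of_nonneg_left h1 (mul_pos hm hl).le
    have h4 : m * (m - l) * ‖x‖ ^ 2 ≤ m * (m - l) * (1 ^ 2 + 0) :=
      mul_le_mul_of_nonneg_left h0 (mul_nonneg hm.le (by linarith))
    have h5 : 0 ≤ l * (m - l) * ‖p i‖ ^ 2 :=
      mul_nonneg (mul_nonneg hl.le (by linarith)) (sq_nonneg _)
    nlinarith
  · rw [← RInc_vol _ hm]
    refine measureReal_mono ?_ ?_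
    · intro y hy
      refine ⟨m⁻¹ • y, ?_, ?_⟩
      · intro i
        have h0 : ‖y - l⁻¹ • p i0‖ ^ 2 ≤ r i0 ^ 2 + τ := hy i0
        rw [hp0, smul_zero, sub_zero, hr0] at h0
        have h1 : ‖y - l⁻¹ • p i‖ ^ 2 ≤ r i ^ 2 + τ := hy i
        have h6 : m⁻¹ • y - p i = m⁻¹ • y - l • (l⁻¹ • p i) := by
          rw [smul_smul, hll, one_smul]
        rw [h6, RInc_sq]
        set q : E d := l⁻¹ • p i with hq
        have hi : l ≤ m⁻¹ := by
          rw [le_inv_comm₀ hl hm, ← one_div, le_div_iff₀ hl]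
          linarith
        have him : 0 < m⁻¹ := inv_pos.2 hm
        have h3 : m⁻¹ * l * ‖y - q‖ ^ 2 ≤ m⁻¹ * l * (r i ^ 2 + τ) :=
          mul_le_mul_of_nonneg_left h1 (mul_pos him hl).le
        have h4 : m⁻¹ * (m⁻¹ - l) * ‖y‖ ^ 2 ≤ m⁻¹ * (m⁻¹ - l) * (1 ^ 2 + τ) :=
          mul_le_mul_of_nonneg_left h0 (mul_nonneg him.le (by linarith))
        have h5 : 0 ≤ l * (m⁻¹ - l) * ‖q‖ ^ 2 :=
          mul_nonneg (mul_nonneg hl.le (by linarith)) (sq_nonneg _)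
        have h7 : m⁻¹ * l ≤ 1 := by
          rw [inv_mul_le_iff₀ hm, mul_one]; exact hlm
        have h8 : 0 ≤ (1 - m⁻¹ * l) * (r i ^ 2 - 1) :=
          mul_nonneg (by linarith) (by nlinarith [hr i])
        have h9 : m⁻¹ * (m⁻¹ - l) * (1 ^ 2 + τ) = 1 - m⁻¹ * l * m ^ 2 := by
          rw [one_pow, ← hm2]
          field_simp
        have h10 : m⁻¹ * l * (r i ^ 2 + τ) = m⁻¹ * l * (r i ^ 2 - 1) + m⁻¹ * l * m ^ 2 := by
          rw [hm2]; ring
        linarith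
      · change m • m⁻¹ • y = y
        rw [smul_smul, hmm, one_smul]
    · rw [Measure.addHaar_smul]
      exact ENNReal.mul_ne_top ENNReal.ofReal_ne_top (RInc_fin p r i0 hp0 0)

end Pool.Agent.Lib.MP_0c1c75_co.KPI
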