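import Pool.Agent.Lib.MP_0c1c75_co.KPI.SpecR

/-!
# MP_0c1c75_co, project KPI, part R: elementary facts on `Kt`
-/

set_option autoImplicit false

open MeasureTheory Set Metric

namespace Pool.Agent.Lib.MP_0c1c75_co.KPI

private lemma RKt_ball {d : ℕ} {t : ℝ} (ht : 0 ≤ t) :
    {x : E d | ‖x‖ ^ 2 ≤ t} = closedBall 0 (Real.sqrt t) := by
  ext x
  rw [mem_closedBall_zero_iff]
  exact (Real.le_sqrt (norm_nonneg x) ht).symm

private lemma RKt_vol {d : ℕ} {t : ℝ} (ht : 0 ≤ t) :
    volume.real {x : E d | ‖x‖ ^ 2 ≤ t} = t ^ ((d : ℝ) / 2) * om d := by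
  rw [RKt_ball ht]
  unfold om Measure.real
  rw [Measure.addHaar_closedBall' _ _ (Real.sqrt_nonneg t), ENNReal.toReal_mul,
    ENNReal.toReal_ofReal (by positivity)]
  congr 1
  rw [finrank_euclideanSpace, Fintype.card_fin, Real.sqrt_eq_rpow, ← Real.rpow_natCast,
    ← Real.rpow_mul ht]
  congr 1
  ring

/-- **Elementary facts on `Kt`.** -/
theorem r_kt : R_Kt := by
  intro d N p r i0 hp hr hr0
  have h2 : ∀ τ, Kt p r τ ⊆ {x | ‖x‖ ^ 2 ≤ 1 + τ} := by
    intro τ x hx
    have := hx i0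
    rw [hp, hr, sub_zero, one_pow] at this
    exact this
  have hcl : ∀ τ, IsClosed (Kt p r τ) := by
    intro τ
    have : Kt p r τ = ⋂ i, {x | ‖x - p i‖ ^ 2 ≤ r i ^ 2 + τ} := by
      ext x
      simp [Kt]
    rw [this]
    refine isClosed_iInter fun i => isClosed_le ?_ continuous_const
    fun_prop
  have h1 : ∀ τ, IsCompact (Kt p r τ) := by
    intro τ
    refine Metric.isCompact_of_isClosed_isBounded (hcl τ) ?_
    refine (Metric.isBounded_closedBall (x := (0 : E d)) (r := Real.sqrt (1 + τ))).subset ?_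
    intro x hx
    rw [mem_closedBall_zero_iff]
    exact Real.le_sqrt_of_sq_le (h2 τ hx)
  have hfin : ∀ t : ℝ, volume {x : E d | ‖x‖ ^ 2 ≤ t} ≠ ⊤ := by
    intro t
    refine ne_top_of_le_ne_top
      (measure_closedBall_lt_top (x := (0 : E d)) (r := Real.sqrt t)).ne (measure_mono ?_)
    intro x hx
    rw [mem_closedBall_zero_iff]
    exact Real.le_sqrt_of_sq_le hx
  have h5 : Kt p r 0 = ⋂ i, closedBall (p i) (r i) := by
    ext x
    rw [mem_iInter]
    refine forall_congr' fun i => ?_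
    rw [mem_closedBall_iff_norm, add_zero]
    exact pow_le_pow_iff_left₀ (norm_nonneg _) (hr0 i) two_ne_zero
  refine ⟨h1, h2, ?_, ?_, h5⟩
  · intro τ hτ
    rw [← RKt_vol (d := d) (t := 1 + τ) (by linarith)]
    exact measureReal_mono (h2 τ) (hfin _)
  · have hG : Gt p r Finset.univ 0 =
        volume.real ({x : E d | ‖x‖ ^ 2 ≤ 1 + 0} \ Kt p r 0) := by
      unfold Gt
      congr 1
      ext x
      simp only [Set.mem_ofPred_eq, Set.mem_sdiff, Kt, Finset.mem_univ, true_and, not_forall,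
        not_le]
    have hO : om d = volume.real {x : E d | ‖x‖ ^ 2 ≤ 1 + 0} := by
      rw [RKt_vol (by norm_num), add_zero, Real.one_rpow, one_mul]
    rw [hG, hO, measureReal_sdiff (h2 0) (h1 0).measurableSet (hfin _)]
    ring

end Pool.Agent.Lib.MP_0c1c75_co.KPI
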