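import Pool.Agent.Lib.MP_0c1c75_co.KPI.SpecR

/-!
# MP_0c1c75_co, project KPI: module R_Lay (layer cake)
-/

set_option autoImplicit false

open MeasureTheory Set Metric

namespace Pool.Agent.Lib.MP_0c1c75_co.KPI

/-- sublevel sets of `gmax` -/
private theorem RLay_gmax_le {d N : ℕ} (p : Fin N → E d) (a : Fin N → ℝ) (i0 : Fin N) (x : E d)
    (c : ℝ) : gmax p a x ≤ c ↔ ∀ i, ‖x - p i‖ ^ 2 - a i ≤ c := by
  have : Nonempty (Fin N) := ⟨i0⟩
  unfold gmax
  exact ciSup_le_iff (Set.finite_range _).bddAbove

private theorem RLay_gmax_meas {d N : ℕ} (p : Fin N → E d) (a : Fin N → ℝ) :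
    Measurable (gmax p a) := by
  unfold gmax
  refine Measurable.iSup fun i => ?_
  exact (((measurable_id.sub_const (p i)).norm).pow_const 2).sub_const (a i)

theorem r_lay (hK : R_Kt) : R_Lay := by
  intro d N p r i0 hd hp hr hr0
  obtain ⟨hcomp, hsub, hvol, -, -⟩ := hK d N p r i0 hp hr hr0
  have hd' : (4 : ℝ) ≤ (d : ℝ) := by exact_mod_cast hd
  set g : E d → ℝ := gmax p (fun i => r i ^ 2) with hg
  have hgle : ∀ (x : E d) (c : ℝ), g x ≤ c ↔ x ∈ Kt p r c := by
    intro x c
    rw [hg, RLay_gmax_le p _ i0 x c]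
    unfold Kt
    simp only [mem_setOf_eq]
    constructor
    · intro h i
      linarith [h i]
    · intro h i
      linarith [h i]
  have hgm : Measurable g := RLay_gmax_meas p _
  -- the lower bound for `g`
  have hg1 : ∀ x, -1 ≤ g x := by
    intro x
    have h1 : x ∈ Kt p r (g x) := (hgle x (g x)).1 le_rfl
    have h2 := hsub (g x) h1
    simp only [mem_setOf_eq] at h2
    nlinarith [sq_nonneg ‖x‖]
  -- finiteness of the volumes
  have hfin : ∀ τ, volume (Kt p r τ) ≠ ⊤ := fun τ => (hcomp τ).measure_lt_top.ne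
  have hmono : ∀ s t : ℝ, s ≤ t → Kt p r s ⊆ Kt p r t := by
    intro s t hst x hx i
    have := hx i
    linarith
  have hanti : Antitone (fun s : ℝ => volume.real (Kt p r (1 - s))) := by
    intro s t hst
    exact measureReal_mono (hmono _ _ (by linarith)) (hfin _)
  have hmeas : Measurable (fun s : ℝ => s ^ ((d : ℝ) / 2 - 2) * volume.real (Kt p r (1 - s))) :=
    (measurable_id.pow_const _).mul hanti.measurable
  have hom : 0 ≤ om d := by
    unfold om
    positivity
  have hint : IntegrableOn (fun s : ℝ => s ^ ((d : ℝ) / 2 - 2) * volume.real (Kt p r (1 - s)))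
      (Ioo 0 2) := by
    refine Measure.integrableOn_of_bounded (M := (2 : ℝ) ^ ((d : ℝ) / 2 - 2) *
      ((2 : ℝ) ^ ((d : ℝ) / 2) * om d)) ?_ hmeas.aestronglyMeasurable ?_
    · simp
    · refine (ae_restrict_iff' measurableSet_Ioo).2 (Filter.Eventually.of_forall ?_)
      intro s hs
      have hs0 : 0 < s := hs.1
      have hs2 : s < 2 := hs.2
      have h1 : volume.real (Kt p r (1 - s)) ≤ (2 : ℝ) ^ ((d : ℝ) / 2) * om d := by
        refine (hvol (1 - s) (by linarith)).trans ?_
        refine mul_le_mul_of_nonneg_right ?_ hom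
        exact Real.rpow_le_rpow (by linarith) (by linarith) (by linarith)
      have h2 : s ^ ((d : ℝ) / 2 - 2) ≤ (2 : ℝ) ^ ((d : ℝ) / 2 - 2) :=
        Real.rpow_le_rpow hs0.le hs2.le (by linarith)
      have h3 : 0 ≤ s ^ ((d : ℝ) / 2 - 2) := Real.rpow_nonneg hs0.le _
      rw [Real.norm_of_nonneg (mul_nonneg h3 measureReal_nonneg)]
      exact mul_le_mul h2 h1 measureReal_nonneg (Real.rpow_nonneg (by norm_num) _)
  refine ⟨hint, ?_⟩
  -- the function `f`
  set a : ℝ := (d : ℝ) / 2 - 1 with ha
  have ha0 : 0 < a := by rw [ha]; linarith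
  have hI1 : ∫ x in {x | g x < 1}, (1 - g x) ^ a = ∫ x, (max (1 - g x) 0) ^ a := by
    rw [← integral_indicator (measurableSet_lt hgm measurable_const)]
    refine integral_congr_ae (Filter.Eventually.of_forall fun x => ?_)
    simp only [indicator, mem_setOf_eq]
    split_ifs with h
    · rw [max_eq_left (by linarith)]
    · rw [max_eq_right (by linarith), Real.zero_rpow ha0.ne']
  have hfm : Measurable fun x => max (1 - g x) 0 := (measurable_const.sub hgm).max measurable_const
  have hI2 : ∫ x, (max (1 - g x) 0) ^ a = (∫⁻ x, ENNReal.ofReal ((max (1 - g x) 0) ^ a)).toReal := by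
    refine integral_eq_lintegral_of_nonneg_ae (Filter.Eventually.of_forall fun x => ?_)
      (hfm.pow_const a).aestronglyMeasurable
    exact Real.rpow_nonneg (le_max_right _ _) _
  have hI3 := lintegral_rpow_eq_lintegral_meas_le_mul (volume : Measure (E d))
    (f := fun x => max (1 - g x) 0) (Filter.Eventually.of_forall fun x => le_max_right _ _)
    hfm.aemeasurable ha0
  have hI4 : ∫⁻ t in Ioi (0 : ℝ), volume {x | t ≤ max (1 - g x) 0} * ENNReal.ofReal (t ^ (a - 1)) =
      ∫⁻ t in Ioo (0 : ℝ) 2, ENNReal.ofReal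
        (t ^ ((d : ℝ) / 2 - 2) * volume.real (Kt p r (1 - t))) := by
    have hset : ∀ t : ℝ, 0 < t → {x | t ≤ max (1 - g x) 0} = Kt p r (1 - t) := by
      intro t ht
      ext x
      rw [mem_setOf_eq, ← hgle, le_max_iff]
      constructor
      · rintro (h | h)
        · linarith
        · linarith
      · intro h
        left
        linarith
    have hsplit : Ioi (0 : ℝ) = Ioc 0 2 ∪ Ioi 2 := by
      rw [Ioc_union_Ioi_eq_Ioi (by norm_num)]
    rw [hsplit, lintegral_union measurableSet_Ioi]
    · have hz : ∫⁻ t in Ioi (2 : ℝ), volume {x | t ≤ max (1 - g x) 0} *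
          ENNReal.ofReal (t ^ (a - 1)) = 0 := by
        rw [setLIntegral_congr_fun (g := fun _ => 0) measurableSet_Ioi]
        · simp
        · intro t ht
          have ht2 : (2 : ℝ) < t := ht
          have hemp : {x | t ≤ max (1 - g x) 0} = ∅ := by
            ext x
            simp only [mem_setOf_eq, mem_empty_iff_false, iff_false, not_le]
            have := hg1 x
            exact max_lt (by linarith) (by linarith)
          simp only
          rw [hemp, measure_empty, zero_mul]
      rw [hz, add_zero, ← setLIntegral_congr (Ioo_ae_eq_Ioc (a := (0 : ℝ)) (b := 2))]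
      refine setLIntegral_congr_fun measurableSet_Ioo ?_
      intro t ht
      have ht0 : 0 < t := ht.1
      simp only
      rw [hset t ht0, ENNReal.ofReal_mul (Real.rpow_nonneg ht0.le _), mul_comm]
      congr 1
      · congr 2
        rw [ha]
        ring
      · rw [measureReal_def, ENNReal.ofReal_toReal (hfin _)]
    · exact Set.disjoint_left.2 fun x hx hx' => absurd hx.2 (not_le.2 hx')
  have hI5 : ∫ s in Ioo (0 : ℝ) 2, s ^ ((d : ℝ) / 2 - 2) * volume.real (Kt p r (1 - s)) =
      (∫⁻ t in Ioo (0 : ℝ) 2, ENNReal.ofReal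
        (t ^ ((d : ℝ) / 2 - 2) * volume.real (Kt p r (1 - t)))).toReal := by
    refine integral_eq_lintegral_of_nonneg_ae ?_ hmeas.aestronglyMeasurable
    refine (ae_restrict_iff' measurableSet_Ioo).2 (Filter.Eventually.of_forall ?_)
    intro s hs
    exact mul_nonneg (Real.rpow_nonneg hs.1.le _) measureReal_nonneg
  rw [hI1, hI2, hI3, hI4, hI5, ENNReal.toReal_mul, ENNReal.toReal_ofReal ha0.le]

end Pool.Agent.Lib.MP_0c1c75_co.KPI
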