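import Pool.Agent.Lib.MP_0c1c75_co.KPI.SpecR

/-!
# MP_0c1c75_co, project KPI: the weight is concentrated near `1` (helper26)
-/

set_option autoImplicit false

open MeasureTheory Set Metric

namespace Pool.Agent.Lib.MP_0c1c75_co.KPI

private theorem RMu_wt {d : ℕ} {s : ℝ} (h0 : 0 < s) (h2 : s < 2) :
    wt d s = (s * (2 - s)) ^ ((d : ℝ) / 2 - 2) * (2 - s) ^ 2 := by
  unfold wt
  have h3 : 0 < 2 - s := by linarith
  rw [Real.mul_rpow h0.le h3.le]
  have h4 : (2 - s) ^ ((d : ℝ) / 2) = (2 - s) ^ ((d : ℝ) / 2 - 2) * (2 - s) ^ 2 := by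
    rw [← Real.rpow_two, ← Real.rpow_add h3]
    congr 1
    ring
  rw [h4]
  ring

theorem r_mu : R_Mu := by
  intro h hh0 hh1
  refine ⟨h ^ 2 / 8, max 4 ⌈8 / h ^ 2 * (Real.log (32 / h) + h ^ 2)⌉₊, by positivity,
    le_max_left _ _, ?_⟩
  intro d hd
  have hd4 : 4 ≤ d := le_trans (le_max_left _ _) hd
  have hdr : (4 : ℝ) ≤ d := by exact_mod_cast hd4
  have hdC : 8 / h ^ 2 * (Real.log (32 / h) + h ^ 2) ≤ d := by
    calc 8 / h ^ 2 * (Real.log (32 / h) + h ^ 2) ≤
        (⌈8 / h ^ 2 * (Real.log (32 / h) + h ^ 2)⌉₊ : ℝ) := Nat.le_ceil _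
      _ ≤ d := by
        have : ⌈8 / h ^ 2 * (Real.log (32 / h) + h ^ 2)⌉₊ ≤ d := le_trans (le_max_right _ _) hd
        exact_mod_cast this
  obtain ⟨a, ha⟩ : ∃ a : ℝ, a = (d : ℝ) / 2 - 2 := ⟨_, rfl⟩
  have ha0 : 0 ≤ a := by
    rw [ha]
    linarith
  have hcont : Continuous (wt d) := by
    unfold wt
    apply Continuous.mul
    · exact Real.continuous_rpow_const (by linarith)
    · exact (Real.continuous_rpow_const (by linarith)).comp (continuous_const.sub continuous_id)
  have hint : ∀ A : Set ℝ, A ⊆ Icc 0 2 → IntegrableOn (wt d) A := fun A hA =>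
    (hcont.integrableOn_Icc (a := 0) (b := 2)).mono_set hA
  have hI1 : Ioo (0 : ℝ) 2 ⊆ Icc 0 2 := Ioo_subset_Icc_self
  have hI2 : Icc (1 - h) (1 + h) ⊆ Icc (0 : ℝ) 2 := Icc_subset_Icc (by linarith) (by linarith)
  have hI3 : Icc (1 - h / 2) (1 + h / 2) ⊆ Icc (1 - h) (1 + h) :=
    Icc_subset_Icc (by linarith) (by linarith)
  have hh2 : h ^ 2 ≤ 1 / 4 := by nlinarith
  have hbase0 : 0 ≤ 1 - h ^ 2 := by linarith
  have hbase1 : 0 < 1 - h ^ 2 / 4 := by linarith
  -- lower bound
  have hlow : h * ((1 - h ^ 2 / 4) ^ a / 4) ≤ ∫ s in Icc (1 - h) (1 + h), wt d s := by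
    calc h * ((1 - h ^ 2 / 4) ^ a / 4) = ∫ _s in Icc (1 - h / 2) (1 + h / 2),
        (1 - h ^ 2 / 4) ^ a / 4 := by
          rw [setIntegral_const, smul_eq_mul, measureReal_def, Real.volume_Icc,
            ENNReal.toReal_ofReal (by linarith)]
          ring
      _ ≤ ∫ s in Icc (1 - h / 2) (1 + h / 2), wt d s := by
          apply setIntegral_mono_on
          · exact integrableOn_const (by simp)
          · exact hint _ (hI3.trans hI2)
          · exact measurableSet_Icc
          · intro s hs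
            have hs0 : 0 < s := by linarith [hs.1]
            have hs2 : s < 2 := by linarith [hs.2]
            rw [RMu_wt hs0 hs2, ← ha]
            have e1 : 1 - h ^ 2 / 4 ≤ s * (2 - s) := by
              have e2 : (s - 1) ^ 2 ≤ (h / 2) ^ 2 := by
                apply sq_le_sq'
                · linarith [hs.1]
                · linarith [hs.2]
              nlinarith
            have e3 : (1 - h ^ 2 / 4) ^ a ≤ (s * (2 - s)) ^ a :=
              Real.rpow_le_rpow hbase1.le e1 ha0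
            have e4 : (1 : ℝ) / 4 ≤ (2 - s) ^ 2 := by
              have : 1 / 2 ≤ 2 - s := by linarith [hs.2]
              nlinarith
            have e5 : 0 ≤ (1 - h ^ 2 / 4) ^ a := Real.rpow_nonneg hbase1.le _
            calc (1 - h ^ 2 / 4) ^ a / 4 = (1 - h ^ 2 / 4) ^ a * (1 / 4) := by ring
              _ ≤ (s * (2 - s)) ^ a * (2 - s) ^ 2 :=
                mul_le_mul e3 e4 (by norm_num) (le_trans e5 e3)
      _ ≤ ∫ s in Icc (1 - h) (1 + h), wt d s := by
          apply setIntegral_mono_set (hint _ hI2)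
          · refine (ae_restrict_iff' measurableSet_Icc).mpr (Filter.Eventually.of_forall ?_)
            intro s hs
            have hs0 : 0 ≤ s := (hI2 hs).1
            have hs2 : s ≤ 2 := (hI2 hs).2
            show 0 ≤ wt d s
            unfold wt
            exact mul_nonneg (Real.rpow_nonneg hs0 _) (Real.rpow_nonneg (by linarith) _)
          · exact Filter.Eventually.of_forall hI3
  have hpos : 0 < h * ((1 - h ^ 2 / 4) ^ a / 4) := by
    have : 0 < (1 - h ^ 2 / 4) ^ a := Real.rpow_pos_of_pos hbase1 _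
    positivity
  -- upper bound
  have hup : ∫ s in Ioo (0 : ℝ) 2 \ Icc (1 - h) (1 + h), wt d s ≤ 8 * (1 - h ^ 2) ^ a := by
    have hC0 : 0 ≤ 4 * (1 - h ^ 2) ^ a := by
      have := Real.rpow_nonneg hbase0 a
      positivity
    have hms : MeasurableSet (Ioo (0 : ℝ) 2 \ Icc (1 - h) (1 + h)) :=
      measurableSet_Ioo.diff measurableSet_Icc
    have hfin : volume (Ioo (0 : ℝ) 2 \ Icc (1 - h) (1 + h)) ≤ volume (Ioo (0 : ℝ) 2) :=
      measure_mono sdiff_subset
    have hv : volume (Ioo (0 : ℝ) 2) = ENNReal.ofReal 2 := by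
      rw [Real.volume_Ioo]
      norm_num
    calc ∫ s in Ioo (0 : ℝ) 2 \ Icc (1 - h) (1 + h), wt d s ≤
        ∫ _s in Ioo (0 : ℝ) 2 \ Icc (1 - h) (1 + h), 4 * (1 - h ^ 2) ^ a := by
          apply setIntegral_mono_on
          · exact hint _ (sdiff_subset.trans hI1)
          · rw [hv] at hfin
            exact integrableOn_const (lt_of_le_of_lt hfin ENNReal.ofReal_lt_top).ne
          · exact hms
          · intro s hs
            obtain ⟨hs1, hs2⟩ := hs
            rw [RMu_wt hs1.1 hs1.2, ← ha]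
            have e0 : 0 ≤ s * (2 - s) := mul_nonneg hs1.1.le (by linarith [hs1.2])
            have e1 : s * (2 - s) ≤ 1 - h ^ 2 := by
              have e2 : h ^ 2 ≤ (s - 1) ^ 2 := by
                rw [mem_Icc, not_and_or, not_le, not_le] at hs2
                rcases hs2 with h3 | h3
                · nlinarith
                · nlinarith
              nlinarith
            have e3 : (s * (2 - s)) ^ a ≤ (1 - h ^ 2) ^ a := Real.rpow_le_rpow e0 e1 ha0
            have e4 : (2 - s) ^ 2 ≤ 4 := by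
              have h3 : 0 ≤ 2 - s := by linarith [hs1.2]
              have h4 : 2 - s ≤ 2 := by linarith [hs1.1]
              nlinarith
            calc (s * (2 - s)) ^ a * (2 - s) ^ 2 ≤ (1 - h ^ 2) ^ a * 4 :=
                mul_le_mul e3 e4 (by positivity) (Real.rpow_nonneg hbase0 _)
              _ = _ := by ring
      _ = volume.real (Ioo (0 : ℝ) 2 \ Icc (1 - h) (1 + h)) * (4 * (1 - h ^ 2) ^ a) := by
          rw [setIntegral_const, smul_eq_mul]
      _ ≤ 2 * (4 * (1 - h ^ 2) ^ a) := by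
          apply mul_le_mul_of_nonneg_right _ hC0
          rw [measureReal_def]
          rw [hv] at hfin
          have := ENNReal.toReal_mono ENNReal.ofReal_ne_top hfin
          rwa [ENNReal.toReal_ofReal (by norm_num)] at this
      _ = _ := by ring
  refine ⟨hint _ hI1, lt_of_lt_of_le hpos hlow, ?_⟩
  refine le_trans hup ?_
  have key : 8 * (1 - h ^ 2) ^ a ≤
      Real.exp (-(h ^ 2 / 8 * d)) * (h * ((1 - h ^ 2 / 4) ^ a / 4)) := by
    have e1 : (1 - h ^ 2) ^ a ≤ (1 - h ^ 2 / 4) ^ a * (1 - h ^ 2 / 2) ^ a := by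
      rw [← Real.mul_rpow hbase1.le (by linarith)]
      apply Real.rpow_le_rpow hbase0 _ ha0
      nlinarith [sq_nonneg (h ^ 2)]
    have e2 : (1 - h ^ 2 / 2) ^ a ≤ Real.exp (-(h ^ 2 / 2 * a)) := by
      have e3 : 1 - h ^ 2 / 2 ≤ Real.exp (-(h ^ 2 / 2)) := by
        have := Real.add_one_le_exp (-(h ^ 2 / 2))
        linarith
      calc (1 - h ^ 2 / 2) ^ a ≤ (Real.exp (-(h ^ 2 / 2))) ^ a :=
            Real.rpow_le_rpow (by linarith) e3 ha0
        _ = Real.exp (-(h ^ 2 / 2 * a)) := by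
            rw [← Real.exp_mul]
            congr 1
            ring
    have e4 : Real.exp (-(h ^ 2 / 2 * a)) ≤ h / 32 * Real.exp (-(h ^ 2 / 8 * d)) := by
      have e5 : h / 32 = Real.exp (-Real.log (32 / h)) := by
        rw [Real.exp_neg, Real.exp_log (by positivity)]
        rw [inv_div]
      rw [e5, ← Real.exp_add, Real.exp_le_exp, ha]
      have e6 : Real.log (32 / h) + h ^ 2 ≤ h ^ 2 / 8 * d := by
        have e7 := mul_le_mul_of_nonneg_left hdC (show 0 ≤ h ^ 2 / 8 by positivity)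
        have e8 : h ^ 2 / 8 * (8 / h ^ 2 * (Real.log (32 / h) + h ^ 2)) =
            Real.log (32 / h) + h ^ 2 := by
          field_simp
        linarith
      linarith
    have e5 : 0 ≤ (1 - h ^ 2 / 4) ^ a := Real.rpow_nonneg hbase1.le _
    calc 8 * (1 - h ^ 2) ^ a ≤ 8 * ((1 - h ^ 2 / 4) ^ a * (1 - h ^ 2 / 2) ^ a) := by linarith
      _ ≤ 8 * ((1 - h ^ 2 / 4) ^ a * (h / 32 * Real.exp (-(h ^ 2 / 8 * d)))) := by
          apply mul_le_mul_of_nonneg_left _ (by norm_num)
          exact mul_le_mul_of_nonneg_left (le_trans e2 e4) e5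
      _ = _ := by ring
  exact le_trans key (mul_le_mul_of_nonneg_left hlow (Real.exp_pos _).le)

end Pool.Agent.Lib.MP_0c1c75_co.KPI
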