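import Pool.Agent.Lib.MP_0c1c75_co.KPI.SpecR

/-!
# MP_0c1c75_co, project KPI, part R: translation and scaling
-/

set_option autoImplicit false

open MeasureTheory Set Metric
open scoped Pointwise

namespace Pool.Agent.Lib.MP_0c1c75_co.KPI

/-- The intersection of the balls is a translate of a dilate of the normalised one. -/
private theorem RNorm_vol {d N : ℕ} (p : Fin N → E d) (r : Fin N → ℝ) (ρ : ℝ) (x0 : E d)
    (hρ : 0 < ρ) (hr : ∀ i, 0 < r i) :
    volume (⋂ i, closedBall (p i) (r i)) = ENNReal.ofReal |ρ ^ d| *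
      volume (Kt (fun i => ρ⁻¹ • (p i - x0)) (fun i => r i / ρ) 0) := by
  have h1 : (fun x => x0 + x) ⁻¹' (⋂ i, closedBall (p i) (r i)) =
      ρ • Kt (fun i => ρ⁻¹ • (p i - x0)) (fun i => r i / ρ) 0 := by
    ext x
    rw [mem_smul_set_iff_inv_smul_mem₀ hρ.ne']
    simp only [mem_preimage, mem_iInter, mem_closedBall, Kt, mem_ofPred_eq, add_zero]
    refine forall_congr' fun i => ?_
    have h2 : ρ⁻¹ • x - ρ⁻¹ • (p i - x0) = ρ⁻¹ • (x0 + x - p i) := by
      rw [← smul_sub]
      congr 1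
      abel
    have h3 : ‖ρ⁻¹ • (x0 + x - p i)‖ = ‖x0 + x - p i‖ / ρ := by
      rw [norm_smul, norm_inv, Real.norm_eq_abs, abs_of_pos hρ]
      field_simp
    rw [h2, h3, dist_eq_norm]
    have h4 : 0 ≤ ‖x0 + x - p i‖ / ρ := by positivity
    have h5 : 0 ≤ r i / ρ := (div_pos (hr i) hρ).le
    rw [pow_le_pow_iff_left₀ h4 h5 two_ne_zero, div_le_div_iff_of_pos_right hρ]
  have h6 := measure_preimage_add (volume : Measure (E d)) x0 (⋂ i, closedBall (p i) (r i))
  rw [h1, Measure.addHaar_smul, finrank_euclideanSpace, Fintype.card_fin] at h6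
  exact h6.symm

theorem r_norm : R_Norm := by
  intro c d _ hmain N p q r hr hcon
  rcases Nat.eq_zero_or_pos N with hN | hN
  · subst hN
    simp
  · obtain ⟨i0, -, hi0⟩ := Finset.exists_min_image (Finset.univ : Finset (Fin N)) r
      ⟨⟨0, hN⟩, Finset.mem_univ _⟩
    have hρ : 0 < r i0 := hr i0
    rw [RNorm_vol p r (r i0) (p i0) hρ hr, RNorm_vol q r (r i0) (q i0) hρ hr]
    have hcfg : Cfg c (fun i => (r i0)⁻¹ • (p i - p i0)) (fun i => (r i0)⁻¹ • (q i - q i0))
        (fun i => r i / r i0) i0 := by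
      refine ⟨by simp, by simp, div_self hρ.ne', ?_, ?_⟩
      · intro i
        rw [le_div_iff₀ hρ, one_mul]
        exact hi0 i (Finset.mem_univ _)
      · intro i j
        have h1 : ∀ s : Fin N → E d, dist ((r i0)⁻¹ • (s i - s i0)) ((r i0)⁻¹ • (s j - s i0)) =
            (r i0)⁻¹ * dist (s i) (s j) := by
          intro s
          rw [dist_smul₀, dist_sub_right, norm_inv, Real.norm_eq_abs, abs_of_pos hρ]
        show dist ((r i0)⁻¹ • (q i - q i0)) ((r i0)⁻¹ • (q j - q i0)) ≤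
          c * dist ((r i0)⁻¹ • (p i - p i0)) ((r i0)⁻¹ • (p j - p i0))
        rw [h1 p, h1 q]
        have h2 := mul_le_mul_of_nonneg_left (hcon i j) (inv_pos.mpr hρ).le
        calc (r i0)⁻¹ * dist (q i) (q j) ≤ (r i0)⁻¹ * (c * dist (p i) (p j)) := h2
          _ = c * ((r i0)⁻¹ * dist (p i) (p j)) := by ring
    rcases eq_or_ne (volume (Kt (fun i => (r i0)⁻¹ • (p i - p i0)) (fun i => r i / r i0) 0)) 0
      with h0 | h0
    · rw [h0, mul_zero]
      exact zero_le
    · exact mul_le_mul_right (hmain N _ _ _ i0 hcfg (pos_iff_ne_zero.mpr h0)) _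

end Pool.Agent.Lib.MP_0c1c75_co.KPI
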