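import Pool.Agent.Lib.MP_0c1c75_co.KPI.SpecR

/-!
# MP_0c1c75_co, project KPI: final real inequality of the regime reduction (helper26)
-/

set_option autoImplicit false

open MeasureTheory Set Metric

namespace Pool.Agent.Lib.MP_0c1c75_co.KPI

private theorem RNum_caseA {b θ : ℝ} {d : ℕ} (hb0 : 0 < b) (hb1 : b < 1) (hd : 1 ≤ d)
    {P Q1 Q : ℝ} (hP0 : 0 < P) (hP1 : P ≤ 1) (hθ0 : 0 ≤ θ) (hθ1 : θ ≤ 1)
    (h1 : P * (1 - θ) ≤ Q1) (hb : 1 - Q ^ ((1 : ℝ) / d) ≤ b * (1 - Q1 ^ ((1 : ℝ) / d)))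
    (hθ : θ ≤ (1 - b) * ((1 - P) / d)) : P ^ ((1 : ℝ) / d) ≤ Q ^ ((1 : ℝ) / d) := by
  have hdr : (1 : ℝ) ≤ d := by exact_mod_cast hd
  have hp0 : (0 : ℝ) ≤ 1 / d := by positivity
  have hp1 : (1 : ℝ) / d ≤ 1 := by
    rw [div_le_one (by linarith)]
    exact hdr
  have h1θ : 0 ≤ 1 - θ := by linarith
  have hfP0 : 0 ≤ P ^ ((1 : ℝ) / d) := Real.rpow_nonneg hP0.le _
  have hfP1 : P ^ ((1 : ℝ) / d) ≤ 1 := Real.rpow_le_one hP0.le hP1 hp0
  have h2 : P ^ ((1 : ℝ) / d) * (1 - θ) ≤ Q1 ^ ((1 : ℝ) / d) := by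
    calc P ^ ((1 : ℝ) / d) * (1 - θ) ≤ P ^ ((1 : ℝ) / d) * (1 - θ) ^ ((1 : ℝ) / d) := by
          apply mul_le_mul_of_nonneg_left _ hfP0
          rcases eq_or_lt_of_le h1θ with h | h
          · rw [← h]
            exact Real.rpow_nonneg le_rfl _
          · calc (1 - θ) = (1 - θ) ^ (1 : ℝ) := (Real.rpow_one _).symm
              _ ≤ (1 - θ) ^ ((1 : ℝ) / d) :=
                Real.rpow_le_rpow_of_exponent_ge h (by linarith) hp1
      _ = (P * (1 - θ)) ^ ((1 : ℝ) / d) := (Real.mul_rpow hP0.le h1θ).symm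
      _ ≤ Q1 ^ ((1 : ℝ) / d) := Real.rpow_le_rpow (mul_nonneg hP0.le h1θ) h1 hp0
  have h3 : P ^ ((1 : ℝ) / d) ≤ 1 + 1 / d * (P - 1) := by
    have := rpow_one_add_le_one_add_mul_self (s := P - 1) (by linarith) hp0 hp1
    rwa [add_sub_cancel] at this
  have h4 : (1 - P) / d ≤ 1 - P ^ ((1 : ℝ) / d) := by
    have : (1 - P) / d = -(1 / d * (P - 1)) := by ring
    rw [this]
    linarith
  have h5 : θ ≤ (1 - b) * (1 - P ^ ((1 : ℝ) / d)) :=
    le_trans hθ (mul_le_mul_of_nonneg_left h4 (by linarith))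
  have h6 : P ^ ((1 : ℝ) / d) * θ ≤ θ := by nlinarith
  have h7 : b * (P ^ ((1 : ℝ) / d) * θ) ≤ θ := by
    have : 0 ≤ P ^ ((1 : ℝ) / d) * θ := mul_nonneg hfP0 hθ0
    nlinarith
  have h8 := mul_le_mul_of_nonneg_left h2 hb0.le
  linarith

theorem r_num : R_Num := by
  intro b c1 hb0 hb1 hc1
  obtain ⟨δ, hδ⟩ : ∃ δ : ℝ, δ = (1 - b) * (1 - Real.exp (-(c1 / 2))) := ⟨_, rfl⟩
  have hexp : Real.exp (-(c1 / 2)) < 1 := by
    rw [Real.exp_lt_one_iff]
    linarith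
  have hδ0 : 0 < δ := by
    rw [hδ]
    exact mul_pos (by linarith) (by linarith)
  refine ⟨⌈32 / (c1 ^ 2 * (1 - b))⌉₊ + ⌈(4 / δ) ^ 2⌉₊ + 1, ?_⟩
  intro d hd P Q1 Q hP0 hP1 hQ1 hQ h1 h2 h3 h4
  have hd1 : 1 ≤ d := by omega
  have hdr : (1 : ℝ) ≤ d := by exact_mod_cast hd1
  have hd0 : (0 : ℝ) < d := by linarith
  have hdA : 32 / (c1 ^ 2 * (1 - b)) ≤ d := by
    calc 32 / (c1 ^ 2 * (1 - b)) ≤ (⌈32 / (c1 ^ 2 * (1 - b))⌉₊ : ℝ) := Nat.le_ceil _
      _ ≤ d := by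
        have : ⌈32 / (c1 ^ 2 * (1 - b))⌉₊ ≤ d := by omega
        exact_mod_cast this
  have hdB : (4 / δ) ^ 2 ≤ d := by
    calc (4 / δ) ^ 2 ≤ (⌈(4 / δ) ^ 2⌉₊ : ℝ) := Nat.le_ceil _
      _ ≤ d := by
        have : ⌈(4 / δ) ^ 2⌉₊ ≤ d := by omega
        exact_mod_cast this
  have hp0 : (0 : ℝ) < 1 / d := by positivity
  have hb1' : 0 < 1 - b := by linarith
  -- it is enough to compare the roots
  suffices h : P ^ ((1 : ℝ) / d) ≤ Q ^ ((1 : ℝ) / d) from
    (Real.rpow_le_rpow_iff hP0.le hQ hp0).mp h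
  by_cases hcase : Real.exp (-(c1 / 2 * d)) ≤ P
  · -- case A
    obtain ⟨θ, hθ⟩ : ∃ θ : ℝ, θ = Real.exp (-(c1 / 2 * d)) := ⟨_, rfl⟩
    have hθ0 : 0 < θ := by
      rw [hθ]
      exact Real.exp_pos _
    have hθ1 : θ ≤ 1 := by
      rw [hθ, Real.exp_le_one_iff]
      have : 0 < c1 / 2 * d := by positivity
      linarith
    have e1 : Real.exp (-(c1 * d)) = θ * θ := by
      rw [hθ, ← Real.exp_add]
      congr 1
      ring
    have e2 : P * (1 - θ) ≤ Q1 := by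
      rw [e1] at h1
      have h5 : θ * θ ≤ P * θ := mul_le_mul_of_nonneg_right (hθ ▸ hcase) hθ0.le
      linarith
    have e3 : θ ≤ (1 - b) * ((1 - P) / d) := by
      obtain ⟨y, hy⟩ : ∃ y : ℝ, y = c1 / 4 * d := ⟨_, rfl⟩
      have hy0 : 0 < y := by
        rw [hy]
        positivity
      have e4 : θ = Real.exp (-y) * Real.exp (-y) := by
        rw [hθ, ← Real.exp_add, hy]
        congr 1
        ring
      have e5 : Real.exp (-y) ≤ 1 - P := by
        rw [hy]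
        linarith
      have e6 : Real.exp (-y) ≤ (1 - b) / d := by
        have e7 := Real.quadratic_le_exp_of_nonneg hy0.le
        have e8 : Real.exp (-y) ≤ 2 / y ^ 2 := by
          rw [Real.exp_neg, inv_eq_one_div, div_le_div_iff₀ (Real.exp_pos _) (by positivity)]
          nlinarith
        refine le_trans e8 ?_
        rw [div_le_div_iff₀ (by positivity) hd0, hy]
        rw [div_le_iff₀ (by positivity)] at hdA
        have e9 := mul_le_mul_of_nonneg_right hdA hd0.le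
        nlinarith
      calc θ = Real.exp (-y) * Real.exp (-y) := e4
        _ ≤ (1 - b) / d * (1 - P) :=
          mul_le_mul e6 e5 (Real.exp_pos _).le (by positivity)
        _ = _ := by ring
    exact RNum_caseA hb0 hb1 hd1 hP0 hP1 hθ0.le hθ1 e2 h3 e3
  · -- case B
    push Not at hcase
    obtain ⟨R, hR⟩ : ∃ R : ℝ, R = 4 * Real.sqrt d := ⟨_, rfl⟩
    have hs0 : 0 < Real.sqrt d := Real.sqrt_pos.mpr hd0
    have hR0 : 0 < R := by
      rw [hR]
      positivity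
    have hfP0 : 0 ≤ P ^ ((1 : ℝ) / d) := Real.rpow_nonneg hP0.le _
    have e1 : P ^ ((1 : ℝ) / d) ≤ Real.exp (-(c1 / 2)) := by
      calc P ^ ((1 : ℝ) / d) ≤ (Real.exp (-(c1 / 2 * d))) ^ ((1 : ℝ) / d) :=
            Real.rpow_le_rpow hP0.le hcase.le hp0.le
        _ = Real.exp (-(c1 / 2)) := by
            rw [← Real.exp_mul]
            congr 1
            field_simp
    have e2 : P ^ ((1 : ℝ) / d) * (1 - Real.log R / d) ≤ Q1 ^ ((1 : ℝ) / d) := by
      have e3 : P * R⁻¹ ≤ Q1 := by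
        rw [← div_eq_mul_inv, div_le_iff₀ hR0, hR]
        linarith
      calc P ^ ((1 : ℝ) / d) * (1 - Real.log R / d) ≤
          P ^ ((1 : ℝ) / d) * (R⁻¹) ^ ((1 : ℝ) / d) := by
            apply mul_le_mul_of_nonneg_left _ hfP0
            rw [Real.rpow_def_of_pos (by positivity), Real.log_inv]
            have := Real.add_one_le_exp (-Real.log R * (1 / d))
            refine le_trans (le_of_eq ?_) this
            ring
        _ = (P * R⁻¹) ^ ((1 : ℝ) / d) := (Real.mul_rpow hP0.le (by positivity)).symm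
        _ ≤ Q1 ^ ((1 : ℝ) / d) := Real.rpow_le_rpow (by positivity) e3 hp0.le
    have e3 : Real.log R / d ≤ δ := by
      have e4 : Real.log R ≤ R := by
        have := Real.log_le_sub_one_of_pos hR0
        linarith
      have e5 : 4 / δ ≤ Real.sqrt d := by
        rw [← Real.sqrt_sq (show 0 ≤ 4 / δ by positivity)]
        exact Real.sqrt_le_sqrt hdB
      have e6 : (d : ℝ) = Real.sqrt d * Real.sqrt d := (Real.mul_self_sqrt hd0.le).symm
      rw [div_le_iff₀ hd0]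
      refine le_trans e4 ?_
      rw [hR, e6]
      rw [div_le_iff₀ hδ0] at e5
      rw [← e6]
      nlinarith
    have hfP1 : P ^ ((1 : ℝ) / d) ≤ 1 := Real.rpow_le_one hP0.le hP1 hp0.le
    have hL : P ^ ((1 : ℝ) / d) * (Real.log R / d) ≤ δ := by
      rcases le_or_gt 0 (Real.log R / d) with h | h
      · nlinarith
      · have : P ^ ((1 : ℝ) / d) * (Real.log R / d) ≤ 0 :=
          mul_nonpos_of_nonneg_of_nonpos hfP0 h.le
        linarith
    have e7 : δ ≤ (1 - b) * (1 - P ^ ((1 : ℝ) / d)) := by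
      rw [hδ]
      apply mul_le_mul_of_nonneg_left _ hb1'.le
      linarith
    have e8 : 1 - Q1 ^ ((1 : ℝ) / d) ≤ 1 - P ^ ((1 : ℝ) / d) + δ := by
      linarith
    have e9 := mul_le_mul_of_nonneg_left e8 hb0.le
    have e10 : b * δ ≤ δ := by nlinarith
    nlinarith

end Pool.Agent.Lib.MP_0c1c75_co.KPI
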