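import Pool.Agent.Lib.MP_0c1c75_co.KPI.SpecR

/-!
# MP_0c1c75_co, project KPI, part R: the window comparison (helper43)
-/

set_option autoImplicit false

open MeasureTheory Set Metric

namespace Pool.Agent.Lib.MP_0c1c75_co.KPI

theorem r_w (hG : GPlusStmt) (hL : R_Lay) (hI : R_Inc) (hK : R_Kt) (hMu : R_Mu) : R_W := by
  intro h hh0 hh1
  obtain ⟨c1, d1, hc1, hd4, hmu⟩ := hMu h hh0 hh1
  refine ⟨c1, d1, hc1, fun d hd N p q r i0 hcfg => ?_⟩
  obtain ⟨hwi, hgpos, hbad⟩ := hmu d hd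
  have hd' : 4 ≤ d := hd4.trans hd
  have hN : 0 < N := Fin.pos i0
  obtain ⟨hp0, hq0, hr0, hr1, hcon⟩ := hcfg
  have hrn : ∀ i, 0 ≤ r i := fun i => zero_le_one.trans (hr1 i)
  have hl0 : 0 < 1 - h := by linarith
  have hcon1 : Contr 1 (fun i => (1 - h) • p i) (fun i => (1 - h)⁻¹ • q i) := by
    intro i j
    rw [dist_smul₀, dist_smul₀, Real.norm_of_nonneg hl0.le, Real.norm_of_nonneg (by positivity),
      one_mul]
    calc (1 - h)⁻¹ * dist (q i) (q j) ≤ (1 - h)⁻¹ * ((1 - h) ^ 2 * dist (p i) (p j)) :=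
          mul_le_mul_of_nonneg_left (hcon i j) (by positivity)
      _ = (1 - h) * dist (p i) (p j) := by field_simp
  have hGP := (hG d N (by omega) hN _ _ hcon1 (fun i => r i ^ 2) 1).2
  have hLp := hL d N (fun i => (1 - h) • p i) r i0 hd' (by simp [hp0]) hr0 hrn
  have hLq := hL d N (fun i => (1 - h)⁻¹ • q i) r i0 hd' (by simp [hq0]) hr0 hrn
  rw [hLp.2, hLq.2] at hGP
  have ha : 0 < (d : ℝ) / 2 - 1 := by
    have : (4 : ℝ) ≤ d := by exact_mod_cast hd'
    linarith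
  have hint := le_of_mul_le_mul_left hGP ha
  have hsub : Icc (1 - h) (1 + h) ⊆ Ioo (0 : ℝ) 2 := fun s hs =>
    ⟨by linarith [hs.1], by linarith [hs.2]⟩
  have hpw : ∀ s ∈ Ioo (0 : ℝ) 2, 0 ≤ s ^ ((d : ℝ) / 2 - 2) := fun s hs =>
    Real.rpow_nonneg hs.1.le _
  have hk : ∀ s : ℝ, s ∈ Icc (1 - h) (1 + h) →
      (1 - h) ^ 2 ≤ 1 + (1 - s) ∧ (1 - h) ^ 2 * (1 + (1 - s)) ≤ 1 := by
    intro s hs
    obtain ⟨a1, a2⟩ := hs
    have b1 : (1 - h) ^ 2 ≤ 1 - h := by nlinarith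
    refine ⟨by linarith, ?_⟩
    calc (1 - h) ^ 2 * (1 + (1 - s)) ≤ (1 - h) ^ 2 * (1 + h) :=
          mul_le_mul_of_nonneg_left (by linarith) (sq_nonneg _)
      _ ≤ (1 - h) * (1 + h) := mul_le_mul_of_nonneg_right b1 (by linarith)
      _ ≤ 1 := by nlinarith
  -- lower bound
  have hlow : (∫ s in Icc (1 - h) (1 + h), wt d s) * volume.real (Kt p r 0) ≤
      ∫ s in Ioo (0 : ℝ) 2, s ^ ((d : ℝ) / 2 - 2) *
        volume.real (Kt (fun i => (1 - h) • p i) r (1 - s)) := by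
    rw [← integral_mul_const]
    calc ∫ s in Icc (1 - h) (1 + h), wt d s * volume.real (Kt p r 0) ≤
        ∫ s in Icc (1 - h) (1 + h), s ^ ((d : ℝ) / 2 - 2) *
          volume.real (Kt (fun i => (1 - h) • p i) r (1 - s)) := by
          refine setIntegral_mono_on ((hwi.mono_set hsub).mul_const _) (hLp.1.mono_set hsub)
            measurableSet_Icc fun s hs => ?_
          have h1 := (hI d N p r i0 hp0 hr0 hr1 (1 - h) (1 - s) hl0 (hk s hs).1 (hk s hs).2).1
          have h2 : wt d s * volume.real (Kt p r 0) = s ^ ((d : ℝ) / 2 - 2) *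
              ((1 + (1 - s)) ^ ((d : ℝ) / 2) * volume.real (Kt p r 0)) := by
            rw [wt, show (2 : ℝ) - s = 1 + (1 - s) by ring]; ring
          rw [h2]
          exact mul_le_mul_of_nonneg_left h1 (hpw s (hsub hs))
      _ ≤ _ := by
          refine setIntegral_mono_set hLp.1 ?_ (Filter.Eventually.of_forall hsub)
          refine (ae_restrict_iff' measurableSet_Ioo).2 (Filter.Eventually.of_forall fun s hs => ?_)
          exact mul_nonneg (hpw s hs) measureReal_nonneg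
  -- upper bound
  have hdiff := setIntegral_sdiff measurableSet_Icc hLq.1 hsub
  have hup1 : ∫ s in Icc (1 - h) (1 + h), s ^ ((d : ℝ) / 2 - 2) *
      volume.real (Kt (fun i => (1 - h)⁻¹ • q i) r (1 - s)) ≤
      (∫ s in Icc (1 - h) (1 + h), wt d s) * volume.real (Kt q r 0) := by
    rw [← integral_mul_const]
    refine setIntegral_mono_on (hLq.1.mono_set hsub) ((hwi.mono_set hsub).mul_const _)
      measurableSet_Icc fun s hs => ?_
    have h1 := (hI d N q r i0 hq0 hr0 hr1 (1 - h) (1 - s) hl0 (hk s hs).1 (hk s hs).2).2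
    have h2 : wt d s * volume.real (Kt q r 0) = s ^ ((d : ℝ) / 2 - 2) *
        ((1 + (1 - s)) ^ ((d : ℝ) / 2) * volume.real (Kt q r 0)) := by
      rw [wt, show (2 : ℝ) - s = 1 + (1 - s) by ring]; ring
    rw [h2]
    exact mul_le_mul_of_nonneg_left h1 (hpw s (hsub hs))
  have hup2 : ∫ s in Ioo (0 : ℝ) 2 \ Icc (1 - h) (1 + h), s ^ ((d : ℝ) / 2 - 2) *
      volume.real (Kt (fun i => (1 - h)⁻¹ • q i) r (1 - s)) ≤
      (∫ s in Ioo (0 : ℝ) 2 \ Icc (1 - h) (1 + h), wt d s) * om d := by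
    rw [← integral_mul_const]
    refine setIntegral_mono_on (hLq.1.mono_set sdiff_subset) ((hwi.mono_set sdiff_subset).mul_const _)
      (measurableSet_Ioo.diff measurableSet_Icc) fun s hs => ?_
    have h1 := (hK d N (fun i => (1 - h)⁻¹ • q i) r i0 (by simp [hq0]) hr0 hrn).2.2.1 (1 - s)
      (by linarith [hs.1.2])
    have h2 : wt d s * om d = s ^ ((d : ℝ) / 2 - 2) * ((1 + (1 - s)) ^ ((d : ℝ) / 2) * om d) := by
      rw [wt, show (2 : ℝ) - s = 1 + (1 - s) by ring]; ring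
    rw [h2]
    exact mul_le_mul_of_nonneg_left h1 (hpw s hs.1)
  have hom : 0 ≤ om d := measureReal_nonneg
  set g : ℝ := ∫ s in Icc (1 - h) (1 + h), wt d s
  have h3 : (∫ s in Ioo (0 : ℝ) 2 \ Icc (1 - h) (1 + h), wt d s) * om d ≤
      Real.exp (-(c1 * d)) * g * om d := mul_le_mul_of_nonneg_right hbad hom
  have h4 : g * volume.real (Kt p r 0) ≤
      g * (volume.real (Kt q r 0) + Real.exp (-(c1 * d)) * om d) := by
    have e : g * (volume.real (Kt q r 0) + Real.exp (-(c1 * d)) * om d) =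
      g * volume.real (Kt q r 0) + Real.exp (-(c1 * d)) * g * om d := by ring
    rw [e]; linarith
  exact le_of_mul_le_mul_left h4 hgpos

end Pool.Agent.Lib.MP_0c1c75_co.KPI
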