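import Pool.Agent.Lib.MP_0c1c75_co.KPI.SpecA

/-!
# MP_0c1c75_co, project KPI: selection
-/

set_option autoImplicit false

open MeasureTheory Set Metric

namespace Pool.Agent.Lib.MP_0c1c75_co.KPI

/-- Selection. -/
theorem sSel (hDbl : S_Dbl) (hSelA : S_SelA) : S_Sel := by
  intro X ι _ μ ν _ _ H T D L hH hD hT hμ hν hLμ hLν
  have hT0 : 0 < T := by
    rcases Nat.eq_zero_or_pos T with h | h
    · subst h
      have h1 : 0 < D.card := Finset.card_pos.mpr hD
      rw [pow_zero] at hT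
      omega
    · exact h
  obtain ⟨J, hJD, hJ, hcard, s, _, s', _, hi⟩ := hDbl X ι μ ν H T D L hH hD hT hμ hν hLμ hLν
  rcases le_or_gt s s' with h | h
  · exact Or.inl (hSelA X ι μ ν H T D J L s s' hH hT0 hμ hLμ hJD hJ hcard h hi)
  · exact Or.inr (hSelA X ι ν μ H T D J L s' s hH hT0 hν hLν hJD hJ hcard h.le
      fun i hiJ => ⟨(hi i hiJ).2, (hi i hiJ).1⟩)

end Pool.Agent.Lib.MP_0c1c75_co.KPI
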