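import Pool.Agent.Lib.MP_0c1c75_co.KPI.SpecH

set_option autoImplicit false

/-!
# MP_0c1c75_co, project KPI, part H: very small balls
-/

open MeasureTheory Set Metric

namespace Pool.Agent.Lib.MP_0c1c75_co.KPI

private lemma Sml_dr {d N : ℕ} (p : Fin N → E d) (r : Fin N → ℝ) (i : Fin N) (P δ h : ℝ)
    (hP : ‖p i‖ = P) (hP0 : 0 < P) (hk : kap (p i) (r i) + δ ≤ h) :
    volume.real {x : E d | ‖x‖ ≤ 1 ∧ h * ‖x‖ < inner ℝ (-(1 / P) • p i) x} ≤
      volume.real (Dr p r {i} δ) := by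
  refine measureReal_mono ?_ ?_
  · rintro x ⟨hx1, hx2⟩
    refine ⟨hx1, i, Finset.mem_singleton_self i, ?_⟩
    rw [inner_smul_left] at hx2
    have h1 : (starRingEnd ℝ) (-(1 / P)) = -(1 / P) := rfl
    rw [h1] at hx2
    have h2 : P * (h * ‖x‖) < P * (-(1 / P) * inner ℝ (p i) x) := mul_lt_mul_of_pos_left hx2 hP0
    have h3 : P * (-(1 / P) * inner ℝ (p i) x) = -inner ℝ (p i) x := by
      field_simp
    rw [h3] at h2
    have h4 : (kap (p i) (r i) + δ) * (‖p i‖ * ‖x‖) ≤ h * (P * ‖x‖) := by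
      rw [hP]
      exact mul_le_mul_of_nonneg_right hk (by positivity)
    calc (kap (p i) (r i) + δ) * (‖p i‖ * ‖x‖) ≤ h * (P * ‖x‖) := h4
      _ = P * (h * ‖x‖) := by ring
      _ < -inner ℝ (p i) x := h2
  · have h1 : Dr p r {i} δ ⊆ closedBall (0 : E d) 1 := by
      rintro x ⟨hx, _⟩
      rw [mem_closedBall, dist_zero_right]
      exact hx
    exact ((measure_mono h1).trans_lt measure_closedBall_lt_top).ne

/-- **Very small balls.** -/
theorem sSml (hLowG : S_LowG) (hCap : S_Cap) (hIrr : S_Irr) : S_Sml := by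
  intro b hb0 hb1
  set δ : ℝ := (1 - b ^ 2) / 2 with hδ
  set h : ℝ := (1 + b ^ 2) / 2 with hh
  have hb2 : b ^ 2 < 1 := by nlinarith
  have hb2' : 0 < b ^ 2 := by positivity
  have hδ0 : 0 < δ := by rw [hδ]; linarith
  have hδ1 : δ ≤ 1 := by rw [hδ]; linarith
  have hh0 : 0 ≤ h := by rw [hh]; linarith
  have hh1 : h < 1 := by rw [hh]; linarith
  have hhs : 0 < 1 - h ^ 2 := by nlinarith
  set C : ℝ := 1 - Real.log (1 - h ^ 2) / 2 with hC
  have hlog : Real.log (1 - h ^ 2) ≤ 0 := Real.log_nonpos hhs.le (by nlinarith)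
  have hC1 : 1 ≤ C := by rw [hC]; linarith
  have hC0 : 0 < C := by linarith
  obtain ⟨d1, hd1⟩ := hCap h C hh0 hh1 (by rw [hC]; linarith)
  refine ⟨C, hC0, max d1 (⌈32 / δ⌉₊ + 1), ?_⟩
  intro d hd N p q1 r J J' P hq hr hJ hP hP0 hJJ hsmall
  have hdd1 : d1 ≤ d := (le_max_left _ _).trans hd
  have hdd2 : ⌈32 / δ⌉₊ + 1 ≤ d := (le_max_right _ _).trans hd
  have hdpos : 0 < d := by omega
  have hdR : (0 : ℝ) < d := by exact_mod_cast hdpos
  have hd32 : 32 / δ ≤ d := by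
    have h1 : (32 / δ : ℝ) ≤ (⌈32 / δ⌉₊ : ℝ) := Nat.le_ceil _
    have h2 : ((⌈32 / δ⌉₊ + 1 : ℕ) : ℝ) ≤ d := by exact_mod_cast hdd2
    push_cast at h2
    linarith
  obtain ⟨i', hi', hPi⟩ := hP
  have hom : 0 ≤ om d := measureReal_nonneg
  have hkap := (hIrr.2 d b (r i') (p i') (q1 i') hb0 hb1 (hq i') (hr i') (hJ i' hi')).2
  have hm0 : 0 < min P 1 := lt_min hP0 one_pos
  have hm1 : min P 1 ≤ 1 := min_le_right _ _
  have hmP : min P 1 ≤ P := min_le_left _ _
  -- lower bound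
  have hlow : δ / 4 * min P 1 * (Real.exp (-(C * d)) * om d) ≤ Gt p r Finset.univ 0 := by
    have hv : ‖(-(1 / P) • p i' : E d)‖ = 1 := by
      rw [norm_smul, hPi, norm_neg, Real.norm_eq_abs, abs_of_pos (by positivity)]
      field_simp
    have h1 := hd1 d hdd1 _ hv
    have h2 := Sml_dr p r i' P δ h hPi hP0 (by rw [hδ, hh]; linarith)
    have h3 := (hLowG d N p r {i'} hdpos).2.1 δ (min P 1 / 2) hδ0 hδ1 (by positivity) (by linarith)
      (fun i hi => by
        rw [Finset.mem_singleton] at hi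
        rw [hi, hPi]
        linarith)
    have h4 := (hLowG d N p r Finset.univ hdpos).2.2.2.2 {i'} (Finset.subset_univ _)
    calc δ / 4 * min P 1 * (Real.exp (-(C * d)) * om d)
        = δ * (min P 1 / 2) / 2 * (Real.exp (-(C * d)) * om d) := by ring
      _ ≤ δ * (min P 1 / 2) / 2 * volume.real (Dr p r {i'} δ) :=
          mul_le_mul_of_nonneg_left (h1.trans h2) (by positivity)
      _ ≤ Gt p r {i'} 0 := h3
      _ ≤ Gt p r Finset.univ 0 := h4
  -- upper bound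
  have hup : Gt (fun i => b • q1 i) r J' 0 ≤ d * (min P 1 * Real.exp (-(2 * C * d))) * om d := by
    refine (hLowG d N (fun i => b • q1 i) r J' hdpos).2.2.1 _ (by positivity) ?_
    intro i hi
    refine ⟨?_, hr i⟩
    have h1 : ‖b • q1 i‖ = b * ‖q1 i‖ := by
      rw [norm_smul, Real.norm_eq_abs, abs_of_pos hb0]
    have h2 := hq i
    have h3 := norm_nonneg (p i)
    have h4 : b * ‖q1 i‖ ≤ b * (b * ‖p i‖) := mul_le_mul_of_nonneg_left h2 hb0.le
    have h5 : b * (b * ‖p i‖) ≤ ‖p i‖ := by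
      have : b * (b * ‖p i‖) = b ^ 2 * ‖p i‖ := by ring
      rw [this]
      nlinarith
    rw [h1]
    exact (h4.trans h5).trans (hsmall i hi)
  -- comparison of the exponentials
  have hexp : 4 * d / δ ≤ Real.exp (C / 2 * d) := by
    have h1 := Real.quadratic_le_exp_of_nonneg (show 0 ≤ C / 2 * (d : ℝ) by positivity)
    have h2 : (d : ℝ) / 2 ≤ C / 2 * d := by nlinarith
    have h3 : ((d : ℝ) / 2) ^ 2 ≤ (C / 2 * d) ^ 2 := pow_le_pow_left₀ (by positivity) h2 2
    have h4 : 4 * d / δ ≤ (d : ℝ) ^ 2 / 8 := by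
      have h5 : 4 * d / δ = d / 8 * (32 / δ) := by ring
      rw [h5]
      have h6 : (d : ℝ) / 8 * (32 / δ) ≤ d / 8 * d := mul_le_mul_of_nonneg_left hd32 (by positivity)
      calc (d : ℝ) / 8 * (32 / δ) ≤ d / 8 * d := h6
        _ = (d : ℝ) ^ 2 / 8 := by ring
    have h7 : 0 ≤ C / 2 * (d : ℝ) := by positivity
    nlinarith
  have hE1 : Real.exp (-(2 * C * d)) = Real.exp (-(C * d)) * Real.exp (-(C * d)) := by
    rw [← Real.exp_add]
    congr 1
    ring
  have hE2 : Real.exp (-(C * d)) = Real.exp (-(C / 2 * d)) * Real.exp (-(C / 2 * d)) := by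
    rw [← Real.exp_add]
    congr 1
    ring
  have hE3 : 4 * d / δ * Real.exp (-(C * d)) ≤ Real.exp (-(C / 2 * d)) := by
    have h1 : Real.exp (C / 2 * d) * Real.exp (-(C * d)) = Real.exp (-(C / 2 * d)) := by
      rw [← Real.exp_add]
      congr 1
      ring
    rw [← h1]
    exact mul_le_mul_of_nonneg_right hexp (Real.exp_pos _).le
  have hG : 0 ≤ Gt p r Finset.univ 0 := measureReal_nonneg
  calc Gt (fun i => b • q1 i) r J' 0
      ≤ d * (min P 1 * Real.exp (-(2 * C * d))) * om d := hup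
    _ = 4 * d / δ * Real.exp (-(C * d)) * (δ / 4 * min P 1 * (Real.exp (-(C * d)) * om d)) := by
        rw [hE1]
        field_simp
    _ ≤ 4 * d / δ * Real.exp (-(C * d)) * Gt p r Finset.univ 0 :=
        mul_le_mul_of_nonneg_left hlow (by positivity)
    _ ≤ Real.exp (-(C / 2 * d)) * Gt p r Finset.univ 0 := mul_le_mul_of_nonneg_right hE3 hG

end Pool.Agent.Lib.MP_0c1c75_co.KPI
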