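import Pool.Agent.Lib.MP_0c1c75_co.KPI.SpecS

/-!
# MP_0c1c75_co, project KPI: the inequality (STAR)
-/

set_option autoImplicit false

open MeasureTheory Set Metric

namespace Pool.Agent.Lib.MP_0c1c75_co.KPI

private theorem Star_h {d : ℕ} {x : E d} {r : ℝ} (hx : 0 < ‖x‖) (hk : 0 < kap x r) :
    0 < r ^ 2 - 1 - ‖x‖ ^ 2 := by
  unfold kap at hk
  have h2 : 0 < 2 * ‖x‖ := by linarith
  by_contra h
  exact absurd hk (not_lt.mpr (div_nonpos_of_nonpos_of_nonneg (not_lt.mp h) h2.le))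

private theorem Star_cont {d N : ℕ} (p : Fin N → E d) (r : Fin N → ℝ) (J : Finset (Fin N)) :
    Continuous (gJ p r J) := by
  classical
  induction J using Finset.induction_on with
  | empty =>
      have h : gJ p r ∅ = fun x => ‖x‖ ^ 2 - 1 := by
        funext x
        unfold gJ
        rw [Finset.fold_empty]
      rw [h]
      fun_prop
  | insert i J hi ih =>
      have h : gJ p r (insert i J) = fun x => max (‖x - p i‖ ^ 2 - r i ^ 2) (gJ p r J x) := by
        funext x
        unfold gJ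
        rw [Finset.fold_insert hi]
      rw [h]
      exact Continuous.max (by fun_prop) ih

private theorem Star_le {d N : ℕ} (p : Fin N → E d) (r : Fin N → ℝ) (J : Finset (Fin N))
    (x : E d) : ‖x‖ ^ 2 - 1 ≤ gJ p r J x := by
  unfold gJ
  rw [Finset.le_fold_max]
  exact Or.inl le_rfl

private theorem Star_closed {d : ℕ} (z : ℝ) : IsClosed (Bz d z) :=
  isClosed_le (by fun_prop) continuous_const

private theorem Star_cpt {d : ℕ} {z : ℝ} : IsCompact (Bz d z) := by
  apply Metric.isCompact_of_isClosed_isBounded (Star_closed z)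
  apply Metric.isBounded_closedBall (x := (0 : E d)) (r := Real.sqrt z) |>.subset
  intro x hx
  rw [mem_closedBall, dist_zero_right]
  exact Real.le_sqrt_of_sq_le hx

private theorem Star_un {d : ℕ} (J : Finset (E d)) : MeasurableSet (Un J) := by
  have h : Un J = ⋃ n ∈ J, {x : E d | 1 < inner ℝ n x} := by
    ext x
    simp [Un]
  rw [h]
  refine (isOpen_biUnion fun n _ => ?_).measurableSet
  exact isOpen_lt continuous_const (by fun_prop)

private theorem Star_set {d N : ℕ} (q : Fin N → E d) (r : Fin N → ℝ) (J : Finset (Fin N))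
    (t : ℝ) : {x : E d | ‖x‖ ^ 2 - 1 ≤ t ∧ t < gJ q r J x} =
      {x : E d | ‖x‖ ^ 2 ≤ 1 + t ∧ ∃ i ∈ J, r i ^ 2 + t < ‖x - q i‖ ^ 2} := by
  ext x
  simp only [mem_setOf_eq]
  constructor
  · rintro ⟨h1, h2⟩
    refine ⟨by linarith, ?_⟩
    unfold gJ at h2
    rw [Finset.lt_fold_max] at h2
    rcases h2 with h2 | ⟨i, hi, h2⟩
    · linarith
    · exact ⟨i, hi, by linarith⟩
  · rintro ⟨h1, i, hi, h2⟩
    refine ⟨by linarith, ?_⟩
    unfold gJ
    rw [Finset.lt_fold_max]
    exact Or.inr ⟨i, hi, by linarith⟩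

theorem sStar (hMon : S_Mon) (hCake : S_Cake) (hCmp : S_CmpJ) (hPtw : S_Ptw) : S_Star := by
  intro d N p q r J hd hcon hqp hr hJ S hS
  have hd8 : (8 : ℝ) ≤ (d : ℝ) := by exact_mod_cast hd
  set a : ℝ := (d : ℝ) / 2 - 1 with ha
  have ha3 : 3 ≤ a := by rw [ha]; linarith
  have ha0 : 0 ≤ a := by linarith
  have ha1 : 1 ≤ a := by linarith
  have haa : (d : ℝ) / 2 - 2 = a - 1 := by rw [ha]; ring
  have hcpt : IsCompact (Bz d (1 + S)) := Star_cpt
  have hms : MeasurableSet (Bz d (1 + S)) := (Star_closed _).measurableSet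
  haveI hfin : IsFiniteMeasure (volume.restrict (Bz d (1 + S))) :=
    ⟨by rw [Measure.restrict_apply_univ]; exact hcpt.measure_lt_top⟩
  have hgq := Star_cont q r J
  have hgp := Star_cont p r J
  have hm : Continuous fun x : E d => ‖x‖ ^ 2 - 1 := by fun_prop
  -- lower bound
  have hlow : Gt q r J 0 * S ^ a ≤ ∫ x in Bz d (1 + S),
      (max (S - (‖x‖ ^ 2 - 1)) 0 ^ a - max (S - gJ q r J x) 0 ^ a) := by
    refine hCake (E d) (volume.restrict (Bz d (1 + S))) (fun x => ‖x‖ ^ 2 - 1) (gJ q r J) a S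
      (Gt q r J 0) (1 + S) hm.measurable hgq.measurable (Star_le q r J) ?_ ha1 hS ?_
    · intro x
      have h := sq_nonneg ‖x‖
      linarith
    · intro t ht0 htS
      have hmeas : MeasurableSet {x : E d | ‖x‖ ^ 2 - 1 ≤ t ∧ t < gJ q r J x} :=
        (measurableSet_le hm.measurable measurable_const).inter
          (measurableSet_lt measurable_const hgq.measurable)
      have hsub : {x : E d | ‖x‖ ^ 2 - 1 ≤ t ∧ t < gJ q r J x} ⊆ Bz d (1 + S) := by
        intro x hx
        have h1 := hx.1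
        show ‖x‖ ^ 2 ≤ 1 + S
        linarith
      rw [measureReal_restrict_apply hmeas, inter_eq_left.mpr hsub, Star_set]
      refine hMon d N q r J (by omega) ?_ t ht0
      intro i hi
      obtain ⟨h1, h2⟩ := hJ i hi
      have h3 := Star_h h1 h2
      have h4 : ‖q i‖ ^ 2 ≤ ‖p i‖ ^ 2 := pow_le_pow_left₀ (norm_nonneg _) (hqp i) 2
      linarith
  have hIm : IntegrableOn (fun x : E d => max (S - (‖x‖ ^ 2 - 1)) 0 ^ a) (Bz d (1 + S)) := by
    refine ContinuousOn.integrableOn_compact hcpt (Continuous.continuousOn ?_)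
    exact Continuous.rpow_const ((continuous_const.sub hm).max continuous_const)
      fun x => Or.inr ha0
  have hIq : IntegrableOn (fun x : E d => max (S - gJ q r J x) 0 ^ a) (Bz d (1 + S)) := by
    refine ContinuousOn.integrableOn_compact hcpt (Continuous.continuousOn ?_)
    exact Continuous.rpow_const ((continuous_const.sub hgq).max continuous_const)
      fun x => Or.inr ha0
  have hIp : IntegrableOn (fun x : E d => max (S - gJ p r J x) 0 ^ a) (Bz d (1 + S)) := by
    refine ContinuousOn.integrableOn_compact hcpt (Continuous.continuousOn ?_)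
    exact Continuous.rpow_const ((continuous_const.sub hgp).max continuous_const)
      fun x => Or.inr ha0
  have hcmp := hCmp d N p q r J S (by omega) hcon hqp
  rw [← ha] at hcmp
  have hmid : Gt q r J 0 * S ^ a ≤ ∫ x in Bz d (1 + S),
      (max (S - (‖x‖ ^ 2 - 1)) 0 ^ a - max (S - gJ p r J x) 0 ^ a) := by
    rw [integral_sub hIm hIq] at hlow
    rw [integral_sub hIm hIp]
    linarith
  have hpt := fun x (hx : x ∈ Bz d (1 + S)) => hPtw d N p r J S hS hJ x hx
  have hzero : ∀ x ∈ Bz d (1 + S) \ (Un (Nv p r J) ∩ Bz d (1 + S)),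
      (max (S - (‖x‖ ^ 2 - 1)) 0 ^ a - max (S - gJ p r J x) 0 ^ a) = 0 := by
    intro x hx
    have h1 : x ∉ Un (Nv p r J) := fun h => hx.2 ⟨h, hx.1⟩
    rw [(hpt x hx.1).2.1 h1, sub_self]
  rw [setIntegral_eq_of_subset_of_forall_sdiff_eq_zero hms inter_subset_right hzero] at hmid
  have hU : MeasurableSet (Un (Nv p r J) ∩ Bz d (1 + S)) := (Star_un _).inter hms
  have hsubU : Un (Nv p r J) ∩ Bz d (1 + S) ⊆ Bz d (1 + S) := inter_subset_right
  have hIF : IntegrableOn (fun x : E d =>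
      max (S - (‖x‖ ^ 2 - 1)) 0 ^ a - max (S - gJ p r J x) 0 ^ a)
      (Un (Nv p r J) ∩ Bz d (1 + S)) := (hIm.sub hIp).mono_set hsubU
  have hpow : ∀ b : ℝ, 0 ≤ b → IntegrableOn (fun x : E d => (1 + S - ‖x‖ ^ 2) ^ b)
      (Un (Nv p r J) ∩ Bz d (1 + S)) := by
    intro b hb
    refine (ContinuousOn.integrableOn_compact hcpt (Continuous.continuousOn ?_)).mono_set hsubU
    exact Continuous.rpow_const (by fun_prop) fun x => Or.inr hb
  have hmax : ∀ x ∈ Bz d (1 + S), max (S - (‖x‖ ^ 2 - 1)) 0 = 1 + S - ‖x‖ ^ 2 := by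
    intro x hx
    have h1 : ‖x‖ ^ 2 ≤ 1 + S := hx
    rw [max_eq_left (by linarith)]
    ring
  have hdiv : ∀ b : ℝ, ∫ x in Un (Nv p r J) ∩ Bz d (1 + S), ((1 + S - ‖x‖ ^ 2) / S) ^ b =
      (∫ x in Un (Nv p r J) ∩ Bz d (1 + S), (1 + S - ‖x‖ ^ 2) ^ b) / S ^ b := by
    intro b
    rw [← integral_div]
    refine setIntegral_congr_fun hU fun x hx => ?_
    have h1 : ‖x‖ ^ 2 ≤ 1 + S := hx.2
    exact Real.div_rpow (by linarith) hS.le b
  have hSa : 0 < S ^ a := Real.rpow_pos_of_pos hS a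
  constructor
  · rw [hdiv, le_div_iff₀ hSa]
    refine hmid.trans (setIntegral_mono_on hIF (hpow a ha0) hU fun x hx => ?_)
    rw [hmax x hx.2]
    have h1 : 0 ≤ max (S - gJ p r J x) 0 ^ a := Real.rpow_nonneg (le_max_right _ _) _
    linarith
  · intro e he hpe
    rw [haa, hdiv]
    set I : ℝ := ∫ x in Un (Nv p r J) ∩ Bz d (1 + S), (1 + S - ‖x‖ ^ 2) ^ (a - 1) with hI
    have hI0 : 0 ≤ I := by
      rw [hI]
      refine setIntegral_nonneg hU fun x hx => ?_
      have h1 : ‖x‖ ^ 2 ≤ 1 + S := hx.2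
      exact Real.rpow_nonneg (by linarith) _
    have hsq : 0 ≤ Real.sqrt (1 + S) := Real.sqrt_nonneg _
    have h1 : Gt q r J 0 * S ^ a ≤ (a * (4 * e * Real.sqrt (1 + S))) * I := by
      rw [hI, ← integral_const_mul]
      refine hmid.trans (setIntegral_mono_on hIF ((hpow (a - 1) (by linarith)).const_mul _) hU
        fun x hx => ?_)
      rw [hmax x hx.2]
      have h2 := (hpt x hx.2).2.2 e a he ha1 hpe
      have h3 : a * (1 + S - ‖x‖ ^ 2) ^ (a - 1) * (4 * e * Real.sqrt (1 + S)) =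
          a * (4 * e * Real.sqrt (1 + S)) * (1 + S - ‖x‖ ^ 2) ^ (a - 1) := by ring
      rw [← h3]
      exact h2
    have hSb : 0 < S ^ (a - 1) := Real.rpow_pos_of_pos hS _
    clear_value a
    have hSS : S ^ a = S * S ^ (a - 1) := by
      rw [Real.rpow_sub_one hS.ne']
      field_simp
    have h4 : 2 * (d : ℝ) * e * Real.sqrt (1 + S) / S * (I / S ^ (a - 1)) =
        (2 * (d : ℝ) * e * Real.sqrt (1 + S) * I) / S ^ a := by
      rw [hSS]
      field_simp
    rw [h4, le_div_iff₀ hSa]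
    refine h1.trans ?_
    have h5 : a * (4 * e * Real.sqrt (1 + S)) ≤ 2 * (d : ℝ) * e * Real.sqrt (1 + S) := by
      have h6 : 0 ≤ e * Real.sqrt (1 + S) := mul_nonneg he.le hsq
      rw [ha]
      nlinarith
    exact mul_le_mul_of_nonneg_right h5 hI0

end Pool.Agent.Lib.MP_0c1c75_co.KPI
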