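import Pool.Agent.Lib.MP_0c1c75_co.KPI.SpecA

/-!
# MP_0c1c75_co, project KPI: an extremal subfamily is tight for both functions (S_Tgt)
-/

set_option autoImplicit false

open MeasureTheory Set Metric

namespace Pool.Agent.Lib.MP_0c1c75_co.KPI

/-- the largest quotient -/
private theorem Tgt_quot {ι : Type} [DecidableEq ι] (I : Finset ι) (H : Finset ι → ℝ) (M : ℝ)
    (hM : 0 < M) (hH : ∀ J ⊆ I, (J.card : ℝ) ≤ M * H J) (J : Finset ι) (hJ : J ⊆ I)
    (hne : J.Nonempty) :
    ∃ a : ℝ, 0 < a ∧ (∀ K ⊆ J, (K.card : ℝ) ≤ a * H K) ∧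
      ∀ x, (∀ K ⊆ J, K.Nonempty → (K.card : ℝ) ≤ x * H K) → a ≤ x := by
  have hpos : ∀ K ⊆ J, K.Nonempty → 0 < H K := by
    intro K hK hKne
    have h1 := hH K (hK.trans hJ)
    have h2 : (0 : ℝ) < K.card := by exact_mod_cast Finset.card_pos.2 hKne
    by_contra h3
    push Not at h3
    have h4 : M * H K ≤ 0 := mul_nonpos_of_nonneg_of_nonpos hM.le h3
    linarith
  obtain ⟨K0, hK0, hmax⟩ := Finset.exists_max_image (J.powerset.filter Finset.Nonempty)
    (fun K => (K.card : ℝ) / H K) ⟨J, by simp [hne]⟩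
  rw [Finset.mem_filter, Finset.mem_powerset] at hK0
  have hK0pos := hpos K0 hK0.1 hK0.2
  have hK0card : (0 : ℝ) < K0.card := by exact_mod_cast Finset.card_pos.2 hK0.2
  have hle : ∀ K ⊆ J, K.Nonempty → (K.card : ℝ) ≤ K0.card / H K0 * H K := by
    intro K hK hKne
    have h1 := hmax K (by rw [Finset.mem_filter, Finset.mem_powerset]; exact ⟨hK, hKne⟩)
    rwa [div_le_iff₀ (hpos K hK hKne)] at h1
  refine ⟨K0.card / H K0, div_pos hK0card hK0pos, ?_, ?_⟩
  · intro K hK
    rcases K.eq_empty_or_nonempty with h | h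
    · subst h
      have h1 := hH ∅ (Finset.empty_subset _)
      rw [Finset.card_empty, Nat.cast_zero] at h1 ⊢
      have h2 : 0 ≤ H ∅ := by
        by_contra h3
        push Not at h3
        have := mul_neg_of_pos_of_neg hM h3
        linarith
      exact mul_nonneg (div_pos hK0card hK0pos).le h2
    · exact hle K hK h
  · intro x hx
    have h1 := hx K0 hK0.1 hK0.2
    rwa [div_le_iff₀ hK0pos]

/-- a maximal tight subset -/
private theorem Tgt_max {ι : Type} [DecidableEq ι] (J0 : Finset ι) (H : Finset ι → ℝ) (x L : ℝ)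
    (hx : 0 < x) (hsub : ∀ J K, H (J ∪ K) ≤ H J + H K) :
    ∃ D ⊆ J0, (D = ∅ ∨ x * H D ≤ L * D.card) ∧
      ∀ K ⊆ J0 \ D, K.Nonempty → L * (K.card : ℝ) < x * H K := by
  classical
  by_cases hS : (J0.powerset.filter fun D => x * H D ≤ L * (D.card : ℝ)).Nonempty
  · obtain ⟨D, hD, hmax⟩ := Finset.exists_max_image _ (fun D : Finset ι => D.card) hS
    rw [Finset.mem_filter, Finset.mem_powerset] at hD
    refine ⟨D, hD.1, Or.inr hD.2, ?_⟩
    intro K hK hKne
    by_contra hneg
    push Not at hneg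
    have hdisj : Disjoint D K :=
      Finset.disjoint_of_subset_right hK Finset.disjoint_sdiff
    have hcard : (D ∪ K).card = D.card + K.card := Finset.card_union_of_disjoint hdisj
    have h1 : D ∪ K ∈ J0.powerset.filter fun D => x * H D ≤ L * (D.card : ℝ) := by
      rw [Finset.mem_filter, Finset.mem_powerset]
      refine ⟨Finset.union_subset hD.1 (hK.trans Finset.sdiff_subset), ?_⟩
      rw [hcard]
      push_cast
      have h2 : x * H (D ∪ K) ≤ x * (H D + H K) := mul_le_mul_of_nonneg_left (hsub D K) hx.le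
      linarith [hD.2]
    have h3 := hmax _ h1
    have h4 := Finset.card_pos.2 hKne
    omega
  · refine ⟨∅, Finset.empty_subset _, Or.inl rfl, ?_⟩
    intro K hK hKne
    by_contra hneg
    push Not at hneg
    apply hS
    refine ⟨K, ?_⟩
    rw [Finset.mem_filter, Finset.mem_powerset]
    rw [Finset.sdiff_empty] at hK
    exact ⟨hK, hneg⟩

theorem sTgt : S_Tgt := by
  classical
  intro ι _ I F G A B l L hI hA hB hl0 hl1 hL hL1 hL2 hFm hGm hFs hGs hF hG
  have hLpos : 0 < L := by linarith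
  choose! a ha using fun J => Tgt_quot I F A hA hF J
  choose! b hb using fun J => Tgt_quot I G B hB hG J
  -- the value of a subset is at least the value for larger constants
  have hPhi : ∀ E ⊆ I, E.Nonempty → ∀ x y : ℝ, a E ≤ x → b E ≤ y →
      (E.card : ℝ) / (x ^ (1 - l) * y ^ l) ≤ E.card / (a E ^ (1 - l) * b E ^ l) := by
    intro E hE hne x y hx hy
    obtain ⟨ha0, -, -⟩ := ha E hE hne
    obtain ⟨hb0, -, -⟩ := hb E hE hne
    apply div_le_div_of_nonneg_left (Nat.cast_nonneg _) (by positivity)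
    apply mul_le_mul (Real.rpow_le_rpow ha0.le hx (by linarith))
      (Real.rpow_le_rpow hb0.le hy hl0.le) (by positivity)
    exact Real.rpow_nonneg (ha0.le.trans hx) _
  obtain ⟨Js, hJs, hmax⟩ := Finset.exists_max_image (I.powerset.filter Finset.Nonempty)
    (fun J => (J.card : ℝ) / (a J ^ (1 - l) * b J ^ l)) ⟨I, by simp [hI]⟩
  rw [Finset.mem_filter, Finset.mem_powerset] at hJs
  obtain ⟨hJsI, hJsne⟩ := hJs
  obtain ⟨ha0, haH, haM⟩ := ha Js hJsI hJsne
  obtain ⟨hb0, hbH, hbM⟩ := hb Js hJsI hJsne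
  have hcpos : (0 : ℝ) < Js.card := by exact_mod_cast Finset.card_pos.2 hJsne
  have hden : 0 < a Js ^ (1 - l) * b Js ^ l := by positivity
  have hmax' : ∀ E ⊆ I, E.Nonempty →
      (E.card : ℝ) / (a E ^ (1 - l) * b E ^ l) ≤ Js.card / (a Js ^ (1 - l) * b Js ^ l) := by
    intro E hE hne
    exact hmax E (by rw [Finset.mem_filter, Finset.mem_powerset]; exact ⟨hE, hne⟩)
  have haE : ∀ E ⊆ Js, E.Nonempty → a E ≤ a Js := fun E hE hne =>
    (ha E (hE.trans hJsI) hne).2.2 _ fun K hK _ => haH K (hK.trans hE)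
  have hbE : ∀ E ⊆ Js, E.Nonempty → b E ≤ b Js := fun E hE hne =>
    (hb E (hE.trans hJsI) hne).2.2 _ fun K hK _ => hbH K (hK.trans hE)
  -- first step
  obtain ⟨D1, hD1, hD1t, hD1m⟩ := Tgt_max Js F (a Js) L ha0 hFs
  have hcard1 : (Js.card : ℝ) ≤ 2 * D1.card := by
    by_contra hneg
    push Not at hneg
    have hEc : ((Js \ D1).card : ℝ) = Js.card - D1.card := by
      rw [Finset.card_sdiff_of_subset hD1, Nat.cast_sub (Finset.card_le_card hD1)]
    have hEpos : (0 : ℝ) < (Js \ D1).card := by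
      rw [hEc]
      have : (0 : ℝ) ≤ D1.card := Nat.cast_nonneg _
      linarith
    have hEne : (Js \ D1).Nonempty := Finset.card_pos.1 (by exact_mod_cast hEpos)
    have hEs : Js \ D1 ⊆ Js := Finset.sdiff_subset
    have h1 : a (Js \ D1) ≤ a Js / L := by
      refine (ha _ (hEs.trans hJsI) hEne).2.2 _ fun K hK hKne => ?_
      have h2 := hD1m K hK hKne
      rw [div_mul_eq_mul_div, le_div_iff₀ hLpos]
      linarith
    have h3 := hPhi _ (hEs.trans hJsI) hEne _ _ h1 (hbE _ hEs hEne)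
    have h4 := h3.trans (hmax' _ (hEs.trans hJsI) hEne)
    rw [Real.div_rpow ha0.le hLpos.le, div_mul_eq_mul_div, div_div_eq_mul_div,
      div_le_div_iff_of_pos_right hden] at h4
    have h5 : ((Js \ D1).card : ℝ) * 4 ≤ (Js \ D1).card * L ^ (1 - l) :=
      mul_le_mul_of_nonneg_left hL2.le hEpos.le
    rw [hEc] at h4 h5
    linarith
  have hD1ne : D1.Nonempty := by
    rw [← Finset.card_pos]
    have : (0 : ℝ) < D1.card := by linarith
    exact_mod_cast this
  have hD1t' : a Js * F D1 ≤ L * D1.card := by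
    rcases hD1t with h | h
    · exact absurd h hD1ne.ne_empty
    · exact h
  -- second step
  obtain ⟨D, hD, hDt, hDm⟩ := Tgt_max D1 G (b Js) L hb0 hGs
  have hcard2 : (Js.card : ℝ) ≤ 4 * D.card := by
    by_contra hneg
    push Not at hneg
    have hEc : ((D1 \ D).card : ℝ) = D1.card - D.card := by
      rw [Finset.card_sdiff_of_subset hD, Nat.cast_sub (Finset.card_le_card hD)]
    have hEpos : (0 : ℝ) < (D1 \ D).card := by
      rw [hEc]
      linarith
    have hEne : (D1 \ D).Nonempty := Finset.card_pos.1 (by exact_mod_cast hEpos)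
    have hEs : D1 \ D ⊆ Js := Finset.sdiff_subset.trans hD1
    have h1 : b (D1 \ D) ≤ b Js / L := by
      refine (hb _ (hEs.trans hJsI) hEne).2.2 _ fun K hK hKne => ?_
      have h2 := hDm K hK hKne
      rw [div_mul_eq_mul_div, le_div_iff₀ hLpos]
      linarith
    have h3 := hPhi _ (hEs.trans hJsI) hEne _ _ (haE _ hEs hEne) h1
    have h4 := h3.trans (hmax' _ (hEs.trans hJsI) hEne)
    rw [Real.div_rpow hb0.le hLpos.le, ← mul_div_assoc, div_div_eq_mul_div,
      div_le_div_iff_of_pos_right hden] at h4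
    have h5 : ((D1 \ D).card : ℝ) * 4 ≤ (D1 \ D).card * L ^ l :=
      mul_le_mul_of_nonneg_left hL1.le hEpos.le
    rw [hEc] at h4 h5
    linarith
  have hDne : D.Nonempty := by
    rw [← Finset.card_pos]
    have : (0 : ℝ) < D.card := by linarith
    exact_mod_cast this
  have hDt' : b Js * G D ≤ L * D.card := by
    rcases hDt with h | h
    · exact absurd h hDne.ne_empty
    · exact h
  have hDJs : D ⊆ Js := hD.trans hD1
  refine ⟨D, hDJs.trans hJsI, hDne, a Js, b Js, ha0, hb0, fun J hJ => haH J (hJ.trans hDJs),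
    fun J hJ => hbH J (hJ.trans hDJs), ?_, ?_, ?_⟩
  · have h1 : a Js * F D ≤ a Js * F D1 := mul_le_mul_of_nonneg_left (hFm _ _ hD) ha0.le
    have h2 : (D1.card : ℝ) ≤ Js.card := by exact_mod_cast Finset.card_le_card hD1
    have h3 : L * (D1.card : ℝ) ≤ L * (4 * D.card) :=
      mul_le_mul_of_nonneg_left (h2.trans hcard2) hLpos.le
    linarith
  · have h3 : 0 ≤ L * (D.card : ℝ) := by positivity
    linarith
  · have h1 : a I ≤ A := (ha I Finset.Subset.rfl hI).2.2 _ fun K hK _ => hF K hK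
    have h2 : b I ≤ B := (hb I Finset.Subset.rfl hI).2.2 _ fun K hK _ => hG K hK
    refine (hPhi I Finset.Subset.rfl hI A B h1 h2).trans
      ((hmax' I Finset.Subset.rfl hI).trans ?_)
    rw [← mul_div_assoc]
    exact div_le_div_of_nonneg_right hcard2 hden.le

end Pool.Agent.Lib.MP_0c1c75_co.KPI
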