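import Pool.Agent.Lib.MP_0c1c75_co.All3
import Pool.Agent.Lib.MP_0c1c75_co.GPlus
import Pool.Agent.Lib.MP_0c1c75_co.GPchi
import Pool.Agent.Lib.MP_0c1c75_co.GPpoly
import Pool.Agent.Lib.MP_0c1c75_co.Conc
import Pool.Agent.Lib.MP_0c1c75_co.Thm2p
import Pool.Agent.Lib.MP_0c1c75_co.ArBas
import Pool.Agent.Lib.MP_0c1c75_co.KPI.Asm
import Pool.Agent.Lib.MP_0c1c75_co.KPI.Bdd
import Pool.Agent.Lib.MP_0c1c75_co.KPI.CBM
import Pool.Agent.Lib.MP_0c1c75_co.KPI.Cake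
import Pool.Agent.Lib.MP_0c1c75_co.KPI.Cap
import Pool.Agent.Lib.MP_0c1c75_co.KPI.CapM
import Pool.Agent.Lib.MP_0c1c75_co.KPI.Cas
import Pool.Agent.Lib.MP_0c1c75_co.KPI.Cel
import Pool.Agent.Lib.MP_0c1c75_co.KPI.Cls
import Pool.Agent.Lib.MP_0c1c75_co.KPI.ClsA
import Pool.Agent.Lib.MP_0c1c75_co.KPI.CmpJ
import Pool.Agent.Lib.MP_0c1c75_co.KPI.Cnt
import Pool.Agent.Lib.MP_0c1c75_co.KPI.Col
import Pool.Agent.Lib.MP_0c1c75_co.KPI.Cst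
import Pool.Agent.Lib.MP_0c1c75_co.KPI.Dbl
import Pool.Agent.Lib.MP_0c1c75_co.KPI.Dfc
import Pool.Agent.Lib.MP_0c1c75_co.KPI.Dsc
import Pool.Agent.Lib.MP_0c1c75_co.KPI.Exi
import Pool.Agent.Lib.MP_0c1c75_co.KPI.FCmp
import Pool.Agent.Lib.MP_0c1c75_co.KPI.FDr
import Pool.Agent.Lib.MP_0c1c75_co.KPI.FLin
import Pool.Agent.Lib.MP_0c1c75_co.KPI.FLow
import Pool.Agent.Lib.MP_0c1c75_co.KPI.FMom
import Pool.Agent.Lib.MP_0c1c75_co.KPI.FMs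
import Pool.Agent.Lib.MP_0c1c75_co.KPI.FTail
import Pool.Agent.Lib.MP_0c1c75_co.KPI.FUp
import Pool.Agent.Lib.MP_0c1c75_co.KPI.FVL
import Pool.Agent.Lib.MP_0c1c75_co.KPI.FVU
import Pool.Agent.Lib.MP_0c1c75_co.KPI.Fat
import Pool.Agent.Lib.MP_0c1c75_co.KPI.FatT
import Pool.Agent.Lib.MP_0c1c75_co.KPI.FinA
import Pool.Agent.Lib.MP_0c1c75_co.KPI.FinB
import Pool.Agent.Lib.MP_0c1c75_co.KPI.GBM
import Pool.Agent.Lib.MP_0c1c75_co.KPI.GCon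
import Pool.Agent.Lib.MP_0c1c75_co.KPI.GInc
import Pool.Agent.Lib.MP_0c1c75_co.KPI.GNet
import Pool.Agent.Lib.MP_0c1c75_co.KPI.GNum
import Pool.Agent.Lib.MP_0c1c75_co.KPI.GShl
import Pool.Agent.Lib.MP_0c1c75_co.KPI.GThk
import Pool.Agent.Lib.MP_0c1c75_co.KPI.Gain
import Pool.Agent.Lib.MP_0c1c75_co.KPI.Grw
import Pool.Agent.Lib.MP_0c1c75_co.KPI.Int
import Pool.Agent.Lib.MP_0c1c75_co.KPI.IntU
import Pool.Agent.Lib.MP_0c1c75_co.KPI.Irr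
import Pool.Agent.Lib.MP_0c1c75_co.KPI.KPI
import Pool.Agent.Lib.MP_0c1c75_co.KPI.Kk
import Pool.Agent.Lib.MP_0c1c75_co.KPI.Lay
import Pool.Agent.Lib.MP_0c1c75_co.KPI.LayA
import Pool.Agent.Lib.MP_0c1c75_co.KPI.LayB
import Pool.Agent.Lib.MP_0c1c75_co.KPI.LoA
import Pool.Agent.Lib.MP_0c1c75_co.KPI.LoB
import Pool.Agent.Lib.MP_0c1c75_co.KPI.LoC
import Pool.Agent.Lib.MP_0c1c75_co.KPI.LowG
import Pool.Agent.Lib.MP_0c1c75_co.KPI.Mid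
import Pool.Agent.Lib.MP_0c1c75_co.KPI.Mon
import Pool.Agent.Lib.MP_0c1c75_co.KPI.Mrg
import Pool.Agent.Lib.MP_0c1c75_co.KPI.NF
import Pool.Agent.Lib.MP_0c1c75_co.KPI.NFX
import Pool.Agent.Lib.MP_0c1c75_co.KPI.NonF
import Pool.Agent.Lib.MP_0c1c75_co.KPI.Nst
import Pool.Agent.Lib.MP_0c1c75_co.KPI.Pol
import Pool.Agent.Lib.MP_0c1c75_co.KPI.Psh
import Pool.Agent.Lib.MP_0c1c75_co.KPI.Ptw
import Pool.Agent.Lib.MP_0c1c75_co.KPI.R_Reg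
import Pool.Agent.Lib.MP_0c1c75_co.KPI.R_Cnv
import Pool.Agent.Lib.MP_0c1c75_co.KPI.R_Inc
import Pool.Agent.Lib.MP_0c1c75_co.KPI.R_Kt
import Pool.Agent.Lib.MP_0c1c75_co.KPI.R_Lay
import Pool.Agent.Lib.MP_0c1c75_co.KPI.R_Mu
import Pool.Agent.Lib.MP_0c1c75_co.KPI.R_Norm
import Pool.Agent.Lib.MP_0c1c75_co.KPI.R_Num
import Pool.Agent.Lib.MP_0c1c75_co.KPI.R_W
import Pool.Agent.Lib.MP_0c1c75_co.KPI.Sel
import Pool.Agent.Lib.MP_0c1c75_co.KPI.SelA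
import Pool.Agent.Lib.MP_0c1c75_co.KPI.Sml
import Pool.Agent.Lib.MP_0c1c75_co.KPI.Star
import Pool.Agent.Lib.MP_0c1c75_co.KPI.Tgt

/-!
# MP_0c1c75_co, project KPI: assembly of all modules
-/

set_option autoImplicit false

open MeasureTheory Set Metric

namespace Pool.Agent.Lib.MP_0c1c75_co.KPI

theorem aGPlus : GPlusStmt := gPlusStmt (gpChiStmt gpPolyStmt)
theorem aThm2 : Thm2pStmt := thm2pStmt aGPlus (concStmt allBM allV) allV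
theorem aCel : S_Cel := sCel
theorem aCBM : S_CBM := sCBM allBM
theorem aCnt : S_Cnt := sCnt aCel
theorem aBdd : S_Bdd := sBdd aCel
theorem aExi : S_Exi := sExi aCnt aBdd
theorem aGrw : S_Grw := sGrw aCel aCBM
theorem aLay : S_Lay := sLay sLayA sLayB
theorem aSel : S_Sel := sSel (sDbl aLay) (sSelA sCol)
theorem aMid : S_Mid := sMid aCel aCBM aExi
theorem aInt : S_Int := sInt (sIntU aSel sTgt aMid)
theorem aStar : S_Star := sStar (sMon sPsh) sCake (sCmpJ aGPlus) sPtw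
theorem aClsA : S_ClsA := sClsA aGrw sDsc (sNst sDfc) (sCas aInt) sPol sCst
theorem aCls : S_Cls := sCls (sMrg aStar) aClsA
theorem aLowG : S_LowG := kLowG kLoA kLoB kLoC
theorem aCap : S_Cap := kCap kCapM
theorem aGain : S_Gain := sGain aLowG sGNum sGNet sGCon (sGThk sGCon) (sGShl sGCon) sGInc
  (sGBM allBM allV)
theorem aFMs : S_FMs := kFMs
theorem aFMom : S_FMom := kFMom
theorem aFCmp : S_FCmp := kFCmp aFMom (kFTail aFMom) (kFLin gaussStmt) (kFLow Ar.basStmt aFMom)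
  (kFUp Ar.basStmt aFMom)
theorem aFat : S_Fat := kFat Ar.basStmt aFMs aFCmp (kFVU allP aFMs) (kFVL allP aFMs) (kFDr aFMs)
theorem aNF : S_NF := sNF aCls aGain aLowG sIrr
theorem aNonF : S_NonF := sNonF aNF (sNFX aCap) sKk (sSml aLowG aCap sIrr) aLowG sIrr
theorem aAsm : S_Asm := sAsm (sFatT aFat aLowG) aNonF sIrr aLowG
theorem aReg : S_Reg := r_reg aThm2 allV r_norm r_kt (r_w aGPlus (r_lay r_kt) r_inc r_kt r_mu)
  (r_cnv allBM allV r_kt) r_num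
theorem aKPI : S_KPI := sKPI aReg aAsm

end Pool.Agent.Lib.MP_0c1c75_co.KPI
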