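import Pool.Agent.Lib.MP_0c1c75_co.KPI.SpecS

/-!
# MP_0c1c75_co, project KPI: layer cake, lower bound (S_Cake)
-/

set_option autoImplicit false

open MeasureTheory Set Metric

namespace Pool.Agent.Lib.MP_0c1c75_co.KPI

private theorem Cake_cont (a S : ℝ) (ha : 1 ≤ a) :
    Continuous fun t : ℝ => a * (S - t) ^ (a - 1) := by
  refine continuous_const.mul ?_
  exact (continuous_const.sub continuous_id).rpow_const fun t => Or.inr (by linarith)

private theorem Cake_int (a S u v : ℝ) (ha : 1 ≤ a) :
    ∫ t in u..v, a * (S - t) ^ (a - 1) = (S - u) ^ a - (S - v) ^ a := by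
  have hd : ∀ t ∈ uIcc u v, HasDerivAt (fun t : ℝ => -(S - t) ^ a) (a * (S - t) ^ (a - 1)) t := by
    intro t _
    have h1 : HasDerivAt (fun t : ℝ => S - t) (-1) t := by
      simpa using (hasDerivAt_id t).const_sub S
    have h2 := (Real.hasDerivAt_rpow_const (x := S - t) (p := a) (Or.inr ha)).comp t h1
    have h3 := h2.neg
    have h4 : -(a * (S - t) ^ (a - 1) * -1) = a * (S - t) ^ (a - 1) := by ring
    rw [h4] at h3
    exact h3
  rw [intervalIntegral.integral_eq_sub_of_hasDerivAt hd
    ((Cake_cont a S ha).intervalIntegrable u v)]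
  ring

private theorem Cake_lint (a S u v : ℝ) (ha : 1 ≤ a) (huv : u ≤ v) (hv : v ≤ S) :
    ∫⁻ t in Icc u v, ENNReal.ofReal (a * (S - t) ^ (a - 1)) =
      ENNReal.ofReal ((S - u) ^ a - (S - v) ^ a) := by
  rw [← Cake_int a S u v ha, intervalIntegral.integral_of_le huv,
    ← integral_Icc_eq_integral_Ioc]
  refine (ofReal_integral_eq_lintegral_ofReal ?_ ?_).symm
  · exact ((Cake_cont a S ha).continuousOn.integrableOn_compact isCompact_Icc)
  · refine (ae_restrict_iff' measurableSet_Icc).mpr (Filter.Eventually.of_forall fun t ht => ?_)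
    have h1 : 0 ≤ S - t := by linarith [ht.2]
    have h2 := Real.rpow_nonneg h1 (a - 1)
    have h3 : 0 ≤ a := by linarith
    exact mul_nonneg h3 h2

/-- Pointwise estimate. -/
private theorem Cake_ptw (a S m g : ℝ) (ha : 1 ≤ a) :
    ∫⁻ t in Ioo 0 S, (Ico m g).indicator (fun t => ENNReal.ofReal (a * (S - t) ^ (a - 1))) t ≤
      ENNReal.ofReal (max (S - m) 0 ^ a - max (S - g) 0 ^ a) := by
  have h1 : ∫⁻ t in Ioo 0 S, (Ico m g).indicator
      (fun t => ENNReal.ofReal (a * (S - t) ^ (a - 1))) t ≤
      ∫⁻ t in Icc (max m 0) (min g S), ENNReal.ofReal (a * (S - t) ^ (a - 1)) := by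
    rw [← lintegral_indicator measurableSet_Ioo, ← lintegral_indicator measurableSet_Icc]
    refine lintegral_mono fun t => ?_
    by_cases h : t ∈ Ioo 0 S
    · rw [indicator_of_mem h]
      by_cases h' : t ∈ Ico m g
      · have h'' : t ∈ Icc (max m 0) (min g S) :=
          ⟨max_le h'.1 h.1.le, le_min h'.2.le h.2.le⟩
        rw [indicator_of_mem h', indicator_of_mem h'']
      · rw [indicator_of_notMem h']
        exact bot_le
    · rw [indicator_of_notMem h]
      exact bot_le
  refine h1.trans ?_
  rcases lt_or_ge (min g S) (max m 0) with h | h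
  · rw [Icc_eq_empty (not_le.mpr h)]
    simp
  · rw [Cake_lint a S _ _ ha h (min_le_right _ _)]
    apply ENNReal.ofReal_le_ofReal
    have h2 : S - min g S = max (S - g) 0 := by
      rcases le_total g S with h' | h'
      · rw [min_eq_left h', max_eq_left (by linarith)]
      · rw [min_eq_right h', max_eq_right (by linarith), sub_self]
    have h3 : 0 ≤ S - max m 0 := by
      have := min_le_right g S
      linarith
    have h4 : (S - max m 0) ^ a ≤ max (S - m) 0 ^ a := by
      refine Real.rpow_le_rpow h3 ?_ (by linarith)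
      have := le_max_left m 0
      exact (by linarith : S - max m 0 ≤ S - m).trans (le_max_left _ _)
    rw [h2]
    linarith

theorem sCake : S_Cake := by
  intro X _ μ _ m g a S V M hm hg hmg hM ha hS hV
  have ha0 : 0 ≤ a := by linarith
  -- the integrand
  have hF0 : ∀ x, 0 ≤ max (S - m x) 0 ^ a - max (S - g x) 0 ^ a := by
    intro x
    have h1 : max (S - g x) 0 ≤ max (S - m x) 0 :=
      max_le_max (by linarith [hmg x]) le_rfl
    have h2 := Real.rpow_le_rpow (le_max_right (S - g x) 0) h1 ha0
    linarith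
  have hmeas : ∀ f : X → ℝ, Measurable f → Measurable fun x => max (S - f x) 0 ^ a := by
    intro f hf
    have h1 : Continuous fun y : ℝ => max (S - y) 0 ^ a :=
      ((continuous_const.sub continuous_id).max continuous_const).rpow_const
        fun t => Or.inr ha0
    exact h1.measurable.comp hf
  have hFm : Measurable fun x => max (S - m x) 0 ^ a - max (S - g x) 0 ^ a :=
    (hmeas m hm).sub (hmeas g hg)
  have hFi : Integrable (fun x => max (S - m x) 0 ^ a - max (S - g x) 0 ^ a) μ := by
    refine Integrable.of_bound hFm.aestronglyMeasurable (max M 0 ^ a)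
      (Filter.Eventually.of_forall fun x => ?_)
    rw [Real.norm_eq_abs, abs_of_nonneg (hF0 x)]
    have h1 : max (S - m x) 0 ^ a ≤ max M 0 ^ a :=
      Real.rpow_le_rpow (le_max_right _ _) (max_le_max (hM x) le_rfl) ha0
    have h2 : 0 ≤ max (S - g x) 0 ^ a := Real.rpow_nonneg (le_max_right _ _) a
    linarith
  have hI0 : 0 ≤ ∫ x, (max (S - m x) 0 ^ a - max (S - g x) 0 ^ a) ∂μ :=
    integral_nonneg hF0
  have hSa : 0 ≤ S ^ a := Real.rpow_nonneg hS.le a
  rcases le_or_gt V 0 with hV0 | hV0
  · exact (mul_nonpos_of_nonpos_of_nonneg hV0 hSa).trans hI0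
  -- the kernel
  set φ : ℝ → ENNReal := fun t => ENNReal.ofReal (a * (S - t) ^ (a - 1)) with hφ
  have hφm : Measurable φ := (Cake_cont a S ha).measurable.ennreal_ofReal
  set A : Set (X × ℝ) := {p | m p.1 ≤ p.2 ∧ p.2 < g p.1} with hA
  have hAm : MeasurableSet A := by
    refine (measurableSet_le (hm.comp measurable_fst) measurable_snd).inter ?_
    exact measurableSet_lt measurable_snd (hg.comp measurable_fst)
  have hKm : Measurable (A.indicator fun p : X × ℝ => φ p.2) :=
    (hφm.comp measurable_snd).indicator hAm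
  have hswap := lintegral_lintegral_swap (μ := μ) (ν := volume.restrict (Ioo (0 : ℝ) S))
    (f := fun x t => A.indicator (fun p : X × ℝ => φ p.2) (x, t)) hKm.aemeasurable
  have hup : ∫⁻ x, (∫⁻ t in Ioo (0 : ℝ) S, A.indicator (fun p : X × ℝ => φ p.2) (x, t)) ∂μ ≤
      ENNReal.ofReal (∫ x, (max (S - m x) 0 ^ a - max (S - g x) 0 ^ a) ∂μ) := by
    rw [ofReal_integral_eq_lintegral_ofReal hFi (Filter.Eventually.of_forall hF0)]
    refine lintegral_mono fun x => ?_
    refine le_trans (le_of_eq ?_) (Cake_ptw a S (m x) (g x) ha)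
    refine lintegral_congr fun t => ?_
    by_cases h : t ∈ Ico (m x) (g x)
    · have h' : (x, t) ∈ A := h
      rw [indicator_of_mem h, indicator_of_mem h']
    · have h' : (x, t) ∉ A := h
      rw [indicator_of_notMem h, indicator_of_notMem h']
  have hlow : ENNReal.ofReal (V * S ^ a) ≤
      ∫⁻ t in Ioo (0 : ℝ) S, ∫⁻ x, A.indicator (fun p : X × ℝ => φ p.2) (x, t) ∂μ := by
    have h1 : ∫⁻ t in Ioo (0 : ℝ) S, φ t * ENNReal.ofReal V ≤
        ∫⁻ t in Ioo (0 : ℝ) S, ∫⁻ x, A.indicator (fun p : X × ℝ => φ p.2) (x, t) ∂μ := by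
      refine setLIntegral_mono' measurableSet_Ioo fun t ht => ?_
      have h2 : ∫⁻ x, A.indicator (fun p : X × ℝ => φ p.2) (x, t) ∂μ =
          φ t * μ {x | m x ≤ t ∧ t < g x} := by
        have hBm : MeasurableSet {x | m x ≤ t ∧ t < g x} :=
          (measurableSet_le hm measurable_const).inter (measurableSet_lt measurable_const hg)
        rw [← lintegral_indicator_const hBm]
        refine lintegral_congr fun x => ?_
        by_cases h : x ∈ {x | m x ≤ t ∧ t < g x}
        · have h' : (x, t) ∈ A := h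
          rw [indicator_of_mem h, indicator_of_mem h']
        · have h' : (x, t) ∉ A := h
          rw [indicator_of_notMem h, indicator_of_notMem h']
      rw [h2]
      refine mul_le_mul_right ?_ (φ t)
      rw [← ofReal_measureReal (measure_ne_top μ _)]
      exact ENNReal.ofReal_le_ofReal (hV t ht.1.le ht.2)
    refine le_trans (le_of_eq ?_) h1
    rw [lintegral_mul_const _ hφm]
    have h3 : ∫⁻ t in Ioo (0 : ℝ) S, φ t = ENNReal.ofReal (S ^ a) := by
      have h4 := Cake_lint a S 0 S ha hS.le le_rfl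
      have h5 : (S - 0) ^ a - (S - S) ^ a = S ^ a := by
        rw [sub_self, sub_zero, Real.zero_rpow (by linarith), sub_zero]
      rw [h5] at h4
      rw [← h4]
      exact setLIntegral_congr Ioo_ae_eq_Icc
    rw [h3, ENNReal.ofReal_mul hV0.le, mul_comm]
  have hfin := hlow.trans (hswap.symm.le.trans hup)
  exact (ENNReal.ofReal_le_ofReal_iff hI0).mp hfin

end Pool.Agent.Lib.MP_0c1c75_co.KPI
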