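import Pool.Agent.Lib.MP_0c1c75_co.KPI.SpecB

/-!
# MP_0c1c75_co, project KPI: choice of the constants
-/

set_option autoImplicit false

open MeasureTheory Set Metric

namespace Pool.Agent.Lib.MP_0c1c75_co.KPI

theorem sCst : S_Cst := by
  intro c ε hc hc1 hε
  have hc2 : c ^ 2 < 1 := by nlinarith
  have hc0 : 0 < c ^ 2 := by positivity
  obtain ⟨g, hg⟩ : ∃ g : ℝ, g = (1 - c ^ 2) / 2 := ⟨_, rfl⟩
  have hg0 : 0 < g := by rw [hg]; linarith
  have hg1 : g < 1 / 2 := by rw [hg]; linarith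
  obtain ⟨τ, hτ⟩ : ∃ τ : ℝ, τ = g * ε / (2 + ε) := ⟨_, rfl⟩
  have h2 : 0 < 2 + ε := by linarith
  have hτ0 : 0 < τ := by rw [hτ]; positivity
  have hτe : τ * (2 + ε) = g * ε := by rw [hτ]; field_simp
  have hτg : τ < g := by nlinarith
  obtain ⟨m, hm⟩ := exists_nat_gt (max (2 / τ) (1 / (τ / 2 * ε)))
  have hm1 : 2 / τ < m := lt_of_le_of_lt (le_max_left _ _) hm
  have hm2 : 1 / (τ / 2 * ε) < m := lt_of_le_of_lt (le_max_right _ _) hm
  have hm0 : (0 : ℝ) < m := lt_trans (by positivity) hm1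
  have hρ : 1 < Real.exp ε := Real.one_lt_exp_iff.2 hε
  obtain ⟨n, hn⟩ := pow_unbounded_of_one_lt (1 / (τ / 2 * ε)) hρ
  have hn0 : 0 < Real.exp ε ^ n := by positivity
  refine ⟨1 - g, τ, τ / 2, Real.exp ε, m, n, by rw [hg]; linarith, by linarith, hτ0, by linarith,
    by linarith, hρ, by exact_mod_cast hm0, ?_, ?_, by rw [Real.log_exp], ?_, ?_⟩
  · have h3 : 1 / (m : ℝ) ≤ τ / 2 := by
      rw [div_le_div_iff₀ hm0 (by norm_num)]
      rw [div_lt_iff₀ hτ0] at hm1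
      linarith
    linarith
  · have h3 : (1 + τ - (1 - g)) / (1 - τ - (1 - g)) = 1 + ε := by
      rw [div_eq_iff (by linarith)]
      nlinarith
    rw [h3]
    linarith [Real.add_one_le_exp ε]
  · rw [div_lt_iff₀ (by positivity)] at hm2
    rw [div_le_iff₀ (by positivity)]
    linarith
  · rw [div_lt_iff₀ (by positivity)] at hn
    rw [div_le_iff₀ (by positivity)]
    linarith

end Pool.Agent.Lib.MP_0c1c75_co.KPI
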