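import Pool.Agent.Lib.MP_0c1c75_co.Spec

/-!
# MP_0c1c75_co, project KPI (Kneser-Poulsen for `c`-contractions, every `c < 1`, high dimension)

Definitions for the interpolation theorem (part A, notes 3812, 3816).
-/

set_option autoImplicit false

open MeasureTheory Set Metric

namespace Pool.Agent.Lib.MP_0c1c75_co.KPI

/-! ### Unions of half spaces and concentric balls -/

/-- The ball `‖x‖² ≤ z`. -/
def Bz (d : ℕ) (z : ℝ) : Set (E d) := {x | ‖x‖ ^ 2 ≤ z}

/-- The union of the half spaces `⟨n, x⟩ > 1`, `n ∈ J`. -/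
def Un {d : ℕ} (J : Finset (E d)) : Set (E d) := {x | ∃ n ∈ J, 1 < inner ℝ n x}

/-- Volume of the part of `C` in the ball `‖x‖² ≤ z`. -/
noncomputable def lv {d : ℕ} (z : ℝ) (C : Set (E d)) : ℝ := volume.real (C ∩ Bz d z)

/-- The coverage function at the level `z`. -/
noncomputable def fv {d : ℕ} (z : ℝ) (J : Finset (E d)) : ℝ := lv z (Un J)

/-- The cell of `n` for the weights `α`. -/
def Cell {d : ℕ} (J : Finset (E d)) (α : E d → ℝ) (n : E d) : Set (E d) :=
  {x | 0 ≤ inner ℝ n x - 1 ∧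
    ∀ m ∈ J, α m * (inner ℝ m x - 1) ≤ α n * (inner ℝ n x - 1)}

open Classical in
/-- The weights `exp (lam n)` (`1` outside of `J`). -/
noncomputable def ext {d : ℕ} (J : Finset (E d)) (lam : J → ℝ) (n : E d) : ℝ :=
  if h : n ∈ J then Real.exp (lam ⟨n, h⟩) else 1

/-! ### Families of sets in a finite measure space -/

variable {X ι : Type} [MeasurableSpace X]

/-- The union of the sets `H i`, `i ∈ J`. -/
def Uh (H : ι → Set X) (J : Finset ι) : Set X := {x | ∃ i ∈ J, x ∈ H i}

open Classical in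
/-- The multiplicity: the number of `i ∈ J` with `x ∈ H i`. -/
noncomputable def mlt (H : ι → Set X) (J : Finset ι) (x : X) : ℕ :=
  (J.filter fun i => x ∈ H i).card

open Classical in
/-- The indices of `J` which are bad at all scales `s < T`. -/
noncomputable def bad (μ : Measure X) (H : ι → Set X) (T : ℕ) (J : Finset ι) : Finset ι :=
  J.filter fun i => ∀ s < T,
    μ.real (H i ∩ {x | mlt H J x < 2 ^ (s + 1)}) < 2 ^ s / (8 * T)

/-- The points whose multiplicity drops to less than one half when the good indices are removed. -/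
noncomputable def Vs (μ : Measure X) (H : ι → Set X) (T : ℕ) (J : Finset ι) : Set X :=
  {x | x ∈ Uh H J ∧ 2 * mlt H (bad μ H T J) x < mlt H J x}

/-- A subfamily `A` with a Hall condition for `ν` and a spread condition for `μ`. -/
def IsSel (μ ν : Measure X) (H : ι → Set X) (D : Finset ι) (P : ℝ) : Prop :=
  ∃ A ⊆ D, A.Nonempty ∧ ∃ w : ℝ, 0 < w ∧ ∃ Y : Set X, MeasurableSet Y ∧
    (∀ J ⊆ A, (J.card : ℝ) * w ≤ ν.real (Uh H J)) ∧
    (A.card : ℝ) * w ≤ μ.real (Uh H A ∩ Y) ∧
    (∀ i ∈ A, μ.real (H i ∩ Y) ≤ P * w) ∧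
    (D.card : ℝ) ≤ P * (A.card * w)

end Pool.Agent.Lib.MP_0c1c75_co.KPI
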