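import Pool.Agent.Lib.MP_0c1c75_co.KPI.SpecF

/-!
# MP_0c1c75_co, project KPI: elementary facts on the adjoined family
-/

set_option autoImplicit false

open MeasureTheory Set Metric

namespace Pool.Agent.Lib.MP_0c1c75_co.KPI

section

variable {d N : ℕ} (p : Fin N → E d) (r : Fin N → ℝ) (T : Finset (Fin N))

private theorem FMs_p0 : ph p T 0 = 0 := by
  unfold ph
  exact Fin.cons_zero _ _

private theorem FMs_pT {i : Fin N} (hi : i ∈ T) : ph p T i.succ = p i := by
  unfold ph
  rw [Fin.cons_succ, if_pos hi]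

private theorem FMs_pN {i : Fin N} (hi : i ∉ T) : ph p T i.succ = 0 := by
  unfold ph
  rw [Fin.cons_succ, if_neg hi]

private theorem FMs_b0 : bh r T 0 = 0 := by
  unfold bh
  exact Fin.cons_zero _ _

private theorem FMs_bT {i : Fin N} (hi : i ∈ T) : bh r T i.succ = r i - 1 := by
  unfold bh
  rw [Fin.cons_succ, if_pos hi]

private theorem FMs_bN {i : Fin N} (hi : i ∉ T) : bh r T i.succ = 0 := by
  unfold bh
  rw [Fin.cons_succ, if_neg hi]

private theorem FMs_le (ρ : ℝ) (u : E d) (i : Fin (N + 1)) :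
    -(ρ * inner ℝ (ph p T i) u) - bh r T i ≤ Ar.ms ρ (ph p T) (bh r T) u :=
  le_ciSup (f := fun i => -(ρ * inner ℝ (ph p T i) u) - bh r T i)
    (Set.finite_range _).bddAbove i

end

theorem kFMs : S_FMs := by
  intro d N p r T hr
  refine ⟨fun ρ u => ?_, fun ρ u i hi => ?_, fun ρ u C hC h => ?_, fun i => ?_,
    fun q hq hn => ?_, fun c => ?_, fun P hP h i => ?_⟩
  · have h := FMs_le p r T ρ u 0
    rw [FMs_p0, FMs_b0, inner_zero_left, mul_zero, neg_zero, sub_zero] at h
    exact h
  · have h := FMs_le p r T ρ u i.succ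
    rw [FMs_pT p T hi, FMs_bT r T hi] at h
    exact h
  · unfold Ar.ms
    refine ciSup_le fun i => ?_
    refine Fin.cases ?_ (fun i => ?_) i
    · rw [FMs_p0, FMs_b0, inner_zero_left, mul_zero, neg_zero, sub_zero]
      exact hC
    · by_cases hi : i ∈ T
      · rw [FMs_pT p T hi, FMs_bT r T hi]
        exact h i hi
      · rw [FMs_pN p T hi, FMs_bN r T hi, inner_zero_left, mul_zero, neg_zero, sub_zero]
        exact hC
  · refine Fin.cases ?_ (fun i => ?_) i
    · rw [FMs_b0]
    · by_cases hi : i ∈ T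
      · rw [FMs_bT r T hi]
        linarith [hr i hi]
      · rw [FMs_bN r T hi]
  · intro i j
    have hq' : ∀ i j, dist (q i) (q j) ≤ dist (p i) (p j) := fun i j => by
      have := hq i j
      rwa [one_mul] at this
    rw [one_mul]
    refine Fin.cases ?_ (fun i => ?_) i
    · refine Fin.cases ?_ (fun j => ?_) j
      · rw [FMs_p0, FMs_p0]
      · by_cases hj : j ∈ T
        · rw [FMs_p0, FMs_p0, FMs_pT q T hj, FMs_pT p T hj, dist_zero_left, dist_zero_left]
          exact hn j
        · rw [FMs_p0, FMs_p0, FMs_pN q T hj, FMs_pN p T hj]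
    · refine Fin.cases ?_ (fun j => ?_) j
      · by_cases hi : i ∈ T
        · rw [FMs_p0, FMs_p0, FMs_pT q T hi, FMs_pT p T hi, dist_zero_right, dist_zero_right]
          exact hn i
        · rw [FMs_p0, FMs_p0, FMs_pN q T hi, FMs_pN p T hi]
      · by_cases hi : i ∈ T
        · by_cases hj : j ∈ T
          · rw [FMs_pT q T hi, FMs_pT p T hi, FMs_pT q T hj, FMs_pT p T hj]
            exact hq' i j
          · rw [FMs_pT q T hi, FMs_pT p T hi, FMs_pN q T hj, FMs_pN p T hj, dist_zero_right,
              dist_zero_right]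
            exact hn i
        · by_cases hj : j ∈ T
          · rw [FMs_pN q T hi, FMs_pN p T hi, FMs_pT q T hj, FMs_pT p T hj, dist_zero_left,
              dist_zero_left]
            exact hn j
          · rw [FMs_pN q T hi, FMs_pN p T hi, FMs_pN q T hj, FMs_pN p T hj]
  · funext i
    refine Fin.cases ?_ (fun i => ?_) i
    · rw [FMs_p0, FMs_p0, smul_zero]
    · by_cases hi : i ∈ T
      · rw [FMs_pT _ T hi, FMs_pT _ T hi]
      · rw [FMs_pN _ T hi, FMs_pN _ T hi, smul_zero]
  · refine Fin.cases ?_ (fun i => ?_) i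
    · rw [FMs_p0, norm_zero]
      exact hP
    · by_cases hi : i ∈ T
      · rw [FMs_pT p T hi]
        exact h i hi
      · rw [FMs_pN p T hi, norm_zero]
        exact hP

end Pool.Agent.Lib.MP_0c1c75_co.KPI
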