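import Pool.Agent.Lib.MP_0c1c75_co.KPI.SpecG

/-!
# MP_0c1c75_co, KPI: cones in balls (`S_GCon`)
-/

set_option autoImplicit false

open MeasureTheory Set Metric
open scoped Pointwise

namespace Pool.Agent.Lib.MP_0c1c75_co.KPI

private theorem GCon_compact {d N : ℕ} (q : Fin N → E d) (r : Fin N → ℝ) (J : Finset (Fin N))
    (δ : ℝ) : IsCompact (Vc q r J δ) := by
  have h1 : Vc q r J δ = closedBall (0 : E d) 1 ∩
      ⋃ i ∈ J, {x : E d | (kap (q i) (r i) - δ) * ‖q i‖ ≤ -inner ℝ (q i) x} := by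
    ext x
    simp only [Vc, mem_ofPred_eq, mem_inter_iff, mem_closedBall_zero_iff, mem_iUnion, exists_prop]
  rw [h1]
  refine (isCompact_closedBall _ _).inter_right ?_
  refine isClosed_biUnion_finset ?_
  intro i _
  exact isClosed_le continuous_const (by fun_prop)

private theorem GCon_meas {d N : ℕ} (q : Fin N → E d) (r : Fin N → ℝ) (J : Finset (Fin N))
    (δ : ℝ) : MeasurableSet (Dr q r J δ) := by
  have h1 : Dr q r J δ = closedBall (0 : E d) 1 ∩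
      ⋃ i ∈ J, {x : E d | (kap (q i) (r i) + δ) * (‖q i‖ * ‖x‖) < -inner ℝ (q i) x} := by
    ext x
    simp only [Dr, mem_ofPred_eq, mem_inter_iff, mem_closedBall_zero_iff, mem_iUnion, exists_prop]
  rw [h1]
  refine measurableSet_closedBall.inter ?_
  refine Finset.measurableSet_biUnion _ ?_
  intro i _
  exact (isOpen_lt (by fun_prop) (by fun_prop)).measurableSet

private theorem GCon_smul {d N : ℕ} (q : Fin N → E d) (r : Fin N → ℝ) (J : Finset (Fin N))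
    (δ ρ : ℝ) (h0 : 0 < ρ) (h1 : ρ ≤ 1) :
    Dr q r J δ ∩ {x | ‖x‖ ≤ ρ} = ρ • Dr q r J δ := by
  ext x
  rw [mem_smul_set_iff_inv_smul_mem₀ h0.ne']
  simp only [Dr, mem_ofPred_eq, mem_inter_iff, norm_smul, norm_inv, Real.norm_eq_abs,
    abs_of_pos h0, inner_smul_right]
  have hn : ρ⁻¹ * ‖x‖ ≤ 1 ↔ ‖x‖ ≤ ρ := by
    rw [inv_mul_le_iff₀ h0, mul_one]
  have hi : ∀ i, (kap (q i) (r i) + δ) * (‖q i‖ * (ρ⁻¹ * ‖x‖)) < -(ρ⁻¹ * inner ℝ (q i) x) ↔
      (kap (q i) (r i) + δ) * (‖q i‖ * ‖x‖) < -inner ℝ (q i) x := by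
    intro i
    have e1 : (kap (q i) (r i) + δ) * (‖q i‖ * (ρ⁻¹ * ‖x‖)) =
        ρ⁻¹ * ((kap (q i) (r i) + δ) * (‖q i‖ * ‖x‖)) := by ring
    have e2 : -(ρ⁻¹ * inner ℝ (q i) x) = ρ⁻¹ * (-inner ℝ (q i) x) := by ring
    rw [e1, e2]
    exact mul_lt_mul_iff_right₀ (inv_pos.mpr h0)
  simp only [hn, hi]
  constructor
  · rintro ⟨⟨_, h3⟩, h4⟩
    exact ⟨h4, h3⟩
  · rintro ⟨h3, h4⟩
    exact ⟨⟨h3.trans h1, h4⟩, h3⟩

/-- **Cones in balls.** -/
theorem sGCon : S_GCon := by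
  intro d N q r J δ
  refine ⟨GCon_compact q r J δ, GCon_meas q r J δ, ?_⟩
  intro ρ h0 h1
  have hfin : volume (Dr q r J δ) ≠ ⊤ := by
    refine ne_top_of_le_ne_top (measure_closedBall_lt_top (x := (0 : E d)) (r := 1)).ne
      (measure_mono ?_)
    intro x hx
    exact mem_closedBall_zero_iff.mpr hx.1
  have hm : MeasurableSet {x : E d | ‖x‖ ≤ ρ} :=
    (isClosed_le (by fun_prop) continuous_const).measurableSet
  have h2 := measureReal_inter_add_sdiff (μ := (volume : Measure (E d))) (s := Dr q r J δ) hm hfin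
  have h3 : Dr q r J δ \ {x : E d | ‖x‖ ≤ ρ} = Dr q r J δ ∩ {x | ρ < ‖x‖} := by
    ext x
    simp only [mem_sdiff, mem_ofPred_eq, mem_inter_iff, not_le]
  rw [h3, GCon_smul q r J δ ρ h0 h1] at h2
  have h4 : volume.real (ρ • Dr q r J δ) = ρ ^ d * volume.real (Dr q r J δ) := by
    rw [measureReal_def, Measure.addHaar_smul, ENNReal.toReal_mul, measureReal_def,
      ENNReal.toReal_ofReal (abs_nonneg _), abs_of_pos (by positivity)]
    congr 2
    simp [E]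
  rw [h4] at h2
  linarith

end Pool.Agent.Lib.MP_0c1c75_co.KPI
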