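import Pool.Agent.Lib.MP_0c1c75_co.KPI.Defs

/-!
# MP_0c1c75_co, project KPI: definitions for configurations of balls and the main interface statements

Main statements (each is the goal of a part): `S_Reg` (regime, step 0 of note 3812), `S_Star` (step 1),
`S_Cls` (step 4), `S_Gain` (step 5 with the net), `S_Fat` (step 6, fat classes), `S_LowG`, `S_Cap`, `S_Asm`.
-/

set_option autoImplicit false

open MeasureTheory Set Metric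

namespace Pool.Agent.Lib.MP_0c1c75_co.KPI

/-- Volume of the unit ball. -/
noncomputable def om (d : ℕ) : ℝ := volume.real (closedBall (0 : E d) 1)

/-- The volume removed by the balls of the family `J` from the ball `‖x‖² ≤ 1 + t`, at the level `t`
(`t = 0`: volume of the part of the unit ball outside of the intersection of the balls). -/
noncomputable def Gt {d N : ℕ} (p : Fin N → E d) (r : Fin N → ℝ) (J : Finset (Fin N)) (t : ℝ) : ℝ :=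
  volume.real {x : E d | ‖x‖ ^ 2 ≤ 1 + t ∧ ∃ i ∈ J, r i ^ 2 + t < ‖x - p i‖ ^ 2}

/-- Height: the ball with centre `x` and radius `r` removes the cap `⟨u, -x/‖x‖⟩ > kap x r` from the
unit sphere. -/
noncomputable def kap {d : ℕ} (x : E d) (r : ℝ) : ℝ := (r ^ 2 - 1 - ‖x‖ ^ 2) / (2 * ‖x‖)

/-- The half space `⟨nv x r, y⟩ > 1` is `⟨y, -x/‖x‖⟩ > kap x r` (if `0 < kap x r`);
`‖nv x r‖ = 1 / kap x r`. -/
noncomputable def nv {d : ℕ} (x : E d) (r : ℝ) : E d := (-(2 / (r ^ 2 - 1 - ‖x‖ ^ 2))) • x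

open Classical in
/-- The normal vectors of a family. -/
noncomputable def Nv {d N : ℕ} (p : Fin N → E d) (r : Fin N → ℝ) (J : Finset (Fin N)) :
    Finset (E d) := J.image fun i => nv (p i) (r i)

/-- The points of the unit ball whose direction is in the cap of height `kap + δ` for some
`i ∈ J` (a cone intersected with the unit ball). -/
def Dr {d N : ℕ} (p : Fin N → E d) (r : Fin N → ℝ) (J : Finset (Fin N)) (δ : ℝ) : Set (E d) :=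
  {x | ‖x‖ ≤ 1 ∧ ∃ i ∈ J, (kap (p i) (r i) + δ) * (‖p i‖ * ‖x‖) < -inner ℝ (p i) x}

/-- Size class `e` (`e = 1`: all sizes above `1`). -/
def InC (e x : ℝ) : Prop := e < x ∧ (x ≤ 2 * e ∨ e = 1)

/-- Normalised configuration. -/
structure Cfg {d N : ℕ} (c : ℝ) (p q : Fin N → E d) (r : Fin N → ℝ) (i0 : Fin N) : Prop where
  p0 : p i0 = 0
  q0 : q i0 = 0
  r0 : r i0 = 1
  r1 : ∀ i, 1 ≤ r i
  con : Contr c p q

/-- The inequality for normalised configurations with exponentially small loss. -/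
def Main (c c2 : ℝ) : Prop := ∃ d1 : ℕ, ∀ d ≥ d1, ∀ (N : ℕ) (p q : Fin N → E d) (r : Fin N → ℝ)
  (i0 : Fin N), Cfg c p q r i0 → Gt p r Finset.univ 0 ≤ Real.exp (-(c2 * d)) * om d →
  Gt q r Finset.univ 0 ≤ Gt p r Finset.univ 0

/-- The Kneser-Poulsen inequality for intersections, `c`-contractions, high dimension. -/
def KPfor (c : ℝ) : Prop := ∃ d0 : ℕ, ∀ d ≥ d0, ∀ (N : ℕ) (p q : Fin N → E d) (r : Fin N → ℝ),
  (∀ i, 0 < r i) → Contr c p q →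
  volume (⋂ i, closedBall (p i) (r i)) ≤ volume (⋂ i, closedBall (q i) (r i))

/-- Regime reduction (note 3664, step 0 of note 3812). -/
def S_Reg : Prop := ∀ c : ℝ, 0 < c → c < 1 → ∃ c2 : ℝ, 0 < c2 ∧ (Main c c2 → KPfor c)

/-- (STAR), step 1 of note 3812, for `1`-contractions `q` of `p` with the origin adjoined. -/
def S_Star : Prop := ∀ (d N : ℕ) (p q : Fin N → E d) (r : Fin N → ℝ) (J : Finset (Fin N)),
  8 ≤ d → Contr 1 p q → (∀ i, ‖q i‖ ≤ ‖p i‖) → (∀ i, 0 ≤ r i) →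
  (∀ i ∈ J, 0 < ‖p i‖ ∧ 0 < kap (p i) (r i)) → ∀ S : ℝ, 0 < S →
  Gt q r J 0 ≤ ∫ x in Un (Nv p r J) ∩ Bz d (1 + S),
    ((1 + S - ‖x‖ ^ 2) / S) ^ ((d : ℝ) / 2 - 1) ∧
  ∀ e : ℝ, 0 < e → (∀ i ∈ J, ‖p i‖ ≤ 2 * e) →
    Gt q r J 0 ≤ 2 * d * e * Real.sqrt (1 + S) / S * ∫ x in Un (Nv p r J) ∩ Bz d (1 + S),
      ((1 + S - ‖x‖ ^ 2) / S) ^ ((d : ℝ) / 2 - 2)

/-- Class theorem (step 4). -/
def S_Cls : Prop := ∀ κ0 c ε K : ℝ, 0 < κ0 → 0 < c → c < 1 → 0 < ε → 0 < K →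
  ∃ η3 : ℝ, 0 < η3 ∧ η3 < 1 ∧ ∃ d1 : ℕ, ∀ d ≥ d1, ∀ (N : ℕ) (p q : Fin N → E d) (r : Fin N → ℝ)
    (I : Finset (Fin N)) (e : ℝ), Contr 1 p q → (∀ i, ‖q i‖ ≤ ‖p i‖) → (∀ i, 0 ≤ r i) →
    (∀ i ∈ I, κ0 ≤ kap (p i) (r i) ∧ kap (p i) (r i) ≤ c) → (I.card : ℝ) ≤ Real.exp (K * d) →
    0 < e → e ≤ 1 → (∀ i ∈ I, InC e ‖p i‖) →
    Gt q r I 0 ≤ Real.exp (ε * d) * (e * fv (1 - η3) (Nv p r I))

/-- Gain with the net (step 5). Here `q1` is a `b`-contraction of `p` (with the origin), `q = b q1`; only the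
indices with `r i < 1 + b ‖q1 i‖` are relevant for `q`. -/
def S_Gain : Prop := ∀ b κ0 η : ℝ, 0 < b → b < 1 → 0 < κ0 → 0 < η →
  ∃ γ C K : ℝ, 0 < γ ∧ 0 < C ∧ 0 < K ∧ ∃ d1 : ℕ, ∀ d ≥ d1, ∀ (N : ℕ) (p q1 : Fin N → E d)
    (r : Fin N → ℝ) (J : Finset (Fin N)) (e : ℝ), (∀ i, ‖q1 i‖ ≤ b * ‖p i‖) → (∀ i, 1 ≤ r i) →
    (∀ i ∈ J, κ0 ≤ kap (p i) (r i) ∧ r i < 1 + b * ‖q1 i‖) → 0 < e → e ≤ 1 →
    (∀ i ∈ J, InC e ‖p i‖) →
    ∃ I ⊆ J, (I.card : ℝ) ≤ Real.exp (K * d) ∧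
      (Gt q1 r I 0 ≤ Real.exp (-(η * d)) * (e * om d) →
        Gt (fun i => b • q1 i) r J 0 ≤ C * d * Real.exp (-(γ * d)) * Gt q1 r I 0)

/-- Fat classes of tiny balls (step 6): `P` is an upper bound for the sizes, and the caps of the indices of size at
least `P / 2`, with height increased by `δ`, cover a proportion `e^(-η d)` of the directions. -/
def S_Fat : Prop := ∀ b : ℝ, 0 < b → b < 1 → ∃ ηF : ℝ, 0 < ηF ∧ ∀ η c3 δ : ℝ, 0 < η → η ≤ ηF →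
  2 * η ≤ c3 → 0 < δ → ∃ d1 : ℕ, ∀ d ≥ d1, ∀ (N : ℕ) (p q1 : Fin N → E d) (r : Fin N → ℝ)
    (T T' : Finset (Fin N)) (P : ℝ), Contr 1 p q1 → (∀ i, ‖q1 i‖ ≤ ‖p i‖) → (∀ i, 1 ≤ r i) →
    T' ⊆ T → 0 < P → P ≤ Real.exp (-(c3 * d)) → (∀ i ∈ T, ‖p i‖ ≤ P) →
    (∀ i ∈ T', P / 2 ≤ ‖p i‖) → Real.exp (-(η * d)) * om d ≤ volume.real (Dr p r T' δ) →
    Gt (fun i => b • q1 i) r T 0 ≤ (1 + b) / 2 * Gt p r T 0

/-- Lower and upper bounds of the removed volume.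
(1) If `x ∈ Un (Nv p r J)`, `‖x‖² ≤ 1 - η`, then the direction of `x` is in the cap of height `kap + kap η / 2`.
(2) The ball `i` removes all points `ρ u` with `1 - δ e / 2 < ρ ≤ 1` if `⟨u, -p i/‖p i‖⟩ > kap + δ`:
`ρ θ - kap ≥ δ - (1 - ρ)` (`θ ≤ 1`, also for `θ < 0`) and `(1 - ρ²)/(2 t) ≤ (1 - ρ)/t`, `t = ‖p i‖`, `t/(1 + t) ≥ e/2`.
So the removed set contains `Dr \ (1 - δ e/2) • Dr`.
(3) `‖x - q i‖ > r i ≥ 1` implies `‖x‖ > 1 - s`.  (4) Subadditivity and monotonicity. -/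
def S_LowG : Prop := ∀ (d N : ℕ) (p : Fin N → E d) (r : Fin N → ℝ) (J : Finset (Fin N)), 0 < d →
  (∀ κ0 η : ℝ, 0 < κ0 → 0 < η → η < 1 → (∀ i ∈ J, κ0 ≤ kap (p i) (r i)) →
    fv (1 - η) (Nv p r J) ≤ volume.real (Dr p r J (κ0 * η / 2))) ∧
  (∀ δ e : ℝ, 0 < δ → δ ≤ 1 → 0 < e → e ≤ 1 → (∀ i ∈ J, e < ‖p i‖) →
    δ * e / 2 * volume.real (Dr p r J δ) ≤ Gt p r J 0) ∧
  (∀ s : ℝ, 0 ≤ s → (∀ i ∈ J, ‖p i‖ ≤ s ∧ 1 ≤ r i) → Gt p r J 0 ≤ d * s * om d) ∧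
  (∀ J' : Finset (Fin N), Gt p r (J ∪ J') 0 ≤ Gt p r J 0 + Gt p r J' 0) ∧
  ∀ J' ⊆ J, Gt p r J' 0 ≤ Gt p r J 0

/-- Caps are not too small: the proportion of the directions with `⟨u, v⟩ > h` is at least `e^(-η d)`. -/
def S_Cap : Prop := ∀ h η : ℝ, 0 ≤ h → h < 1 → -(Real.log (1 - h ^ 2)) / 2 < η →
  ∃ d1 : ℕ, ∀ d ≥ d1, ∀ v : E d, ‖v‖ = 1 →
    Real.exp (-(η * d)) * om d ≤ volume.real {x : E d | ‖x‖ ≤ 1 ∧ h * ‖x‖ < inner ℝ v x}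

/-- Assembly (step 6). Uses `S_Cls`, `S_Gain`, `S_Fat`, `S_LowG`, `S_Cap`. -/
def S_Asm : Prop := ∀ c c2 : ℝ, 0 < c → c < 1 → 0 < c2 → Main c c2

end Pool.Agent.Lib.MP_0c1c75_co.KPI
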