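import Pool.Agent.Lib.MP_0c1c75_co.KPI.SpecH

/-!
# MP_0c1c75_co, project KPI: irrelevant balls
-/

set_option autoImplicit false

open MeasureTheory Set Metric

namespace Pool.Agent.Lib.MP_0c1c75_co.KPI

theorem sIrr : S_Irr := by
  classical
  refine ⟨?_, ?_⟩
  · intro d N q r hr
    unfold Gt
    have hsub : {x : E d | ‖x‖ ^ 2 ≤ 1 + 0 ∧ ∃ i ∈ Finset.univ, r i ^ 2 + 0 < ‖x - q i‖ ^ 2} ⊆
        {x : E d | ‖x‖ ^ 2 ≤ 1 + 0 ∧ ∃ i ∈ Rel q r, r i ^ 2 + 0 < ‖x - q i‖ ^ 2} := by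
      rintro x ⟨hx, i, -, hi⟩
      refine ⟨hx, i, ?_, hi⟩
      unfold Rel
      rw [Finset.mem_filter]
      refine ⟨Finset.mem_univ _, ?_⟩
      rw [add_zero] at hx hi
      have h1 : ‖x‖ ≤ 1 := by
        have := (sq_le_one_iff_abs_le_one _).1 hx
        rwa [abs_of_nonneg (norm_nonneg _)] at this
      have h2 : r i < ‖x - q i‖ := lt_of_pow_lt_pow_left₀ 2 (norm_nonneg _) hi
      have h3 : ‖x - q i‖ ≤ ‖x‖ + ‖q i‖ := norm_sub_le _ _
      linarith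
    have hfin : volume {x : E d | ‖x‖ ^ 2 ≤ 1 + 0 ∧ ∃ i ∈ Rel q r, r i ^ 2 + 0 < ‖x - q i‖ ^ 2} ≠ ⊤ := by
      have hsub2 : {x : E d | ‖x‖ ^ 2 ≤ 1 + 0 ∧ ∃ i ∈ Rel q r, r i ^ 2 + 0 < ‖x - q i‖ ^ 2} ⊆
          closedBall (0 : E d) 1 := by
        rintro x ⟨hx, -⟩
        rw [add_zero] at hx
        rw [mem_closedBall_zero_iff]
        have := (sq_le_one_iff_abs_le_one _).1 hx
        rwa [abs_of_nonneg (norm_nonneg _)] at this
      exact ne_top_of_le_ne_top measure_closedBall_lt_top.ne (measure_mono hsub2)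
    exact measureReal_mono hsub hfin
  · intro d b r p q1 hb hb1 hq hr hr2
    have h1 : 0 < b * ‖q1‖ := by linarith
    have h2 : b * ‖q1‖ ≤ b * (b * ‖p‖) := mul_le_mul_of_nonneg_left hq hb.le
    have h3 : 0 < ‖p‖ := by
      by_contra hn
      have h4 : ‖p‖ = 0 := le_antisymm (not_lt.1 hn) (norm_nonneg _)
      rw [h4, mul_zero, mul_zero] at h2
      linarith
    refine ⟨h3, ?_⟩
    unfold kap
    rw [div_lt_iff₀ (by positivity)]
    have h5 : r ^ 2 < (1 + b * ‖q1‖) ^ 2 := by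
      apply pow_lt_pow_left₀ hr2 (by linarith) (by norm_num)
    have h6 : (1 + b * ‖q1‖) ^ 2 ≤ (1 + b * (b * ‖p‖)) ^ 2 := by
      apply pow_le_pow_left₀ (by linarith)
      linarith
    have h7 : (b * (b * ‖p‖)) ^ 2 ≤ ‖p‖ ^ 2 := by
      apply pow_le_pow_left₀ (by positivity)
      have h8 : b * b ≤ 1 := by nlinarith
      nlinarith
    nlinarith

end Pool.Agent.Lib.MP_0c1c75_co.KPI
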