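import Pool.Agent.Lib.MP_0c1c75_co.KPI.SpecA

/-!
# MP_0c1c75_co, project KPI: from a selection to the middle level
-/

set_option autoImplicit false

open MeasureTheory Set Metric

namespace Pool.Agent.Lib.MP_0c1c75_co.KPI

private lemma Mid_Bz_lt_top {d : ℕ} (z : ℝ) : volume (Bz d z) < ⊤ := by
  refine (measure_mono (t := closedBall (0 : E d) (Real.sqrt z)) ?_).trans_lt
    measure_closedBall_lt_top
  intro x hx
  have hx' : ‖x‖ ^ 2 ≤ z := hx
  rw [mem_closedBall_zero_iff]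
  exact Real.le_sqrt_of_sq_le hx'

private lemma Mid_fin {d : ℕ} (z : ℝ) {s : Set (E d)} (h : s ⊆ Bz d z) : volume s ≠ ⊤ :=
  ((measure_mono h).trans_lt (Mid_Bz_lt_top z)).ne

private lemma Mid_lv_mono {d : ℕ} (z : ℝ) {s t : Set (E d)} (h : s ⊆ t) : lv z s ≤ lv z t :=
  measureReal_mono (inter_subset_inter_left _ h) (Mid_fin z inter_subset_right)

private lemma Mid_lv_nonneg {d : ℕ} (z : ℝ) (s : Set (E d)) : 0 ≤ lv z s := measureReal_nonneg

private lemma Mid_fv_mono {d : ℕ} (z : ℝ) {J K : Finset (E d)} (h : J ⊆ K) : fv z J ≤ fv z K := by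
  refine Mid_lv_mono z ?_
  rintro x ⟨n, hn, hx⟩
  exact ⟨n, h hn, hx⟩

private lemma Mid_hyp {d : ℕ} {n : E d} (hn : n ≠ 0) :
    volume {x : E d | inner ℝ n x = 1} = 0 := by
  have hW : (Submodule.span ℝ {n})ᗮ ≠ (⊤ : Submodule ℝ (E d)) := by
    intro h
    have h1 : n ∈ (Submodule.span ℝ {n})ᗮ := by rw [h]; exact Submodule.mem_top
    rw [Submodule.mem_orthogonal_singleton_iff_inner_right] at h1
    exact hn (inner_self_eq_zero.1 h1)
  have h0 := Measure.addHaar_submodule (volume : Measure (E d)) (Submodule.span ℝ {n})ᗮ hW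
  have hnn : (inner ℝ n n : ℝ) ≠ 0 := fun h => hn (inner_self_eq_zero.1 h)
  set x0 : E d := (inner ℝ n n : ℝ)⁻¹ • n with hx0
  have h1 : {x : E d | inner ℝ n x = 1} =
      (fun x => -x0 + x) ⁻¹' (((Submodule.span ℝ {n})ᗮ : Submodule ℝ (E d)) : Set (E d)) := by
    ext x
    simp only [mem_ofPred_eq, mem_preimage, SetLike.mem_coe,
      Submodule.mem_orthogonal_singleton_iff_inner_right]
    rw [inner_add_right, inner_neg_right, hx0, inner_smul_right, inv_mul_cancel₀ hnn]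
    constructor
    · intro h; rw [h]; ring
    · intro h; linarith
  rw [h1, measure_preimage_add]
  exact h0

private lemma Mid_half_meas {d : ℕ} (n : E d) : IsOpen {x : E d | 1 < inner ℝ n x} :=
  isOpen_lt continuous_const (by fun_prop)

private lemma Mid_Un_meas {d : ℕ} (J : Finset (E d)) : MeasurableSet (Un J) := by
  have h : Un J = ⋃ n ∈ J, {x : E d | 1 < inner ℝ n x} := by
    ext x
    simp [Un]
  rw [h]
  exact (isOpen_biUnion fun n _ => Mid_half_meas n).measurableSet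

private lemma Mid_real {d : ℕ} {A : ℝ} (hA : 0 < A) (z : ℝ) {s : Set (E d)}
    (hs : MeasurableSet s) :
    (ENNReal.ofReal A • volume.restrict (Bz d z)).real s = A * volume.real (s ∩ Bz d z) := by
  rw [measureReal_ennreal_smul_apply, ENNReal.toReal_ofReal hA.le, measureReal_restrict_apply hs]

/-- The pointwise inequality. -/
private lemma Mid_pt {t w P l a b : ℝ} (ht : 0 ≤ t) (htP : t ≤ P * w) (hw : 0 < w) (hP : 1 ≤ P)
    (hl : 0 < l) (hl1 : l < 1) (hta : t ≤ a) (hb : w / 2 ≤ b) :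
    t ≤ 2 * P * (a ^ (1 - l) * b ^ l) := by
  have hP0 : 0 < P := by linarith
  have hb0 : 0 < b := by linarith
  have h1 : t = t ^ (1 - l) * t ^ l := by
    rcases ht.eq_or_lt with h | h
    · rw [← h, Real.zero_rpow hl.ne', mul_zero]
    · rw [← Real.rpow_add h]
      simp
  have h2 : t ^ l ≤ (2 * P) ^ l * b ^ l := by
    rw [← Real.mul_rpow (by positivity) hb0.le]
    refine Real.rpow_le_rpow ht ?_ hl.le
    nlinarith
  have h3 : (2 * P) ^ l ≤ 2 * P := by
    calc (2 * P) ^ l ≤ (2 * P) ^ (1 : ℝ) :=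
          Real.rpow_le_rpow_of_exponent_le (by linarith) hl1.le
      _ = 2 * P := Real.rpow_one _
  have h4 : t ^ (1 - l) ≤ a ^ (1 - l) := Real.rpow_le_rpow ht hta (by linarith)
  have h5 : 0 ≤ b ^ l := Real.rpow_nonneg hb0.le _
  have h6 : 0 ≤ t ^ (1 - l) := Real.rpow_nonneg ht _
  calc t = t ^ (1 - l) * t ^ l := h1
    _ ≤ a ^ (1 - l) * ((2 * P) * b ^ l) := by
        refine mul_le_mul h4 (h2.trans (mul_le_mul_of_nonneg_right h3 h5))
          (Real.rpow_nonneg ht _) (h6.trans h4)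
    _ = 2 * P * (a ^ (1 - l) * b ^ l) := by ring

theorem sMid (hCel : S_Cel) (hCBM : S_CBM) (hExi : S_Exi) : S_Mid := by
  intro d D z1 z2 l A B P hd hA hB hl hl1 hP hD hsel
  obtain ⟨K, hKD, hKne, w, hw, Y, hY, h1, h2, h3, h4⟩ := hsel
  have hP0 : 0 < P := by linarith
  have hU : ∀ J : Finset (E d), Uh (fun n : E d => {x | 1 < inner ℝ n x}) J = Un J :=
    fun J => rfl
  -- weights
  obtain ⟨α, hα1, hα⟩ := hExi d K z2 (fun _ => w / (2 * B)) hd
    (fun _ => by positivity) (by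
      intro J hJ hJne
      have h5 := h1 J hJ
      rw [hU, Mid_real hB z2 (Mid_Un_meas J)] at h5
      have hc : 0 < (J.card : ℝ) := by exact_mod_cast Finset.card_pos.2 hJne
      rw [Finset.sum_const, nsmul_eq_mul]
      have h6 : (J.card : ℝ) * w / B ≤ fv z2 J := by
        rw [div_le_iff₀ hB, mul_comm (fv z2 J)]
        exact h5
      refine lt_of_lt_of_le ?_ h6
      rw [mul_div_assoc]
      refine mul_lt_mul_of_pos_left ?_ hc
      exact div_lt_div_of_pos_left hw hB (by linarith))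
  have hα0 : ∀ n ∈ K, 0 < α n := fun n hn => by linarith [hα1 n hn]
  obtain ⟨hC1, -, hC3⟩ := hCel d K α hd hα0
  set C : E d → Set (E d) := fun n => Cell K α n with hCdef
  set t : E d → ℝ := fun n => A * volume.real (C n ∩ Bz d z1 ∩ Y) with htdef
  have ht0 : ∀ n, 0 ≤ t n := fun n => mul_nonneg hA.le measureReal_nonneg
  have hta : ∀ n, t n ≤ A * lv z1 (C n) := by
    intro n
    refine mul_le_mul_of_nonneg_left ?_ hA.le
    exact measureReal_mono inter_subset_left (Mid_fin z1 inter_subset_right)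
  have htP : ∀ n ∈ K, t n ≤ P * w := by
    intro n hn
    refine le_trans ?_ (h3 n hn)
    rw [Mid_real hA z1 ((Mid_half_meas n).measurableSet.inter hY)]
    refine mul_le_mul_of_nonneg_left ?_ hA.le
    have hsub : C n ∩ Bz d z1 ∩ Y ⊆
        ({x : E d | 1 < inner ℝ n x} ∩ Y ∩ Bz d z1) ∪ {x : E d | inner ℝ n x = 1} := by
      rintro x ⟨⟨hx1, hx2⟩, hx3⟩
      have hx4 : 0 ≤ inner ℝ n x - 1 := hx1.1
      rcases hx4.eq_or_lt with h | h
      · right
        show inner ℝ n x = 1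
        linarith
      · left
        refine ⟨⟨?_, hx3⟩, hx2⟩
        show 1 < inner ℝ n x
        linarith
    have hnull := Mid_hyp (hD n (hKD hn))
    have h8 : volume (C n ∩ Bz d z1 ∩ Y) ≤ volume ({x : E d | 1 < inner ℝ n x} ∩ Y ∩ Bz d z1) := by
      refine (measure_mono hsub).trans ((measure_union_le _ _).trans ?_)
      rw [hnull, add_zero]
    exact ENNReal.toReal_mono (Mid_fin z1 inter_subset_right) h8
  have hsum : (K.card : ℝ) * w ≤ ∑ n ∈ K, t n := by
    refine h2.trans ?_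
    rw [hU, Mid_real hA z1 ((Mid_Un_meas K).inter hY), ← Finset.mul_sum]
    refine mul_le_mul_of_nonneg_left ?_ hA.le
    have hsub : Un K ∩ Y ∩ Bz d z1 ⊆ ⋃ n ∈ K, (C n ∩ Bz d z1 ∩ Y) := by
      rintro x ⟨⟨⟨m, hm, hmx⟩, hx3⟩, hx2⟩
      obtain ⟨n, hn, hmax⟩ := Finset.exists_max_image K (fun n => α n * (inner ℝ n x - 1))
        ⟨m, hm⟩
      refine mem_biUnion hn ⟨⟨⟨?_, hmax⟩, hx2⟩, hx3⟩
      have h9 := hmax m hm
      have h10 : 0 < α m * (inner ℝ m x - 1) := mul_pos (hα0 m hm) (by linarith)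
      have h11 : 0 < α n * (inner ℝ n x - 1) := lt_of_lt_of_le h10 h9
      exact (pos_of_mul_pos_right h11 (hα0 n hn).le).le
    refine (measureReal_mono hsub ?_).trans (measureReal_biUnion_finset_le _ _)
    refine ne_of_lt (lt_of_le_of_lt (measure_biUnion_finset_le _ _) ?_)
    refine ENNReal.sum_lt_top.2 fun n _ => ?_
    exact lt_of_le_of_lt (measure_mono (inter_subset_left.trans inter_subset_right))
      (Mid_Bz_lt_top z1)
  -- main chain
  have hmain : ∑ n ∈ K, t n ≤ 2 * P * (A ^ (1 - l) * B ^ l * fv ((1 - l) * z1 + l * z2) K) := by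
    rw [← hC3 ((1 - l) * z1 + l * z2), Finset.mul_sum, Finset.mul_sum]
    refine Finset.sum_le_sum fun n hn => ?_
    have hb : w / 2 ≤ B * lv z2 (C n) := by
      have h5 := hα n hn
      have h6 : w / (2 * B) * B ≤ lv z2 (C n) * B := mul_le_mul_of_nonneg_right h5 hB.le
      have h7 : w / (2 * B) * B = w / 2 := by
        field_simp
      linarith
    have h5 := Mid_pt (ht0 n) (htP n hn) hw hP hl hl1 (hta n) hb
    refine h5.trans ?_
    refine mul_le_mul_of_nonneg_left ?_ (by positivity)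
    rw [Real.mul_rpow hA.le (Mid_lv_nonneg _ _), Real.mul_rpow hB.le (Mid_lv_nonneg _ _)]
    have h6 := (hCBM d (C n) hd (hC1 n).1 (hC1 n).2).1 z1 z2 l hl hl1
    have hA' : 0 ≤ A ^ (1 - l) := Real.rpow_nonneg hA.le _
    have hB' : 0 ≤ B ^ l := Real.rpow_nonneg hB.le _
    calc A ^ (1 - l) * lv z1 (C n) ^ (1 - l) * (B ^ l * lv z2 (C n) ^ l)
        = (A ^ (1 - l) * B ^ l) * (lv z1 (C n) ^ (1 - l) * lv z2 (C n) ^ l) := by ring
      _ ≤ (A ^ (1 - l) * B ^ l) * lv ((1 - l) * z1 + l * z2) (C n) :=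
          mul_le_mul_of_nonneg_left h6 (mul_nonneg hA' hB')
  have hA' : 0 ≤ A ^ (1 - l) := Real.rpow_nonneg hA.le _
  have hB' : 0 ≤ B ^ l := Real.rpow_nonneg hB.le _
  have hfin : A ^ (1 - l) * B ^ l * fv ((1 - l) * z1 + l * z2) K ≤
      A ^ (1 - l) * B ^ l * fv ((1 - l) * z1 + l * z2) D :=
    mul_le_mul_of_nonneg_left (Mid_fv_mono _ hKD) (mul_nonneg hA' hB')
  calc (D.card : ℝ) ≤ P * (K.card * w) := h4
    _ ≤ P * (2 * P * (A ^ (1 - l) * B ^ l * fv ((1 - l) * z1 + l * z2) D)) := by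
        refine mul_le_mul_of_nonneg_left ?_ hP0.le
        refine (hsum.trans hmain).trans (mul_le_mul_of_nonneg_left hfin (by positivity))
    _ = 2 * P ^ 2 * (A ^ (1 - l) * B ^ l * fv ((1 - l) * z1 + l * z2) D) := by ring

end Pool.Agent.Lib.MP_0c1c75_co.KPI
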