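import Pool.Agent.Lib.MP_0c1c75_co.KPI.SpecR
import Pool.Agent.Lib.MP_0c1c75_co.CdBound

/-!
# MP_0c1c75_co, project KPI, part R: the regime reduction `S_Reg` (helper43)
-/

set_option autoImplicit false

open MeasureTheory Set Metric

namespace Pool.Agent.Lib.MP_0c1c75_co.KPI

private lemma om_eq (d : ℕ) : om d = (volume (ball (0 : E d) 1)).toReal := by
  rw [om, measureReal_def, Measure.addHaar_unitClosedBall_eq_addHaar_unitBall]

private lemma om_pos (d : ℕ) : 0 < om d := by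
  rw [om_eq]
  exact ENNReal.toReal_pos (measure_ball_pos _ _ one_pos).ne' measure_ball_lt_top.ne

private lemma vr_eq {d : ℕ} (K : Set (E d)) : vr K = (volume.real K / om d) ^ ((1 : ℝ) / d) := by
  rw [vr, om_eq, measureReal_def]

theorem r_reg (hT : Thm2pStmt) (_hV : VrBasicStmt) (hN : R_Norm) (hK : R_Kt) (hW : R_W)
    (hC : R_Cnv) (hNum : R_Num) : S_Reg := by
  intro c hc0 hc1
  obtain ⟨b, hb⟩ : ∃ v : ℝ, v = max (Real.sqrt c) (1 / 2) := ⟨_, rfl⟩
  have hsc : Real.sqrt c < 1 := by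
    rw [Real.sqrt_lt' one_pos]; linarith
  have hb1 : b < 1 := by rw [hb]; exact max_lt hsc (by norm_num)
  have hb2 : 1 / 2 ≤ b := by rw [hb]; exact le_max_right _ _
  have hb3 : Real.sqrt c ≤ b := by rw [hb]; exact le_max_left _ _
  have hb0 : 0 < b := by linarith
  have hcb : c ≤ b * b := by
    have h1 := mul_self_le_mul_self (Real.sqrt_nonneg c) hb3
    rwa [Real.mul_self_sqrt hc0.le] at h1
  obtain ⟨h, hh⟩ : ∃ v : ℝ, v = 1 - Real.sqrt b := ⟨_, rfl⟩
  have hsb : Real.sqrt b < 1 := by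
    rw [Real.sqrt_lt' one_pos]; linarith
  have hsb2 : 1 / 2 ≤ Real.sqrt b := by
    apply Real.le_sqrt_of_sq_le; linarith
  have hbh : (1 - h) ^ 2 = b := by
    rw [hh, sub_sub_cancel]; exact Real.sq_sqrt hb0.le
  obtain ⟨c1, d1, hc1p, hWd⟩ := hW h (by linarith) (by linarith)
  obtain ⟨d2, hNd⟩ := hNum b c1 hb0 hb1 hc1p
  refine ⟨c1 / 4, by linarith, fun hmain => ?_⟩
  obtain ⟨d3, hm⟩ := hmain
  refine ⟨max (max d1 d2) (max d3 2), fun d hd => ?_⟩
  have hd1 : d1 ≤ d := ((le_max_left _ _).trans (le_max_left _ _)).trans hd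
  have hd2 : d2 ≤ d := ((le_max_right _ _).trans (le_max_left _ _)).trans hd
  have hd3 : d3 ≤ d := ((le_max_left _ _).trans (le_max_right _ _)).trans hd
  have hd4 : 2 ≤ d := ((le_max_right _ _).trans (le_max_right _ _)).trans hd
  refine hN c d (by omega) ?_
  intro N p q r i0 hcfg hpos
  obtain ⟨hp0, hq0, hr0, hr1, hcon⟩ := hcfg
  have hrn : ∀ i, 0 ≤ r i := fun i => zero_le_one.trans (hr1 i)
  have hom := om_pos d
  obtain ⟨kp1, -, -, kp4, kp5⟩ := hK d N p r i0 hp0 hr0 hrn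
  obtain ⟨kq1, -, -, kq4, kq5⟩ := hK d N q r i0 hq0 hr0 hrn
  have hpfin : volume (Kt p r 0) ≠ ⊤ := (kp1 0).measure_lt_top.ne
  have hqfin : volume (Kt q r 0) ≠ ⊤ := (kq1 0).measure_lt_top.ne
  -- it suffices to compare the real volumes
  suffices hreal : volume.real (Kt p r 0) ≤ volume.real (Kt q r 0) by
    rw [measureReal_def, measureReal_def, ENNReal.toReal_le_toReal hpfin hqfin] at hreal
    exact hreal
  by_cases hsm : Gt p r Finset.univ 0 ≤ Real.exp (-(c1 / 4 * d)) * om d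
  · have h1 := hm d hd3 N p q r i0 ⟨hp0, hq0, hr0, hr1, hcon⟩ hsm
    rw [kp4, kq4]; linarith
  rw [not_le] at hsm
  -- the intermediate configuration
  obtain ⟨q1, hq1⟩ : ∃ v : Fin N → E d, v = fun i => b⁻¹ • q i := ⟨_, rfl⟩
  have hq10 : q1 i0 = 0 := by rw [hq1]; simp [hq0]
  have hcon1 : Contr b p q1 := by
    intro i j
    rw [hq1]
    simp only
    rw [dist_smul₀, Real.norm_of_nonneg (by positivity)]
    calc b⁻¹ * dist (q i) (q j) ≤ b⁻¹ * (c * dist (p i) (p j)) :=
          mul_le_mul_of_nonneg_left (hcon i j) (by positivity)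
      _ ≤ b⁻¹ * (b * b * dist (p i) (p j)) := by
          refine mul_le_mul_of_nonneg_left ?_ (by positivity)
          exact mul_le_mul_of_nonneg_right hcb dist_nonneg
      _ = b * dist (p i) (p j) := by field_simp
  have hqq1 : (fun i => b • q1 i) = q := by
    rw [hq1]; funext i; simp only; rw [smul_smul, mul_inv_cancel₀ hb0.ne', one_smul]
  obtain ⟨k1, -, -, -, k5⟩ := hK d N q1 r i0 hq10 hr0 hrn
  -- window
  have w1 := hWd d hd1 N p q1 r i0 ⟨hp0, hq10, hr0, hr1, by rw [hbh]; exact hcon1⟩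
  -- Theorem 2
  have hcon11 : Contr 1 p q1 := fun i j => (hcon1 i j).trans
    (mul_le_mul_of_nonneg_right hb1.le dist_nonneg)
  have t1 := hT d N hd4 p q1 hcon11 r
  rw [← kp5, ← k5] at t1
  have hCp : Cp d ≤ 4 * Real.sqrt d := Cp_le d hd4
  have t2 : volume.real (Kt p r 0) ≤ 4 * Real.sqrt d * volume.real (Kt q1 r 0) := by
    have hfin1 : volume (Kt q1 r 0) ≠ ⊤ := (k1 0).measure_lt_top.ne
    have h1 : volume (Kt p r 0) ≤ ENNReal.ofReal (4 * Real.sqrt d) * volume (Kt q1 r 0) :=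
      t1.trans (mul_le_mul_left (ENNReal.ofReal_le_ofReal hCp) _)
    have h2 := ENNReal.toReal_mono (ENNReal.mul_ne_top ENNReal.ofReal_ne_top hfin1) h1
    rw [ENNReal.toReal_mul, ENNReal.toReal_ofReal (by positivity)] at h2
    exact h2
  have hVp : 0 < volume.real (Kt p r 0) := ENNReal.toReal_pos hpos.ne' hpfin
  have hVq1 : 0 < volume.real (Kt q1 r 0) := by
    by_contra hneg
    have h0 : volume.real (Kt q1 r 0) = 0 := le_antisymm (not_lt.1 hneg) measureReal_nonneg
    rw [h0, mul_zero] at t2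
    linarith
  have hne : (Kt q1 r 0).Nonempty := by
    rw [nonempty_iff_ne_empty]
    intro he
    rw [he] at hVq1; simp at hVq1
  have hcv := hC d N (by omega) q1 r i0 b hq10 hr0 hr1 hb0.le hb1.le hne
  rw [hqq1, vr_eq, vr_eq] at hcv
  have hfinal := hNd d hd2 (volume.real (Kt p r 0) / om d) (volume.real (Kt q1 r 0) / om d)
    (volume.real (Kt q r 0) / om d) (div_pos hVp hom) ?_ (div_nonneg hVq1.le hom.le)
    (div_nonneg measureReal_nonneg hom.le) ?_ ?_ hcv ?_
  · exact (div_le_div_iff_of_pos_right hom).1 hfinal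
  · rw [div_le_one hom, kp4]
    have : 0 ≤ Gt p r Finset.univ 0 := measureReal_nonneg
    linarith
  · rw [div_add' _ _ _ hom.ne', div_le_div_iff_of_pos_right hom]
    exact w1
  · rw [← mul_div_assoc, div_le_div_iff_of_pos_right hom]
    exact t2
  · rw [div_le_iff₀ hom, kp4, sub_mul, one_mul]
    linarith

end Pool.Agent.Lib.MP_0c1c75_co.KPI
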