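import Pool.Agent.Lib.MP_0c1c75_co.KPI.SpecA

set_option autoImplicit false

/-!
# MP_0c1c75_co, project KPI: selection, the case `s ≤ s'`
-/

open MeasureTheory Set Metric

namespace Pool.Agent.Lib.MP_0c1c75_co.KPI

private lemma SelA_mlt_eq {X ι : Type} [MeasurableSpace X] (H : ι → Set X) (J : Finset ι) (x : X) :
    (mlt H J x : ℝ) = ∑ i ∈ J, (H i).indicator (fun _ => (1 : ℝ)) x := by
  classical
  unfold mlt
  rw [Finset.card_filter]
  push_cast
  refine Finset.sum_congr rfl fun i _ => ?_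
  by_cases h : x ∈ H i
  · simp [h]
  · simp [h]

private lemma SelA_mlt_mono {X ι : Type} [MeasurableSpace X] (H : ι → Set X) {J K : Finset ι}
    (h : J ⊆ K) (x : X) : mlt H J x ≤ mlt H K x := by
  classical
  unfold mlt
  exact Finset.card_le_card (Finset.filter_subset_filter _ h)

private lemma SelA_meas {X ι : Type} [MeasurableSpace X] (H : ι → Set X)
    (hH : ∀ i, MeasurableSet (H i)) (J : Finset ι) : Measurable (mlt H J) := by
  classical
  have h : mlt H J = fun x => ∑ i ∈ J, if x ∈ H i then 1 else 0 := by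
    funext x
    unfold mlt
    rw [Finset.card_filter]
  rw [h]
  exact Finset.measurable_sum _ fun i _ => Measurable.ite (hH i) measurable_const measurable_const

private lemma SelA_Uh {X ι : Type} [MeasurableSpace X] (H : ι → Set X)
    (hH : ∀ i, MeasurableSet (H i)) (K : Finset ι) : MeasurableSet (Uh H K) := by
  have h : Uh H K = ⋃ i ∈ K, H i := by
    ext x
    simp [Uh]
  rw [h]
  exact Finset.measurableSet_biUnion _ fun i _ => hH i

private lemma SelA_sum {X ι : Type} [MeasurableSpace X] (μ : Measure X) [IsFiniteMeasure μ]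
    (H : ι → Set X) (hH : ∀ i, MeasurableSet (H i)) (K : Finset ι) (Y : Set X)
    (hY : MeasurableSet Y) (M : ℝ) (hM : ∀ x ∈ Y, (mlt H K x : ℝ) ≤ M) :
    ∑ i ∈ K, μ.real (H i ∩ Y) ≤ M * μ.real (Uh H K ∩ Y) := by
  classical
  have h1 : ∀ i ∈ K, μ.real (H i ∩ Y) = ∫ x, (H i ∩ Y).indicator (fun _ => (1 : ℝ)) x ∂μ := by
    intro i _
    rw [integral_indicator ((hH i).inter hY)]
    simp
  have hU := SelA_Uh H hH K
  have h2 : M * μ.real (Uh H K ∩ Y) = ∫ x, (Uh H K ∩ Y).indicator (fun _ => M) x ∂μ := by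
    rw [integral_indicator (hU.inter hY)]
    simp [mul_comm]
  rw [Finset.sum_congr rfl h1, h2, ← integral_finset_sum]
  · refine integral_mono ?_ ?_ fun x => ?_
    · refine integrable_finset_sum _ fun i _ => ?_
      exact (integrable_const (1 : ℝ)).indicator ((hH i).inter hY)
    · exact (integrable_const M).indicator (hU.inter hY)
    · by_cases hx : x ∈ Y
      · have h3 : ∑ i ∈ K, (H i ∩ Y).indicator (fun _ => (1 : ℝ)) x = (mlt H K x : ℝ) := by
          rw [SelA_mlt_eq]
          refine Finset.sum_congr rfl fun i _ => ?_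
          by_cases hi : x ∈ H i
          · simp [hi, hx]
          · simp [hi]
        show ∑ i ∈ K, (H i ∩ Y).indicator (fun _ => (1 : ℝ)) x ≤ _
        rw [h3]
        by_cases hu : x ∈ Uh H K
        · rw [Set.indicator_of_mem (show x ∈ Uh H K ∩ Y from ⟨hu, hx⟩)]
          exact hM x hx
        · rw [Set.indicator_of_notMem (fun h => hu h.1)]
          rw [SelA_mlt_eq]
          refine le_of_eq (Finset.sum_eq_zero fun i hi => ?_)
          exact Set.indicator_of_notMem (fun h => hu ⟨i, hi, h⟩) _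
      · have h3 : ∑ i ∈ K, (H i ∩ Y).indicator (fun _ => (1 : ℝ)) x = 0 :=
          Finset.sum_eq_zero fun i _ => Set.indicator_of_notMem (fun h => hx h.2) _
        show ∑ i ∈ K, (H i ∩ Y).indicator (fun _ => (1 : ℝ)) x ≤ _
        rw [h3, Set.indicator_of_notMem (fun h => hx h.2)]
  · intro i _
    exact (integrable_const (1 : ℝ)).indicator ((hH i).inter hY)

/-- **Selection, the case `s ≤ s'`.** -/
theorem sSelA (hCol : S_Col) : S_SelA := by
  classical
  intro X ι _ μ ν _ _ H T D J L s s' hH hT hHall hD hJD hJ hcard hss hgood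
  have hT' : (0 : ℝ) < T := by exact_mod_cast hT
  obtain ⟨i0, hi0⟩ := hJ
  have hJpos : (0 : ℝ) < J.card := by exact_mod_cast Finset.card_pos.mpr ⟨i0, hi0⟩
  have hDpos : (0 : ℝ) < D.card := by exact_mod_cast Finset.card_pos.mpr ⟨i0, hJD hi0⟩
  have hL : 1 ≤ L := by
    have h1 := (hHall D (Finset.Subset.refl D)).trans hD
    by_contra hc
    have h2 : L * D.card < 1 * D.card := mul_lt_mul_of_pos_right (not_le.mp hc) hDpos
    linarith
  have hL0 : (0 : ℝ) < L := by linarith
  set a : ℕ := 2 ^ s with ha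
  set b : ℕ := 2 ^ s' with hb
  have ha0 : 0 < a := by positivity
  have hab : a ≤ b := Nat.pow_le_pow_right (by norm_num) hss
  have haR : (0 : ℝ) < a := by exact_mod_cast ha0
  have hbR : (0 : ℝ) < b := lt_of_lt_of_le haR (by exact_mod_cast hab)
  have ha2 : 2 ^ (s + 1) = 2 * a := by rw [ha]; ring
  have hb2 : 2 ^ (s' + 1) = 2 * b := by rw [hb]; ring
  have haC : (2 : ℝ) ^ s = a := by rw [ha]; push_cast; ring
  have hbC : (2 : ℝ) ^ s' = b := by rw [hb]; push_cast; ring
  set Y0 : Set X := {x | mlt H J x < 2 ^ (s + 1)} with hY0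
  set Z0 : Set X := {x | mlt H J x < 2 ^ (s' + 1)} with hZ0
  have hmJ := SelA_meas H hH J
  have hY0m : MeasurableSet Y0 := measurableSet_lt hmJ measurable_const
  have hZ0m : MeasurableSet Z0 := measurableSet_lt hmJ measurable_const
  set L3 : ℝ := 216 * T ^ 6 * L ^ 4 with hL3
  have hL3pos : 0 < L3 := by positivity
  -- the sum over `J`
  have hsum : ∑ i ∈ J, μ.real (H i ∩ Y0) ≤ 2 * a * L3 * J.card := by
    have h1 : ∑ i ∈ J, μ.real (H i ∩ Y0) ≤ (2 * a) * μ.real (Uh H J ∩ Y0) := by
      refine SelA_sum μ H hH J Y0 hY0m (2 * a) fun x hx => ?_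
      have h2 : mlt H J x < 2 * a := by rw [← ha2]; exact hx
      exact_mod_cast h2.le
    have h3 : μ.real (Uh H J ∩ Y0) ≤ μ.real (Uh H D) := by
      refine measureReal_mono ?_ (measure_ne_top μ _)
      rintro x ⟨⟨i, hi, hx⟩, _⟩
      exact ⟨i, hJD hi, hx⟩
    have h4 : μ.real (Uh H D) ≤ L * (216 * T ^ 6 * L ^ 3 * J.card) :=
      hD.trans (mul_le_mul_of_nonneg_left hcard hL0.le)
    calc ∑ i ∈ J, μ.real (H i ∩ Y0) ≤ (2 * a) * μ.real (Uh H J ∩ Y0) := h1
      _ ≤ (2 * a) * (L * (216 * T ^ 6 * L ^ 3 * J.card)) :=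
          mul_le_mul_of_nonneg_left (h3.trans h4) (by positivity)
      _ = 2 * a * L3 * J.card := by rw [hL3]; ring
  set J' : Finset ι := J.filter fun i => μ.real (H i ∩ Y0) ≤ 4 * a * L3 with hJ'
  have hJ'J : J' ⊆ J := Finset.filter_subset _ _
  have hJ'card : (J.card : ℝ) ≤ 2 * J'.card := by
    have h1 : (J \ J').card * (4 * a * L3) ≤ ∑ i ∈ J \ J', μ.real (H i ∩ Y0) := by
      rw [← nsmul_eq_mul, ← Finset.sum_const]
      refine Finset.sum_le_sum fun i hi => ?_
      rw [Finset.mem_sdiff] at hi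
      by_contra hc
      exact hi.2 (Finset.mem_filter.mpr ⟨hi.1, (not_le.mp hc).le⟩)
    have h2 : ∑ i ∈ J \ J', μ.real (H i ∩ Y0) ≤ ∑ i ∈ J, μ.real (H i ∩ Y0) :=
      Finset.sum_le_sum_of_subset_of_nonneg Finset.sdiff_subset fun _ _ _ => measureReal_nonneg
    have h3 : ((J \ J').card : ℝ) = J.card - J'.card := by
      rw [Finset.card_sdiff_of_subset hJ'J, Nat.cast_sub (Finset.card_le_card hJ'J)]
    rw [h3] at h1
    have h4 : ((J.card : ℝ) - J'.card) * (4 * a * L3) ≤ 2 * a * L3 * J.card :=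
      h1.trans (h2.trans hsum)
    have h5 : 0 < 2 * (a : ℝ) * L3 := by positivity
    have h6 : (2 * ((J.card : ℝ) - J'.card)) * (2 * a * L3) ≤ J.card * (2 * a * L3) := by
      nlinarith [h4]
    have h7 := le_of_mul_le_mul_right h6 h5
    linarith
  -- the colouring
  let κ : Type := {i // i ∈ J'}
  let H' : κ → Set X := fun i => H i.1
  have hmap : ∀ (B : Finset κ) (x : X),
      mlt H' B x = mlt H (B.map (Function.Embedding.subtype _)) x := by
    intro B x
    have h : (mlt H' B x : ℝ) = (mlt H (B.map (Function.Embedding.subtype _)) x : ℝ) := by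
      rw [SelA_mlt_eq, SelA_mlt_eq, Finset.sum_map]
      rfl
    exact_mod_cast h
  have huniv : (Finset.univ : Finset κ).map (Function.Embedding.subtype _) = J' := by
    ext i
    simp only [Finset.mem_map, Finset.mem_univ, true_and, Function.Embedding.subtype_apply]
    constructor
    · rintro ⟨j, rfl⟩
      exact j.2
    · intro hi
      exact ⟨⟨i, hi⟩, rfl⟩
  obtain ⟨A', hA'card, hA'⟩ := hCol X κ μ ν H' Y0 Z0 a b ha0 hab (fun i => hH i.1) hY0m hZ0m
    (fun x hx => by
      rw [hmap, huniv]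
      have h2 : mlt H J x < 2 * a := by rw [← ha2]; exact hx
      exact (SelA_mlt_mono H hJ'J x).trans h2.le)
    (fun x hx => by
      rw [hmap, huniv]
      have h2 : mlt H J x < 2 * b := by rw [← hb2]; exact hx
      exact (SelA_mlt_mono H hJ'J x).trans h2.le)
  set A : Finset ι := A'.map (Function.Embedding.subtype _) with hA
  have hAJ' : A ⊆ J' := by
    intro i hi
    rw [hA, Finset.mem_map] at hi
    obtain ⟨j, _, rfl⟩ := hi
    exact j.2
  have hAcard : A.card = A'.card := by rw [hA, Finset.card_map]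
  have hκ : (Fintype.card κ : ℝ) = J'.card := by
    have : Fintype.card κ = J'.card := Fintype.card_coe J'
    exact_mod_cast this
  have hJA : (J'.card : ℝ) ≤ 2 * a * A.card := by
    rw [hAcard, ← hκ]
    exact hA'card
  have hAne : A.Nonempty := by
    rw [Finset.nonempty_iff_ne_empty]
    intro h0
    rw [h0] at hJA
    simp at hJA
    have : (J'.card : ℝ) ≤ 0 := by
      rw [hJA]; simp
    linarith
  have hAμ : ∀ i ∈ A, (a : ℝ) / (16 * T) ≤ μ.real (H i ∩ (Y0 ∩ {x | mlt H A x ≤ 17})) := by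
    intro i hi
    have hi' := hi
    rw [hA, Finset.mem_map] at hi'
    obtain ⟨j, hj, hji⟩ := hi'
    have h1 := (hA' j hj).1
    have h2 := (hgood i (hJ'J (hAJ' hi))).1
    have h3 : H' j = H i := by rw [← hji]; rfl
    rw [h3] at h1
    simp only [hmap] at h1
    rw [haC] at h2
    have h4 : (a : ℝ) / (8 * T) = 2 * (a / (16 * T)) := by
      field_simp
      ring
    rw [h4] at h2
    have h5 := h2.trans h1
    linarith
  have hAν : ∀ i ∈ A, (b : ℝ) / (16 * T) ≤
      ν.real (H i ∩ (Z0 ∩ {x | a * mlt H A x ≤ 17 * b})) := by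
    intro i hi
    have hi' := hi
    rw [hA, Finset.mem_map] at hi'
    obtain ⟨j, hj, hji⟩ := hi'
    have h1 := (hA' j hj).2
    have h2 := (hgood i (hJ'J (hAJ' hi))).2
    have h3 : H' j = H i := by rw [← hji]; rfl
    rw [h3] at h1
    simp only [hmap] at h1
    rw [hbC] at h2
    have h4 : (b : ℝ) / (8 * T) = 2 * (b / (16 * T)) := by
      field_simp
      ring
    rw [h4] at h2
    have h5 := h2.trans h1
    linarith
  have hmA := SelA_meas H hH A
  set Y : Set X := Y0 ∩ {x | mlt H A x ≤ 17} with hY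
  set Z : Set X := Z0 ∩ {x | a * mlt H A x ≤ 17 * b} with hZ
  have hYm : MeasurableSet Y := hY0m.inter (measurableSet_le hmA measurable_const)
  have hZm : MeasurableSet Z :=
    hZ0m.inter (measurableSet_le (measurable_const.mul hmA) measurable_const)
  refine ⟨A, (hAJ'.trans hJ'J).trans hJD, hAne, a / (272 * T), by positivity, Y, hYm, ?_, ?_, ?_, ?_⟩
  · intro K hK
    have h1 : ∑ i ∈ K, ν.real (H i ∩ Z) ≤ (17 * b / a) * ν.real (Uh H K ∩ Z) := by
      refine SelA_sum ν H hH K Z hZm (17 * b / a) fun x hx => ?_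
      have h2 : a * mlt H A x ≤ 17 * b := hx.2
      have h3 : a * mlt H K x ≤ 17 * b := (Nat.mul_le_mul_left a (SelA_mlt_mono H hK x)).trans h2
      have h4 : (a : ℝ) * mlt H K x ≤ 17 * b := by exact_mod_cast h3
      rw [le_div_iff₀ haR]
      linarith
    have h2 : (K.card : ℝ) * (b / (16 * T)) ≤ ∑ i ∈ K, ν.real (H i ∩ Z) := by
      rw [← nsmul_eq_mul, ← Finset.sum_const]
      exact Finset.sum_le_sum fun i hi => hAν i (hK hi)
    have h3 : ν.real (Uh H K ∩ Z) ≤ ν.real (Uh H K) :=
      measureReal_mono Set.inter_subset_left (measure_ne_top ν _)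
    have h4 : (K.card : ℝ) * (b / (16 * T)) ≤ (17 * b / a) * ν.real (Uh H K) :=
      h2.trans (h1.trans (mul_le_mul_of_nonneg_left h3 (by positivity)))
    have h5 : (K.card : ℝ) * (a / (272 * T)) = (a / (17 * b)) * (K.card * (b / (16 * T))) := by
      field_simp
      ring
    have h6 : ν.real (Uh H K) = (a / (17 * b)) * ((17 * b / a) * ν.real (Uh H K)) := by
      field_simp
    rw [h5, h6]
    exact mul_le_mul_of_nonneg_left h4 (by positivity)
  · have h1 : ∑ i ∈ A, μ.real (H i ∩ Y) ≤ 17 * μ.real (Uh H A ∩ Y) := by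
      refine SelA_sum μ H hH A Y hYm 17 fun x hx => ?_
      have h2 : mlt H A x ≤ 17 := hx.2
      exact_mod_cast h2
    have h2 : (A.card : ℝ) * (a / (16 * T)) ≤ ∑ i ∈ A, μ.real (H i ∩ Y) := by
      rw [← nsmul_eq_mul, ← Finset.sum_const]
      exact Finset.sum_le_sum fun i hi => hAμ i hi
    have h3 : (A.card : ℝ) * (a / (272 * T)) = (A.card * (a / (16 * T))) / 17 := by
      field_simp
      ring
    rw [h3]
    linarith
  · intro i hi
    have h1 : μ.real (H i ∩ Y) ≤ μ.real (H i ∩ Y0) := by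
      refine measureReal_mono ?_ (measure_ne_top μ _)
      exact Set.inter_subset_inter_right _ Set.inter_subset_left
    have h2 : μ.real (H i ∩ Y0) ≤ 4 * a * L3 := (Finset.mem_filter.mp (hAJ' hi)).2
    have h3 : 235008 * (T : ℝ) ^ 7 * L ^ 4 * (a / (272 * T)) = 4 * a * L3 := by
      rw [hL3]
      field_simp
      ring
    rw [h3]
    exact h1.trans h2
  · have h1 : (D.card : ℝ) ≤ 216 * T ^ 6 * L ^ 3 * (2 * (2 * a * A.card)) := by
      refine hcard.trans (mul_le_mul_of_nonneg_left ?_ (by positivity))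
      linarith
    have h2 : 235008 * (T : ℝ) ^ 7 * L ^ 4 * (A.card * (a / (272 * T))) =
        216 * T ^ 6 * L ^ 4 * (2 * (2 * a * A.card)) := by
      field_simp
      ring
    rw [h2]
    refine h1.trans (mul_le_mul_of_nonneg_right ?_ (by positivity))
    have h3 : L ^ 3 ≤ L ^ 4 := pow_le_pow_right₀ hL (by norm_num)
    exact mul_le_mul_of_nonneg_left h3 (by positivity)

end Pool.Agent.Lib.MP_0c1c75_co.KPI
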