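import Pool.Agent.Lib.MP_0c1c75_co.KPI.Defs

/-!
# MP_0c1c75_co, project KPI, part A: the interpolation theorem for unions of half spaces

Every statement `S_X` is to be proved as `theorem sX ... : S_X` in the file `KPI/X.lean`, namespace
`Pool.Agent.Lib.MP_0c1c75_co.KPI`; the statements named after `Uses` are hypotheses of the theorem,
in this order.  Notation in the proofs: `f_n(x) = ⟨n, x⟩ - 1`, `C_n = Cell J α n`, `|J| = J.card`,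
`m_J = mlt H J`.
-/

set_option autoImplicit false

open MeasureTheory Set Metric

namespace Pool.Agent.Lib.MP_0c1c75_co.KPI

/-! ## Cells -/

/-- (100 lines) **The cells tile the union at every level.**

Proof.  (1) Intersections of closed half spaces (affine functions are continuous; convexity: the set
`{x | a ≤ ⟨v, x⟩}` with `v = α n • n - α m • m`, …).  (2) On the intersection of two cells
`α n f_n = α m f_m`; the affine function `x ↦ ⟨α n • n - α m • m, x⟩ - (α n - α m)` is not identically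
zero (otherwise `α n = α m`, `α n • n = α m • m`, so `n = m`), its zero set is empty or a hyperplane,
which is a null set (`Measure.addHaar_affineSubspace` or `Measure.addHaar_submodule` and a
translation; it is convenient to have the private lemma `volume {x | ⟨v, x⟩ = a} = 0` for
`v ≠ 0 ∨ a ≠ 0`).  (3) The union of the cells `C_n`, `n ∈ J`, is `{x | ∃ n ∈ J, 0 ≤ f_n(x)}` (take the
`n` with the largest `α n f_n(x)`, it is nonnegative), which contains `Un J` and differs from it by a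
null set (`f_n = 0`).  So `lv z` of the union is `fv z J`, and it is the sum by (2)
(`measureReal_biUnion_finset₀`, `AEDisjoint`; all sets have finite volume). -/
def S_Cel : Prop := ∀ (d : ℕ) (J : Finset (E d)) (α : E d → ℝ), 0 < d → (∀ n ∈ J, 0 < α n) →
  (∀ n, IsClosed (Cell J α n) ∧ Convex ℝ (Cell J α n)) ∧
  (∀ n ∈ J, ∀ m ∈ J, n ≠ m → volume (Cell J α n ∩ Cell J α m) = 0) ∧
  ∀ z, ∑ n ∈ J, lv z (Cell J α n) = fv z J

/-- (120 lines; uses `BMStmt`) **Brunn-Minkowski for the part of a closed convex set in concentric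
balls.**

Proof.  `K_z = C ∩ Bz d z` is compact and convex; `(1 - l) • K_z1 + l • K_z2 ⊆ K_((1-l) z1 + l z2)`
because `‖(1-l) x + l y‖² ≤ (1-l) ‖x‖² + l ‖y‖²`.  `BMStmt` (`A = K_z1`, `B = K_z2`, if both are nonempty)
and monotonicity of `vr`: `(1-l) vr K_z1 + l vr K_z2 ≤ vr K_z0`.  (1) If one of them is empty the left side is
`0` (`0 ^ p = 0`, `p > 0`).  Otherwise the weighted AM-GM inequality
(`Real.geom_mean_le_arith_mean2_weighted`) and `volume.real K = ω (vr K)^d`, `ω > 0`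
(`VrBasicStmt` (5) is `allV` of `All.lean`; or unfold `vr`).  (2) The point `x` is in `K_zr`, so all sets are nonempty;
`z = (1 - l) zr + l z'`, `l = (z - zr)/(z' - zr)`, `vr K_z ≥ l vr K_z'`; take the power `d`. -/
def S_CBM : Prop := ∀ (d : ℕ) (C : Set (E d)), 0 < d → IsClosed C → Convex ℝ C →
  (∀ z1 z2 l : ℝ, 0 < l → l < 1 →
    lv z1 C ^ (1 - l) * lv z2 C ^ l ≤ lv ((1 - l) * z1 + l * z2) C) ∧
  ∀ zr z z' : ℝ, zr < z → z < z' → (∃ x ∈ C, ‖x‖ ^ 2 ≤ zr) →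
    lv z' C ≤ ((z' - zr) / (z - zr)) ^ d * lv z C

/-- (100 lines; uses `S_Cel`) **The volumes of the cells are continuous in the weights.**

Proof.  Dominated convergence (`continuous_iff_continuousAt`,
`tendsto_integral_filter_of_dominated_convergence` with the indicators, bound the indicator of `Bz d z`;
the neighbourhood filter of `J → ℝ` is countably generated): for a fixed `lam` and a point `x` with
`f_n(x) ≠ 0` and `α n f_n(x) ≠ α m f_m(x)` for all `m ∈ J`, `m ≠ n` (almost all `x`: the same null sets as in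
`S_Cel`), the condition `x ∈ Cell J (ext J lam') n` does not change for `lam'` near `lam` (finitely many strict
inequalities between continuous functions of `lam'`). -/
def S_Cnt : Prop := ∀ (d : ℕ) (J : Finset (E d)) (z : ℝ), 0 < d → ∀ n ∈ J,
  Continuous fun lam : J → ℝ => lv z (Cell J (ext J lam) n)

/-- (120 lines; uses `S_Cel`) **A priori bound.**

Proof.  `a = min_J (fv z J' - w(J')) > 0` over the nonempty `J' ⊆ J`.  For `η → 0` the volume of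
`Bz d z ∩ {0 < f_n < η}` tends to `0`, so there is `η ∈ (0, 1)` such that the sum over `n ∈ J` of these volumes is
`< a` (`tendsto_measure_iInter_atTop` or similar for the sequence `η = 1/(k+1)`).  `F ≥ 1` a bound of all `|f_n|`,
`n ∈ J`, on `Bz d z`, `L = log (F/η)`, `R = |J| L`.  Suppose `lam i > R`.  The `|J|` intervals
`(k L, (k+1) L]`, `k < |J|`, cannot all contain a value of `lam` (one of the `|J|` values is `> |J| L`): there is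
`k < |J|` such that all values are `≤ k L` or `> (k+1) L`.  `J' = {j : lam j > (k+1) L}`, nonempty.  For
`x ∈ Bz d z` with `f_j(x) ≥ η` for some `j ∈ J'`: if `m ∈ J \ J'` then
`exp (lam m) f_m(x) ≤ exp (k L) F = exp ((k+1) L) η < exp (lam j) f_j(x)` (and this is `> 0`), so `x ∉ C_m`; so `x` is in a cell of an
element of `J'` (the cells cover, `S_Cel` or directly by a maximal `α n f_n(x)`).  Hence
`fv z J' - (sum of the volumes of 0 < f_n < η) ≤ ∑_(J') lv z C_j ≤ w(J')`, a contradiction to the choice of `η`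
(all `lam j > 0` on `J'`). -/
def S_Bdd : Prop := ∀ (d : ℕ) (J : Finset (E d)) (z : ℝ) (w : E d → ℝ), 0 < d → (∀ n, 0 ≤ w n) →
  (∀ J' ⊆ J, J'.Nonempty → ∑ n ∈ J', w n < fv z J') →
  ∃ R : ℝ, ∀ lam : J → ℝ, (∀ i, 0 ≤ lam i) →
    (∀ i, 0 < lam i → lv z (Cell J (ext J lam) i) ≤ w i) → ∀ i, lam i ≤ R

/-- (80 lines; uses `S_Cnt`, `S_Bdd`) **Existence of weights.**

Proof.  `Σ = {lam : J → ℝ | ∀ i, 0 ≤ lam i ∧ (0 < lam i → lv z C_i ≤ w i)}`, `C_i = Cell J (ext J lam) i`, contains `0`, is bounded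
(`S_Bdd`) and closed: it is the intersection of `{lam i = 0} ∪ {0 ≤ lam i ∧ lv z C_i ≤ w i}` (`S_Cnt`).  So it is compact and the
continuous function `∑ lam i` has a maximum on it at `lam` (`IsCompact.exists_isMaxOn`).  Suppose
`lv z C_i < w i`.  For small `h > 0` and `lam' = lam + h e_i` still `lv z C_i' < w i` (`S_Cnt`), and `C_j' ⊆ C_j` for `j ≠ i`
(on `C_j'` one has `f_j ≥ 0` and `exp (lam i) f_i ≤ max 0 (exp (lam i + h) f_i) ≤ exp (lam j) f_j`), so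
`lam' ∈ Σ` with a larger sum: contradiction.  `α = ext J lam ≥ 1`. -/
def S_Exi : Prop := ∀ (d : ℕ) (J : Finset (E d)) (z : ℝ) (w : E d → ℝ), 0 < d → (∀ n, 0 ≤ w n) →
  (∀ J' ⊆ J, J'.Nonempty → ∑ n ∈ J', w n < fv z J') →
  ∃ α : E d → ℝ, (∀ n ∈ J, 1 ≤ α n) ∧ ∀ n ∈ J, w n ≤ lv z (Cell J α n)

/-- (40 lines; uses `S_Cel`, `S_CBM`) **Growth.**

Proof.  `ρ = √zr > c ≥ 1/‖n‖`, so `ρ ‖n‖ > 1`; `α n = 1/(ρ ‖n‖ - 1) > 0` on `I`.  The point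
`x_n = (ρ/‖n‖) • n` is in `C_n = Cell I α n`: `α n f_n(x_n) = 1` and `f_m(x_n) ≤ ρ ‖m‖ - 1` (Cauchy-Schwarz), so
`α m f_m(x_n) ≤ 1`; and `‖x_n‖² = zr`.  Sum `S_CBM` (2) over the cells and use `S_Cel` (3). -/
def S_Grw : Prop := ∀ (d : ℕ) (I : Finset (E d)) (c zr z z' : ℝ), 0 < d → 0 < c → c ^ 2 < zr →
  zr < z → z < z' → (∀ n ∈ I, 1 / c ≤ ‖n‖) →
  fv z' I ≤ ((z' - zr) / (z - zr)) ^ d * fv z I

/-! ## Layers -/

/-- (120 lines) **One step of the layering.**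

Proof.  For `x ∈ Uh H J` let `s = Nat.log 2 (m_J x)`, so `2^s ≤ m_J x < 2^(s+1)`, `s < T`.  If `x ∉ Vs` then
`m_J x ≤ 2 m_bad x`, so `1 ≤ ∑_(i ∈ bad) [x ∈ H i] · 2/2^s`.  Hence the indicator of `Uh H J \ Vs` is at most
`∑_(i ∈ bad) ∑_(s < T) (2/2^s) [x ∈ H i, m_J x < 2^(s+1)]`, and integrating (all functions are finite sums of
indicators of measurable sets; `m_J` is a measurable function as a sum of indicators)
`μ (Uh H J) - μ Vs ≤ ∑_(i ∈ bad) ∑_(s < T) (2/2^s) 2^s/(8 T) ≤ |bad|/4 ≤ |J|/4`. -/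
def S_LayA : Prop := ∀ (X ι : Type) [MeasurableSpace X] (μ : Measure X) [IsFiniteMeasure μ]
  (H : ι → Set X) (T : ℕ) (J : Finset ι), (∀ i, MeasurableSet (H i)) → 0 < T → J.card < 2 ^ T →
  (J.card : ℝ) ≤ μ.real (Uh H J) → 3 / 4 * (J.card : ℝ) ≤ μ.real (Vs μ H T J)

/-- (80 lines) **A point is in few of the sets.**

Proof.  `J_k = (bad μ H T)^[k] J`.  Pointwise, by induction on `n` (`Nat.size`, the number of binary digits; `bad J ⊆ J`, so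
`m_(J_(k+1)) ≤ m_(J_k)`, and `2 m' < m` implies `Nat.size m' + 1 ≤ Nat.size m`):
`∑_(k < n) [x ∈ Vs (J_k)] + Nat.size (m_(J_n) x) ≤ Nat.size (m_J x)`; the right side is `≤ T` (`m_J x ≤ |J| < 2^T`) and `0` if
`x ∉ Uh H J`.  Integrate. -/
def S_LayB : Prop := ∀ (X ι : Type) [MeasurableSpace X] (μ : Measure X) [IsFiniteMeasure μ]
  (H : ι → Set X) (T : ℕ) (J : Finset ι), (∀ i, MeasurableSet (H i)) → J.card < 2 ^ T →
  ∀ n, ∑ k ∈ Finset.range n, μ.real (Vs μ H T ((bad μ H T)^[k] J)) ≤ T * μ.real (Uh H J)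

/-- (120 lines; uses `S_LayA`, `S_LayB`) **Layering.**

Proof.  `J_k` as in `S_LayB`, decreasing.  If `|J| ≤ 2 |J_k|` for all `k < n` then by `S_LayA`, `S_LayB`
`(3/8) |J| n ≤ ∑_(k<n) (3/4) |J_k| ≤ T Λ |J|`, so `n ≤ (8/3) T Λ`.  Let `K` be the smallest `k` with `2 |J_k| < |J|` (`K ≥ 1`,
`K ≤ (8/3) T Λ`).  `∑_(k<K) |J_k \ J_(k+1)| = |J| - |J_K| > |J|/2`, so for some `k < K`:
`|J_k \ J_(k+1)| ≥ |J|/(2K) ≥ 3 |J|/(16 T Λ)`.  An element `i` of this set is not bad for `J_k`: there is `s < T` with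
`2^s/(8 T) ≤ μ (H i ∩ {m_(J_k) < 2^(s+1)})`.  Pigeonhole over `s < T`: `J1 ⊆ J_k` with
`|J1| ≥ 3 |J|/(16 T² Λ) ≥ |J|/(6 T² Λ)` and the same `s`; `m_(J1) ≤ m_(J_k)`. -/
def S_Lay : Prop := ∀ (X ι : Type) [MeasurableSpace X] (μ : Measure X) [IsFiniteMeasure μ]
  (H : ι → Set X) (T : ℕ) (J : Finset ι) (L : ℝ), (∀ i, MeasurableSet (H i)) → J.Nonempty →
  J.card < 2 ^ T → (∀ J' ⊆ J, (J'.card : ℝ) ≤ μ.real (Uh H J')) →
  μ.real (Uh H J) ≤ L * J.card →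
  ∃ J1 ⊆ J, J1.Nonempty ∧ ∃ s < T, (J.card : ℝ) ≤ 6 * T ^ 2 * L * J1.card ∧
    ∀ i ∈ J1, 2 ^ s / (8 * (T : ℝ)) ≤ μ.real (H i ∩ {x | mlt H J1 x < 2 ^ (s + 1)})

/-- (60 lines; uses `S_Lay`) **Layering for two measures.**

Proof.  `S_Lay` for `μ`: `J1`, `s`, `|D| ≤ 6 T² L |J1|`.  `ν (Uh H J1) ≤ ν (Uh H D) ≤ L |D| ≤ 6 T² L² |J1|`; `S_Lay` for `ν`, `J1` and
`L' = 6 T² L²`: `J2`, `s'`, `|J1| ≤ 36 T⁴ L² |J2|`.  Together `|D| ≤ 216 T⁶ L³ |J2|`.  The condition for `μ` is inherited by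
`J2 ⊆ J1` (`m_(J2) ≤ m_(J1)`). -/
def S_Dbl : Prop := ∀ (X ι : Type) [MeasurableSpace X] (μ ν : Measure X) [IsFiniteMeasure μ]
  [IsFiniteMeasure ν] (H : ι → Set X) (T : ℕ) (D : Finset ι) (L : ℝ), (∀ i, MeasurableSet (H i)) →
  D.Nonempty → D.card < 2 ^ T → (∀ J ⊆ D, (J.card : ℝ) ≤ μ.real (Uh H J)) →
  (∀ J ⊆ D, (J.card : ℝ) ≤ ν.real (Uh H J)) → μ.real (Uh H D) ≤ L * D.card →
  ν.real (Uh H D) ≤ L * D.card →
  ∃ J ⊆ D, J.Nonempty ∧ (D.card : ℝ) ≤ 216 * T ^ 6 * L ^ 3 * J.card ∧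
    ∃ s < T, ∃ s' < T, ∀ i ∈ J,
      2 ^ s / (8 * (T : ℝ)) ≤ μ.real (H i ∩ {x | mlt H J x < 2 ^ (s + 1)}) ∧
      2 ^ s' / (8 * (T : ℝ)) ≤ ν.real (H i ∩ {x | mlt H J x < 2 ^ (s' + 1)})

/-! ## Colours -/

/-- (150 lines) **Random colouring.**

Proof.  For `χ : ι → Fin a` and `i`, `x` let `N(χ, i, x)` be the number of `j ≠ i` with `χ j = χ i`, `x ∈ H j`.  With `m = |ι|` (the number of elements)
`∑_χ N(χ, i, x) = ∑_(j ≠ i, x ∈ H j) #{χ : χ j = χ i} ≤ a^(m-1) m_univ(x)` (`#{χ | χ j = χ i} = a^(m-1)` for `j ≠ i`; or: `a` times this number is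
`a^m`), which is `≤ 2 a^m` for `x ∈ Y` and `≤ 2 a^m (b/a)` for `x ∈ Z`.  Markov: if `i` is spoiled for `χ` at `Y`, i.e.
`μ (H i ∩ Y ∩ {N > 16}) > μ (H i ∩ Y)/2`, then `∫_(H i ∩ Y) N dμ ≥ 8 μ (H i ∩ Y)` and `μ (H i ∩ Y) > 0`, so at most `a^m/4` maps `χ` are spoiled for
`i` at `Y`.  In the same way for `Z` with `{a N > 16 b}`.  So `∑_χ #{i not spoiled} ≥ a^m m/2`: there is `χ` with `≥ m/2` unspoiled
`i`, and a colour with at least `m/(2a)` of them; `A` = these `i`.  For `i ∈ A`, `x`: `m_A(x) ≤ N(χ, i, x) + 1`. So on the good half of `H i ∩ Y`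
`m_A ≤ 17`, and on the good half of `H i ∩ Z`: `a m_A ≤ 16 b + a ≤ 17 b`.  (`N` is a finite sum of indicators; `μ (S \ {N > 16}) ≥ μ S/2`.) -/
def S_Col : Prop := ∀ (X ι : Type) [MeasurableSpace X] [Fintype ι] (μ ν : Measure X)
  [IsFiniteMeasure μ] [IsFiniteMeasure ν] (H : ι → Set X) (Y Z : Set X) (a b : ℕ), 0 < a → a ≤ b →
  (∀ i, MeasurableSet (H i)) → MeasurableSet Y → MeasurableSet Z →
  (∀ x ∈ Y, mlt H Finset.univ x ≤ 2 * a) → (∀ x ∈ Z, mlt H Finset.univ x ≤ 2 * b) →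
  ∃ A : Finset ι, (Fintype.card ι : ℝ) ≤ 2 * a * A.card ∧ ∀ i ∈ A,
    μ.real (H i ∩ Y) ≤ 2 * μ.real (H i ∩ (Y ∩ {x | mlt H A x ≤ 17})) ∧
    ν.real (H i ∩ Z) ≤ 2 * ν.real (H i ∩ (Z ∩ {x | a * mlt H A x ≤ 17 * b}))

/-- (200 lines; uses `S_Col`) **Selection, the case `s ≤ s'`.**

Proof.  `a = 2^s`, `b = 2^(s')`, `Y0 = {m_J < 2 a}`, `Z0 = {m_J < 2 b}`.  `∑_(i ∈ J) μ (H i ∩ Y0) = ∫_(Y0) m_J dμ ≤ 2 a μ (Uh H J) ≤ 2 a L |D| ≤ 2 a L3 |J|`,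
`L3 = 216 T⁶ L⁴` (`L ≥ 1` because `|D| ≤ μ (Uh H D) ≤ L |D|`).  So `J' = {i ∈ J : μ (H i ∩ Y0) ≤ 4 a L3}` has `|J'| ≥ |J|/2` elements.
`S_Col` for the index type `J'` (`m_(J') ≤ m_J`): `A ⊆ J'`, `|J'| ≤ 2 a |A|`.  Put `Y = Y0 ∩ {m_A ≤ 17}`, `Z = Z0 ∩ {a m_A ≤ 17 b}`, `w = a/(272 T)`.
(1) For `K ⊆ A`: `|K| b/(16 T) ≤ ∑_(i ∈ K) ν (H i ∩ Z) = ∫_Z m_K dν ≤ (17 b/a) ν (Uh H K)` (`m_K ≤ m_A`, zero outside of `Uh H K`), so
`|K| w ≤ ν (Uh H K)`.  (2) `|A| a/(16 T) ≤ ∑_(i ∈ A) μ (H i ∩ Y) = ∫_Y m_A dμ ≤ 17 μ (Uh H A ∩ Y)`.  (3) `μ (H i ∩ Y) ≤ 4 a L3 = 1088 T L3 w ≤ P w`.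
(4) `|D| ≤ 216 T⁶ L³ |J| ≤ 432 T⁶ L³ |J'| ≤ 864 T⁶ L³ a |A| = 235008 T⁷ L³ |A| w ≤ P |A| w`.  (Transport from the index type `J'` to `ι` with
`Finset.map (Function.Embedding.subtype _)`.) -/
def S_SelA : Prop := ∀ (X ι : Type) [MeasurableSpace X] (μ ν : Measure X) [IsFiniteMeasure μ]
  [IsFiniteMeasure ν] (H : ι → Set X) (T : ℕ) (D J : Finset ι) (L : ℝ) (s s' : ℕ),
  (∀ i, MeasurableSet (H i)) → 0 < T → (∀ K ⊆ D, (K.card : ℝ) ≤ μ.real (Uh H K)) →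
  μ.real (Uh H D) ≤ L * D.card → J ⊆ D → J.Nonempty →
  (D.card : ℝ) ≤ 216 * T ^ 6 * L ^ 3 * J.card → s ≤ s' →
  (∀ i ∈ J, 2 ^ s / (8 * (T : ℝ)) ≤ μ.real (H i ∩ {x | mlt H J x < 2 ^ (s + 1)}) ∧
    2 ^ s' / (8 * (T : ℝ)) ≤ ν.real (H i ∩ {x | mlt H J x < 2 ^ (s' + 1)})) →
  IsSel μ ν H D (235008 * T ^ 7 * L ^ 4)

/-- (30 lines; uses `S_Dbl`, `S_SelA`) **Selection.**

Proof.  `S_Dbl` gives `J`, `s`, `s'`.  If `s ≤ s'` apply `S_SelA`; otherwise `S_SelA` with `μ`, `ν` exchanged (and `s`, `s'`). -/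
def S_Sel : Prop := ∀ (X ι : Type) [MeasurableSpace X] (μ ν : Measure X) [IsFiniteMeasure μ]
  [IsFiniteMeasure ν] (H : ι → Set X) (T : ℕ) (D : Finset ι) (L : ℝ), (∀ i, MeasurableSet (H i)) →
  D.Nonempty → D.card < 2 ^ T → (∀ J ⊆ D, (J.card : ℝ) ≤ μ.real (Uh H J)) →
  (∀ J ⊆ D, (J.card : ℝ) ≤ ν.real (Uh H J)) → μ.real (Uh H D) ≤ L * D.card →
  ν.real (Uh H D) ≤ L * D.card →
  IsSel μ ν H D (235008 * T ^ 7 * L ^ 4) ∨ IsSel ν μ H D (235008 * T ^ 7 * L ^ 4)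

/-! ## Tightness -/

/-- (180 lines) **An extremal subfamily is tight for both functions.**

Proof.  `F J > 0` for nonempty `J ⊆ I` (as `1 ≤ |J| ≤ A F J`).  For nonempty `J ⊆ I` let `a(J)` be the maximum of `|J'|/F J'` over the nonempty
`J' ⊆ J`, `b(J)` the same with `G` (`Finset.sup'`, `Finset.exists_mem_eq_sup'`), `Φ(J) = |J|/(a(J)^(1-l) b(J)^l)`; `0 < a(J) ≤ A`, `0 < b(J) ≤ B`, both are
monotone in `J`.  `J*` a nonempty subset of `I` with maximal `Φ`; `Φ(J*) ≥ Φ(I) ≥ |I|/(A^(1-l) B^l)`.  `A' = a(J*)`, `B' = b(J*)`.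
(1) `D1` a subset of `J*` with `A' F D1 ≤ L |D1|` and with the largest number of elements (the set where `a(J*)` is attained has this property, `L ≥ 1`).
Then `|J*| ≤ 2 |D1|`: otherwise `E = J* \ D1` is nonempty, `|E| > |J*|/2`, and for nonempty `J' ⊆ E` (disjoint from `D1`): `A' F (D1 ∪ J') > L |D1 ∪ J'|` by
maximality, so `A' F J' ≥ A' F (D1 ∪ J') - A' F D1 > L |J'|`.  Hence `a(E) ≤ A'/L`, `b(E) ≤ B'` and
`Φ(E) ≥ (|J*|/2) L^(1-l)/(A'^(1-l) B'^l) > Φ(J*)` (`L^(1-l) > 4`), a contradiction.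
(2) `D` a subset of `D1` with `B' G D ≤ L |D|` and the largest number of elements (the empty set is one if `G ∅ = 0`; to avoid this: if there is no nonempty
subset of `D1` with `B' G ≤ L |·|` then argue as below with `D1` in the place of `D1 \ D`).  Then `|J*| ≤ 4 |D|`: otherwise `E = D1 \ D` has more than
`|J*|/4` elements, `b(E) ≤ B'/L`, `a(E) ≤ A'`, `Φ(E) ≥ (|J*|/4) L^l/(…) > Φ(J*)`.  (3) `A' F D ≤ A' F D1 ≤ L |D1| ≤ L |J*| ≤ 4 L |D|`.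
For `J ⊆ D` nonempty: `|J| ≤ a(J*) F J`; for `J = ∅`: `0 ≤ F ∅` as `0 ≤ A F ∅`. -/
def S_Tgt : Prop := ∀ (ι : Type) [DecidableEq ι] (I : Finset ι) (F G : Finset ι → ℝ)
  (A B l L : ℝ), I.Nonempty → 0 < A → 0 < B → 0 < l → l < 1 → 1 ≤ L → 4 < L ^ l →
  4 < L ^ (1 - l) → (∀ J K, J ⊆ K → F J ≤ F K) → (∀ J K, J ⊆ K → G J ≤ G K) →
  (∀ J K, F (J ∪ K) ≤ F J + F K) → (∀ J K, G (J ∪ K) ≤ G J + G K) →
  (∀ J ⊆ I, (J.card : ℝ) ≤ A * F J) → (∀ J ⊆ I, (J.card : ℝ) ≤ B * G J) →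
  ∃ D ⊆ I, D.Nonempty ∧ ∃ A' B' : ℝ, 0 < A' ∧ 0 < B' ∧
    (∀ J ⊆ D, (J.card : ℝ) ≤ A' * F J) ∧ (∀ J ⊆ D, (J.card : ℝ) ≤ B' * G J) ∧
    A' * F D ≤ 4 * L * D.card ∧ B' * G D ≤ 4 * L * D.card ∧
    (I.card : ℝ) / (A ^ (1 - l) * B ^ l) ≤ 4 * (D.card / (A' ^ (1 - l) * B' ^ l))

/-! ## The interpolation theorem -/

/-- (100 lines; uses `S_Cel`, `S_CBM`, `S_Exi`) **From a selection to the middle level.**

Here `μ = A vol|Bz z1`, `ν = B vol|Bz z2` and the conclusion is for the level `(1 - l) z1 + l z2`; it is used a second time with `z1`, `z2` and `1 - l`, `l`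
exchanged.  Proof.  `IsSel`: `K ⊆ D` (this is `A` in the definition), `w`, `Y`.  For nonempty `K' ⊆ K`: `∑_(K') w/(2B) = |K'| w/(2B) < |K'| w/B ≤ fv z2 K'`
(`ν.real (Uh H K') = B fv z2 K'`).  `S_Exi` (level `z2`, weights `w/(2B)`): `α` with `w/2 ≤ B lv z2 C_n`, `n ∈ K`, `C_n = Cell K α n`.
Let `t_n = A vol (C_n ∩ Bz z1 ∩ Y)`; `t_n ≤ μ.real (H n ∩ Y) ≤ P w` (`C_n` is contained in `{0 ≤ f_n}`, which differs from `H n` by a null set; `n ≠ 0`) and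
`∑ t_n ≥ μ.real (Uh H K ∩ Y) ≥ |K| w` (the cells cover `Un K`).  `S_CBM` (1) in every cell and `S_Cel` (3):
`A^(1-l) B^l fv z0 K ≥ ∑ (A lv z1 C_n)^(1-l) (B lv z2 C_n)^l ≥ (w/2)^l ∑ t_n^(1-l) ≥ (w/2)^l (P w)^(-l) ∑ t_n` (`t^(1-l) ≥ t T^(-l)` for `0 ≤ t ≤ T`, `T > 0`)
`≥ (2P)^(-l) |K| w ≥ (2P)^(-l) |D|/P ≥ |D|/(2 P²)` (`P ≥ 1`; `(2P)^l ≤ 2P`).  `fv z0 K ≤ fv z0 D`. -/
def S_Mid : Prop := ∀ (d : ℕ) (D : Finset (E d)) (z1 z2 l A B P : ℝ), 0 < d → 0 < A → 0 < B →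
  0 < l → l < 1 → 1 ≤ P → (∀ n ∈ D, n ≠ 0) →
  IsSel (ENNReal.ofReal A • volume.restrict (Bz d z1)) (ENNReal.ofReal B • volume.restrict (Bz d z2))
    (fun n : E d => {x | 1 < inner ℝ n x}) D P →
  (D.card : ℝ) ≤ 2 * P ^ 2 * (A ^ (1 - l) * B ^ l * fv ((1 - l) * z1 + l * z2) D)

/-- (120 lines; uses `S_Sel`, `S_Tgt`, `S_Mid`) **The interpolation theorem, equal weights.**

Proof.  `S_Tgt` with `F = fv z1`, `G = fv z2` (monotone and subadditive: `Un (J ∪ K) = Un J ∪ Un K`): `D`, `A'`, `B'`.  `T ≥ 1` as `I` is nonempty and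
`I.card < 2^T`.  `μ = A' vol|Bz z1`, `ν = B' vol|Bz z2` (finite measures), `H n = {x | 1 < ⟨n, x⟩}`, `Uh H J = Un J`, `μ.real (Uh H J) = A' fv z1 J`.
`S_Sel` with `4 L`: `IsSel` for `P = 235008 T⁷ (4L)⁴ ≥ 1` in one of the two orders.  `S_Mid` (in the second case with `z1`, `z2`, `A'`, `B'`, `l`, `1 - l` exchanged):
`|D| ≤ 2 P² A'^(1-l) B'^l fv z0 D`.  So `|I| ≤ A^(1-l) B^l · 4 |D|/(A'^(1-l) B'^l) ≤ 8 P² A^(1-l) B^l fv z0 D`, `fv z0 D ≤ fv z0 I`. -/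
def S_IntU : Prop := ∀ (d : ℕ) (I : Finset (E d)) (T : ℕ) (z1 z2 l A B L : ℝ), 0 < d → 0 < A →
  0 < B → 0 < l → l < 1 → 1 ≤ L → 4 < L ^ l → 4 < L ^ (1 - l) → I.Nonempty → I.card < 2 ^ T →
  (∀ n ∈ I, n ≠ 0) → (∀ J ⊆ I, (J.card : ℝ) ≤ A * fv z1 J) →
  (∀ J ⊆ I, (J.card : ℝ) ≤ B * fv z2 J) →
  (I.card : ℝ) ≤ 8 * (235008 * T ^ 7 * (4 * L) ^ 4) ^ 2 *
    (A ^ (1 - l) * B ^ l * fv ((1 - l) * z1 + l * z2) I)

/-- (120 lines; uses `S_IntU`) **The interpolation theorem.**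

Proof.  `W = max_I w`; if `W = 0` the left side is `0`.  For `k ≤ T` let `I_k = {n ∈ I : W/2^(k+1) < w n ≤ W/2^k}`.  The elements of `I` which are in none of the
`I_k`, `k ≤ T`, have `w n ≤ W/2^(T+1)`, together at most `|I| W/2^(T+1) ≤ W/2 ≤ w(I)/2`.  So `w(I_k) ≥ w(I)/(2 (T+1))` for some `k ≤ T`, `I_k` is nonempty.  With
`v = W/2^(k+1)`: for `J ⊆ I_k`: `|J| v ≤ w(J) ≤ A fv z1 J`.  `S_IntU` for `I_k` with `A/v`, `B/v`: `|I_k| ≤ (…) A^(1-l) B^l v⁻¹ fv z0 I_k`, and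
`w(I) ≤ 2 (T+1) w(I_k) ≤ 2 (T+1) · 2 v |I_k|`. -/
def S_Int : Prop := ∀ (d : ℕ) (I : Finset (E d)) (w : E d → ℝ) (T : ℕ) (z1 z2 l A B L : ℝ), 0 < d →
  0 < A → 0 < B → 0 < l → l < 1 → 1 ≤ L → 4 < L ^ l → 4 < L ^ (1 - l) → I.card < 2 ^ T →
  (∀ n ∈ I, n ≠ 0) → (∀ n, 0 ≤ w n) → (∀ J ⊆ I, ∑ n ∈ J, w n ≤ A * fv z1 J) →
  (∀ J ⊆ I, ∑ n ∈ J, w n ≤ B * fv z2 J) →
  ∑ n ∈ I, w n ≤ 32 * (T + 1) * (235008 * T ^ 7 * (4 * L) ^ 4) ^ 2 *
    (A ^ (1 - l) * B ^ l * fv ((1 - l) * z1 + l * z2) I)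

end Pool.Agent.Lib.MP_0c1c75_co.KPI
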