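import Pool.Agent.Lib.MP_0c1c75_co.KPI.SpecA
import Pool.Agent.Lib.MP_0c1c75_co.KPI.Iface

/-!
# MP_0c1c75_co, project KPI, part B: the class theorem (`S_Cls`)

Conventions as in `SpecA.lean`.
-/

set_option autoImplicit false

open MeasureTheory Set Metric

namespace Pool.Agent.Lib.MP_0c1c75_co.KPI

/-- The integral of (STAR) at the temperature `S`. -/
noncomputable def Fs {d : ℕ} (S a : ℝ) (J : Finset (E d)) : ℝ :=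
  ∫ x in Un J ∩ Bz d (1 + S), ((1 + S - ‖x‖ ^ 2) / S) ^ a

/-- The factor lost by the interpolation theorem. -/
noncomputable def pol (T : ℕ) (L : ℝ) : ℝ := 32 * (T + 1) * (235008 * T ^ 7 * (4 * L) ^ 4) ^ 2

/-- (130 lines; uses `S_Star`) **Weights.**

Proof.  For `i ∈ I` the piece `Q i` is the set of the `x` with `‖x‖² ≤ 1`, `r i² < ‖x - q i‖²` and not `r j² < ‖x - q j‖²` for the `j ∈ I`, `j < i`; the `Q i` are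
measurable, pairwise disjoint, of finite volume and their union is the set in `Gt q r I 0`.  `w n = ∑ (volume of Q i)` over `i ∈ I` with `nv (p i) (r i) = n`.  So
`∑_(n ∈ Nv p r I) w n = Gt q r I 0` (`Finset.sum_fiberwise_of_maps_to` or similar).  For `J ⊆ Nv p r I` let `I' = {i ∈ I : nv (p i) (r i) ∈ J}`, `Nv p r I' = J`;
`∑_J w` is the volume of the union of the `Q i`, `i ∈ I'`, hence `≤ Gt q r I' 0` and `S_Star` applies to `I'` (`0 < e < ‖p i‖`).  If `e < 1` then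
`‖p i‖ ≤ 2 e` on `I`, the second form: `a = d/2 - 2`; if `e = 1` the first form: `a = d/2 - 1`.  In both cases the factor is `≤ (2 d √(1+S)/S + 1) e`
(the integral `Fs` is nonnegative). -/
def S_Mrg : Prop := ∀ (d N : ℕ) (p q : Fin N → E d) (r : Fin N → ℝ) (I : Finset (Fin N)) (e : ℝ),
  8 ≤ d → Contr 1 p q → (∀ i, ‖q i‖ ≤ ‖p i‖) → (∀ i, 0 ≤ r i) →
  (∀ i ∈ I, 0 < kap (p i) (r i)) → 0 < e → e ≤ 1 → (∀ i ∈ I, InC e ‖p i‖) →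
  ∃ (w : E d → ℝ) (a : ℝ), (∀ n, 0 ≤ w n) ∧ 0 ≤ a ∧ a ≤ (d : ℝ) / 2 ∧
    ∑ n ∈ Nv p r I, w n = Gt q r I 0 ∧
    ∀ J ⊆ Nv p r I, ∀ S : ℝ, 0 < S →
      ∑ n ∈ J, w n ≤ (2 * d * Real.sqrt (1 + S) / S + 1) * e * Fs S a J

/-- (100 lines) **Levels.**

Proof.  Let `x ∈ Un J`, `‖x‖² ≤ 1 + S`; `x ≠ 0`.  `k = ⌈m ‖x‖²⌉₊ - 1`: `k/m < ‖x‖² ≤ (k+1)/m`, `k < M`, `k/m < 1 + S`, and
`((1+S-‖x‖²)/S)^a ≤ ((1+S-k/m)/S)^a`.  So the integrand (times the indicator of `Un J ∩ Bz d (1+S)`) is at most the sum over `k < M`, `k/m < 1+S`, of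
`((1+S-k/m)/S)^a` times the indicator of `Un J ∩ Bz d ((k+1)/m)`; integrate (`setIntegral` = integral of an indicator; bounded measurable functions on a
bounded set are integrable). -/
def S_Dsc : Prop := ∀ (d m M : ℕ) (J : Finset (E d)) (S a : ℝ), 0 < d → 0 < m → 0 < S → 0 ≤ a →
  (1 + S) * m ≤ M →
  Fs S a J ≤ ∑ k ∈ Finset.range M,
    (if (k : ℝ) / m < 1 + S then ((1 + S - k / m) / S) ^ a * fv ((k + 1) / m) J else 0)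

/-- (100 lines) **Deficiency argument.**

Proof.  For `k < M` let `B k ⊆ I` be a subset with `4 M ψ k (B k) ≤ w(B k)` and the largest number of elements (`∅` has the property).  For `J' ⊆ I \ B k`:
`w(J') ≤ 4 M ψ k J'`; otherwise `J'` is nonempty and `B k ∪ J'` has the property (`w` is additive, `ψ k` is subadditive) and more elements.
If `w(I) ≤ 2 M w(I \ B k)` for some `k < M`, put `J = I \ B k`.  Otherwise `w(I \ B k) < w(I)/(2M)` for all `k < M`; `J0` the intersection of the `B k` (elements of `I` in all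
`B k`): `w(I \ J0) ≤ ∑_k w(I \ B k) < w(I)/2`, so `w(J0) > w(I)/2`, but `w(J0) ≤ ∑_k ψ k J0 ≤ ∑_k ψ k (B k) ≤ ∑_k w(B k)/(4M) ≤ w(I)/4`, a contradiction (`w(I) > 0` here). -/
def S_Dfc : Prop := ∀ (ι : Type) [DecidableEq ι] (I : Finset ι) (w : ι → ℝ) (M : ℕ)
  (ψ : ℕ → Finset ι → ℝ), 0 < M → (∀ i, 0 ≤ w i) → (∀ k, ψ k ∅ = 0) →
  (∀ k J K, J ⊆ K → ψ k J ≤ ψ k K) → (∀ k J K, ψ k (J ∪ K) ≤ ψ k J + ψ k K) →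
  (∀ J ⊆ I, ∑ i ∈ J, w i ≤ ∑ k ∈ Finset.range M, ψ k J) →
  ∃ J ⊆ I, ∃ k < M, ∑ i ∈ I, w i ≤ 2 * M * ∑ i ∈ J, w i ∧
    ∀ J' ⊆ J, ∑ i ∈ J', w i ≤ 4 * M * ψ k J'

/-- (60 lines; uses `S_Dfc`) **Nested version.**

Proof.  Induction on `n`: `S_Dfc` for the family `J` of the step before, with `ψ n`. -/
def S_Nst : Prop := ∀ (ι : Type) [DecidableEq ι] (I : Finset ι) (w : ι → ℝ) (M : ℕ)
  (ψ : ℕ → ℕ → Finset ι → ℝ), 0 < M → (∀ i, 0 ≤ w i) → (∀ j k, ψ j k ∅ = 0) →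
  (∀ j k J K, J ⊆ K → ψ j k J ≤ ψ j k K) → (∀ j k J K, ψ j k (J ∪ K) ≤ ψ j k J + ψ j k K) →
  ∀ n : ℕ, (∀ j < n, ∀ J ⊆ I, ∑ i ∈ J, w i ≤ ∑ k ∈ Finset.range M, ψ j k J) →
  ∃ J ⊆ I, ∑ i ∈ I, w i ≤ (2 * (M : ℝ)) ^ n * ∑ i ∈ J, w i ∧
    ∀ j < n, ∃ k < M, ∀ J' ⊆ J, ∑ i ∈ J', w i ≤ 4 * M * ψ j k J'

/-- (180 lines; uses `S_Int`) **The three cases.**

Proof.  `δ = 1/m`, `s_j = s0 ρ^j`, `y_j = (k j)/m` (lower level), `z_j = (k j + 1)/m = y_j + δ`, `g_j = ((1 + s_j - y_j)/s_j)^a`, `X = exp (a (1/(s0 ρ^n) + log ρ + 1/(m s0)))`.  If `J = ∅` trivial; otherwise `T ≥ 1`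
and `pol T L ≥ 1`.  All `fv z J` with `z ≤ 1 + s0 + δ` are `≤ fv (1 + s0 + δ) J`.
(i) `z_n ≤ 1`: `g_n ≤ (1 + 1/s_n)^a ≤ X` (`0 ≤ y_n`), level `z_n ≤ 1`.
(ii) `z_0 > 1`: then `k 0 + 1 > m`, `y_0 ≥ 1`, `g_0 ≤ 1`, and `z_0 = y_0 + δ < 1 + s0 + δ`.
(iii) Otherwise there is `j < n` with `z_j ≤ 1 < z_(j+1)`.  If `z_j = 1` then `y_j = 1 - δ` and `g_j = (1 + δ/s_j)^a ≤ X`, level `1`.  If `z_j < 1` then `z_j ≤ 1 - δ`, `z_(j+1) ≥ 1 + δ`, and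
`z_(j+1) < 1 + s_n + δ ≤ 2 + s_n`.  `l = (1 - z_j)/(z_(j+1) - z_j)`: `l, 1 - l ≥ δ/(2 + s_n)`, so `L^l ≥ 5`, `L^(1-l) ≥ 5` (`L ≥ 5^(m (2 + s_n))`).  `S_Int` with `z1 = z_j`, `z2 = z_(j+1)`, constants `A g_j`, `A g_(j+1)` (both positive because `y < 1 + s`):
`w(J) ≤ pol T L · A g_j^(1-l) g_(j+1)^l fv 1 J`.  `(1 + s_j - y_j)/s_j = 1 + (1 - y_j)/s_j ≤ ρ (1 + (1 - y_j)/s_(j+1))` (`y_j ≤ 1`), so with `s = s_(j+1)`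
`g_j^(1-l) g_(j+1)^l ≤ [ρ^(1-l) (1+s-y_j)^(1-l) (1+s-y_(j+1))^l / s]^a ≤ [ρ (s + δ)/s]^a ≤ X` by the weighted AM-GM inequality: `(1-l) y_j + l y_(j+1) = 1 - δ`. -/
def S_Cas : Prop := ∀ (d : ℕ) (J : Finset (E d)) (w : E d → ℝ) (T m n : ℕ) (A a s0 ρ L : ℝ)
  (k : ℕ → ℕ), 0 < d → 0 < m → 0 < A → 0 ≤ a → 0 < s0 → 1 < ρ → J.card < 2 ^ T →
  (∀ v ∈ J, v ≠ 0) → (∀ v, 0 ≤ w v) → (5 : ℝ) ^ ((m : ℝ) * (2 + s0 * ρ ^ n)) ≤ L →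
  (∀ j ≤ n, (k j : ℝ) / m < 1 + s0 * ρ ^ j) →
  (∀ j ≤ n, ∀ J' ⊆ J, ∑ v ∈ J', w v ≤
    A * (((1 + s0 * ρ ^ j - k j / m) / (s0 * ρ ^ j)) ^ a * fv ((k j + 1) / m) J')) →
  ∑ v ∈ J, w v ≤ pol T L * Real.exp (a * (1 / (s0 * ρ ^ n) + Real.log ρ + 1 / (m * s0))) *
    (A * fv (1 + s0 + 1 / m) J)

/-- (60 lines) **Polynomial factors.**

Proof.  The left side is at most a polynomial in `d` (`T ≤ 2 K d + 1`), which is `O(exp (ε d))` (`isLittleO_pow_exp_atTop` or similar). -/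
def S_Pol : Prop := ∀ (K L ε C : ℝ), 0 < K → 0 < L → 0 < ε → 0 < C → ∃ d1 : ℕ, ∀ d ≥ d1, ∀ T : ℕ,
  (T : ℝ) ≤ 2 * K * d + 1 → C * d * pol T L ≤ Real.exp (ε * d)

/-- (80 lines) **Choice of the constants.**

Proof.  `zr = (1 + c²)/2`; `τ ∈ (0, 1)`, `τ < 1 - zr`, with `log ((1 + τ - zr)/(1 - τ - zr)) ≤ ε` (continuity at `τ = 0`).  `s0 = τ/2`, `ρ = exp ε`, `m` with `1/m ≤ τ/2` and
`1/(m s0) ≤ ε`, `n` with `1/(s0 ρ^n) ≤ ε`. -/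
def S_Cst : Prop := ∀ (c ε : ℝ), 0 < c → c < 1 → 0 < ε → ∃ (zr τ s0 ρ : ℝ) (m n : ℕ),
  c ^ 2 < zr ∧ zr < 1 - τ ∧ 0 < τ ∧ τ < 1 ∧ 0 < s0 ∧ 1 < ρ ∧ 0 < m ∧ s0 + 1 / (m : ℝ) ≤ τ ∧
  (1 + τ - zr) / (1 - τ - zr) ≤ Real.exp ε ∧ Real.log ρ ≤ ε ∧ 1 / ((m : ℝ) * s0) ≤ ε ∧
  1 / (s0 * ρ ^ n) ≤ ε

/-- (200 lines; uses `S_Grw`, `S_Dsc`, `S_Nst`, `S_Cas`, `S_Pol`, `S_Cst`) **Abstract class theorem.**

Proof.  `S_Cst` for `c`, `ε/8`.  `SS` = the `s_j = s0 ρ^j`, `j ≤ n`; `M = ⌈(1 + s_n) m⌉₊ + 1`; `L = 5^(m (2 + s_n))`; `η3 = τ`.  Let `d ≥ d1` (`S_Pol` for `K`, `L`, `ε/8`, `C = (2M)^(n+1) · 4M`, `d1 ≥ 1`).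
`ψ j k J = A ((1+s_j-k/m)/s_j)^a fv ((k+1)/m) J` if `k/m < 1 + s_j`, and `0` otherwise: monotone and subadditive in `J`, `0` for `J = ∅` (`fv` is monotone, subadditive: `Un (J ∪ K) = Un J ∪ Un K`).  `S_Dsc`: the hypothesis
of `S_Nst` for `n + 1`: `J ⊆ I`, `w(I) ≤ (2M)^(n+1) w(J)`, and for `j ≤ n` some `k j < M` with `w(J') ≤ 4 M ψ j (k j) J'` for `J' ⊆ J`.  If `w(J) = 0` then `w(I) = 0`, done.  Otherwise `ψ j (k j) J > 0`, so `(k j)/m < 1 + s_j`.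
`T = Nat.size J.card`: `J.card < 2^T` and `2^(T-1) ≤ J.card ≤ exp (K d)`, so `T - 1 ≤ K d/log 2 ≤ 2 K d`.  `S_Cas` with `4 M A`: `w(J) ≤ pol T L · exp (a · 3 ε/8) · 4 M A fv (1 + s0 + 1/m) J`, `a ≤ d/2`.
`S_Grw` (`z = 1 - τ`, `z' = 1 + τ ≥ 1 + s0 + 1/m`): `fv (1 + s0 + 1/m) J ≤ fv (1+τ) J ≤ exp (ε d/8) fv (1 - τ) J ≤ exp (ε d/8) fv (1-τ) I`.  Total exponent `3ε/16 + ε/8 + ε/8 ≤ ε`. -/
def S_ClsA : Prop := ∀ c ε K : ℝ, 0 < c → c < 1 → 0 < ε → 0 < K →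
  ∃ (η3 : ℝ) (SS : Finset ℝ), 0 < η3 ∧ η3 < 1 ∧ SS.Nonempty ∧ (∀ S ∈ SS, 0 < S) ∧ ∃ d1 : ℕ, ∀ d ≥ d1,
    ∀ (I : Finset (E d)) (w : E d → ℝ) (A a : ℝ), (∀ n ∈ I, 1 / c ≤ ‖n‖) →
    (I.card : ℝ) ≤ Real.exp (K * d) → (∀ n, 0 ≤ w n) → 0 < A → 0 ≤ a → a ≤ (d : ℝ) / 2 →
    (∀ J ⊆ I, ∀ S ∈ SS, ∑ n ∈ J, w n ≤ A * Fs S a J) →
    ∑ n ∈ I, w n ≤ Real.exp (ε * d) * (A * fv (1 - η3) I)

/-- (80 lines; uses `S_Mrg`, `S_ClsA`) **`S_Cls`.**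

Proof.  `S_ClsA` for `c`, `ε/2`, `K`.  There is a constant `C` with `2 √(1+S)/S ≤ C` for all `S ∈ SS`.  `S_Mrg` (`‖nv (p i) (r i)‖ = 1/kap (p i) (r i) ≥ 1/c`, as
`nv = -(1/(kap ‖p i‖)) p i`) gives `w`, `a`; `A = (C d + 1) e`, `C d + 1 ≤ exp (ε d/2)` for large `d`; `(Nv p r I).card ≤ I.card`. -/
def S_ClsB : Prop := S_Cls

end Pool.Agent.Lib.MP_0c1c75_co.KPI
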