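import Pool.Agent.Lib.MP_0c1c75_co.KPI.Iface
import Pool.Agent.Lib.MP_0c1c75_co.ArSpec

/-!
# MP_0c1c75_co, project KPI, part F (author helper32): `S_Fat`, `S_LowG`, `S_Cap` of `Iface.lean`

Step 6 of note 3812 for the fat classes: linear comparison with the Gaussian weight `e^(-‖x‖²)`
(Sudakov-Fernique with offsets), concentration of the norm, volumes of thin removed sets; and the
elementary statements `S_LowG`, `S_Cap`. Every statement `S_X` is proved in its own file `KPI/X.lean`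
(`theorem kX`, namespace `Pool.Agent.Lib.MP_0c1c75_co.KPI`), the statements named after `Uses` are
hypotheses of the theorem in this order. `GaussStmt`, `PolarStmt` (Spec.lean) and `Ar.BasStmt`
(ArSpec.lean) are landed (`basStmt`, `polarStmt`, ...), here they are hypotheses as well.
`Ar.ms ρ p b u = max_i (-ρ ⟨p_i,u⟩ - b_i)`, `Ar.aw ρ p b` = its average over the unit vectors `u = x/‖x‖`.
-/

set_option autoImplicit false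

open MeasureTheory Set Metric

namespace Pool.Agent.Lib.MP_0c1c75_co.KPI

/-- The integral of `e^(-‖x‖²)`. -/
noncomputable def Zg (d : ℕ) : ℝ := ∫ x : E d, Real.exp (-‖x‖ ^ 2)

/-- The integral of `e^(-‖x‖²) ‖x‖`. -/
noncomputable def Zn (d : ℕ) : ℝ := ∫ x : E d, Real.exp (-‖x‖ ^ 2) * ‖x‖

/-- The mean of the norm for the density `e^(-‖x‖²) / Zg d`. -/
noncomputable def gm (d : ℕ) : ℝ := Zn d / Zg d

open Classical in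
/-- The family `T` with the origin adjoined (index `0`; the indices outside of `T` become the origin). -/
noncomputable def ph {d N : ℕ} (p : Fin N → E d) (T : Finset (Fin N)) : Fin (N + 1) → E d :=
  Fin.cons 0 fun i => if i ∈ T then p i else 0

open Classical in
/-- The offsets `r i - 1` (`0` for the origin). -/
noncomputable def bh {N : ℕ} (r : Fin N → ℝ) (T : Finset (Fin N)) : Fin (N + 1) → ℝ :=
  Fin.cons 0 fun i => if i ∈ T then r i - 1 else 0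

/-! ## Linear comparison -/

/-- **FMs.** Elementary facts on the adjoined family.
Proof: `Ar.ms` is a supremum over the finite nonempty type `Fin (N + 1)` (`ciSup_le`,
`le_ciSup (Set.finite_range _).bddAbove`); split an index by `Fin.cases` (`Fin.cons_zero`, `Fin.cons_succ`). The index
`0` gives the value `0`. (5) the distances: `‖q i - q j‖ ≤ ‖p i - p j‖`, `‖q i‖ ≤ ‖p i‖` or `0`. -/
def S_FMs : Prop := ∀ (d N : ℕ) (p : Fin N → E d) (r : Fin N → ℝ) (T : Finset (Fin N)),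
  (∀ i ∈ T, 1 ≤ r i) →
  (∀ (ρ : ℝ) (u : E d), 0 ≤ Ar.ms ρ (ph p T) (bh r T) u) ∧
  (∀ (ρ : ℝ) (u : E d), ∀ i ∈ T,
    -(ρ * inner ℝ (p i) u) - (r i - 1) ≤ Ar.ms ρ (ph p T) (bh r T) u) ∧
  (∀ (ρ : ℝ) (u : E d) (C : ℝ), 0 ≤ C → (∀ i ∈ T, -(ρ * inner ℝ (p i) u) - (r i - 1) ≤ C) →
    Ar.ms ρ (ph p T) (bh r T) u ≤ C) ∧
  (∀ i, 0 ≤ bh r T i) ∧
  (∀ q : Fin N → E d, Contr 1 p q → (∀ i, ‖q i‖ ≤ ‖p i‖) → Contr 1 (ph p T) (ph q T)) ∧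
  (∀ c : ℝ, ph (fun i => c • p i) T = fun i => c • ph p T i) ∧
  ∀ P : ℝ, 0 ≤ P → (∀ i ∈ T, ‖p i‖ ≤ P) → ∀ i, ‖ph p T i‖ ≤ P

/-- **FMom** (uses nothing; compare `NormMoment.lean`). Moments of the norm.
Proof: `NormMoment.radial d hd k : ∫ exp(-‖x‖²) ‖x‖^k = d vol(B) Γ((d+k)/2)/2`; so with `Z = Zg d`:
`∫ e ‖x‖² = (d/2) Z`, `∫ e ‖x‖⁴ = (d(d+2)/4) Z` (`Real.Gamma_add_one`). For `a > 0`, `R ≥ 0`:
`R ≥ 3R²/(2a) - R⁴/(2a³)` (`(1-y)²(1+y/2) ≥ 0`, `y = R/a`). With `a² = (d+2)/2`: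
`gm d ≥ (3/(2a))(d/2) - d(d+2)/(8a³) = 3d/(4a) - d/(4a) = d/(2a)`, so `gm² ≥ d²/(4a²) = d²/(2(d+2))`. -/
def S_FMom : Prop := ∀ d : ℕ, 0 < d → 0 < Zg d ∧ 0 < gm d ∧
  Integrable (fun x : E d => Real.exp (-‖x‖ ^ 2)) ∧
  Integrable (fun x : E d => Real.exp (-‖x‖ ^ 2) * ‖x‖) ∧
  (d : ℝ) ^ 2 / (2 * ((d : ℝ) + 2)) ≤ gm d ^ 2

/-- **FTail.** Uses `S_FMom`. The norm is not much larger than its mean.
Proof: `t = 1/b² > 1`, `R = gm d / b`, `R² ≥ t d²/(2(d+2)) ≥ t (d-2)/2`. For `0 < l < 1` and `‖x‖ > R`: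
`exp(-‖x‖²) ≤ exp(-l R²) exp(-(1-l)‖x‖²)`, and `∫ exp(-(1-l)‖x‖²) ‖x‖ = (1-l)^(-(d+1)/2) Zn d` (substitution
`y = √(1-l) x`: `Measure.integral_comp_smul`). So the ratio is at most
`exp(-l t (d-2)/2 - ((d+1)/2) log(1-l))`. Choose `l` with `-log(1-l) ≤ l (1+t)/2` (possible since `(1+t)/2 > 1`: e.g. from
`log(1-l) ≥ -l/(1-l)`, `1/(1-l) ≤ (1+t)/2`, that is `l = (t-1)/(t+1)`). The exponent is
`≤ -(l/2)(t(d-2) - (d+1)(1+t)/2) = -(l/2)(d(t-1)/2 - 2t - (1+t)/2) ≤ -(l/8)(t-1) d` for large `d`. -/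
def S_FTail : Prop := ∀ b : ℝ, 0 < b → b < 1 → ∃ c5 : ℝ, 0 < c5 ∧ ∃ d1 : ℕ, ∀ d ≥ d1,
  ∫ x in {x : E d | gm d / b < ‖x‖}, Real.exp (-‖x‖ ^ 2) * ‖x‖ ≤ Real.exp (-(c5 * d)) * Zn d

/-- **FLin.** Uses `GaussStmt`. Sudakov-Fernique inequality with offsets. Compare `MeanWidth.lean`
(case `b = 0`; lemmas `exp_le_quad`, `integrable_gauss`, `integrable_mul`, `gmax_le`, `le_gmax` there).
Proof: for `0 < ε ≤ 1` apply `GaussStmt` to `ε p_i`, `ε q_i`, `a_i = 2 ε b_i`, `s = 1`: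
`gmax (ε p) a x = ‖x‖² + 2 ε M_ε(x)`, `M_ε(x) = max_i (-⟨p_i,x⟩ - b_i + (ε/2)‖p_i‖²)`,
`ms 1 p b x ≤ M_ε(x) ≤ ms 1 p b x + ε K`, `K = ∑ ‖p_i‖²`, `|M_ε| ≤ A(1 + ‖x‖)`. Let `W = e^(-‖x‖²)`. Then
`∫ W (1 - 2ε M_ε^p) ≤ ∫ W exp(-2ε M_ε^p) ≤ ∫ W exp(-2ε M_ε^q) ≤ ∫ W (1 - 2ε M_ε^q + 4 ε² (M_ε^q)² exp(2|M_ε^q|))`
(`exp_le_quad`). Subtract `∫ W`, divide by `2ε`: `∫ W ms 1 q b ≤ ∫ W M_ε^q ≤ ∫ W M_ε^p + ε C ≤ ∫ W ms 1 p b + ε C'`. -/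
def S_FLin : Prop := ∀ (d N : ℕ), 0 < N → ∀ (p q : Fin N → E d), Contr 1 p q →
  ∀ b : Fin N → ℝ, ∫ x : E d, Real.exp (-‖x‖ ^ 2) * Ar.ms 1 q b x ≤
    ∫ x : E d, Real.exp (-‖x‖ ^ 2) * Ar.ms 1 p b x

/-- **FLow.** Uses `Ar.BasStmt`, `S_FMom`. Jensen's inequality in the radial variable.
Proof: `λ = s gm d`. For a vector `u` let `i(u)` be the first index at which `-λ⟨q_i,u⟩ - b_i` is maximal (measurable,
finitely many values: see `AA`, `kk`, `kk_meas` in `ArSF.lean`, private there: copy). For `x ≠ 0`, `u = x/‖x‖`: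
`ms s q b x ≥ -s‖x‖⟨q_(i(u)),u⟩ - b_(i(u))`. Integrate with `W = e^(-‖x‖²)`, using (7) of `BasStmt` for `φ t = e^(-t²) t`,
`g = -s⟨q_(i(u)),u⟩` and for `φ t = e^(-t²)`, `g = -b_(i(u))` (`g` evaluated at `‖x‖⁻¹ • x`, bounded on the ball: multiply
the inner product by the indicator of the closed unit ball): the right side is
`Zn · avg(-s⟨q_i,u⟩) + Zg · avg(-b_i) = Zg · avg(-λ⟨q_i,u⟩ - b_i) = Zg · aw λ q b`.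
(Alternatively `Polar.int` and the inner integral for each fixed index, then `ciSup_le`.) -/
def S_FLow : Prop := ∀ (d N : ℕ), 0 < d → 0 < N → ∀ (q : Fin N → E d) (b : Fin N → ℝ) (s : ℝ),
  0 ≤ s → Zg d * Ar.aw (s * gm d) q b ≤ ∫ x : E d, Real.exp (-‖x‖ ^ 2) * Ar.ms s q b x

/-- **FUp.** Uses `Ar.BasStmt`, `S_FMom`. Upper bound for the side of `p`.
Proof: let `x ≠ 0`, `u = x/‖x‖`, `m = ms 1 p b u ≥ 0` (index `i0`). If `s‖x‖ ≤ 1`: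
`-s⟨p_i,x⟩ - b_i ≤ s‖x‖(-⟨p_i,u⟩ - b_i) ≤ s‖x‖ m` (as `b_i ≥ 0`). If `s‖x‖ > 1`: `-s⟨p_i,x⟩ - b_i ≤ s P ‖x‖`. So in all cases
`ms s p b x ≤ s‖x‖ m + s P ‖x‖ 1[1/s < ‖x‖]`. Integrate with `e^(-‖x‖²)`: (7) of `BasStmt` with `φ t = e^(-t²) t`, `g = ms 1 p b`
(bounded on the ball by (2), multiply by the indicator of the closed unit ball), which gives `Zn d * aw 1 p b`. -/
def S_FUp : Prop := ∀ (d N : ℕ), 0 < d → ∀ (p : Fin N → E d) (b : Fin N → ℝ) (i0 : Fin N),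
  p i0 = 0 → b i0 = 0 → (∀ i, 0 ≤ b i) → ∀ P : ℝ, (∀ i, ‖p i‖ ≤ P) → ∀ s : ℝ, 0 < s →
  ∫ x : E d, Real.exp (-‖x‖ ^ 2) * Ar.ms s p b x ≤ s * Zn d * Ar.aw 1 p b +
    s * P * ∫ x in {x : E d | 1 / s < ‖x‖}, Real.exp (-‖x‖ ^ 2) * ‖x‖

/-- **FCmp.** Uses `S_FMom`, `S_FTail`, `S_FLin`, `S_FLow`, `S_FUp`. The comparison of the averages.
Proof: `s = b / gm d`, so `s gm d = b`, `s Zn d = b Zg d`, `1/s = gm d / b`. `Zg aw b q β ≤ ∫ e ms s q β` (`FLow`)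
`≤ ∫ e ms s p β` (`FLin` for the families `s • p_i`, `s • q_i`: `ms 1 (s • p) β x = ms s p β x`, `Contr 1`)
`≤ b Zg aw 1 p β + s P e^(-c5 d) Zn d = Zg b (aw 1 p β + P e^(-c5 d))` (`FUp`, `FTail`). Divide by `Zg`. -/
def S_FCmp : Prop := ∀ b : ℝ, 0 < b → b < 1 → ∃ c5 : ℝ, 0 < c5 ∧ ∃ d1 : ℕ, ∀ d ≥ d1,
  ∀ (N : ℕ) (p q : Fin N → E d) (β : Fin N → ℝ) (i0 : Fin N) (P : ℝ), Contr 1 p q →
  p i0 = 0 → β i0 = 0 → (∀ i, 0 ≤ β i) → (∀ i, ‖p i‖ ≤ P) →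
  Ar.aw b q β ≤ b * (Ar.aw 1 p β + P * Real.exp (-(c5 * d)))

/-! ## Volumes of thin removed sets -/

/-- **FVU.** Uses `PolarStmt`, `S_FMs`. Upper bound for the removed volume.
Proof: `M(u) = ms 1 (ph q T) (bh r T) u`. Let `F x = max (1 - M(‖x‖⁻¹ x) - P²) 0` (measurable: `M` is continuous, (1) of
`Ar.BasStmt` or a finite supremum; invariant under positive scaling). If `‖x‖ ≤ F x` and `x ≠ 0`, `x = ρ u`, then `x` is in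
the unit ball and in all balls of `T`: for `i ∈ T`, `tθ = -⟨q i,u⟩`, `t = ‖q i‖ ≤ P`: `ρ ≤ 1 - (tθ - (r i - 1)) - P²`, so
`ρ + tθ ≤ r i - P²`; `‖x - q i‖² = (ρ + tθ)² + t²(1 - θ²)`. If `ρ + tθ ≥ 0` this is `≤ (r i - P²)² + P² ≤ (r i)²`
(`P² ≤ 2 r i P² - P⁴` as `r i ≥ 1`, `P ≤ 1`); if `ρ + tθ < 0` then `|ρ + tθ| ≤ t` and it is `≤ 2P² ≤ 1 ≤ (r i)²`. (`x = 0` is clear.)
Hence `om d - Gt q r T 0 ≥ vol {‖x‖ ≤ F x} = ∫_(ball) F^d` (`PolarStmt` (1)) `≥ ∫_(ball) (1 - d (M + P²))` (Bernoulli,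
`one_add_mul_le_pow`, also where `F = 0`) `= om d (1 - d (aw 1 .. + P²))`. The removed set is the unit ball minus the
intersection; `Gt` has `r i ^ 2 + 0 < ‖x - p i‖ ^ 2`. -/
def S_FVU : Prop := ∀ (d N : ℕ) (q : Fin N → E d) (r : Fin N → ℝ) (T : Finset (Fin N)) (P : ℝ),
  0 < d → 0 ≤ P → P ≤ 1 / 2 → (∀ i ∈ T, ‖q i‖ ≤ P ∧ 1 ≤ r i) →
  Gt q r T 0 ≤ d * om d * (Ar.aw 1 (ph q T) (bh r T) + P ^ 2)

/-- **FVL.** Uses `PolarStmt`, `S_FMs`. Lower bound for the removed volume.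
Proof: trivial if `d P ≥ 1` (the left side is `≤ 0 ≤ Gt`, `aw ≥ 0` by `FMs` (1)). Let `d P < 1`, so `0 ≤ M(u) ≤ P < 1` for unit `u`
(`M = ms 1 (ph p T) (bh r T)`). If `x = ρ u` is in the unit ball and in the balls of `T`, then
`ρ - ⟨p i,u⟩ = ⟨x - p i,u⟩ ≤ r i`, so `ρ ≤ 1 - (-⟨p i,u⟩ - (r i - 1))`, hence `‖x‖ ≤ F x = 1 - M(‖x‖⁻¹ x)` (`x ≠ 0`).
`vol ≤ ∫_(ball) (1 - M)^d`, and `(1 - M)^d ≤ 1 - dM + d²M²/2 ≤ 1 - d(1 - dP)M` for `0 ≤ M ≤ P` (e.g. `(1-M)^d ≤ exp(-dM)`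
and `exp(-y) ≤ 1 - y + y²/2`, or `(1-M)^d ≤ 1/(1+dM) ≤ 1 - dM(1 - dM)`). So
`Gt ≥ om d - ∫ .. ≥ om d · d (1 - dP) aw 1 ..`. -/
def S_FVL : Prop := ∀ (d N : ℕ) (p : Fin N → E d) (r : Fin N → ℝ) (T : Finset (Fin N)) (P : ℝ),
  0 < d → 0 ≤ P → (∀ i ∈ T, ‖p i‖ ≤ P ∧ 1 ≤ r i) →
  d * om d * (1 - d * P) * Ar.aw 1 (ph p T) (bh r T) ≤ Gt p r T 0

/-- **FDr.** Uses `S_FMs`. Lower bound for the average.
Proof: let `x ∈ Dr p r T' δ`, `x ≠ 0` automatically (`0 < 0` is false for `x = 0`), `u = x/‖x‖`, `i ∈ T'`, `t = ‖p i‖ ≥ P/2 > 0`, `κ = kap (p i) (r i)`,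
`θ = -⟨p i,u⟩/t > κ + δ`. `r i - 1 = ((r i)² - 1)/(r i + 1) ≤ ((r i)² - 1)/2 = tκ + t²/2`. So
`ms 1 (ph p T) (bh r T) u ≥ tθ - (r i - 1) ≥ tδ - t²/2 ≥ tδ/2 ≥ Pδ/4` (`t ≤ P ≤ δ`). The average over the open unit ball
of the nonnegative function `x ↦ ms .. (‖x‖⁻¹ x)` is at least `(Pδ/4) vol(Dr ∩ ball)/vol(ball)`, and the sphere has measure
zero (`Measure.addHaar_sphere`), `vol(ball) = om d`. -/
def S_FDr : Prop := ∀ (d N : ℕ) (p : Fin N → E d) (r : Fin N → ℝ) (T T' : Finset (Fin N)) (P δ : ℝ),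
  0 < d → T' ⊆ T → 0 < P → P ≤ δ → (∀ i ∈ T', P / 2 ≤ ‖p i‖ ∧ ‖p i‖ ≤ P) → (∀ i ∈ T, 1 ≤ r i) →
  P * δ / 4 * volume.real (Dr p r T' δ) ≤ om d * Ar.aw 1 (ph p T) (bh r T)

/- **Fat** = `S_Fat` of `Iface.lean`. Uses `Ar.BasStmt`, `S_FMs`, `S_FCmp`, `S_FVU`, `S_FVL`, `S_FDr` (theorem
`kFat (h1 : Ar.BasStmt) (h2 : S_FMs) (h3 : S_FCmp) (h4 : S_FVU) (h5 : S_FVL) (h6 : S_FDr) : S_Fat`).
Proof: `c5` from `FCmp` for `b`, `ηF = c5 / 2`. `A = aw 1 (ph p T) (bh r T)`. `Gt (b q1) ≤ d om (aw 1 (ph (b q1) T) (bh r T) + P²)`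
(`FVU`, `‖b q1 i‖ ≤ P`), `ph (b q1) T = b • ph q1 T` and `aw 1 (b • ..) = aw b ..` ((5) of `BasStmt`: `aw ρ (c • p) b = aw (ρ c) p b`),
`aw b (ph q1 T) (bh r T) ≤ b (A + P e^(-c5 d))` (`FCmp` with `i0 = 0`). `FDr`: `A ≥ (Pδ/4) e^(-η d)`, so
`b P e^(-c5 d) + P² ≤ P (e^(-c5 d) + e^(-c3 d)) ≤ (4/δ) (e^(-(c5-η) d) + e^(-(c3-η) d)) A ≤ ε A` for large `d`
(`c5 - η ≥ η > 0`, `c3 - η ≥ η > 0`), where `ε = (1-b)/4`. So `Gt (b q1) ≤ d om (b + ε) A` and `Gt p ≥ d om (1 - dP) A` (`FVL`),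
`(1 - d P) ≥ (b + ε)/((1+b)/2)` for large `d` because `d P ≤ d e^(-c3 d) → 0` and `b + ε < (1+b)/2`; `A ≥ 0`. `P ≤ 1/2`, `P ≤ δ` for large `d`. -/

/-! ## The elementary statements on removed volumes (`S_LowG`) and caps (`S_Cap`) -/

/-- **LoA** (part (1) of `S_LowG`).
Proof: `x ∈ Un (Nv p r J)`, `‖x‖² ≤ 1 - η`: `i ∈ J`, `t = ‖p i‖ > 0` (otherwise `kap = 0`), `D = (r i)² - 1 - t² = 2tκ > 0`,
`1 < ⟨nv, x⟩ = -(2/D)⟨p i,x⟩`, so `-⟨p i,x⟩ > tκ`. `‖x‖ ≤ √(1-η) ≤ 1 - η/2`, `(κ + κ0 η/2)‖x‖ ≤ (κ + κη/2)(1 - η/2) ≤ κ`. Hence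
`Un ∩ Bz (1-η) ⊆ Dr p r J (κ0 η/2)`, which is contained in the unit ball (finite volume). -/
def S_LoA : Prop := ∀ (d N : ℕ) (p : Fin N → E d) (r : Fin N → ℝ) (J : Finset (Fin N)) (κ0 η : ℝ),
  0 < κ0 → 0 < η → η < 1 → (∀ i ∈ J, κ0 ≤ kap (p i) (r i)) →
  fv (1 - η) (Nv p r J) ≤ volume.real (Dr p r J (κ0 * η / 2))

/-- **LoB** (part (2) of `S_LowG`).
Proof: `σ = 1 - δe/2 ∈ [1/2, 1)`. Let `x ∈ Dr p r J δ`, `‖x‖ = ρ > σ`; `i ∈ J`, `t = ‖p i‖ > e`, `κ = kap`, `-⟨p i,x⟩ > (κ + δ) t ρ`, i.e. `θ > κ + δ`, `θ ≤ 1`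
(Cauchy-Schwarz). `‖x - p i‖² - (r i)² = ρ² + 2ρtθ + t² - 1 - 2tκ - t² = 2t(ρθ - κ) - (1 - ρ²)`, `ρθ - κ = θ - κ - (1-ρ)θ ≥ δ - (1-ρ)`, strictly
`>`; `1 - ρ² ≤ 2(1-ρ)`, and `t(δ - (1-ρ)) ≥ 1-ρ` because `1 - ρ < δe/2 ≤ δ t/(1+t)`. So `x` is removed. Therefore the removed set contains
`Dr \ (σ • Dr)` (`Dr` is invariant under `x ↦ λx`, `0 < λ ≤ 1`, and `x ∈ Dr`, `‖x‖ ≤ σ` implies `σ⁻¹ x ∈ Dr`), of volume
`≥ (1 - σ^d) vol Dr ≥ (1 - σ) vol Dr` (`Measure.addHaar_smul`; `Dr` is measurable: finite union of sets given by continuous functions). -/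
def S_LoB : Prop := ∀ (d N : ℕ) (p : Fin N → E d) (r : Fin N → ℝ) (J : Finset (Fin N)) (δ e : ℝ),
  0 < d → 0 < δ → δ ≤ 1 → 0 < e → e ≤ 1 → (∀ i ∈ J, e < ‖p i‖) →
  δ * e / 2 * volume.real (Dr p r J δ) ≤ Gt p r J 0

/-- **LoC** (part (3) of `S_LowG`).
Proof: a removed point has `1 ≤ r i < ‖x - p i‖ ≤ ‖x‖ + s`, so `1 - s < ‖x‖ ≤ 1`. If `s ≥ 1` then `Gt ≤ om d ≤ d s om d`. If `s < 1` the set lies in
`closedBall 0 1 \ closedBall 0 (1-s)` of volume `(1 - (1-s)^d) om d ≤ d s om d` (Bernoulli; `Measure.addHaar_closedBall`). -/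
def S_LoC : Prop := ∀ (d N : ℕ) (p : Fin N → E d) (r : Fin N → ℝ) (J : Finset (Fin N)) (s : ℝ),
  0 < d → 0 ≤ s → (∀ i ∈ J, ‖p i‖ ≤ s ∧ 1 ≤ r i) → Gt p r J 0 ≤ d * s * om d

/- **LowG** = `S_LowG` of `Iface.lean`. Uses `S_LoA`, `S_LoB`, `S_LoC` (theorem
`kLowG (h1 : S_LoA) (h2 : S_LoB) (h3 : S_LoC) : S_LowG`); parts (4), (5) by `measureReal_mono`, `measureReal_union_le`
(all sets are contained in the closed unit ball). -/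

/-- **CapM.** Second moment of a linear form on the ball.
Proof: for unit vectors `v, w` the reflection `(ℝ ∙ (v - w))ᗮ.reflection` maps `v` to `w` (`Submodule.reflection_sub` or similar), preserves the
volume and the ball, so `∫_B ⟨v,y⟩² = ∫_B ⟨w,y⟩²`. Sum over the standard basis: `d ∫_B ⟨v,y⟩² = ∫_B ‖y‖² ≤ om d`. By Chebyshev (`mul_meas_ge_le_integral_of_nonneg`
or a pointwise bound of the indicator by `⟨v,y⟩²/a²`) the set `{y ∈ B, ⟨v,y⟩ ≤ -a}` has volume at most `om d/(d a²)`. -/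
def S_CapM : Prop := ∀ (d : ℕ) (v : E d) (a : ℝ), 0 < d → ‖v‖ = 1 → 0 < a →
  volume.real {y : E d | ‖y‖ ≤ 1 ∧ inner ℝ v y ≤ -a} ≤ om d / (d * a ^ 2)

/- **Cap** = `S_Cap` of `Iface.lean`. Uses `S_CapM` (theorem `kCap (h : S_CapM) : S_Cap`).
Proof: choose `h < h' < 1` with `-(log (1 - h'²))/2 < η` (continuity), `a = h' - h`, `σ = √(1 - h'²)`. For `‖y‖ ≤ 1`, `-a < ⟨v,y⟩ ≤ 0` the point
`x = h' v + σ y` satisfies `‖x‖² = h'² + 2h'σ⟨v,y⟩ + σ²‖y‖² ≤ 1` and `⟨v,x⟩ = h' + σ⟨v,y⟩ > h' - a = h ≥ h‖x‖`. So the volume is at least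
`σ^d (vol{y ∈ B, ⟨v,y⟩ ≤ 0} - vol{y ∈ B, ⟨v,y⟩ ≤ -a}) ≥ σ^d (om/2 - om/(d a²)) ≥ σ^d om/4` for `d ≥ 4/a²` (symmetry `y ↦ -y`: the two halves cover `B`), and
`σ^d/4 = exp(-d(-log(1-h'²)/2))/4 ≥ exp(-η d)` for large `d`. -/

end Pool.Agent.Lib.MP_0c1c75_co.KPI
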