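import Pool.Agent.Lib.MP_0c1c75_co.KPI.Iface

/-!
# MP_0c1c75_co, project KPI, part G: the gain with the net (step 5 of note 3812)

Every statement `S_X` is to be proved as `theorem sX ... : S_X` in the file `KPI/X.lean`, namespace
`Pool.Agent.Lib.MP_0c1c75_co.KPI`, first line `import Pool.Agent.Lib.MP_0c1c75_co.KPI.SpecG`; the
statements named after `uses` are hypotheses of the theorem, in this order.  Notation: `q = b q1`,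
`κ1 i = kap (q1 i) (r i)`, `κq i = kap (b • q1 i) (r i)`, `m i = um (q1 i)`, `t = ‖p i‖`, `s = ‖q1 i‖`.
-/

set_option autoImplicit false

open MeasureTheory Set Metric
open scoped Pointwise

namespace Pool.Agent.Lib.MP_0c1c75_co.KPI

/-- The unit vector `-x/‖x‖`. -/
noncomputable def um {d : ℕ} (x : E d) : E d := (-(‖x‖⁻¹)) • x

/-- The part of the unit ball in the closed half spaces `⟨-q i/‖q i‖, x⟩ ≥ kap - h`. -/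
def Vc {d N : ℕ} (q : Fin N → E d) (r : Fin N → ℝ) (J : Finset (Fin N)) (h : ℝ) : Set (E d) :=
  {x | ‖x‖ ≤ 1 ∧ ∃ i ∈ J, (kap (q i) (r i) - h) * ‖q i‖ ≤ -inner ℝ (q i) x}

/-- (60 lines) **Heights.**  `x = p i`, `y = q1 i`, `t = ‖x‖`, `s = ‖y‖`, `A = r² - 1`.

Proof.  `t > 0` (if `t = 0` then `kap x r = 0`), `s > 0` (if `s = 0` then `r < 1`).  `2 t κ0 + t² ≤ A < 2 b s + (b s)²` and
`(b s)² ≤ t²` (`b s ≤ s ≤ b t ≤ t`), so `t κ0 < b s ≤ s`.  Monotonicity: for `0 < s ≤ t`, `0 ≤ A`: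
`(A - t²)/(2t) ≤ (A - s²)/(2s)` (cross multiplication: `(t - s)(A + s t) ≥ 0`); so `κ0 ≤ kap x r ≤ kap y r`.
`kap (b y) r = (A - b² s²)/(2 b s) ≥ (1/b) kap y r` and `(1/b) k ≥ k + (1 - b) k ≥ k + (1 - b) κ0` for `k = kap y r ≥ κ0`
(`1/b ≥ 2 - b`).  `kap (b y) r < 1` because `A < 2 b s + b² s²`; hence `kap y r < b`. -/
def S_GNum : Prop := ∀ (d : ℕ) (b κ0 r : ℝ) (x y : E d), 0 < b → b < 1 → 0 < κ0 → 1 ≤ r →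
  ‖y‖ ≤ b * ‖x‖ → κ0 ≤ kap x r → r < 1 + b * ‖y‖ →
  0 < ‖x‖ ∧ 0 < ‖y‖ ∧ κ0 * ‖x‖ < ‖y‖ ∧ κ0 ≤ kap y r ∧ kap y r < b ∧
    kap y r + (1 - b) * κ0 ≤ kap (b • y) r ∧ kap (b • y) r < 1

/-- (120 lines) **The net.**

Proof.  `v i = (1 + k i) • m i`, `‖v i‖ = 1 + k i ≤ 2`, `η = h/2`.  Let `I ⊆ J` have the largest number of elements among the
subsets of `J` with `‖v i - v j‖ > η` for all `i ≠ j` in it.  Every `j ∈ J` has an `i ∈ I` with `‖v j - v i‖ ≤ η` (otherwise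
`I ∪ {j}`).  Then `|k j - k i| ≤ ‖v j - v i‖ ≤ h/2` and
`(1 + k i) • (m j - m i) = (v j - v i) - (k j - k i) • m j`, so `‖m j - m i‖ ≤ h`.  Number: the balls `ball (v i) (η/2)`, `i ∈ I`, are
disjoint and contained in `ball 0 (2 + η/2)`, so `|I| (η/2)^d ≤ (2 + η/2)^d`
(`Measure.addHaar_ball`, `measure_biUnion_finset`), `|I| ≤ (1 + 4/η)^d = exp (K d)`, `K = log (1 + 4/η)`. -/
def S_GNet : Prop := ∀ h : ℝ, 0 < h → ∃ K : ℝ, 0 < K ∧ ∀ (d N : ℕ) (m : Fin N → E d)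
  (k : Fin N → ℝ) (J : Finset (Fin N)), (∀ i ∈ J, ‖m i‖ = 1 ∧ 0 ≤ k i ∧ k i ≤ 1) →
  ∃ I ⊆ J, (I.card : ℝ) ≤ Real.exp (K * d) ∧
    ∀ j ∈ J, ∃ i ∈ I, ‖m j - m i‖ ≤ h ∧ |k j - k i| ≤ h

/-- (60 lines) **Cones in balls.**  `D = Dr q r J δ` is a cone intersected with the unit ball.

Proof.  (1) `D` is open in the closed ball, measurable (`{x | ‖x‖ ≤ 1}` intersected with a finite union of open sets), so are
its multiples; `Vc` is a closed subset of the closed unit ball (finite union of closed sets), so compact.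
(2) For `0 < ρ ≤ 1`: `{x ∈ D | ‖x‖ ≤ ρ} = ρ • D` (`0 ∉ D`: the strict inequality fails at `0`; it is homogeneous), and
`volume (ρ • D) = ρ^d volume D` (`Measure.addHaar_smul`), `volume D < ⊤`; subtract. -/
def S_GCon : Prop := ∀ (d N : ℕ) (q : Fin N → E d) (r : Fin N → ℝ) (J : Finset (Fin N)) (δ : ℝ),
  IsCompact (Vc q r J δ) ∧ MeasurableSet (Dr q r J δ) ∧
  ∀ ρ : ℝ, 0 < ρ → ρ ≤ 1 →
    volume.real (Dr q r J δ ∩ {x | ρ < ‖x‖}) = (1 - ρ ^ d) * volume.real (Dr q r J δ)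

/-- (60 lines; uses `S_GCon`) **Upper bound of the removed volume.**

Proof.  `D = Dr q r J 0`, `R` = the removed set in `Gt q r J 0`.  `R ⊆ D`: for `x ∈ R` with index `i`, `‖x‖ ≤ 1`,
`‖x‖² - 2⟨q i, x⟩ + ‖q i‖² > r i²`, so `-2⟨q i, x⟩ > r i² - ‖q i‖² - 1 = 2 ‖q i‖ kap ≥ 2 ‖q i‖ ‖x‖ kap` (`kap ≥ 0`).  If `e ≥ 1/2` then
`2 d e ≥ 1`: done (`volume D` finite).  Otherwise all `‖q i‖ ≤ 2 e` (`e ≠ 1`) and
`r i < ‖x - q i‖ ≤ ‖x‖ + 2 e`, so `‖x‖ > 1 - 2 e =: ρ > 0`, and `S_GCon` (2) with `1 - ρ^d ≤ d (1 - ρ)` (Bernoulli,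
`one_add_mul_le_pow`). -/
def S_GThk : Prop := ∀ (d N : ℕ) (q : Fin N → E d) (r : Fin N → ℝ) (J : Finset (Fin N)) (e : ℝ),
  0 < d → 0 < e → (∀ i ∈ J, 1 ≤ r i ∧ 0 < ‖q i‖ ∧ 0 ≤ kap (q i) (r i)) →
  ((∀ i ∈ J, ‖q i‖ ≤ 2 * e) ∨ e = 1) →
  Gt q r J 0 ≤ 2 * d * e * volume.real (Dr q r J 0)

/-- (50 lines; uses `S_GCon`) **From directions to half spaces.**

Proof.  `D = Dr q r J 0`.  `D ∩ {1 - h < ‖x‖} ⊆ Vc q r J h`: `-⟨q i, x⟩ > kap ‖q i‖ ‖x‖ ≥ kap ‖q i‖ (1 - h) ≥ (kap - h) ‖q i‖`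
(`0 ≤ kap ≤ 1`).  `S_GCon` (2) with `ρ = 1 - h`: `(1 - (1-h)^d) volume D ≤ volume Vc` (`Vc` has finite volume), and
`(1 - h)^d ≤ 1/2` for `d ≥ d1` (`tendsto_pow_atTop_nhds_zero_of_lt_one`). -/
def S_GShl : Prop := ∀ h : ℝ, 0 < h → h < 1 → ∃ d1 : ℕ, ∀ d ≥ d1, ∀ (N : ℕ) (q : Fin N → E d)
  (r : Fin N → ℝ) (J : Finset (Fin N)), (∀ i ∈ J, 0 ≤ kap (q i) (r i) ∧ kap (q i) (r i) ≤ 1) →
  volume.real (Dr q r J 0) ≤ 2 * volume.real (Vc q r J h)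

/-- (80 lines) **The Minkowski combination.**  `t = δ/(1 + δ)`, `1 - t = 1/(1 + δ)`.

Proof.  Let `z = (1 - t) • x + t • y`, `x ∈ Vc` with index `j ∈ J`, `‖y‖ ≤ 1`; `‖z‖ ≤ 1`.  `⟨um v, x⟩ = -⟨v, x⟩/‖v‖`, `um (b • v) = um v`
(`b > 0`), `‖um v‖ = 1` for `v ≠ 0`; so `⟨um (q1 j), x⟩ ≥ kap (b • q1 j) (r j) - δ/4 ≥ κ1 j + 4 δ - δ/4`.  With `i ∈ I` near `j` (`δ/4`):
`⟨um (q1 i), x⟩ ≥ ⟨um (q1 j), x⟩ - δ/4 ≥ κ1 i + 4 δ - 3 δ/4` and `⟨um (q1 i), y⟩ ≥ -1`, so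
`⟨um (q1 i), z⟩ ≥ (κ1 i + 4 δ - 3 δ/4 - δ)/(1 + δ) > κ1 i + δ ≥ (κ1 i + δ) ‖z‖`: the strict inequality is
`9 δ/4 > δ + δ (κ1 i + δ)`, true because `κ1 i + δ ≤ 1`.  Multiply by `‖q1 i‖ > 0`. -/
def S_GInc : Prop := ∀ (d N : ℕ) (b δ : ℝ) (q1 : Fin N → E d) (r : Fin N → ℝ)
  (I J : Finset (Fin N)), 0 < b → 0 < δ → I ⊆ J →
  (∀ i ∈ J, 0 < ‖q1 i‖ ∧ 0 ≤ kap (q1 i) (r i) ∧ kap (q1 i) (r i) + δ ≤ 1 ∧
    kap (q1 i) (r i) + 4 * δ ≤ kap (b • q1 i) (r i)) →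
  (∀ j ∈ J, ∃ i ∈ I, ‖um (q1 j) - um (q1 i)‖ ≤ δ / 4 ∧
    |kap (q1 j) (r j) - kap (q1 i) (r i)| ≤ δ / 4) →
  (1 - δ / (1 + δ)) • Vc (fun i => b • q1 i) r J (δ / 4) + (δ / (1 + δ)) • closedBall (0 : E d) 1 ⊆
    Dr q1 r I δ

/-- (80 lines; uses `BMStmt`, `VrBasicStmt`) **The gain.**  `t = δ/(1 + δ)`, `γ = t (exp η - 1)`.

Proof.  `A` empty: trivial.  `y = vr D`; `om d` is the volume of the open unit ball (`Measure.addHaar_closed_unitBall_eq_addHaar_unitBall`), and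
`volume.real D = om d y^d ≤ exp(-η d) om d` gives `y ≤ exp(-η)`.  `BMStmt` for `A`, `closedBall 0 1` (`vr = 1`) and monotonicity of `vr` (`D` has finite
volume): `(1 - t) vr A + t ≤ y`.  Since `exp(η) y ≤ 1`: `y - t ≤ y (1 - t exp η) ≤ y (1 - t)(1 - γ) ≤ (1 - t) y exp(-γ)`
(`1 - t exp η = (1 - t) - γ ≤ (1 - t)(1 - γ)`).  So `vr A ≤ y exp(-γ)`; take the power `d` and multiply by `om d`. -/
def S_GBM : Prop := ∀ (d : ℕ) (η δ : ℝ) (A D : Set (E d)), 0 < d → 0 < η → 0 < δ →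
  IsCompact A → D ⊆ closedBall 0 1 →
  (1 - δ / (1 + δ)) • A + (δ / (1 + δ)) • closedBall (0 : E d) 1 ⊆ D →
  volume.real D ≤ Real.exp (-(η * d)) * om d →
  volume.real A ≤ Real.exp (-(δ / (1 + δ) * (Real.exp η - 1) * d)) * volume.real D

/-- (150 lines; `S_Gain` from `S_LowG`, `S_GNum`, `S_GNet`, `S_GCon`, `S_GThk`, `S_GShl`, `S_GInc`, `S_GBM`) **Assembly.**

Proof.  `δ = (1 - b) κ0/4`, `K` from `S_GNet` for `h = δ/4`, `γ = δ/(1+δ) (exp (η/2) - 1)`, `C = 8/(δ κ0)`, `d1 ≥ 1` so large that `S_GShl` holds for `δ/4` and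
`2/(δ κ0) ≤ exp (η d/2)` for `d ≥ d1`.  If `J` is empty take `I = ∅` (`Gt` of the empty family is `0`).  Otherwise `κ0 < b < 1` (`S_GNum`), `δ < 1/4`,
`κ1 + δ < b + (1 - b)/4 ≤ 1`.  `I` from `S_GNet` for `m i = um (q1 i)`, `k i = κ1 i`.  `V = Dr q1 r I δ`.
`S_LowG` (2) for `q1`, `I`, `e' = κ0 e` (`‖q1 i‖ > κ0 ‖p i‖ > κ0 e`): `(δ κ0 e/2) volume V ≤ Gt q1 r I 0`.  With the hypothesis on `Gt q1 r I 0`:
`volume V ≤ (2/(δ κ0)) exp(-η d) om d ≤ exp(-(η/2) d) om d`.  `S_GInc`, `S_GBM` (`η/2`) with `A = Vc (b q1) r J (δ/4)` (compact by `S_GCon`):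
`volume A ≤ exp(-γ d) volume V`.  `S_GThk` for `b q1`, `J`, `e` (`‖b q1 i‖ ≤ b² ‖p i‖ ≤ 2 e` or `e = 1`), `S_GShl`:
`Gt (b q1) r J 0 ≤ 2 d e volume (Dr (b q1) r J 0) ≤ 4 d e volume A ≤ 4 d e exp(-γ d) volume V ≤ 4 d e exp(-γ d) (2/(δ κ0 e)) Gt q1 r I 0`. -/
def S_GFin : Prop := S_Gain

end Pool.Agent.Lib.MP_0c1c75_co.KPI
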