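import Pool.Agent.Lib.MP_0c1c75_co.KPI.Iface
import Pool.Agent.Lib.MP_0c1c75_co.Spec4

/-!
# MP_0c1c75_co, project KPI, part R: the regime reduction `S_Reg` (helper43)

Statements of the modules with complete proofs in the docstrings. Module `X` is the file
`KPI/R_X.lean` with `theorem r_X (hypotheses named in the docstring) : R_X`.
Landed inputs: `GPlusStmt` (Spec4.lean, proof `gPlusStmt (gPchiStmt ..)`), `Thm2pStmt`, `BMStmt`,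
`VrBasicStmt` (Spec.lean), `Cp_le` (CdBound.lean).
-/

set_option autoImplicit false

open MeasureTheory Set Metric

namespace Pool.Agent.Lib.MP_0c1c75_co.KPI

/-- The intersection of the balls of radii `sqrt (r_i² + τ)`. -/
def Kt {d N : ℕ} (p : Fin N → E d) (r : Fin N → ℝ) (τ : ℝ) : Set (E d) :=
  {x | ∀ i, ‖x - p i‖ ^ 2 ≤ r i ^ 2 + τ}

/-- Normalisation. `N = 0`: both intersections are everything. `N > 0`: let `ρ = r i0` be the smallest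
radius, `p' i = ρ⁻¹ • (p i - p i0)`, `q'` the same, `r' = r / ρ`: `Cfg c p' q' r' i0` (`Contr` is
invariant). `⋂ closedBall (p i) (r i)` is the image of `Kt p' r' 0` under `x ↦ p i0 + ρ • x`, so its
volume is `ρ ^ d * volume (Kt p' r' 0)` (`Measure.addHaar_smul`, translation invariance), the same
for `q`. If `volume (Kt p' r' 0) = 0` nothing is to prove. -/
def R_Norm : Prop := ∀ (c : ℝ) (d : ℕ), 0 < d →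
  (∀ (N : ℕ) (p q : Fin N → E d) (r : Fin N → ℝ) (i0 : Fin N), Cfg c p q r i0 →
    0 < volume (Kt p r 0) → volume (Kt p r 0) ≤ volume (Kt q r 0)) →
  ∀ (N : ℕ) (p q : Fin N → E d) (r : Fin N → ℝ), (∀ i, 0 < r i) → Contr c p q →
    volume (⋂ i, closedBall (p i) (r i)) ≤ volume (⋂ i, closedBall (q i) (r i))

/-- Elementary facts on `Kt` for a configuration with the ball `‖x‖ ≤ 1` among the balls. (1) closed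
subset of the ball of radius `sqrt (1 + τ)` (empty for `τ < -1`). (2), (3) volumes. (4) the removed
volume: `{‖x‖² ≤ 1 + 0 ∧ ∃ i, r i² + 0 < ‖x - p i‖²} = closedBall 0 1 \ Kt p r 0`. (5) the same set as
the intersection of closed balls. -/
def R_Kt : Prop := ∀ (d N : ℕ) (p : Fin N → E d) (r : Fin N → ℝ) (i0 : Fin N), p i0 = 0 →
  r i0 = 1 → (∀ i, 0 ≤ r i) →
  (∀ τ, IsCompact (Kt p r τ)) ∧ (∀ τ, Kt p r τ ⊆ {x | ‖x‖ ^ 2 ≤ 1 + τ}) ∧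
  (∀ τ, -1 ≤ τ → volume.real (Kt p r τ) ≤ (1 + τ) ^ ((d : ℝ) / 2) * om d) ∧
  volume.real (Kt p r 0) = om d - Gt p r Finset.univ 0 ∧
  Kt p r 0 = ⋂ i, closedBall (p i) (r i)

/-- Inclusions. `m = sqrt (1 + τ)`, `0 < l`, `l ≤ m`, `l m ≤ 1`. (1) `x ∈ Kt p r 0` (so `‖x‖ ≤ 1`):
`‖m x - l p_i‖² = m l ‖x - p_i‖² + m (m - l) ‖x‖² + l (l - m) ‖p_i‖² ≤ m l r_i² + m (m - l) ≤ r_i² + m² - 1`
(the last step is `(1 - m l) (r_i² - 1) ≥ 0`). (2) `y ∈ Kt (l⁻¹ p) r τ` (so `‖y‖ ≤ m`), `q = l⁻¹ p_i`: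
`‖y/m - l q‖² = (l/m) ‖y - q‖² + (1/m² - l/m) ‖y‖² + l (l - 1/m) ‖q‖² ≤ (l/m)(r_i² + m² - 1) + 1 - l m
= (l/m)(r_i² - 1) + 1 ≤ r_i²`. Volumes: `m • K`, `Measure.addHaar_smul`, `m ^ d = (1+τ)^(d/2)`. -/
def R_Inc : Prop := ∀ (d N : ℕ) (p : Fin N → E d) (r : Fin N → ℝ) (i0 : Fin N), p i0 = 0 →
  r i0 = 1 → (∀ i, 1 ≤ r i) → ∀ l τ : ℝ, 0 < l → l ^ 2 ≤ 1 + τ → l ^ 2 * (1 + τ) ≤ 1 →
  (1 + τ) ^ ((d : ℝ) / 2) * volume.real (Kt p r 0) ≤ volume.real (Kt (fun i => l • p i) r τ) ∧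
  volume.real (Kt (fun i => l⁻¹ • p i) r τ) ≤ (1 + τ) ^ ((d : ℝ) / 2) * volume.real (Kt p r 0)

/-- Layer cake. `g = gmax p (r²) = max_i (‖x - p_i‖² - r_i²) ≥ ‖x‖² - 1 ≥ -1`, `f = max (1 - g) 0 ≤ 2`,
`a = d/2 - 1 ≥ 1`; `{f ≥ s} = {g ≤ 1 - s} = Kt p r (1 - s)` for `s > 0`, empty for `s > 2`.
`lintegral_rpow_eq_lintegral_meas_le_mul`: `∫ f^a = a ∫_(s > 0) s^(a-1) vol {f ≥ s}`. The integrand is
bounded and measurable (antitone in `s`) on `(0,2)`. -/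
def R_Lay : Prop := ∀ (d N : ℕ) (p : Fin N → E d) (r : Fin N → ℝ) (i0 : Fin N), 4 ≤ d → p i0 = 0 →
  r i0 = 1 → (∀ i, 0 ≤ r i) →
  IntegrableOn (fun s : ℝ => s ^ ((d : ℝ) / 2 - 2) * volume.real (Kt p r (1 - s))) (Ioo 0 2) ∧
  ∫ x in {x | gmax p (fun i => r i ^ 2) x < 1}, (1 - gmax p (fun i => r i ^ 2) x) ^ ((d : ℝ) / 2 - 1) =
    ((d : ℝ) / 2 - 1) * ∫ s in Ioo (0 : ℝ) 2, s ^ ((d : ℝ) / 2 - 2) * volume.real (Kt p r (1 - s))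

/-- the weight at `s = 1 - τ`: `s^(d/2-2) (2-s)^(d/2)` -/
noncomputable def wt (d : ℕ) (s : ℝ) : ℝ := s ^ ((d : ℝ) / 2 - 2) * (2 - s) ^ ((d : ℝ) / 2)

/-- The weight is concentrated near `s = 1`. With `τ = 1 - s`: `wt = (1-τ²)^(d/2-2) (1+τ)²`.
For `|τ| > h`: `≤ 4 (1-h²)^(d/2-2)`, total `≤ 8 (1-h²)^(d/2-2)`. For `|τ| ≤ h/2` (length `h`):
`≥ (1-h²/4)^(d/2-2)/4`. `1 - h² ≤ (1 - h²/4)(1 - h²/2)`. So the quotient is at most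
`(32/h) (1-h²/2)^(d/2-2) ≤ exp (-c1 d)` for large `d` (`c1 = h²/8`). -/
def R_Mu : Prop := ∀ h : ℝ, 0 < h → h ≤ 1 / 2 → ∃ (c1 : ℝ) (d1 : ℕ), 0 < c1 ∧ 4 ≤ d1 ∧ ∀ d ≥ d1,
  IntegrableOn (wt d) (Ioo 0 2) ∧ 0 < ∫ s in Icc (1 - h) (1 + h), wt d s ∧
  ∫ s in Ioo (0 : ℝ) 2 \ Icc (1 - h) (1 + h), wt d s ≤
    Real.exp (-(c1 * d)) * ∫ s in Icc (1 - h) (1 + h), wt d s

/-- The window comparison. Uses `GPlusStmt`, `R_Kt`, `R_Inc`, `R_Lay`, `R_Mu`. `l = 1 - h`,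
`p' = l • p`, `q' = l⁻¹ • q`: `Contr 1 p' q'` (`Contr ((1-h)²) p q`), both with the ball `i0`.
`GPlusStmt` with `a = r²`, `s = 1` and `R_Lay` (divide by `d/2 - 1 > 0`):
`∫_(0,2) s^(d/2-2) vol Kt p' r (1-s) ≤ ∫_(0,2) s^(d/2-2) vol Kt q' r (1-s)`.
Let `τ = 1 - s`, `|τ| ≤ h`: `l² = (1-h)² ≤ 1 - h ≤ 1 + τ`, `l² (1+τ) ≤ (1-h)²(1+h) ≤ 1`; by `R_Inc`
`vol Kt p' r τ ≥ (1+τ)^(d/2) V_p`, `vol Kt q' r τ ≤ (1+τ)^(d/2) V_q`, `V = vol Kt · r 0`. For the other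
`s` use `0 ≤` on the left and `R_Kt` (3) on the right: `V_p ∫_good wt ≤ V_q ∫_good wt + om d ∫_bad wt`;
divide by `∫_good wt`. -/
def R_W : Prop := ∀ h : ℝ, 0 < h → h ≤ 1 / 2 → ∃ (c1 : ℝ) (d1 : ℕ), 0 < c1 ∧ ∀ d ≥ d1,
  ∀ (N : ℕ) (p q : Fin N → E d) (r : Fin N → ℝ) (i0 : Fin N), Cfg ((1 - h) ^ 2) p q r i0 →
    volume.real (Kt p r 0) ≤ volume.real (Kt q r 0) + Real.exp (-(c1 * d)) * om d

/-- Brunn-Minkowski. Uses `BMStmt`, `VrBasicStmt`, `R_Kt`. `(1-b) • closedBall 0 1 + b • Kt q r 0 ⊆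
Kt (b • q) r 0`: `‖(1-b) x + b y - b q_i‖ ≤ (1-b) + b r_i ≤ r_i` (`r_i ≥ 1`); `vr (closedBall 0 1) = 1`,
monotonicity of `vr`. (`‖y - q_i‖² ≤ r_i² + 0`, `r_i ≥ 0`, gives `‖y - q_i‖ ≤ r_i`.) -/
def R_Cnv : Prop := ∀ (d N : ℕ), 0 < d → ∀ (q : Fin N → E d) (r : Fin N → ℝ) (i0 : Fin N) (b : ℝ),
  q i0 = 0 → r i0 = 1 → (∀ i, 1 ≤ r i) → 0 ≤ b → b ≤ 1 → (Kt q r 0).Nonempty →
  1 - vr (Kt (fun i => b • q i) r 0) ≤ b * (1 - vr (Kt q r 0))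

/-- Real numbers. `f(x) = x^(1/d)`. Case A, `P ≥ exp (-(c1/2) d)`: `θ = exp (-(c1/2) d)`,
`Q1 ≥ P - exp (-c1 d) ≥ P (1-θ)`, `f(Q1) ≥ f(P)(1-θ)` (`(1-θ)^(1/d) ≥ 1-θ`), `1 - f(Q1) ≤ 1 - f(P) + θ`;
`1 - f(P) ≥ (1-P)/d ≥ exp (-(c1/4) d)/d` (Bernoulli), so `θ ≤ (1-b)(1-f(P))` for large `d` and
`1 - f(Q) ≤ b (1 - f(P)) + b θ ≤ 1 - f(P)`. Case B, `P < exp (-(c1/2) d)`: `f(P) < exp (-c1/2)`,
`f(Q1) ≥ f(P) (4 sqrt d)^(-1/d) ≥ f(P) (1 - log (4 sqrt d)/d)`, so `1 - f(Q) ≤ b (1 - f(P)) + log (4 sqrt d)/d ≤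
1 - f(P)` for large `d`, because `(1-b)(1 - exp (-c1/2)) ≥ log (4 sqrt d)/d`. -/
def R_Num : Prop := ∀ b c1 : ℝ, 0 < b → b < 1 → 0 < c1 → ∃ d1 : ℕ, ∀ d ≥ d1, ∀ P Q1 Q : ℝ,
  0 < P → P ≤ 1 → 0 ≤ Q1 → 0 ≤ Q → P ≤ Q1 + Real.exp (-(c1 * d)) → P ≤ 4 * Real.sqrt d * Q1 →
  1 - Q ^ ((1 : ℝ) / d) ≤ b * (1 - Q1 ^ ((1 : ℝ) / d)) → P ≤ 1 - Real.exp (-(c1 / 4 * d)) → P ≤ Q

/-- The whole part: `S_Reg` from `Thm2pStmt`, `VrBasicStmt`, `R_Norm`, `R_Kt`, `R_W`, `R_Cnv`, `R_Num`.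
`b = max (sqrt c) (1/2)`, `h = 1 - sqrt b ≤ 1/2`, so `b = (1-h)²`; `c1` from `R_W`, `c2 = c1/4`. For
`Cfg c p q r i0` put `q1 = b⁻¹ • q`: `Contr b p q1` (`c/b ≤ b`), so `Cfg b p q1 r i0`.
`P = vol Kt p r 0 / om`, `Q1`, `Q` the same for `q1`, `q`; `vr = (·)^(1/d)` of these numbers (`om d` is the
volume of the open ball). If `Gt p r univ 0 ≤ exp (-c2 d) om` use `Main c c2` and `R_Kt` (4). Otherwise
`P ≤ 1 - exp (-(c1/4) d)`; `R_W`, `Thm2pStmt` with `Cp_le` (so `Q1 > 0`, `Kt q1 r 0` is nonempty), `R_Cnv`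
for `q = b • q1`, `R_Num`. -/
def R_Reg : Prop := S_Reg

end Pool.Agent.Lib.MP_0c1c75_co.KPI
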