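import Pool.Agent.Lib.MP_0c1c75_co.KPI.Iface
import Pool.Agent.Lib.MP_0c1c75_co.Spec4

/-!
# MP_0c1c75_co, project KPI: the inequality (STAR), step 1 of note 3812

Every statement `S_X` is to be proved as `theorem sX ... : S_X` in the file `KPI/X.lean`, namespace
`Pool.Agent.Lib.MP_0c1c75_co.KPI`; the statements named after `uses` are hypotheses of the theorem, in this order.
-/

set_option autoImplicit false

open MeasureTheory Set Metric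

namespace Pool.Agent.Lib.MP_0c1c75_co.KPI

/-- `max (‖x‖² - 1) (max_(i ∈ J) (‖x - p i‖² - r i²))`.  See `Finset.fold_max_le`, `Finset.fold_max_lt`,
`Finset.lt_fold_max`, `Finset.le_fold_max`. -/
noncomputable def gJ {d N : ℕ} (p : Fin N → E d) (r : Fin N → ℝ) (J : Finset (Fin N)) (x : E d) : ℝ :=
  J.fold max (‖x‖ ^ 2 - 1) (fun i => ‖x - p i‖ ^ 2 - r i ^ 2)

/-- (100 lines) **The outward map `y ↦ √(1 + t/‖y‖²) y` does not decrease volumes.**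

Proof.  Polar coordinates, `Polar.lint` in MP_0c1c75_co/Polar.lean (import it): for a fixed unit vector `u` let
`B = {τ > 0 | τ • u ∈ A}` (measurable).  Because of `√(1 - t/ρ²) ρ = √(ρ² - t)` for `ρ > 0`, `ρ² > t`, the set
`{ρ > 0 | t < ρ², √(1 - t/ρ²) • (ρ • u) ∈ A}` is the image of `B` under `τ ↦ √(τ² + t)` (injective on `τ > 0`, derivative `τ/√(τ² + t)`).
`lintegral_image_eq_lintegral_abs_deriv_mul`: its measure for the density `ρ^(d-1)` is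
`∫_B τ/√(τ² + t) · √(τ² + t)^(d-1) dτ = ∫_B τ √(τ² + t)^(d-2) dτ ≥ ∫_B τ^(d-1) dτ`.  (For the passage from the measure `volumeIoiPow` on the subtype `Ioi 0` to
the Lebesgue integral over a subset of `Ioi 0`: `volumeIoiPow` is `withDensity`, `lintegral_subtype_comap`.) -/
def S_Psh : Prop := ∀ (d : ℕ) (A : Set (E d)) (t : ℝ), 2 ≤ d → MeasurableSet A → 0 ≤ t →
  volume A ≤ volume {x : E d | t < ‖x‖ ^ 2 ∧ Real.sqrt (1 - t / ‖x‖ ^ 2) • x ∈ A}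

/-- (60 lines; uses `S_Psh`) **The removed volume does not decrease with the level.**

Proof.  `A = {y | ‖y‖² ≤ 1 + 0 ∧ ∃ i ∈ J, r i² + 0 < ‖y - q i‖²}` (measurable).  By `S_Psh` it suffices that
`{x | t < ‖x‖², √(1 - t/‖x‖²) • x ∈ A} ⊆ {x | ‖x‖² ≤ 1 + t ∧ ∃ i ∈ J, r i² + t < ‖x - q i‖²}` (the volumes are finite).  Let `y = s • x`,
`s = √(1 - t/‖x‖²) ∈ (0, 1]`, so `‖y‖² = ‖x‖² - t` and `‖x‖² ≤ 1 + t`.  If `r i² < ‖y - q i‖² = ‖y‖² - 2⟨y, q i⟩ + ‖q i‖²` then `⟨y, q i⟩ < 0` because of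
`‖y‖² ≤ 1`, `1 + ‖q i‖² ≤ r i²`.  So `⟨x, q i⟩ = ⟨y, q i⟩/s ≤ ⟨y, q i⟩` and `‖x - q i‖² = ‖y‖² + t - 2⟨x, q i⟩ + ‖q i‖² ≥ ‖y - q i‖² + t > r i² + t`. -/
def S_Mon : Prop := ∀ (d N : ℕ) (q : Fin N → E d) (r : Fin N → ℝ) (J : Finset (Fin N)), 2 ≤ d →
  (∀ i ∈ J, 1 + ‖q i‖ ^ 2 ≤ r i ^ 2) → ∀ t : ℝ, 0 ≤ t → Gt q r J 0 ≤ Gt q r J t

/-- (120 lines) **Layer cake, lower bound.**

Proof.  `φ t = a (S - t)^(a-1) ≥ 0` on `[0, S]`.  Pointwise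
`∫_(0..S) φ t [m x ≤ t ∧ t < g x] dt ≤ (max (S - m x) 0)^a - (max (S - g x) 0)^a`: with `u = max (m x) 0`, `v = min (g x) S` the left side is `0` if `v ≤ u`, otherwise
`(S - u)^a - (S - v)^a` (`-(S - t)^a` is a primitive of `φ`), `S - u ≤ S - m x`, `S - v = max (S - g x) 0`; the right side is always `≥ 0`.  Integrate over `X` and swap the integrals (everything is bounded on a
finite measure space, `integral_integral_swap`; or with lower integrals, `lintegral_lintegral_swap`; the right side is bounded by `(max M 0)^a`):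
`∫ ... dμ ≥ ∫_(0..S) φ t μ.real {x | m x ≤ t ∧ t < g x} dt ≥ V ∫_(0..S) φ t dt = V S^a`. -/
def S_Cake : Prop := ∀ (X : Type) [MeasurableSpace X] (μ : Measure X) [IsFiniteMeasure μ]
  (m g : X → ℝ) (a S V M : ℝ), Measurable m → Measurable g → (∀ x, m x ≤ g x) →
  (∀ x, S - m x ≤ M) → 1 ≤ a → 0 < S →
  (∀ t, 0 ≤ t → t < S → V ≤ μ.real {x | m x ≤ t ∧ t < g x}) →
  V * S ^ a ≤ ∫ x, (max (S - m x) 0 ^ a - max (S - g x) 0 ^ a) ∂μ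

/-- (100 lines; uses `GPlusStmt`) **Comparison.**

Proof.  `GPlusStmt` for `Fin (N + 1)`, `P = Fin.cons 0 (fun i => if i ∈ J then p i else 0)`, the same for `q`, and `a = Fin.cons 1 (fun i => if i ∈ J then r i ^ 2 else 1)`, `s = S`: it is `Contr 1`
(the distance of `q i` and `0` is at most the distance of `p i` and `0`), and `gmax P a x = gJ p r J x` (`⨆` over `Fin (N + 1)`: `le_antisymm`, `ciSup_le`, `le_ciSup`).  Since `‖x‖² - 1 ≤ gJ`, the set `{gJ < S}` is contained in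
`Bz d (1 + S)`, and outside of it `max (S - gJ) 0 = 0`, `0 ^ (d/2 - 1) = 0`; so both integrals in `GPlusStmt` are the integrals over `Bz d (1 + S)`
(`setIntegral_eq_of_subset_of_forall_diff_eq_zero`). -/
def S_CmpJ : Prop := ∀ (d N : ℕ) (p q : Fin N → E d) (r : Fin N → ℝ) (J : Finset (Fin N)) (S : ℝ),
  3 ≤ d → Contr 1 p q → (∀ i, ‖q i‖ ≤ ‖p i‖) →
  ∫ x in Bz d (1 + S), max (S - gJ p r J x) 0 ^ ((d : ℝ) / 2 - 1) ≤
    ∫ x in Bz d (1 + S), max (S - gJ q r J x) 0 ^ ((d : ℝ) / 2 - 1)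

/-- (80 lines) **Pointwise bounds.**

Proof.  (1) For `i ∈ J`, `h = r i² - 1 - ‖p i‖² = 2 ‖p i‖ kap > 0`: `‖x‖² - 1 < ‖x - p i‖² - r i²` iff `h < -2⟨x, p i⟩` iff `1 < ⟨nv (p i) (r i), x⟩`
(`nv = -(2/h) • p i`).  So if `‖x‖² - 1 < gJ` then (`Finset.lt_fold_max`) `x ∈ Un (Nv p r J)`.
(2) `gJ - (‖x‖² - 1) ≤ 4 e √(1 + S)`: `‖x - p i‖² - r i² - (‖x‖² - 1) = -2⟨x, p i⟩ - h ≤ 2 ‖x‖ ‖p i‖`, `‖x‖ ≤ √(1 + S)`, `‖p i‖ ≤ 2 e` (`Finset.fold_max_le`).  For `0 ≤ y ≤ z`, `a ≥ 1`: `z^a - y^a ≤ a z^(a-1) (z - y)` (mean value theorem or convexity), with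
`z = S - (‖x‖² - 1) ≥ 0`, `y = max (S - gJ) 0`, `z - y ≤ gJ - (‖x‖² - 1)`. -/
def S_Ptw : Prop := ∀ (d N : ℕ) (p : Fin N → E d) (r : Fin N → ℝ) (J : Finset (Fin N)) (S : ℝ),
  0 < S → (∀ i ∈ J, 0 < ‖p i‖ ∧ 0 < kap (p i) (r i)) → ∀ x ∈ Bz d (1 + S),
  ‖x‖ ^ 2 - 1 ≤ gJ p r J x ∧ (x ∉ Un (Nv p r J) → gJ p r J x = ‖x‖ ^ 2 - 1) ∧
  ∀ e a : ℝ, 0 < e → 1 ≤ a → (∀ i ∈ J, ‖p i‖ ≤ 2 * e) →
    (1 + S - ‖x‖ ^ 2) ^ a - max (S - gJ p r J x) 0 ^ a ≤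
      a * (1 + S - ‖x‖ ^ 2) ^ (a - 1) * (4 * e * Real.sqrt (1 + S))

/-- (150 lines; uses `S_Mon`, `S_Cake`, `S_CmpJ`, `S_Ptw`) **(STAR) = `S_Star` of Iface.lean.**

Proof.  `a = d/2 - 1 ≥ 3`, `m x = ‖x‖² - 1`, `μ = volume.restrict (Bz d (1 + S))` (finite), `V = Gt q r J 0`.  For `i ∈ J` `r i² > 1 + ‖p i‖² ≥ 1 + ‖q i‖²` (`kap > 0`).  For `0 ≤ t < S` the set `{x | m x ≤ t ∧ t < gJ q r J x}` is
`{x | ‖x‖² ≤ 1 + t ∧ ∃ i ∈ J, r i² + t < ‖x - q i‖²}` (`Finset.lt_fold_max`), contained in `Bz d (1 + S)`, so `μ.real` of it is `Gt q r J t ≥ V` (`S_Mon`).  `S_Cake` (`M = 1 + S`), `S_CmpJ`: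
`V S^a ≤ ∫_(Bz) ((max (S - m) 0)^a - (max (S - gJ q) 0)^a) ≤ ∫_(Bz) ((max (S - m) 0)^a - (max (S - gJ p) 0)^a)` (all functions are measurable and bounded by `(1 + S)^a` on `Bz`; `gJ` is continuous: induction on `J` or `Measurable`).  On `Bz d (1 + S)` `max (S - m) 0 = 1 + S - ‖x‖²`.
By `S_Ptw` the integrand is `0` outside of `Un (Nv p r J)` and (1) at most `(1 + S - ‖x‖²)^a`, (2) at most `a (1 + S - ‖x‖²)^(a-1) 4 e √(1 + S)`; so the integral is at most the integral of this bound over `Un (Nv p r J) ∩ Bz d (1 + S)`.  Divide by `S^a`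
(`Real.div_rpow`; `4 a = 2 d - 4 ≤ 2 d`, `a - 1 = d/2 - 2`). -/
def S_StarA : Prop := S_Star

end Pool.Agent.Lib.MP_0c1c75_co.KPI
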